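import Pool.Agent.MP_c5bf7b_nt.H25L.SpecN

/-! Row AD: the costs computed by the checker are admissible. -/

set_option autoImplicit false

namespace Pool.Agent.MP_c5bf7b_nt.H25L.Nm

open Pool.Agent.MP_c5bf7b_nt.H38

namespace AdL

theorem ok_facts {nE : ℕ} {c : Con} (h : okC nE c = true) :
    1 ≤ c.x ∧ c.x ≤ 5000 ∧ 1 ≤ c.M := by
  simp only [okC, okP, Bool.and_eq_true, Nat.ble_eq] at h
  exact ⟨h.1.1.1.1.1.1.1.1.1.1.1.1.1.1.1.1.1.1, h.1.1.1.1.1.1.1.1.1.1.1.1.1.1.1.1.1.2,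
    h.1.1.1.1.1.1.1.2⟩

theorem vK (c : Con) (k : ℕ) : v (K0 c k) = v c.s + 1 / 8 + k * v c.cE := by
  have e : K0 c k = c.s + 125000000000000000 + k * c.cE := rfl
  have e2 : v 125000000000000000 = 1 / 8 := by norm_num [v]
  rw [e, v_add, v_add, v_mul, e2]

theorem v_shr (a e : ℕ) : v ((a.mul e).shiftRight 96) ≤ v a * vP e := by
  unfold v vP
  rw [div_le_iff₀ (by positivity)]
  refine (shr_le _ _).trans (le_of_eq ?_)
  rw [Nat.mul_eq]
  push_cast
  ring

theorem vAc (hX : XpS) (c : Con) : v (Ac c) ≤ v c.cap * Real.exp (ml c.ds * ml c.x) := by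
  have h1 := (hX.1 ((c.ds.mul c.x).mul 1000)).1
  have e : (((c.ds.mul c.x).mul 1000 : ℕ) : ℝ) / 10 ^ 9 = ml c.ds * ml c.x := by
    rw [Nat.mul_eq, Nat.mul_eq]
    unfold ml
    push_cast
    ring
  rw [e] at h1
  exact (mD_le _ _).trans
    (mul_le_mul_of_nonneg_left ((sD_le _).trans h1) (v_nonneg _))

theorem r1_le (c : Con) (ex De cc : ℕ) (h : v c.M * v cc ≤ v De) :
    v (r1 c ex De cc) ≤ v cc * (2 * v De - v c.M * v cc) ∧
      v (r1 c ex De cc) ≤ v c.ro * v cc + v ex := by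
  have e : r1 c ex De cc = min (mD cc (De + De - mU c.M cc)) (mD c.ro cc + ex) := mn_eq _ _
  rw [e]
  constructor
  · refine (v_mono (min_le_left _ _)).trans ((mD_le _ _).trans ?_)
    refine mul_le_mul_of_nonneg_left ?_ (v_nonneg _)
    have h1 := le_mU c.M cc
    have h2 := v_nonneg De
    rw [v_sub_max, v_add]
    exact max_le (by linarith) (by linarith)
  · refine (v_mono (min_le_right _ _)).trans ?_
    have h1 := mD_le c.ro cc
    rw [v_add]
    linarith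

theorem rC_cases (c : Con) (K ex F e : ℕ) :
    rC c K ex F e = 0 ∨ K + 1000000000000000 ≤ F ∧ rC c K ex F e = r2 c ex (F - K) e := by
  unfold rC
  rcases Bool.eq_false_or_eq_true ((K.add 1000000000000000).ble F) with hb | hb
  · right
    rw [hb, cond_true, Nat.sub_eq]
    rw [Nat.ble_eq, Nat.add_eq] at hb
    exact ⟨hb, rfl⟩
  · left
    rw [hb, cond_false]

theorem r2_spec (c : Con) (ex De e : ℕ) (hM : 1 ≤ c.M) :
    ∃ t : ℝ, 0 ≤ t ∧ t ≤ v c.cap ∧ t ≤ v (Ac c) * vP e ∧ v c.M * t ≤ v De ∧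
      v (r2 c ex De e) ≤ t * (2 * v De - v c.M * t) ∧ v (r2 c ex De e) ≤ v c.ro * t + v ex := by
  unfold r2
  have c3 := v_shr (Ac c) e
  generalize ((Ac c).mul e).shiftRight 96 = z at c3 ⊢
  have c2 := dD_le De c.M
  generalize dD De c.M = y at c2 ⊢
  rw [mn_eq, mn_eq]
  have hM0 : 0 < v c.M := v_pos hM
  have c4 : v c.M * v (min (min c.cap y) z) ≤ v De := by
    have c5 : v (min (min c.cap y) z) ≤ v De / v c.M :=
      (v_mono ((min_le_left _ _).trans (min_le_right _ _))).trans c2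
    rw [le_div_iff₀ hM0] at c5
    linarith
  obtain ⟨g1, g2⟩ := r1_le c ex De _ c4
  exact ⟨_, v_nonneg _, v_mono ((min_le_left _ _).trans (min_le_left _ _)),
    (v_mono (min_le_right _ _)).trans c3, c4, g1, g2⟩

theorem core (hL : LpS) (hA : AdmS) (hX : XpS) {nE : ℕ} {c : Con} (h : okC nE c = true)
    (k ex F e : ℕ) (l l0 : ℝ) (hl : l ≤ l0) (hF : v F ≤ FF c.x (l0 - ml c.w))
    (he : vP e * Real.exp ((l - ml c.w) * ml c.x) ≤ 1) :
    (toDZ nE c).Ad l k (v ex) (v (rC c (K0 c k) ex F e)) := by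
  obtain ⟨hx1, hx5, hM⟩ := ok_facts h
  have hK0 := vK c k
  generalize K0 c k = K at hK0 ⊢
  rcases rC_cases c K ex F e with h0 | ⟨hb, h0⟩
  · rw [h0]
    exact Or.inl v_zero.le
  rw [h0]
  have hK : K ≤ F := le_trans (Nat.le_add_right _ _) hb
  have hx5' : ml c.x ≤ 5 := (ml_mono hx5).trans (by norm_num [ml])
  have hanti : Antitone (Lr (par (ml c.x)) (ml c.x)) :=
    (hL _ _ (hA.1 _ (ml_pos hx1) hx5')).2.2.1
  have d1 : v (F - K) = v F - (v c.s + 1 / 8 + k * v c.cE) := by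
    rw [v_sub hK, hK0]
  have d2 : 1 / 1000 ≤ v (F - K) := by
    have e3 : v 1000000000000000 = 1 / 1000 := by norm_num [v]
    rw [← e3]
    exact v_mono (Nat.le_sub_of_add_le' hb)
  have d3 : FF c.x (l0 - ml c.w) ≤ Lr (par (ml c.x)) (ml c.x) (l - ml c.w) :=
    hanti (by linarith)
  obtain ⟨t, t0, t1, t2, t3, g1, g2⟩ := r2_spec c ex (F - K) e hM
  refine Or.inr ⟨t, v (F - K), ⟨t0, t1, ?_⟩, ?_, d2, t3, g1, g2⟩
  · change t * Real.exp ((l - ml c.w) * ml c.x) ≤ v c.cap * Real.exp (ml c.ds * ml c.x)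
    calc t * Real.exp ((l - ml c.w) * ml c.x)
        ≤ v (Ac c) * vP e * Real.exp ((l - ml c.w) * ml c.x) :=
          mul_le_mul_of_nonneg_right t2 (Real.exp_pos _).le
      _ = v (Ac c) * (vP e * Real.exp ((l - ml c.w) * ml c.x)) := mul_assoc _ _ _
      _ ≤ v (Ac c) * 1 := mul_le_mul_of_nonneg_left he (v_nonneg _)
      _ ≤ _ := by rw [mul_one]; exact vAc hX c
  · change v (F - K) ≤ Lr (par (ml c.x)) (ml c.x) (l - ml c.w) - 1 / 8 - v c.s - k * v c.cE
    linarith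

theorem exp_one {p y z : ℝ} (hp : p ≤ Real.exp (-y)) (hz : z ≤ y) : p * Real.exp z ≤ 1 := by
  calc p * Real.exp z ≤ Real.exp (-y) * Real.exp y :=
        mul_le_mul hp (Real.exp_le_exp.2 hz) (Real.exp_pos _).le (Real.exp_pos _).le
    _ = 1 := by rw [← Real.exp_add, neg_add_cancel, Real.exp_zero]

theorem e_le (hX : XpS) (a x k : ℕ) :
    vP (pwD (yL (a.mul 1000)) (yL (x.mul 5000)) k) ≤
      Real.exp (-(((a.add ((x.mul 5).mul k) : ℕ) : ℝ) / 10 ^ 6)) := by
  have h1 := (hX.1 (a.mul 1000)).2.2.1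
  have h2 := (hX.1 (x.mul 5000)).2.2.1
  refine (vP_pwD _ _ _).trans ((mul_le_mul h1 (pow_le_pow_left₀ (vP_nonneg _) h2 k)
    (pow_nonneg (vP_nonneg _) k) (Real.exp_pos _).le).trans (le_of_eq ?_))
  rw [← Real.exp_nat_mul, ← Real.exp_add]
  congr 1
  simp only [Nat.add_eq, Nat.mul_eq]
  push_cast
  ring

theorem part1 (hL : LpS) (hA : AdmS) (hX : XpS) (hF : FfS) (nE kE j0 : ℕ) (c : Con) (l : ℝ)
    (h : okC nE c = true) (hw : c.w ≤ 5 * j0) : (toDZ nE c).Ad l kE 0 (rr c kE j0 l) := by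
  obtain ⟨hx1, -, -⟩ := ok_facts h
  unfold rr rk
  obtain ⟨k, hk⟩ : ∃ k, k = ⌊200 * l⌋₊ - j0 := ⟨_, rfl⟩
  rw [← hk]
  split_ifs with hn
  swap
  · exact Or.inl le_rfl
  have hl : l ≤ ((j0 : ℝ) + k + 1) / 200 := by
    have h1 := Nat.lt_floor_add_one (200 * l)
    have h2 : ⌊200 * l⌋₊ ≤ j0 + k := by omega
    have h3 : (⌊200 * l⌋₊ : ℝ) ≤ j0 + k := by exact_mod_cast h2
    rw [le_div_iff₀ (by norm_num)]
    linarith
  have hA' : ml c.x * (((j0 : ℝ) + k + 1) / 200 - ml c.w) =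
      (((a0 c j0).add ((c.x.mul 5).mul k) : ℕ) : ℝ) / 10 ^ 6 := by
    have e : (a0 c j0).add ((c.x.mul 5).mul k) = c.x * (j0 * 5 + 5 - c.w) + c.x * 5 * k := rfl
    rw [e]
    unfold ml
    push_cast [Nat.cast_sub (show c.w ≤ j0 * 5 + 5 by omega)]
    ring
  have he := e_le hX (a0 c j0) c.x k
  have := core hL hA hX h kE 0 _ _ l _ hl (hF.1 c.x _ _ _ hx1 hA' he)
    (exp_one he (by
      rw [← hA', mul_comm]
      exact mul_le_mul_of_nonneg_left (by linarith) (ml_nonneg _)))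
  rw [v_zero] at this
  exact this

theorem part2 (hL : LpS) (hA : AdmS) (hX : XpS) (hF : FfS) (nE k b : ℕ) (c : Con) (l : ℝ)
    (h : okC nE c = true) (hl : l ≤ ml b) : (toDZ nE c).Ad l k (v c.ex) (v (rE c k b)) := by
  obtain ⟨hx1, -, -⟩ := ok_facts h
  refine core hL hA hX h k c.ex _ _ l (ml b) hl (hF.2 c.x b c.w hx1).1 ?_
  cases hb : b.ble c.w with
  | true =>
    rw [Nat.ble_eq] at hb
    have e : vP (bif true then 79228162514264337593543950336
        else yL ((c.x.mul (b.sub c.w)).mul 1000)) = 1 := by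
      change vP 79228162514264337593543950336 = 1
      norm_num [vP]
    rw [e, one_mul, Real.exp_le_one_iff]
    exact mul_nonpos_of_nonpos_of_nonneg (by linarith [ml_mono hb]) (ml_nonneg _)
  | false =>
    have hb' : c.w ≤ b := by
      by_contra hc
      rw [Nat.ble_eq.mpr (show b ≤ c.w by omega)] at hb
      exact Bool.noConfusion hb
    refine exp_one (hX.1 ((c.x.mul (b.sub c.w)).mul 1000)).2.2.1 ?_
    have e : (((c.x.mul (b.sub c.w)).mul 1000 : ℕ) : ℝ) / 10 ^ 9 = (ml b - ml c.w) * ml c.x := by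
      rw [Nat.mul_eq, Nat.mul_eq, Nat.sub_eq]
      unfold ml
      push_cast [Nat.cast_sub hb']
      ring
    rw [e]
    exact mul_le_mul_of_nonneg_right (by linarith) (ml_nonneg _)

theorem addC_le (kE j0 T k : ℕ) (c : Con) :
    v (gt (addC kE j0 T c) k) ≤ v (gt T k) + v c.y * rk c kE j0 k := by
  unfold addC rk
  by_cases hk : k < c.n
  · refine (v_mono (gt_bld_le _ _ _ _ hk)).trans ?_
    rw [if_pos hk, Nat.add_eq, v_add]
    linarith [mD_le c.y (rL c (K0 c kE) j0 k)]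
  · rw [gt_bld, if_neg hk, if_neg hk, gt_shr, Nat.sub_add_cancel (not_lt.1 hk), mul_zero, add_zero]

theorem part3 (kE j0 T k : ℕ) (cs : List Con) :
    v (gt (addL kE j0 T cs) k) ≤ v (gt T k) + (cs.map fun c => v c.y * rk c kE j0 k).sum := by
  induction cs generalizing T with
  | nil =>
    change v (gt T k) ≤ _
    simp
  | cons c cs ih =>
    have e : addL kE j0 T (c :: cs) = addL kE j0 (addC kE j0 T c) cs := by
      change fc (addC kE j0 T c) (fun T => addL kE j0 T cs) = _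
      rw [fc_eq]
    rw [e, List.map_cons, List.sum_cons]
    linarith [ih (addC kE j0 T c), addC_le kE j0 T k c]

end AdL

theorem adOf : AdOf := fun hL hA hX hF =>
  ⟨AdL.part1 hL hA hX hF, AdL.part2 hL hA hX hF, AdL.part3⟩

end Pool.Agent.MP_c5bf7b_nt.H25L.Nm
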