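import Pool.Agent.MP_c5bf7b_nt.H25L.SpecA
import Pool.Agent.MP_c5bf7b_nt.H38.Cnt

/-! Zeros in the wider rectangle: existence and local counts. -/

set_option autoImplicit false

namespace Pool.Agent.MP_c5bf7b_nt.H25L

open Finset Complex Pool.Agent.MP_c5bf7b_nt.H38

namespace Cnt5L

theorem compact_rect5 (T : ℝ) : IsCompact (Rect5 T) := by
  have : Rect5 T = Set.Icc (5 / 8 : ℝ) 1 ×ℂ Set.Icc (-T) T := by
    ext s
    simp only [Rect5, Set.mem_ofPred_eq, mem_reProdIm, Set.mem_Icc, abs_le, and_assoc]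
  rw [this]
  exact isCompact_Icc.reProdIm isCompact_Icc

theorem extend {f G : ℂ → ℂ} {T : ℝ} {Z : Multiset ℂ} (h : IsZ f T Z G) (h2 : f 2 ≠ 0) :
    ∃ Z' G', IsZ5 f T (Z + Z') G' ∧ ∀ ρ ∈ Z', ρ.re < 2 / 3 := by
  have hG : G 2 ≠ 0 := fun h0 => h2 (by rw [h.2.1, h0, mul_zero])
  obtain ⟨S, hS⟩ := CntAux.finite_zeros h.1 hG (compact_rect5 T)
  obtain ⟨Z', G', h1, h3, h4, h5⟩ := CntAux.factor (Rect5 T) S G h.1 ⟨2, hG⟩ hS
  refine ⟨Z', G', ⟨h1, fun s => ?_, fun ρ hρ => ?_, h5⟩, fun ρ hρ => ?_⟩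
  · rw [h.2.1, h3]
    simp only [PZ, Multiset.map_add, Multiset.prod_add, mul_assoc]
  · rcases Multiset.mem_add.1 hρ with hρ | hρ
    · obtain ⟨a, b, c⟩ := h.2.2.1 ρ hρ
      exact ⟨by linarith, b, c⟩
    · exact h4 ρ hρ
  · by_contra hc
    refine h.2.2.2 ρ ⟨not_lt.1 hc, (h4 ρ hρ).2⟩ ?_
    rw [h3, CntAux.PZ_eq_zero.2 hρ, zero_mul]

end Cnt5L

theorem cnt5Of : Cnt5Of := by
  classical
  rintro ⟨A, hA⟩ ⟨C, hC, hgf⟩
  have hA1 : (1 : ℝ) ≤ (A : ℝ) + 1 := by have := Nat.cast_nonneg (α := ℝ) A; linarith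
  refine ⟨C * (A + 1), one_le_mul_of_one_le_of_one_le hC hA1, fun q _ χ hq => ?_⟩
  obtain ⟨-, hne, hB, h13, -, -⟩ := hA q χ hq
  have hq2 : (2 : ℝ) ≤ q := by exact_mod_cast hq
  have hq1 : (1 : ℝ) ≤ q := by linarith
  have hl : 0 < Real.log q := Real.log_pos (by linarith)
  have hlc : (Real.log q : ℂ) ≠ 0 := by exact_mod_cast hl.ne'
  have hre : ∀ ρ : ℂ, (nz q ρ).re = (1 - ρ.re) * Real.log q := fun ρ => by
    simp [nz, -natCast_log]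
  have him : ∀ ρ : ℂ, (nz q ρ).im = -ρ.im * Real.log q := fun ρ => by
    simp [nz, -natCast_log]
  refine ⟨?_, ?_⟩
  · rintro Y ⟨Z, G, hZ, rfl⟩
    obtain ⟨Z', G', h1, h2⟩ := Cnt5L.extend hZ (hne 2 (by simp))
    refine ⟨Z'.map (nz q), ⟨_, G', h1, (Multiset.map_add _ _ _).symm⟩, fun ζ hζ => ?_⟩
    obtain ⟨ρ, hρ, rfl⟩ := Multiset.mem_map.1 hζ
    have := h2 ρ hρ
    rw [hre]
    nlinarith
  rintro Y ⟨Z, G, hZ, rfl⟩
  have hzero : ∀ ρ ∈ Z, Phi χ ρ = 0 := fun ρ hρ => by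
    rw [hZ.2.1, CntAux.PZ_eq_zero.2 hρ, zero_mul]
  refine ⟨fun τ => ?_, ?_⟩
  · have h2 : (2 : ℝ) ≤ (q : ℝ) ^ (A + 1) :=
      hq2.trans (le_self_pow₀ hq1 (Nat.succ_ne_zero A))
    have h3 : (2 : ℝ) ≤ (q : ℝ) ^ 3 := hq2.trans (le_self_pow₀ hq1 (by norm_num))
    have h4 := (hgf (Phi χ) G Z ((q : ℝ) ^ (A + 1)) ((q : ℝ) ^ 3) h2 h3 hZ
      (fun s hs => hne s hs.le)
      (fun s h1 h2 h3 => (hB s h1 h2 h3).trans (pow_le_pow_right₀ hq1 (Nat.le_succ A)))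
      (fun τ _ => h13 τ)).1 (-τ / Real.log q)
    rw [Real.log_pow] at h4
    rw [Multiset.filter_map, Multiset.card_map]
    have h5 : Z.filter ((fun ζ : ℂ => |ζ.im - τ| ≤ Real.log q) ∘ nz q) =
        Z.filter fun ρ => |ρ.im - -τ / Real.log q| ≤ 1 := by
      refine Multiset.filter_congr fun ρ _ => ?_
      have e : (nz q ρ).im - τ = -((ρ.im - -τ / Real.log q) * Real.log q) := by
        rw [him]; field_simp; ring
      simp only [Function.comp]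
      rw [e, abs_neg, abs_mul, abs_of_pos hl, mul_le_iff_le_one_left hl]
    rw [h5]
    refine h4.trans (le_of_eq ?_)
    push_cast
    ring
  · intro ζ hζ
    obtain ⟨ρ, hρ, rfl⟩ := Multiset.mem_map.1 hζ
    obtain ⟨h1, h2, h3⟩ := hZ.2.2.1 ρ hρ
    have h4 : ρ.re < 1 := by
      by_contra h
      exact hne ρ (not_lt.1 h) (hzero ρ hρ)
    refine ⟨?_, ?_, ?_, ?_⟩
    · rw [hre]; exact mul_pos (by linarith) hl
    · rw [hre]; nlinarith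
    · rw [him, abs_mul, abs_neg, abs_of_pos hl]
      exact mul_le_mul_of_nonneg_right h3 hl.le
    · have : 1 - nz q ρ / Real.log q = ρ := by
        rw [nz, mul_div_cancel_right₀ _ hlc]; ring
      rw [this]; exact hzero ρ hρ

end Pool.Agent.MP_c5bf7b_nt.H25L
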