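import Pool.Agent.MP_c5bf7b_nt.H25L.SpecC

/-! The zeros of the inverse character are the conjugates of the zeros of the character. -/

set_option autoImplicit false

namespace Pool.Agent.MP_c5bf7b_nt.H25L

open Finset Complex Pool.Agent.MP_c5bf7b_nt.H38

namespace ConjL

lemma pz_cons (a : ℂ) (Z : Multiset ℂ) (s : ℂ) : PZ (a ::ₘ Z) s = (s - a) * PZ Z s := by
  simp [PZ]

lemma pz_cont (Z : Multiset ℂ) : Continuous (PZ Z) := by
  induction Z using Multiset.induction_on with
  | empty =>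
    have : PZ 0 = fun _ => 1 := by funext s; simp [PZ]
    rw [this]; exact continuous_const
  | cons a Z ih =>
    have : PZ (a ::ₘ Z) = fun s => (s - a) * PZ Z s := by funext s; exact pz_cons a Z s
    rw [this]; exact (continuous_id.sub continuous_const).mul ih

lemma mem_of_pz (Z : Multiset ℂ) (a : ℂ) (h : PZ Z a = 0) : a ∈ Z := by
  unfold PZ at h
  rw [Multiset.prod_eq_zero_iff, Multiset.mem_map] at h
  obtain ⟨ρ, hρ, h0⟩ := h
  have : a = ρ := sub_eq_zero.mp h0
  exact this ▸ hρ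

lemma uniq (R : Set ℂ) (G G' : ℂ → ℂ) (hG : Continuous G) (hG' : Continuous G')
    (h0 : ∀ s ∈ R, G s ≠ 0) (h0' : ∀ s ∈ R, G' s ≠ 0) :
    ∀ Z Z' : Multiset ℂ, (∀ ρ ∈ Z, ρ ∈ R) → (∀ ρ ∈ Z', ρ ∈ R) →
      (∀ s, PZ Z s * G s = PZ Z' s * G' s) → Z = Z' := by
  classical
  intro Z
  induction Z using Multiset.induction_on with
  | empty =>
    intro Z' _ hZ' h
    by_contra hne
    obtain ⟨a, ha⟩ := Multiset.exists_mem_of_ne_zero (Ne.symm hne)
    obtain ⟨W, rfl⟩ := Multiset.exists_cons_of_mem ha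
    have h1 := h a
    rw [pz_cons] at h1
    simp only [PZ, Multiset.map_zero, Multiset.prod_zero, one_mul, sub_self, zero_mul] at h1
    exact h0 a (hZ' a ha) h1
  | cons a Z ih =>
    intro Z' hZ hZ' h
    have haR : a ∈ R := hZ a (Multiset.mem_cons_self a Z)
    have h1 := h a
    rw [pz_cons, sub_self, zero_mul, zero_mul] at h1
    have h2 : PZ Z' a = 0 := by
      rcases mul_eq_zero.mp h1.symm with h2 | h2
      · exact h2
      · exact absurd h2 (h0' a haR)
    obtain ⟨W, rfl⟩ := Multiset.exists_cons_of_mem (mem_of_pz Z' a h2)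
    have h3 : (fun s => PZ Z s * G s) = fun s => PZ W s * G' s := by
      refine Continuous.ext_on (dense_compl_singleton a) ((pz_cont Z).mul hG)
        ((pz_cont W).mul hG') ?_
      intro s hs
      have hs' : s - a ≠ 0 := sub_ne_zero.mpr hs
      have h4 := h s
      rw [pz_cons, pz_cons, mul_assoc, mul_assoc] at h4
      exact mul_left_cancel₀ hs' h4
    rw [ih W (fun ρ hρ => hZ ρ (Multiset.mem_cons_of_mem hρ))
      (fun ρ hρ => hZ' ρ (Multiset.mem_cons_of_mem hρ)) (fun s => congrFun h3 s)]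

lemma pz_conj (Z : Multiset ℂ) (s : ℂ) :
    PZ (Z.map (starRingEnd ℂ)) s = (starRingEnd ℂ) (PZ Z ((starRingEnd ℂ) s)) := by
  induction Z using Multiset.induction_on with
  | empty => simp [PZ]
  | cons a Z ih =>
    rw [Multiset.map_cons, pz_cons, pz_cons, ih, map_mul, map_sub, Complex.conj_conj]

lemma rect_conj (T : ℝ) (s : ℂ) (h : s ∈ Rect T) : (starRingEnd ℂ) s ∈ Rect T := by
  obtain ⟨h1, h2, h3⟩ := h
  refine ⟨by simpa using h1, by simpa using h2, by simpa using h3⟩

end ConjL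

open ConjL in
theorem conjOf : ConjOf := by
  intro hP q _ χ Y Y' hq hY hY'
  obtain ⟨A, hA⟩ := hP
  obtain ⟨-, -, -, -, hc, -⟩ := hA q χ hq
  obtain ⟨Z, G, ⟨hG, hf, hZ, h0⟩, rfl⟩ := hY
  obtain ⟨Z', G', ⟨hG', hf', hZ', h0'⟩, rfl⟩ := hY'
  have hE : Z' = Z.map (starRingEnd ℂ) := by
    refine uniq (Rect ((q : ℝ) ^ 3)) G' (fun s => (starRingEnd ℂ) (G ((starRingEnd ℂ) s)))
      hG'.continuous
      (Complex.continuous_conj.comp (hG.continuous.comp Complex.continuous_conj)) h0' ?_ _ _ hZ'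
      ?_ ?_
    · intro s hs h
      exact h0 _ (rect_conj _ s hs) ((map_eq_zero _).mp h)
    · intro ρ hρ
      obtain ⟨a, ha, rfl⟩ := Multiset.mem_map.mp hρ
      exact rect_conj _ a (hZ a ha)
    · intro s
      rw [← hf' s, pz_conj, ← map_mul, ← hf, ← hc, Complex.conj_conj]
  rw [hE, Multiset.map_map, Multiset.map_map]
  refine Multiset.map_congr rfl ?_
  intro ρ _
  simp only [Function.comp, nz, map_mul, map_sub, map_one, Complex.conj_ofReal]

end Pool.Agent.MP_c5bf7b_nt.H25L
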