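import Pool.Agent.MP_c5bf7b_nt.H25L.SpecA
import Pool.Agent.MP_74e98a_nt.H25.Div

/-! The zero density estimate with exponent `11 / 4`. -/

set_option autoImplicit false

namespace Pool.Agent.MP_c5bf7b_nt.H25L

open Finset Complex ArithmeticFunction Pool.Agent.MP_c5bf7b_nt.H38

namespace Den5L

theorem left_real {c s H A B G : ℝ} (hs : 20 ≤ s) (hH0 : 0 ≤ H) (hH : H ≤ s) (hG : 0 ≤ G)
    (hA : A ≤ s * G) (hB : B ≤ G) (h : c * s⁻¹ ^ 2 ≤ 10 * H ^ 2 * s ^ 2 * (A + B)) :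
    c ≤ s ^ 8 * G := by
  have s0 : 0 < s := by linarith
  have h1 : A + B ≤ 2 * s * G := by nlinarith
  have h2 : H ^ 2 ≤ s ^ 2 := pow_le_pow_left₀ hH0 hH 2
  have h3 : 10 * H ^ 2 * s ^ 2 * (A + B) ≤ 10 * s ^ 2 * s ^ 2 * (2 * s * G) :=
    (mul_le_mul_of_nonneg_left h1 (by positivity)).trans (by gcongr)
  have h4 := mul_le_mul_of_nonneg_right (h.trans h3) (sq_nonneg s)
  have h5 : c * s⁻¹ ^ 2 * s ^ 2 = c := by field_simp
  rw [h5] at h4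
  have h6 : 20 * (s ^ 7 * G) ≤ s * (s ^ 7 * G) := mul_le_mul_of_nonneg_right hs (by positivity)
  nlinarith

theorem right_real {c s H m M P G : ℝ} (hs : 20 ≤ s) (hc : 0 ≤ c) (hH : H ≤ s) (hG : 0 ≤ G)
    (hm : 0 ≤ m) (hP : 0 ≤ P) (h1 : m * P * s ^ 7 ≤ 1) (h2 : m * M ≤ s * G)
    (h : c * s⁻¹ ^ 2 ≤ 4 * s ^ 2 * m * (M + 4 * c * P * H)) : c ≤ s ^ 8 * G := by
  have s0 : 0 < s := by linarith
  have h4 := mul_le_mul_of_nonneg_right h (sq_nonneg s)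
  have h5 : c * s⁻¹ ^ 2 * s ^ 2 = c := by field_simp
  rw [h5] at h4
  have h6 : 4 * s ^ 2 * m * (M + 4 * c * P * H) * s ^ 2 =
      4 * s ^ 4 * (m * M) + 16 * (c * (m * P * s ^ 4)) * H := by ring
  have h7 : 16 * (c * (m * P * s ^ 4)) * H ≤ 16 * (c * (m * P * s ^ 4)) * s :=
    mul_le_mul_of_nonneg_left hH (by positivity)
  have h8 : 32 * (m * P * s ^ 5) ≤ 1 := by
    have : 32 * (m * P * s ^ 5) ≤ s ^ 2 * (m * P * s ^ 5) :=
      mul_le_mul_of_nonneg_right (by nlinarith) (by positivity)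
    nlinarith
  have h9 := mul_le_mul_of_nonneg_left h8 hc
  have h10 : 4 * s ^ 4 * (m * M) ≤ 4 * s ^ 4 * (s * G) :=
    mul_le_mul_of_nonneg_left h2 (by positivity)
  have h11 : 8 * (s ^ 5 * G) ≤ s ^ 3 * (s ^ 5 * G) :=
    mul_le_mul_of_nonneg_right (by nlinarith [sq_nonneg s]) (by positivity)
  nlinarith

/-- one dyadic block -/
theorem block (h1 : Lv1S) (h2 : Lv2S) (hP : PowS) (hE : ExpS) {q : ℕ} [NeZero q] {e r σ τ t : ℝ}
    {k₀ N N' : ℕ} {a : ℕ → ℂ} (J : Finset (Ch q)) (ρ : Ch q → ℂ) (hq : (1 : ℝ) < q) (he : 0 < e)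
    (he1 : e ≤ 1 / 1000) (hk₀ : 3 ≤ e * k₀) (hr : 20 ≤ r) (hrs : r ^ (2 * k₀) ≤ (q : ℝ) ^ e)
    (hlog : 1 + 4 * Real.log q ≤ r)
    (hd : ∀ n : ℕ, (n : ℝ) ≤ (q : ℝ) ^ 4 → (n.divisors.card : ℝ) ≤ r)
    (ha : ∀ n, 1 ≤ n → ‖a n‖ ≤ n.divisors.card)
    (hpv : ∀ ψ : Ch q, ψ ≠ 1 → ∀ a b : ℕ, ‖∑ k ∈ Ioc a b, ψ k‖ ≤ (q : ℝ) ^ (1 / 2 + 2 * e))
    (h58 : 5 / 8 ≤ σ) (hσ : σ ≤ 1) (hτ : 0 ≤ τ) (hg : 11 / 4 * (1 - σ) + 19 / 20 * τ ≤ 1)
    (hN : (q : ℝ) ^ e ≤ N) (hNN : N ≤ N') (hN2 : N' ≤ 2 * N)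
    (hNσ : (N : ℝ) ^ σ ≤ (q : ℝ) ^ (1 / 2 + τ + 1 / 100))
    (hJ : ∀ χ ∈ J, σ ≤ (ρ χ).re ∧ (ρ χ).re ≤ 1 ∧ |(ρ χ).im - t| ≤ 1 ∧
      (r ^ 2)⁻¹ ≤ ‖∑ n ∈ Ioc N N', a n * χ n * (n : ℂ) ^ (-ρ χ)‖) :
    (J.card : ℝ) ≤ ((q : ℝ) ^ e) ^ 8 * (q : ℝ) ^ (11 / 4 * (1 - σ) + 19 / 20 * τ) := by
  set Q : ℝ := (q : ℝ) with hQ
  set s : ℝ := Q ^ e with hs
  set g : ℝ := 11 / 4 * (1 - σ) + 19 / 20 * τ with hgd
  have Q0 : 0 < Q := by linarith
  have r1 : 1 ≤ r := by linarith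
  have hk1 : 1 ≤ k₀ := by
    rcases Nat.eq_zero_or_pos k₀ with h | h
    · rw [h] at hk₀; norm_num at hk₀
    · exact h
  have hrs' : r ≤ s := (le_self_pow₀ r1 (by omega)).trans hrs
  have s20 : 20 ≤ s := hr.trans hrs'
  have s0 : 0 < s := by linarith
  have sQ : s ≤ Q := by
    nth_rewrite 1 [← Real.rpow_one Q]
    exact Real.rpow_le_rpow_of_exponent_le hq.le (by linarith)
  have N0 : (0 : ℝ) < N := by linarith
  have N1 : 1 ≤ N := by exact_mod_cast N0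
  obtain ⟨n, hn⟩ : ∃ n : ℝ, Q ^ n = N := ⟨_, Real.rpow_logb Q0 hq.ne' N0⟩
  have hen : e ≤ n := by
    rw [← Real.rpow_le_rpow_left_iff hq, hn]
    exact hN
  have hnσ : n * σ ≤ 1 / 2 + τ + 1 / 100 := by
    rw [← Real.rpow_le_rpow_left_iff hq, Real.rpow_mul Q0.le, hn]
    exact hNσ
  obtain ⟨k, k1, k3, k4, k5⟩ := hE σ τ n h58 hσ hτ hg (by linarith) hnσ
  have hkk : k ≤ k₀ := by
    have a1 : (k : ℝ) * e ≤ k * n := mul_le_mul_of_nonneg_left hen (Nat.cast_nonneg k)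
    have a2 : e * k ≤ e * k₀ := by linarith
    exact_mod_cast le_of_mul_le_mul_left a2 he
  have hrk : (r * r) ^ k ≤ s := by
    rw [← sq, ← pow_mul]
    exact (pow_le_pow_right₀ r1 (by omega)).trans hrs
  have hM : ((N ^ k : ℕ) : ℝ) = Q ^ (k * n) := by
    rw [Nat.cast_pow, ← hn, ← Real.rpow_natCast, ← Real.rpow_mul Q0.le, mul_comm]
  have hM' : ((N' ^ k : ℕ) : ℝ) ≤ s * Q ^ (k * n) := by
    rw [← hM]
    have a1 : ((N' ^ k : ℕ) : ℝ) ≤ (((2 * N) ^ k : ℕ) : ℝ) := by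
      exact_mod_cast Nat.pow_le_pow_left hN2 k
    refine a1.trans ?_
    rw [mul_pow, Nat.cast_mul]
    refine mul_le_mul_of_nonneg_right (le_trans ?_ hrk) (Nat.cast_nonneg _)
    push_cast
    exact pow_le_pow_left₀ (by norm_num) (by nlinarith) k
  have hM4 : ((N' ^ k : ℕ) : ℝ) ≤ Q ^ 4 := by
    refine hM'.trans ?_
    have a1 : Q ^ (k * n) ≤ Q ^ (3 : ℕ) := by
      rw [← Real.rpow_natCast]
      exact Real.rpow_le_rpow_of_exponent_le hq.le (by exact_mod_cast k3)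
    calc s * Q ^ (k * n) ≤ Q * Q ^ 3 := mul_le_mul sQ a1 (by positivity) Q0.le
      _ = Q ^ 4 := by ring
  have hd' : ∀ m, m ≤ N' ^ k → (m.divisors.card : ℝ) ≤ r := fun m hm =>
    hd m (le_trans (by exact_mod_cast hm) hM4)
  obtain ⟨b, hb, hb'⟩ := hP a N N' k r r k1 hNN (by linarith) r1
    (fun m hm => (ha m (by have := (mem_Ioc.1 hm).1; omega)).trans
      (hd' m ((mem_Ioc.1 hm).2.trans (Nat.le_self_pow (by omega) N')))) hd'
  have M1 : 1 ≤ N ^ k := Nat.one_le_pow _ _ N1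
  have MM : N ^ k ≤ N' ^ k := Nat.pow_le_pow_left hNN k
  have hBig : Big J ρ σ t b (N ^ k) (N' ^ k) s s⁻¹ := by
    refine ⟨h58, hσ, M1, MM, inv_pos.2 s0, fun m _ => (hb m).trans hrk, fun χ hχ => ?_⟩
    obtain ⟨j1, j2, j3, j4⟩ := hJ χ hχ
    refine ⟨j1, j2, j3, ?_⟩
    have a1 := hb' (fun m => χ m * (m : ℂ) ^ (-ρ χ)) (fun m m' => by
      rw [Nat.cast_mul, map_mul, Nat.cast_mul, natCast_mul_natCast_cpow]
      ring)
    simp only [← mul_assoc] at a1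
    rw [← a1, norm_pow]
    refine le_trans ?_ (pow_le_pow_left₀ (by positivity) j4 k)
    rw [inv_pow, sq]
    exact inv_anti₀ (by positivity) hrk
  have M'1 : (1 : ℝ) ≤ ((N' ^ k : ℕ) : ℝ) := by exact_mod_cast M1.trans MM
  have hH0 : 0 ≤ 1 + Real.log ((N' ^ k : ℕ) : ℝ) := by
    have := Real.log_nonneg M'1
    linarith
  have hH : 1 + Real.log ((N' ^ k : ℕ) : ℝ) ≤ s := by
    have a1 := Real.log_le_log (by linarith) hM4
    rw [Real.log_pow] at a1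
    push_cast at a1 ⊢
    linarith
  have G0 : 0 ≤ Q ^ g := by positivity
  have hA : Q ^ (k * n * (2 - 2 * σ)) ≤ Q ^ g := Real.rpow_le_rpow_of_exponent_le hq.le k4
  rcases k5 with k5 | k5
  · refine left_real s20 hH0 hH G0 ?_ ?_ (h1 q J ρ σ t b _ _ _ _ hBig)
    · refine (Real.rpow_le_rpow (by positivity) hM' (by linarith)).trans ?_
      rw [Real.mul_rpow s0.le (by positivity), ← Real.rpow_mul Q0.le (k * n)]
      refine mul_le_mul ?_ hA (by positivity) s0.le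
      exact (Real.rpow_le_rpow_of_exponent_le (by linarith) (by linarith)).trans
        (Real.rpow_one s).le
    · rw [hM, ← Real.rpow_mul Q0.le, ← hQ, mul_comm, ← Real.rpow_add_one Q0.ne']
      exact Real.rpow_le_rpow_of_exponent_le hq.le (by linarith)
  · refine right_real s20 (Nat.cast_nonneg _) hH G0 (by positivity) (by positivity) ?_ ?_
      (h2 q J ρ σ t b _ _ _ _ _ hBig (by positivity) hpv)
    · rw [hM, ← Real.rpow_mul Q0.le, hs, ← Real.rpow_natCast, ← Real.rpow_mul Q0.le,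
        ← Real.rpow_add Q0, ← Real.rpow_add Q0]
      refine Real.rpow_le_one_of_one_le_of_nonpos hq.le ?_
      push_cast
      linarith
    · refine (mul_le_mul_of_nonneg_left hM' (by positivity)).trans ?_
      rw [hM, ← Real.rpow_mul Q0.le, mul_left_comm, ← Real.rpow_add Q0]
      refine mul_le_mul_of_nonneg_left (le_trans (le_of_eq ?_) hA) s0.le
      congr 1
      ring

/-- a sum over consecutive blocks -/
theorem tele (f : ℕ → ℂ) (N : ℕ → ℕ) (hN : Monotone N) (I : ℕ) :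
    ∑ n ∈ Ioc (N 0) (N I), f n = ∑ i ∈ range I, ∑ n ∈ Ioc (N i) (N (i + 1)), f n := by
  induction I with
  | zero => simp
  | succ I ih =>
    rw [sum_range_succ, ← ih, sum_Ioc_consecutive _ (hN (Nat.zero_le I)) (hN (Nat.le_succ I))]

theorem pigeon (f : ℕ → ℂ) (N : ℕ → ℕ) (hN : Monotone N) (I : ℕ) {w : ℝ} (hw : I * w ≤ 1 / 2)
    (hI : 1 ≤ I) (h : 1 / 2 ≤ ‖∑ n ∈ Ioc (N 0) (N I), f n‖) :
    ∃ i ∈ range I, w ≤ ‖∑ n ∈ Ioc (N i) (N (i + 1)), f n‖ := by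
  refine exists_le_of_sum_le (f := fun _ => w) ⟨0, mem_range.2 hI⟩ ?_
  rw [tele f N hN] at h
  rw [sum_const, card_range, nsmul_eq_mul]
  exact hw.trans (h.trans (norm_sum_le _ _))

/-- all blocks -/
theorem main (hD : DetS) (h1 : Lv1S) (h2 : Lv2S) (hP : PowS) (hE : ExpS) {q : ℕ} [NeZero q]
    {e r σ τ t : ℝ} {k₀ : ℕ} (J : Finset (Ch q)) (ρ : Ch q → ℂ) (hq : (1 : ℝ) < q) (he : 0 < e)
    (he1 : e ≤ 1 / 1000) (hk₀ : 3 ≤ e * k₀) (hr : 20 ≤ r) (hrs : r ^ (2 * k₀) ≤ (q : ℝ) ^ e)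
    (hlog : 1 + 5 * Real.log q ≤ r)
    (hd : ∀ n : ℕ, (n : ℝ) ≤ (q : ℝ) ^ 4 → (n.divisors.card : ℝ) ≤ r)
    (hpv : ∀ ψ : Ch q, ψ ≠ 1 → ∀ a b : ℕ, ‖∑ k ∈ Ioc a b, ψ k‖ ≤ (q : ℝ) ^ (1 / 2 + 2 * e))
    (h58 : 5 / 8 ≤ σ) (hσ : σ ≤ 1) (hτ : 0 ≤ τ) (hT : (q : ℝ) ^ τ = |t| + 2)
    (hg : 11 / 4 * (1 - σ) + 19 / 20 * τ ≤ 1)
    (hJ : ∀ χ ∈ J, χ ≠ 1 ∧ DirichletCharacter.LFunction χ (ρ χ) = 0 ∧ σ ≤ (ρ χ).re ∧
      (ρ χ).re ≤ 1 ∧ |(ρ χ).im - t| ≤ 1) :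
    (J.card : ℝ) ≤ ((q : ℝ) ^ e) ^ 9 * (q : ℝ) ^ (11 / 4 * (1 - σ) + 19 / 20 * τ) := by
  classical
  have hlq : 0 < Real.log q := Real.log_pos hq
  set Q : ℝ := (q : ℝ) with hQ
  set s : ℝ := Q ^ e with hs
  have Q0 : 0 < Q := by linarith
  have σ0 : 0 < σ := by linarith
  have r1 : 1 ≤ r := by linarith
  have hk1 : 1 ≤ k₀ := by
    rcases Nat.eq_zero_or_pos k₀ with h | h
    · rw [h] at hk₀; norm_num at hk₀
    · exact h
  have hrs2 : r ^ 2 ≤ s := (pow_le_pow_right₀ r1 (by omega)).trans hrs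
  have s20 : 20 ≤ s := by nlinarith
  have s0 : 0 < s := by linarith
  set V : ℕ := ⌈s⌉₊ with hV
  have hV1 : s ≤ V := Nat.le_ceil s
  have hV2 : (V : ℝ) ≤ s ^ 2 := by
    have := Nat.ceil_lt_add_one s0.le
    nlinarith
  have V1 : 1 ≤ V := by exact_mod_cast (by linarith : (1 : ℝ) ≤ V)
  set y : ℝ := (1 / 2 + τ + 5 * e) / σ with hy
  have hyσ : y * σ = 1 / 2 + τ + 5 * e := div_mul_cancel₀ _ σ0.ne'
  have hy1 : 1 / 2 ≤ y := by
    rw [hy, le_div_iff₀ σ0]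
    linarith
  have hy2 : y + e ≤ 3 := by
    have : y ≤ 29 / 10 := by
      rw [hy, div_le_iff₀ σ0]
      linarith
    linarith
  set Y : ℝ := Q ^ y with hY
  have hsY : s ^ 2 ≤ Y := by
    rw [hs, ← Real.rpow_natCast, ← Real.rpow_mul Q0.le]
    refine Real.rpow_le_rpow_of_exponent_le hq.le ?_
    push_cast
    linarith
  have Y1 : 1 ≤ Y := by nlinarith
  set X : ℕ := ⌈2 * Y⌉₊ with hX
  have hX1 : 2 * Y ≤ X := Nat.le_ceil _
  have hX2 : (X : ℝ) ≤ Q ^ (y + e) := by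
    have := Nat.ceil_lt_add_one (a := 2 * Y) (by linarith)
    rw [Real.rpow_add Q0]
    nlinarith
  have hVX : V ≤ X := by exact_mod_cast (by linarith : (V : ℝ) ≤ X)
  have X2 : 2 ≤ X := by exact_mod_cast (by linarith : (2 : ℝ) ≤ X)
  have hXσ : (X : ℝ) ^ σ ≤ Q ^ (1 / 2 + τ + 1 / 100) := by
    refine (Real.rpow_le_rpow (Nat.cast_nonneg _) hX2 σ0.le).trans ?_
    rw [← Real.rpow_mul Q0.le]
    refine Real.rpow_le_rpow_of_exponent_le hq.le ?_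
    nlinarith
  have hb : V * (3 * Q ^ (1 / 2 + 2 * e) * (|t| + 2) * ((X : ℝ) / 2) ^ (-σ)) ≤ 1 / 2 := by
    have a1 : ((X : ℝ) / 2) ^ (-σ) ≤ Y ^ (-σ) :=
      Real.rpow_le_rpow_of_nonpos (by linarith) (by linarith) (by linarith)
    have a2 : s ^ 3 * (Q ^ (1 / 2 + 2 * e) * Q ^ τ * Y ^ (-σ)) = 1 := by
      rw [hs, hY, ← Real.rpow_natCast, ← Real.rpow_mul Q0.le, ← Real.rpow_mul Q0.le,
        ← Real.rpow_add Q0, ← Real.rpow_add Q0, ← Real.rpow_add Q0]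
      refine Eq.trans ?_ (Real.rpow_zero Q)
      congr 1
      push_cast
      linarith
    rw [← hT]
    have a3 : 0 ≤ s ^ 2 * (Q ^ (1 / 2 + 2 * e) * Q ^ τ * Y ^ (-σ)) := by positivity
    calc _ ≤ s ^ 2 * (3 * Q ^ (1 / 2 + 2 * e) * Q ^ τ * Y ^ (-σ)) := by gcongr
      _ ≤ 1 / 2 := by nlinarith
  obtain ⟨a, ha, ha'⟩ := hD V V1
  set I : ℕ := ⌈r⌉₊ with hI
  have hI1 : r ≤ I := Nat.le_ceil r
  have hI2 : 2 * (I : ℝ) ≤ r ^ 2 := by
    have := Nat.ceil_lt_add_one (a := r) (by linarith)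
    nlinarith
  have I1 : 1 ≤ I := by exact_mod_cast (by linarith : (1 : ℝ) ≤ I)
  have hXI : X ≤ 2 ^ I := by
    have a1 : (X : ℝ) ≤ Q ^ (3 : ℝ) := hX2.trans (Real.rpow_le_rpow_of_exponent_le hq.le hy2)
    have a2 : Q ^ (3 : ℝ) ≤ (2 : ℝ) ^ (I : ℝ) := by
      rw [Real.rpow_def_of_pos Q0, Real.rpow_def_of_pos two_pos, Real.exp_le_exp]
      have := Real.log_two_gt_d9
      nlinarith
    rw [Real.rpow_natCast] at a2
    exact_mod_cast a1.trans a2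
  set N : ℕ → ℕ := fun i => min X (V * 2 ^ i) with hN
  have Nm : Monotone N := fun i j hij =>
    min_le_min le_rfl (Nat.mul_le_mul_left V (Nat.pow_le_pow_right (by norm_num) hij))
  have N0 : N 0 = V := by simp [hN, hVX]
  have NI : N I = X := min_eq_left (hXI.trans (Nat.le_mul_of_pos_left _ V1))
  have N2 : ∀ i, N (i + 1) ≤ 2 * N i := fun i => by
    have : V * 2 ^ (i + 1) = 2 * (V * 2 ^ i) := by ring
    simp only [hN]
    omega
  set p : ℕ → Ch q → Prop := fun i χ =>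
    (r ^ 2)⁻¹ ≤ ‖∑ n ∈ Ioc (N i) (N (i + 1)), a n * χ n * (n : ℂ) ^ (-ρ χ)‖ with hp
  have hsub : J ⊆ (range I).biUnion fun i => J.filter (p i) := by
    intro χ hχ
    obtain ⟨j1, j2, j3, j4, j5⟩ := hJ χ hχ
    have hρ : ‖ρ χ‖ ≤ |t| + 2 := by
      have a1 := norm_le_abs_re_add_abs_im (ρ χ)
      have a2 : |(ρ χ).re| ≤ 1 := abs_le.2 ⟨by linarith, j4⟩
      have a3 := abs_sub_abs_le_abs_sub (ρ χ).im t
      linarith
    have a1 := ha' q χ (ρ χ) σ _ _ X j1 j2 h58 j3 hρ (hpv χ j1) hVX X2 hb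
    rw [← N0, ← NI] at a1
    obtain ⟨i, hi, hi'⟩ := pigeon _ N Nm I (w := (r ^ 2)⁻¹)
      (by rw [← div_eq_mul_inv, div_le_iff₀ (by positivity)]; linarith) I1 a1
    exact mem_biUnion.2 ⟨i, hi, mem_filter.2 ⟨hχ, hi'⟩⟩
  have hblk : ∀ i ∈ range I, ((J.filter (p i)).card : ℝ) ≤
      s ^ 8 * Q ^ (11 / 4 * (1 - σ) + 19 / 20 * τ) := by
    intro i _
    refine block h1 h2 hP hE (t := t) (N := N i) (N' := N (i + 1)) _ ρ hq he he1 hk₀ hr hrs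
      (by linarith) hd ha hpv h58 hσ hτ hg ?_ (Nm (Nat.le_succ i)) (N2 i) ?_ fun χ hχ => ?_
    · refine hV1.trans ?_
      rw [← N0]
      exact_mod_cast Nm (Nat.zero_le i)
    · refine le_trans (Real.rpow_le_rpow (Nat.cast_nonneg _) ?_ σ0.le) hXσ
      exact_mod_cast min_le_left X (V * 2 ^ i)
    · obtain ⟨j0, j6⟩ := mem_filter.1 hχ
      obtain ⟨_, _, j3, j4, j5⟩ := hJ χ j0
      exact ⟨j3, j4, j5, j6⟩
  calc (J.card : ℝ) ≤ ∑ i ∈ range I, ((J.filter (p i)).card : ℝ) := by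
        exact_mod_cast (card_le_card hsub).trans card_biUnion_le
    _ ≤ ∑ _i ∈ range I, s ^ 8 * Q ^ (11 / 4 * (1 - σ) + 19 / 20 * τ) := sum_le_sum hblk
    _ = I * (s ^ 8 * Q ^ (11 / 4 * (1 - σ) + 19 / 20 * τ)) := by
        rw [sum_const, card_range, nsmul_eq_mul]
    _ ≤ s * (s ^ 8 * Q ^ (11 / 4 * (1 - σ) + 19 / 20 * τ)) :=
        mul_le_mul_of_nonneg_right (by linarith) (by positivity)
    _ = _ := by ring

end Den5L

open Den5L in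
theorem den5Of : Den5Of := by
  intro hV hD h1 h2 hP hE ε hε
  set e : ℝ := min ε 1 / 1000 with hed
  have he : 0 < e := by have := lt_min hε one_pos; positivity
  have he1 : e ≤ 1 / 1000 := by have := min_le_right ε 1; linarith
  have he2 : 9 * e ≤ ε := by have := min_le_left ε 1; linarith
  set k₀ : ℕ := ⌈3 / e⌉₊ with hk
  have hk₀ : 3 ≤ e * k₀ := by
    have := Nat.le_ceil (3 / e)
    rw [div_le_iff₀ he] at this
    linarith
  have k0 : (0 : ℝ) < k₀ := by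
    by_contra h
    nlinarith
  set δ : ℝ := e / (4 * k₀) with hδ
  have δ0 : 0 < δ := by positivity
  obtain ⟨C, hC, HC⟩ := hV e he
  obtain ⟨D, hD1, HD⟩ := MP_74e98a_nt.H25.divisor_bound (δ / 4) (by positivity)
  set K : ℝ := 20 + C + D + 5 / δ with hK
  have h5 : 0 < 5 / δ := by positivity
  have K1 : 1 ≤ K := by linarith
  refine ⟨K ^ δ⁻¹, Real.one_le_rpow K1 (by positivity), fun q _ σ t J ρ h58 hσ hJ => ?_⟩
  have hq : (1 : ℝ) ≤ q := by exact_mod_cast Nat.pos_of_ne_zero (NeZero.ne q)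
  have hT : 1 ≤ |t| + 2 := by have := abs_nonneg t; linarith
  have a1 : (J.card : ℝ) ≤ q := by
    have : J.card ≤ q := by
      refine (card_le_univ J).trans ?_
      rw [← Nat.card_eq_fintype_card,
        DirichletCharacter.card_eq_totient_of_hasEnoughRootsOfUnity ℂ q]
      exact Nat.totient_le q
    exact_mod_cast this
  have c1 : 1 ≤ K ^ δ⁻¹ := Real.one_le_rpow K1 (by positivity)
  rcases le_or_gt (q : ℝ) (K ^ δ⁻¹) with hs | hs
  · have a2 : 1 ≤ (q : ℝ) ^ (ε + 11 / 4 * (1 - σ)) := Real.one_le_rpow hq (by linarith)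
    have a3 : 1 ≤ (|t| + 2) ^ (19 / 20 : ℝ) := Real.one_le_rpow hT (by norm_num)
    calc (J.card : ℝ) ≤ K ^ δ⁻¹ * 1 * 1 := by linarith
      _ ≤ _ := by gcongr
  have q1 : (1 : ℝ) < q := c1.trans_lt hs
  have q0 : (0 : ℝ) < q := by linarith
  obtain ⟨τ, hτ⟩ : ∃ τ : ℝ, (q : ℝ) ^ τ = |t| + 2 := ⟨_, Real.rpow_logb q0 q1.ne' (by linarith)⟩
  have τ0 : 0 ≤ τ := by
    rw [← Real.rpow_le_rpow_left_iff q1, Real.rpow_zero, hτ]
    exact hT
  have key : (J.card : ℝ) ≤ (q : ℝ) ^ (ε + (11 / 4 * (1 - σ) + 19 / 20 * τ)) := by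
    rcases le_or_gt 1 (11 / 4 * (1 - σ) + 19 / 20 * τ) with hg | hg
    · refine a1.trans ?_
      nth_rewrite 1 [← Real.rpow_one (q : ℝ)]
      exact Real.rpow_le_rpow_of_exponent_le hq (by linarith)
    have hu : K ≤ (q : ℝ) ^ δ := by
      have := Real.rpow_le_rpow (by positivity) hs.le δ0.le
      rwa [Real.rpow_inv_rpow (by linarith) δ0.ne'] at this
    set u : ℝ := (q : ℝ) ^ δ with hud
    have hrs : (u ^ 2) ^ (2 * k₀) = (q : ℝ) ^ e := by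
      rw [← pow_mul, hud, ← Real.rpow_natCast, ← Real.rpow_mul q0.le]
      congr 1
      rw [hδ]
      push_cast
      field_simp
      norm_num
    have u1 : 1 ≤ u := K1.trans hu
    have hus : u ≤ (q : ℝ) ^ e := by
      rw [← hrs, ← pow_mul]
      have : 0 < k₀ := by exact_mod_cast k0
      exact le_self_pow₀ u1 (by omega)
    refine (main hD h1 h2 hP hE (r := u ^ 2) J ρ q1 he he1 hk₀ (by nlinarith) hrs.le ?_ ?_ ?_ h58 hσ
      τ0 hτ hg.le hJ).trans ?_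
    · have b1 := Real.log_le_rpow_div q0.le δ0
      have b2 : 5 * (u / δ) = 5 / δ * u := by ring
      nlinarith
    · intro n hn
      refine (HD n).trans ?_
      have b1 : (n : ℝ) ^ (δ / 4) ≤ u := by
        refine (Real.rpow_le_rpow (Nat.cast_nonneg n) hn (by positivity)).trans (le_of_eq ?_)
        rw [← Real.rpow_natCast, ← Real.rpow_mul q0.le, hud]
        congr 1
        push_cast
        ring
      rw [sq]
      exact mul_le_mul (by linarith) b1 (by positivity) (by linarith)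
    · intro ψ hψ a b
      refine (HC q ψ hψ a b).trans ?_
      have b1 : (q : ℝ) ^ (1 / 2 + 2 * e) = (q : ℝ) ^ e * (q : ℝ) ^ (1 / 2 + e) := by
        rw [← Real.rpow_add q0]
        congr 1
        ring
      rw [b1]
      exact mul_le_mul_of_nonneg_right (by linarith) (by positivity)
    · rw [← Real.rpow_natCast, ← Real.rpow_mul q0.le, ← Real.rpow_add q0]
      refine Real.rpow_le_rpow_of_exponent_le hq ?_
      push_cast
      linarith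
  rw [← hτ, ← Real.rpow_mul q0.le, mul_assoc, ← Real.rpow_add q0]
  refine key.trans (le_trans (le_of_eq ?_) (le_mul_of_one_le_left (by positivity) c1))
  congr 1
  ring

end Pool.Agent.MP_c5bf7b_nt.H25L
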