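import Pool.Agent.MP_c5bf7b_nt.H25L.SpecA
import Pool.Agent.MP_c5bf7b_nt.H38.Den
import Pool.Agent.MP_c5bf7b_nt.H38.Base

/-! Detection of zeros with a bound for the character sums. -/

set_option autoImplicit false

namespace Pool.Agent.MP_c5bf7b_nt.H25L

open Finset Complex ArithmeticFunction Pool.Agent.MP_c5bf7b_nt.H38 Pool.Agent.MP_c5bf7b_nt.H38.DenL

namespace DetL

theorem tail (hB : BaseS) {q : ℕ} [NeZero q] {χ : Ch q} (hχ : χ ≠ 1) {P : ℝ}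
    (hP : ∀ a b : ℕ, ‖∑ k ∈ Ioc a b, χ k‖ ≤ P) {s : ℂ} {N : ℕ} (hs : 0 < s.re) (hN : 1 ≤ N) :
    ‖DirichletCharacter.LFunction χ s - ∑ n ∈ Icc 1 N, χ n * (n : ℂ) ^ (-s)‖ ≤
      P * ‖s‖ * (1 + 1 / s.re) * (N : ℝ) ^ (-s.re) := by
  have hP0 : 0 ≤ P := (norm_nonneg _).trans (hP 0 0)
  refine ((hB q χ hχ).2 s N hs hN).1.trans ?_
  have h2 : ∑' n : ℕ, ‖∑ k ∈ Ioc N (N + n), χ k‖ * ((N + n : ℕ) : ℝ) ^ (-s.re - 1) ≤
      P * ((1 + 1 / s.re) * (N : ℝ) ^ (-s.re)) := by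
    refine Real.tsum_le_of_sum_range_le (fun _ => by positivity) fun M => ?_
    refine le_trans ?_ (mul_le_mul_of_nonneg_left (BaseA.sum_rpow_le hN hs M) hP0)
    rw [mul_sum]
    exact sum_le_sum fun n _ => mul_le_mul_of_nonneg_right (hP _ _) (by positivity)
  calc _ ≤ ‖s‖ * (P * ((1 + 1 / s.re) * (N : ℝ) ^ (-s.re))) :=
        mul_le_mul_of_nonneg_left h2 (norm_nonneg _)
    _ = _ := by ring

theorem detect (hB : BaseS) {q : ℕ} [NeZero q] {χ : Ch q} (hχ : χ ≠ 1) {ρ : ℂ} {σ T P : ℝ}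
    {V M : ℕ} (hz : DirichletCharacter.LFunction χ ρ = 0) (h34 : 5 / 8 ≤ σ) (hσ : σ ≤ ρ.re)
    (hT : ‖ρ‖ ≤ T) (hP : ∀ a b : ℕ, ‖∑ k ∈ Ioc a b, χ k‖ ≤ P) (hV : 1 ≤ V) (hX : 2 ≤ V + M)
    (hb : V * (3 * P * T * (((V + M : ℕ) : ℝ) / 2) ^ (-σ)) ≤ 1 / 2) :
    1 / 2 ≤ ‖∑ n ∈ Ioc V (V + M), co V n * χ n * (n : ℂ) ^ (-ρ)‖ := by
  set X := V + M with hXd
  have hT0 : 0 ≤ T := (norm_nonneg _).trans hT
  have hP0 : 0 ≤ P := (norm_nonneg _).trans (hP 0 0)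
  have h1 : ‖∑ n ∈ Icc 1 X, co V n * χ n * (n : ℂ) ^ (-ρ)‖ ≤ 1 / 2 := by
    rw [expand]
    refine (norm_sum_le _ _).trans (le_trans ?_ hb)
    have hterm : ∀ d ∈ Icc 1 V, ‖((moebius d : ℤ) : ℂ) * χ d * (d : ℂ) ^ (-ρ) *
        ∑ m ∈ Icc 1 (X / d), χ m * (m : ℂ) ^ (-ρ)‖ ≤
        3 * P * T * ((X : ℝ) / 2) ^ (-σ) := by
      intro d hd
      obtain ⟨hd1, hdV⟩ := mem_Icc.1 hd
      have hN : 1 ≤ X / d := (Nat.le_div_iff_mul_le hd1).2 (by omega)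
      have h2 := tail hB hχ hP (s := ρ) (by linarith) hN
      rw [hz, zero_sub, norm_neg] at h2
      have h3 : X ≤ 2 * (d * (X / d)) := by
        have a1 := Nat.div_add_mod X d
        have a2 := Nat.mod_lt X hd1
        have a3 : d * 1 ≤ d * (X / d) := Nat.mul_le_mul_left d hN
        omega
      have h3' : (X : ℝ) / 2 ≤ (d : ℝ) * ((X / d : ℕ) : ℝ) := by
        have : (X : ℝ) ≤ 2 * ((d : ℝ) * ((X / d : ℕ) : ℝ)) := by exact_mod_cast h3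
        linarith
      have hX2 : (1 : ℝ) ≤ (X : ℝ) / 2 := by
        have : (2 : ℝ) ≤ X := by exact_mod_cast hX
        linarith
      have h4 : (d : ℝ) ^ (-ρ.re) * ((X / d : ℕ) : ℝ) ^ (-ρ.re) ≤ ((X : ℝ) / 2) ^ (-σ) := by
        rw [← Real.mul_rpow (by positivity) (by positivity)]
        exact (Real.rpow_le_rpow_of_nonpos (by linarith) h3' (by linarith)).trans
          (Real.rpow_le_rpow_of_exponent_le hX2 (by linarith))
      have h5 : 1 + 1 / ρ.re ≤ 3 := by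
        have : 1 / ρ.re ≤ 8 / 5 := by
          rw [div_le_div_iff₀ (by linarith) (by norm_num)]; linarith
        linarith
      have h6 : P * ‖ρ‖ * (1 + 1 / ρ.re) ≤ 3 * P * T := by
        have : 0 < ρ.re := by linarith
        calc _ ≤ P * T * 3 := by gcongr
          _ = _ := by ring
      have h7 : ‖((moebius d : ℤ) : ℂ) * χ d * (d : ℂ) ^ (-ρ)‖ ≤ (d : ℝ) ^ (-ρ.re) := by
        rw [norm_mul, norm_mul, norm_natCast_cpow_of_pos hd1, neg_re]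
        have := mul_le_one₀ (norm_mu d) (norm_nonneg _) (χ.norm_le_one d)
        exact mul_le_of_le_one_left (by positivity) this
      rw [norm_mul]
      calc _ ≤ (d : ℝ) ^ (-ρ.re) * (3 * P * T * ((X / d : ℕ) : ℝ) ^ (-ρ.re)) :=
            mul_le_mul h7 (h2.trans (mul_le_mul_of_nonneg_right h6 (by positivity)))
              (norm_nonneg _) (by positivity)
        _ = 3 * P * T * ((d : ℝ) ^ (-ρ.re) * ((X / d : ℕ) : ℝ) ^ (-ρ.re)) := by ring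
        _ ≤ _ := mul_le_mul_of_nonneg_left h4 (by positivity)
    refine (sum_le_sum hterm).trans ?_
    rw [sum_const, Nat.card_Icc, nsmul_eq_mul, Nat.add_sub_cancel]
  have h2 : ∑ n ∈ Icc 1 X, co V n * χ n * (n : ℂ) ^ (-ρ) =
      1 + ∑ n ∈ Ioc V X, co V n * χ n * (n : ℂ) ^ (-ρ) := by
    have e : Icc 1 X = Ioc 0 X := rfl
    rw [e, ← sum_Ioc_consecutive _ (Nat.zero_le V) (Nat.le_add_right V M)]
    congr 1
    rw [sum_eq_single 1]
    · rw [co_small le_rfl hV]; simp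
    · intro n hn hn1
      rw [co_small (mem_Ioc.1 hn).1 (mem_Ioc.1 hn).2, if_neg hn1]; simp
    · intro h; exact absurd (mem_Ioc.2 ⟨Nat.one_pos, hV⟩) h
  rw [h2] at h1
  have h3 := norm_sub_le (1 + ∑ n ∈ Ioc V X, co V n * χ n * (n : ℂ) ^ (-ρ))
    (∑ n ∈ Ioc V X, co V n * χ n * (n : ℂ) ^ (-ρ))
  rw [add_sub_cancel_right, norm_one] at h3
  linarith

end DetL

theorem detOf : DetOf := by
  intro hB V hV
  refine ⟨co V, fun n hn => co_le V hn, ?_⟩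
  intro q _ χ ρ σ T P X hχ hz h1 h2 h3 hP hVX hX hb
  obtain ⟨M, rfl⟩ := Nat.exists_eq_add_of_le hVX
  exact DetL.detect hB hχ hz h1 h2 h3 hP hV hX hb

end Pool.Agent.MP_c5bf7b_nt.H25L
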