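import Pool.Agent.MP_c5bf7b_nt.H25L.SpecB
import Pool.Agent.MP_c5bf7b_nt.H38.Gram

/-! The diagonal term of the sieve, with oscillation. -/

set_option autoImplicit false

namespace Pool.Agent.MP_c5bf7b_nt.H25L

open Finset Complex ArithmeticFunction Pool.Agent.MP_c5bf7b_nt.H38 Gram

namespace DiagL

/-- A function with its primitive and the bounds that are used. -/
structure Nice (g G : ℝ → ℂ) (K : ℝ) : Prop where
  K0 : 0 ≤ K
  der : ∀ t, 0 < t → HasDerivAt G (g t) t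
  bd : ∀ t, 0 < t → ‖g t‖ ≤ 1 / t
  var : ∀ y t, 0 < y → y ≤ t → ‖g t - g y‖ ≤ K * (1 / y - 1 / t)

variable {g G : ℝ → ℂ} {K : ℝ}

theorem mvt (h : Nice g G K) {y z C : ℝ} (w : ℂ) (hy : 0 < y) (hz : y ≤ z)
    (hb : ∀ t, y ≤ t → t ≤ z → ‖g t - w‖ ≤ C) : ‖G z - G y - (z - y) * w‖ ≤ C * (z - y) := by
  have := norm_image_sub_le_of_norm_deriv_le_segment' (f := fun t : ℝ => G t - t * w)
    (f' := fun t => g t - w) (a := y) (b := z) (C := C) (fun t ht => ?_)
    (fun t ht => hb t ht.1 ht.2.le) z ⟨hz, le_rfl⟩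
  · refine le_trans (le_of_eq ?_) this
    congr 1
    ring
  · have h1 := ((hasDerivAt_id t).ofReal_comp).mul_const w
    simp only [id, ofReal_one, one_mul] at h1
    exact ((h.der t (hy.trans_le ht.1)).sub h1).hasDerivWithinAt

theorem tele (h : Nice g G K) {M : ℝ} (hM : 0 < M) (a b : ℕ) (hab : a ≤ b) :
    ‖∑ m ∈ Ioc a b, g (M * m) - (G (M * (b + 1)) - G (M * (a + 1))) / M‖ ≤
      K * (1 / (M * (a + 1)) - 1 / (M * (b + 1))) := by
  induction b, hab using Nat.le_induction with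
  | base => simp
  | succ b hab ih =>
    have h0 : 0 < M * (b + 1) := by positivity
    have h1 := mvt h (z := M * (b + 1 + 1)) (C := K * (1 / (M * (b + 1)) - 1 / (M * (b + 1 + 1))))
      (g (M * (b + 1))) h0 (by nlinarith) fun t h1 h2 => (h.var _ t h0 h1).trans
        (mul_le_mul_of_nonneg_left (sub_le_sub_left (one_div_le_one_div_of_le (h0.trans_le h1) h2)
          _) h.K0)
    have hM' : (M : ℂ) ≠ 0 := ofReal_ne_zero.2 hM.ne'
    have h2 : ‖(G (M * (b + 1 + 1)) - G (M * (b + 1))) / M - g (M * (b + 1))‖ ≤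
        K * (1 / (M * (b + 1)) - 1 / (M * (b + 1 + 1))) := by
      rw [show M * (b + 1 + 1) - M * (b + 1) = M by ring, ← div_le_iff₀ hM] at h1
      have e : ∀ x : ℂ, ‖x‖ / M = ‖x / M‖ := fun x => by
        rw [norm_div, Complex.norm_of_nonneg hM.le]
      refine le_trans (le_of_eq ?_) (e _ ▸ h1)
      congr 1
      push_cast
      field_simp
      ring
    rw [Finset.sum_Ioc_succ_top hab]
    push_cast
    refine le_trans (le_of_eq ?_) ((norm_sub_le _ _).trans (add_le_add ih h2)) |>.trans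
      (le_of_eq (by ring))
    congr 1
    ring

theorem mult (h : Nice g G K) (M : ℕ) (hM : 0 < M) {A B : ℝ} (hA : 0 < A) (hAB : A ≤ B) :
    ‖∑ n ∈ (Ioc ⌊A⌋₊ ⌊B⌋₊).filter (fun n => M ∣ n), g n - (G B - G A) / M‖ ≤ (K + 2) / A := by
  have hM' : (0 : ℝ) < M := by exact_mod_cast hM
  rw [reindex (fun n => g n) M _ _ hM]
  have h1 := tele h hM' _ _ (Nat.div_le_div_right (c := M) (Nat.floor_le_floor hAB))
  have h2 : ∀ X : ℝ, A ≤ X → ‖(G (M * ((⌊X⌋₊ / M : ℕ) + 1)) - G X) / M‖ ≤ 1 / A := by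
    intro X hX
    have a1 := lt_mul_succ M hM X
    have a2 := mul_div_le' M (hA.le.trans hX)
    have a3 := mvt h (C := 1 / A) 0 (hA.trans_le hX) a1.le fun t h1 _ => by
      rw [sub_zero]
      exact (h.bd t (by linarith)).trans (one_div_le_one_div_of_le hA (by linarith))
    rw [mul_zero, sub_zero] at a3
    rw [norm_div, Complex.norm_natCast, div_le_iff₀ hM']
    exact a3.trans (mul_le_mul_of_nonneg_left (by linarith) (by positivity))
  have h3 : K * (1 / ((M : ℝ) * ((⌊A⌋₊ / M : ℕ) + 1)) - 1 / (M * ((⌊B⌋₊ / M : ℕ) + 1))) ≤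
      K * (1 / A) := mul_le_mul_of_nonneg_left ((sub_le_self _ (by positivity)).trans
    (one_div_le_one_div_of_le hA (lt_mul_succ M hM A).le)) h.K0
  have h4 := (norm_sub_le _ _).trans (add_le_add ((norm_add_le _ _).trans
    (add_le_add (h1.trans h3) (h2 B hAB))) (h2 A le_rfl))
  refine le_trans (le_of_eq ?_) (h4.trans (le_of_eq (by ring)))
  congr 1
  simp only [Nat.cast_mul, ofReal_natCast]
  ring

theorem cop (h : Nice g G K) (L q : ℕ) (hL : 0 < L) (hq : q ≠ 0) (hc : L.Coprime q) {A B : ℝ}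
    (hA : 0 < A) (hAB : A ≤ B) :
    ‖∑ n ∈ ((Ioc ⌊A⌋₊ ⌊B⌋₊).filter (fun n => n.Coprime q)).filter (fun n => L ∣ n), g n -
      (((q.totient : ℝ) / q : ℝ) : ℂ) * (G B - G A) / L‖ ≤ q.divisors.card * ((K + 2) / A) := by
  have e1 : ∑ n ∈ ((Ioc ⌊A⌋₊ ⌊B⌋₊).filter (fun n => n.Coprime q)).filter (fun n => L ∣ n), g n =
      ∑ k ∈ q.divisors, ((moebius k : ℝ) : ℂ) *
        ∑ n ∈ (Ioc ⌊A⌋₊ ⌊B⌋₊).filter (fun n => L * k ∣ n), g n := by
    rw [Finset.filter_comm, Finset.sum_filter]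
    have : ∀ n : ℕ, (if n.Coprime q then g n else 0) =
        ∑ k ∈ q.divisors, if k ∣ n then ((moebius k : ℝ) : ℂ) * g n else 0 := by
      intro n
      have h2 : (if n.Coprime q then g n else 0) =
          ((if n.Coprime q then (1 : ℝ) else 0 : ℝ) : ℂ) * g n := by
        split_ifs <;> simp
      rw [h2, ind_cop n q hq, ofReal_sum, Finset.sum_mul]
      refine Finset.sum_congr rfl fun k _ => ?_
      split_ifs <;> simp
    simp only [this]
    rw [Finset.sum_comm]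
    refine Finset.sum_congr rfl fun k hk => ?_
    rw [← Finset.sum_filter, Finset.filter_filter, Finset.mul_sum]
    refine Finset.sum_congr (Finset.filter_congr fun n _ => ?_) fun _ _ => rfl
    have hck : L.Coprime k := Nat.Coprime.coprime_dvd_right (Nat.dvd_of_mem_divisors hk) hc
    exact ⟨fun ⟨a, b⟩ => hck.mul_dvd_of_dvd_of_dvd a b,
      fun h => ⟨(dvd_mul_right _ _).trans h, (dvd_mul_left _ _).trans h⟩⟩
  have e2 : (((q.totient : ℝ) / q : ℝ) : ℂ) * (G B - G A) / L = ∑ k ∈ q.divisors,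
      ((moebius k : ℝ) : ℂ) * ((G B - G A) / (L * k : ℕ)) := by
    rw [← mu_div q hq, ofReal_sum, Finset.sum_mul, Finset.sum_div]
    refine Finset.sum_congr rfl fun k _ => ?_
    push_cast
    ring
  rw [e1, e2, ← Finset.sum_sub_distrib]
  refine (norm_sum_le _ _).trans ?_
  rw [← nsmul_eq_mul, ← Finset.sum_const]
  refine Finset.sum_le_sum fun k hk => ?_
  rw [← mul_sub, norm_mul, Complex.norm_real]
  have hm : |(moebius k : ℝ)| ≤ 1 := by exact_mod_cast abs_moebius_le_one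
  exact (mul_le_mul hm (mult h (L * k) (Nat.mul_pos hL (Nat.pos_of_mem_divisors hk)) hA hAB)
    (norm_nonneg _) zero_le_one).trans (one_mul _).le

theorem all (h : Nice g G K) {q : ℕ} (hq : q ≠ 0) {W : ℝ} (hW : 0 ≤ W) {θ : ℕ → ℝ}
    (hθ : Sel q W θ) {A B : ℝ} (hA : 0 < A) (hAB : A ≤ B) :
    ‖∑ n ∈ (Ioc ⌊A⌋₊ ⌊B⌋₊).filter (fun n => n.Coprime q), (∑ d ∈ n.divisors, (θ d : ℂ)) ^ 2 * g n -
      (((q.totient : ℝ) / q * ∑ d ∈ Icc 1 ⌊W⌋₊, ∑ e ∈ Icc 1 ⌊W⌋₊, θ d * θ e / (d.lcm e : ℝ) : ℝ) : ℂ)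
        * (G B - G A)‖ ≤ W ^ 2 * (q.divisors.card * ((K + 2) / A)) := by
  rw [expand (fun d => (θ d : ℂ)) ⌊W⌋₊ (fun d hd => by simp [sel_zero hθ d hd]) _
    (fun n hn => by simp only [mem_filter, mem_Ioc] at hn; omega) (fun n => g n)]
  have hK := h.K0
  set E := (q.divisors.card : ℝ) * ((K + 2) / A) with hE
  have hE0 : 0 ≤ E := by positivity
  simp only [Finset.mul_sum (a := (q.totient : ℝ) / q), ofReal_sum, Finset.sum_mul,
    ← Finset.sum_sub_distrib]
  refine (norm_sum_le _ _).trans ((Finset.sum_le_sum fun d hd => (norm_sum_le _ _).trans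
    (Finset.sum_le_sum (g := fun _ => E) fun e he => ?_)).trans ?_)
  · simp only [mem_Icc] at hd he
    by_cases hd0 : θ d = 0
    · simp [hd0, hE0]
    by_cases he0 : θ e = 0
    · simp [he0, hE0]
    have h2 := cop h (d.lcm e) q (Nat.lcm_pos (by omega) (by omega)) hq
      (Nat.Coprime.coprime_dvd_left (Nat.lcm_dvd_mul d e)
        (Nat.Coprime.mul_left (hθ.supp d hd0).2 (hθ.supp e he0).2)) hA hAB
    have h3 : ‖(θ d : ℂ) * θ e‖ ≤ 1 := by
      rw [norm_mul, Complex.norm_real, Complex.norm_real]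
      exact mul_le_one₀ (hθ.abs d) (norm_nonneg _) (hθ.abs e)
    have h4 := mul_le_mul h3 h2 (norm_nonneg _) zero_le_one
    rw [← norm_mul, one_mul] at h4
    refine le_trans (le_of_eq ?_) h4
    congr 1
    push_cast
    ring
  · simp only [Finset.sum_const, Nat.card_Icc, add_tsub_cancel_right, nsmul_eq_mul]
    have h8 : (⌊W⌋₊ : ℝ) ≤ W := Nat.floor_le hW
    rw [← mul_assoc, sq]
    gcongr

theorem nice {l : ℝ} (hl : 0 < l) (ν : ℝ) :
    Nice (fun t => exp ((ν * (Real.log t / l) : ℝ) * I) / t)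
      (fun t => l * ∫ u in (0 : ℝ)..Real.log t / l, exp ((ν * u : ℝ) * I)) (1 + |ν| / l) where
  K0 := by positivity
  der t ht := by
    have hc : Continuous fun u : ℝ => exp ((ν * u : ℝ) * I) := by fun_prop
    have h1 := ((hc.integral_hasStrictDerivAt 0 (Real.log t / l)).hasDerivAt.scomp t
      ((Real.hasDerivAt_log ht.ne').div_const l)).const_mul (l : ℂ)
    refine h1.congr_deriv ?_
    have : (l : ℂ) ≠ 0 := ofReal_ne_zero.2 hl.ne'
    rw [real_smul]
    push_cast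
    field_simp
  bd t ht := by rw [norm_div, norm_exp_ofReal_mul_I, Complex.norm_of_nonneg ht.le]
  var y t hy hyt := by
    have ht := hy.trans_le hyt
    have h1 : ‖exp ((ν * (Real.log t / l) : ℝ) * I) - exp ((ν * (Real.log y / l) : ℝ) * I)‖ ≤
        |ν| / l * (t / y - 1) := by
      have e : exp ((ν * (Real.log t / l) : ℝ) * I) - exp ((ν * (Real.log y / l) : ℝ) * I) =
          exp ((ν * (Real.log y / l) : ℝ) * I) * (exp (I * (ν / l * Real.log (t / y) : ℝ)) - 1) := by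
        rw [mul_sub, ← Complex.exp_add, mul_one, Real.log_div ht.ne' hy.ne']
        congr 2
        push_cast
        ring
      rw [e, norm_mul, norm_exp_ofReal_mul_I, one_mul]
      refine Real.norm_exp_I_mul_ofReal_sub_one_le.trans ?_
      rw [Real.norm_eq_abs, abs_mul, abs_div, abs_of_pos hl,
        abs_of_nonneg (Real.log_nonneg ((one_le_div hy).2 hyt))]
      exact mul_le_mul_of_nonneg_left (Real.log_le_sub_one_of_pos (by positivity)) (by positivity)
    have h2 : 0 ≤ 1 / y - 1 / t := sub_nonneg.2 (one_div_le_one_div_of_le hy hyt)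
    have e : exp ((ν * (Real.log t / l) : ℝ) * I) / t - exp ((ν * (Real.log y / l) : ℝ) * I) / y =
        (exp ((ν * (Real.log t / l) : ℝ) * I) - exp ((ν * (Real.log y / l) : ℝ) * I)) / t -
          exp ((ν * (Real.log y / l) : ℝ) * I) * ((1 / y - 1 / t : ℝ) : ℂ) := by
      generalize exp ((ν * (Real.log t / l) : ℝ) * I) = a
      generalize exp ((ν * (Real.log y / l) : ℝ) * I) = b
      push_cast
      ring
    rw [e]
    refine (norm_sub_le _ _).trans ?_
    rw [norm_div, norm_mul, norm_exp_ofReal_mul_I, one_mul, Complex.norm_of_nonneg ht.le,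
      Complex.norm_of_nonneg h2]
    have h3 := div_le_div_of_nonneg_right h1 ht.le
    have h4 : |ν| / l * (t / y - 1) / t = |ν| / l * (1 / y - 1 / t) := by field_simp
    linarith

end DiagL

theorem diag : DiagS := by
  intro c a b ε hc ha hab hε
  obtain ⟨δ, hδ, e⟩ : ∃ δ : ℝ, 0 < δ ∧ a = 2 * c + 3 * δ := ⟨(a - 2 * c) / 3, by linarith, by ring⟩
  obtain ⟨C, hC1, hC⟩ := Pool.Agent.MP_74e98a_nt.H25.divisor_bound δ hδ
  obtain ⟨q₁, hq₁⟩ := big (4 * C / ε) δ hδ
  refine ⟨δ, hδ, max q₁ 2, fun q hq θ hθ => ?_⟩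
  have g4 : 2 ≤ q := (le_max_right _ _).trans hq
  have hq1 : (1 : ℝ) < q := by exact_mod_cast (by omega : 1 < q)
  have hq0 : (0 : ℝ) < q := by linarith
  have hl : 0 < Real.log q := Real.log_pos hq1
  have hφ : (0 : ℝ) < q.totient := by exact_mod_cast Nat.totient_pos.mpr (by omega)
  refine ⟨(q.totient : ℝ) / q * (∑ d ∈ Icc 1 ⌊(q : ℝ) ^ c⌋₊, ∑ e ∈ Icc 1 ⌊(q : ℝ) ^ c⌋₊,
    θ d * θ e / (d.lcm e : ℝ)) * Real.log q, ?_, fun ν hν => ?_⟩
  · refine (mul_le_mul_of_nonneg_right (mul_le_mul_of_nonneg_left hθ.diag (by positivity))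
      hl.le).trans (le_of_eq ?_)
    rw [Real.log_rpow hq0]
    field_simp
  have h := DiagL.all (DiagL.nice hl ν) (by omega) (by positivity) hθ (Real.rpow_pos_of_pos hq0 a)
    (Real.rpow_le_rpow_of_exponent_le hq1.le hab)
  have hc' : Continuous fun u : ℝ => exp ((ν * u : ℝ) * I) := by fun_prop
  simp only [Real.log_rpow hq0, mul_div_cancel_right₀ _ hl.ne', ← mul_sub] at h
  rw [intervalIntegral.integral_interval_sub_left (hc'.intervalIntegrable _ _)
    (hc'.intervalIntegrable _ _)] at h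
  refine le_trans (le_of_eq ?_) (h.trans ?_)
  · congr 2
    · refine Finset.sum_congr rfl fun n _ => ?_
      rw [un]
      push_cast
      ring
    · push_cast
      ring
  · have hp : 1 ≤ (q : ℝ) ^ δ := Real.one_le_rpow hq1.le hδ.le
    have h1 : 1 + |ν| / Real.log q + 2 ≤ 4 * (q : ℝ) ^ δ := by
      have := (div_le_iff₀ hl).2 hν
      linarith
    have h2 := hq₁ q ((le_max_left _ _).trans hq)
    have h3 : (q : ℝ) ^ a = ((q : ℝ) ^ c) ^ 2 * ((q : ℝ) ^ δ) ^ 3 := by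
      rw [e, Real.rpow_add hq0, mul_comm 2, mul_comm 3, Real.rpow_mul hq0.le, Real.rpow_mul hq0.le]
      norm_num
    have h4 : 0 < (q : ℝ) ^ c := Real.rpow_pos_of_pos hq0 c
    have h5 := hC q
    calc _ ≤ ((q : ℝ) ^ c) ^ 2 * (C * (q : ℝ) ^ δ * (4 * (q : ℝ) ^ δ / (q : ℝ) ^ a)) := by gcongr
      _ = 4 * C / (q : ℝ) ^ δ := by rw [h3]; field_simp
      _ ≤ ε := by
        rw [div_le_iff₀ hε] at h2
        rw [div_le_iff₀ (by linarith)]
        linarith

end Pool.Agent.MP_c5bf7b_nt.H25L
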