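import Pool.Agent.MP_c5bf7b_nt.H25L.SpecB

/-! The density inequality for multisets of test zeros. -/

set_option autoImplicit false

namespace Pool.Agent.MP_c5bf7b_nt.H25L

open Finset Complex Pool.Agent.MP_c5bf7b_nt.H38

namespace DzL

open Classical in
theorem ex_idx {α β : Type} [Fintype α] (W : α → Multiset β) :
    ∃ (ι : Type) (_ : Fintype ι) (ch : ι → α) (z : ι → β),
      ∀ a, (univ.filter fun j => ch j = a).val.map z = W a := by
  refine ⟨Σ a, (W a).ToType, inferInstance, Sigma.fst, fun j => j.2.1, fun a => ?_⟩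
  have h : (univ.filter fun j : Σ a, (W a).ToType => j.1 = a) =
      univ.map (Function.Embedding.sigmaMk a) := by
    ext ⟨b, x⟩
    simp only [mem_filter, mem_univ, true_and, mem_map, Function.Embedding.sigmaMk_apply]
    refine ⟨fun e => ?_, fun ⟨_, e⟩ => (congrArg Sigma.fst e).symm⟩
    subst e
    exact ⟨x, rfl⟩
  rw [h, map_val, Multiset.map_map]
  exact Multiset.map_univ_coe _

theorem dzp {q : ℕ} [NeZero q] {N : Ch q → Multiset ℂ} {D : DZ} {ε Lm Th : ℝ}
    (h : DZi q N D ε Lm Th) : DZp q N D ε Lm Th := by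
  classical
  intro E Z Y T r r' hE hle hZ hY
  obtain ⟨ι, _, ch, z, hw⟩ := ex_idx fun a : Ch q × Bool => if a.2 then Y a.1 else Z a.1
  have h1 : ∀ χ, (univ.filter fun j => (ch j).1 = χ ∧ (ch j).2 = true).val.map z = Y χ :=
    fun χ => by
      convert hw (χ, true) using 4
      · rw [Prod.ext_iff]
      · rfl
  have h2 : ∀ χ, (univ.filter fun j => (ch j).1 = χ ∧ ¬ (ch j).2 = true).val.map z = Z χ :=
    fun χ => by
      convert hw (χ, false) using 4
      · rw [Prod.ext_iff, Bool.not_eq_true]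
      · rfl
  have h3 : ∀ j, (ch j).2 = true → z j ∈ Y (ch j).1 := fun j e => by
    rw [← h1]
    exact Multiset.mem_map_of_mem _ (mem_filter.2 ⟨mem_univ _, rfl, e⟩)
  have h4 : ∀ j, ¬ (ch j).2 = true → z j ∈ Z (ch j).1 := fun j e => by
    rw [← h2]
    exact Multiset.mem_map_of_mem _ (mem_filter.2 ⟨mem_univ _, rfl, e⟩)
  have key := h E T ι univ (fun j => (ch j).1) z (fun j => (ch j).2 = true)
    (fun j => if (ch j).2 = true then r' (ch j).1 (z j) else r (ch j).1 (z j))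
    ⟨hE, fun j _ => by
      by_cases e : (ch j).2 = true
      exacts [(hY _ _ (h3 j e)).1, (hZ _ _ (h4 j e)).1], fun χ => by
      convert (hle χ).1 using 1
      convert h1 χ, fun χ => by
      convert (hle χ).2 using 2
      convert h2 χ⟩ fun j _ => by
      by_cases e : (ch j).2 = true
      · simp only [if_pos e]
        exact (hY _ _ (h3 j e)).2
      · simp only [if_neg e]
        exact (hZ _ _ (h4 j e)).2
  refine le_of_eq_of_le ?_ key
  rw [← sum_add_distrib, ← sum_fiberwise univ fun j => (ch j).1]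
  refine sum_congr rfl fun χ _ => ?_
  rw [← h1, ← h2, Multiset.map_map, Multiset.map_map, sum_ite, filter_filter, filter_filter,
    add_comm]
  exact congrArg₂ _ (sum_congr rfl fun j hj => by rw [(mem_filter.1 hj).2.1]; rfl)
    (sum_congr rfl fun j hj => by rw [(mem_filter.1 hj).2.1]; rfl)

end DzL

theorem dzOf : DzOf := by
  intro ⟨_, _, hC⟩ hA hK hP h3 D ε hD hε
  obtain ⟨ε', e0, h⟩ := h3 D ε hD hε
  obtain ⟨δ₁, d1, q₁, k1⟩ := hK _ _ ε' (hA.1 _ hD.p.x0 hD.p.x5) e0
  obtain ⟨δ₂, d2, q₂, k2⟩ := hP D.P ε' hD.p e0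
  have d0 : 0 < min δ₁ δ₂ := lt_min d1 d2
  obtain ⟨q₃, k3⟩ := Filter.eventually_atTop.1 (((Real.tendsto_log_atTop.comp
    tendsto_natCast_atTop_atTop).const_mul_atTop d0).eventually_ge_atTop 10)
  refine ⟨_, d0, max 2 (max q₁ (max q₂ q₃)), fun q _ hq N hN => DzL.dzp ?_⟩
  simp only [max_le_iff] at hq
  have q1 : (1 : ℝ) ≤ q := by exact_mod_cast (by omega : 1 ≤ q)
  have l0 := Real.log_nonneg q1
  have m : ∀ δ, min δ₁ δ₂ ≤ δ → (q : ℝ) ^ min δ₁ δ₂ * Real.log q ≤ (q : ℝ) ^ δ * Real.log q :=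
    fun δ e => mul_le_mul_of_nonneg_right (Real.rpow_le_rpow_of_exponent_le q1 e) l0
  have m' := mul_le_mul_of_nonneg_right (min_le_left δ₁ δ₂) l0
  exact h q N _ _ hq.1 (fun χ ζ e => (((hC q χ hq.1).2 _ (hN χ)).2.1 ζ e).1) (k3 q hq.2.2.2)
    (fun χ w Y Y' a b c d e f g => k1 q hq.2.1 N hN χ w Y Y' a b (fun ζ z => (c ζ z).trans m') d
      (e.trans m') (f.trans (m _ (min_le_left _ _))) g)
    fun ι J ch t c σ a b => k2 q hq.2.2.1 ι J ch t c σ a fun j hj =>
      ⟨(b j hj).1, (b j hj).2.1.trans (m _ (min_le_right _ _)), (b j hj).2.2⟩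

end Pool.Agent.MP_c5bf7b_nt.H25L
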