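import Pool.Agent.MP_c5bf7b_nt.H25L.SpecB

/-! The density inequality for an indexed family. -/

set_option autoImplicit false

namespace Pool.Agent.MP_c5bf7b_nt.H25L

open Finset Complex Pool.Agent.MP_c5bf7b_nt.H38

namespace Dz3L

theorem ex_sub {ι : Type} (J : Finset ι) (c : ι → ℝ) {cap S : ℝ} (h0 : 0 ≤ S)
    (hc : ∀ j ∈ J, c j ≤ cap) (h : S < ∑ j ∈ J, c j) :
    ∃ J' ⊆ J, S - cap < ∑ j ∈ J', c j ∧ ∑ j ∈ J', c j ≤ S := by
  classical
  induction J using Finset.induction_on with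
  | empty => simp at h; linarith
  | insert a J ha ih =>
    by_cases h1 : S < ∑ j ∈ J, c j
    · obtain ⟨J', h2, h3⟩ := ih (fun j hj => hc j (mem_insert_of_mem hj)) h1
      exact ⟨J', h2.trans (subset_insert _ _), h3⟩
    · rw [sum_insert ha] at h
      exact ⟨J, subset_insert _ _, by linarith [hc a (mem_insert_self _ _)], not_lt.1 h1⟩

variable {q : ℕ} [NeZero q] {N E : Ch q → Multiset ℂ} {D : DZ} {Lm Th T : ℝ} {ι : Type}
  {J J' : Finset ι} {ch : ι → Ch q} {z : ι → ℂ} {e : ι → Prop}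

open Classical in
theorem fam_sub (h : Fam N E D Lm Th T J ch z e) (hJ : J' ⊆ J) : Fam N E D Lm Th T J' ch z e :=
  ⟨h.exc, fun j hj => h.tst j (hJ hj),
    fun χ => (Multiset.map_le_map (val_le_iff.2 (filter_subset_filter _ hJ))).trans (h.sub χ),
    fun χ => le_trans (Multiset.add_le_add_left
      (Multiset.map_le_map (val_le_iff.2 (filter_subset_filter _ hJ)))) (h.sub' χ)⟩

open Classical in
theorem card_e (h : Fam N E D Lm Th T J ch z e) : (J.filter e).card ≤ D.nE := by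
  refine le_trans ?_ h.exc.card
  rw [card_eq_sum_card_fiberwise (f := ch) (t := univ) fun _ _ => mem_univ _]
  refine sum_le_sum fun χ _ => ?_
  have h1 := Multiset.card_le_card (h.sub χ)
  rw [Multiset.card_map] at h1
  refine le_trans (le_of_eq ?_) h1
  rw [filter_filter]
  exact congrArg card (filter_congr fun j _ => and_comm)

theorem pick (hD : D.Ok) {l e r : ℝ} {n : ℕ} (he : 0 ≤ e) (h : D.Ad l n e r) :
    ∃ c rs : ℝ, D.Co l c ∧ r ≤ rs ∧ r ≤ D.ρ * c + e ∧ c / 1000 ≤ rs ∧ rs + 2 * D.s * c ≤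
      c * (2 * (Lr (par D.P.x) D.P.x (l - D.P.w) - 1 / 8 - n * D.cE) - D.M * c) := by
  rcases h with h | ⟨c, Δ, h1, h2, h3, h4, h5, h6⟩
  · refine ⟨0, 0, ⟨le_rfl, hD.cap0.le, ?_⟩, h, by linarith, by simp, by simp⟩
    have := hD.cap0
    rw [zero_mul]
    positivity
  · have h7 := h1.1
    exact ⟨c, c * (2 * Δ - D.M * c), h1, h5, h6, by nlinarith, by nlinarith⟩

end Dz3L

open Dz3L

theorem dz3Of : Dz3Of := by
  classical
  intro h2 D ε hD hε
  have σ0 := hD.σ0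
  have Sm0 := hD.Sm0
  have cap0 := hD.cap0
  have R0 : 0 ≤ D.Rt := le_trans (by have := hD.ρ0; have := hD.ex0; positivity) hD.triv
  obtain ⟨S1, hS1⟩ : ∃ S1, S1 = D.Sm + D.cap + 1000 * (D.Rt + 1) + 1 := ⟨_, rfl⟩
  have S10 : 0 < S1 := by rw [hS1]; positivity
  obtain ⟨K, hK⟩ : ∃ K, K = 3 * (1 + D.σ / D.Sm + S1 / D.σ) * (1 + S1) ^ 2 := ⟨_, rfl⟩
  have K0 : 0 < K := by rw [hK]; positivity
  have m0 : 0 < min ε 1 := lt_min hε one_pos
  refine ⟨min ε 1 / K, by positivity, ?_⟩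
  intro q _ N Lm Th hq hN hL hKF hPS E T ι J ch z e r hF hA
  have hp := fun j (hj : j ∈ J) => pick hD (by split_ifs; exacts [hD.ex0, le_rfl]) (hA j hj)
  choose! c rs p1 p2 p3 p4 p5 using hp
  have key : ∀ J' ⊆ J, D.Sm ≤ ∑ j ∈ J', c j → ∑ j ∈ J', c j ≤ S1 →
      ∑ j ∈ J', rs j ≤ D.Rt + min ε 1 := by
    intro J' hJ a1 a2
    have a0 : 0 < ∑ j ∈ J', c j := Sm0.trans_le a1
    have a3 : D.σ / ∑ j ∈ J', c j ≤ D.σ / D.Sm := div_le_div_of_nonneg_left σ0.le Sm0 a1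
    have b := h2 q N E D (min ε 1 / K) Lm Th T (D.σ / ∑ j ∈ J', c j) ι J' ch z e c hD hq hN hL
      (by positivity) hKF hPS (fam_sub hF hJ) (fun j hj => p1 j (hJ hj)) (by positivity) a3
    have b1 := sum_le_sum fun j (hj : j ∈ J') => p5 j (hJ hj)
    rw [sum_add_distrib, ← mul_sum] at b1
    have b2 : ∑ j ∈ J', c j ^ 2 ≤ D.cap * ∑ j ∈ J', c j := by
      rw [mul_sum]
      refine sum_le_sum fun j hj => ?_
      have := p1 j (hJ hj)
      nlinarith [this.1, this.2.1]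
    have b3 := b1.trans b
    generalize ∑ j ∈ J', c j = S at a0 a1 a2 a3 b2 b3
    generalize ∑ j ∈ J', c j ^ 2 = Q at b2 b3
    have hR := hD.hR
    have X0 : 0 ≤ max 0 (Lr (par D.P.x) D.P.x (-D.P.v) - 1 / 8 + D.nE * D.cF) := le_max_left _ _
    generalize max 0 (Lr (par D.P.x) D.P.x (-D.P.v) - 1 / 8 + D.nE * D.cF) = X at b3 hR X0
    have c1 : D.σ / S * S ^ 2 / 8 + D.P.I / (D.σ / S) = (D.σ / 8 + D.P.I / D.σ) * S := by
      field_simp
    have c2 : (D.σ / 8 + D.P.I / D.σ) * S ≤ 2 * D.s * S :=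
      mul_le_mul_of_nonneg_right (by linarith [hD.hs]) a0.le
    have c3 : D.σ / S * X * Q ≤ D.σ * D.cap * X :=
      calc D.σ / S * X * Q ≤ D.σ / S * X * (D.cap * S) := by gcongr
        _ = _ := by field_simp
    have c4 : 3 * (min ε 1 / K) * (1 + D.σ / S + 1 / (D.σ / S)) * (1 + S) ^ 2 ≤ min ε 1 :=
      calc _ ≤ 3 * (min ε 1 / K) * (1 + D.σ / D.Sm + S1 / D.σ) * (1 + S1) ^ 2 := by
            rw [one_div_div]
            gcongr
        _ = min ε 1 / K * K := by rw [hK]; ring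
        _ = _ := div_mul_cancel₀ _ K0.ne'
    linarith
  rcases lt_or_ge (∑ j ∈ J, c j) D.Sm with h | h
  · have b1 := sum_le_sum fun j (hj : j ∈ J) => p3 j hj
    rw [sum_add_distrib, ← mul_sum, ← sum_filter, sum_const, nsmul_eq_mul] at b1
    have b2 : ((J.filter e).card : ℝ) * D.ex ≤ D.nE * D.ex :=
      mul_le_mul_of_nonneg_right (by exact_mod_cast card_e hF) hD.ex0
    have b3 := mul_le_mul_of_nonneg_left h.le hD.ρ0
    linarith [hD.triv]
  rcases le_or_gt (∑ j ∈ J, c j) S1 with h' | h'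
  · exact (sum_le_sum p2).trans ((key J Subset.rfl h h').trans (by linarith [min_le_left ε 1]))
  · obtain ⟨J', a1, a2, a3⟩ := ex_sub J c S10.le (fun j hj => (p1 j hj).2.1) h'
    have b1 := key J' a1 (by linarith) a3
    have b2 := sum_le_sum fun j (hj : j ∈ J') => p4 j (a1 hj)
    rw [← sum_div] at b2
    linarith [min_le_right ε 1]

end Pool.Agent.MP_c5bf7b_nt.H25L
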