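import Pool.Agent.MP_c5bf7b_nt.H25L.SpecC
import Pool.Agent.MP_c5bf7b_nt.H38.EnvR

/-! The environment exists for all large moduli. -/

set_option autoImplicit false

namespace Pool.Agent.MP_c5bf7b_nt.H25L

open Finset Complex ArithmeticFunction Pool.Agent.MP_c5bf7b_nt.H38 EnvR

namespace Env5L

theorem good_set {ι : Type} {Q : ι → (q : ℕ) → (Ch q → Multiset ℂ) → ℝ → ℝ → Prop} {S : Set ι}
    (hS : S.Finite) : (∀ i ∈ S, Good (Q i)) → Good fun q N Lm Th => ∀ i ∈ S, Q i q N Lm Th := by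
  induction S, hS using Set.Finite.induction_on with
  | empty => exact fun _ => ⟨1, one_pos, 0, fun q _ _ N _ Lm Th _ _ i hi => absurd hi (by simp)⟩
  | insert _ _ ih =>
    intro h
    refine ((h _ (Set.mem_insert _ _)).and
      (ih fun i hi => h i (Set.mem_insert_of_mem _ hi))).imp ?_
    intro q N Lm Th hh i hi
    rcases Set.mem_insert_iff.mp hi with rfl | hi
    · exact hh.1
    · exact hh.2 i hi

theorem good_dz (hD : DzS) {D : DZ} {ε : ℝ} (h0 : D.Ok) (hε : 0 < ε) :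
    Good fun q N Lm Th => ∀ _ : NeZero q, DZp q N D ε Lm Th := by
  obtain ⟨δ, hδ, q₀, h⟩ := hD D ε h0 hε
  refine ⟨δ, hδ, q₀, fun q _ hq N hN Lm Th h1 h2 _ E Z Y T r r' hE hle hZ hY =>
    h q hq N hN E Z Y T r r' ⟨hE.one, hE.card, hE.le, hE.th.trans h2, hE.far, hE.cost⟩ hle
      (fun χ ζ hζ => ?_) fun χ ζ hζ => ?_⟩
  · obtain ⟨a, b⟩ := hZ χ ζ hζ
    exact ⟨⟨a.ne, a.im, a.re.trans h1, a.near, a.cost⟩, b⟩
  · obtain ⟨a, b⟩ := hY χ ζ hζ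
    exact ⟨⟨a.ne, a.im, a.re.trans h1, a.near, a.cost⟩, b⟩

theorem env_mono {q : ℕ} [NeZero q] {N : Ch q → Multiset ℂ} {Lm Th Th' C M : ℝ}
    (h : Env q N Lm Th C M) (hT : Th' ≤ Th) : Env q N Lm Th' C M :=
  ⟨h.two, h.lm, h.m, h.pos, h.cnt,
    fun i hi χ w Y a b c d e f => h.kf i hi χ w Y a b c d (e.trans hT) f,
    fun χ w Y a b c d e f => h.kt χ w Y a b c d (e.trans hT) f,
    fun ζ a b => h.zeta ζ a (b.trans hT), h.pc,
    fun i hi j hj k hk J z hJ => h.d1 i hi j hj k hk J z fun χ hχ =>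
      ⟨(hJ χ hχ).1, (hJ χ hχ).2.1, (hJ χ hχ).2.2.1, (hJ χ hχ).2.2.2.trans hT⟩⟩

end Env5L

open Env5L in
theorem env5Of : Env5Of := by
  intro hE hJ hP hD hZ K Ds Es hp
  obtain ⟨C, hC, hE⟩ := hE
  refine ⟨C, hC, fun M hM => ?_⟩
  obtain ⟨η₀, hη₀, hE⟩ := hE M hM
  have he : 0 < e0 := by unfold e0; norm_num
  have g1 : Good fun q N _ _ => ∀ i ∈ range 201, ∀ χ : Ch q,
      (∀ ζ ∈ N χ, |ζ.im| ≤ Real.log q → ((i : ℕ) : ℝ) / 20 ≤ ζ.re) →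
      ((N χ).map fun ζ => ‖HK K ζ‖).sum ≤ K ^ 2 * (BK K ((i : ℕ) / 20) + e0) := by
    refine Good.fin (Q := fun i q N _ _ => ∀ χ : Ch q,
      (∀ ζ ∈ N χ, |ζ.im| ≤ Real.log q → ((i : ℕ) : ℝ) / 20 ≤ ζ.re) →
      ((N χ).map fun ζ => ‖HK K ζ‖).sum ≤ K ^ 2 * (BK K ((i : ℕ) / 20) + e0)) _ fun i hi => ?_
    have h2 : (i : ℝ) ≤ 200 := by exact_mod_cast Nat.lt_succ_iff.mp (mem_range.mp hi)
    obtain ⟨q₀, h⟩ := hP K ((i : ℝ) / 20) e0 hp.K0 (by linarith [hp.K1]) (by positivity)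
      (by linarith) he
    exact ⟨1, one_pos, q₀, fun q _ hq N hN _ _ _ _ => h q hq N hN⟩
  have g2 : Good fun q N Lm Th => ∀ d ∈ Es, D1p q N f0 d.1 d.2.1 d.2.2 e0 Lm Th :=
    good_set (Q := fun (d : ℝ × ℝ × ℝ) q N Lm Th => D1p q N f0 d.1 d.2.1 d.2.2 e0 Lm Th) hp.fE
      fun d hd => good_d1 hD (by unfold f0; norm_num) (hp.oE d hd).1 (hp.oE d hd).2.1
        (hp.oE d hd).2.2 he
  have g3 : Good fun q N Lm Th => ∀ D ∈ Ds, ∀ _ : NeZero q, DZp q N D e0 Lm Th :=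
    good_set (Q := fun (D : DZ) q N Lm Th => ∀ _ : NeZero q, DZp q N D e0 Lm Th) hp.fD
      fun D hD => good_dz hZ (hp.oD D hD) he
  obtain ⟨η₁, hη₁, q₁, h⟩ := g1.and (g2.and g3)
  refine ⟨min (min η₀ η₁) 1, lt_min (lt_min hη₀ hη₁) one_pos, min_le_right _ _,
    fun δ hδ hδη => ?_⟩
  have a0 : min (min η₀ η₁) 1 ≤ η₀ := (min_le_left _ _).trans (min_le_left _ _)
  have a1 : min (min η₀ η₁) 1 ≤ η₁ := (min_le_left _ _).trans (min_le_right _ _)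
  obtain ⟨q₀, hE⟩ := hE δ hδ (hδη.trans a0)
  refine ⟨max q₀ q₁, fun q _ hq N hN => ?_⟩
  have old := env_mono (hE q ((le_max_left _ _).trans hq) N hN) (mono_le (q := q) a0).2
  obtain ⟨k1, k2, k3⟩ := h q ((le_max_right _ _).trans hq) N hN _ _
    (mono_le (q := q) (hδη.trans a1)).1 (mono_le (q := q) a1).2
  exact ⟨old, fun χ => hJ q χ _ _ old.two (hN χ) (hN χ⁻¹),
    fun χ i hi => k1 i (mem_range.mpr (by omega)) χ, k2, fun D hD => k3 D hD _⟩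

end Pool.Agent.MP_c5bf7b_nt.H25L
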