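import Pool.Agent.MP_c5bf7b_nt.H25L.SpecA

/-! The choice of the power in the density estimate. -/

set_option autoImplicit false

namespace Pool.Agent.MP_c5bf7b_nt.H25L

namespace ExpoL

theorem start {x τ n : ℝ} (h0 : 0 ≤ x) (h1 : x ≤ 3 / 8) (hτ : 0 ≤ τ)
    (hg : 11 / 4 * x + 19 / 20 * τ ≤ 1) (hn : n * (1 - x) ≤ 1 / 2 + τ + 1 / 100) :
    n ≤ 3 ∧ n * (2 * x) ≤ 11 / 4 * x + 19 / 20 * τ := by
  have hs : 0 < 1 - x := by linarith
  refine ⟨le_of_mul_le_mul_right (by linarith) hs, le_of_mul_le_mul_right ?_ hs⟩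
  have h2 : n * (2 * x) * (1 - x) ≤ 2 * x * (1 / 2 + τ + 1 / 100) := by nlinarith
  refine h2.trans ?_
  rcases le_total x (3 / 10) with h | h
  · nlinarith [mul_nonneg hτ (sub_nonneg.2 h), mul_nonneg h0 (sub_nonneg.2 h1)]
  · have h3 : τ ≤ 1 / 5 := by linarith
    nlinarith [mul_nonneg hτ (sub_nonneg.2 h1), mul_nonneg h0 (sub_nonneg.2 h1)]

theorem one {x τ n : ℝ} (h0 : 128 / 1000 ≤ x) (h1 : x ≤ 3 / 8) (hτ : 0 ≤ τ)
    (hn : n * (1 - x) ≤ 1 / 2 + τ + 1 / 100) (h : 11 / 4 * x + 19 / 20 * τ < 2 * n * (2 * x)) :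
    1 - n * (1 - 2 * x) ≤ 11 / 4 * x + 19 / 20 * τ := by
  have hx : 0 < x := by linarith
  by_cases hg : 4 * x ≤ (11 / 4 * x + 19 / 20 * τ) * (1 + 2 * x)
  · refine le_of_mul_le_mul_right ?_ (show 0 < 4 * x by linarith)
    nlinarith [mul_le_mul_of_nonneg_right h.le (show 0 ≤ 1 - 2 * x by linarith)]
  · exfalso
    rw [not_le] at hg
    have h2 : (11 / 4 * x + 19 / 20 * τ) * (1 - x) < 4 * x * (1 / 2 + τ + 1 / 100) := by
      nlinarith [mul_lt_mul_of_pos_right h (show 0 < 1 - x by linarith),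
        mul_le_mul_of_nonneg_left hn (show 0 ≤ 4 * x by linarith)]
    rcases le_total x (19 / 100) with h3 | h3
    · nlinarith [mul_nonneg hτ (sub_nonneg.2 h3), mul_nonneg hx.le (sub_nonneg.2 h3)]
    · have h4 : x ≤ 228 / 1000 := by
        by_contra h5
        rw [not_le] at h5
        nlinarith [mul_nonneg hτ hx.le, mul_pos hx (sub_pos.2 h5)]
      have h5 : τ ≤ 16 / 100 * x := by
        nlinarith [mul_nonneg hτ (sub_nonneg.2 h3), mul_nonneg hx.le (sub_nonneg.2 h3)]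
      nlinarith [mul_nonneg hτ (sub_nonneg.2 h4), mul_nonneg hx.le (sub_nonneg.2 h4)]

theorem main {x τ n : ℝ} (h0 : 0 ≤ x) (h1 : x ≤ 3 / 8) (hτ : 0 ≤ τ)
    (hg : 11 / 4 * x + 19 / 20 * τ ≤ 1) (hp : 0 < n) (hn : n * (1 - x) ≤ 1 / 2 + τ + 1 / 100) :
    ∃ k : ℕ, 1 ≤ k ∧ k * n ≤ 3 ∧ k * n * (2 * x) ≤ 11 / 4 * x + 19 / 20 * τ ∧
      (1 - k * n * (1 - 2 * x) ≤ 11 / 4 * x + 19 / 20 * τ ∨
        1 / 2 + 1 / 100 ≤ k * n * (1 - 2 * x)) := by
  classical
  have hex : ∃ k : ℕ, ¬(((k : ℝ) + 1) * n ≤ 3 ∧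
      ((k : ℝ) + 1) * n * (2 * x) ≤ 11 / 4 * x + 19 / 20 * τ) := by
    obtain ⟨k, hk⟩ := exists_nat_gt (3 / n)
    rw [div_lt_iff₀ hp] at hk
    exact ⟨k, fun h => by nlinarith [h.1]⟩
  have hk := Nat.find_spec hex
  rcases hj : Nat.find hex with _ | j
  · rw [hj] at hk
    exact (hk (by simpa using start h0 h1 hτ hg hn)).elim
  have hm := not_not.1 (Nat.find_min hex (m := j) (by omega))
  rw [hj] at hk
  refine ⟨j + 1, by omega, by exact_mod_cast hm.1, by exact_mod_cast hm.2, ?_⟩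
  have hj0 : (0 : ℝ) ≤ j := Nat.cast_nonneg j
  push_cast at hk ⊢
  have hjn : 0 ≤ (j : ℝ) * n := by positivity
  by_cases hB : 11 / 4 * x + 19 / 20 * τ < ((j : ℝ) + 1 + 1) * n * (2 * x)
  · have hx : 0 < x := by
      rcases h0.eq_or_lt with e | e
      · rw [← e] at hB; linarith
      · exact e
    have h2 : 11 / 8 < ((j : ℝ) + 1 + 1) * n :=
      lt_of_mul_lt_mul_right (a := 2 * x) (by linarith) (by linarith)
    rcases j with _ | j
    · simp only [Nat.cast_zero, zero_add, one_mul] at hB h2 ⊢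
      rcases le_total x (128 / 1000) with h3 | h3
      · right; nlinarith
      · left; exact one h3 h1 hτ hn (by linarith)
    · have hj1 : (0 : ℝ) ≤ j * n := by positivity
      push_cast at h2 ⊢
      have h3 : 11 / 12 ≤ ((j : ℝ) + 1 + 1) * n := by linarith
      generalize ((j : ℝ) + 1 + 1) * n = y at h3
      rcases le_total x (1 / 5) with h4 | h4
      · right; nlinarith
      · left; nlinarith
  · rw [not_lt] at hB
    have h2 : 3 < ((j : ℝ) + 1 + 1) * n := not_le.1 fun h => hk ⟨h, hB⟩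
    have h3 : 3 / 2 ≤ ((j : ℝ) + 1) * n := by linarith
    have h4 : 6 * x ≤ 1 := by nlinarith
    right
    generalize ((j : ℝ) + 1) * n = y at h3
    nlinarith

end ExpoL

theorem expo : ExpS := by
  intro σ τ n h0 h1 hτ hg hp hn
  obtain ⟨k, hk, h2, h3, h4⟩ := ExpoL.main (x := 1 - σ) (τ := τ) (n := n) (by linarith)
    (by linarith) hτ hg hp (by simpa using hn)
  refine ⟨k, hk, h2, ?_, ?_⟩
  · convert h3 using 2; ring
  · rwa [show 1 - 2 * (1 - σ) = 2 * σ - 1 by ring] at h4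

end Pool.Agent.MP_c5bf7b_nt.H25L
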