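import Pool.Agent.MP_c5bf7b_nt.H25L.SpecA

/-! Row FAR: a class without small primes forces zeros close to `1`. -/

set_option autoImplicit false

namespace Pool.Agent.MP_c5bf7b_nt.H25L

open Finset Complex ArithmeticFunction Filter Pool.Agent.MP_c5bf7b_nt.H38

namespace FarL

theorem WK_split {q : ℕ} [NeZero q] (N : Ch q → Multiset ℂ) (K E a b : ℝ) :
    WK N K E (fun _ => True) = WK N K E (fun ζ => ζ.re < a ∧ |ζ.im| ≤ b) +
      WK N K E (fun ζ => a ≤ ζ.re ∨ b < |ζ.im|) := by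
  classical
  unfold WK
  rw [← sum_add_distrib]
  refine sum_congr rfl fun χ _ => ?_
  rw [← Multiset.sum_add, ← Multiset.map_add]
  refine congrArg Multiset.sum (congrArg (Multiset.map _) ?_)
  ext ζ
  simp only [Multiset.count_add, Multiset.count_filter, if_true]
  by_cases h : ζ.re < a ∧ |ζ.im| ≤ b
  · rw [if_pos h, if_neg (by push Not; exact h), add_zero]
  · rw [if_neg h, if_pos (by by_contra h'; push Not at h'; exact h h'), zero_add]

theorem WK_add {q : ℕ} [NeZero q] (N N' : Ch q → Multiset ℂ) (K E : ℝ) (P : ℂ → Prop)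
    (h : ∀ χ, ∀ ζ ∈ N' χ, ¬ P ζ) : WK (fun χ => N χ + N' χ) K E P = WK N K E P := by
  classical
  unfold WK
  refine sum_congr rfl fun χ _ => ?_
  rw [Multiset.filter_add, Multiset.filter_eq_nil.2 (h χ), add_zero]

theorem ev_pow {y : ℝ} (hy : 0 < y) (a : ℝ) : ∀ᶠ q : ℕ in atTop, a ≤ (q : ℝ) ^ y :=
  ((tendsto_rpow_atTop hy).comp tendsto_natCast_atTop_atTop).eventually_ge_atTop a

end FarL

theorem farOf : FarOf := by
  rintro ⟨C, -, hcnt⟩ hHf hMid K E δ η hK hK4 hE hE5 hδ hδ3 hη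
  obtain ⟨q₁, h1⟩ := hHf K E hK hK4 hE.le hE5
  obtain ⟨δ', hδ', q₂, h2⟩ := hMid K E δ η hK hK4 hE hδ hη
  set y : ℝ := min δ' (1 / 100) / 2 with hy
  have hy0 : 0 < y := by
    have : 0 < min δ' (1 / 100) := lt_min hδ' (by norm_num)
    positivity
  have hy1 : 2 * y ≤ δ' := by
    have := min_le_left δ' (1 / 100)
    linarith
  have hy2 : 2 * y ≤ 1 / 100 := by
    have := min_le_right δ' (1 / 100)
    linarith
  obtain ⟨q₃, h3⟩ := eventually_atTop.1 (FarL.ev_pow hy0 2)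
  refine ⟨y, hy0, max (max q₁ q₂) (max q₃ 2), ?_⟩
  intro q _ hq N hN a ha hp
  have hq1 : q₁ ≤ q := le_trans (le_trans (le_max_left _ _) (le_max_left _ _)) hq
  have hq2 : q₂ ≤ q := le_trans (le_trans (le_max_right _ _) (le_max_left _ _)) hq
  have hq3 : q₃ ≤ q := le_trans (le_trans (le_max_left _ _) (le_max_right _ _)) hq
  have hq4 : 2 ≤ q := le_trans (le_trans (le_max_right _ _) (le_max_right _ _)) hq
  have hq5 : (1 : ℝ) ≤ q := by exact_mod_cast le_trans (by norm_num) hq4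
  have hqp : (0 : ℝ) < q := lt_of_lt_of_le one_pos hq5
  have hl : 0 ≤ Real.log q := Real.log_nonneg hq5
  choose N' hN' hre using fun χ => (hcnt q χ hq4).1 (N χ) (hN χ)
  have e1 := h1 q hq1 (fun χ => N χ + N' χ) hN' a ha hp
  have e2 := h2 q hq2 (fun χ => N χ + N' χ) hN'
  rw [FarL.WK_split _ K E (δ * Real.log q) ((q : ℝ) ^ η * Real.log q),
    FarL.WK_add N N' K E _ ?_] at e1
  · have hs : ∀ x : ℝ, 2 * y ≤ x → 2 * (q : ℝ) ^ (-x) ≤ (q : ℝ) ^ (-y) := by
      intro x hx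
      have a1 : (q : ℝ) ^ (-x) ≤ (q : ℝ) ^ (-(2 * y)) :=
        Real.rpow_le_rpow_of_exponent_le hq5 (by linarith)
      have a2 : (q : ℝ) ^ (-y) = (q : ℝ) ^ y * (q : ℝ) ^ (-(2 * y)) := by
        rw [← Real.rpow_add hqp]
        refine congrArg _ ?_
        ring
      have a3 := h3 q hq3
      have a4 : 0 < (q : ℝ) ^ (-(2 * y)) := Real.rpow_pos_of_pos hqp _
      rw [a2]
      nlinarith
    have b1 := hs δ' hy1
    have b2 := hs (1 / 100) hy2
    rw [← neg_div] at b2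
    linarith
  · intro χ ζ hζ h
    have c1 := hre χ ζ hζ
    have c2 : δ * Real.log q ≤ 1 / 3 * Real.log q := mul_le_mul_of_nonneg_right hδ3 hl
    linarith [h.1]

end Pool.Agent.MP_c5bf7b_nt.H25L
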