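import Pool.Agent.MP_c5bf7b_nt.H25L.SpecA
import Pool.Agent.MP_c5bf7b_nt.H38.Gf

/-! Row GF5: local counts of the zeros and the regular part of the logarithmic derivative, for
the wider rectangle. -/

set_option autoImplicit false

namespace Pool.Agent.MP_c5bf7b_nt.H25L

open Complex Metric Pool.Agent.MP_c481b3_nt.H31 Pool.Agent.MP_c5bf7b_nt.H38
  Pool.Agent.MP_c5bf7b_nt.H38.Gf

namespace Gf5L

open Classical in
/-- the local formula around `2 + τ i` -/
lemma loc5 {f G : ℂ → ℂ} {Z : Multiset ℂ} {B T : ℝ} (hB2 : 2 ≤ B) (hZ : IsZ5 f T Z G)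
    (hB : ∀ s : ℂ, 1 / 20 ≤ s.re → s.re ≤ 4 → |s.im| ≤ T + 2 → ‖f s‖ ≤ B)
    {τ : ℝ} (hτ : |τ| ≤ T) (h2 : 1 / 3 ≤ ‖f (2 + τ * I)‖) :
    ∃ (Y : Multiset ℂ) (h : ℂ → ℂ),
      ((Z.filter fun ρ => ‖ρ - (2 + τ * I)‖ ≤ 121 / 80).card : ℝ) ≤ 20 * Real.log B ∧
      (Y.card : ℝ) ≤ 20 * Real.log B ∧ (∀ ρ ∈ Y, G ρ = 0) ∧
      DifferentiableOn ℂ h (ball (2 + τ * I) (11 / 8)) ∧
      ∀ s ∈ ball (2 + τ * I) (11 / 8), ‖h s‖ ≤ 40000 * Real.log B ∧ (G s ≠ 0 →
        deriv G s / G s = h s + (Y.map fun ρ => (s - ρ)⁻¹).sum -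
          ((Z.filter fun ρ => ¬ ‖ρ - (2 + τ * I)‖ ≤ 121 / 80).map fun ρ => (s - ρ)⁻¹).sum) := by
  obtain ⟨hG, hf, -, -⟩ := hZ
  set c : ℂ := 2 + τ * I with hc
  set Zn := Z.filter fun ρ => ‖ρ - c‖ ≤ 121 / 80 with hZn
  set Zf := Z.filter fun ρ => ¬ ‖ρ - c‖ ≤ 121 / 80 with hZf
  have hsplit : Zn + Zf = Z := Multiset.filter_add_not _ _
  let A : ℂ → ℂ := fun w => c + 11 / 10 * (w - 2)
  let A' : ℂ → ℂ := fun s => 2 + 10 / 11 * (s - c)
  have hAA : ∀ s, A (A' s) = s := fun s => by simp only [A, A']; ring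
  have n1 : ‖(11 / 10 : ℂ)‖ = 11 / 10 := by rw [norm_div]; simp
  have n2 : ‖(10 / 11 : ℂ)‖ = 10 / 11 := by rw [norm_div]; simp
  have hA : ∀ w, ‖A w - c‖ = 11 / 10 * ‖w - 2‖ := fun w => by
    simp only [A, add_sub_cancel_left, norm_mul, n1]
  have hA' : ∀ s, ‖A' s - 2‖ = 10 / 11 * ‖s - c‖ := fun w => by
    simp only [A', add_sub_cancel_left, norm_mul, n2]
  have hFB : ∀ w ∈ ball (2 : ℂ) (7 / 4), ‖f (A w)‖ ≤ B := by
    intro w hw
    rw [mem_ball, dist_eq_norm] at hw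
    have e := hA w
    have e1 := abs_re_le_norm (A w - c)
    have e2 := abs_im_le_norm (A w - c)
    have r1 : c.re = 2 := by simp [hc]
    have r2 : c.im = τ := by simp [hc]
    rw [sub_re, r1, abs_le] at e1
    rw [sub_im, r2, abs_le] at e2
    rw [abs_le] at hτ
    exact hB _ (by linarith) (by linarith) (abs_le.2 ⟨by linarith, by linarith⟩)
  have hF2 : 1 / 3 ≤ ‖f (A 2)‖ := by simpa [A] using h2
  have hmap : (Zn.map A').map A = Zn := by
    rw [Multiset.map_map]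
    simp only [Function.comp_def, hAA, Multiset.map_id']
  have hAd : Differentiable ℂ A := by fun_prop
  have fac : LF.Fac (fun w => f (A w)) (Zn.map A')
      fun w => (11 / 10) ^ Zn.card * (PZ Zf (A w) * G (A w)) := by
    refine ⟨?_, fun ρ hρ => ?_, fun w => ?_⟩
    · exact ((((PZ_diff Zf).comp hAd).mul (hG.comp hAd)).const_mul _).differentiableOn
    · obtain ⟨x, hx, rfl⟩ := Multiset.mem_map.1 hρ
      have := (Multiset.mem_filter.1 hx).2
      rw [hA']
      linarith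
    · have e := PZ_scale (Zn.map A') c (11 / 10) w
      change PZ ((Zn.map A').map A) (A w) = _ at e
      rw [hmap, Multiset.card_map] at e
      simp only
      rw [hf, ← hsplit, PZ_add, e]
      ring
  obtain ⟨Y, g, fac2, hg, hne⟩ := extend fac hB2 hFB hF2
  have hcard := fac2.card_le hB2 hFB hF2
  rw [Multiset.card_add, Multiset.card_map] at hcard
  push_cast at hcard
  have c1 : (0 : ℝ) ≤ Y.card := Nat.cast_nonneg _
  have c2 : (0 : ℝ) ≤ Zn.card := Nat.cast_nonneg _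
  have hid : ∀ s, (11 / 10 : ℂ) ^ (Y.card + Zn.card) * (PZ Zf s * G s) =
      PZ (Y.map A) s * g (A' s) := by
    intro s
    have e := PZ_scale Y c (11 / 10) (A' s)
    change PZ (Y.map A) (A (A' s)) = _ at e
    have e2 := hg (A' s)
    simp only [hAA] at e e2
    rw [e, pow_add, mul_assoc, e2]
    ring
  have hfar : ∀ s, ‖s - c‖ ≤ 121 / 80 → PZ Zf s ≠ 0 := fun s hs h0 =>
    (Multiset.mem_filter.1 (LF.P_eq_zero.1 h0)).2 hs
  have hball : ∀ s ∈ ball c (11 / 8), A' s ∈ ball (2 : ℂ) (5 / 4) := by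
    intro s hs
    rw [mem_ball, dist_eq_norm] at hs ⊢
    rw [hA']
    linarith
  have hle : ∀ w ∈ ball (2 : ℂ) (5 / 4), ‖w - 2‖ ≤ 11 / 8 := by
    intro w hw
    rw [mem_ball, dist_eq_norm] at hw
    linarith
  have hgd : DifferentiableOn ℂ g (ball 2 (5 / 4)) := fac2.1.mono (ball_subset_ball (by norm_num))
  have hA'd : Differentiable ℂ A' := by fun_prop
  refine ⟨Y.map A, fun s => 10 / 11 * (deriv g (A' s) / g (A' s)), by linarith,
    by rw [Multiset.card_map]; linarith, fun ρ hρ => ?_, ?_, fun s hs => ⟨?_, fun hGs => ?_⟩⟩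
  · have h0 : PZ (Y.map A) ρ = 0 := LF.P_eq_zero.2 hρ
    have e := hid ρ
    rw [h0, zero_mul] at e
    obtain ⟨x, hx, rfl⟩ := Multiset.mem_map.1 hρ
    have hx2 := fac2.2.1 x (Multiset.mem_add.2 (Or.inl hx))
    have e2 := (mul_eq_zero.1 e).resolve_left (pow_ne_zero _ (by norm_num))
    exact (mul_eq_zero.1 e2).resolve_left (hfar _ (by rw [hA]; linarith))
  · have h1 : DifferentiableOn ℂ (fun w => deriv g w / g w) (ball 2 (5 / 4)) :=
      (hgd.deriv isOpen_ball).div hgd fun w hw => hne w (hle w hw)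
    exact (h1.comp hA'd.differentiableOn hball).const_mul _
  · have := ld_bound fac2 hB2 hFB hF2 hne (hball s hs)
    rw [norm_mul, n2]
    linarith [norm_nonneg (deriv g (A' s) / g (A' s))]
  · have hs2 : ‖s - c‖ ≤ 121 / 80 := by
      rw [mem_ball, dist_eq_norm] at hs
      linarith
    have p1 := hfar s hs2
    have p2 := hne _ (hle _ (hball s hs))
    have p0 : (11 / 10 : ℂ) ^ (Y.card + Zn.card) ≠ 0 := pow_ne_zero _ (by norm_num)
    have p3 : PZ (Y.map A) s ≠ 0 := by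
      intro h0
      have e := hid s
      rw [h0, zero_mul] at e
      exact mul_ne_zero p0 (mul_ne_zero p1 hGs) e
    have d1 := ((LF.P_hasDerivAt Zf s p1).fun_mul (hG s).hasDerivAt).const_mul
      ((11 / 10 : ℂ) ^ (Y.card + Zn.card))
    have d2 : HasDerivAt A' (10 / 11) s := by
      simpa [A'] using (((hasDerivAt_id s).sub_const c).const_mul (10 / 11 : ℂ)).const_add 2
    have d3 : HasDerivAt g (deriv g (A' s)) (A' s) :=
      (hgd.differentiableAt (isOpen_ball.mem_nhds (hball s hs))).hasDerivAt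
    have d4 := (LF.P_hasDerivAt (Y.map A) s p3).fun_mul (d3.comp s d2)
    have e : (fun y => (11 / 10 : ℂ) ^ (Y.card + Zn.card) * (LF.P Zf y * G y)) =
        fun y => LF.P (Y.map A) y * (g ∘ A') y := funext hid
    rw [e] at d1
    have d5 := d1.unique d4
    have e2 := hid s
    simp only [Function.comp_def] at d5
    change _ * (PZ Zf s * _ * G s + PZ Zf s * _) = PZ _ s * _ * _ + PZ _ s * _ at d5
    generalize (11 / 10 : ℂ) ^ (Y.card + Zn.card) = k at *
    generalize (Zf.map fun ρ => (s - ρ)⁻¹).sum = S1 at *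
    generalize ((Y.map A).map fun ρ => (s - ρ)⁻¹).sum = S2 at *
    have e3 : PZ (Y.map A) s = k * (PZ Zf s * G s) / g (A' s) := by
      rw [e2]
      field_simp
    rw [e3] at d5
    field_simp at d5 ⊢
    linear_combination d5

lemma far_im5 {ρ : ℂ} {T τ : ℝ} (h : ρ ∈ Rect5 T) (h' : ¬ ‖ρ - (2 + τ * I)‖ ≤ 121 / 80) :
    6 / 10 ≤ |ρ.im - τ| := by
  by_contra hc
  apply h'
  obtain ⟨h1, h2, -⟩ := h
  push Not at hc
  rw [abs_lt] at hc
  refine le_of_sq_le_sq ?_ (by norm_num)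
  rw [Complex.sq_norm, normSq_apply]
  simp only [sub_re, add_re, re_ofNat, mul_re, ofReal_re, I_re, mul_zero, ofReal_im, I_im,
    mul_one, sub_self, add_zero, sub_im, add_im, im_ofNat, mul_im, zero_add]
  nlinarith

end Gf5L

open Gf5L in
theorem gf5 : Gf5S := by
  classical
  refine ⟨10 ^ 9, by norm_num, fun f G Z B T hB2 hT hZ h1 hB h2 => ?_⟩
  have hL : 0 < Real.log B := Real.log_pos (by linarith)
  have hLT : 0 < Real.log T := Real.log_pos (by linarith)
  set L := Real.log B with hLd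
  have hhalf : ∀ t : ℝ, ((Z.filter fun ρ => |ρ.im - t| ≤ 1 / 2).card : ℝ) ≤ 20 * L := by
    intro t
    have ht : |max (-T) (min T t)| ≤ T :=
      abs_le.2 ⟨le_max_left _ _, max_le (by linarith) (min_le_left _ _)⟩
    obtain ⟨-, -, hc, -⟩ := loc5 hB2 hZ hB ht (h2 _ ht)
    refine le_trans ?_ hc
    have : (Z.filter fun ρ => |ρ.im - t| ≤ 1 / 2) ≤
        Z.filter fun ρ => ‖ρ - (2 + (max (-T) (min T t) : ℝ) * I)‖ ≤ 121 / 80 := by
      rw [Multiset.le_filter]
      refine ⟨Multiset.filter_le _ _, fun ρ hρ => ?_⟩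
      obtain ⟨a1, a2⟩ := Multiset.mem_filter.1 hρ
      by_contra hc
      have a3 := far_im5 (hZ.2.2.1 ρ a1) hc
      have a4 := abs_le.1 (hZ.2.2.1 ρ a1).2.2
      rw [abs_le] at a2
      rw [le_abs] at a3
      rcases le_total T t with b | b <;> rcases le_total (-T) t with b' | b'
      all_goals
        simp only [min_eq_left, min_eq_right, max_eq_left, max_eq_right, b, b',
          show -T ≤ T by linarith] at a3
        rcases a3 with a3 | a3 <;> linarith
    exact_mod_cast Multiset.card_le_card this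
  have hM : ∀ t : ℝ, ((Z.filter fun ρ => |ρ.im - t| ≤ 1).card : ℝ) ≤ 40 * L := by
    intro t
    have h3 := card_or Z (fun ρ => |ρ.im - t| ≤ 1) (fun ρ => |ρ.im - (t + 1 / 2)| ≤ 1 / 2)
      (fun ρ => |ρ.im - (t - 1 / 2)| ≤ 1 / 2) (by
        intro a _ ha
        rw [abs_le] at ha
        rcases le_total a.im t with h | h
        · exact Or.inr (abs_le.2 ⟨by linarith, by linarith⟩)
        · exact Or.inl (abs_le.2 ⟨by linarith, by linarith⟩))
    have h4 : (Z.filter fun ρ => |ρ.im - t| ≤ 1).card ≤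
        (Z.filter fun ρ => |ρ.im - (t + 1 / 2)| ≤ 1 / 2).card +
          (Z.filter fun ρ => |ρ.im - (t - 1 / 2)| ≤ 1 / 2).card := by convert h3
    have h5 : ((Z.filter fun ρ => |ρ.im - t| ≤ 1).card : ℝ) ≤
        (Z.filter fun ρ => |ρ.im - (t + 1 / 2)| ≤ 1 / 2).card +
          (Z.filter fun ρ => |ρ.im - (t - 1 / 2)| ≤ 1 / 2).card := by exact_mod_cast h4
    linarith [hhalf (t + 1 / 2), hhalf (t - 1 / 2)]
  have hG1 : ∀ s : ℂ, 1 < s.re → G s ≠ 0 := fun s hs h0 =>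
    h1 s hs (by rw [hZ.2.1 s, h0, mul_zero])
  have hsep : ∀ w ρ : ℂ, 63 / 100 ≤ w.re → |w.im| ≤ T - 1 → G ρ = 0 → 1 / 200 ≤ ‖w - ρ‖ := by
    intro w ρ a1 a2 a3
    have b1 : ρ.re ≤ 1 := not_lt.1 fun h => hG1 ρ h a3
    have b2 := abs_re_le_norm (w - ρ)
    have b3 := abs_im_le_norm (w - ρ)
    rw [sub_re, abs_le] at b2
    rw [sub_im] at b3
    by_contra hc
    push Not at hc
    refine hZ.2.2.2 ρ ⟨by linarith, b1, ?_⟩ a3
    rw [abs_le] at a2 b3 ⊢
    exact ⟨by linarith, by linarith⟩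
  have hGne : ∀ w : ℂ, 63 / 100 ≤ w.re → |w.im| ≤ T - 1 → G w ≠ 0 := by
    intro w a1 a2 a3
    have := hsep w w a1 a2 a3
    rw [sub_self, norm_zero] at this
    linarith
  have hcen : ∀ w : ℂ, 63 / 100 ≤ w.re → w.re ≤ 2 → ‖w - (2 + w.im * I)‖ ≤ 137 / 100 := by
    intro w a1 a2
    have : w - (2 + w.im * I) = ((w.re - 2 : ℝ) : ℂ) := by
      apply Complex.ext <;> simp
    rw [this, Complex.norm_real, Real.norm_eq_abs, abs_le]
    exact ⟨by linarith, by linarith⟩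
  have hinv : ∀ (x : ℂ) (a : ℝ), 0 < a → 1 / a ≤ ‖x‖ → ‖x⁻¹‖ ≤ a := by
    intro x a ha hx
    rw [norm_inv]
    rw [one_div] at hx
    exact inv_le_of_inv_le₀ ha hx
  -- the far zeros
  let Fr : ℂ → ℂ → Prop := fun w ρ => ¬ ‖ρ - (2 + w.im * I)‖ ≤ 121 / 80
  have hFr : ∀ w ρ, ρ ∈ Z → Fr w ρ → 6 / 10 ≤ |ρ.im - w.im| := fun w ρ a b =>
    far_im5 (hZ.2.2.1 ρ a) b
  have hloc : ∀ w : ℂ, 63 / 100 ≤ w.re → w.re ≤ 2 → |w.im| ≤ T - 1 →
      ((Z.filter fun ρ => ¬ Fr w ρ).card : ℝ) ≤ 20 * L ∧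
      ‖deriv G w / G w + ((Z.filter (Fr w)).map fun ρ => (w - ρ)⁻¹).sum‖ ≤ 44000 * L := by
    intro w a1 a2 a3
    have ht : |w.im| ≤ T := by linarith
    obtain ⟨Y, h, c1, c2, c3, -, c5⟩ := loc5 hB2 hZ hB ht (h2 _ ht)
    obtain ⟨c6, c7⟩ := c5 w (by rw [mem_ball, dist_eq_norm]; linarith [hcen w a1 a2])
    refine ⟨by simpa only [Fr, not_not] using c1, ?_⟩
    rw [c7 (hGne w a1 a3), sub_add_cancel]
    have c8 := near (Y := Y) (g := fun ρ => (w - ρ)⁻¹) (a := 200) fun ρ hρ =>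
      hinv _ _ (by norm_num) (hsep w ρ a1 a3 (c3 ρ hρ))
    linarith [norm_add_le (h w) (Y.map fun ρ => (w - ρ)⁻¹).sum]
  refine ⟨fun τ => by linarith [hM τ], fun w a1 a2 a3 => ⟨?_, fun w' b1 b2 b3 => ?_⟩⟩
  · have c1 := (hloc w a1 a2 a3).2
    have c2 := far1 (Multiset.filter_le (Fr w) Z) hT (by positivity) hM w fun ρ hρ => by
      obtain ⟨d1, d2⟩ := Multiset.mem_filter.1 hρ
      have d3 := abs_le.1 (hZ.2.2.1 ρ d1).2.2
      rw [abs_le] at a3
      exact ⟨by linarith [hFr w ρ d1 d2], abs_le.2 ⟨by linarith, by linarith⟩⟩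
    have c3 := norm_sub_le (deriv G w / G w + ((Z.filter (Fr w)).map fun ρ => (w - ρ)⁻¹).sum)
      ((Z.filter (Fr w)).map fun ρ => (w - ρ)⁻¹).sum
    rw [add_sub_cancel_right] at c3
    nlinarith [mul_pos hL hLT]
  have hD0 := Real.sqrt_nonneg ‖w - w'‖
  have hDD := Real.mul_self_sqrt (norm_nonneg (w - w'))
  rcases le_or_gt (1 / 250) ‖w - w'‖ with hD | hD
  · have hs : 1 / 16 ≤ √‖w - w'‖ := Real.le_sqrt_of_sq_le (by linarith)
    obtain ⟨c0, c1⟩ := hloc w a1 a2 a3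
    obtain ⟨c0', c1'⟩ := hloc w' b1 b2 b3
    have side : ∀ x y : ℂ, ((Z.filter fun ρ => ¬ Fr y ρ).card : ℝ) ≤ 20 * L →
        ‖((Z.filter (Fr x)).map fun ρ => (x - ρ)⁻¹).sum -
          ((Z.filter fun ρ => Fr x ρ ∧ Fr y ρ).map fun ρ => (x - ρ)⁻¹).sum‖ ≤ 40 * L := by
      intro x y hy
      have e := Multiset.filter_add_not (Fr y) (Z.filter (Fr x))
      have e2 : (Z.filter (Fr x)).filter (Fr y) = Z.filter fun ρ => Fr x ρ ∧ Fr y ρ := by
        rw [Multiset.filter_filter]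
        exact Multiset.filter_congr fun _ _ => and_comm
      rw [e2] at e
      rw [← e, Multiset.map_add, Multiset.sum_add, add_sub_cancel_left]
      have c8 := near (Y := (Z.filter (Fr x)).filter fun ρ => ¬ Fr y ρ)
        (g := fun ρ => (x - ρ)⁻¹) (a := 2) fun ρ hρ => by
          obtain ⟨d1, d2⟩ := Multiset.mem_filter.1 (Multiset.mem_filter.1 hρ).1
          have d3 := abs_im_le_norm (x - ρ)
          rw [sub_im, abs_sub_comm] at d3
          exact hinv _ _ (by norm_num) (by linarith [hFr x ρ d1 d2])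
      have c9 : (((Z.filter (Fr x)).filter fun ρ => ¬ Fr y ρ).card : ℝ) ≤
          (Z.filter fun ρ => ¬ Fr y ρ).card := by
        exact_mod_cast Multiset.card_le_card
          (Multiset.filter_le_filter _ (Multiset.filter_le _ _))
      linarith
    have s1 := side w w' c0'
    have s2 := side w' w c0
    have e3 : (Z.filter fun ρ => Fr w' ρ ∧ Fr w ρ) = Z.filter fun ρ => Fr w ρ ∧ Fr w' ρ :=
      Multiset.filter_congr fun _ _ => and_comm
    rw [e3] at s2
    have s3 := far2 (Multiset.filter_le (fun ρ => Fr w ρ ∧ Fr w' ρ) Z) (by positivity) hM w w'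
      (fun ρ hρ => by
        obtain ⟨d1, d2⟩ := Multiset.mem_filter.1 hρ
        linarith [hFr w ρ d1 d2.1])
      (fun ρ hρ => by
        obtain ⟨d1, d2⟩ := Multiset.mem_filter.1 hρ
        linarith [hFr w' ρ d1 d2.2])
    generalize ((Z.filter (Fr w)).map fun ρ => (w - ρ)⁻¹).sum = S1 at *
    generalize ((Z.filter (Fr w')).map fun ρ => (w' - ρ)⁻¹).sum = S2 at *
    generalize ((Z.filter fun ρ => Fr w ρ ∧ Fr w' ρ).map fun ρ => (w - ρ)⁻¹).sum = S3 at *
    generalize ((Z.filter fun ρ => Fr w ρ ∧ Fr w' ρ).map fun ρ => (w' - ρ)⁻¹).sum = S4 at *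
    generalize deriv G w / G w = R1 at *
    generalize deriv G w' / G w' = R2 at *
    have e : R1 - R2 = ((R1 + S1) - (R2 + S2)) - ((S1 - S3) - (S2 - S4)) - (S3 - S4) := by ring
    have t1 := norm_sub_le (((R1 + S1) - (R2 + S2)) - ((S1 - S3) - (S2 - S4))) (S3 - S4)
    have t2 := norm_sub_le ((R1 + S1) - (R2 + S2)) ((S1 - S3) - (S2 - S4))
    have t3 := norm_sub_le (R1 + S1) (R2 + S2)
    have t4 := norm_sub_le (S1 - S3) (S2 - S4)
    rw [← e] at t1
    nlinarith [mul_le_mul_of_nonneg_left hs hL.le]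
  · have ht : |w.im| ≤ T := by linarith
    have hs : ‖w - w'‖ ≤ √‖w - w'‖ := by
      have : √‖w - w'‖ ≤ 1 := Real.sqrt_le_one.2 (by linarith)
      nlinarith
    obtain ⟨Y, h, -, c2, c3, c4, c5⟩ := loc5 hB2 hZ hB ht (h2 _ ht)
    have hsub : ball w (1 / 250) ⊆ ball (2 + w.im * I) (11 / 8) := by
      intro z hz
      have := hcen w a1 a2
      rw [← dist_eq_norm] at this
      rw [mem_ball] at hz ⊢
      linarith [dist_triangle z w (2 + w.im * I)]
    have hw : w ∈ ball w (1 / 250) := mem_ball_self (by norm_num)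
    have hw' : w' ∈ ball w (1 / 250) := by rwa [mem_ball, dist_comm, dist_eq_norm]
    have s1 := dist_le_div_mul_dist_of_mapsTo_ball (R₂ := 80000 * L) (c4.mono hsub) (by
      intro z hz
      rw [mem_closedBall, dist_eq_norm]
      linarith [norm_sub_le (h z) (h w), (c5 z (hsub hz)).1, (c5 w (hsub hw)).1]) hw'
    rw [dist_comm, dist_comm w', dist_eq_norm, dist_eq_norm] at s1
    have s2 := near (Y := Y) (g := fun ρ => (w - ρ)⁻¹ - (w' - ρ)⁻¹) (a := 40000 * ‖w - w'‖)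
      fun ρ hρ => by
        have d1 := hsep w ρ a1 a3 (c3 ρ hρ)
        have d2 := hsep w' ρ b1 b3 (c3 ρ hρ)
        rw [norm_diff (norm_pos_iff.1 (by linarith)) (norm_pos_iff.1 (by linarith)),
          div_le_iff₀ (by positivity)]
        have d3 := mul_le_mul d1 d2 (by norm_num) (by linarith)
        nlinarith [norm_nonneg (w - w')]
    rw [Multiset.sum_map_sub] at s2
    have s3 := far2 (Multiset.filter_le (Fr w) Z) (by positivity) hM w w'
      (fun ρ hρ => by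
        obtain ⟨d1, d2⟩ := Multiset.mem_filter.1 hρ
        linarith [hFr w ρ d1 d2])
      (fun ρ hρ => by
        obtain ⟨d1, d2⟩ := Multiset.mem_filter.1 hρ
        have d3 := hFr w ρ d1 d2
        have d4 := abs_im_le_norm (w - w')
        rw [sub_im] at d4
        have d5 := abs_sub_le ρ.im w'.im w.im
        rw [abs_sub_comm w'.im] at d5
        linarith)
    rw [(c5 w (hsub hw)).2 (hGne w a1 a3), (c5 w' (hsub hw')).2 (hGne w' b1 b3)]
    change ‖h w + _ - ((Z.filter (Fr w)).map _).sum - (h w' + _ - ((Z.filter (Fr w)).map _).sum)‖ ≤ _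
    generalize ((Z.filter (Fr w)).map fun ρ => (w - ρ)⁻¹).sum = S1 at *
    generalize ((Z.filter (Fr w)).map fun ρ => (w' - ρ)⁻¹).sum = S2 at *
    generalize (Y.map fun ρ => (w - ρ)⁻¹).sum = S3 at *
    generalize (Y.map fun ρ => (w' - ρ)⁻¹).sum = S4 at *
    have e : h w + S3 - S1 - (h w' + S4 - S2) = (h w - h w') + (S3 - S4) - (S1 - S2) := by ring
    have t1 := norm_sub_le ((h w - h w') + (S3 - S4)) (S1 - S2)
    have t2 := norm_add_le (h w - h w') (S3 - S4)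
    rw [e]
    have t3 : (Y.card : ℝ) * (40000 * ‖w - w'‖) ≤ 20 * L * (40000 * ‖w - w'‖) :=
      mul_le_mul_of_nonneg_right c2 (by positivity)
    nlinarith [mul_le_mul_of_nonneg_left hs hL.le, mul_nonneg hL.le hD0]

end Pool.Agent.MP_c5bf7b_nt.H25L
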