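import Pool.Agent.MP_c5bf7b_nt.H25L.SpecB
import Pool.Agent.MP_c5bf7b_nt.H38.Pos

/-! The prime sums as linear and quadratic forms. -/

set_option autoImplicit false

namespace Pool.Agent.MP_c5bf7b_nt.H25L

open Finset Complex Pool.Agent.MP_c5bf7b_nt.H38 PosAux

namespace GzL

variable {ι : Type} {q : ℕ} (J : Finset ι) (ch : ι → Ch q) (t c : ι → ℝ)

theorem zs (n : ℕ) : Zs J ch t c n = ∑ j ∈ J, (c j : ℂ) * uf (ch j) (t j) n :=
  Finset.sum_congr rfl fun _ _ => mul_assoc _ _ _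

theorem lin (n : ℕ) : (Zs J ch t c n).re = ∑ j ∈ J, c j * (uf (ch j) (t j) n).re := by
  simp only [zs, re_sum, re_ofReal_mul]

theorem quad (n : ℕ) : ‖Zs J ch t c n‖ ^ 2 =
    ∑ j ∈ J, ∑ k ∈ J, c j * c k * (uf (ch j * (ch k)⁻¹) (t j - t k) n).re := by
  rw [← normSq_eq_norm_sq, ← ofReal_re (normSq _), ← mul_conj, zs, map_sum, Finset.sum_mul_sum,
    re_sum]
  refine Finset.sum_congr rfl fun j _ => ?_
  rw [re_sum]
  refine Finset.sum_congr rfl fun k _ => ?_
  rw [sub_eq_add_neg, uf_mul, uf_inv, ← re_ofReal_mul, map_mul, conj_ofReal, ofReal_mul,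
    mul_mul_mul_comm]

open Classical in
theorem same [NeZero q] (u : ℝ) : Same J ch c (fun j k => Real.cos ((t j - t k) * u)) =
    ∑ χ, ((∑ j ∈ J, if ch j = χ then c j * Real.cos (t j * u) else 0) ^ 2 +
      (∑ j ∈ J, if ch j = χ then c j * Real.sin (t j * u) else 0) ^ 2) := by
  simp only [sq, Finset.sum_mul_sum, ← Finset.sum_add_distrib]
  rw [Finset.sum_comm]
  refine Finset.sum_congr rfl fun j _ => ?_
  rw [Finset.sum_comm]
  refine Finset.sum_congr rfl fun k _ => ?_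
  rw [Finset.sum_eq_single (ch j) (fun χ _ h => by simp [h.symm]) (by simp)]
  by_cases h : ch j = ch k
  · simp only [h, if_true, sub_mul, Real.cos_sub]
    ring
  · simp [h, Ne.symm h]

end GzL

open GzL in
theorem gz : GzS := by
  intro q _ ι J ch t c f x w
  have h2 : ∑ j ∈ J, ∑ k ∈ J,
      c j * c k * (Kn q f x (ch j * (ch k)⁻¹) (w + (t j - t k : ℝ) * I)).re =
      ∑ n ∈ Icc 1 ⌊(q : ℝ) ^ x⌋₊, cf q f w n * ‖Zs J ch t c n‖ ^ 2 := by
    simp only [kn_re, quad, Finset.mul_sum]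
    rw [Finset.sum_comm (s := Icc _ _)]
    refine Finset.sum_congr rfl fun j _ => ?_
    rw [Finset.sum_comm]
    exact Finset.sum_congr rfl fun k _ => Finset.sum_congr rfl fun n _ => by ring
  refine ⟨?_, h2, fun hq hf => ?_, fun u => ⟨?_, fun hc => ?_⟩⟩
  · change _ = ∑ n ∈ _, cf q f w n * _
    simp only [kn_re, lin, Finset.mul_sum]
    rw [Finset.sum_comm]
    exact Finset.sum_congr rfl fun k _ => Finset.sum_congr rfl fun n _ => by ring
  · rw [h2]
    exact Finset.sum_nonneg fun n hn => mul_nonneg (cf_nonneg w hq hf hn) (sq_nonneg _)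
  · rw [same]
    exact Finset.sum_nonneg fun _ _ => add_nonneg (sq_nonneg _) (sq_nonneg _)
  · rw [sq, Finset.sum_mul_sum]
    refine Finset.sum_le_sum fun j hj => Finset.sum_le_sum fun k hk => ?_
    have := mul_nonneg (hc j hj) (hc k hk)
    split_ifs
    exacts [mul_le_of_le_one_right this (Real.cos_le_one _), this]

end Pool.Agent.MP_c5bf7b_nt.H25L
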