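import Pool.Agent.MP_c5bf7b_nt.H25L.SpecA
import Pool.Agent.MP_c5bf7b_nt.H38.Hf

/-! The lower bound for the weighted sum over all zeros when a class has no small prime,
for a tent of any width. -/

set_option autoImplicit false

namespace Pool.Agent.MP_c5bf7b_nt.H25L

open Finset Complex ArithmeticFunction Pool.Agent.MP_c5bf7b_nt.H38

namespace Hf5L

/-- the tent -/
noncomputable def kk (K E u : ℝ) : ℝ := max 0 (K - |u - E - K|)

variable {K : ℝ}

lemma kk_nonneg (K E u : ℝ) : 0 ≤ kk K E u := le_max_left _ _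

lemma kk_le (hK : K ≤ 1 / 4) (E u : ℝ) : kk K E u ≤ 1 / 4 :=
  max_le (by norm_num) (by linarith [abs_nonneg (u - E - K)])

lemma kk_left {E u : ℝ} (h : u ≤ E) : kk K E u = 0 :=
  max_eq_left (by linarith [neg_le_abs (u - E - K)])

lemma kk_right {E u : ℝ} (h : E + 2 * K ≤ u) : kk K E u = 0 :=
  max_eq_left (by linarith [le_abs_self (u - E - K)])

lemma kk_one {E u : ℝ} (h : E ≤ u) (h' : u ≤ E + K) : kk K E u = u - E := by
  unfold kk
  rw [abs_of_nonpos (by linarith), max_eq_right (by linarith)]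
  ring

lemma kk_two {E u : ℝ} (h : E + K ≤ u) (h' : u ≤ E + 2 * K) : kk K E u = E + 2 * K - u := by
  unfold kk
  rw [abs_of_nonneg (by linarith), max_eq_right (by linarith)]
  ring

lemma kk_cont (K E : ℝ) : Continuous (kk K E) := by
  unfold kk
  fun_prop

lemma lh_eq (h0 : 0 < K) {E : ℝ} (hE : 0 ≤ E) (z : ℂ) :
    Lh (fun u => (kk K E u : ℂ)) z = ∫ u in E..(E + 2 * K), (kk K E u : ℂ) * exp (-z * u) := by
  unfold Lh
  rw [intervalIntegral.integral_of_le (by linarith)]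
  refine MeasureTheory.setIntegral_eq_of_subset_of_forall_sdiff_eq_zero measurableSet_Ioi
    (fun u hu => lt_of_le_of_lt hE hu.1) fun u hu => ?_
  have : kk K E u = 0 := by
    by_cases h : u ≤ E
    · exact kk_left h
    · exact kk_right (le_of_lt (not_le.1 fun h' => hu.2 ⟨not_le.1 h, h'⟩))
  simp [this]

lemma lh_split (h0 : 0 < K) {E : ℝ} (hE : 0 ≤ E) (z : ℂ) :
    Lh (fun u => (kk K E u : ℂ)) z = (∫ u in E..(E + K), ((u : ℂ) - E) * exp (-z * u)) +
      ∫ u in (E + K)..(E + 2 * K), ((E : ℂ) + 2 * K - u) * exp (-z * u) := by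
  have hc : Continuous fun u : ℝ => (kk K E u : ℂ) * exp (-z * u) := by
    have := kk_cont K E
    fun_prop
  rw [lh_eq h0 hE, ← intervalIntegral.integral_add_adjacent_intervals (b := E + K)
    (hc.intervalIntegrable _ _) (hc.intervalIntegrable _ _)]
  congr 1
  · refine intervalIntegral.integral_congr fun u hu => ?_
    rw [Set.uIcc_of_le (by linarith)] at hu
    simp only [kk_one hu.1 hu.2]
    push_cast
    rfl
  · refine intervalIntegral.integral_congr fun u hu => ?_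
    rw [Set.uIcc_of_le (by linarith)] at hu
    simp only [kk_two hu.1 hu.2]
    push_cast
    rfl

lemma lh_ne (h0 : 0 < K) {E : ℝ} (hE : 0 ≤ E) {z : ℂ} (hz : z ≠ 0) :
    Lh (fun u => (kk K E u : ℂ)) z = HE K E z := by
  have e1 : ∀ u : ℝ, ((u : ℂ) - E) = -E + 1 * u := fun u => by ring
  have e2 : ∀ u : ℝ, ((E : ℂ) + 2 * K - u) = (E + 2 * K) + (-1) * u := fun u => by ring
  rw [lh_split h0 hE]
  simp only [e1, e2]
  rw [intervalIntegral.integral_eq_sub_of_hasDerivAt (fun u _ => Hf.hd z _ _ hz u)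
      (Continuous.intervalIntegrable (by fun_prop) _ _),
    intervalIntegral.integral_eq_sub_of_hasDerivAt (fun u _ => Hf.hd z _ _ hz u)
      (Continuous.intervalIntegrable (by fun_prop) _ _)]
  have a1 : exp (-z * ((E + K : ℝ) : ℂ)) = exp (-E * z) * exp (-K * z) := by
    rw [← exp_add]; congr 1; push_cast; ring
  have a2 : exp (-z * ((E + 2 * K : ℝ) : ℂ)) = exp (-E * z) * exp (-K * z) ^ 2 := by
    rw [sq, ← exp_add, ← exp_add]; congr 1; push_cast; ring
  have a3 : exp (-z * (E : ℂ)) = exp (-E * z) := by congr 1; ring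
  rw [a1, a2, a3, HE, HK]
  push_cast
  field_simp
  ring

lemma lh_zero (hK : 0 < K) {E : ℝ} (hE : 0 ≤ E) :
    Lh (fun u => (kk K E u : ℂ)) 0 = (K : ℂ) ^ 2 := by
  have h0 : ∀ u : ℝ, HasDerivAt (fun u : ℝ => (u : ℂ)) 1 u := fun u => Complex.ofRealCLM.hasDerivAt
  have d1 : ∀ u : ℝ, HasDerivAt (fun u : ℝ => ((u : ℂ) - E) ^ 2 / 2) ((u : ℂ) - E) u := fun u => by
    refine ((((h0 u).sub_const (E : ℂ)).pow 2).div_const 2).congr_deriv ?_
    simp
  have d2 : ∀ u : ℝ, HasDerivAt (fun u : ℝ => -((E : ℂ) + 2 * K - u) ^ 2 / 2)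
      ((E : ℂ) + 2 * K - u) u := fun u => by
    refine ((((h0 u).const_sub ((E : ℂ) + 2 * K)).pow 2).neg.div_const 2).congr_deriv ?_
    simp
  rw [lh_split hK hE]
  simp only [neg_zero, zero_mul, exp_zero, mul_one]
  rw [intervalIntegral.integral_eq_sub_of_hasDerivAt (fun u _ => d1 u)
      (Continuous.intervalIntegrable (by fun_prop) _ _),
    intervalIntegral.integral_eq_sub_of_hasDerivAt (fun u _ => d2 u)
      (Continuous.intervalIntegrable (by fun_prop) _ _)]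
  push_cast
  ring

lemma lh_triv (h0 : 0 < K) (hK : K ≤ 1 / 4) {E : ℝ} (hE : 0 ≤ E) (hE' : E ≤ 5) {z : ℂ}
    (hz : -1 / 2 ≤ z.re) : ‖Lh (fun u => (kk K E u : ℂ)) z‖ ≤ Real.exp 3 := by
  rw [lh_eq h0 hE]
  refine (intervalIntegral.norm_integral_le_of_norm_le_const (C := Real.exp 3) ?_).trans ?_
  · intro u hu
    rw [Set.uIoc_of_le (by linarith)] at hu
    rw [norm_mul, norm_exp, norm_real, Real.norm_of_nonneg (kk_nonneg _ _ _)]
    have h1 : Real.exp (-z * u).re ≤ Real.exp 3 := by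
      apply Real.exp_le_exp.2
      simp only [neg_mul, neg_re, mul_re, ofReal_re, ofReal_im, mul_zero, sub_zero]
      nlinarith [hu.1, hu.2]
    nlinarith [kk_le hK E u, kk_nonneg K E u, Real.exp_pos (-z * u).re]
  · rw [add_sub_cancel_left, abs_of_pos (by linarith)]
    nlinarith [Real.exp_pos 3]

lemma hh_le (h0 : 0 < K) (hK : K ≤ 1 / 4) (E : ℝ) {z : ℂ} (hz : -1 / 2 ≤ z.re) :
    ‖HE K E z‖ ≤ Real.exp (-E * z.re) * (16 / ‖z‖ ^ 2) := by
  rw [HE, HK, norm_mul, norm_exp, norm_pow, norm_div, div_pow]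
  have e : (-(E : ℂ) * z).re = -E * z.re := by simp
  rw [e]
  gcongr
  have h1 : ‖exp (-K * z)‖ ≤ 3 := by
    rw [norm_exp]
    have : (-(K : ℂ) * z).re ≤ 1 := by
      have : (-(K : ℂ) * z).re = -K * z.re := by simp
      nlinarith
    exact (Real.exp_le_exp.2 this).trans Real.exp_one_lt_three.le
  have h2 : ‖1 - exp (-K * z)‖ ≤ 4 := by
    refine (norm_sub_le _ _).trans ?_
    rw [norm_one]; linarith
  nlinarith [norm_nonneg (1 - exp (-K * z))]

lemma lh_dec (h0 : 0 < K) (hK : K ≤ 1 / 4) {E : ℝ} (hE : 0 ≤ E) (hE' : E ≤ 5) {z : ℂ}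
    (hz : -1 / 2 ≤ z.re) :
    ‖Lh (fun u => (kk K E u : ℂ)) z‖ ≤ 17 * Real.exp 6 / (1 + z.im ^ 2) := by
  have h36 : Real.exp 3 ≤ Real.exp 6 := Real.exp_le_exp.2 (by norm_num)
  rw [le_div_iff₀ (by positivity), mul_add, mul_one]
  have h1 := lh_triv h0 hK hE hE' hz
  have h2 : ‖Lh (fun u => (kk K E u : ℂ)) z‖ * z.im ^ 2 ≤ 16 * Real.exp 3 := by
    by_cases h : z = 0
    · subst h; simp; positivity
    · have hp : 0 < ‖z‖ := norm_pos_iff.2 h
      have h3 : z.im ^ 2 ≤ ‖z‖ ^ 2 := by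
        rw [← sq_abs]; gcongr; exact abs_im_le_norm z
      have h4 : Real.exp (-E * z.re) ≤ Real.exp 3 := Real.exp_le_exp.2 (by nlinarith)
      rw [lh_ne h0 hE h]
      calc _ ≤ Real.exp 3 * (16 / ‖z‖ ^ 2) * ‖z‖ ^ 2 := by
            gcongr
            exact (hh_le h0 hK E hz).trans (by gcongr)
        _ = _ := by field_simp
  linarith

lemma int_le (h0 : 0 < K) (hK : K ≤ 1 / 4) {E l : ℝ} (hE : 0 ≤ E) (hl : 1 ≤ l) :
    ∫ y : ℝ, ‖Lh (fun u => (kk K E u : ℂ)) (l + y * I)‖ * √|y| ≤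
      Real.exp (-E * l) * 16 * Hf.JJ := by
  rw [Hf.JJ, ← MeasureTheory.integral_const_mul]
  refine MeasureTheory.integral_mono_of_nonneg (Filter.Eventually.of_forall fun y => by positivity)
    ((integrable_rpow_neg_one_add_norm_sq (by norm_num)).const_mul _)
    (Filter.Eventually.of_forall fun y => ?_)
  have hre : ((l : ℂ) + y * I).re = l := by simp
  have hz : (l : ℂ) + y * I ≠ 0 := fun h => by rw [h] at hre; simp at hre; linarith
  have hp : (0 : ℝ) < 1 + ‖y‖ ^ 2 := by positivity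
  have hn : 1 + ‖y‖ ^ 2 ≤ ‖(l : ℂ) + y * I‖ ^ 2 := by
    rw [Complex.sq_norm, normSq_add_mul_I, Real.norm_eq_abs, sq_abs]; nlinarith
  have hs : √|y| ≤ (1 + ‖y‖ ^ 2) ^ (1 / 4 : ℝ) := by
    rw [Real.sqrt_eq_rpow]
    calc |y| ^ (1 / 2 : ℝ) = (|y| ^ 2) ^ (1 / 4 : ℝ) := by
          rw [← Real.rpow_natCast, ← Real.rpow_mul (abs_nonneg y)]; norm_num
      _ ≤ _ := by gcongr; rw [Real.norm_eq_abs]; linarith
  have h1 := hh_le h0 hK E (z := (l : ℂ) + y * I) (by rw [hre]; linarith)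
  rw [hre] at h1
  beta_reduce
  rw [lh_ne h0 hE hz]
  calc _ ≤ Real.exp (-E * l) * (16 / (1 + ‖y‖ ^ 2)) * (1 + ‖y‖ ^ 2) ^ (1 / 4 : ℝ) := by
        gcongr
        exact h1.trans (by gcongr)
    _ = Real.exp (-E * l) * 16 * ((1 + ‖y‖ ^ 2) ^ (1 / 4 : ℝ) * (1 + ‖y‖ ^ 2) ^ (-1 : ℝ)) := by
        rw [Real.rpow_neg_one]; ring
    _ = _ := by rw [← Real.rpow_add hp]; norm_num

lemma nz_ne {q : ℕ} [NeZero q] (hq : 2 ≤ q) {χ : Ch q} {Y : Multiset ℂ} (h : NZ5 χ Y) {ζ : ℂ}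
    (hζ : ζ ∈ Y) : ζ ≠ 0 := by
  obtain ⟨Z, G, hZ, rfl⟩ := h
  obtain ⟨ρ, hρ, rfl⟩ := Multiset.mem_map.1 hζ
  intro h0
  have hl : Real.log q ≠ 0 := (Real.log_pos (by exact_mod_cast hq)).ne'
  have h1 : ρ = 1 := by
    rcases mul_eq_zero.1 h0 with h | h
    · exact (sub_eq_zero.1 h).symm
    · exact absurd (by exact_mod_cast h) hl
  subst h1
  have h2 : Phi χ 1 = 0 := by
    rw [hZ.2.1, PZ, Multiset.prod_eq_zero (Multiset.mem_map.2 ⟨1, hρ, sub_self _⟩), zero_mul]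
  unfold Phi at h2
  split_ifs at h2 with h
  · exact DirichletCharacter.LFunctionTrivChar₁_apply_one_ne_zero q h2
  · exact DirichletCharacter.LFunction_apply_one_ne_zero h h2

/-- the weight of `n` -/
noncomputable def ww (q : ℕ) (K E : ℝ) (n : ℕ) : ℝ :=
  vonMangoldt n / (n * Real.log q) * kk K E (Real.log n / Real.log q)

lemma ww_nonneg (q : ℕ) (K E : ℝ) (n : ℕ) : 0 ≤ ww q K E n :=
  mul_nonneg (div_nonneg vonMangoldt_nonneg (mul_nonneg n.cast_nonneg (Real.log_natCast_nonneg q)))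
    (kk_nonneg _ _ _)

lemma ww_big {q : ℕ} (hq : 2 ≤ q) {E : ℝ} {n : ℕ} (hn : (q : ℝ) ^ (E + 2 * K) < n) :
    ww q K E n = 0 := by
  have hq1 : (1 : ℝ) < q := by exact_mod_cast hq
  have hl : 0 < Real.log q := Real.log_pos hq1
  have : E + 2 * K ≤ Real.log n / Real.log q := by
    rw [le_div_iff₀ hl, ← Real.log_rpow (by linarith)]
    exact Real.log_le_log (by positivity) hn.le
  rw [ww, kk_right this, mul_zero]

lemma ww_le (hK : K ≤ 1 / 4) {q : ℕ} (hq : 2 ≤ q) (E : ℝ) (n : ℕ) :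
    ww q K E n ≤ (q : ℝ) ^ (-E) / (4 * Real.log q) * vonMangoldt n := by
  have hq1 : (1 : ℝ) < q := by exact_mod_cast hq
  have hl : 0 < Real.log q := Real.log_pos hq1
  have hv : (0 : ℝ) ≤ vonMangoldt n := vonMangoldt_nonneg
  rcases Nat.eq_zero_or_pos n with rfl | hn
  · simp [ww]
  have hn' : (0 : ℝ) < n := by exact_mod_cast hn
  by_cases h : (n : ℝ) ≤ (q : ℝ) ^ E
  · have : Real.log n / Real.log q ≤ E := by
      rw [div_le_iff₀ hl, ← Real.log_rpow (by linarith)]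
      exact Real.log_le_log hn' h
    rw [ww, kk_left this, mul_zero]
    positivity
  · have h1 : (n : ℝ)⁻¹ ≤ (q : ℝ) ^ (-E) := by
      rw [Real.rpow_neg (by linarith)]
      exact inv_anti₀ (by positivity) (not_le.1 h).le
    calc ww q K E n ≤ vonMangoldt n / (n * Real.log q) * (1 / 4) := by
          unfold ww; gcongr; exact kk_le hK _ _
      _ = (n : ℝ)⁻¹ / (4 * Real.log q) * vonMangoldt n := by field_simp
      _ ≤ _ := by gcongr

lemma prime_part (h0 : 0 < K) (hK : K ≤ 1 / 4) {q : ℕ} [NeZero q] (hq : 2 ≤ q) {E : ℝ}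
    (hE : 11 / 4 ≤ E) (hE' : E ≤ 5) {a : ℕ} (ha : a.Coprime q)
    (hp : ∀ p : ℕ, p.Prime → p ≡ a [MOD q] → (q : ℝ) ^ (E + 2 * K) < p) :
    ‖∑ χ : Ch q, χ (a : ZMod q)⁻¹ * ∑' n : ℕ, (ww q K E n : ℂ) * χ n‖ ≤
      3 * (q : ℝ) ^ (-1 / 8 : ℝ) := by
  classical
  have hq1 : (1 : ℝ) < q := by exact_mod_cast hq
  have hq0 : (0 : ℝ) < q := by linarith
  have hl : 0 < Real.log q := Real.log_pos hq1
  set X : ℝ := (q : ℝ) ^ (E + 2 * K) with hX
  have hX1 : 1 ≤ X := Real.one_le_rpow hq1.le (by linarith)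
  have hs : ∀ χ : Ch q, ∑' n : ℕ, (ww q K E n : ℂ) * χ n =
      ∑ n ∈ Ioc 0 ⌊X⌋₊, (ww q K E n : ℂ) * χ n := fun χ => by
    refine tsum_eq_sum fun n hn => ?_
    rcases Nat.eq_zero_or_pos n with rfl | h0
    · simp [ww]
    · have : ⌊X⌋₊ < n := not_le.1 fun h => hn (mem_Ioc.2 ⟨h0, h⟩)
      rw [ww_big hq ((Nat.floor_lt (by linarith)).1 this)]
      simp
  have hu : IsUnit (a : ZMod q) := (ZMod.isUnit_iff_coprime a q).2 ha
  have e : ∑ χ : Ch q, χ (a : ZMod q)⁻¹ * ∑' n : ℕ, (ww q K E n : ℂ) * χ n =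
      ∑ n ∈ Ioc 0 ⌊X⌋₊, (ww q K E n : ℂ) *
        if (a : ZMod q) = (n : ZMod q) then (q.totient : ℂ) else 0 := by
    simp only [hs, mul_sum]
    rw [sum_comm]
    refine sum_congr rfl fun n _ => ?_
    rw [← DirichletCharacter.sum_char_inv_mul_char_eq ℂ hu, mul_sum]
    exact sum_congr rfl fun χ _ => by ring
  have ht : (q.totient : ℝ) ≤ q := by exact_mod_cast Nat.totient_le q
  rw [e]
  calc _ ≤ ∑ n ∈ Ioc 0 ⌊X⌋₊, if ¬n.Prime then
        q * ((q : ℝ) ^ (-E) / (4 * Real.log q)) * vonMangoldt n else 0 := by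
        refine norm_sum_le_of_le _ fun n _ => ?_
        have hv : (0 : ℝ) ≤ vonMangoldt n := vonMangoldt_nonneg
        by_cases h : (a : ZMod q) = (n : ZMod q)
        · by_cases h' : n.Prime
          · rw [ww_big hq (hp n h' ((ZMod.natCast_eq_natCast_iff _ _ _).1 h.symm))]
            simp [h']
          · rw [if_pos h, if_pos h', norm_mul, norm_real, Real.norm_of_nonneg (ww_nonneg _ _ _ _),
              norm_natCast, mul_comm, mul_assoc]
            exact mul_le_mul ht (ww_le hK hq E n) (ww_nonneg _ _ _ _) hq0.le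
        · rw [if_neg h, mul_zero, norm_zero]
          split_ifs <;> positivity
    _ = q * ((q : ℝ) ^ (-E) / (4 * Real.log q)) * (Chebyshev.psi X - Chebyshev.theta X) := by
        rw [Chebyshev.psi_sub_theta_eq_sum_not_prime, mul_sum, sum_filter]
    _ ≤ q * ((q : ℝ) ^ (-E) / (4 * Real.log q)) * (2 * √X * Real.log X) := by
        gcongr; exact Chebyshev.psi_sub_theta_le hX1
    _ = (E + 2 * K) / 2 *
          ((q : ℝ) ^ (1 : ℝ) * (q : ℝ) ^ (-E) * (q : ℝ) ^ ((E + 2 * K) * (1 / 2))) := by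
        rw [hX, Real.log_rpow hq0, Real.sqrt_eq_rpow, ← Real.rpow_mul hq0.le, Real.rpow_one]
        field_simp
        ring
    _ ≤ _ := by
        rw [← Real.rpow_add hq0, ← Real.rpow_add hq0]
        gcongr
        · linarith
        · exact hq1.le
        · linarith

end Hf5L

open Hf5L in
theorem hf5Of : Hf5Of := by
  classical
  rintro ⟨C, hC, q₁, hef⟩ K E hK0 hK hE hE'
  have hJ : 0 ≤ Hf.JJ := MeasureTheory.integral_nonneg fun y => by positivity
  set D : ℝ := 17 * Real.exp 6 with hD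
  have hD0 : 0 < D := by positivity
  obtain ⟨q₂, h₂⟩ := Hf.ev (3 + C * (16 * Hf.JJ) + C * D * 1000) (c := 3 / 400) (by norm_num)
  obtain ⟨q₃, h₃⟩ := Hf.ev (Real.exp 4) (c := 1) (by norm_num)
  refine ⟨max (max q₁ q₂) (max q₃ 2), fun q _ hq N hN a ha hp => ?_⟩
  simp only [max_le_iff] at hq
  obtain ⟨⟨hq₁, hq₂⟩, hq₃, hq⟩ := hq
  have hq1 : (1 : ℝ) < q := by exact_mod_cast hq
  have hq0 : (0 : ℝ) < q := by linarith
  have hl : 4 ≤ Real.log q := by
    rw [Real.le_log_iff_exp_le hq0]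
    simpa using h₃ q hq₃
  have hE0 : 0 ≤ E := by linarith
  set k : ℝ → ℂ := fun u => (kk K E u : ℂ) with hk
  set er : ℝ := (C * (16 * Hf.JJ) + C * D * 1000) * (q : ℝ) ^ (-407 / 400 : ℝ) with her
  have h1 : ∀ χ : Ch q, ‖(∑' n : ℕ, (ww q K E n : ℂ) * χ n) + ((N χ).map (HE K E)).sum -
      (if χ = 1 then (K : ℂ) ^ 2 else 0)‖ ≤ er := fun χ => by
    have h := hef q hq₁ χ (N χ) k D (37 / 100 * Real.log q) 0 (hN χ)
      (continuous_ofReal.comp (kk_cont K E))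
      (fun u hu => by simp only [hk, kk_left (hu.trans hE0), ofReal_zero])
      (fun u _ => by
        simp only [hk, norm_real, Real.norm_of_nonneg (kk_nonneg _ _ _)]
        by_cases hu : E + 2 * K ≤ u
        · rw [kk_right hu]; positivity
        · have : 1 ≤ Real.exp 6 * Real.exp (-u) := by
            rw [← Real.exp_add]; exact Real.one_le_exp (by linarith)
          rw [hD, mul_assoc]
          linarith [kk_le hK E u])
      (by linarith) le_rfl (fun z hz _ => lh_dec hK0 hK hE0 hE' hz) (by simp; positivity)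
    have e1 : ((N χ).map fun ζ => Lh k (ζ - (0 : ℝ) * I)) = (N χ).map (HE K E) :=
      Multiset.map_congr rfl fun ζ hζ => by
        rw [ofReal_zero, zero_mul, sub_zero]; exact lh_ne hK0 hE0 (nz_ne hq (hN χ) hζ)
    have e2 : Lh k (-((0 : ℝ) * I)) = (K : ℂ) ^ 2 := by
      rw [ofReal_zero, zero_mul, neg_zero]; exact lh_zero hK0 hE0
    have e3 : ∀ n : ℕ, ((vonMangoldt n / (n * Real.log q) : ℝ) : ℂ) * χ n *
        exp ((0 : ℝ) * I * (Real.log n / Real.log q : ℝ)) * k (Real.log n / Real.log q) =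
        (ww q K E n : ℂ) * χ n := fun n => by
      rw [ofReal_zero, zero_mul, zero_mul, exp_zero, ww, ofReal_mul]; ring
    rw [e1, e2] at h
    simp only [e3] at h
    refine h.trans ?_
    have i1 := int_le hK0 hK (E := E) (l := 37 / 100 * Real.log q) hE0 (by linarith)
    have i2 : Real.exp (-E * (37 / 100 * Real.log q)) ≤ (q : ℝ) ^ (-407 / 400 : ℝ) := by
      rw [Real.rpow_def_of_pos hq0]
      exact Real.exp_le_exp.2 (by nlinarith)
    have i3 : 1 ≤ √(Real.log q) := Real.one_le_sqrt.2 (by linarith)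
    have i4 : Real.log q ^ 3 / (q : ℝ) ^ 2 ≤ 1000 * (q : ℝ) ^ (-407 / 400 : ℝ) := by
      have := Real.log_le_rpow_div hq0.le (show (0 : ℝ) < 1 / 10 by norm_num)
      calc _ ≤ ((q : ℝ) ^ (1 / 10 : ℝ) / (1 / 10)) ^ 3 / (q : ℝ) ^ 2 := by gcongr
        _ = 1000 * (((q : ℝ) ^ (1 / 10 : ℝ)) ^ 3 / (q : ℝ) ^ 2) := by ring
        _ ≤ _ := by
          rw [← Real.rpow_natCast, ← Real.rpow_mul hq0.le, ← Real.rpow_natCast,
            ← Real.rpow_sub hq0]
          gcongr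
          · exact hq1.le
          · norm_num
    have i5 : C * (∫ y : ℝ, ‖Lh k (((37 / 100 * Real.log q : ℝ) : ℂ) + y * I)‖ * √|y|) /
        √(Real.log q) ≤ C * (16 * Hf.JJ) * (q : ℝ) ^ (-407 / 400 : ℝ) := by
      refine (div_le_self (mul_nonneg (by linarith)
        (MeasureTheory.integral_nonneg fun y => by positivity)) i3).trans ?_
      rw [mul_assoc]
      refine mul_le_mul_of_nonneg_left (i1.trans ?_) (by linarith)
      rw [mul_assoc, mul_comm]
      gcongr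
    have i6 : C * D * Real.log q ^ 3 / (q : ℝ) ^ 2 ≤
        C * D * 1000 * (q : ℝ) ^ (-407 / 400 : ℝ) := by
      rw [mul_div_assoc, mul_assoc (C * D)]
      exact mul_le_mul_of_nonneg_left i4 (by positivity)
    rw [her, add_mul]
    exact add_le_add i5 i6
  have hu : IsUnit (a : ZMod q) := (ZMod.isUnit_iff_coprime a q).2 ha
  have hu' : IsUnit (a : ZMod q)⁻¹ := IsUnit.of_mul_eq_one _ (ZMod.inv_mul_of_unit _ hu)
  have hn : ∀ χ : Ch q, ‖χ (a : ZMod q)⁻¹‖ ≤ 1 := fun χ => χ.norm_le_one _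
  have h2 : ‖∑ χ : Ch q, χ (a : ZMod q)⁻¹ * ((∑' n : ℕ, (ww q K E n : ℂ) * χ n) +
      ((N χ).map (HE K E)).sum - (if χ = 1 then (K : ℂ) ^ 2 else 0))‖ ≤ q * er := by
    refine (norm_sum_le_of_le _ (n := fun _ => er) fun χ _ => ?_).trans ?_
    · rw [norm_mul]
      exact (mul_le_of_le_one_left (norm_nonneg _) (hn χ)).trans (h1 χ)
    · rw [sum_const, card_univ, nsmul_eq_mul, ← Nat.card_eq_fintype_card,
        DirichletCharacter.card_eq_totient_of_hasEnoughRootsOfUnity]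
      gcongr
      exact Nat.totient_le q
  have h3 : ‖∑ χ : Ch q, χ (a : ZMod q)⁻¹ * ((N χ).map (HE K E)).sum‖ ≤
      WK N K E fun _ => True := by
    refine norm_sum_le_of_le _ fun χ _ => ?_
    have e : ∀ (i : DecidablePred fun _ : ℂ => True), @Multiset.filter _ _ i (N χ) = N χ :=
      fun i => (@Multiset.filter_eq_self _ _ i _).2 fun _ _ => trivial
    rw [norm_mul, e]
    refine (mul_le_of_le_one_left (norm_nonneg _) (hn χ)).trans ?_
    simpa only [Multiset.map_map, Function.comp_def] using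
      norm_multiset_sum_le ((N χ).map (HE K E))
  have h4 := prime_part hK0 hK hq hE hE' ha hp
  have h5 : ∑ χ : Ch q, χ (a : ZMod q)⁻¹ * (if χ = 1 then (K : ℂ) ^ 2 else 0) = (K : ℂ) ^ 2 := by
    simp only [mul_ite, mul_zero, sum_ite_eq', mem_univ, if_true]
    rw [MulChar.one_apply hu', one_mul]
  simp only [mul_add, mul_sub, sum_add_distrib, sum_sub_distrib] at h2
  rw [h5] at h2
  have h6 : ∀ A B : ℂ, K ^ 2 ≤ ‖A‖ + ‖B‖ + ‖A + B - (K : ℂ) ^ 2‖ := fun A B => by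
    have := norm_sub_le (A + B) (A + B - (K : ℂ) ^ 2)
    rw [sub_sub_cancel] at this
    have e : ‖(K : ℂ) ^ 2‖ = K ^ 2 := by rw [norm_pow, norm_real, Real.norm_eq_abs, sq_abs]
    linarith [norm_add_le A B]
  have h7 : (q : ℝ) * (q : ℝ) ^ (-407 / 400 : ℝ) = (q : ℝ) ^ (-7 / 400 : ℝ) := by
    rw [mul_comm, ← Real.rpow_add_one hq0.ne']; norm_num
  have h8 : (q : ℝ) ^ (-1 / 8 : ℝ) ≤ (q : ℝ) ^ (-7 / 400 : ℝ) :=
    Real.rpow_le_rpow_of_exponent_le hq1.le (by norm_num)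
  have h9 : (q : ℝ) ^ (3 / 400 : ℝ) * (q : ℝ) ^ (-7 / 400 : ℝ) = (q : ℝ) ^ (-1 / 100 : ℝ) := by
    rw [← Real.rpow_add hq0]; norm_num
  have h10 := mul_le_mul_of_nonneg_right (h₂ q hq₂) (Real.rpow_nonneg hq0.le (-7 / 400 : ℝ))
  have h11 : q * er = (C * (16 * Hf.JJ) + C * D * 1000) * (q : ℝ) ^ (-7 / 400 : ℝ) := by
    rw [her, ← h7]; ring
  have := h6 (∑ χ : Ch q, χ (a : ZMod q)⁻¹ * ∑' n : ℕ, (ww q K E n : ℂ) * χ n)
    (∑ χ : Ch q, χ (a : ZMod q)⁻¹ * ((N χ).map (HE K E)).sum)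
  nlinarith

end Pool.Agent.MP_c5bf7b_nt.H25L
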