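import Pool.Agent.MP_c5bf7b_nt.H25L.SpecA
import Pool.Agent.MP_c5bf7b_nt.H38.AdmR

/-! The kernels `fK` and `HK`. -/

set_option autoImplicit false

namespace Pool.Agent.MP_c5bf7b_nt.H25L

open Complex MeasureTheory intervalIntegral Set Pool.Agent.MP_c5bf7b_nt.H38
  Pool.Agent.MP_c5bf7b_nt.H38.AdmAux

namespace HkL

theorem corr (K κ t : ℝ) : 1 / 2 * fK K κ t =
    ∫ u in (0 : ℝ)..(K - t), Real.exp (-κ * u) * Real.exp (-κ * (u + t)) := by
  unfold fK
  split_ifs with h
  · subst h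
    simp
  · have e : ∀ u, Real.exp (-κ * u) * Real.exp (-κ * (u + t)) =
        Real.exp (-κ * t) * Real.exp (-2 * κ * u) := fun u => by
      rw [← Real.exp_add, ← Real.exp_add]; congr 1; ring
    simp only [e]
    rw [intervalIntegral.integral_const_mul, int_exp (by simpa using h)]
    field_simp
    ring

theorem bound {K : ℝ} (hK : 0 ≤ K) (κ : ℝ) {z : ℂ} (hz : 0 ≤ z.re) :
    ‖∫ u in (0 : ℝ)..K, exp (-(z + κ) * u)‖ ^ 2 ≤ (Lp (fK K κ) K z).re := by
  have h := autocorr (g := fun u => Real.exp (-κ * u)) (f := fK K κ) (c := 1 / 2) (x := K)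
    (by fun_prop) hK (corr K κ) hz
  have e : ∀ u : ℝ, ((Real.exp (-κ * u) : ℝ) : ℂ) * exp (-z * u) = exp (-(z + κ) * u) := fun u => by
    rw [ofReal_exp, ← Complex.exp_add]; congr 1; push_cast; ring
  simp only [e] at h
  linarith

theorem adm_fK {K κ : ℝ} (hK : 0 < K) (hK1 : K ≤ 1) (hκ : 0 ≤ κ) : Adm (fK K κ) K where
  pos := hK
  le := by linarith
  diff := by
    unfold fK
    split_ifs <;> fun_prop
  nonneg := fun t _ ht => by
    unfold fK
    split_ifs with h
    · linarith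
    · have h1 : Real.exp (-2 * κ * (K - t)) ≤ 1 :=
        Real.exp_le_one_iff.2 (by nlinarith)
      exact div_nonneg (mul_nonneg (Real.exp_pos _).le (by linarith)) hκ
  zero := by simp [fK]
  re := fun z hz => (sq_nonneg _).trans (bound hK.le κ hz)

theorem val {K : ℝ} (hK : 0 < K) (κ : ℝ) :
    fK K κ 0 / 8 + Lr (fK K κ) K (-κ) = K ^ 2 * BK K κ := by
  unfold Lr fK BK
  split_ifs with h
  · subst h
    have hd : ∀ u : ℝ, HasDerivAt (fun u : ℝ => 2 * K * u - u ^ 2)
        (2 * (K - u) * Real.exp (- -0 * u)) u := fun u => by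
      refine (((hasDerivAt_id u).const_mul (2 * K)).sub (hasDerivAt_pow 2 u)).congr_deriv ?_
      simp
      ring
    rw [integral_eq_sub_of_hasDerivAt (fun u _ => hd u)
      (Continuous.intervalIntegrable (by fun_prop) _ _)]
    field_simp
    ring
  · have e : ∀ t, Real.exp (-κ * t) * (1 - Real.exp (-2 * κ * (K - t))) / κ *
        Real.exp (- -κ * t) =
          1 / κ - Real.exp (-2 * κ * K) / κ * Real.exp (2 * κ * t) := fun t => by
      have e1 : Real.exp (-κ * t) * Real.exp (- -κ * t) = 1 := by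
        rw [← Real.exp_add]; simp
      have e2 : Real.exp (-2 * κ * (K - t)) = Real.exp (-2 * κ * K) * Real.exp (2 * κ * t) := by
        rw [← Real.exp_add]; congr 1; ring
      rw [e2]
      linear_combination (1 - Real.exp (-2 * κ * K) * Real.exp (2 * κ * t)) / κ * e1
    simp only [e]
    rw [intervalIntegral.integral_sub (Continuous.intervalIntegrable (by fun_prop) _ _)
      (Continuous.intervalIntegrable (by fun_prop) _ _), intervalIntegral.integral_const,
      intervalIntegral.integral_const_mul, int_exp (by simpa using h)]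
    have e3 : Real.exp (2 * κ * K) = (Real.exp (-2 * κ * K))⁻¹ := by
      rw [← Real.exp_neg]; congr 1; ring
    have e4 := Real.exp_ne_zero (-2 * κ * K)
    rw [e3]
    simp only [mul_zero, Real.exp_zero, smul_eq_mul, sub_zero]
    generalize Real.exp (-2 * κ * K) = y at e4 ⊢
    field_simp
    ring

theorem HK_eq (K : ℝ) {ζ : ℂ} (h : ζ ≠ 0) :
    ‖HK K ζ‖ = ‖∫ u in (0 : ℝ)..K, exp (-ζ * u)‖ ^ 2 := by
  rw [HK, norm_pow, integral_exp_mul_complex (neg_ne_zero.2 h)]
  congr 2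
  have : -ζ * (K : ℂ) = -K * ζ := by ring
  rw [this]
  field_simp
  simp

theorem HK_le {K : ℝ} {ζ : ℂ} (hK : 0 < K) (h : 0 < ζ.re) : ‖HK K ζ‖ ≤ 4 / ‖ζ‖ ^ 2 ∧
    ‖HK K ζ‖ ≤ ((1 - Real.exp (-K * ζ.re)) / ζ.re) ^ 2 ∧ ‖HK K ζ‖ ≤ K ^ 2 := by
  have h0 : ζ ≠ 0 := fun h' => by simp [h'] at h
  have a2 : ‖HK K ζ‖ ≤ ((1 - Real.exp (-K * ζ.re)) / ζ.re) ^ 2 := by
    rw [HK_eq K h0]
    refine pow_le_pow_left₀ (norm_nonneg _) ?_ 2
    refine (intervalIntegral.norm_integral_le_integral_norm hK.le).trans (le_of_eq ?_)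
    have e : ∀ u : ℝ, ‖exp (-ζ * u)‖ = Real.exp (-ζ.re * u) := fun u => by
      rw [Complex.norm_exp]; simp
    simp only [e]
    rw [int_exp (by simpa using h.ne')]
    have : -ζ.re * K = -K * ζ.re := by ring
    rw [this]
    field_simp
    ring
  refine ⟨?_, a2, a2.trans ?_⟩
  · rw [HK, norm_pow, norm_div, div_pow]
    have h1 : ‖exp (-K * ζ)‖ ≤ 1 := by
      rw [Complex.norm_exp, Real.exp_le_one_iff]
      simp
      positivity
    have h2 : ‖1 - exp (-K * ζ)‖ ≤ 2 := (norm_sub_le _ _).trans (by rw [norm_one]; linarith)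
    gcongr
    nlinarith [norm_nonneg (1 - exp (-K * ζ))]
  · have h1 : Real.exp (-K * ζ.re) ≤ 1 := Real.exp_le_one_iff.2 (by nlinarith)
    have h2 := Real.add_one_le_exp (-K * ζ.re)
    refine pow_le_pow_left₀ (div_nonneg (by linarith) h.le) ?_ 2
    rw [div_le_iff₀ h]
    linarith

end HkL

theorem hk : HkS := by
  refine ⟨fun K κ hK hK1 hκ => ⟨HkL.adm_fK hK hK1 hκ, HkL.val hK κ, fun ζ h0 h => ?_⟩,
    fun K ζ hK h => HkL.HK_le hK h⟩
  have := HkL.bound hK.le κ (z := ζ - κ) (by simpa using h)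
  rwa [sub_add_cancel, ← HkL.HK_eq K h0] at this

end Pool.Agent.MP_c5bf7b_nt.H25L
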