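import Pool.Agent.MP_c5bf7b_nt.H25L.SpecA
import Pool.Agent.MP_c5bf7b_nt.H38.Kf2

/-! Row KFA: the basic inequality with any number of kept zeros. -/

set_option autoImplicit false

namespace Pool.Agent.MP_c5bf7b_nt.H25L

open Complex Pool.Agent.MP_c5bf7b_nt.H38

namespace KfaL

theorem cnt_mono {l C : ℝ} {Y Z : Multiset ℂ} (h : Cnt l C Z) (hY : Y ≤ Z) : Cnt l C Y := by
  classical
  intro τ
  refine le_trans ?_ (h τ)
  exact Nat.cast_le.2 (Multiset.card_le_card (Multiset.filter_le_filter _ hY))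

theorem one {f : ℝ → ℝ} {x C l d m : ℝ} (hA : Adm f x) (hC : 0 ≤ C) (hF : Kf.FB f x C)
    (hl : 0 < l) (hd : 0 < d) (hd1 : d ≤ 1) {w ζ : ℂ} (hw : 0 ≤ w.re) (hw1 : 2 * w.re ≤ d * l)
    (hm : 0 ≤ m) (hζ : ζ.re ≤ m) (hfar : d * l < ‖ζ - w.im * I‖) (hH : Hp l w ζ) :
    (Lp f x (ζ - w)).re ≤
      (f 0 * m + C * Real.exp 50) * (9 / (d * l) ^ 2) * Kf.pw (|ζ.im - w.im| / l) := by
  have h0 : 0 ≤ f 0 := hA.nonneg 0 le_rfl hA.pos.le
  have hdl : 0 < d * l := mul_pos hd hl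
  have he : ζ - w.im * I = ζ - w + w.re := by
    linear_combination -(re_add_im w)
  have n1 : d * l ≤ 2 * ‖ζ - w‖ := by
    have h1 := norm_add_le (ζ - w) (w.re : ℂ)
    rw [← he, Complex.norm_real, Real.norm_of_nonneg hw] at h1
    linarith
  have n2 : |ζ.im - w.im| ≤ ‖ζ - w‖ := by simpa using abs_im_le_norm (ζ - w)
  have nz : 0 < ‖ζ - w‖ := by linarith
  obtain ⟨T, hT⟩ : ∃ T : ℝ, T = 1 + |ζ.im - w.im| / l := ⟨_, rfl⟩
  have hT1 : 1 ≤ T := by
    rw [hT]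
    exact le_add_of_nonneg_right (by positivity)
  have n3 : d * l * T / 3 ≤ ‖ζ - w‖ := by
    have h6 : d * l * T = d * l + d * |ζ.im - w.im| := by
      rw [hT]
      field_simp
    have h7 : d * |ζ.im - w.im| ≤ |ζ.im - w.im| := mul_le_of_le_one_left (abs_nonneg _) hd1
    linarith
  have hs1 : 1 ≤ √T := Real.one_le_sqrt.2 hT1
  have e1 : Real.exp (x * max 0 (-(ζ - w).re)) ≤ Real.exp 50 * √T := by
    have h1 : 0 ≤ Real.log T := Real.log_nonneg hT1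
    have h2 : max 0 (-(ζ - w).re) ≤ 10 + Real.log T / 10 := by
      refine max_le (by linarith) ?_
      have h3 := hH.2
      rw [← hT] at h3
      rw [sub_re]
      linarith
    have h3 : x * max 0 (-(ζ - w).re) ≤ 5 * (10 + Real.log T / 10) :=
      mul_le_mul hA.le h2 (le_max_left _ _) (by norm_num)
    have h4 : √T = Real.exp (Real.log T / 2) := by
      rw [Real.sqrt_eq_rpow, Real.rpow_def_of_pos (by linarith)]
      congr 1
      ring
    rw [h4, ← Real.exp_add]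
    exact Real.exp_le_exp.2 (by linarith)
  have e2 := (hF (ζ - w)).2 (norm_pos_iff.1 nz)
  have e3 : ((f 0 : ℂ) / (ζ - w)).re ≤ f 0 * m / ‖ζ - w‖ ^ 2 := by
    rw [div_eq_mul_inv, re_ofReal_mul, inv_re, Complex.normSq_eq_norm_sq, mul_div_assoc, sub_re]
    gcongr
    linarith
  have e4 := (re_le_norm _).trans e2
  rw [sub_re] at e4
  have e5 : C * Real.exp (x * max 0 (-(ζ - w).re)) / ‖ζ - w‖ ^ 2 ≤
      C * (Real.exp 50 * √T) / ‖ζ - w‖ ^ 2 := by gcongr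
  have e6 : f 0 * m / ‖ζ - w‖ ^ 2 ≤ f 0 * m * √T / ‖ζ - w‖ ^ 2 := by
    exact div_le_div_of_nonneg_right (le_mul_of_one_le_right (by positivity) hs1) (by positivity)
  have e7 : (f 0 * m + C * Real.exp 50) * (9 / (d * l) ^ 2) * Kf.pw (|ζ.im - w.im| / l) =
      (f 0 * m + C * Real.exp 50) * √T / (d * l * T / 3) ^ 2 := by
    rw [Kf.pw, ← hT]
    have hs : 0 < √T := by linarith
    have hss : √T * √T = T := Real.mul_self_sqrt (by linarith)
    generalize √T = s at hs hss ⊢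
    rw [← hss]
    field_simp
    norm_num
  have e8 : (f 0 * m + C * Real.exp 50) * √T / ‖ζ - w‖ ^ 2 ≤
      (f 0 * m + C * Real.exp 50) * √T / (d * l * T / 3) ^ 2 := by gcongr
  have e9 : (f 0 * m + C * Real.exp 50) * √T / ‖ζ - w‖ ^ 2 =
      f 0 * m * √T / ‖ζ - w‖ ^ 2 + C * (Real.exp 50 * √T) / ‖ζ - w‖ ^ 2 := by ring
  linarith

end KfaL

theorem kfaOf : KfaOf := by
  classical
  intro hCnt hLp hKf f x ε hA hε
  obtain ⟨CN, hCN, hCnt⟩ := hCnt
  obtain ⟨⟨C, hC, hF⟩, -⟩ := hLp f x hA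
  have hF : Kf.FB f x C := hF
  obtain ⟨δ₀, d, hδ₀, hd, hd1, q₀, hK⟩ := hKf f x (ε / 2) hA (by positivity)
  have h0 : 0 ≤ f 0 := hA.nonneg 0 le_rfl hA.pos.le
  obtain ⟨K₂, hK₂⟩ : ∃ K : ℝ, K = ∑' j : ℕ, Kf.pw j := ⟨_, rfl⟩
  have hK₂0 : 0 ≤ K₂ := by
    rw [hK₂]
    exact tsum_nonneg fun j => Kf.pw_nonneg (Nat.cast_nonneg _)
  obtain ⟨B, hB⟩ : ∃ B : ℝ, B = (f 0 + C * Real.exp 50) * (18 * CN * K₂ / d ^ 2) := ⟨_, rfl⟩
  have hB0 : 0 ≤ B := by rw [hB]; positivity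
  obtain ⟨δ, hδ, hδ1, hδ2, hδ3⟩ : ∃ δ : ℝ, 0 < δ ∧ δ ≤ δ₀ ∧ δ ≤ d / 2 ∧ B * δ ≤ ε / 2 := by
    refine ⟨min (min δ₀ (d / 2)) (ε / (2 * (B + 1))), by positivity,
      (min_le_left _ _).trans (min_le_left _ _), (min_le_left _ _).trans (min_le_right _ _), ?_⟩
    refine (mul_le_mul_of_nonneg_left (min_le_right _ _) hB0).trans ?_
    rw [← mul_div_assoc, div_le_div_iff₀ (by positivity) (by norm_num)]
    nlinarith
  refine ⟨δ, hδ, max q₀ (max 2 ⌈Real.exp (1 / δ)⌉₊),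
    fun q _ hq N hN χ w Y Y' hY hc hY' hw0 hw1 hw2 hH => ?_⟩
  simp only [max_le_iff] at hq
  obtain ⟨hq0, hq2, hq3⟩ := hq
  have hq1 : (1 : ℝ) < q := by exact_mod_cast hq2
  have hl : 0 < Real.log q := Real.log_pos hq1
  have hl1 : 1 ≤ δ * Real.log q := by
    rw [mul_comm, ← div_le_iff₀ hδ, Real.le_log_iff_exp_le (by linarith)]
    exact Nat.ceil_le.1 hq3
  have hqδ : (q : ℝ) ^ δ ≤ (q : ℝ) ^ δ₀ := Real.rpow_le_rpow_of_exponent_le hq1.le hδ1
  obtain ⟨hcnt, -, -⟩ := (hCnt q χ hq2).2 _ (hN χ)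
  obtain ⟨Yn, hYn⟩ : ∃ Z, Z = Y'.filter fun ζ => ¬ d * Real.log q < ‖ζ - w.im * I‖ := ⟨_, rfl⟩
  obtain ⟨Yf, hYf⟩ : ∃ Z, Z = Y'.filter fun ζ => d * Real.log q < ‖ζ - w.im * I‖ := ⟨_, rfl⟩
  have hsplit : Yf + Yn = Y' := by rw [hYn, hYf, Multiset.filter_add_not]
  have hn1 : Yn ≤ Y' := by rw [hYn]; exact Multiset.filter_le _ _
  have hf1 : Yf ≤ Y' := by rw [hYf]; exact Multiset.filter_le _ _
  have hY2 : Y' ≤ N χ - Y := le_tsub_of_add_le_left hY
  have k1 := hK q hq0 N hN χ w (Y + Yn) ((add_le_add le_rfl hn1).trans hY) (by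
      rw [Multiset.filter_add, Multiset.card_add]
      have a1 : Yn.filter (fun ζ => d * Real.log q < ‖ζ - w.im * I‖) = 0 := by
        refine Multiset.filter_eq_nil.2 fun ζ hζ => ?_
        rw [hYn] at hζ
        exact (Multiset.mem_filter.1 hζ).2
      rw [a1, Multiset.card_zero, add_zero]
      exact (Multiset.card_le_card (Multiset.filter_le _ _)).trans hc)
    hw0 (hw1.trans (by gcongr)) (hw2.trans (by gcongr))
    (fun ζ hζ => hH ζ (Multiset.mem_of_le (tsub_le_tsub_left (Multiset.le_add_right _ _) _) hζ))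
  have k2 : (Yf.map fun ζ => (Lp f x (ζ - w)).re).sum ≤
      (Yf.map fun ζ => (f 0 * (δ * Real.log q) + C * Real.exp 50) * (9 / (d * Real.log q) ^ 2) *
        Kf.pw (|ζ.im - w.im| / Real.log q)).sum := by
    refine Multiset.sum_map_le_sum_map _ _ fun ζ hζ => ?_
    have m1 := Multiset.mem_of_le hf1 hζ
    rw [hYf] at hζ
    have m2 : δ * Real.log q ≤ d / 2 * Real.log q := by gcongr
    exact KfaL.one hA (by linarith) hF hl hd hd1 hw0 (by linarith) (by linarith) (hY' ζ m1)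
      (Multiset.mem_filter.1 hζ).2 (hH ζ (Multiset.mem_of_le hY2 m1))
  rw [Multiset.sum_map_mul_left] at k2
  have k3 := Kf.cnt_sum hl (by linarith) (KfaL.cnt_mono hcnt
    (hf1.trans ((Multiset.le_add_left _ _).trans hY))) w.im
  rw [← hK₂] at k3
  have k4 := mul_le_mul_of_nonneg_left k3 (show 0 ≤ (f 0 * (δ * Real.log q) + C * Real.exp 50) *
    (9 / (d * Real.log q) ^ 2) by positivity)
  have k5 : (f 0 * (δ * Real.log q) + C * Real.exp 50) * (9 / (d * Real.log q) ^ 2) *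
      (2 * (CN * Real.log q) * K₂) ≤ B * δ := by
    calc _ ≤ (f 0 * (δ * Real.log q) + C * Real.exp 50 * (δ * Real.log q)) *
          (9 / (d * Real.log q) ^ 2) * (2 * (CN * Real.log q) * K₂) := by
          have a1 : C * Real.exp 50 ≤ C * Real.exp 50 * (δ * Real.log q) :=
            le_mul_of_one_le_right (by positivity) hl1
          gcongr ?_ * _ * _
          linarith
      _ = _ := by
          rw [hB]
          field_simp
          ring
  unfold Rhs at k1 ⊢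
  rw [← hsplit]
  simp only [Multiset.map_add, Multiset.sum_add] at k1 ⊢
  linarith

end Pool.Agent.MP_c5bf7b_nt.H25L
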