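import Pool.Agent.MP_c5bf7b_nt.H25L.SpecC
import Pool.Agent.MP_c5bf7b_nt.H38.Pos
import Pool.Agent.MP_c5bf7b_nt.H38.WinR

/-! The inequality from two characters. -/

set_option autoImplicit false

namespace Pool.Agent.MP_c5bf7b_nt.H25L

open Finset Complex Pool.Agent.MP_c5bf7b_nt.H38

namespace Lat2L

noncomputable def G (f : ℝ → ℝ) (x a ν : ℝ) : ℝ := (Lp f x (a + ν * I)).re

noncomputable def K (q : ℕ) (f : ℝ → ℝ) (x w : ℝ) (χ : Ch q) (τ : ℝ) : ℝ :=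
  (Kn q f x χ (w + τ * I)).re

theorem lp_conj (f : ℝ → ℝ) (x : ℝ) (z : ℂ) :
    Lp f x ((starRingEnd ℂ) z) = (starRingEnd ℂ) (Lp f x z) := by
  simp only [Lp, intervalIntegral, map_sub, ← integral_conj, map_mul, conj_ofReal, ← exp_conj,
    map_neg]

theorem G_even (f : ℝ → ℝ) (x a ν : ℝ) : G f x a (-ν) = G f x a ν := by
  have e : (a : ℂ) + ((-ν : ℝ) : ℂ) * I = (starRingEnd ℂ) (a + ν * I) := by
    apply Complex.ext <;> simp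
  unfold G
  rw [e, lp_conj, conj_re]

theorem K_sym (q : ℕ) (f : ℝ → ℝ) (x w : ℝ) (χ : Ch q) (τ : ℝ) :
    K q f x w χ⁻¹ (-τ) = K q f x w χ τ := by
  unfold K
  rw [PosAux.kn_re, PosAux.kn_re]
  simp only [PosAux.uf_inv, conj_re]

open Classical in
theorem sum_EE {q : ℕ} (χ ψ : Ch q) (ζ : ℂ) (g : ℂ → ℝ) :
    ((EE χ ζ ψ).map g).sum = (if ψ = χ then g ζ else 0) +
      if ψ = χ⁻¹ ∧ ¬ (χ = χ⁻¹ ∧ ζ.im = 0) then g ((starRingEnd ℂ) ζ) else 0 := by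
  unfold EE
  split_ifs <;> simp

theorem card_EE {q : ℕ} (χ ψ : Ch q) (ζ : ℂ) : (EE χ ζ ψ).card ≤ 2 := by
  unfold EE
  split_ifs <;> simp

theorem EE_inv {q : ℕ} (χ ψ : Ch q) (ζ : ℂ) :
    EE χ ζ ψ⁻¹ = (EE χ ζ ψ).map (starRingEnd ℂ) := by
  refine (Multiset.Nodup.ext (WinR.nodup_EE _ _ _)
    ((WinR.nodup_EE _ _ _).map (star_injective (R := ℂ)))).2 fun ρ => ?_
  rw [Multiset.mem_map, WinR.mem_EE]
  constructor
  · rintro (⟨h1, rfl⟩ | ⟨h1, rfl⟩)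
    · exact ⟨_, (WinR.mem_EE _ _ _ _).2 (Or.inr ⟨inv_eq_iff_eq_inv.1 h1, rfl⟩), conj_conj _⟩
    · exact ⟨_, (WinR.mem_EE _ _ _ _).2 (Or.inl ⟨inv_injective h1, rfl⟩), rfl⟩
  · rintro ⟨ρ', h, rfl⟩
    rcases (WinR.mem_EE _ _ _ _).1 h with ⟨h1, rfl⟩ | ⟨h1, rfl⟩
    · exact Or.inr ⟨by rw [h1], rfl⟩
    · exact Or.inl ⟨by rw [h1, inv_inv], conj_conj _⟩

open Classical in
theorem two_le {q : ℕ} {N : Ch q → Multiset ℂ} {χ₁ χ₂ : Ch q} {ζ₁ ζ₂ : ℂ}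
    (hc : ∀ χ, N χ⁻¹ = (N χ).map (starRingEnd ℂ)) (h1 : ∀ χ, EE χ₁ ζ₁ χ ≤ N χ)
    (h2 : ζ₂ ∈ N χ₂ - EE χ₁ ζ₁ χ₂) (ψ : Ch q) : EE χ₂ ζ₂ ψ + EE χ₁ ζ₁ ψ ≤ N ψ := by
  refine (le_tsub_iff_right (h1 ψ)).1 ((Multiset.le_iff_subset (WinR.nodup_EE _ _ _)).2 ?_)
  intro ρ h
  rcases (WinR.mem_EE _ _ _ _).1 h with ⟨rfl, rfl⟩ | ⟨rfl, rfl⟩
  · exact h2
  · rw [Multiset.mem_sub] at h2 ⊢
    rwa [hc, EE_inv, Multiset.count_map_eq_count' _ _ (starRingEnd ℂ).injective,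
      Multiset.count_map_eq_count' _ _ (starRingEnd ℂ).injective]

open Classical in
theorem bound {q : ℕ} {N : Ch q → Multiset ℂ} {f : ℝ → ℝ} {x Lm Th T l₁ l₂ w : ℝ} {χ₁ χ₂ : Ch q}
    {ζ₁ ζ₂ : ℂ} (hq : 2 ≤ q) (h0 : f 0 = 1) (hK : KF4 q N f x e0 Lm Th)
    (hpos : ∀ χ, ∀ ζ ∈ N χ, 0 < ζ.re) (hc : ∀ χ, N χ⁻¹ = (N χ).map (starRingEnd ℂ))
    (hW : Win N Lm T l₁ l₂ χ₁ ζ₁) (hT : Real.log q ≤ T) (hTh : 10 * T ≤ Th) (hLm : 10 ≤ Lm)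
    (hr : ¬ (χ₁ = χ₁⁻¹ ∧ ζ₁.im = 0)) (h2 : ζ₂ ∈ N χ₂ - EE χ₁ ζ₁ χ₂) (hre : ζ₂.re = l₂)
    (w0 : 0 ≤ w) (w1 : w ≤ l₂ - c0) (w2 : w ≤ 10) (ψ : Ch q) (τ : ℝ) (hτ : |τ| ≤ 3 * T) :
    K q f x w ψ τ ≤ (if ψ = 1 then G f x (-w) (-τ) else 1 / 8) -
      (if ψ = χ₁ then G f x (l₁ - w) (ζ₁.im - τ) else 0) -
      (if ψ = χ₁⁻¹ then G f x (l₁ - w) (-ζ₁.im - τ) else 0) -
      (if ψ = χ₂ then G f x (l₂ - w) (ζ₂.im - τ) else 0) -
      (if ψ = χ₂⁻¹ ∧ ¬ (χ₂ = χ₂⁻¹ ∧ ζ₂.im = 0) then G f x (l₂ - w) (-ζ₂.im - τ) else 0) + e0 := by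
  have hL : 0 < Real.log q := Real.log_pos (by exact_mod_cast hq)
  have hre' : ((w : ℂ) + τ * I).re = w := by simp
  have him : ((w : ℂ) + τ * I).im = τ := by simp
  have h := hK ψ (w + τ * I) _ (two_le hc hW.le h2 ψ)
    (by rw [Multiset.card_add]; linarith [card_EE χ₁ ψ ζ₁, card_EE χ₂ ψ ζ₂])
    (by rwa [hre']) (by rw [hre']; linarith) (by rw [him]; linarith) fun ζ hζ => by
      have hζ' : ζ ∈ N ψ - EE χ₁ ζ₁ ψ :=
        Multiset.mem_of_le (tsub_le_tsub_left (Multiset.le_add_left _ _) _) hζ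
      have hζN : ζ ∈ N ψ := Multiset.mem_of_le (Multiset.sub_le_self _ _) hζ
      have htri : |ζ.im| ≤ |ζ.im - τ| + |τ| := by simpa using abs_add_le (ζ.im - τ) τ
      unfold Hp
      rw [hre', him]
      refine ⟨fun h => ?_, ?_⟩
      · have := hW.far ψ ζ hζ' 1 (by rw [pow_one]; linarith)
        simp only [Nat.cast_one, mul_one] at this
        linarith
      · have h1 : 0 ≤ Real.log (1 + |ζ.im - τ| / Real.log q) :=
          Real.log_nonneg (le_add_of_nonneg_right (by positivity))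
        linarith [hpos ψ ζ hζN]
  unfold Rhs at h
  have e1 : -((w : ℂ) + τ * I) = ((-w : ℝ) : ℂ) + ((-τ : ℝ) : ℂ) * I := by
    push_cast; ring
  have e2 : ∀ ζ : ℂ, ζ - ((w : ℂ) + τ * I) =
      ((ζ.re - w : ℝ) : ℂ) + ((ζ.im - τ : ℝ) : ℂ) * I := fun ζ => by
    apply Complex.ext <;> simp
  rw [e1, h0, Multiset.map_add, Multiset.sum_add, sum_EE, sum_EE] at h
  simp only [e2, conj_re, conj_im, hre, hW.re, hr, not_false_eq_true, and_true] at h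
  unfold K G
  linarith

theorem expand (p : ℕ → ℝ) (k : ℤ → ℤ → ℝ) (sym : ∀ i j, k (-i) (-j) = k i j)
    (h : 0 ≤ ∑ u ∈ range 3 ×ˢ range 2, ∑ v ∈ range 3 ×ˢ range 2,
      p u.1 * p v.1 * k ((u.1 : ℤ) - v.1) ((u.2 : ℤ) - v.2)) :
    0 ≤ (p 0 * p 0 + p 1 * p 1 + p 2 * p 2) * (k 0 0 + k 0 1) +
      (p 0 * p 1 + p 1 * p 2) * (k 1 0 + k (-1) 0 + k 1 1 + k (-1) 1) +
      p 0 * p 2 * (k 2 0 + k (-2) 0 + k 2 1 + k (-2) 1) := by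
  have s0 := sym 0 1
  have s1 := sym 1 1
  have s2 := sym 2 1
  have s3 := sym (-1) 1
  have s4 := sym (-2) 1
  simp only [sum_product, sum_range_succ, sum_range_zero] at h
  norm_num at h s0 s1 s2 s3 s4
  rw [s0, s1, s2, s3, s4] at h
  linarith

theorem fin (a k0 k1 P0 A0 B0 P1 A1 B1 S0 S1 : ℤ → ℝ) (r e : ℝ) (ev : ∀ j, a (-j) = a j)
    (a3 : a 3 = 0) (a4 : a 4 = 0) (nn : ∀ j, 0 ≤ a j) (a1 : a 1 ≤ a 0) (a2 : a 2 ≤ a 0)
    (he : 0 ≤ e)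
    (h : 0 ≤ a 0 * (k0 0 + k1 0) + a 1 * (k0 1 + k0 (-1) + k1 1 + k1 (-1)) +
      a 2 * (k0 2 + k0 (-2) + k1 2 + k1 (-2)))
    (h0 : ∀ j, |j| ≤ 2 → k0 j ≤ P0 j - A0 (j - 1) - A0 (j + 1) - B1 (-j) - r * B1 j + e)
    (h1 : ∀ j, |j| ≤ 2 → k1 j ≤ P1 j - A1 (j - 1) - A1 (j + 1) - B0 j + e)
    (d0 : ∀ j ∈ Icc (1 : ℤ) 3, ∀ v, v = j ∨ v = -j →
      a j * P0 v - (a (j + 1) + a (j - 1)) * A0 v - a j * B0 v ≤ S0 j)
    (d1 : ∀ v ∈ Icc (-3 : ℤ) 3,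
      a v * P1 v - (a (v + 1) + a (v - 1)) * A1 v - (1 + r) * a v * B1 v ≤ 2 * S1 v) :
    0 ≤ a 0 * P0 0 - 2 * a 1 * A0 0 - a 0 * B0 0 + 2 * ∑ j ∈ Icc (1 : ℤ) 3, S0 j +
      2 * ∑ j ∈ Icc (-3 : ℤ) 3, S1 j + 10 * e * a 0 := by
  have e1 : Icc (1 : ℤ) 3 = {1, 2, 3} := by decide
  have e2 : Icc (-3 : ℤ) 3 = {-3, -2, -1, 0, 1, 2, 3} := by decide
  have m0 := fun j hj => mul_le_mul_of_nonneg_left (h0 j hj) (nn j)
  have m1 := fun j hj => mul_le_mul_of_nonneg_left (h1 j hj) (nn j)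
  have x0 := m0 0 (by decide)
  have x1 := m0 1 (by decide)
  have x2 := m0 2 (by decide)
  have x3 := m0 (-1) (by decide)
  have x4 := m0 (-2) (by decide)
  have y0 := m1 0 (by decide)
  have y1 := m1 1 (by decide)
  have y2 := m1 2 (by decide)
  have y3 := m1 (-1) (by decide)
  have y4 := m1 (-2) (by decide)
  have u1 := d0 1 (by decide) 1 (Or.inl rfl)
  have u2 := d0 2 (by decide) 2 (Or.inl rfl)
  have u3 := d0 3 (by decide) 3 (Or.inl rfl)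
  have u4 := d0 1 (by decide) (-1) (Or.inr rfl)
  have u5 := d0 2 (by decide) (-2) (Or.inr rfl)
  have u6 := d0 3 (by decide) (-3) (Or.inr rfl)
  have v0 := d1 0 (by decide)
  have v1 := d1 1 (by decide)
  have v2 := d1 2 (by decide)
  have v3 := d1 3 (by decide)
  have v4 := d1 (-1) (by decide)
  have v5 := d1 (-2) (by decide)
  have v6 := d1 (-3) (by decide)
  have z1 := mul_le_mul_of_nonneg_right a1 he
  have z2 := mul_le_mul_of_nonneg_right a2 he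
  rw [e1, e2]
  norm_num [ev, a3, a4] at x0 x1 x2 x3 x4 y0 y1 y2 y3 y4 u1 u2 u3 u4 u5 u6 v0 v1 v2 v3 v4 v5 v6 ⊢
  linarith

theorem ite_aux (a b : Prop) [Decidable a] [Decidable b] [Decidable (a ∧ ¬ b)] (y : ℝ) :
    (if a ∧ ¬ b then y else 0) = (if b then 0 else 1) * if a then y else 0 := by
  by_cases a' : a <;> by_cases b' : b <;> simp [a', b']

theorem ac_neg (p : ℕ → ℝ) (j : ℤ) : ac p (-j) = ac p j := by simp [ac]

theorem ac_nonneg {p : ℕ → ℝ} (h : ∀ k, 0 ≤ p k) (j : ℤ) : 0 ≤ ac p j :=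
  sum_nonneg fun i _ => by
    split_ifs
    exacts [mul_nonneg (h _) (h _), le_rfl]

theorem ac_val {p : ℕ → ℝ} (h : ∀ k, 3 ≤ k → p k = 0) :
    ac p 0 = p 0 * p 0 + p 1 * p 1 + p 2 * p 2 ∧ ac p 1 = p 0 * p 1 + p 1 * p 2 ∧
      ac p 2 = p 0 * p 2 ∧ ac p 3 = 0 ∧ ac p 4 = 0 := by
  have h3 := h 3 le_rfl
  have h4 := h 4 (by norm_num)
  have h5 := h 5 (by norm_num)
  simp [ac, sum_range_succ, h3, h4, h5]

end Lat2L

open Lat2L Classical in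
theorem lat2Of : Lat2Of := by
  intro hL hA hG q _ N Lm Th C M T l₁ l₂ χ₁ χ₂ ζ₁ ζ₂ o j₀ hE hc hW hT hTh _ hr _ h2 him hre o1 o2
    i hi p w D D' hp hp3 w0 w1 w2 hD hD'
  obtain ⟨i1, i2⟩ := mem_Icc.1 hi
  have hx0 : (0 : ℝ) < (i : ℝ) / 10 := by
    have : (8 : ℝ) ≤ i := by exact_mod_cast i1
    linarith
  have hx1 : (i : ℝ) / 10 ≤ 5 := by
    have : (i : ℝ) ≤ 35 := by exact_mod_cast i2
    linarith
  have hf := hA.1 _ hx0 hx1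
  have hb := bound hE.two (by simp [par]) (hE.kf i hi) (fun χ ζ h => (hE.pos χ ζ h).1) hc hW hT hTh
    hE.lm hr h2 hre w0 w1 w2
  have g0 : ∀ a, G (par (i / 10)) (i / 10) a (-(((0 : ℤ) : ℝ) * ζ₁.im)) = Fp i a := fun a => by
    have := (hL _ _ hf).2.1 a
    simp [G, Fp, this]
  have hD0 : ∀ c b b' d, Dev i c w b l₁ b' l₂ d → ∀ ν, c * G (par (i / 10)) (i / 10) (-w) ν -
      b * G (par (i / 10)) (i / 10) (l₁ - w) ν - b' * G (par (i / 10)) (i / 10) (l₂ - w) ν ≤ d :=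
    fun _ _ _ _ h => h
  generalize par (i / 10) = f at hf hb g0 hD0
  generalize (i : ℝ) / 10 = x at hf hb g0 hD0
  have hc0 : (0 : ℝ) < c0 := by unfold c0; norm_num
  have hB : ∀ ν, 0 ≤ G f x (l₂ - w) ν := fun ν => hf.re _ (by simp; linarith)
  have hT0 : 0 ≤ T := (abs_nonneg _).trans him
  obtain ⟨b0, b1, b2, b3, b4⟩ := ac_val hp3
  have hpos := expand p (fun j k => K q f x w (χ₁ ^ j * χ₂ ^ k) (j * ζ₁.im + k * ζ₂.im))
    (fun j k => by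
      rw [← K_sym q f x w (χ₁ ^ j * χ₂ ^ k), mul_inv, ← zpow_neg, ← zpow_neg]
      congr 1
      push_cast
      ring) (by
      refine ((hG q (ℕ × ℕ) (range 3 ×ˢ range 2) (fun u => χ₁ ^ u.1 * χ₂ ^ u.2)
        (fun u => u.1 * ζ₁.im + u.2 * ζ₂.im) (fun u => p u.1) f x w).2.2.1 hE.two
        hf.nonneg).trans_eq (sum_congr rfl fun u _ => sum_congr rfl fun v _ => ?_)
      unfold K
      congr 3
      · rw [zpow_sub, zpow_sub, zpow_natCast, zpow_natCast, zpow_natCast, zpow_natCast, mul_inv,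
          mul_mul_mul_comm]
      · push_cast
        ring)
  rw [← b0, ← b1, ← b2] at hpos
  have hτ : ∀ j : ℤ, |j| ≤ 2 → |j * ζ₁.im| ≤ 2 * T := fun j hj => by
    rw [abs_mul]
    exact mul_le_mul (by exact_mod_cast hj) hW.im (abs_nonneg _) (by norm_num)
  have t0 : ∀ j : ℤ, |j| ≤ 3 → (χ₁ ^ j = 1 ↔ (o : ℤ) ∣ j) := fun j hj => o1 j (by linarith)
  have t1 := o2.1
  have key := fin (ac p) (fun j => K q f x w (χ₁ ^ j * χ₂ ^ (0 : ℤ)) (j * ζ₁.im + (0 : ℤ) * ζ₂.im))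
    (fun j => K q f x w (χ₁ ^ j * χ₂ ^ (1 : ℤ)) (j * ζ₁.im + (1 : ℤ) * ζ₂.im))
    (fun j => if (o : ℤ) ∣ j then G f x (-w) (-(j * ζ₁.im)) else 1 / 8)
    (fun j => if (o : ℤ) ∣ j then G f x (l₁ - w) (-(j * ζ₁.im)) else 0)
    (fun j => if (o : ℤ) ∣ j then G f x (l₂ - w) (-(j * ζ₁.im)) else 0)
    (fun j => if In1 o j₀ j then G f x (-w) (-(j * ζ₁.im + ζ₂.im)) else 1 / 8)
    (fun j => if In1 o j₀ j then G f x (l₁ - w) (-(j * ζ₁.im + ζ₂.im)) else 0)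
    (fun j => if In1 o j₀ j then G f x (l₂ - w) (-(j * ζ₁.im + ζ₂.im)) else 0)
    (fun j => if (o : ℤ) ∣ j then D j else ac p j / 8)
    (fun j => if In1 o j₀ j then D' j else ac p j / 16)
    (if χ₂ = χ₂⁻¹ ∧ ζ₂.im = 0 then 0 else 1) e0 (ac_neg p) b3 b4 (ac_nonneg hp)
    (by rw [b0, b1]; nlinarith [sq_nonneg (p 0 - p 1), sq_nonneg (p 1 - p 2), sq_nonneg (p 0),
      sq_nonneg (p 2)])
    (by rw [b0, b2]; nlinarith [sq_nonneg (p 0 - p 2), sq_nonneg (p 1), sq_nonneg (p 0),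
      sq_nonneg (p 2)])
    (by unfold e0; norm_num) hpos ?_ ?_ ?_ ?_
  · simpa only [dvd_zero, if_true, g0] using key
  · intro j hj
    have hj' := abs_le.1 hj
    have h := hb (χ₁ ^ j) (j * ζ₁.im) (by linarith [hτ j hj])
    have c1 := t0 j (by linarith)
    have c2 : χ₁ ^ j = χ₁ ↔ (o : ℤ) ∣ j - 1 := by
      rw [← t0 _ (abs_le.2 ⟨by omega, by omega⟩), zpow_sub_one, mul_inv_eq_one]
    have c3 : χ₁ ^ j = χ₁⁻¹ ↔ (o : ℤ) ∣ j + 1 := by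
      rw [← t0 _ (abs_le.2 ⟨by omega, by omega⟩), zpow_add_one, mul_eq_one_iff_eq_inv]
    have c4 : χ₁ ^ j = χ₂ ↔ In1 o j₀ (-j) := by
      rw [← t1 _ (abs_le.2 ⟨by omega, by omega⟩), zpow_neg, inv_mul_eq_one]
    have c5 : χ₁ ^ j = χ₂⁻¹ ↔ In1 o j₀ j := by
      rw [← t1 _ (by linarith), mul_eq_one_iff_eq_inv]
    have n1 : ζ₁.im - j * ζ₁.im = -(((j - 1 : ℤ) : ℝ) * ζ₁.im) := by push_cast; ring
    have n2 : -ζ₁.im - j * ζ₁.im = -(((j + 1 : ℤ) : ℝ) * ζ₁.im) := by push_cast; ring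
    have n3 : ζ₂.im - j * ζ₁.im = -(-(((-j : ℤ) : ℝ) * ζ₁.im + ζ₂.im)) := by push_cast; ring
    have n4 : -ζ₂.im - j * ζ₁.im = -(j * ζ₁.im + ζ₂.im) := by ring
    rw [n1, n2, n3, n4, G_even f x (l₂ - w) (-_)] at h
    simp only [c1, c2, c3, c4, c5] at h
    simp only [zpow_zero, mul_one, Int.cast_zero, zero_mul, add_zero]
    rwa [ite_aux] at h
  · intro j hj
    have hj' := abs_le.1 hj
    have h := hb (χ₁ ^ j * χ₂) (j * ζ₁.im + ζ₂.im) (by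
      linarith [hτ j hj, abs_add_le (j * ζ₁.im) ζ₂.im])
    have c1 := t1 j (by linarith)
    have c2 : χ₁ ^ j * χ₂ = χ₁ ↔ In1 o j₀ (j - 1) := by
      rw [← t1 _ (abs_le.2 ⟨by omega, by omega⟩), zpow_sub_one, mul_right_comm, mul_inv_eq_one]
    have c3 : χ₁ ^ j * χ₂ = χ₁⁻¹ ↔ In1 o j₀ (j + 1) := by
      rw [← t1 _ (abs_le.2 ⟨by omega, by omega⟩), zpow_add_one, mul_right_comm,
        mul_eq_one_iff_eq_inv]
    have c4 : χ₁ ^ j * χ₂ = χ₂ ↔ (o : ℤ) ∣ j := by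
      rw [← t0 _ (by linarith), mul_eq_right]
    have n1 : ζ₁.im - (j * ζ₁.im + ζ₂.im) = -(((j - 1 : ℤ) : ℝ) * ζ₁.im + ζ₂.im) := by
      push_cast; ring
    have n2 : -ζ₁.im - (j * ζ₁.im + ζ₂.im) = -(((j + 1 : ℤ) : ℝ) * ζ₁.im + ζ₂.im) := by
      push_cast; ring
    have n3 : ζ₂.im - (j * ζ₁.im + ζ₂.im) = -(j * ζ₁.im) := by ring
    rw [n1, n2, n3] at h
    simp only [c1, c2, c3, c4] at h
    simp only [zpow_one, Int.cast_one, one_mul]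
    refine h.trans (add_le_add_left (sub_le_self _ ?_) _)
    split_ifs
    exacts [hB _, le_rfl]
  · intro j hj v hv
    have e : (o : ℤ) ∣ v ↔ (o : ℤ) ∣ j := by
      rcases hv with rfl | rfl
      exacts [Iff.rfl, dvd_neg]
    simp only [e]
    split_ifs with a
    · exact hD0 _ _ _ _ (hD j hj a) _
    · linarith
  · intro v hv
    by_cases a : In1 o j₀ v
    · have h := hD0 _ _ _ _ (hD' v hv a) (-(v * ζ₁.im + ζ₂.im))
      have h' := mul_nonneg (ac_nonneg hp v) (hB (-(v * ζ₁.im + ζ₂.im)))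
      simp only [a, if_true]
      split_ifs at h ⊢ with b c c
      · linarith
      · exact absurd (o2.2 b.1) c
      · linarith
      · linarith
    · simp only [a, if_false]
      linarith

end Pool.Agent.MP_c5bf7b_nt.H25L
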