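import Pool.Agent.MP_c5bf7b_nt.H25L.SpecC
import Pool.Agent.MP_c5bf7b_nt.H38.Ls

/-! The inequality for a real zero of a real character. -/

set_option autoImplicit false

namespace Pool.Agent.MP_c5bf7b_nt.H25L

open Finset Complex Pool.Agent.MP_c5bf7b_nt.H38 Pool.Agent.MP_c5bf7b_nt.H38.LsK

namespace LcL

theorem even (f : ℝ → ℝ) (x a ν : ℝ) : G f x a (-ν) = G f x a ν := by
  have e : Lp f x (a + (-ν : ℝ) * I) = (starRingEnd ℂ) (Lp f x (a + ν * I)) := by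
    simp only [Lp, intervalIntegral, map_sub, ← integral_conj, map_mul, conj_ofReal, ← exp_conj,
      map_neg, map_add, conj_I, ofReal_neg, mul_neg, neg_mul]
  rw [G, e, conj_re, G]

open Classical in
theorem kw {q : ℕ} {N E : Ch q → Multiset ℂ} {f : ℝ → ℝ} {x Lm Th T l w : ℝ}
    (hK : KF4 q N f x e0 Lm Th) (h0 : f 0 = 1) (hp : ∀ χ, ∀ ζ ∈ N χ, 0 < ζ.re)
    (hF : Far N E T l) (hT : Real.log q ≤ T) (hTh : 10 * T ≤ Th) (hL : 10 ≤ Lm) (w0 : 0 ≤ w)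
    (w1 : w ≤ l - c0) (w2 : w ≤ 10) (χ : Ch q) (τ : ℝ) (Y : Multiset ℂ) (hτ : |τ| ≤ T)
    (hY : Y ≤ N χ) (hE : E χ ≤ Y) (hc : Y.card ≤ 4) :
    K q f x w χ τ ≤ (if χ = 1 then G f x (-w) (-τ) else 1 / 8) -
      (Y.map fun ζ => G f x (ζ.re - w) (ζ.im - τ)).sum + e0 := by
  have hlog : 0 ≤ Real.log q := Real.log_natCast_nonneg q
  have r1 : ((w : ℂ) + τ * I).re = w := by simp
  have r2 : ((w : ℂ) + τ * I).im = τ := by simp
  have h := hK χ (w + τ * I) Y hY hc (by rwa [r1]) (by rw [r1]; linarith)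
    (by rw [r2]; linarith) fun ζ hζ => by
      rw [Hp, r1, r2]
      refine ⟨fun h1 => ?_, ?_⟩
      · have h2 := hF χ ζ (Multiset.mem_of_le (tsub_le_tsub_left hE _) hζ) 1 (by
          have := abs_sub_abs_le_abs_sub ζ.im τ
          linarith)
        rw [Nat.cast_one, mul_one] at h2
        linarith
      · have h2 := hp χ ζ (Multiset.mem_of_le (Multiset.sub_le_self _ _) hζ)
        have h3 : 0 ≤ Real.log (1 + |ζ.im - τ| / Real.log q) :=
          Real.log_nonneg (le_add_of_nonneg_right (div_nonneg (abs_nonneg _) hlog))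
        linarith
  unfold Rhs at h
  have e1 : -((w : ℂ) + τ * I) = ((-w : ℝ) : ℂ) + ((-τ : ℝ) : ℂ) * I := by
    push_cast; ring
  have e2 : ∀ ζ : ℂ, ζ - ((w : ℂ) + τ * I) =
      ((ζ.re - w : ℝ) : ℂ) + ((ζ.im - τ : ℝ) : ℂ) * I := fun ζ => by
    apply Complex.ext <;> simp
  rw [e1, h0] at h
  simp only [e2] at h
  exact h

end LcL

open Classical LcL in
theorem lcOf : LcOf := by
  intro hL hA hP q _ N Lm Th C M T l₁ l₂ χ₁ ζ₁ hE hW hT hTh h1 h2 h3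
  have hT0 : 0 ≤ T := (Real.log_natCast_nonneg q).trans hT
  rcases hW.two with h | ⟨ψ, z, hz, hi, hr⟩
  · exact Or.inl (h ▸ hE.lm)
  have e1 : EE χ₁ ζ₁ χ₁ = {ζ₁} := by
    unfold EE
    rw [if_pos rfl, if_neg fun h => h.2 ⟨h2, h3⟩, add_zero]
  have e3 : ∀ χ, χ ≠ χ₁ → EE χ₁ ζ₁ χ = 0 := fun χ a => by
    unfold EE
    rw [if_neg a, if_neg fun h => h.2 ⟨h2, h3⟩, add_zero]
  by_cases a0 : ψ = 1
  · rw [a0, e3 1 h1.symm, tsub_zero] at hz
    exact Or.inl (hE.m.trans (hr ▸ hE.zeta z hz (by linarith)))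
  have t0 : |(0 : ℝ)| ≤ T := by rwa [abs_zero]
  have key : ∀ i ∈ Icc 8 35, ∀ w : ℝ, 0 ≤ w → w ≤ l₂ - c0 → w ≤ 10 →
      (∀ a, G (par ((i : ℕ) / 10)) ((i : ℕ) / 10) a 0 = Fp i a) ∧
      0 ≤ K q (par ((i : ℕ) / 10)) ((i : ℕ) / 10) w 1 0 +
        K q (par ((i : ℕ) / 10)) ((i : ℕ) / 10) w χ₁ 0 +
        K q (par ((i : ℕ) / 10)) ((i : ℕ) / 10) w ψ z.im +
        K q (par ((i : ℕ) / 10)) ((i : ℕ) / 10) w (ψ * χ₁) z.im ∧
      ∀ (χ : Ch q) (τ : ℝ) (Y : Multiset ℂ), |τ| ≤ T → Y ≤ N χ → EE χ₁ ζ₁ χ ≤ Y → Y.card ≤ 4 →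
        K q (par ((i : ℕ) / 10)) ((i : ℕ) / 10) w χ τ ≤
          @ite _ (χ = 1) (propDecidable _) (G (par ((i : ℕ) / 10)) ((i : ℕ) / 10) (-w) (-τ))
            (1 / 8) -
          (Y.map fun ζ => G (par ((i : ℕ) / 10)) ((i : ℕ) / 10) (ζ.re - w) (ζ.im - τ)).sum +
          e0 := by
    intro i hi' w w0 w1 w2
    obtain ⟨i1, i2⟩ := mem_Icc.1 hi'
    have j1 : (8 : ℝ) ≤ i := by exact_mod_cast i1
    have j2 : (i : ℝ) ≤ 35 := by exact_mod_cast i2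
    have hf := hA.1 ((i : ℕ) / 10) (by linarith) (by linarith)
    have e : ∀ a : ℝ, (a : ℂ) + ((0 : ℝ) : ℂ) * I = a := by simp
    refine ⟨fun a => ?_, ?_, kw (hE.kf i hi') (by simp [par]) (fun χ ζ h => (hE.pos χ ζ h).1)
      hW.far hT hTh hE.lm w0 w1 w2⟩
    · rw [G, e, (hL _ _ hf).2.1, ofReal_re, Fp]
    · have h := (hP q _ _ w hE.two hf.nonneg).1 χ₁ ψ 0 z.im
      rw [← h2, add_zero z.im, sub_zero z.im, add_assoc _ (_ / 2), add_halves] at h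
      rw [K, e]
      exact h
  have k1 : EE χ₁ ζ₁ 1 ≤ 0 := (e3 1 h1.symm).le
  by_cases a : ψ = χ₁
  · refine Or.inr (Or.inr fun i hi' w D w0 w1 w2 hD => ?_)
    obtain ⟨g0, p, k⟩ := key i hi' w w0 w1 w2
    have n1 : χ₁ * χ₁ = 1 := by
      nth_rewrite 2 [h2]
      exact mul_inv_cancel χ₁
    rw [a] at hz p
    rw [n1] at p
    have hY := cons_le (hW.le χ₁) hz
    rw [e1] at hY
    have p1 := k 1 0 0 t0 (Multiset.zero_le _) k1 (by simp)
    have p2 := k χ₁ 0 _ t0 hY (e1 ▸ Multiset.le_cons_self _ _) (by simp)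
    have p3 := k χ₁ z.im _ hi hY (e1 ▸ Multiset.le_cons_self _ _) (by simp)
    have p4 := k 1 z.im 0 hi (Multiset.zero_le _) k1 (by simp)
    have p5 := hD (-z.im)
    simp only [if_pos, if_neg h1, Multiset.map_zero, Multiset.sum_zero, Multiset.map_cons,
      Multiset.sum_cons, Multiset.map_singleton, Multiset.sum_singleton, neg_zero, sub_zero,
      sub_self, zero_sub, g0, h3, hr, hW.re] at p1 p2 p3 p4
    rw [← even _ _ (l₂ - w)] at p2
    simp only [G] at p2 p3 p4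
    linarith
  · refine Or.inr (Or.inl fun i hi' w w0 w1 w2 => ?_)
    obtain ⟨g0, p, k⟩ := key i hi' w w0 w1 w2
    have n1 : ψ * χ₁ ≠ 1 := fun e => a ((eq_inv_of_mul_eq_one_left e).trans h2.symm)
    have n2 : ψ * χ₁ ≠ χ₁ := fun e => a0 (mul_eq_right.1 e)
    rw [e3 ψ a, tsub_zero] at hz
    have p1 := k 1 0 0 t0 (Multiset.zero_le _) k1 (by simp)
    have p2 := k χ₁ 0 _ t0 (e1 ▸ hW.le χ₁) e1.le (by simp)
    have p3 := k ψ z.im {z} hi (Multiset.singleton_le.2 hz) ((e3 ψ a).le.trans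
      (Multiset.zero_le _)) (by simp)
    have p4 := k (ψ * χ₁) z.im 0 hi (Multiset.zero_le _) (e3 _ n2).le (by simp)
    simp only [if_pos, if_neg h1, if_neg a0, if_neg n1, Multiset.map_zero, Multiset.sum_zero,
      Multiset.map_singleton, Multiset.sum_singleton, neg_zero, sub_zero, sub_self, g0, h3, hr,
      hW.re] at p1 p2 p3 p4
    linarith

end Pool.Agent.MP_c5bf7b_nt.H25L
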