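import Pool.Agent.MP_c5bf7b_nt.H25L.SpecC
import Pool.Agent.MP_c5bf7b_nt.H38.Lin

/-! The last step: from the sums over the zeros to the least prime in a progression. -/

set_option autoImplicit false

namespace Pool.Agent.MP_c5bf7b_nt.H25L

open Finset Complex Filter Pool.Agent.MP_c5bf7b_nt.H38

theorem lin5Of : Lin5Of := by
  classical
  rintro ⟨C₀, -, hcnt⟩ henv hfar hsieg K e Ds Es hP he4 he5 hnear
  obtain ⟨C, hC, henv⟩ := henv K Ds Es hP
  obtain ⟨M, l₀, hM, hnear⟩ := hnear C hC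
  obtain ⟨η, hη, hη1, henv⟩ := henv M hM
  have hK := hP.K0
  have hK2 : 0 < K ^ 2 := by positivity
  have hK3 : K ^ 2 ≤ 1 := by nlinarith [hP.K1]
  have hδ : 0 < η / 10000 := by positivity
  obtain ⟨q₁, henv⟩ := henv (η / 10000) hδ (by linarith)
  obtain ⟨δ', hδ', q₂, hfar⟩ := hfar K e (η / 10000) η hK hP.K1 he4 he5 hδ (by linarith) hη
  set y : ℝ := min δ' (η / 10000) / 2 with hy
  have hy0 : 0 < y := by positivity
  have hy1 : 2 * y ≤ δ' := by
    have := min_le_left δ' (η / 10000)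
    linarith
  have hy2 : 2 * y ≤ η / 10000 := by
    have := min_le_right δ' (η / 10000)
    linarith
  obtain ⟨c, hc, hsieg⟩ := hsieg y hy0
  obtain ⟨B, hB⟩ := eventually_atTop.1 ((eventually_ge_atTop (max (max q₁ q₂) 2)).and
    ((LinAux.ev_log l₀).and ((LinAux.ev_log (l₀ / (η / 10000))).and ((LinAux.ev_log (1 / c)).and
    ((LinAux.ev_pow (half_pos hη) 2000000).and (LinAux.ev_pow hy0 (800 / K ^ 2)))))))
  refine ⟨2, two_pos, B, fun q hq a _ haq hcop => ?_⟩
  obtain ⟨hq0, hl0, hl1, hl2, hp1, hp2⟩ := hB q hq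
  simp only [max_le_iff] at hq0
  obtain ⟨⟨hq1, hq2⟩, hq4⟩ := hq0
  have : NeZero q := ⟨by omega⟩
  have hq2' : (2 : ℝ) ≤ q := by exact_mod_cast hq4
  have hqp : (0 : ℝ) < q := by linarith
  have hq1' : (1 : ℝ) ≤ q := by linarith
  have hl : 0 < Real.log q := Real.log_pos (by linarith)
  choose N hN using fun χ : Ch q => (hcnt q χ hq4).1
  by_contra hcon
  push Not at hcon
  have h1 := hfar q hq2 N hN a hcop fun p hp hpa => by
    have h2 := hcon p hp (by rw [hpa, Nat.mod_eq_of_lt haq])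
    have h3 : 0 < (q : ℝ) ^ (e + 2 * K) := Real.rpow_pos_of_pos hqp _
    linarith
  set s : ℝ := (q : ℝ) ^ (-y) with hs
  have hs0 : 0 < s := Real.rpow_pos_of_pos hqp _
  have hs1 : s * (q : ℝ) ^ y = 1 := by rw [hs, ← Real.rpow_add hqp]; simp
  have hs2 : 800 * s ≤ K ^ 2 := by
    rw [div_le_iff₀ hK2] at hp2
    have := mul_le_mul_of_nonneg_left hp2 hs0.le
    rw [← mul_assoc, hs1] at this
    linarith
  have h4 : (q : ℝ) ^ (-δ') ≤ s * s := by
    rw [hs, ← Real.rpow_add hqp]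
    exact Real.rpow_le_rpow_of_exponent_le hq1' (by linarith)
  have h3 := hnear q N (η / 10000 * Real.log q) ((q : ℝ) ^ η * Real.log q) s
    (henv q hq1 N hN) hl0 (by rwa [div_le_iff₀' hδ] at hl1) ?_ hs0 (by linarith) ?_ ?_
  · nlinarith [mul_le_mul_of_nonneg_right hs2 hs0.le, mul_pos hs0 hs0]
  · have e1 : (10 : ℝ) ^ (2000 * (η / 10000 * Real.log q)) ≤ (q : ℝ) ^ (η / 2) := by
      rw [Real.rpow_def_of_pos (by norm_num), Real.rpow_def_of_pos hqp, Real.exp_le_exp]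
      have := mul_le_mul_of_nonneg_right LinAux.log_ten (mul_pos hη hl).le
      nlinarith
    have e2 : (q : ℝ) ^ η = (q : ℝ) ^ (η / 2) * (q : ℝ) ^ (η / 2) := by
      rw [← Real.rpow_add hqp]; simp
    have e3 := mul_le_mul_of_nonneg_right (mul_le_mul hp1 e1 (by positivity) (by positivity)) hl.le
    rw [e2]
    linarith
  · intro χ hχ hχ1 ζ hζ him
    obtain ⟨-, h4, -, h5⟩ := ((hcnt q χ hq4).2 _ (hN χ)).2.1 ζ hζ
    have h6 : χ ^ 2 = 1 := by
      rw [pow_two]
      nth_rewrite 2 [hχ]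
      exact mul_inv_cancel χ
    have h7 : 1 - ζ / Real.log q = ((1 - ζ.re / Real.log q : ℝ) : ℂ) := by
      have : ζ = (ζ.re : ℂ) := Complex.ext (by simp) (by simpa using him)
      rw [ofReal_sub, ofReal_div, ← this, ofReal_one]
    rw [h7, Phi, if_neg hχ1] at h5
    have h8 := hsieg q χ _ h6 hχ1 (by
      have : ζ.re / Real.log q ≤ 1 / 3 := by rw [div_le_iff₀ hl]; linarith
      linarith) h5
    rw [sub_sub_cancel, le_div_iff₀ hl] at h8
    rw [div_le_iff₀ hc] at hl2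
    nlinarith
  · rw [hs, Real.rpow_def_of_pos hqp, Real.exp_le_exp]
    nlinarith

end Pool.Agent.MP_c5bf7b_nt.H25L
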