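import Pool.Agent.MP_c5bf7b_nt.H25L.SpecA
import Pool.Agent.MP_c5bf7b_nt.H38.Den

/-! Large values of Dirichlet polynomials by the mean square. -/

set_option autoImplicit false

namespace Pool.Agent.MP_c5bf7b_nt.H25L

open Finset Complex Pool.Agent.MP_c5bf7b_nt.H38 Pool.Agent.MP_c5bf7b_nt.H38.DenL

namespace Lv1L

theorem size {y X Y Q σ : ℝ} (hY : 0 < Y) (hYy : Y ≤ y) (hyX : y ≤ X) (hQ : 0 ≤ Q)
    (h0 : 1 / 2 ≤ σ) (h1 : σ ≤ 1) :
    (y + Q) * y * (y ^ (-σ)) ^ 2 ≤ X ^ (2 - 2 * σ) + Q * Y ^ (1 - 2 * σ) := by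
  have hy0 : 0 < y := hY.trans_le hYy
  have b1 : (y ^ (-σ)) ^ 2 = y ^ (-(2 * σ)) := by
    rw [← Real.rpow_natCast, ← Real.rpow_mul hy0.le]; congr 1; push_cast; ring
  have b2 : y ^ (1 - 2 * σ) = y * y ^ (-(2 * σ)) := by
    rw [sub_eq_add_neg, Real.rpow_add hy0, Real.rpow_one]
  have b3 : y ^ (2 - 2 * σ) = y * y * y ^ (-(2 * σ)) := by
    rw [sub_eq_add_neg, Real.rpow_add hy0, Real.rpow_two, sq]
  have b4 : y ^ (2 - 2 * σ) ≤ X ^ (2 - 2 * σ) := Real.rpow_le_rpow hy0.le hyX (by linarith)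
  have b5 : y ^ (1 - 2 * σ) ≤ Y ^ (1 - 2 * σ) :=
    Real.rpow_le_rpow_of_nonpos hY hYy (by linarith)
  have b6 := mul_le_mul_of_nonneg_left b5 hQ
  rw [b1]
  rw [b2] at b6
  rw [b3] at b4
  nlinarith

end Lv1L

theorem lv1 : Lv1S := by
  intro q _ J ρ σ t b M M' D W ⟨h58, h1, hM, hMM, hW, hb, hJ⟩
  obtain ⟨L, rfl⟩ := Nat.exists_eq_add_of_le hMM
  set c : ℕ → ℂ := fun k => b k * (k : ℂ) ^ (-(t * I)) with hc
  set E : ℝ := ((M + L : ℕ) : ℝ) ^ (2 - 2 * σ) + q * (M : ℝ) ^ (1 - 2 * σ) with hE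
  have hE0 : 0 ≤ E := by positivity
  have main := count J L (fun n => (((M + n : ℕ) : ℝ))⁻¹)
    (fun χ n => (2 * W)⁻¹ * (‖∑ k ∈ Ioc M (M + n), c k * χ k‖ * ((M + n : ℕ) : ℝ) ^ (-σ)))
    ((2 * W)⁻¹ ^ 2 * (D ^ 2 * E)) _ (fun n => by positivity) (harm hM L) (fun n hn => ?_)
    (fun χ hχ => ?_)
  · have hH : 1 ≤ (1 + Real.log ((M + L : ℕ) : ℝ)) ^ 2 := by
      have : 0 ≤ Real.log ((M + L : ℕ) : ℝ) := Real.log_natCast_nonneg _
      nlinarith
    set H := (1 + Real.log ((M + L : ℕ) : ℝ)) ^ 2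
    have h2 : 0 ≤ D ^ 2 * E := by positivity
    calc (J.card : ℝ) * W ^ 2 ≤ (8 + 32 * H) * ((2 * W)⁻¹ ^ 2 * (D ^ 2 * E)) * W ^ 2 :=
          mul_le_mul_of_nonneg_right main (by positivity)
      _ = (2 + 8 * H) * (D ^ 2 * E) := by field_simp; ring
      _ ≤ 10 * H * (D ^ 2 * E) := mul_le_mul_of_nonneg_right (by linarith) h2
      _ = _ := by ring
  · simp only [mul_pow]
    rw [← mul_sum, ← sum_mul]
    refine mul_le_mul_of_nonneg_left ?_ (by positivity)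
    have a1 := ortho (q := q) (Ioc M (M + n)) (M + n) (fun k hk => (mem_Ioc.1 hk).2) c
    set y : ℝ := ((M + n : ℕ) : ℝ) with hy
    have hyX : y ≤ ((M + L : ℕ) : ℝ) := by rw [hy]; exact_mod_cast Nat.add_le_add_left hn M
    have hMy : (M : ℝ) ≤ y := by rw [hy]; exact_mod_cast Nat.le_add_right M n
    have hM0 : (0 : ℝ) < M := by exact_mod_cast hM
    have hy0 : 0 < y := hM0.trans_le hMy
    have a2 : ∑ k ∈ Ioc M (M + n), ‖c k‖ ^ 2 ≤ y * D ^ 2 := by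
      have : ∀ k ∈ Ioc M (M + n), ‖c k‖ ^ 2 ≤ D ^ 2 := by
        intro k hk
        obtain ⟨k1, k2⟩ := mem_Ioc.1 hk
        have k0 : 0 < k := by omega
        refine pow_le_pow_left₀ (norm_nonneg _) ?_ 2
        have e : ‖c k‖ = ‖b k‖ := by
          rw [hc, norm_mul, norm_natCast_cpow_of_pos k0]; simp
        rw [e]
        exact hb k (mem_Ioc.2 ⟨k1, by omega⟩)
      refine (sum_le_sum this).trans ?_
      rw [sum_const, Nat.card_Ioc, nsmul_eq_mul]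
      refine mul_le_mul_of_nonneg_right ?_ (by positivity)
      rw [hy]; exact_mod_cast Nat.sub_le _ _
    have a3 := Lv1L.size hM0 hMy hyX (Nat.cast_nonneg (α := ℝ) q) (by linarith) h1
    calc _ ≤ ((y + q) * (y * D ^ 2)) * (y ^ (-σ)) ^ 2 :=
          mul_le_mul_of_nonneg_right
            (a1.trans (mul_le_mul_of_nonneg_left a2 (by positivity))) (by positivity)
      _ = D ^ 2 * ((y + q) * y * (y ^ (-σ)) ^ 2) := by ring
      _ ≤ _ := mul_le_mul_of_nonneg_left a3 (by positivity)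
  · obtain ⟨j3, j4, j5, a1⟩ := hJ χ hχ
    have hs : ‖ρ χ - t * I‖ ≤ 2 := by
      have a1 := norm_le_abs_re_add_abs_im (ρ χ - t * I)
      have a2 : |(ρ χ).re| ≤ 1 := abs_le.2 ⟨by linarith, j4⟩
      simp only [sub_re, mul_re, ofReal_re, I_re, mul_zero, ofReal_im, I_im, mul_one, sub_self,
        sub_zero, sub_im, mul_im, add_zero] at a1
      linarith
    have a2 := abel_le (fun k => c k * χ k) hM L (s := ρ χ - t * I) (σ := σ) (by linarith)
      (by simpa using j3) hs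
    have a3 : ∑ k ∈ Ioc M (M + L), b k * χ k * (k : ℂ) ^ (-ρ χ) =
        ∑ k ∈ Ioc M (M + L), c k * χ k * (k : ℂ) ^ (-(ρ χ - t * I)) := by
      refine sum_congr rfl fun k hk => ?_
      have k0 : (k : ℂ) ≠ 0 := by
        have := (mem_Ioc.1 hk).1
        exact_mod_cast (by omega : k ≠ 0)
      have e : -ρ χ = -(t * I) + -(ρ χ - t * I) := by ring
      rw [hc, e, cpow_add _ _ k0]
      ring
    rw [a3] at a1
    have a4 := mul_le_mul_of_nonneg_left (a1.trans a2) (by positivity : 0 ≤ (2 * W)⁻¹)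
    have a5 : (2 * W)⁻¹ * W = 1 / 2 := by field_simp
    rw [a5] at a4
    refine a4.trans (le_of_eq ?_)
    rw [mul_add, mul_left_comm _ (2 : ℝ), mul_sum]
    congr 2
    exact sum_congr rfl fun n _ => by ring

end Pool.Agent.MP_c5bf7b_nt.H25L
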