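import Pool.Agent.MP_c5bf7b_nt.H25L.SpecA
import Pool.Agent.MP_c5bf7b_nt.H38.Den

/-! Large values of Dirichlet polynomials by the method of Halasz. -/

set_option autoImplicit false

namespace Pool.Agent.MP_c5bf7b_nt.H25L

open Finset Complex Pool.Agent.MP_c5bf7b_nt.H38

namespace Lv2L

theorem cpow_diff {x : ℝ} (hx : 1 ≤ x) {s : ℂ} (hs : 0 ≤ s.re) :
    ‖(x : ℂ) ^ (-s) - ((x + 1 : ℝ) : ℂ) ^ (-s)‖ ≤ ‖s‖ * x⁻¹ := by
  by_cases h0 : s = 0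
  · simp [h0]
  have hs0 : -s ≠ 0 := neg_ne_zero.2 h0
  have h := norm_image_sub_le_of_norm_deriv_le_segment' (f := fun y : ℝ => (y : ℂ) ^ (-s))
    (f' := fun y : ℝ => -s * (y : ℂ) ^ (-s - 1)) (a := x) (b := x + 1) (C := ‖s‖ * x⁻¹)
    (fun y hy => (hasDerivAt_ofReal_cpow_const (by linarith [hy.1]) hs0).hasDerivWithinAt)
    (fun y hy => by
      have hy1 : 1 ≤ y := by linarith [hy.1]
      rw [norm_mul, norm_neg, norm_cpow_eq_rpow_re_of_pos (by linarith)]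
      refine mul_le_mul_of_nonneg_left ?_ (norm_nonneg _)
      simp only [sub_re, neg_re, one_re]
      refine (Real.rpow_le_rpow_of_exponent_le hy1 (by linarith : -s.re - 1 ≤ -1)).trans ?_
      rw [Real.rpow_neg_one]
      exact inv_anti₀ (by linarith) hy.1)
    (x + 1) ⟨by linarith, le_rfl⟩
  rw [norm_sub_rev]
  simpa using h

theorem abel_le (c : ℕ → ℂ) {N N' : ℕ} (hN : 1 ≤ N) (hN' : N ≤ N') {s : ℂ} {P : ℝ} (hP : 0 ≤ P)
    (h0 : 0 ≤ s.re) (hs : ‖s‖ ≤ 3) (hc : ∀ n, ‖∑ k ∈ Ioc N n, c k‖ ≤ P) :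
    ‖∑ k ∈ Ioc N N', c k * (k : ℂ) ^ (-s)‖ ≤ 4 * P * (1 + Real.log N') := by
  obtain ⟨M, rfl⟩ := Nat.exists_eq_add_of_le hN'
  have h1 : ∀ n : ℕ, (1 : ℝ) ≤ ((N + n : ℕ) : ℝ) := fun n => by
    exact_mod_cast hN.trans (Nat.le_add_right N n)
  have a : ‖(∑ k ∈ Ioc N (N + M), c k) * ((N + M : ℕ) : ℂ) ^ (-s)‖ ≤ P := by
    rw [norm_mul, norm_natCast_cpow_of_pos (by omega)]
    have := Real.rpow_le_one_of_one_le_of_nonpos (h1 M) (z := (-s).re)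
      (by simp only [neg_re]; linarith)
    exact (mul_le_mul (hc _) this (by positivity) hP).trans (mul_one P).le
  have b : ‖∑ n ∈ range M, (∑ k ∈ Ioc N (N + n), c k) *
      (((N + n : ℕ) : ℂ) ^ (-s) - ((N + n + 1 : ℕ) : ℂ) ^ (-s))‖ ≤
      3 * P * ∑ n ∈ range M, (((N + n : ℕ) : ℝ))⁻¹ := by
    rw [mul_sum]
    refine (norm_sum_le _ _).trans (sum_le_sum fun n _ => ?_)
    have h3 := cpow_diff (h1 n) h0
    have h4 : ((((N + n : ℕ) : ℝ) + 1 : ℝ) : ℂ) = ((N + n + 1 : ℕ) : ℂ) := by push_cast; ring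
    rw [h4, ofReal_natCast] at h3
    have h6 : ‖s‖ * ((N + n : ℕ) : ℝ)⁻¹ ≤ 3 * ((N + n : ℕ) : ℝ)⁻¹ :=
      mul_le_mul_of_nonneg_right hs (by positivity)
    rw [norm_mul]
    exact (mul_le_mul (hc _) (h3.trans h6) (norm_nonneg _) hP).trans (le_of_eq (by ring))
  have d := mul_le_mul_of_nonneg_left (DenL.harm hN M) (by positivity : 0 ≤ 3 * P)
  have e := mul_nonneg hP (Real.log_nonneg (h1 M))
  rw [DenL.abel]
  refine (norm_add_le _ _).trans ?_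
  linarith

theorem step {x a : ℝ} (hx : 0 < x) (ha : 1 / 4 ≤ a) :
    (x + 1) ^ (-a - 1) ≤ 4 * (x ^ (-a) - (x + 1) ^ (-a)) := by
  have h1 : 0 < x + 1 := by linarith
  have h2 := Real.log_le_sub_one_of_pos (x := x / (x + 1)) (by positivity)
  rw [Real.log_div hx.ne' h1.ne'] at h2
  have h3 : x / (x + 1) - 1 = -(x + 1)⁻¹ := by field_simp; ring
  have h4 : x ^ (-a) = (x + 1) ^ (-a) * Real.exp (a * (Real.log (x + 1) - Real.log x)) := by
    rw [Real.rpow_def_of_pos hx, Real.rpow_def_of_pos h1, ← Real.exp_add]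
    congr 1
    ring
  have h5 := Real.add_one_le_exp (a * (Real.log (x + 1) - Real.log x))
  have h6 : 1 / 4 * (x + 1)⁻¹ ≤ a * (Real.log (x + 1) - Real.log x) :=
    mul_le_mul ha (by linarith) (by positivity) (by linarith)
  have h7 : (x + 1) ^ (-a - 1) = (x + 1) ^ (-a) * (x + 1)⁻¹ := by
    rw [Real.rpow_sub_one h1.ne', div_eq_mul_inv]
  have h8 : 0 < (x + 1) ^ (-a) := by positivity
  rw [h4, h7]
  nlinarith

theorem tail {N N' : ℕ} (hN : 1 ≤ N) (hN' : N ≤ N') {a : ℝ} (ha : 1 / 4 ≤ a) :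
    ∑ n ∈ Ioc N N', (n : ℝ) ^ (-a - 1) ≤ 4 * ((N : ℝ) ^ (-a) - (N' : ℝ) ^ (-a)) := by
  induction N', hN' using Nat.le_induction with
  | base => simp
  | succ n hn ih =>
    have := step (x := n) (by exact_mod_cast hN.trans hn) ha
    rw [sum_Ioc_succ_top hn]
    push_cast
    linarith

theorem conj_pow (n : ℕ) (z : ℂ) :
    (starRingEnd ℂ) ((n : ℂ) ^ z) = (n : ℂ) ^ (starRingEnd ℂ z) := by
  rw [cpow_conj _ _ (by rw [natCast_arg]; exact Real.pi_ne_zero.symm), map_natCast]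

/-- the sums of the Gram matrix -/
theorem gram {q : ℕ} [NeZero q] (χ ψ : Ch q) {M M' : ℕ} (hM : 1 ≤ M) (hM' : M ≤ M') {z z' : ℂ}
    {P : ℝ} (hP : 0 ≤ P) (hc : ∀ ψ : Ch q, ψ ≠ 1 → ∀ a b : ℕ, ‖∑ k ∈ Ioc a b, ψ k‖ ≤ P)
    (h0 : 0 ≤ (z + starRingEnd ℂ z').re) (h3 : ‖z + starRingEnd ℂ z'‖ ≤ 3) :
    ‖∑ n ∈ Ioc M M', χ n * (n : ℂ) ^ (-z) * starRingEnd ℂ (ψ n * (n : ℂ) ^ (-z'))‖ ≤
      (if χ = ψ then (M' : ℝ) else 0) + 4 * P * (1 + Real.log M') := by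
  have e : ∀ n ∈ Ioc M M', χ n * (n : ℂ) ^ (-z) * starRingEnd ℂ (ψ n * (n : ℂ) ^ (-z')) =
      (χ * ψ⁻¹) n * (n : ℂ) ^ (-(z + starRingEnd ℂ z')) := fun n hn => by
    have hn0 : (n : ℂ) ≠ 0 := by
      have := (mem_Ioc.1 hn).1
      exact_mod_cast (by omega : n ≠ 0)
    have h1 : starRingEnd ℂ (ψ n) = ψ⁻¹ n := MulChar.star_apply' ψ _
    rw [map_mul, conj_pow, h1, map_neg, neg_add, cpow_add _ _ hn0, MulChar.mul_apply]
    ring
  rw [sum_congr rfl e]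
  have hl : (0 : ℝ) ≤ Real.log M' := Real.log_nonneg (by exact_mod_cast hM.trans hM')
  split_ifs with h
  · have h1 : ∀ n ∈ Ioc M M', ‖(χ * ψ⁻¹) n * (n : ℂ) ^ (-(z + starRingEnd ℂ z'))‖ ≤ 1 := by
      intro n hn
      have h2 := (mem_Ioc.1 hn).1
      rw [norm_mul, norm_natCast_cpow_of_pos (by omega)]
      exact mul_le_one₀ (DirichletCharacter.norm_le_one _ _) (by positivity)
        (Real.rpow_le_one_of_one_le_of_nonpos (by exact_mod_cast (by omega : 1 ≤ n))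
          (by rw [neg_re]; linarith))
    have h2 := (norm_sum_le _ _).trans (sum_le_card_nsmul _ _ _ h1)
    rw [Nat.card_Ioc, nsmul_eq_mul, mul_one] at h2
    have h4 : ((M' - M : ℕ) : ℝ) ≤ M' := by exact_mod_cast Nat.sub_le M' M
    have h5 : 0 ≤ 4 * P * (1 + Real.log M') := by positivity
    linarith
  · rw [zero_add]
    exact abel_le (fun n => (χ * ψ⁻¹) n) hM hM' hP h0 h3
      fun n => hc _ (fun h1 => h (mul_inv_eq_one.1 h1)) M n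

/-- duality -/
theorem dual {ι κ : Type} (J : Finset ι) (S : Finset κ) (u : κ → ℂ) (v : ι → κ → ℂ) :
    (∑ i ∈ J, ‖∑ n ∈ S, u n * v i n‖) ^ 2 ≤ (∑ n ∈ S, ‖u n‖ ^ 2) *
      ∑ i ∈ J, ∑ j ∈ J, ‖∑ n ∈ S, v i n * starRingEnd ℂ (v j n)‖ := by
  choose e he1 he2 using fun i => exists_norm_eq_mul_self (∑ n ∈ S, u n * v i n)
  have h1 : ((∑ i ∈ J, ‖∑ n ∈ S, u n * v i n‖ : ℝ) : ℂ) = ∑ n ∈ S, u n * ∑ i ∈ J, e i * v i n := by
    rw [ofReal_sum, sum_congr rfl fun i _ => he2 i]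
    simp only [mul_sum]
    rw [sum_comm]
    exact sum_congr rfl fun n _ => sum_congr rfl fun i _ => by ring
  have h2 : ∑ i ∈ J, ‖∑ n ∈ S, u n * v i n‖ ≤ ∑ n ∈ S, ‖u n‖ * ‖∑ i ∈ J, e i * v i n‖ := by
    refine (le_abs_self _).trans ?_
    rw [← Real.norm_eq_abs, ← norm_real, h1]
    exact (norm_sum_le _ _).trans (le_of_eq (sum_congr rfl fun n _ => norm_mul _ _))
  have h3 : ((∑ n ∈ S, ‖∑ i ∈ J, e i * v i n‖ ^ 2 : ℝ) : ℂ) = ∑ i ∈ J, ∑ j ∈ J,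
      e i * starRingEnd ℂ (e j) * ∑ n ∈ S, v i n * starRingEnd ℂ (v j n) := by
    push_cast
    have : ∀ n, ((‖∑ i ∈ J, e i * v i n‖ : ℝ) : ℂ) ^ 2 = ∑ i ∈ J, ∑ j ∈ J,
        e i * starRingEnd ℂ (e j) * (v i n * starRingEnd ℂ (v j n)) := fun n => by
      rw [← mul_conj', map_sum, sum_mul_sum]
      refine sum_congr rfl fun i _ => sum_congr rfl fun j _ => ?_
      rw [map_mul]
      ring
    rw [sum_congr rfl fun n _ => this n, sum_comm]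
    refine sum_congr rfl fun i _ => ?_
    rw [sum_comm]
    exact sum_congr rfl fun j _ => (mul_sum _ _ _).symm
  have h4 : ∑ n ∈ S, ‖∑ i ∈ J, e i * v i n‖ ^ 2 ≤
      ∑ i ∈ J, ∑ j ∈ J, ‖∑ n ∈ S, v i n * starRingEnd ℂ (v j n)‖ := by
    refine (le_abs_self _).trans ?_
    rw [← Real.norm_eq_abs, ← norm_real, h3]
    refine (norm_sum_le _ _).trans (sum_le_sum fun i _ => ?_)
    refine (norm_sum_le _ _).trans (sum_le_sum fun j _ => le_of_eq ?_)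
    rw [norm_mul, norm_mul, RCLike.norm_conj, he1, he1, one_mul, one_mul]
  refine (pow_le_pow_left₀ (by positivity) h2 2).trans ((sum_mul_sq_le_sq_mul_sq _ _ _).trans ?_)
  exact mul_le_mul_of_nonneg_left h4 (by positivity)

end Lv2L

open Lv2L

theorem lv2 : Lv2S := by
  classical
  intro q _ J ρ σ t b M M' D W P ⟨hσ, hσ1, hM, hM', hW, hb, hJ⟩ hP hc
  have hl : (0 : ℝ) ≤ Real.log M' := Real.log_nonneg (by exact_mod_cast hM.trans hM')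
  rcases J.eq_empty_or_nonempty with rfl | hne
  · rw [card_empty, Nat.cast_zero, zero_mul]
    positivity
  have hR : (0 : ℝ) < J.card := by exact_mod_cast hne.card_pos
  have h := dual J (Ioc M M') (fun n => b n * (n : ℂ) ^ (-(σ : ℂ)))
    fun χ n => χ n * (n : ℂ) ^ (-(ρ χ - σ))
  have h1 : J.card * W ≤ ∑ χ ∈ J, ‖∑ n ∈ Ioc M M',
      b n * (n : ℂ) ^ (-(σ : ℂ)) * (χ n * (n : ℂ) ^ (-(ρ χ - σ)))‖ := by
    rw [← nsmul_eq_mul]
    refine card_nsmul_le_sum _ _ _ fun χ hχ => (hJ χ hχ).2.2.2.trans (le_of_eq ?_)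
    refine congrArg _ (sum_congr rfl fun n hn => ?_)
    have hn0 : (n : ℂ) ≠ 0 := by
      have := (mem_Ioc.1 hn).1
      exact_mod_cast (by omega : n ≠ 0)
    rw [show -ρ χ = -(σ : ℂ) + -(ρ χ - σ) by ring, cpow_add _ _ hn0]
    ring
  have h2 : ∑ n ∈ Ioc M M', ‖b n * (n : ℂ) ^ (-(σ : ℂ))‖ ^ 2 ≤
      4 * D ^ 2 * (M : ℝ) ^ (1 - 2 * σ) := by
    have a := tail hM hM' (a := 2 * σ - 1) (by linarith)
    have c : (0 : ℝ) ≤ (M' : ℝ) ^ (-(2 * σ - 1)) := by positivity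
    rw [neg_sub] at a c
    refine (sum_le_sum (g := fun n : ℕ => D ^ 2 * (n : ℝ) ^ (1 - 2 * σ - 1)) fun n hn => ?_).trans ?_
    · have hn0 := (mem_Ioc.1 hn).1
      rw [norm_mul, norm_natCast_cpow_of_pos (by omega), mul_pow, ← Real.rpow_natCast _ 2,
        ← Real.rpow_natCast ((n : ℝ) ^ _) 2, ← Real.rpow_mul (by positivity), Real.rpow_natCast,
        neg_re, ofReal_re, show -σ * ((2 : ℕ) : ℝ) = 1 - 2 * σ - 1 by push_cast; ring]
      exact mul_le_mul_of_nonneg_right (pow_le_pow_left₀ (norm_nonneg _) (hb n hn) 2)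
        (by positivity)
    · rw [← mul_sum]
      nlinarith [sq_nonneg D]
  have h3 : ∑ χ ∈ J, ∑ ψ ∈ J, ‖∑ n ∈ Ioc M M', χ n * (n : ℂ) ^ (-(ρ χ - σ)) *
      starRingEnd ℂ (ψ n * (n : ℂ) ^ (-(ρ ψ - σ)))‖ ≤
      J.card * (M' + 4 * J.card * P * (1 + Real.log M')) := by
    rw [← nsmul_eq_mul]
    refine sum_le_card_nsmul _ _ _ fun χ hχ => ?_
    refine (sum_le_sum fun ψ hψ => gram χ ψ hM hM' hP hc ?_ ?_).trans (le_of_eq ?_)
    · simp only [add_re, sub_re, conj_re, ofReal_re]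
      linarith [(hJ χ hχ).1, (hJ ψ hψ).1]
    · refine (norm_le_abs_re_add_abs_im _).trans ?_
      simp only [add_re, sub_re, conj_re, ofReal_re, add_im, sub_im, conj_im, ofReal_im]
      obtain ⟨a1, a2, a3, -⟩ := hJ χ hχ
      obtain ⟨b1, b2, b3, -⟩ := hJ ψ hψ
      have c1 : |(ρ χ).re - σ + ((ρ ψ).re - σ)| ≤ 1 := abs_le.2 ⟨by linarith, by linarith⟩
      have c2 : |(ρ χ).im - 0 + -((ρ ψ).im - 0)| ≤ 2 :=
        abs_le.2 ⟨by linarith [(abs_le.1 a3).1, (abs_le.1 b3).2],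
          by linarith [(abs_le.1 a3).2, (abs_le.1 b3).1]⟩
      linarith
    · rw [sum_add_distrib, sum_ite_eq, if_pos hχ, sum_const, nsmul_eq_mul]
      ring
  have h5 : (0 : ℝ) ≤ 4 * D ^ 2 * (M : ℝ) ^ (1 - 2 * σ) := by positivity
  have h6 := mul_le_mul h2 h3 (sum_nonneg fun _ _ => sum_nonneg fun _ _ => norm_nonneg _) h5
  have h7 := pow_le_pow_left₀ (mul_pos hR hW).le h1 2
  have h4 := h7.trans (h.trans h6)
  clear h h1 h2 h3 h6 h7
  refine le_of_mul_le_mul_left ?_ hR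
  linarith

end Pool.Agent.MP_c5bf7b_nt.H25L

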