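import Pool.Agent.MP_c5bf7b_nt.H25L.SpecB

/-! The first theorem of Mertens with a continuous weight. -/

namespace Pool.Agent.MP_c5bf7b_nt.H25L

open Finset ArithmeticFunction Filter

namespace MerL

theorem upp {N : ℕ} (hN : 1 ≤ N) :
    ∑ d ∈ Ioc 0 N, vonMangoldt d / d ≤ Real.log N + (Real.log 4 + 4) := by
  have hN0 : (0 : ℝ) < N := by exact_mod_cast hN
  have h1 := sum_Ioc_mul_zeta_eq_sum vonMangoldt N
  rw [vonMangoldt_mul_zeta] at h1
  have h2 : ∑ n ∈ Ioc 0 N, ArithmeticFunction.log n ≤ N * Real.log N := by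
    calc ∑ n ∈ Ioc 0 N, ArithmeticFunction.log n ≤ ∑ _n ∈ Ioc 0 N, Real.log N :=
          sum_le_sum fun n hn => by
            rw [log_apply]
            exact Real.log_le_log (by exact_mod_cast (mem_Ioc.1 hn).1)
              (by exact_mod_cast (mem_Ioc.1 hn).2)
      _ = _ := by simp
  have h3 := Chebyshev.psi_le_const_mul_self hN0.le
  rw [Chebyshev.psi, Nat.floor_natCast] at h3
  have h4 : N * ∑ d ∈ Ioc 0 N, vonMangoldt d / d ≤
      ∑ n ∈ Ioc 0 N, vonMangoldt n * ((N / n : ℕ) : ℝ) + ∑ n ∈ Ioc 0 N, vonMangoldt n := by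
    rw [mul_sum, ← sum_add_distrib]
    refine sum_le_sum fun d hd => ?_
    have h5 : (N : ℝ) / d ≤ ((N / d : ℕ) : ℝ) + 1 := by
      rw [← Nat.floor_div_eq_div (K := ℝ)]
      exact (Nat.lt_floor_add_one _).le
    calc N * (vonMangoldt d / d) = vonMangoldt d * ((N : ℝ) / d) := by ring
      _ ≤ vonMangoldt d * (((N / d : ℕ) : ℝ) + 1) :=
          mul_le_mul_of_nonneg_left h5 vonMangoldt_nonneg
      _ = _ := by ring
  refine le_of_mul_le_mul_left ?_ hN0
  linarith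

theorem low {N : ℕ} (hN : 1 ≤ N) : Real.log N - 1 ≤ ∑ d ∈ Ioc 0 N, vonMangoldt d / d := by
  have hN0 : (0 : ℝ) < N := by exact_mod_cast hN
  have h1 := sum_Ioc_mul_zeta_eq_sum vonMangoldt N
  rw [vonMangoldt_mul_zeta] at h1
  have h2 : Real.log N.factorial = ∑ n ∈ Ioc 0 N, ArithmeticFunction.log n := by
    rw [← Finset.prod_Ico_id_eq_factorial, Nat.cast_prod, Real.log_prod]
    · rfl
    · intro x hx
      have := (mem_Ico.1 hx).1
      positivity
  have h3 : ∑ n ∈ Ioc 0 N, vonMangoldt n * ((N / n : ℕ) : ℝ) ≤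
      N * ∑ d ∈ Ioc 0 N, vonMangoldt d / d := by
    rw [mul_sum]
    refine sum_le_sum fun d _ => ?_
    calc vonMangoldt d * ((N / d : ℕ) : ℝ) ≤ vonMangoldt d * ((N : ℝ) / d) :=
          mul_le_mul_of_nonneg_left Nat.cast_div_le vonMangoldt_nonneg
      _ = _ := by ring
  have h4 : N * Real.log N - N ≤ Real.log N.factorial := by
    have h5 := Real.pow_div_factorial_le_exp (N : ℝ) hN0.le N
    have h6 : (0 : ℝ) < N.factorial := by exact_mod_cast N.factorial_pos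
    have h7 := Real.log_le_log (by positivity) h5
    rw [Real.log_exp, Real.log_div (by positivity) h6.ne', Real.log_pow] at h7
    linarith
  refine le_of_mul_le_mul_left ?_ hN0
  linarith

theorem fl_mono {q : ℕ} (hq : 2 ≤ q) {u v : ℝ} (h : u ≤ v) : ⌊(q : ℝ) ^ u⌋₊ ≤ ⌊(q : ℝ) ^ v⌋₊ :=
  Nat.floor_le_floor (Real.rpow_le_rpow_of_exponent_le (by exact_mod_cast one_le_two.trans hq) h)

theorem cell {q : ℕ} (hq : 2 ≤ q) {u v : ℝ} (hu : 0 ≤ u) (h : u ≤ v) :
    ∑ n ∈ Ioc ⌊(q : ℝ) ^ u⌋₊ ⌊(q : ℝ) ^ v⌋₊, lw q n ≤ v - u + 9 / Real.log q := by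
  have q1 : (1 : ℝ) < q := by exact_mod_cast hq
  have l0 := Real.log_pos q1
  have a1 : (1 : ℝ) ≤ (q : ℝ) ^ u := Real.one_le_rpow q1.le hu
  have a2 : 1 ≤ ⌊(q : ℝ) ^ u⌋₊ := Nat.le_floor (by simpa using a1)
  have a3 := fl_mono hq h
  have a4 : (1 : ℝ) ≤ ⌊(q : ℝ) ^ u⌋₊ := by exact_mod_cast a2
  have e := sum_Ioc_consecutive (fun d : ℕ => vonMangoldt d / (d : ℝ)) (Nat.zero_le _) a3
  have b1 := upp (a2.trans a3)
  have b2 := low a2
  have b3 : Real.log ⌊(q : ℝ) ^ v⌋₊ ≤ v * Real.log q := by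
    rw [← Real.log_rpow (by linarith)]
    exact Real.log_le_log (by exact_mod_cast a2.trans a3) (Nat.floor_le (by positivity))
  have b4 : u * Real.log q ≤ Real.log ⌊(q : ℝ) ^ u⌋₊ + 1 := by
    have h8 : (q : ℝ) ^ u ≤ 2 * (⌊(q : ℝ) ^ u⌋₊ : ℝ) := by
      linarith [Nat.lt_floor_add_one ((q : ℝ) ^ u)]
    have h9 := Real.log_le_log (by linarith) h8
    rw [Real.log_mul (by norm_num) (by linarith), Real.log_rpow (by linarith)] at h9
    linarith [Real.log_two_lt_d9]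
  have b5 : Real.log 4 ≤ 3 := by linarith [Real.log_le_sub_one_of_pos (by norm_num : (0 : ℝ) < 4)]
  simp only [lw, ← div_div, ← sum_div]
  rw [div_le_iff₀ l0, add_mul, div_mul_cancel₀ _ l0.ne']
  linarith

theorem un_mem {q n : ℕ} (hq : 2 ≤ q) {u v : ℝ} (hn : n ∈ Ioc ⌊(q : ℝ) ^ u⌋₊ ⌊(q : ℝ) ^ v⌋₊) :
    un q n ∈ Set.Icc u v := by
  have q1 : (1 : ℝ) < q := by exact_mod_cast hq
  have l0 := Real.log_pos q1
  obtain ⟨h1, h2⟩ := mem_Ioc.1 hn
  have a1 : (q : ℝ) ^ u < n := Nat.lt_of_floor_lt h1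
  have a2 : (n : ℝ) ≤ (q : ℝ) ^ v := (Nat.le_floor_iff (by positivity)).1 h2
  have p : (0 : ℝ) < (q : ℝ) ^ u := by positivity
  constructor
  · rw [un, le_div_iff₀ l0, ← Real.log_rpow (by linarith)]
    exact Real.log_le_log p a1.le
  · rw [un, div_le_iff₀ l0, ← Real.log_rpow (by linarith)]
    exact Real.log_le_log (p.trans a1) a2

theorem cellw {q : ℕ} (hq : 2 ≤ q) {u v w B : ℝ} {β : ℝ → ℝ} (hu : 0 ≤ u) (h : u ≤ v) (hw : 0 ≤ w)
    (hc : ContinuousOn β (Set.Icc u v)) (h0 : 0 ≤ β u) (hB : β u ≤ B)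
    (hβ : ∀ x ∈ Set.Icc u v, |β x - β u| ≤ w) :
    ∑ n ∈ Ioc ⌊(q : ℝ) ^ u⌋₊ ⌊(q : ℝ) ^ v⌋₊, lw q n * β (un q n) ≤
      (∫ x in u..v, β x) + (2 * w * (v - u) + (B + w) * (9 / Real.log q)) := by
  have l0 : 0 ≤ Real.log q := Real.log_natCast_nonneg q
  have a1 : ∑ n ∈ Ioc ⌊(q : ℝ) ^ u⌋₊ ⌊(q : ℝ) ^ v⌋₊, lw q n * β (un q n) ≤
      (v - u + 9 / Real.log q) * (β u + w) := by
    refine le_trans (sum_le_sum fun n hn => ?_) ((sum_mul _ _ _).symm.trans_le
      (mul_le_mul_of_nonneg_right (cell hq hu h) (by positivity)))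
    exact mul_le_mul_of_nonneg_left (by linarith [(abs_le.1 (hβ _ (un_mem hq hn))).2])
      (div_nonneg vonMangoldt_nonneg (by positivity))
  have a2 := intervalIntegral.integral_mono_on (μ := MeasureTheory.volume) h
    (intervalIntegrable_const (c := β u - w)) (hc.intervalIntegrable_of_Icc h)
    fun x hx => by linarith [(abs_le.1 (hβ x hx)).1]
  rw [intervalIntegral.integral_const, smul_eq_mul] at a2
  have a3 := mul_le_mul_of_nonneg_right hB (by positivity : 0 ≤ 9 / Real.log q)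
  nlinarith

end MerL

open MerL in
theorem mer : MerS := by
  intro a b ε β ha hab hε hc h0
  obtain ⟨B, hB⟩ := isCompact_Icc.exists_bound_of_continuousOn hc
  have hL : 0 < b - a + 1 := by linarith
  set w := ε / (4 * (b - a + 1)) with hw
  have w0 : 0 < w := by positivity
  obtain ⟨δ, δ0, hδ⟩ := Metric.uniformContinuousOn_iff_le.1
    (isCompact_Icc.uniformContinuousOn_of_continuous hc) w w0
  obtain ⟨m, hm⟩ := exists_nat_gt ((b - a) / δ)
  have m0 : (0 : ℝ) < m := lt_of_le_of_lt (div_nonneg (by linarith) δ0.le) hm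
  set h := (b - a) / m with hh
  have h1 : 0 ≤ h := div_nonneg (by linarith) m0.le
  have h2 : h ≤ δ := by
    rw [div_lt_iff₀ δ0] at hm
    rw [hh, div_le_iff₀ m0]
    linarith
  have h3 : m * h = b - a := by rw [hh]; field_simp
  obtain ⟨q₀, hq₀⟩ := eventually_atTop.1 ((eventually_ge_atTop 2).and
    ((Real.tendsto_log_atTop.comp tendsto_natCast_atTop_atTop).eventually_ge_atTop
      (18 * m * (B + w) / ε)))
  refine ⟨q₀, fun q hq => ?_⟩
  obtain ⟨q2, hl⟩ := hq₀ q hq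
  have l0 : 0 < Real.log q := Real.log_pos (by exact_mod_cast q2)
  have key : ∀ k : ℕ, k ≤ m → ∑ n ∈ Ioc ⌊(q : ℝ) ^ a⌋₊ ⌊(q : ℝ) ^ (a + k * h)⌋₊,
      lw q n * β (un q n) ≤ (∫ u in a..a + k * h, β u) +
        k * (2 * w * h + (B + w) * (9 / Real.log q)) := by
    intro k hk
    induction k with
    | zero => simp
    | succ k ih =>
      have k1 : ((k + 1 : ℕ) : ℝ) * h ≤ m * h :=
        mul_le_mul_of_nonneg_right (by exact_mod_cast hk) h1
      have k2 : a ≤ a + k * h := le_add_of_nonneg_right (by positivity)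
      push_cast at k1 ⊢
      have k3 : a + k * h ≤ a + (k + 1) * h := by linarith
      have s1 : Set.Icc (a + k * h) (a + (k + 1) * h) ⊆ Set.Icc a b :=
        Set.Icc_subset_Icc k2 (by linarith)
      have s2 : Set.Icc a (a + k * h) ⊆ Set.Icc a b := Set.Icc_subset_Icc le_rfl (by linarith)
      have s3 := s1 (Set.left_mem_Icc.2 k3)
      have c := cellw q2 (ha.trans k2) k3 w0.le (hc.mono s1) (h0 _ s3)
        ((le_abs_self _).trans (hB _ s3)) fun x hx => hδ x (s1 hx) _ s3 (by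
          rw [Real.dist_eq, abs_le]
          constructor <;> linarith [hx.1, hx.2])
      rw [← sum_Ioc_consecutive _ (fl_mono q2 k2) (fl_mono q2 k3),
        ← intervalIntegral.integral_add_adjacent_intervals
          ((hc.mono s2).intervalIntegrable_of_Icc k2) ((hc.mono s1).intervalIntegrable_of_Icc k3)]
      have := ih (by omega)
      linarith
  have f := key m le_rfl
  rw [h3, add_sub_cancel] at f
  have g1 : m * (2 * w * h) ≤ ε / 2 := by
    have : w * (4 * (b - a + 1)) = ε := by rw [hw]; field_simp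
    nlinarith
  have g2 : m * ((B + w) * (9 / Real.log q)) ≤ ε / 2 := by
    rw [Function.comp, div_le_iff₀ hε] at hl
    rw [← mul_div_assoc, ← mul_div_assoc, div_le_iff₀ l0]
    linarith
  linarith

end Pool.Agent.MP_c5bf7b_nt.H25L
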