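import Pool.Agent.MP_c5bf7b_nt.H25L.SpecA
import Pool.Agent.MP_c5bf7b_nt.H38.Mid

/-! The zeros far from the point `1` contribute a negative power of `q`. -/

set_option autoImplicit false

namespace Pool.Agent.MP_c5bf7b_nt.H25L

open Finset Complex Pool.Agent.MP_c5bf7b_nt.H38

namespace Mid5L

open MidL (bx)

theorem summ : Summable fun t : ℤ => (|(t : ℝ)| + 2) ^ (-(41 / 40) : ℝ) := by
  have h1 : Summable fun n : ℕ => ((n : ℝ) + 2) ^ (-(41 / 40) : ℝ) := by
    have := (summable_nat_add_iff 2).mpr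
      ((Real.summable_nat_rpow (p := -(41 / 40))).mpr (by norm_num))
    simpa using this
  refine Summable.of_nat_of_neg ?_ ?_
  · simpa using h1
  · simpa using h1

theorem HK_le (hA : HkS) (K l : ℝ) (hK : 0 < K) (hK4 : K ≤ 1 / 4) (hl : 1 ≤ l) (ζ : ℂ)
    (h : 0 < ζ.re) :
    ‖HK K ζ‖ ≤ 144 / (|((round (ζ.im / l) : ℤ) : ℝ)| + 2) ^ 2 := by
  obtain ⟨h1, -, h2⟩ := hA.2 K ζ hK h
  have hl0 : 0 < l := by linarith
  set t : ℤ := round (ζ.im / l) with ht
  by_cases h0 : t = 0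
  · rw [h0]
    have e5 : K ^ 2 ≤ (1 / 4) ^ 2 := by gcongr
    norm_num at e5 ⊢
    linarith
  · have t1 : (1 : ℝ) ≤ |(t : ℝ)| := by
      have : (1 : ℤ) ≤ |t| := Int.one_le_abs h0
      exact_mod_cast this
    have r1 : |ζ.im / l - t| ≤ 1 / 2 := abs_sub_round _
    have r2 : |(t : ℝ)| - 1 / 2 ≤ |ζ.im / l| := by
      have := abs_sub_abs_le_abs_sub (t : ℝ) (ζ.im / l)
      rw [abs_sub_comm] at r1
      linarith
    have r3 : |ζ.im / l| ≤ |ζ.im| := by
      rw [abs_div, abs_of_pos hl0]; exact div_le_self (abs_nonneg _) hl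
    have r4 : |ζ.im| ≤ ‖ζ‖ := Complex.abs_im_le_norm ζ
    have r5 : (|(t : ℝ)| + 2) / 6 ≤ ‖ζ‖ := by linarith
    have r6 : 0 < (|(t : ℝ)| + 2) / 6 := by positivity
    calc ‖HK K ζ‖ ≤ 4 / ‖ζ‖ ^ 2 := h1
      _ ≤ 4 / ((|(t : ℝ)| + 2) / 6) ^ 2 := by gcongr
      _ = 144 / (|(t : ℝ)| + 2) ^ 2 := by field_simp; norm_num

theorem HE_le (hA : HkS) (K E l : ℝ) (hK : 0 < K) (hK4 : K ≤ 1 / 4) (hE : 0 ≤ E) (hl : 1 ≤ l)
    (ζ : ℂ) (h : 0 < ζ.re) :
    ‖HE K E ζ‖ ≤ Real.exp (-E * (bx l ζ).1) * (144 / (|((bx l ζ).2 : ℝ)| + 2) ^ 2) := by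
  have e : ‖HE K E ζ‖ = Real.exp (-E * ζ.re) * ‖HK K ζ‖ := by
    rw [HE, norm_mul, Complex.norm_exp]; simp
  rw [e]
  have f1 : ((⌊ζ.re⌋₊ : ℕ) : ℝ) ≤ ζ.re := Nat.floor_le h.le
  have f2 : Real.exp (-E * ζ.re) ≤ Real.exp (-E * (⌊ζ.re⌋₊ : ℕ)) :=
    Real.exp_le_exp.mpr (by nlinarith)
  exact mul_le_mul f2 (HK_le hA K l hK hK4 hl ζ h) (norm_nonneg _) (Real.exp_pos _).le

/-- the numerical estimate for one box -/
theorem box_num (E δ η μ ε l CD j a n : ℝ) (hE : 11 / 4 < E) (hl : 0 < l) (hμ1 : μ ≤ (E - 11 / 4) * δ)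
    (hμ2 : μ ≤ η / 40) (hε : 0 ≤ ε) (hCD : 1 ≤ CD) (hj : 0 ≤ j) (ha : 0 ≤ a)
    (hn : n ≤ 1 + CD * (Real.exp (ε * l) * Real.exp (11 / 4 * (j + 1))) * (a + 2) ^ (19 / 20 : ℝ))
    (hP : δ * l ≤ j + 1 ∨ Real.exp (η * l) ≤ a + 2) :
    n * (Real.exp (-E * j) * (144 / (a + 2) ^ 2)) ≤
      288 * CD * Real.exp E * Real.exp ((ε - μ) * l) * (a + 2) ^ (-(41 / 40) : ℝ) := by
  have a2 : (1 : ℝ) ≤ a + 2 := by linarith
  have a0 : (0 : ℝ) < a + 2 := by linarith
  set L := Real.log (a + 2) with hL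
  have L0 : 0 ≤ L := Real.log_nonneg a2
  have p1 : (a + 2) ^ (19 / 20 : ℝ) = Real.exp (19 / 20 * L) := by
    rw [Real.rpow_def_of_pos a0, mul_comm]
  have p2 : (a + 2) ^ (-(41 / 40) : ℝ) = Real.exp (-(41 / 40) * L) := by
    rw [Real.rpow_def_of_pos a0, mul_comm]
  have p3 : 144 / (a + 2) ^ 2 = 144 * Real.exp (-2 * L) := by
    have : Real.exp (-2 * L) = ((a + 2) ^ 2)⁻¹ := by
      rw [show -2 * L = -(L + L) by ring, Real.exp_neg, Real.exp_add, hL, Real.exp_log a0, sq]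
    rw [this, div_eq_mul_inv]
  rw [p1] at hn
  rw [p2, p3]
  have q1 : Real.exp (ε * l) * Real.exp (11 / 4 * (j + 1)) * Real.exp (19 / 20 * L) =
      Real.exp (ε * l + 11 / 4 * (j + 1) + 19 / 20 * L) := by
    rw [Real.exp_add, Real.exp_add]
  have q2 : 1 ≤ Real.exp (ε * l + 11 / 4 * (j + 1) + 19 / 20 * L) :=
    Real.one_le_exp (by positivity)
  have hn' : n ≤ 2 * CD * Real.exp (ε * l + 11 / 4 * (j + 1) + 19 / 20 * L) := by
    rw [mul_assoc CD, q1] at hn
    nlinarith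
  have key : ε * l + 11 / 4 * (j + 1) + 19 / 20 * L + (-E * j + -2 * L) ≤
      E + (ε - μ) * l + -(41 / 40) * L := by
    rcases hP with hP | hP
    · have h1 : (E - 11 / 4) * (δ * l) ≤ (E - 11 / 4) * (j + 1) := by
        apply mul_le_mul_of_nonneg_left hP; linarith
      have h2 : μ * l ≤ (E - 11 / 4) * δ * l := mul_le_mul_of_nonneg_right hμ1 hl.le
      nlinarith
    · have h1 : η * l ≤ L := by
        rw [hL, Real.le_log_iff_exp_le a0]; exact hP
      have h2 : μ * l ≤ η / 40 * l := mul_le_mul_of_nonneg_right hμ2 hl.le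
      have h3 : 0 ≤ (E - 11 / 4) * j := mul_nonneg (by linarith) hj
      nlinarith
  calc n * (Real.exp (-E * j) * (144 * Real.exp (-2 * L)))
      ≤ (2 * CD * Real.exp (ε * l + 11 / 4 * (j + 1) + 19 / 20 * L)) *
        (Real.exp (-E * j) * (144 * Real.exp (-2 * L))) := by gcongr
    _ = 288 * CD * Real.exp (ε * l + 11 / 4 * (j + 1) + 19 / 20 * L + (-E * j + -2 * L)) := by
        rw [Real.exp_add (ε * l + 11 / 4 * (j + 1) + 19 / 20 * L), Real.exp_add (-E * j)]; ring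
    _ ≤ 288 * CD * Real.exp (E + (ε - μ) * l + -(41 / 40) * L) := by gcongr
    _ = _ := by rw [Real.exp_add, Real.exp_add]; ring

end Mid5L

open Mid5L MidL in
theorem mid5Of : Mid5Of := by
  classical
  intro hC hA hD K₀ E δ η hK₀ hK4 hE hδ hη
  obtain ⟨C, hC1, hC⟩ := hC
  set μ : ℝ := min ((E - 11 / 4) * δ) (η / 40) with hμ
  have hμ0 : 0 < μ := lt_min (mul_pos (by linarith) hδ) (by linarith)
  obtain ⟨CD, hCD1, hD⟩ := hD (μ / 3) (by linarith)
  set K : ℝ := ∑' t : ℤ, (|(t : ℝ)| + 2) ^ (-(41 / 40) : ℝ) with hK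
  obtain ⟨q₀, hq₀⟩ := big (C * (288 * CD * Real.exp E) * K) (μ / 3) (by linarith)
  refine ⟨μ / 3, by linarith, q₀, fun q _ hq N hN => ?_⟩
  obtain ⟨hq3, hl2, hbig⟩ := hq₀ q hq
  have hq0 : (0 : ℝ) < q := by exact_mod_cast (by omega : 0 < q)
  set l := Real.log q with hl
  have hl0 : 0 < l := by linarith
  have hpow : ∀ x : ℝ, (q : ℝ) ^ x = Real.exp (x * l) := fun x => by
    rw [Real.rpow_def_of_pos hq0, mul_comm]
  have hZ := fun χ : Ch q => ((hC q χ (by omega)).2 (N χ) (hN χ))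
  set P : ℂ → Prop := fun ζ => δ * l ≤ ζ.re ∨ (q : ℝ) ^ η * l < |ζ.im| with hP
  set T : ℤ := (q : ℤ) ^ 3 + 1 with hT
  set B : Finset (ℕ × ℤ) := range (⌊3 / 8 * l⌋₊ + 1) ×ˢ Icc (-T) T with hB
  set W : ℕ × ℤ → ℝ := fun b => Real.exp (-E * b.1) * (144 / (|(b.2 : ℝ)| + 2) ^ 2) with hW
  have hW0 : ∀ b, 0 ≤ W b := fun b => by simp only [hW]; positivity
  set J : ℕ × ℤ → Finset (Ch q) := fun b => univ.filter fun χ => ∃ ζ ∈ N χ, P ζ ∧ bx l ζ = b
    with hJ
  -- one character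
  have one : ∀ χ : Ch q, (((N χ).filter P).map fun ζ => ‖HE K₀ E ζ‖).sum ≤
      ∑ b ∈ B, (if χ ∈ J b then C * l * W b else 0) := by
    intro χ
    refine le_trans (sum_le_boxes _ B (bx l) _ W ?_) (Finset.sum_le_sum fun b _ => ?_)
    · intro ζ hζ
      obtain ⟨z1, z2, z3, -⟩ := (hZ χ).2 ζ (Multiset.mem_of_mem_filter hζ)
      refine ⟨?_, HE_le hA K₀ E l hK₀ hK4 (by linarith) (by linarith) ζ z1⟩
      simp only [hB, mem_product, mem_range, mem_Icc, bx]
      refine ⟨Nat.lt_succ_of_le (Nat.floor_le_floor z2), ?_⟩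
      have r1 : |ζ.im / l - round (ζ.im / l)| ≤ 1 / 2 := abs_sub_round _
      have r2 : |ζ.im / l| ≤ (q : ℝ) ^ 3 := by
        rw [abs_div, abs_of_pos hl0, div_le_iff₀ hl0]; exact z3
      have r3 : |((round (ζ.im / l) : ℤ) : ℝ)| ≤ (T : ℝ) := by
        have := abs_sub_abs_le_abs_sub ((round (ζ.im / l) : ℤ) : ℝ) (ζ.im / l)
        rw [abs_sub_comm] at r1
        rw [hT]; push_cast; linarith
      have r4 : |round (ζ.im / l)| ≤ T := by exact_mod_cast r3
      exact abs_le.mp r4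
    · by_cases hχ : χ ∈ J b
      · rw [if_pos hχ]
        apply mul_le_mul_of_nonneg_right _ (hW0 b)
        refine le_trans ?_ ((hZ χ).1 (b.2 * l))
        have : (((N χ).filter P).filter fun a => bx l a = b) ≤
            (N χ).filter fun ζ => |ζ.im - b.2 * l| ≤ l := by
          rw [Multiset.filter_filter]
          apply Multiset.monotone_filter_right
          intro ζ hζ
          have hb : (b.2 : ℝ) = ((round (ζ.im / l) : ℤ) : ℝ) := by rw [← hζ.1]; rfl
          have r1 : |ζ.im / l - round (ζ.im / l)| ≤ 1 / 2 := abs_sub_round _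
          have r2 : ζ.im - b.2 * l = (ζ.im / l - round (ζ.im / l)) * l := by
            rw [hb]; field_simp
          show |ζ.im - b.2 * l| ≤ l
          rw [r2, abs_mul, abs_of_pos hl0]
          nlinarith
        have h2 := Multiset.card_le_card this
        refine Nat.cast_le.mpr ?_
        convert h2
      · rw [if_neg hχ]
        have : (((N χ).filter P).filter fun a => bx l a = b) = 0 := by
          rw [Multiset.filter_eq_nil]
          intro ζ hζ hb
          apply hχ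
          simp only [hJ, mem_filter, mem_univ, true_and]
          exact ⟨ζ, Multiset.mem_of_mem_filter hζ, Multiset.of_mem_filter hζ, hb⟩
        have h2 : (((((N χ).filter P).filter fun a => bx l a = b).card : ℕ) : ℝ) = 0 := by
          rw [this]; simp
        have h3 : ∀ x : ℝ, x = 0 → x * W b ≤ 0 := fun x hx => by rw [hx]; simp
        apply h3
        convert h2
  -- one box
  have two : ∀ b : ℕ × ℤ, ((J b).card : ℝ) * W b ≤
      288 * CD * Real.exp E * Real.exp ((μ / 3 - μ) * l) * (|(b.2 : ℝ)| + 2) ^ (-(41 / 40) : ℝ) := by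
    intro b
    rcases (J b).eq_empty_or_nonempty with h0 | ⟨χ₀, hχ₀⟩
    · rw [h0]; simp only [card_empty, Nat.cast_zero, zero_mul]; positivity
    have hex : ∀ χ : Ch q, ∃ ζ : ℂ, χ ∈ J b → ζ ∈ N χ ∧ P ζ ∧ bx l ζ = b := by
      intro χ
      by_cases hχ : χ ∈ J b
      · have := hχ
        simp only [hJ, mem_filter, mem_univ, true_and] at this
        obtain ⟨ζ, h1, h2⟩ := this
        exact ⟨ζ, fun _ => ⟨h1, h2⟩⟩
      · exact ⟨0, fun h => absurd h hχ⟩
    choose z hz using hex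
    have hfl : ∀ χ ∈ J b, (b.1 : ℝ) ≤ (z χ).re ∧ (z χ).re < b.1 + 1 ∧
        |(z χ).im / l - b.2| ≤ 1 / 2 := by
      intro χ hχ
      obtain ⟨h1, -, h3⟩ := hz χ hχ
      obtain ⟨z1, -⟩ := (hZ χ).2 _ h1
      have e1 : b.1 = ⌊(z χ).re⌋₊ := by rw [← h3]; rfl
      have e2 : b.2 = round ((z χ).im / l) := by rw [← h3]; rfl
      rw [e1, e2]
      exact ⟨Nat.floor_le z1.le, Nat.lt_floor_add_one _, abs_sub_round _⟩
    apply Mid5L.box_num E δ η μ (μ / 3) l CD b.1 |(b.2 : ℝ)| _ hE hl0 (min_le_left _ _)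
      (min_le_right _ _) (by linarith) hCD1 (Nat.cast_nonneg _) (abs_nonneg _)
    · set σ : ℝ := max (5 / 8) (1 - (b.1 + 1) / l) with hσ
      have hσ1 : σ ≤ 1 := max_le (by norm_num) (by
        have : (0 : ℝ) ≤ (b.1 + 1) / l := by positivity
        linarith)
      have hd := hD q σ (-(b.2 : ℝ)) ((J b).erase 1) (fun χ => 1 - z χ / l) (le_max_left _ _) hσ1
        (by
          intro χ hχ
          have h1 : χ ≠ 1 := ne_of_mem_erase hχ
          have h2 : χ ∈ J b := mem_of_mem_erase hχ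
          obtain ⟨z1, z2, -, z4⟩ := (hZ χ).2 _ (hz χ h2).1
          obtain ⟨-, f2, f3⟩ := hfl χ h2
          have re : (1 - z χ / l : ℂ).re = 1 - (z χ).re / l := by
            simp [Complex.div_ofReal_re]
          have im : (1 - z χ / l : ℂ).im = -((z χ).im / l) := by
            simp [Complex.div_ofReal_im]
          refine ⟨h1, ?_, ?_, ?_, ?_⟩
          · have : Phi χ = DirichletCharacter.LFunction χ := by
              unfold Phi; rw [if_neg h1]
            rw [← this]; exact z4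
          · rw [re]
            apply max_le
            · have : (z χ).re / l ≤ 3 / 8 := by rw [div_le_iff₀ hl0]; linarith
              linarith
            · have : (z χ).re / l ≤ (b.1 + 1) / l := by gcongr
              linarith
          · rw [re]
            have : 0 ≤ (z χ).re / l := by positivity
            linarith
          · rw [im, show -((z χ).im / l) - -(b.2 : ℝ) = -((z χ).im / l - b.2) by ring, abs_neg]
            linarith)
      have hc : ((J b).card : ℝ) ≤ 1 + (((J b).erase 1).card : ℝ) := by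
        have := Finset.pred_card_le_card_erase (s := J b) (a := (1 : Ch q))
        have h2 : (J b).card ≤ 1 + ((J b).erase 1).card := by omega
        exact_mod_cast h2
      rw [abs_neg, hpow] at hd
      have he : Real.exp ((μ / 3 + 11 / 4 * (1 - σ)) * l) ≤
          Real.exp (μ / 3 * l) * Real.exp (11 / 4 * (b.1 + 1)) := by
        rw [← Real.exp_add]
        apply Real.exp_le_exp.mpr
        have h1 : 1 - σ ≤ (b.1 + 1) / l := by
          have : 1 - ((b.1 : ℝ) + 1) / l ≤ σ := le_max_right _ _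
          linarith
        have h2 : (1 - σ) * l ≤ b.1 + 1 := by rwa [le_div_iff₀ hl0] at h1
        nlinarith
      have : CD * Real.exp ((μ / 3 + 11 / 4 * (1 - σ)) * l) * (|(b.2 : ℝ)| + 2) ^ (19 / 20 : ℝ) ≤
          CD * (Real.exp (μ / 3 * l) * Real.exp (11 / 4 * (b.1 + 1))) *
            (|(b.2 : ℝ)| + 2) ^ (19 / 20 : ℝ) := by gcongr
      linarith
    · obtain ⟨-, f2, f3⟩ := hfl χ₀ hχ₀
      rcases (hz χ₀ hχ₀).2.1 with h | h
      · left; linarith
      · right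
        rw [hpow] at h
        have r2 : Real.exp (η * l) < |(z χ₀).im / l| := by
          rw [abs_div, abs_of_pos hl0, lt_div_iff₀ hl0]; exact h
        have := abs_sub_abs_le_abs_sub ((z χ₀).im / l) (b.2 : ℝ)
        linarith
  have hK0 : ∑ t ∈ Icc (-T) T, (|(t : ℝ)| + 2) ^ (-(41 / 40) : ℝ) ≤ K :=
    Mid5L.summ.sum_le_tsum _ (fun t _ => by positivity)
  have hcnt : ((⌊3 / 8 * l⌋₊ + 1 : ℕ) : ℝ) ≤ l := by
    have : ((⌊3 / 8 * l⌋₊ : ℕ) : ℝ) ≤ 3 / 8 * l := Nat.floor_le (by positivity)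
    push_cast; linarith
  set A : ℝ := 288 * CD * Real.exp E * Real.exp ((μ / 3 - μ) * l) with hA'
  have hA0 : 0 ≤ A := by simp only [hA']; positivity
  have hKn : 0 ≤ K := le_trans (Finset.sum_nonneg fun t _ => by positivity) hK0
  calc WK N K₀ E P ≤ ∑ χ : Ch q, ∑ b ∈ B, (if χ ∈ J b then C * l * W b else 0) := by
        unfold WK
        refine Finset.sum_le_sum fun χ _ => ?_
        refine le_trans (le_of_eq ?_) (one χ)
        congr
    _ = ∑ b ∈ B, C * l * (((J b).card : ℝ) * W b) := by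
        rw [Finset.sum_comm]
        refine Finset.sum_congr rfl fun b _ => ?_
        rw [← Finset.sum_filter]
        simp only [filter_mem_eq_inter, univ_inter, sum_const, nsmul_eq_mul]
        ring
    _ ≤ ∑ b ∈ B, C * l * (A * (|(b.2 : ℝ)| + 2) ^ (-(41 / 40) : ℝ)) := by
        refine Finset.sum_le_sum fun b _ => ?_
        exact mul_le_mul_of_nonneg_left (two b) (by positivity)
    _ = ((⌊3 / 8 * l⌋₊ + 1 : ℕ) : ℝ) *
          (C * l * A * ∑ t ∈ Icc (-T) T, (|(t : ℝ)| + 2) ^ (-(41 / 40) : ℝ)) := by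
        rw [hB, Finset.sum_product]
        simp only [sum_const, card_range, nsmul_eq_mul, Finset.mul_sum]
        refine Finset.sum_congr rfl fun t _ => ?_
        ring
    _ ≤ l * (C * l * A * K) := by gcongr
    _ = C * (288 * CD * Real.exp E) * K * l ^ 2 * Real.exp ((μ / 3 - μ) * l) := by
        rw [hA']; ring
    _ ≤ Real.exp (μ / 3 * l) * Real.exp ((μ / 3 - μ) * l) := by gcongr
    _ = (q : ℝ) ^ (-(μ / 3)) := by
        rw [hpow, ← Real.exp_add]; congr 1; ring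

end Pool.Agent.MP_c5bf7b_nt.H25L
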