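import Pool.Agent.MP_c5bf7b_nt.H25L.SpecC
import Pool.Agent.MP_c5bf7b_nt.H38.Near

/-! The sum over the zeros close to the line `re s = 1`. -/

set_option autoImplicit false

namespace Pool.Agent.MP_c5bf7b_nt.H25L

open Finset Complex Pool.Agent.MP_c5bf7b_nt.H38 Pool.Agent.MP_c5bf7b_nt.H38.Near

namespace Near5L

theorem wk_split {q : ℕ} [NeZero q] (N : Ch q → Multiset ℂ) (K e : ℝ) (P Q R : ℂ → Prop)
    (h : ∀ ζ, P ζ → Q ζ ∨ R ζ) : WK N K e P ≤ WK N K e Q + WK N K e R := by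
  unfold WK
  rw [← Finset.sum_add_distrib]
  exact Finset.sum_le_sum fun χ _ => split_one _ _ (fun _ => norm_nonneg _) P Q R h

open Classical in
theorem ee_A {q : ℕ} [NeZero q] (χ₁ : Ch q) (ζ₁ : ℂ) (h : χ₁ ≠ χ₁⁻¹) :
    (univ.filter fun χ => EE χ₁ ζ₁ χ ≠ 0).card = 2 ∧
      ∀ χ, EE χ₁ ζ₁ χ ≠ 0 → (EE χ₁ ζ₁ χ).card = 1 := by
  constructor
  · have := sum_A χ₁ ζ₁ (fun _ => 1) h
    rw [sum_const, nsmul_eq_mul, mul_one, mul_one] at this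
    exact_mod_cast this
  · intro χ hχ
    by_cases h1 : χ = χ₁
    · subst h1
      unfold EE
      simp [h]
    · by_cases h2 : χ = χ₁⁻¹
      · subst h2
        unfold EE
        simp [h, h.symm]
      · exact absurd (ee_zero _ _ _ h1 h2) hχ

open Classical in
theorem ee_B {q : ℕ} [NeZero q] (χ₁ : Ch q) (ζ₁ : ℂ) (h : χ₁ = χ₁⁻¹) :
    (univ.filter fun χ => EE χ₁ ζ₁ χ ≠ 0).card = 1 ∧
      ∀ χ, EE χ₁ ζ₁ χ ≠ 0 → (ζ₁.im = 0 → (EE χ₁ ζ₁ χ).card = 1) ∧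
        (ζ₁.im ≠ 0 → (EE χ₁ ζ₁ χ).card = 2) := by
  refine ⟨by rw [filter_real _ _ h, card_singleton], fun χ hχ => ?_⟩
  obtain rfl : χ = χ₁ := by
    by_contra hc
    exact hχ (ee_zero _ _ _ hc (by rw [← h]; exact hc))
  unfold EE
  refine ⟨fun hi => ?_, fun hi => ?_⟩
  · rw [if_pos rfl, if_neg fun hc => hc.2 ⟨h, hi⟩]
    simp
  · rw [if_pos rfl, if_pos ⟨h, fun hc => hi hc.2⟩]
    simp

theorem err_le {C' D K M L l e m : ℝ} (hC : 1 ≤ C') (hD : 1 ≤ D) (hK : 0 < K)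
    (hM : 800 * D * (1 / K + 2) ≤ M) (hL : 800 * C' * D / K ^ 2 ≤ L) (he : 2 ≤ e)
    (hm : Real.exp (-l) ≤ D * m) :
    K ^ 2 * ((1 / K + 2) * Real.exp (-e * max M l)) + C' * Real.exp (-l) / L ≤
      K ^ 2 * (m / 400) := by
  have hE := Real.exp_pos (-l)
  have hA : 0 < 1 / K + 2 := by positivity
  have hK2 : 0 < K ^ 2 := by positivity
  have hL0 : 0 < L := lt_of_lt_of_le (by positivity) hL
  have hM0 : 0 < M := lt_of_lt_of_le (by positivity) hM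
  generalize 1 / K + 2 = A at hA hM
  have h1 : Real.exp (-e * max M l) ≤ Real.exp (-M) * Real.exp (-l) := by
    rw [← Real.exp_add]
    refine Real.exp_le_exp.2 ?_
    have a1 := le_max_left M l
    have a2 := le_max_right M l
    nlinarith
  have a3 := Real.exp_pos (-M)
  have h2 : Real.exp (-M) * (800 * D * A) ≤ 1 := by
    have a1 := Real.add_one_le_exp M
    have a2 : Real.exp (-M) * Real.exp M = 1 := by rw [← Real.exp_add]; simp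
    nlinarith
  have hm0 : 0 < m := by
    by_contra hc
    push Not at hc
    nlinarith
  have h3 : A * Real.exp (-e * max M l) ≤ m / 800 := by
    have a4 := mul_le_mul_of_nonneg_left (h1.trans (mul_le_mul_of_nonneg_left hm a3.le)) hA.le
    have a5 := mul_le_mul_of_nonneg_right h2 hm0.le
    linarith
  have h4 : C' * Real.exp (-l) / L ≤ K ^ 2 * (m / 800) := by
    rw [div_le_iff₀ hL0]
    rw [div_le_iff₀ hK2] at hL
    have a4 : C' * Real.exp (-l) ≤ C' * (D * m) := mul_le_mul_of_nonneg_left hm (by linarith)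
    have a5 := mul_le_mul_of_nonneg_right hL hm0.le
    linarith
  have h5 := mul_le_mul_of_nonneg_left h3 hK2.le
  linarith

end Near5L

open Near5L

theorem near5Of : Near5Of := by
  classical
  intro hWin hLs hOrd hL1 hL2 hLc hSum hOut hD K E g Ds Es hK hK1 hE hE5 hN C hC1
  obtain ⟨C', hC', hOut⟩ := hOut C hC1
  obtain ⟨D, hD1, hD⟩ := hD
  refine ⟨max 10 (800 * D * (1 / K + 2)), max 100 (800 * C' * D / K ^ 2), le_max_left _ _, ?_⟩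
  intro q _ N Lm Th s env hL hLm hTh hs0 hs1 hreal hsL
  have hM := le_max_right 10 (800 * D * (1 / K + 2))
  generalize max 10 (800 * D * (1 / K + 2)) = M at env hM
  have old := env.old
  have hlm := old.lm
  have hM10 := old.m
  have hg := hN.g1
  have hq : 0 < Real.log q := Real.log_pos (by have := old.two; exact_mod_cast this)
  obtain ⟨T, hT0, hT2, hW⟩ := hWin q N Lm (100000 * Real.log q) (by linarith) (by linarith) old.pos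
  have hT1 : Real.log q ≤ T := by linarith
  have hT20 : 20 * T ≤ Th := by linarith
  have hT10 : 10 * T ≤ Th := by linarith
  have hT3 : 3 * T ≤ Th := by linarith
  have hT4 : T ≤ Th := by linarith
  have hsp := wk_split N K E (fun ζ => ζ.re < Lm ∧ |ζ.im| ≤ Th) (fun ζ => ζ.re < Lm ∧ |ζ.im| ≤ T)
    (fun ζ => ζ.re < Lm ∧ T < |ζ.im| ∧ |ζ.im| ≤ Th) (by
      intro ζ h
      rcases le_or_gt |ζ.im| T with h' | h'
      · exact Or.inl ⟨h.1, h'⟩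
      · exact Or.inr ⟨h.1, h', h.2⟩)
  have key : ∀ (X : Ch q → Multiset ℂ) (l₁ l₂ m : ℝ) (nm per : ℕ), (∀ χ, X χ ≤ N χ) → X 1 = 0 →
      (∀ χ, ∀ ζ ∈ X χ, ζ.re = l₁ ∧ |ζ.im| ≤ T) → (univ.filter fun χ => X χ ≠ 0).card = nm →
      (∀ χ, X χ ≠ 0 → (X χ).card = per) → Far N X T l₂ → (nm ≠ 0 → Far N 0 T l₁ ∧ l₁ ≤ Lm) →
      Crt K E Ds Es nm per l₁ (l₂ - c0) (1 - m / 200) → Real.exp (-l₂) ≤ D * m → s ≤ m →
      WK N K E (fun ζ => ζ.re < Lm ∧ |ζ.im| ≤ Th) ≤ K ^ 2 * (1 - s / 400) := by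
    intro X l₁ l₂ m nm per h1 h2 h3 h4 h5 h6 h7 h8 h9 h10
    have a1 := hSum q N X K E Ds Es Lm Th C M T l₁ l₂ _ nm per env hK hK1 (by linarith) h1 h2 h3 h4
      h5 h6 h7 hT0 hT20 h8
    have a2 := hOut q N X K Lm Th M T l₂ E old (fun χ ζ h => (h3 χ ζ h).2) h6 hT1 hK hE hE5
    have a3 := err_le (e := E) hC' hD1 hK hM ((le_max_right _ _).trans hL) (by linarith) h9
    have a4 := mul_le_mul_of_nonneg_left h10 (sq_nonneg K)
    linarith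
  have hexp : ∀ l : ℝ, 0 ≤ l → Real.exp (-l) ≤ D * 1 := fun l hl => by
    have : Real.exp (-l) ≤ 1 := Real.exp_le_one_iff.2 (by linarith)
    linarith
  have hgen : ∀ l : ℝ, 0 ≤ l → g ≤ l → Far N 0 T l →
      WK N K E (fun ζ => ζ.re < Lm ∧ |ζ.im| ≤ Th) ≤ K ^ 2 * (1 - s / 400) := fun l h0 hl hF =>
    key 0 l l 1 0 0 (fun χ => by simp) rfl (fun χ ζ h => by simp at h) (by simp)
      (fun χ h => absurd rfl h) hF (fun h => absurd rfl h) (hN.G l hl) (hexp l h0) hs1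
  rcases hW with hF | ⟨l₁, l₂, χ₁, ζ₁, hW⟩
  · exact hgen Lm (by linarith) (by linarith) hF
  have hz : ζ₁ ∈ N χ₁ := Multiset.mem_of_le (hW.le χ₁) (ee_self χ₁ ζ₁)
  have hl1 : 0 < l₁ := by rw [← hW.re]; exact (old.pos χ₁ ζ₁ hz).1
  have hl12 := hW.l12
  rcases le_total g l₁ with hg1 | hg1
  · exact hgen l₁ hl1.le hg1 hW.far0
  have h1 : χ₁ ≠ 1 := by
    rintro rfl
    have := old.zeta ζ₁ hz (hW.im.trans hT4)
    rw [hW.re] at this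
    linarith
  have hE1 : EE χ₁ ζ₁ 1 = 0 := ee_zero _ _ _ (Ne.symm h1) fun h => h1 (inv_eq_one.1 h.symm)
  have key' := fun m nm per h4 h5 => key (EE χ₁ ζ₁) l₁ l₂ m nm per hW.le hE1
    (fun χ ζ h => ⟨(ee_mem _ _ _ _ h).1.trans hW.re, (ee_mem _ _ _ _ h).2.le.trans hW.im⟩) h4 h5
    hW.far fun _ => ⟨hW.far0, hl12.trans hW.l2⟩
  by_cases hr : χ₁ = χ₁⁻¹ ∧ ζ₁.im = 0
  · have hs2 : s ≤ l₁ := by rw [← hW.re]; exact hreal χ₁ hr.1 h1 ζ₁ hz hr.2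
    have h2 : LCI l₁ l₂ ∨ (100 ≤ l₂ ∧ Real.exp (-l₂) ≤ l₁) := by
      rcases (hLs q N Lm Th C M T l₁ l₂ χ₁ ζ₁ old hW hT1 hT3 h1).2.2 hr.1 hr.2 with h | h
      · rw [h]
        exact .inr ⟨(le_max_left _ _).trans hLm, hsL.trans hs2⟩
      · exact .inl h
    refine key' l₁ 1 1 (ee_B χ₁ ζ₁ hr.1).1 (fun χ h => ((ee_B χ₁ ζ₁ hr.1).2 χ h).1 hr.2)
      (hN.C l₁ l₂ hl1 hg1 hl12 h2
        (hLc q N Lm Th C M T l₁ l₂ χ₁ ζ₁ old hW hT1 hT10 h1 hr.1 hr.2)) ?_ hs2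
    rcases h2 with h | h
    · exact hD l₁ l₂ hl1 hl12 h
    · exact h.2.trans (le_mul_of_one_le_left hl1.le hD1)
  obtain ⟨o, o2, o7, oi, o1, oj⟩ := hOrd q χ₁ h1
  have h2 := hL1 q N Lm Th C M T l₁ l₂ χ₁ ζ₁ o old hW hT1 hT10 h1 hr o1
  obtain ⟨j₀, j1, j2⟩ : ∃ j₀ < o, 10 ≤ l₂ ∨ Lat2 o j₀ l₁ (l₂ - c0) l₂ := by
    rcases hW.two with h | ⟨χ₂, ζ₂, z1, z2, z3⟩
    · exact ⟨0, by omega, .inl (h ▸ hlm)⟩
    by_cases hc : χ₂ = 1
    · subst hc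
      have := old.zeta ζ₂ (Multiset.mem_of_le (Multiset.sub_le_self _ _) z1) (z2.trans hT4)
      exact ⟨0, by omega, .inl (by linarith)⟩
    · obtain ⟨j₀, j1, j2⟩ := oj χ₂ hc
      exact ⟨j₀, j1, .inr (hL2 q N Lm Th C M T l₁ l₂ χ₁ χ₂ ζ₁ ζ₂ o j₀ old env.conj hW hT1 hT10 h1 hr
        hc z1 z2 z3 o1 j2)⟩
  have h3 := hN.AB o j₀ l₁ l₂ o2 o7 j1 hl1 hg1 hl12 h2 j2
  by_cases ho : o = 2
  · rw [if_pos ho, if_pos ho] at h3
    have h4 := oi.1 ho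
    exact key' 1 1 2 (ee_B χ₁ ζ₁ h4).1 (fun χ h => ((ee_B χ₁ ζ₁ h4).2 χ h).2 fun h => hr ⟨h4, h⟩)
      h3 (hexp l₂ (by linarith)) hs1
  · rw [if_neg ho, if_neg ho] at h3
    have h4 : χ₁ ≠ χ₁⁻¹ := fun h => ho (oi.2 h)
    exact key' 1 2 1 (ee_A χ₁ ζ₁ h4).1 (ee_A χ₁ ζ₁ h4).2 h3 (hexp l₂ (by linarith)) hs1

end Pool.Agent.MP_c5bf7b_nt.H25L
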