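import Pool.Agent.MP_c5bf7b_nt.H25L.SpecC

/-! Repulsion of the second zero with exponent one. -/

set_option autoImplicit false

namespace Pool.Agent.MP_c5bf7b_nt.H25L

open Finset Complex Pool.Agent.MP_c5bf7b_nt.H38

namespace NumD5L

theorem par_one (t : ℝ) : par 1 t = 1 - 5 * t ^ 2 + 5 * t ^ 3 - t ^ 5 := by
  unfold par; ring

theorem par_nonneg (t : ℝ) (h0 : 0 ≤ t) (h2 : t ≤ 1) : 0 ≤ par 1 t := by
  unfold par
  have h1 : 0 ≤ 1 - t / 1 := by linarith
  positivity

theorem par_le (t : ℝ) (h0 : 0 ≤ t) (h2 : t ≤ 1) : par 1 t ≤ 1 := by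
  rw [par_one]
  have h1 : 0 ≤ t ^ 2 * (1 - t) := mul_nonneg (sq_nonneg t) (by linarith)
  have h3 : 0 ≤ t ^ 5 := by positivity
  nlinarith

theorem par_cont : Continuous (par 1) := by
  unfold par; fun_prop

theorem fp_eq (z : ℝ) : Fp 10 z = ∫ t in (0 : ℝ)..1, par 1 t * Real.exp (-z * t) := by
  unfold Fp Lr
  have h : ((10 : ℕ) : ℝ) / 10 = 1 := by norm_num
  rw [h]

theorem int_par : ∫ t in (0 : ℝ)..1, par 1 t = 5 / 12 := by
  have h : ∀ t ∈ Set.uIcc (0 : ℝ) 1, HasDerivAt
      (fun t : ℝ => t - 5 * t ^ 3 / 3 + 5 * t ^ 4 / 4 - t ^ 6 / 6) (par 1 t) t := by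
    intro t _
    have h1 := (((hasDerivAt_id t).sub (((hasDerivAt_pow 3 t).const_mul 5).div_const 3)).add
      (((hasDerivAt_pow 4 t).const_mul 5).div_const 4)).sub ((hasDerivAt_pow 6 t).div_const 6)
    refine (h1.congr_deriv ?_)
    rw [par_one]; push_cast; ring
  rw [intervalIntegral.integral_eq_sub_of_hasDerivAt h (par_cont.intervalIntegrable _ _)]
  norm_num

theorem fp_c0 : 5 / 12 * (999 / 1000) ≤ Fp 10 c0 := by
  rw [fp_eq]
  have h1 : ∫ t in (0 : ℝ)..1, par 1 t * (999 / 1000) ≤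
      ∫ t in (0 : ℝ)..1, par 1 t * Real.exp (-c0 * t) := by
    refine intervalIntegral.integral_mono_on (by norm_num)
      ((par_cont.mul continuous_const).intervalIntegrable _ _)
      ((par_cont.mul (by fun_prop)).intervalIntegrable _ _) ?_
    intro t ht
    refine mul_le_mul_of_nonneg_left ?_ (par_nonneg t ht.1 ht.2)
    have h2 := Real.add_one_le_exp (-c0 * t)
    have h3 : c0 = 1 / 1000 := rfl
    rw [h3] at h2 ⊢
    linarith [ht.2]
  rw [intervalIntegral.integral_mul_const, int_par] at h1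
  linarith

theorem fp_diff (a b : ℝ) (ha : 0 ≤ a) (hb : 0 ≤ b) :
    Fp 10 (-b) - Fp 10 (a - b) ≤ a * Real.exp b := by
  have hi : ∀ z : ℝ, IntervalIntegrable (fun t => par 1 t * Real.exp (-z * t))
      MeasureTheory.volume 0 1 := fun z => (par_cont.mul (by fun_prop)).intervalIntegrable _ _
  rw [fp_eq, fp_eq, ← intervalIntegral.integral_sub (hi _) (hi _)]
  have h1 : ∫ t in (0 : ℝ)..1, (par 1 t * Real.exp (- -b * t) - par 1 t * Real.exp (-(a - b) * t)) ≤
      ∫ _ in (0 : ℝ)..1, a * Real.exp b := by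
    refine intervalIntegral.integral_mono_on (by norm_num)
      (((par_cont.mul (by fun_prop)).sub (par_cont.mul (by fun_prop))).intervalIntegrable _ _)
      (continuous_const.intervalIntegrable _ _) ?_
    intro t ht
    have h2 : Real.exp (-(a - b) * t) = Real.exp (b * t) * Real.exp (-(a * t)) := by
      rw [← Real.exp_add]; congr 1; ring
    have h3 : Real.exp (- -b * t) = Real.exp (b * t) := by congr 1; ring
    rw [h2, h3]
    have h4 := Real.add_one_le_exp (-(a * t))
    have h5 : Real.exp (b * t) ≤ Real.exp b := Real.exp_le_exp.2 (by nlinarith [ht.2])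
    have h6 : 0 ≤ a * t := mul_nonneg ha ht.1
    have h7 : Real.exp (-(a * t)) ≤ 1 := Real.exp_le_one_iff.2 (by linarith)
    have h8 : a * t ≤ a := by nlinarith [ht.2]
    have h9 : par 1 t * Real.exp (b * t) ≤ Real.exp b := by
      have := mul_le_mul (par_le t ht.1 ht.2) h5 (Real.exp_pos _).le zero_le_one
      linarith
    have h10 : par 1 t * Real.exp (b * t) * (1 - Real.exp (-(a * t))) ≤ Real.exp b * a :=
      mul_le_mul h9 (by linarith) (by linarith) (Real.exp_pos _).le
    nlinarith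
  rw [intervalIntegral.integral_const, smul_eq_mul] at h1
  linarith

end NumD5L

open NumD5L in
theorem numD5Of : NumD5Of := by
  intro _ _
  refine ⟨30, by norm_num, fun l₁ l₂ h1 h2 h => ?_⟩
  have h3 := fp_diff l₁ l₂ h1.le (by linarith)
  have h4 := fp_c0
  have h5 : e0 = 1 / 100000 := rfl
  have h9 := mul_pos h1 (Real.exp_pos l₂)
  have h6 : 1 ≤ 30 * (l₁ * Real.exp l₂) := by
    rcases h with h | h
    · have := h 10 (by simp)
      linarith
    · have := h 10 (by simp)
      linarith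
  have h7 : Real.exp (-l₂) * Real.exp l₂ = 1 := by rw [← Real.exp_add]; simp
  have h8 := Real.exp_pos (-l₂)
  nlinarith

end Pool.Agent.MP_c5bf7b_nt.H25L
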