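import Pool.Agent.MP_c5bf7b_nt.H25L.SpecC

/-! Row ORD: the small powers of a character. -/

set_option autoImplicit false

namespace Pool.Agent.MP_c5bf7b_nt.H25L

open Finset Complex ArithmeticFunction Pool.Agent.MP_c5bf7b_nt.H38

namespace OrdL

variable {G : Type*} [CommGroup G]

theorem first [Finite G] {a : G} (ha : a ≠ 1) : ∃ o : ℕ, 2 ≤ o ∧ o ≤ 7 ∧
    ∀ j : ℤ, |j| ≤ 6 → (a ^ j = 1 ↔ (o : ℤ) ∣ j) := by
  have h0 := orderOf_pos a
  have h1 : orderOf a ≠ 1 := fun h => ha (orderOf_eq_one_iff.1 h)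
  rcases le_or_gt (orderOf a) 7 with h | h
  · exact ⟨orderOf a, by omega, h, fun j _ => orderOf_dvd_iff_zpow_eq_one.symm⟩
  · refine ⟨7, by omega, le_rfl, fun j hj => ?_⟩
    rw [← orderOf_dvd_iff_zpow_eq_one]
    have h2 := abs_le.1 hj
    constructor
    · intro hd
      rw [Int.eq_zero_of_abs_lt_dvd hd (by omega)]
      exact dvd_zero _
    · intro hd
      rw [Int.eq_zero_of_abs_lt_dvd hd (by omega)]
      exact dvd_zero _

theorem real_iff {a : G} : a = a⁻¹ ↔ a ^ (2 : ℤ) = 1 := by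
  rw [zpow_two, eq_inv_iff_mul_eq_one]

theorem second {a b : G} {o : ℕ} (ho : 2 ≤ o) (h : ∀ j : ℤ, |j| ≤ 6 → (a ^ j = 1 ↔ (o : ℤ) ∣ j))
    (hb : b ≠ 1) : ∃ j₀ : ℕ, j₀ < o ∧ (∀ j : ℤ, |j| ≤ 3 → (a ^ j * b = 1 ↔ In1 o j₀ j)) ∧
      (b = b⁻¹ → o ∣ 2 * j₀) := by
  by_cases hx : ∃ j : ℤ, |j| ≤ 3 ∧ a ^ j * b = 1
  · obtain ⟨i, hi, e⟩ := hx
    have i1 := abs_le.1 hi
    have o0 : (0 : ℤ) < o := by omega
    obtain ⟨j₀, hj⟩ := Int.eq_ofNat_of_zero_le (Int.emod_nonneg i o0.ne')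
    have hlt := Int.emod_lt_of_pos i o0
    have hd : (o : ℤ) ∣ i - j₀ := hj ▸ Int.dvd_self_sub_emod
    have eb : b = a ^ (-i) := by rw [zpow_neg, eq_inv_of_mul_eq_one_right e]
    have j0 : j₀ ≠ 0 := by
      rintro rfl
      rw [(h i (by omega)).2 (by simpa using hd), one_mul] at e
      exact hb e
    refine ⟨j₀, by omega, fun j hj' => ?_, fun hr => ?_⟩
    · have j1 := abs_le.1 hj'
      rw [eb, ← zpow_add, h _ (abs_le.2 (by omega)), In1, and_iff_right j0,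
        show j - j₀ = j + -i + (i - j₀) by ring, dvd_add_left hd]
    · rw [real_iff, eb, ← zpow_mul, h _ (abs_le.2 (by omega))] at hr
      have := (hr.add (hd.mul_left 2)).neg_right
      rw [show -(-i * 2 + 2 * (i - j₀)) = ((2 * j₀ : ℕ) : ℤ) by push_cast; ring] at this
      exact Int.natCast_dvd_natCast.1 this
  · exact ⟨0, by omega, fun j hj => ⟨fun e => absurd ⟨j, hj, e⟩ hx, fun e => absurd rfl e.1⟩,
      fun _ => dvd_zero _⟩

end OrdL

theorem ord : OrdS := by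
  intro q _ χ₁ h₁
  obtain ⟨o, o2, o7, h⟩ := OrdL.first h₁
  refine ⟨o, o2, o7, ?_, h, fun χ₂ h₂ => OrdL.second o2 h h₂⟩
  rw [OrdL.real_iff, h 2 (by norm_num)]
  constructor
  · rintro rfl
    exact dvd_rfl
  · intro hd
    have := Int.le_of_dvd two_pos hd
    omega

end Pool.Agent.MP_c5bf7b_nt.H25L
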