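import Pool.Agent.MP_c5bf7b_nt.H25L.SpecB

/-! Linear minus convex decreasing: only the positive part costs. -/

set_option autoImplicit false

namespace Pool.Agent.MP_c5bf7b_nt.H25L

open Complex MeasureTheory Pool.Agent.MP_c5bf7b_nt.H38

namespace PairL

theorem lp_re {g : ℝ → ℝ} (hg : Continuous g) (x a ν : ℝ) : (H38.Lp g x (a + ν * I)).re =
    ∫ t in (0 : ℝ)..x, g t * Real.cos (ν * t) * Real.exp (-a * t) := by
  have hc : Continuous fun t : ℝ => (g t : ℂ) * exp (-(a + ν * I) * t) := by fun_prop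
  have := reCLM.intervalIntegral_comp_comm (hc.intervalIntegrable (μ := volume) 0 x)
  rw [reCLM_apply] at this
  unfold H38.Lp
  rw [← this]
  refine intervalIntegral.integral_congr fun t _ => ?_
  simp only [reCLM_apply, re_ofReal_mul, exp_re]
  simp [mul_assoc, mul_comm]

theorem lp_re0 {g : ℝ → ℝ} (hg : Continuous g) (x ν : ℝ) : (H38.Lp g x (ν * I)).re =
    ∫ t in (0 : ℝ)..x, g t * Real.cos (ν * t) := by
  have := lp_re hg x 0 ν
  simpa using this

theorem prim {h : ℝ → ℝ} (hh : Continuous h) (y : ℝ) :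
    HasDerivAt (fun v => ∫ u in (0 : ℝ)..v, h u) (h y) y :=
  (hh.integral_hasStrictDerivAt 0 y).hasDerivAt

theorem tri_eq {h : ℝ → ℝ} (hh : Continuous h) (v : ℝ) :
    ∫ u in (0 : ℝ)..v, h u * (v - u) =
      v * (∫ u in (0 : ℝ)..v, h u) - ∫ u in (0 : ℝ)..v, h u * u := by
  have h1 : Continuous fun u => v * h u := by fun_prop
  have h2 : Continuous fun u => h u * u := by fun_prop
  rw [← intervalIntegral.integral_const_mul,
    ← intervalIntegral.integral_sub (h1.intervalIntegrable 0 v) (h2.intervalIntegrable 0 v)]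
  refine intervalIntegral.integral_congr fun u _ => ?_
  ring

theorem key {h : ℝ → ℝ} (hh : Continuous h) {x d : ℝ} (hd : 0 ≤ d)
    (hJ : ∀ v, 0 ≤ v → v ≤ x → 0 ≤ ∫ u in (0 : ℝ)..v, h u * (v - u)) {y : ℝ} (h0 : 0 ≤ y)
    (h1 : y ≤ x) :
    Real.exp (-d * y) * (∫ u in (0 : ℝ)..y, h u) ≤ ∫ u in (0 : ℝ)..y, h u * Real.exp (-d * u) := by
  have c1 : Continuous fun u => h u * u := by fun_prop
  have c2 : Continuous fun u => h u * Real.exp (-d * u) := by fun_prop
  let M : ℝ → ℝ := fun v => ∫ u in (0 : ℝ)..v, h u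
  let N : ℝ → ℝ := fun v => ∫ u in (0 : ℝ)..v, h u * u
  let E : ℝ → ℝ := fun v => ∫ u in (0 : ℝ)..v, h u * Real.exp (-d * u)
  have hJ' : ∀ v, 0 ≤ v → v ≤ x → 0 ≤ v * M v - N v := by
    intro v a b
    have := hJ v a b
    rwa [tri_eq hh] at this
  let P : ℝ → ℝ := fun v => E v - Real.exp (-d * v) * (M v + d * (v * M v - N v))
  have hP : ∀ v, HasDerivAt P (d ^ 2 * Real.exp (-d * v) * (v * M v - N v)) v := by
    intro v
    have a1 : HasDerivAt M (h v) v := prim hh v
    have a2 : HasDerivAt N (h v * v) v := prim c1 v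
    have a3 : HasDerivAt E (h v * Real.exp (-d * v)) v := prim c2 v
    have a4 : HasDerivAt (fun v => Real.exp (-d * v)) (Real.exp (-d * v) * (-d * 1)) v :=
      ((hasDerivAt_id' v).const_mul (-d)).exp
    have a5 : HasDerivAt (fun v => v * M v) (1 * M v + v * h v) v := (hasDerivAt_id' v).mul a1
    have a6 := a3.sub (a4.mul (a1.add ((a5.sub a2).const_mul d)))
    refine a6.congr_deriv ?_
    simp only [Pi.add_apply, Pi.sub_apply]
    ring
  have mono : MonotoneOn P (Set.Icc 0 x) := by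
    refine monotoneOn_of_deriv_nonneg (convex_Icc 0 x)
      (fun v _ => (hP v).continuousAt.continuousWithinAt)
      (fun v _ => (hP v).differentiableAt.differentiableWithinAt) fun v hv => ?_
    have hv' := interior_subset hv
    rw [(hP v).deriv]
    exact mul_nonneg (mul_nonneg (sq_nonneg d) (Real.exp_pos _).le) (hJ' v hv'.1 hv'.2)
  have b := mono ⟨le_rfl, h0.trans h1⟩ ⟨h0, h1⟩ h0
  have z : P 0 = 0 := by simp [P, E, M, N]
  rw [z] at b
  have b2 : 0 ≤ Real.exp (-d * y) * (d * (y * M y - N y)) :=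
    mul_nonneg (Real.exp_pos _).le (mul_nonneg hd (hJ' y h0 h1))
  have b3 : P y = E y - Real.exp (-d * y) * M y - Real.exp (-d * y) * (d * (y * M y - N y)) := by
    simp only [P]
    ring
  show Real.exp (-d * y) * M y ≤ E y
  linarith

/-- the integral against the linear minus convex function, split into its terms -/
theorem split {h : ℝ → ℝ} (hh : Continuous h) (A B p d p' d' y : ℝ) :
    ∫ u in (0 : ℝ)..y, h u * (A + B * u - p * Real.exp (-d * u) - p' * Real.exp (-d' * u)) =
      A * (∫ u in (0 : ℝ)..y, h u) + B * (∫ u in (0 : ℝ)..y, h u * u) -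
        p * (∫ u in (0 : ℝ)..y, h u * Real.exp (-d * u)) -
        p' * ∫ u in (0 : ℝ)..y, h u * Real.exp (-d' * u) := by
  have h1 : Continuous fun u => A * h u := by fun_prop
  have h2 : Continuous fun u => B * (h u * u) := by fun_prop
  have h3 : Continuous fun u => p * (h u * Real.exp (-d * u)) := by fun_prop
  have h4 : Continuous fun u => p' * (h u * Real.exp (-d' * u)) := by fun_prop
  have h5 : Continuous fun u => A * h u + B * (h u * u) := by fun_prop
  have h6 : Continuous fun u => A * h u + B * (h u * u) - p * (h u * Real.exp (-d * u)) := by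
    fun_prop
  rw [← intervalIntegral.integral_const_mul, ← intervalIntegral.integral_const_mul,
    ← intervalIntegral.integral_const_mul, ← intervalIntegral.integral_const_mul,
    ← intervalIntegral.integral_add (h1.intervalIntegrable 0 y) (h2.intervalIntegrable 0 y),
    ← intervalIntegral.integral_sub (h5.intervalIntegrable 0 y) (h3.intervalIntegrable 0 y),
    ← intervalIntegral.integral_sub (h6.intervalIntegrable 0 y) (h4.intervalIntegrable 0 y)]
  refine intervalIntegral.integral_congr fun u _ => ?_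
  ring

theorem head_le {h : ℝ → ℝ} (hh : Continuous h) {x A B p d p' d' : ℝ} (hB : 0 ≤ B) (hp : 0 ≤ p)
    (hd : 0 ≤ d) (hp' : 0 ≤ p') (hd' : 0 ≤ d')
    (hJ : ∀ v, 0 ≤ v → v ≤ x → 0 ≤ ∫ u in (0 : ℝ)..v, h u * (v - u)) {y : ℝ} (h0 : 0 ≤ y)
    (h1 : y ≤ x) :
    ∫ u in (0 : ℝ)..y, h u * (A + B * u - p * Real.exp (-d * u) - p' * Real.exp (-d' * u)) ≤
      (A + B * y - p * Real.exp (-d * y) - p' * Real.exp (-d' * y)) * ∫ u in (0 : ℝ)..y, h u := by
  rw [split hh]
  have a1 := mul_le_mul_of_nonneg_left (key hh hd hJ h0 h1) hp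
  have a2 := mul_le_mul_of_nonneg_left (key hh hd' hJ h0 h1) hp'
  have a3 := hJ y h0 h1
  rw [tri_eq hh] at a3
  have a4 := mul_nonneg hB a3
  nlinarith

theorem finish {f c g : ℝ → ℝ} (hf : Continuous f) (hc : Continuous c) (hg : Continuous g)
    {x y : ℝ} (h0 : 0 ≤ y) (h1 : y ≤ x) (hf0 : ∀ u, 0 ≤ u → u ≤ x → 0 ≤ f u)
    (hh : ∫ u in (0 : ℝ)..y, f u * c u * g u ≤ 0)
    (ht : ∀ u, y ≤ u → u ≤ x → f u * c u * g u ≤ f u * max 0 (g u)) :
    ∫ u in (0 : ℝ)..x, f u * c u * g u ≤ ∫ u in (0 : ℝ)..x, f u * max 0 (g u) := by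
  have c1 : Continuous fun u => f u * c u * g u := by fun_prop
  have c2 : Continuous fun u => f u * max 0 (g u) := by fun_prop
  rw [← intervalIntegral.integral_add_adjacent_intervals (c1.intervalIntegrable 0 y)
      (c1.intervalIntegrable y x),
    ← intervalIntegral.integral_add_adjacent_intervals (c2.intervalIntegrable 0 y)
      (c2.intervalIntegrable y x)]
  have a1 : 0 ≤ ∫ u in (0 : ℝ)..y, f u * max 0 (g u) :=
    intervalIntegral.integral_nonneg h0 fun u hu =>
      mul_nonneg (hf0 u hu.1 (hu.2.trans h1)) (le_max_left _ _)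
  have a2 : ∫ u in y..x, f u * c u * g u ≤ ∫ u in y..x, f u * max 0 (g u) :=
    intervalIntegral.integral_mono_on h1 (c1.intervalIntegrable y x) (c2.intervalIntegrable y x)
      fun u hu => ht u hu.1 hu.2
  linarith

theorem real_form {f c : ℝ → ℝ} (hf : Continuous f) (hc : Continuous c) {x A B p d p' d' : ℝ}
    (hx : 0 ≤ x) (hB : 0 ≤ B) (hp : 0 ≤ p) (hd : 0 ≤ d) (hp' : 0 ≤ p') (hd' : 0 ≤ d')
    (hf0 : ∀ u, 0 ≤ u → u ≤ x → 0 ≤ f u) (hfx : f x = 0) (hc1 : ∀ u, c u ≤ 1)
    (hM : 0 ≤ ∫ u in (0 : ℝ)..x, f u * c u)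
    (hJ : ∀ v, 0 ≤ v → v ≤ x → 0 ≤ ∫ u in (0 : ℝ)..v, f u * c u * (v - u)) :
    ∫ u in (0 : ℝ)..x, f u * c u * (A + B * u - p * Real.exp (-d * u) - p' * Real.exp (-d' * u)) ≤
      ∫ u in (0 : ℝ)..x,
        f u * max 0 (A + B * u - p * Real.exp (-d * u) - p' * Real.exp (-d' * u)) := by
  let g : ℝ → ℝ := fun u => A + B * u - p * Real.exp (-d * u) - p' * Real.exp (-d' * u)
  have hg : Continuous g := by
    simp only [g]
    fun_prop
  have hfc : Continuous fun u => f u * c u := by fun_prop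
  have hmono : ∀ u v, u ≤ v → g u ≤ g v := by
    intro u v huv
    have e1 : Real.exp (-d * v) ≤ Real.exp (-d * u) := Real.exp_le_exp.2 (by nlinarith)
    have e2 : Real.exp (-d' * v) ≤ Real.exp (-d' * u) := Real.exp_le_exp.2 (by nlinarith)
    have e3 := mul_le_mul_of_nonneg_left e1 hp
    have e4 := mul_le_mul_of_nonneg_left e2 hp'
    have e5 := mul_le_mul_of_nonneg_left huv hB
    simp only [g]
    linarith
  have hhead : ∀ y, 0 ≤ y → y ≤ x →
      ∫ u in (0 : ℝ)..y, f u * c u * g u ≤ g y * ∫ u in (0 : ℝ)..y, f u * c u :=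
    fun y h0 h1 => head_le hfc hB hp hd hp' hd' hJ h0 h1
  have htail : ∀ y, 0 ≤ y → 0 ≤ g y → ∀ u, y ≤ u → u ≤ x →
      f u * c u * g u ≤ f u * max 0 (g u) := by
    intro y h0 hy u hu hux
    have g0 : 0 ≤ g u := hy.trans (hmono y u hu)
    rw [max_eq_right g0]
    have := mul_le_mul_of_nonneg_left (hc1 u) (mul_nonneg (hf0 u (h0.trans hu) hux) g0)
    linarith
  show ∫ u in (0 : ℝ)..x, f u * c u * g u ≤ ∫ u in (0 : ℝ)..x, f u * max 0 (g u)
  rcases le_total (g x) 0 with hgx | hgx
  · refine finish hf hc hg hx le_rfl hf0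
      ((hhead x hx le_rfl).trans (mul_nonpos_of_nonpos_of_nonneg hgx hM)) fun u h1 h2 => ?_
    rw [le_antisymm h2 h1, hfx]
    simp
  · rcases le_total 0 (g 0) with hg0 | hg0
    · exact finish hf hc hg le_rfl hx hf0 (by simp) (htail 0 le_rfl hg0)
    · obtain ⟨y, hy, hy0⟩ := intermediate_value_Icc hx hg.continuousOn ⟨hg0, hgx⟩
      refine finish hf hc hg hy.1 hy.2 hf0 ?_ (htail y hy.1 hy0.ge)
      have := hhead y hy.1 hy.2
      rwa [hy0, zero_mul] at this

end PairL

theorem pairOf : PairOf := by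
  intro hA hP x A B p d p' d' ν hx hx5 hB hp hd hp' hd'
  have ad := hA.1 x hx hx5
  have hf : Continuous (par x) := ad.diff.continuous
  have hc : Continuous fun u : ℝ => Real.cos (ν * u) := by fun_prop
  have hfc : Continuous fun u : ℝ => par x u * Real.cos (ν * u) := hf.mul hc
  have hM : 0 ≤ ∫ u in (0 : ℝ)..x, par x u * Real.cos (ν * u) := by
    rw [← PairL.lp_re0 hf]
    exact ad.re _ (by simp)
  have hJ : ∀ v, 0 ≤ v → v ≤ x →
      0 ≤ ∫ u in (0 : ℝ)..v, par x u * Real.cos (ν * u) * (v - u) := by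
    intro v h0 h1
    have a := hP x v ν hx hx5 h0 h1
    have cv : Continuous fun u => par x u * (v - u) := hf.mul (by fun_prop)
    rw [PairL.lp_re0 cv] at a
    refine a.trans (le_of_eq (intervalIntegral.integral_congr fun u _ => ?_))
    ring
  have main := PairL.real_form (A := A) hf hc hx.le hB hp hd hp' hd' ad.nonneg ad.zero
    (fun u => Real.cos_le_one _) hM hJ
  refine le_trans (le_of_eq ?_) main
  have cl : Continuous fun u => par x u * (A + B * u) := hf.mul (by fun_prop)
  have c1 : Continuous fun u => A * (par x u * Real.cos (ν * u)) := continuous_const.mul hfc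
  have c2 : Continuous fun u => B * (par x u * Real.cos (ν * u) * u) :=
    continuous_const.mul (hfc.mul continuous_id)
  rw [PairL.split hfc, PairL.lp_re0 cl, PairL.lp_re hf, PairL.lp_re hf,
    ← intervalIntegral.integral_const_mul A, ← intervalIntegral.integral_const_mul B,
    ← intervalIntegral.integral_add (c1.intervalIntegrable 0 x) (c2.intervalIntegrable 0 x)]
  have e : ∫ t in (0 : ℝ)..x, par x t * (A + B * t) * Real.cos (ν * t) =
      ∫ t in (0 : ℝ)..x,
        (A * (par x t * Real.cos (ν * t)) + B * (par x t * Real.cos (ν * t) * t)) := by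
    refine intervalIntegral.integral_congr fun u _ => ?_
    ring
  rw [e]

end Pool.Agent.MP_c5bf7b_nt.H25L
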