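import Pool.Agent.MP_c5bf7b_nt.H25L.SpecA
import Pool.Agent.MP_c5bf7b_nt.H38.Pc

/-! The bound for the contribution of one character, for a general kernel length. -/

set_option autoImplicit false

namespace Pool.Agent.MP_c5bf7b_nt.H25L

open Finset Complex ArithmeticFunction Pool.Agent.MP_c5bf7b_nt.H38

open PcA in
theorem pckOf : PckOf := by
  intro hCnt hLp hAdm hKf hZ K κ ε hK0 hK1 hκ0 hκ hε
  obtain ⟨C, hC, hCnt⟩ := hCnt
  obtain ⟨c, hc, hZ⟩ := hZ
  obtain ⟨hB, hH⟩ := hAdm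
  obtain ⟨hf, hBk, hH2⟩ := hB K κ hK0 hK1 hκ0
  obtain ⟨-, hLr, -⟩ := hLp _ _ hf
  obtain ⟨e, he, he'⟩ : ∃ e : ℝ, 0 < e ∧ e = K ^ 2 * ε / 3 := ⟨_, by positivity, rfl⟩
  obtain ⟨δ, d, hδ, hd, hd1, q₁, hK⟩ := hKf _ _ e hf he
  obtain ⟨L, hL1, hL2, hL3⟩ : ∃ L : ℝ, 10 / δ ≤ L ∧ 20 / c ≤ L ∧ 64 * C / (d ^ 2 * e) ≤ L :=
    ⟨max (10 / δ) (max (20 / c) (64 * C / (d ^ 2 * e))), le_max_left _ _,
      (le_max_left _ _).trans (le_max_right _ _), (le_max_right _ _).trans (le_max_right _ _)⟩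
  refine ⟨max (max q₁ 2) ⌈Real.exp L⌉₊, fun q _ hq N hN χ hχ => ?_⟩
  have hq1 : q₁ ≤ q := ((le_max_left _ _).trans (le_max_left _ _)).trans hq
  have hq2 : 2 ≤ q := ((le_max_right _ _).trans (le_max_left _ _)).trans hq
  have hq3 : Real.exp L ≤ q := Nat.ceil_le.1 ((le_max_right _ _).trans hq)
  have hqr : (1 : ℝ) < q := by exact_mod_cast hq2
  have hl : 0 < Real.log q := Real.log_pos hqr
  have hL : L ≤ Real.log q := (Real.le_log_iff_exp_le (by linarith)).2 hq3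
  have hK := hK q hq1 N hN
  have hκδ : κ ≤ δ * Real.log q := by
    have := (div_le_iff₀ hδ).1 (hL1.trans hL)
    linarith
  have hTh : |(κ : ℂ).im| ≤ (q : ℝ) ^ δ * Real.log q := by
    rw [ofReal_im, abs_zero]; positivity
  have hHp : ∀ ψ : Ch q, (∀ ζ ∈ N ψ, |ζ.im| ≤ Real.log q → κ ≤ ζ.re) →
      ∀ ζ ∈ N ψ, Hp (Real.log q) κ ζ := by
    intro ψ hψ ζ hζ
    have h0 := (((hCnt q ψ hq2).2 _ (hN ψ)).2.1 ζ hζ).1
    refine ⟨fun h => hψ ζ hζ (by simpa using h), ?_⟩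
    have : 0 ≤ Real.log (1 + |ζ.im - (κ : ℂ).im| / Real.log q) :=
      Real.log_nonneg (le_add_of_nonneg_right (by positivity))
    rw [ofReal_re]
    linarith
  have hF : (Lp (fK K κ) K (-(κ : ℂ))).re = Lr (fK K κ) K (-κ) := by
    rw [← ofReal_neg, hLr, ofReal_re]
  -- the trivial character
  have h1 : (Kn q (fK K κ) K 1 κ).re ≤ Lr (fK K κ) K (-κ) + e := by
    have hz : ∀ ζ ∈ N 1, |ζ.im| ≤ Real.log q → κ ≤ ζ.re := by
      intro ζ hζ him
      obtain ⟨-, a1, -, a2⟩ := ((hCnt q 1 hq2).2 _ (hN 1)).2.1 ζ hζ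
      have b1 : (1 - ζ / (Real.log q : ℝ)).re = 1 - ζ.re / Real.log q := by
        rw [sub_re, div_ofReal_re, one_re]
      have b2 : (1 - ζ / (Real.log q : ℝ)).im = -(ζ.im / Real.log q) := by
        rw [sub_im, div_ofReal_im, one_im, zero_sub]
      have b3 : ζ.re / Real.log q ≤ 1 / 3 := by
        rw [div_le_iff₀ hl]; linarith
      have b4 := hZ q _ (by rw [b1]; linarith) a2
      rw [b1, b2, abs_neg, abs_div, abs_of_pos hl] at b4
      have b5 : |ζ.im| / Real.log q ≤ 1 := (div_le_one hl).2 him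
      have b6 : 0 ≤ |ζ.im| / Real.log q := by positivity
      have b7 : Real.log (|ζ.im| / Real.log q + 2) ≤ 2 :=
        (Real.log_le_sub_one_of_pos (by linarith)).trans (by linarith)
      have b8 : 0 < Real.log (|ζ.im| / Real.log q + 2) := Real.log_pos (by linarith)
      have b9 : c / 2 ≤ ζ.re / Real.log q := by
        have : c / 2 ≤ c / Real.log (|ζ.im| / Real.log q + 2) := by gcongr
        linarith
      rw [le_div_iff₀ hl] at b9
      have := (div_le_iff₀ hc).1 (hL2.trans hL)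
      linarith
    have := hK 1 κ 0 (Multiset.zero_le _) (by simp) (by simpa using hκ0) (by simpa using hκδ) hTh
      (fun ζ hζ => hHp 1 hz ζ (by simpa using hζ))
    rw [Rhs, if_pos rfl, hF, Multiset.map_zero, Multiset.sum_zero, sub_zero] at this
    exact this
  obtain ⟨Y, hY⟩ : ∃ Y, Y = (N χ).filter fun ζ => ‖ζ‖ ≤ d * Real.log q := ⟨_, rfl⟩
  have hYle : Y ≤ N χ := hY ▸ Multiset.filter_le _ _
  have hYn : ∀ ζ ∈ Y, ‖ζ‖ ≤ d * Real.log q := fun ζ hζ => by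
    rw [hY] at hζ
    exact (Multiset.mem_filter.1 hζ).2
  have h2 := hK χ κ Y hYle (by
      rw [Multiset.filter_eq_nil.2 fun ζ hζ => by simpa using hYn ζ hζ]; simp)
    (by simpa using hκ0) (by simpa using hκδ) hTh
    (fun ζ hζ => hHp χ hχ ζ (Multiset.mem_of_le (Multiset.sub_le_self _ _) hζ))
  have hf0 : 0 ≤ fK K κ 0 := hf.nonneg 0 le_rfl hK0.le
  have h3 : (Y.map fun ζ => (Lp (fK K κ) K (ζ - κ)).re).sum ≤ K ^ 2 * BK K κ + 2 * e := by
    have k1 := kn_le hq2 hf χ κ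
    have k2 := (abs_le.1 (abs_re_le_norm (Kn q (fK K κ) K χ κ))).1
    have k3 := (norm_nonneg _).trans k1
    unfold Rhs at h2
    split_ifs at h2 with h
    · subst h
      rw [hF] at h2
      linarith
    · linarith
  obtain ⟨c1, c2, -⟩ := (hCnt q χ hq2).2 _ (hN χ)
  have h4 : (Y.map fun ζ => ‖HK K ζ‖).sum ≤ (Y.map fun ζ => (Lp (fK K κ) K (ζ - κ)).re).sum := by
    refine Multiset.sum_map_le_sum_map _ _ fun ζ hζ => ?_
    have a0 := Multiset.mem_of_le hYle hζ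
    have a1 := (c2 ζ a0).1
    refine hH2 ζ (by rintro rfl; simp at a1) (hχ ζ a0 ?_)
    have := mul_le_of_le_one_left hl.le hd1
    exact (abs_im_le_norm ζ).trans ((hYn ζ hζ).trans this)
  have h5 : (((N χ).filter fun ζ => ¬ ‖ζ‖ ≤ d * Real.log q).map fun ζ => ‖HK K ζ‖).sum ≤ e := by
    have a0 := far_sum hl (by linarith) hd hd1 c1
    have a1 : (((N χ).filter fun ζ => ¬ ‖ζ‖ ≤ d * Real.log q).map fun ζ => ‖HK K ζ‖).sum ≤
        (((N χ).filter fun ζ => ¬ ‖ζ‖ ≤ d * Real.log q).map fun ζ => 4 * (1 / ‖ζ‖ ^ 2)).sum := by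
      refine Multiset.sum_map_le_sum_map _ _ fun ζ hζ => ?_
      rw [mul_one_div]
      exact (hH K ζ hK0 (c2 ζ (Multiset.mem_filter.1 hζ).1).1).1
    rw [Multiset.sum_map_mul_left] at a1
    have a2 : 4 * (16 * C / (d ^ 2 * Real.log q)) ≤ e := by
      have := (div_le_iff₀ (by positivity)).1 (hL3.trans hL)
      rw [← mul_div_assoc, div_le_iff₀ (by positivity)]
      nlinarith
    linarith
  rw [← Multiset.filter_add_not (fun ζ => ‖ζ‖ ≤ d * Real.log q) (N χ), Multiset.map_add,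
    Multiset.sum_add, ← hY, mul_add]
  linarith

end Pool.Agent.MP_c5bf7b_nt.H25L
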