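import Pool.Agent.MP_c5bf7b_nt.H25L.SpecB
import Pool.Agent.MP_c5bf7b_nt.H38.AdmR

/-! The parabola function times a triangle has a transform with non-negative real part. -/

set_option autoImplicit false

namespace Pool.Agent.MP_c5bf7b_nt.H25L

open Complex MeasureTheory intervalIntegral Set Pool.Agent.MP_c5bf7b_nt.H38

namespace PolL

theorem swap {E : Type} [NormedAddCommGroup E] [NormedSpace ℝ E] {F : ℝ → ℝ → E}
    (h : Continuous F.uncurry) (a b c d : ℝ) :
    ∫ x in a..b, ∫ y in c..d, F x y = ∫ y in c..d, ∫ x in a..b, F x y :=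
  intervalIntegral_intervalIntegral_swap ((h.continuousOn.integrableOn_compact
    (isCompact_uIcc.prod isCompact_uIcc)).mono_set (prod_mono uIoc_subset_uIcc uIoc_subset_uIcc))

/-- the parabola extended by zero -/
noncomputable def gz (x a : ℝ) : ℝ := max 0 (a * (x - a))

theorem gz_cont (x : ℝ) : Continuous (gz x) := by
  unfold gz
  fun_prop

theorem gz_supp {x a : ℝ} (hx : 0 < x) (h : gz x a ≠ 0) : 0 < a ∧ a < x := by
  have h1 : 0 < a * (x - a) := by
    by_contra h2
    exact h (max_eq_left (not_lt.1 h2))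
  constructor <;> by_contra h2 <;> nlinarith

theorem corr {x t : ℝ} (hx : 0 < x) (h0 : 0 ≤ t) (h1 : t ≤ x) :
    ∫ u in (0 : ℝ)..(x - t), gz x u * gz x (u + t) = x ^ 5 / 30 * par x t := by
  have e : ∫ u in (0 : ℝ)..(x - t), gz x u * gz x (u + t) =
      ∫ u in (0 : ℝ)..(x - t), u * (x - u) * ((u + t) * (x - (u + t))) := by
    refine integral_congr fun u hu => ?_
    rw [uIcc_of_le (by linarith)] at hu
    obtain ⟨a, b⟩ := hu
    unfold gz
    rw [max_eq_right (mul_nonneg a (by linarith)),
      max_eq_right (mul_nonneg (by linarith) (by linarith))]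
  have hd : ∀ u : ℝ, HasDerivAt (fun u : ℝ => u ^ 5 / 5 + (2 * t - 2 * x) * u ^ 4 / 4 +
      (x * (x - t) - t * (2 * x - t)) * u ^ 3 / 3 + t * x * (x - t) * u ^ 2 / 2)
      (u * (x - u) * ((u + t) * (x - (u + t)))) u := fun u => by
    have h2 := ((((hasDerivAt_pow 5 u).div_const 5).add
      (((hasDerivAt_pow 4 u).const_mul (2 * t - 2 * x)).div_const 4)).add
      (((hasDerivAt_pow 3 u).const_mul (x * (x - t) - t * (2 * x - t))).div_const 3)).add
      (((hasDerivAt_pow 2 u).const_mul (t * x * (x - t))).div_const 2)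
    refine h2.congr_deriv ?_
    push_cast
    ring
  rw [e, integral_eq_sub_of_hasDerivAt (fun u _ => hd u)
    (Continuous.intervalIntegrable (by fun_prop) _ _)]
  unfold par
  field_simp
  ring

theorem shift {x t u : ℝ} (hx : 0 < x) (h0 : 0 ≤ t) (h1 : t ≤ x) (h2 : 0 ≤ u) (h3 : u ≤ x) :
    ∫ s in (-x)..x, gz x (s + u) * gz x (s + (u + t)) = x ^ 5 / 30 * par x t := by
  have k : ∀ a b : ℝ, a ≤ 0 → x - t ≤ b →
      ∫ s in a..b, gz x s * gz x (s + t) = ∫ s, gz x s * gz x (s + t) := fun a b ha hb =>
    integral_eq_integral_of_support_subset fun s hs =>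
      ⟨by linarith [(gz_supp hx (left_ne_zero_of_mul hs)).1],
        by linarith [(gz_supp hx (right_ne_zero_of_mul hs)).2]⟩
  have e := integral_comp_add_right (a := -x) (b := x) (fun s => gz x s * gz x (s + t)) u
  simp only [← add_assoc]
  rw [e, k _ _ (by linarith) (by linarith), ← k 0 (x - t) le_rfl le_rfl, corr hx h0 h1]

end PolL

open PolL

theorem pol : PolS := by
  intro x v ν hx _ h0 hv
  have hg := gz_cont x
  set f : ℝ → ℝ → ℝ := fun s t => ∫ u in (0 : ℝ)..(v - t), gz x (s + u) * gz x (s + (u + t))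
    with hf
  have c1 : Continuous f.uncurry :=
    continuous_parametric_intervalIntegral_of_continuous
      (f := fun (p : ℝ × ℝ) u => gz x (p.1 + u) * gz x (p.1 + (u + p.2)))
      (by unfold Function.uncurry; fun_prop) (s := fun p => v - p.2) (by fun_prop)
  have c2 : Continuous (Function.uncurry fun s t : ℝ => (f s t : ℂ) * exp (-(ν * I) * t)) :=
    (continuous_ofReal.comp c1).mul (by fun_prop)
  have h1 : ∀ s, 0 ≤ (H38.Lp (f s) v (ν * I)).re := fun s => by
    have := AdmAux.autocorr (g := fun u => gz x (s + u)) (f := f s) (c := 1) (x := v)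
      (by fun_prop) h0 (fun t => one_mul _) (z := ν * I) (by simp)
    linarith [sq_nonneg ‖∫ u in (0 : ℝ)..v, (gz x (s + u) : ℂ) * exp (-(ν * I) * u)‖]
  have h2 : ∫ s in (-x)..x, H38.Lp (f s) v (ν * I) =
      (x ^ 5 / 30 : ℝ) * H38.Lp (fun u => par x u * (v - u)) v (ν * I) := by
    unfold H38.Lp
    rw [swap c2, ← intervalIntegral.integral_const_mul]
    refine integral_congr fun t ht => ?_
    rw [uIcc_of_le h0] at ht
    have e : ∫ s in (-x)..x, f s t = x ^ 5 / 30 * (par x t * (v - t)) := by
      simp only [hf]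
      rw [swap (by unfold Function.uncurry; fun_prop),
        integral_congr (g := fun _ => x ^ 5 / 30 * par x t) fun u hu => ?_]
      · rw [intervalIntegral.integral_const, smul_eq_mul]
        ring
      · rw [uIcc_of_le (by linarith [ht.2])] at hu
        exact shift hx ht.1 (ht.2.trans hv) hu.1 (by linarith [hu.2, ht.1])
    simp only
    rw [intervalIntegral.integral_mul_const, intervalIntegral.integral_ofReal, e]
    push_cast
    ring
  have c3 : Continuous fun s => H38.Lp (f s) v (ν * I) :=
    continuous_parametric_intervalIntegral_of_continuous' c2 0 v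
  have h3 := reCLM.intervalIntegral_comp_comm (c3.intervalIntegrable (μ := volume) (-x) x)
  have h4 : 0 ≤ ∫ s in (-x)..x, reCLM (H38.Lp (f s) v (ν * I)) :=
    integral_nonneg (by linarith) fun s _ => h1 s
  rw [h3, h2, reCLM_apply, re_ofReal_mul] at h4
  exact nonneg_of_mul_nonneg_right h4 (by positivity)

end Pool.Agent.MP_c5bf7b_nt.H25L

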