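import Pool.Agent.MP_c5bf7b_nt.H25L.SpecA

/-! Powers of a Dirichlet polynomial. -/

set_option autoImplicit false

namespace Pool.Agent.MP_c5bf7b_nt.H25L

open Finset

namespace PowL

theorem card_le (A A' N N' n : ℕ) :
    #{p ∈ Ioc A A' ×ˢ Ioc N N' | p.1 * p.2 = n} ≤ #n.divisors := by
  refine card_le_card_of_injOn (fun p => p.1) (fun p hp => ?_) fun p hp p' hp' e => ?_
  · simp only [coe_filter, mem_product, mem_Ioc, Set.mem_ofPred_eq] at hp
    obtain ⟨⟨h1, h2⟩, rfl⟩ := hp
    exact mem_coe.2 (Nat.mem_divisors.2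
      ⟨Dvd.intro _ rfl, Nat.mul_ne_zero (by omega) (by omega)⟩)
  · simp only [coe_filter, mem_product, mem_Ioc, Set.mem_ofPred_eq] at hp hp'
    dsimp only at e
    refine Prod.ext e (Nat.eq_of_mul_eq_mul_left (show 0 < p.1 by omega) ?_)
    rw [hp.2, e, hp'.2]

end PowL

theorem pow : PowS := by
  intro a N N' k D D' hk hN hD hD' ha hd
  induction k, hk using Nat.le_induction with
  | base =>
    refine ⟨fun n => if n ∈ Ioc N N' then a n else 0, fun n => ?_, fun g _ => ?_⟩
    · have : D ≤ (D * D') ^ 1 := by nlinarith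
      dsimp only
      split_ifs with h
      · exact (ha n h).trans this
      · simpa using hD.trans this
    · simp only [pow_one]
      exact sum_congr rfl fun n hn => by rw [if_pos hn]
  | succ k hk ih =>
    have h0 : N' ^ k ≤ N' ^ (k + 1) := by
      rcases Nat.eq_zero_or_pos N' with rfl | h
      · rw [zero_pow (by omega)]
        exact Nat.zero_le _
      · exact Nat.pow_le_pow_right h (Nat.le_succ k)
    obtain ⟨b, hb, hg⟩ := ih fun n hn => hd n (hn.trans h0)
    have hm : ∀ p ∈ Ioc (N ^ k) (N' ^ k) ×ˢ Ioc N N',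
        p.1 * p.2 ∈ Ioc (N ^ (k + 1)) (N' ^ (k + 1)) := fun p hp => by
      simp only [mem_product, mem_Ioc] at hp
      rw [mem_Ioc, pow_succ, pow_succ]
      exact ⟨Nat.mul_lt_mul'' hp.1.1 hp.2.1, Nat.mul_le_mul hp.1.2 hp.2.2⟩
    have hp0 : 0 ≤ (D * D') ^ k := by positivity
    refine ⟨fun n => ∑ p ∈ Ioc (N ^ k) (N' ^ k) ×ˢ Ioc N N' with p.1 * p.2 = n, b p.1 * a p.2,
      fun n => ?_, fun g hmul => ?_⟩
    · rcases ({p ∈ Ioc (N ^ k) (N' ^ k) ×ˢ Ioc N N' | p.1 * p.2 = n}).eq_empty_or_nonempty with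
        h | ⟨p, hp⟩
      · simp only [h, sum_empty, norm_zero]
        positivity
      · have h1 : n ≤ N' ^ (k + 1) := by
          rw [← (mem_filter.1 hp).2]
          exact (mem_Ioc.1 (hm p (mem_filter.1 hp).1)).2
        refine (norm_sum_le _ _).trans ((sum_le_card_nsmul _ _ ((D * D') ^ k * D)
          fun p hp => ?_).trans ?_)
        · rw [norm_mul]
          exact mul_le_mul (hb _) (ha _ (mem_product.1 (mem_filter.1 hp).1).2) (norm_nonneg _) hp0
        · have h2 : (#{p ∈ Ioc (N ^ k) (N' ^ k) ×ˢ Ioc N N' | p.1 * p.2 = n} : ℝ) ≤ D' :=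
            le_trans (by exact_mod_cast PowL.card_le _ _ _ _ _) (hd n h1)
          rw [nsmul_eq_mul, pow_succ]
          refine (mul_le_mul_of_nonneg_right h2 (mul_nonneg hp0 hD)).trans (le_of_eq ?_)
          ring
    · rw [pow_succ, hg g hmul, sum_mul_sum, ← sum_product', ← sum_fiberwise_of_maps_to hm]
      refine sum_congr rfl fun n _ => ?_
      rw [sum_mul]
      refine sum_congr rfl fun p hp => ?_
      rw [← (mem_filter.1 hp).2, hmul]
      ring

end Pool.Agent.MP_c5bf7b_nt.H25L
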