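import Pool.Agent.MP_c5bf7b_nt.H25L.SpecB

/-! Row PS: the inequality between prime sums. -/

set_option autoImplicit false

namespace Pool.Agent.MP_c5bf7b_nt.H25L

open Finset Complex ArithmeticFunction Pool.Agent.MP_c5bf7b_nt.H38

namespace PsL

theorem amgm {p : ℝ} (hp : 0 < p) (k X : ℝ) : 2 * k * X ≤ p * X ^ 2 + k ^ 2 / p := by
  have : p * X ^ 2 + k ^ 2 / p - 2 * k * X = (p * X - k) ^ 2 / p := by field_simp; ring
  have h := div_nonneg (sq_nonneg (p * X - k)) hp.le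
  linarith

theorem re_sq (Z : ℂ) : Z.re ^ 2 ≤ ‖Z‖ ^ 2 := by
  rw [← sq_abs]
  exact pow_le_pow_left₀ (abs_nonneg _) (abs_re_le_norm Z) 2

theorem pt1 {σ : ℝ} (hσ : 0 < σ) (τ w v u : ℝ) (Z : ℂ) :
    -2 * (τ * Real.exp (w * u)) * Z.re ≤
      σ * Real.exp (v * u) * ‖Z‖ ^ 2 + τ ^ 2 * Real.exp ((2 * w - v) * u) / σ := by
  have hp : 0 < σ * Real.exp (v * u) := by positivity
  have h := amgm hp (-(τ * Real.exp (w * u))) Z.re
  have e : (-(τ * Real.exp (w * u))) ^ 2 / (σ * Real.exp (v * u)) =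
      τ ^ 2 * Real.exp ((2 * w - v) * u) / σ := by
    rw [show (2 * w - v) * u = w * u + w * u - v * u by ring, Real.exp_sub, Real.exp_add]
    field_simp
  have := mul_le_mul_of_nonneg_left (re_sq Z) hp.le
  linarith

theorem pt2 {Ψ u g : ℝ} (hΨ : 0 < Ψ) (hg : 0 < g) (hu : g < u) (k : ℝ) (Z : ℂ) :
    -2 * k * Z.re ≤ Ψ * (u - g) / (2 * u) * ‖Z - (k / Ψ : ℝ)‖ ^ 2 +
      2 * g / (u - g) * k ^ 2 / Ψ := by
  have h1 : 0 < u - g := by linarith
  have h2 : 0 < u := by linarith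
  have hp : 0 < Ψ * (u - g) / (2 * u) := by positivity
  have h := amgm hp (-k) (Z.re - k / Ψ)
  have e : (-k) ^ 2 / (Ψ * (u - g) / (2 * u)) = 2 * g / (u - g) * k ^ 2 / Ψ + 2 * k * (k / Ψ) := by
    field_simp
    ring
  have h3 := re_sq (Z - (k / Ψ : ℝ))
  rw [sub_re, ofReal_re] at h3
  have := mul_le_mul_of_nonneg_left h3 hp.le
  linarith

theorem un_mem {q n : ℕ} (hq : 2 ≤ q) {a b : ℝ}
    (hn : n ∈ Ioc ⌊(q : ℝ) ^ a⌋₊ ⌊(q : ℝ) ^ b⌋₊) : un q n ∈ Set.Icc a b := by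
  have q1 : (1 : ℝ) < q := by exact_mod_cast hq
  have q0 : (0 : ℝ) < q := by linarith
  have hl := Real.log_pos q1
  obtain ⟨h1, h2⟩ := mem_Ioc.1 hn
  have h3 : (q : ℝ) ^ a < n := Nat.lt_of_floor_lt h1
  have h4 : (n : ℝ) ≤ (q : ℝ) ^ b := (Nat.le_floor_iff (by positivity)).1 h2
  have h5 := Real.rpow_pos_of_pos q0 a
  have h6 := Real.log_le_log h5 h3.le
  have h7 := Real.log_le_log (h5.trans h3) h4
  rw [Real.log_rpow q0] at h6 h7
  exact ⟨(le_div_iff₀ hl).2 h6, (div_le_iff₀ hl).2 h7⟩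

theorem lw_nonneg (q n : ℕ) : 0 ≤ lw q n :=
  div_nonneg vonMangoldt_nonneg (mul_nonneg (Nat.cast_nonneg _) (Real.log_natCast_nonneg _))

theorem zs_zero {ι : Type} {q n : ℕ} (J : Finset ι) (ch : ι → Ch q) (t c : ι → ℝ)
    (h : ¬ n.Coprime q) : Zs J ch t c n = 0 :=
  sum_eq_zero fun j _ => by
    rw [MulChar.map_nonunit _ (by rwa [ZMod.isUnit_iff_coprime]), mul_zero, zero_mul]

theorem cont_par (x : ℝ) : Continuous (par x) := by
  unfold par
  fun_prop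

theorem cont_psi (x γ : ℝ) : Continuous (Psi x γ) := by
  unfold Psi
  fun_prop

theorem psi_pos {P : Par} (h : P.Ok) {u : ℝ} (hu : 0 ≤ u) : 0 < Psi P.x P.γ u := by
  have := mul_nonneg h.g0 (div_nonneg hu h.x0.le)
  have := h.g1
  unfold Psi
  linarith

theorem f0_pos : 0 < f0 := by norm_num [f0]

/-- the oscillating diagonal term -/
noncomputable def SC {ι : Type} {q : ℕ} (J : Finset ι) (ch : ι → Ch q) (t c : ι → ℝ) (u : ℝ) : ℝ :=
  Same J ch c fun j k => Real.cos ((t j - t k) * u)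

theorem cont_SC {ι : Type} {q : ℕ} (J : Finset ι) (ch : ι → Ch q) (t c : ι → ℝ) :
    Continuous (SC J ch t c) := by
  unfold SC Same
  refine continuous_finsetSum _ fun j _ => continuous_finsetSum _ fun k _ => ?_
  split_ifs <;> fun_prop

theorem same_eq {ι : Type} {q : ℕ} (J : Finset ι) (ch : ι → Ch q) (t c : ι → ℝ) {g : ℝ → ℝ}
    (hg : Continuous g) (x : ℝ) :
    Same J ch c (fun j k => (Lp g x ((t j - t k : ℝ) * I)).re) =
      ∫ u in (0 : ℝ)..x, g u * SC J ch t c u := by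
  have h1 : ∀ ν : ℝ, (Lp g x (ν * I)).re = ∫ u in (0 : ℝ)..x, g u * Real.cos (ν * u) := fun ν => by
    have := reCLM.intervalIntegral_comp_comm (μ := MeasureTheory.volume) (a := 0) (b := x)
      (f := fun u : ℝ => (g u : ℂ) * exp (-(ν * I) * u))
      (Continuous.intervalIntegrable (by fun_prop) _ _)
    simp only [reCLM_apply] at this
    rw [Lp, ← this]
    refine intervalIntegral.integral_congr fun u _ => ?_
    have e : -((ν : ℂ) * I) * u = ((-(ν * u) : ℝ) : ℂ) * I := by push_cast; ring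
    simp only [e, re_ofReal_mul, exp_ofReal_mul_I_re, Real.cos_neg]
  simp only [SC, Same, h1, mul_sum]
  rw [intervalIntegral.integral_finsetSum fun j _ => Continuous.intervalIntegrable
    (continuous_finsetSum _ fun k _ => by split_ifs <;> fun_prop) _ _]
  refine sum_congr rfl fun j _ => ?_
  rw [intervalIntegral.integral_finsetSum fun k _ => Continuous.intervalIntegrable
    (by split_ifs <;> fun_prop) _ _]
  refine sum_congr rfl fun k _ => ?_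
  split_ifs
  · rw [← intervalIntegral.integral_const_mul]
    exact intervalIntegral.integral_congr fun u _ => by ring
  · simp

/-- the term of `n` -/
noncomputable def TT (P : Par) {ι : Type} {q : ℕ} (J : Finset ι) (ch : ι → Ch q) (t c : ι → ℝ)
    (σ : ℝ) (n : ℕ) : ℝ :=
  -2 * (lw q n * par P.x (un q n) * Real.exp (P.w * un q n) * (Zs J ch t c n).re) -
    σ * (lw q n * par P.x (un q n) * Real.exp (P.v * un q n) * ‖Zs J ch t c n‖ ^ 2)

noncomputable def be (P : Par) (u : ℝ) : ℝ := par P.x u * Real.exp ((2 * P.w - P.v) * u)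

noncomputable def ro (P : Par) (u : ℝ) : ℝ :=
  par P.x u * (Real.exp (2 * P.w * u) * ((u + f0) / ((u - f0) * Psi P.x P.γ u)))

theorem cont_be (P : Par) : Continuous (be P) := (cont_par _).mul (by fun_prop)

theorem first {P : Par} (hA : Adm (par P.x) P.x) (hM : MerS) {b ε : ℝ} (hb : 0 ≤ b)
    (hx : b ≤ P.x) (hε : 0 < ε) : ∃ q₀ : ℕ, ∀ q : ℕ, q₀ ≤ q →
    ∀ (ι : Type) (J : Finset ι) (ch : ι → Ch q) (t c : ι → ℝ) (σ : ℝ), 0 < σ →
      ∑ n ∈ Ioc 0 ⌊(q : ℝ) ^ b⌋₊, TT P J ch t c σ n ≤ ((∫ u in (0 : ℝ)..b, be P u) + ε) / σ := by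
  obtain ⟨q₀, h⟩ := hM 0 b ε (be P) le_rfl hb hε (cont_be P).continuousOn fun u hu =>
    mul_nonneg (hA.nonneg u hu.1 (hu.2.trans hx)) (Real.exp_pos _).le
  refine ⟨max q₀ 2, fun q hq ι J ch t c σ hσ => ?_⟩
  have q2 : 2 ≤ q := le_of_max_le_right hq
  have q1 : (1 : ℝ) ≤ q := by exact_mod_cast (by omega : 1 ≤ q)
  have h1 : 1 ≤ ⌊(q : ℝ) ^ b⌋₊ := Nat.le_floor (by simpa using Real.one_le_rpow q1 hb)
  have h0 : ⌊(q : ℝ) ^ (0 : ℝ)⌋₊ = 1 := by simp
  rw [← sum_Ioc_consecutive _ (Nat.zero_le 1) h1, ← h0]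
  have h2 : ∑ n ∈ Ioc 0 ⌊(q : ℝ) ^ (0 : ℝ)⌋₊, TT P J ch t c σ n = 0 := by simp [TT, lw]
  rw [h2, zero_add]
  refine le_trans ?_ (div_le_div_of_nonneg_right (h q (le_of_max_le_left hq)) hσ.le)
  rw [sum_div]
  refine sum_le_sum fun n hn => ?_
  have hu := un_mem q2 hn
  have := mul_le_mul_of_nonneg_left (pt1 hσ 1 P.w P.v (un q n) (Zs J ch t c n))
    (mul_nonneg (lw_nonneg q n) (hA.nonneg _ hu.1 (hu.2.trans hx)))
  unfold TT be
  calc _ ≤ lw q n * par P.x (un q n) * (1 ^ 2 * Real.exp ((2 * P.w - P.v) * un q n) / σ) := by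
        linarith
    _ = _ := by ring

theorem cell {P : Par} (ok : P.Ok) (hA : Adm (par P.x) P.x) (hM : MerS) (hS : SvwS)
    {a b τ ε : ℝ} (ha : f0 < a) (hab : a ≤ b) (hx : b ≤ P.x) (t0 : 0 ≤ τ) (t1 : τ ≤ 1)
    (hε : 0 < ε) : ∃ δ : ℝ, 0 < δ ∧ ∃ q₀ : ℕ, ∀ (q : ℕ) [NeZero q], q₀ ≤ q →
    ∀ (ι : Type) (J : Finset ι) (ch : ι → Ch q) (t c : ι → ℝ) (σ : ℝ), 0 < σ →
      (∀ j ∈ J, ch j ≠ 1 ∧ |t j| ≤ (q : ℝ) ^ δ * Real.log q ∧ 0 ≤ c j) →
      ∑ n ∈ Ioc ⌊(q : ℝ) ^ a⌋₊ ⌊(q : ℝ) ^ b⌋₊, TT P J ch t c σ n ≤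
        τ ^ 2 * (∫ u in a..b, be P u) / σ + (1 - τ) ^ 2 * (∫ u in a..b, ro P u) +
        (∫ u in a..b, par P.x u * Psi P.x P.γ u * SC J ch t c u) +
        (ε / σ + ε + ε * (1 + ∑ j ∈ J, c j) ^ 2) := by
  have g0 := f0_pos
  have a0 : 0 ≤ a := by linarith
  have u1 : ∀ u ∈ Set.Icc a b, f0 < u := fun u hu => ha.trans_le hu.1
  have u2 : ∀ u ∈ Set.Icc a b, 0 < Psi P.x P.γ u := fun u hu => psi_pos ok (a0.trans hu.1)
  have u3 : ∀ u ∈ Set.Icc a b, 0 ≤ par P.x u := fun u hu =>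
    hA.nonneg u (a0.trans hu.1) (hu.2.trans hx)
  have cp := cont_par P.x
  have cs := cont_psi P.x P.γ
  set G : ℝ → ℝ := fun u => par P.x u * (Psi P.x P.γ u * (u - f0) / (2 * u)) with hG
  set y : ℝ → ℝ := fun u => (1 - τ) * Real.exp (P.w * u) / Psi P.x P.γ u with hy
  set β : ℝ → ℝ := fun u => par P.x u *
    (2 * f0 / (u - f0) * ((1 - τ) * Real.exp (P.w * u)) ^ 2 / Psi P.x P.γ u) with hβ
  have cG : ContinuousOn G (Set.Icc a b) := cp.continuousOn.mul (ContinuousOn.div (by fun_prop)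
    (by fun_prop) fun u hu => by linarith [u1 u hu])
  have cy : ContinuousOn y (Set.Icc a b) :=
    ContinuousOn.div (by fun_prop) cs.continuousOn fun u hu => (u2 u hu).ne'
  have cβ : ContinuousOn β (Set.Icc a b) := cp.continuousOn.mul (ContinuousOn.div
    ((ContinuousOn.div (by fun_prop) (by fun_prop) fun u hu => by linarith [u1 u hu]).mul
      (by fun_prop)) cs.continuousOn fun u hu => (u2 u hu).ne')
  have pG : ∀ u ∈ Set.Icc a b, 0 ≤ G u := fun u hu => by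
    have := u1 u hu
    exact mul_nonneg (u3 u hu) (div_nonneg (mul_nonneg (u2 u hu).le (by linarith)) (by linarith))
  have pβ : ∀ u ∈ Set.Icc a b, 0 ≤ β u := fun u hu => by
    have := u1 u hu
    exact mul_nonneg (u3 u hu) (div_nonneg (mul_nonneg (div_nonneg (by linarith) (by linarith))
      (sq_nonneg _)) (u2 u hu).le)
  obtain ⟨q₁, h1⟩ := hM a b ε (be P) a0 hab hε (cont_be P).continuousOn fun u hu =>
    mul_nonneg (u3 u hu) (Real.exp_pos _).le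
  obtain ⟨q₂, h2⟩ := hM a b ε β a0 hab hε cβ pβ
  obtain ⟨δ, hδ, q₃, h3⟩ := hS a b ε G y ha hab hε cG cy pG
  refine ⟨δ, hδ, q₁ + q₂ + q₃ + 2, fun q _ hq ι J ch t c σ hσ hJ => ?_⟩
  have k1 := h1 q (by omega)
  have k2 := h2 q (by omega)
  have k3 := h3 q (by omega) ι J ch t c hJ
  have k4 : ∑ n ∈ Ioc ⌊(q : ℝ) ^ a⌋₊ ⌊(q : ℝ) ^ b⌋₊, TT P J ch t c σ n ≤
      τ ^ 2 / σ * ∑ n ∈ Ioc ⌊(q : ℝ) ^ a⌋₊ ⌊(q : ℝ) ^ b⌋₊, lw q n * be P (un q n) +
      ∑ n ∈ Ioc ⌊(q : ℝ) ^ a⌋₊ ⌊(q : ℝ) ^ b⌋₊, lw q n * β (un q n) +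
      ∑ n ∈ (Ioc ⌊(q : ℝ) ^ a⌋₊ ⌊(q : ℝ) ^ b⌋₊).filter (fun n => n.Coprime q),
        lw q n * G (un q n) * ‖Zs J ch t c n - y (un q n)‖ ^ 2 := by
    rw [sum_filter, mul_sum, ← sum_add_distrib, ← sum_add_distrib]
    refine sum_le_sum fun n hn => ?_
    have hu := un_mem (by omega) hn
    have p0 := mul_nonneg (lw_nonneg q n) (u3 _ hu)
    have p1 := mul_le_mul_of_nonneg_left (pt1 hσ τ P.w P.v (un q n) (Zs J ch t c n)) p0
    have e1 : τ ^ 2 / σ * (lw q n * be P (un q n)) =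
        lw q n * par P.x (un q n) * (τ ^ 2 * Real.exp ((2 * P.w - P.v) * un q n) / σ) := by
      unfold be
      ring
    rw [e1]
    split_ifs with hc
    · have p2 := mul_le_mul_of_nonneg_left (pt2 (u2 _ hu) g0 (u1 _ hu)
        ((1 - τ) * Real.exp (P.w * un q n)) (Zs J ch t c n)) p0
      simp only [TT, hG, hy, hβ]
      linarith
    · have p2 := mul_nonneg (lw_nonneg q n) (pβ _ hu)
      simp only [TT, zs_zero J ch t c hc, zero_re, norm_zero] at p1 ⊢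
      linarith
  have cC : Continuous fun u => par P.x u * Psi P.x P.γ u * SC J ch t c u :=
    (cp.mul cs).mul (cont_SC J ch t c)
  have i1 : IntervalIntegrable (fun u => par P.x u * Psi P.x P.γ u * y u ^ 2)
      MeasureTheory.volume a b :=
    (((cp.mul cs).continuousOn.mul (cy.pow 2)).intervalIntegrable_of_Icc hab)
  have k5 : (∫ u in a..b, 2 * u / (u - f0) * G u *
      (y u ^ 2 + Same J ch c fun j k => Real.cos ((t j - t k) * u))) =
      (∫ u in a..b, par P.x u * Psi P.x P.γ u * y u ^ 2) +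
        ∫ u in a..b, par P.x u * Psi P.x P.γ u * SC J ch t c u := by
    rw [← intervalIntegral.integral_add i1 (cC.intervalIntegrable _ _)]
    refine intervalIntegral.integral_congr fun u hu => ?_
    rw [Set.uIcc_of_le hab] at hu
    have n1 : u - f0 ≠ 0 := by linarith [u1 u hu]
    have n2 : u ≠ 0 := by linarith [u1 u hu]
    simp only [hG, SC]
    field_simp
  have k6 : (∫ u in a..b, β u) + (∫ u in a..b, par P.x u * Psi P.x P.γ u * y u ^ 2) =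
      (1 - τ) ^ 2 * ∫ u in a..b, ro P u := by
    rw [← intervalIntegral.integral_add (cβ.intervalIntegrable_of_Icc hab) i1,
      ← intervalIntegral.integral_const_mul]
    refine intervalIntegral.integral_congr fun u hu => ?_
    rw [Set.uIcc_of_le hab] at hu
    have n1 : u - f0 ≠ 0 := by linarith [u1 u hu]
    have n2 := (u2 u hu).ne'
    simp only [hβ, hy, ro, show 2 * P.w * u = P.w * u + P.w * u by ring, Real.exp_add]
    field_simp
    ring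
  have k7 := mul_le_mul_of_nonneg_left k1 (div_nonneg (sq_nonneg τ) hσ.le)
  have k8 : τ ^ 2 / σ * ε ≤ ε / σ := by
    rw [div_mul_eq_mul_div]
    exact div_le_div_of_nonneg_right (mul_le_of_le_one_left hε.le (by nlinarith)) hσ.le
  have k9 : τ ^ 2 / σ * ((∫ u in a..b, be P u) + ε) =
      τ ^ 2 * (∫ u in a..b, be P u) / σ + τ ^ 2 / σ * ε := by ring
  linarith

theorem a_mono {P : Par} (ok : P.Ok) {i j : ℕ} (hij : i ≤ j) (hj : j ≤ P.n) : P.a i ≤ P.a j := by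
  induction j, hij using Nat.le_induction with
  | base => exact le_rfl
  | succ k _ ih => exact (ih (by omega)).trans (ok.mono k (by omega))

theorem upto {P : Par} (ok : P.Ok) (hA : Adm (par P.x) P.x) (hM : MerS) (hS : SvwS) {ε : ℝ}
    (hε : 0 < ε) (m : ℕ) (hm : m ≤ P.n) : ∃ δ : ℝ, 0 < δ ∧ ∃ q₀ : ℕ, ∀ (q : ℕ) [NeZero q],
    q₀ ≤ q → ∀ (ι : Type) (J : Finset ι) (ch : ι → Ch q) (t c : ι → ℝ) (σ : ℝ), 0 < σ →
      (∀ j ∈ J, ch j ≠ 1 ∧ |t j| ≤ (q : ℝ) ^ δ * Real.log q ∧ 0 ≤ c j) →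
      ∑ n ∈ Ioc 0 ⌊(q : ℝ) ^ P.a m⌋₊, TT P J ch t c σ n ≤
        ((∫ u in (0 : ℝ)..P.a 0, be P u) +
          ∑ i ∈ range m, P.τ i ^ 2 * ∫ u in P.a i..P.a (i + 1), be P u) / σ +
        ∑ i ∈ range m, (1 - P.τ i) ^ 2 * (∫ u in P.a i..P.a (i + 1), ro P u) +
        (∫ u in P.a 0..P.a m, par P.x u * Psi P.x P.γ u * SC J ch t c u) +
        (m + 1) * (ε / σ + ε + ε * (1 + ∑ j ∈ J, c j) ^ 2) := by
  induction m with
  | zero =>
    obtain ⟨q₀, h⟩ := first hA hM (f0_pos.trans ok.a0).le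
      ((a_mono ok hm le_rfl).trans_eq ok.an) hε
    refine ⟨1, one_pos, q₀, fun q _ hq ι J ch t c σ hσ _ => (h q hq ι J ch t c σ hσ).trans ?_⟩
    have := mul_nonneg hε.le (sq_nonneg (1 + ∑ j ∈ J, c j))
    simp only [range_zero, sum_empty, intervalIntegral.integral_same, add_div, Nat.cast_zero,
      zero_div]
    linarith
  | succ m ih =>
    obtain ⟨δ₁, d1, q₁, h1⟩ := ih (by omega)
    have mm := ok.mono m hm
    obtain ⟨δ₂, d2, q₂, h2⟩ := cell ok hA hM hS (ok.a0.trans_le (a_mono ok m.zero_le (by omega)))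
      mm ((a_mono ok hm le_rfl).trans_eq ok.an) (ok.t m hm).1 (ok.t m hm).2 hε
    refine ⟨min δ₁ δ₂, lt_min d1 d2, max q₁ q₂, fun q _ hq ι J ch t c σ hσ hJ => ?_⟩
    have q1 : (1 : ℝ) ≤ q := by exact_mod_cast NeZero.one_le
    have hJ' : ∀ δ, min δ₁ δ₂ ≤ δ →
        ∀ j ∈ J, ch j ≠ 1 ∧ |t j| ≤ (q : ℝ) ^ δ * Real.log q ∧ 0 ≤ c j := fun δ h j hj =>
      ⟨(hJ j hj).1, (hJ j hj).2.1.trans (mul_le_mul_of_nonneg_right
        (Real.rpow_le_rpow_of_exponent_le q1 h) (Real.log_nonneg q1)), (hJ j hj).2.2⟩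
    have k1 := h1 q (le_of_max_le_left hq) ι J ch t c σ hσ (hJ' _ (min_le_left _ _))
    have k2 := h2 q (le_of_max_le_right hq) ι J ch t c σ hσ (hJ' _ (min_le_right _ _))
    have ci : Continuous fun u => par P.x u * Psi P.x P.γ u * SC J ch t c u :=
      ((cont_par P.x).mul (cont_psi P.x P.γ)).mul (cont_SC J ch t c)
    rw [← sum_Ioc_consecutive _ (Nat.zero_le _)
      (Nat.floor_mono (Real.rpow_le_rpow_of_exponent_le q1 mm)), sum_range_succ, sum_range_succ,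
      ← intervalIntegral.integral_add_adjacent_intervals (b := P.a m)
        (ci.intervalIntegrable _ _) (ci.intervalIntegrable _ _)]
    simp only [add_div] at k1 ⊢
    push_cast
    linarith

end PsL

open PsL

theorem psOf : PsOf := by
  intro hAdm hG hM hS P ε ok hε
  have hA := hAdm.1 P.x ok.x0 ok.x5
  have n0 : (0 : ℝ) < 2 * (P.n + 1) := by positivity
  obtain ⟨δ, hδ, q₀, h⟩ := upto ok hA hM hS (div_pos hε n0) P.n le_rfl
  refine ⟨δ, hδ, q₀, fun q _ hq ι J ch t c σ hσ hJ => ?_⟩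
  have k := h q hq ι J ch t c σ hσ hJ
  have cg : Continuous fun u => par P.x u * Psi P.x P.γ u :=
    (cont_par P.x).mul (cont_psi P.x P.γ)
  have ci : Continuous fun u => par P.x u * Psi P.x P.γ u * SC J ch t c u :=
    cg.mul (cont_SC J ch t c)
  rw [(hG q ι J ch t c (par P.x) P.x P.w).1, (hG q ι J ch t c (par P.x) P.x P.v).2.1,
    same_eq J ch t c cg, ← intervalIntegral.integral_add_adjacent_intervals (b := P.a 0)
      (ci.intervalIntegrable _ _) (ci.intervalIntegrable _ _)]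
  have a0 := (f0_pos.trans ok.a0).le
  have p1 : 0 ≤ ∫ u in (0 : ℝ)..P.a 0, par P.x u * Psi P.x P.γ u * SC J ch t c u :=
    intervalIntegral.integral_nonneg a0 fun u hu => mul_nonneg (mul_nonneg (hA.nonneg u hu.1
      (hu.2.trans ((a_mono ok P.n.zero_le le_rfl).trans_eq ok.an))) (psi_pos ok hu.1).le)
      ((hG q ι J ch t c (par P.x) P.x P.w).2.2.2 u).1
  have s1 : 1 ≤ (1 + ∑ j ∈ J, c j) ^ 2 :=
    one_le_pow₀ (le_add_of_nonneg_right (sum_nonneg fun j hj => (hJ j hj).2.2))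
  have e1 : ((P.n : ℝ) + 1) * (ε / (2 * (P.n + 1)) / σ + ε / (2 * (P.n + 1)) +
      ε / (2 * (P.n + 1)) * (1 + ∑ j ∈ J, c j) ^ 2) =
      ε / 2 * (1 / σ + 1 + (1 + ∑ j ∈ J, c j) ^ 2) := by field_simp
  have e2 : ε / 2 * (1 / σ + 1 + (1 + ∑ j ∈ J, c j) ^ 2) ≤
      ε * (1 + 1 / σ) * (1 + ∑ j ∈ J, c j) ^ 2 := by
    have := one_div_pos.2 hσ
    rw [mul_assoc, div_mul_eq_mul_div, mul_div_assoc]
    exact mul_le_mul_of_nonneg_left (by nlinarith) hε.le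
  rw [ok.an, e1] at k
  simp only [TT, sum_sub_distrib, ← mul_sum] at k
  have e3 : Icc 1 ⌊(q : ℝ) ^ P.x⌋₊ = Ioc 0 ⌊(q : ℝ) ^ P.x⌋₊ := rfl
  rw [e3]
  unfold Par.I Par.R
  unfold be ro at k
  linarith

end Pool.Agent.MP_c5bf7b_nt.H25L
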