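import Pool.Agent.MP_c5bf7b_nt.H25L.SpecA
import Pool.Agent.MP_74e98a_nt.H25.Div

/-! The inequality of Polya and Vinogradov. -/

set_option autoImplicit false

namespace Pool.Agent.MP_c5bf7b_nt.H25L

open Finset Complex Pool.Agent.MP_c5bf7b_nt.H38

namespace PvL

theorem sin_ge {t : ℝ} (h0 : 0 ≤ t) (h1 : t ≤ 1) : 2 * (t * (1 - t)) ≤ Real.sin (Real.pi * t) := by
  have key : ∀ s : ℝ, 0 ≤ s → s ≤ 1 / 2 → 2 * s ≤ Real.sin (Real.pi * s) := fun s a b => by
    have := Real.mul_le_sin (x := Real.pi * s) (by positivity) (by nlinarith [Real.pi_pos])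
    rwa [← mul_assoc, div_mul_cancel₀ _ Real.pi_ne_zero] at this
  rcases le_total t (1 / 2) with h | h
  · nlinarith [key t h0 h]
  · have := key (1 - t) (by linarith) (by linarith)
    rw [mul_sub Real.pi, mul_one, Real.sin_pi_sub] at this
    nlinarith

theorem geom (z : ℂ) (hz : ‖z‖ = 1) (a b : ℕ) : ‖z - 1‖ * ‖∑ n ∈ Ioc a b, z ^ n‖ ≤ 2 := by
  rcases le_total a b with h | h
  · have e : (z - 1) * ∑ n ∈ Ioc a b, z ^ n = z ^ (b + 1) - z ^ (a + 1) := by
      induction b, h using Nat.le_induction with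
      | base => simp
      | succ b hb ih =>
        rw [sum_Ioc_succ_top hb, mul_add, ih]
        ring
    rw [← norm_mul, e]
    refine (norm_sub_le _ _).trans ?_
    rw [norm_pow, norm_pow, hz, one_pow, one_pow]
    norm_num
  · rw [Ioc_eq_empty (by omega)]
    simp

variable {m : ℕ} [NeZero m]

theorem expsum (k : ZMod m) (hk : k ≠ 0) (a b : ℕ) :
    ‖∑ n ∈ Ioc a b, ZMod.stdAddChar (k * (n : ZMod m))‖ ≤
      m / 2 * (1 / (k.val : ℝ) + 1 / ((-k).val : ℝ)) := by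
  have hm : (0 : ℝ) < m := Nat.cast_pos.2 (NeZero.pos m)
  have h0 : (0 : ℝ) < k.val := Nat.cast_pos.2 (ZMod.val_pos.2 hk)
  have h1 : (k.val : ℝ) < m := Nat.cast_lt.2 (ZMod.val_lt k)
  have h2 : ((-k).val : ℝ) = m - k.val := by
    rw [ZMod.neg_val, if_neg hk, Nat.cast_sub (ZMod.val_lt k).le]
  have e : ZMod.stdAddChar k = exp (I * (2 * (Real.pi * (k.val / m)) : ℝ)) := by
    have := ZMod.stdAddChar_coe (N := m) (k.val : ℤ)
    rw [Int.cast_natCast, ZMod.natCast_zmod_val] at this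
    rw [this]
    congr 1
    push_cast
    ring
  have h3 := geom (ZMod.stdAddChar k) (by rw [e, mul_comm, norm_exp_ofReal_mul_I]) a b
  have h4 : 4 * (k.val / m * (1 - k.val / m)) ≤ ‖ZMod.stdAddChar k - 1‖ := by
    rw [e, norm_exp_I_mul_ofReal_sub_one, mul_div_cancel_left₀ _ two_ne_zero, Real.norm_eq_abs]
    have := sin_ge (t := k.val / m) (by positivity) ((div_le_one hm).2 h1.le)
    exact le_trans (by linarith) (le_abs_self _)
  have h5 : ∀ n : ℕ, ZMod.stdAddChar (k * (n : ZMod m)) = ZMod.stdAddChar k ^ n := fun n => by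
    rw [← AddChar.map_nsmul_eq_pow, nsmul_eq_mul, mul_comm]
  simp only [h5]
  have h6 : 0 < m - (k.val : ℝ) := by linarith
  have h7 : 0 < 4 * ((k.val : ℝ) / m * (1 - k.val / m)) := by
    have : 0 < 1 - (k.val : ℝ) / m := by rw [sub_pos, div_lt_one hm]; exact h1
    positivity
  have h8 := (le_div_iff₀' h7).2 ((mul_le_mul_of_nonneg_right h4 (norm_nonneg _)).trans h3)
  refine h8.trans (le_of_eq ?_)
  rw [h2]
  field_simp
  ring

theorem harm : ∑ k : ZMod m, 1 / (k.val : ℝ) ≤ 1 + Real.log m := by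
  have h1 : ∑ k : ZMod m, 1 / (k.val : ℝ) = ∑ i ∈ range m, 1 / (i : ℝ) :=
    sum_nbij' (fun k => k.val) (fun i => (i : ZMod m)) (fun k _ => mem_range.2 (ZMod.val_lt k))
      (fun _ _ => mem_univ _) (fun k _ => ZMod.natCast_zmod_val k)
      (fun i hi => ZMod.val_cast_of_lt (mem_range.1 hi)) fun _ _ => rfl
  have h2 := harmonic_le_one_add_log m
  rw [harmonic] at h2
  push_cast at h2
  refine h1.trans_le (le_trans ?_ h2)
  have h3 := sum_range_succ' (fun i : ℕ => 1 / (i : ℝ)) m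
  rw [sum_range_succ] at h3
  have h4 : (0 : ℝ) ≤ 1 / m := by positivity
  simp only [Nat.cast_add, Nat.cast_one, Nat.cast_zero, div_zero, add_zero, one_div] at h3 h4 ⊢
  linarith

theorem gauss {ψ : Ch m} (hψ : ψ.IsPrimitive) : ‖gaussSum ψ ZMod.stdAddChar‖ = √m := by
  have h1 := congrFun (ZMod.dft_dft (ψ : ZMod m → ℂ)) (-1)
  rw [ZMod.dft_apply] at h1
  simp only [hψ.fourierTransform_eq_inv_mul_gaussSum, neg_neg, map_one, smul_eq_mul, mul_one,
    mul_neg, ← mul_assoc, ← sum_mul] at h1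
  have h2 : ∑ j : ZMod m, ZMod.stdAddChar j * ψ⁻¹ (-j) = star (gaussSum ψ ZMod.stdAddChar) := by
    rw [star_gaussSum_eq, gaussSum, ← Equiv.sum_comp (Equiv.neg _)]
    refine sum_congr rfl fun j _ => ?_
    simp [mul_comm, AddChar.inv_apply]
  rw [h2] at h1
  have h3 := congrArg norm h1
  rw [norm_mul, norm_star, norm_natCast] at h3
  rw [← h3, Real.sqrt_mul_self (norm_nonneg _)]

theorem prim {ψ : Ch m} (hψ : ψ.IsPrimitive) (hm : m ≠ 1) (a b : ℕ) :
    ‖∑ n ∈ Ioc a b, ψ n‖ ≤ √m * (1 + Real.log m) := by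
  have hm0 : (0 : ℝ) < m := Nat.cast_pos.2 (NeZero.pos m)
  have : Nontrivial (ZMod m) := ZMod.nontrivial_iff.2 hm
  have h1 : ∀ x : ZMod m, ψ x =
      (m : ℂ)⁻¹ * ∑ k : ZMod m, ZMod.stdAddChar (k * x) * ZMod.dft (ψ : ZMod m → ℂ) k := fun x => by
    have := ZMod.invDFT_apply (ZMod.dft (ψ : ZMod m → ℂ)) x
    rwa [LinearEquiv.symm_apply_apply] at this
  have h2 : ∑ n ∈ Ioc a b, ψ n = (m : ℂ)⁻¹ * ∑ k : ZMod m,
      (∑ n ∈ Ioc a b, ZMod.stdAddChar (k * (n : ZMod m))) * ZMod.dft (ψ : ZMod m → ℂ) k := by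
    simp only [sum_mul]
    rw [sum_comm, mul_sum]
    exact sum_congr rfl fun n _ => h1 n
  have h3 : ∀ k : ZMod m, ‖(∑ n ∈ Ioc a b, ZMod.stdAddChar (k * (n : ZMod m))) *
      ZMod.dft (ψ : ZMod m → ℂ) k‖ ≤ m / 2 * (1 / (k.val : ℝ) + 1 / ((-k).val : ℝ)) * √m := by
    intro k
    rw [hψ.fourierTransform_eq_inv_mul_gaussSum]
    by_cases hk : k = 0
    · rw [hk, neg_zero, MulChar.map_zero]
      simp
    · rw [norm_mul, norm_mul, gauss hψ]
      refine mul_le_mul (expsum k hk a b) ?_ (by positivity) (by positivity)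
      exact mul_le_of_le_one_left (Real.sqrt_nonneg _) (DirichletCharacter.norm_le_one _ _)
  have h4 : ∑ k : ZMod m, 1 / ((-k).val : ℝ) = ∑ k : ZMod m, 1 / (k.val : ℝ) :=
    Equiv.sum_comp (Equiv.neg _) fun k : ZMod m => 1 / (k.val : ℝ)
  rw [h2, norm_mul, norm_inv, norm_natCast, inv_mul_le_iff₀ hm0]
  refine (norm_sum_le _ _).trans ((sum_le_sum fun k _ => h3 k).trans ?_)
  rw [← sum_mul, ← mul_sum, sum_add_distrib, h4]
  have h5 := mul_le_mul_of_nonneg_left (harm (m := m)) (mul_nonneg hm0.le (Real.sqrt_nonneg m))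
  linarith

theorem sieve {q : ℕ} [NeZero q] (χ : Ch q) (n : ℕ) : χ n = ∑ d ∈ q.divisors,
    if d ∣ n then (ArithmeticFunction.moebius d : ℂ) * χ.primitiveCharacter n else 0 := by
  have h1 : q.divisors.filter (· ∣ n) = (Nat.gcd n q).divisors := by
    ext d
    simp only [mem_filter, Nat.mem_divisors, Nat.dvd_gcd_iff, ne_eq, Nat.gcd_eq_zero_iff,
      NeZero.ne q, and_false, not_false_eq_true, and_true]
    exact and_comm
  have h2 := congrArg (fun f : ArithmeticFunction ℂ => f (Nat.gcd n q))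
    (ArithmeticFunction.coe_moebius_mul_coe_zeta (R := ℂ))
  simp only [ArithmeticFunction.coe_mul_zeta_apply, ArithmeticFunction.intCoe_apply,
    ArithmeticFunction.one_apply] at h2
  rw [← sum_filter, h1, ← sum_mul, h2]
  split_ifs with h
  · have := χ.primitiveCharacter_apply_of_isCoprime (a := n) (Nat.isCoprime_iff_coprime.2 h)
    simpa using this.symm
  · rw [zero_mul]
    exact χ.map_nonunit fun hu => h ((ZMod.isUnit_iff_coprime n q).1 hu)

theorem mult {d : ℕ} (hd : 0 < d) (f : ℕ → ℂ) (a b : ℕ) :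
    ∑ n ∈ Ioc a b, (if d ∣ n then f n else 0) = ∑ k ∈ Ioc (a / d) (b / d), f (d * k) := by
  rw [← sum_filter]
  refine sum_nbij' (fun n => n / d) (fun k => d * k) (fun n hn => ?_) (fun k hk => ?_)
    (fun n hn => Nat.mul_div_cancel' (mem_filter.1 hn).2)
    (fun k _ => Nat.mul_div_cancel_left k hd)
    fun n hn => by rw [Nat.mul_div_cancel' (mem_filter.1 hn).2]
  · obtain ⟨h1, k, rfl⟩ := mem_filter.1 hn
    rw [mem_Ioc] at h1 ⊢
    rw [Nat.mul_div_cancel_left k hd, Nat.div_lt_iff_lt_mul hd, Nat.le_div_iff_mul_le hd, mul_comm]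
    exact h1
  · rw [mem_Ioc, Nat.div_lt_iff_lt_mul hd, Nat.le_div_iff_mul_le hd, mul_comm] at hk
    exact mem_filter.2 ⟨mem_Ioc.2 hk, dvd_mul_right _ _⟩

theorem all {q : ℕ} [NeZero q] (χ : Ch q) (hχ : χ ≠ 1) (a b : ℕ) :
    ‖∑ n ∈ Ioc a b, χ n‖ ≤ q.divisors.card * (√q * (1 + Real.log q)) := by
  have : NeZero χ.conductor := ⟨χ.conductor_ne_zero⟩
  have h0 : (1 : ℝ) ≤ χ.conductor := Nat.one_le_cast.2 (NeZero.pos χ.conductor)
  have h1 : (χ.conductor : ℝ) ≤ q :=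
    Nat.cast_le.2 (Nat.le_of_dvd (NeZero.pos q) χ.conductor_dvd_level)
  simp only [sieve χ]
  rw [sum_comm, ← nsmul_eq_mul]
  refine (norm_sum_le _ _).trans (sum_le_card_nsmul _ _ _ fun d hd => ?_)
  rw [mult (Nat.pos_of_mem_divisors hd)]
  simp only [Nat.cast_mul, map_mul, ← mul_assoc]
  rw [← mul_sum, norm_mul, norm_mul]
  have h2 : ‖(ArithmeticFunction.moebius d : ℂ)‖ ≤ 1 := by
    rw [norm_intCast]
    exact_mod_cast ArithmeticFunction.abs_moebius_le_one
  have h3 := prim χ.primitiveCharacter_isPrimitive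
    (fun h => hχ (DirichletCharacter.eq_one_iff_conductor_eq_one.2 h)) (a / d) (b / d)
  refine (mul_le_of_le_one_left (norm_nonneg _) (mul_le_one₀ h2 (norm_nonneg _)
    (DirichletCharacter.norm_le_one _ _))).trans (h3.trans ?_)
  have h4 := Real.log_nonneg h0
  gcongr

end PvL

theorem pv : PvS := by
  intro ε hε
  obtain ⟨C, hC, hd⟩ := MP_74e98a_nt.H25.divisor_bound (ε / 2) (by positivity)
  have h0 : 0 < 2 / ε := by positivity
  refine ⟨C * (1 + 2 / ε), one_le_mul_of_one_le_of_one_le hC (by linarith),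
    fun q _ χ hχ a b => (PvL.all χ hχ a b).trans ?_⟩
  have h1 : (1 : ℝ) ≤ q := Nat.one_le_cast.2 (NeZero.pos q)
  have h2 : 1 + Real.log q ≤ (1 + 2 / ε) * (q : ℝ) ^ (ε / 2) := by
    have a1 := Real.log_le_rpow_div (x := q) (by positivity) (half_pos hε)
    have a2 : 1 ≤ (q : ℝ) ^ (ε / 2) := Real.one_le_rpow h1 (by positivity)
    rw [div_div_eq_mul_div, mul_div_assoc] at a1
    linarith
  have h3 := Real.log_nonneg h1
  calc (q.divisors.card : ℝ) * (√q * (1 + Real.log q))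
      ≤ C * (q : ℝ) ^ (ε / 2) * (√q * ((1 + 2 / ε) * (q : ℝ) ^ (ε / 2))) := by
        gcongr
        exact hd q
    _ = _ := by
        rw [Real.sqrt_eq_rpow, show 1 / 2 + ε = 1 / 2 + (ε / 2 + ε / 2) by ring,
          Real.rpow_add (by linarith), Real.rpow_add (by linarith)]
        ring

end Pool.Agent.MP_c5bf7b_nt.H25L
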