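import Pool.Agent.MP_c5bf7b_nt.H25L.SpecC

/-! The sum over the zeros in the window is bounded by a dual certificate. -/

set_option autoImplicit false

namespace Pool.Agent.MP_c5bf7b_nt.H25L

open Finset Complex Pool.Agent.MP_c5bf7b_nt.H38

namespace Sum5L

/-- the normalised weight -/
noncomputable def h (K : ℝ) (ζ : ℂ) : ℝ := ‖HK K ζ‖ / K ^ 2

theorem h0 (K : ℝ) (ζ : ℂ) : 0 ≤ h K ζ := by unfold h; positivity

theorem h_le (H : HkS) {K : ℝ} (hK : 0 < K) {ζ : ℂ} (hζ : 0 < ζ.re) : h K ζ ≤ eta K ζ.re := by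
  have := (H.2 K ζ hK hζ).2.1
  rw [h, div_le_iff₀ (by positivity)]
  refine this.trans (le_of_eq ?_)
  rw [eta]; field_simp

theorem norm_HE {K : ℝ} (hK : 0 < K) (E : ℝ) (ζ : ℂ) :
    ‖HE K E ζ‖ = K ^ 2 * (Real.exp (-E * ζ.re) * h K ζ) := by
  rw [HE, norm_mul, norm_exp, h]
  have : (-(E : ℂ) * ζ).re = -E * ζ.re := by simp
  rw [this]; field_simp

theorem sum_h {K B : ℝ} (hK : 0 < K) {Y : Multiset ℂ}
    (hB : (Y.map fun ζ => ‖HK K ζ‖).sum ≤ K ^ 2 * B) : (Y.map (h K)).sum ≤ B := by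
  have : (Y.map (h K)).sum = (Y.map fun ζ => ‖HK K ζ‖).sum / K ^ 2 :=
    Multiset.sum_map_div _ _ _
  rw [this, div_le_iff₀ (by positivity)]
  linarith

theorem mono {S S' : Multiset ℂ} (hS : S ≤ S') {f : ℂ → ℝ} (hf : ∀ ζ, 0 ≤ f ζ) :
    (S.map f).sum ≤ (S'.map f).sum := by
  obtain ⟨u, rfl⟩ := Multiset.le_iff_exists_add.1 hS
  rw [Multiset.map_add, Multiset.sum_add]
  refine le_add_of_nonneg_right (Multiset.sum_nonneg fun x hx => ?_)
  obtain ⟨ζ, -, rfl⟩ := Multiset.mem_map.1 hx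
  exact hf ζ

theorem swap (S : Multiset ℂ) (n : ℕ) (f : ℕ → ℂ → ℝ) :
    (S.map fun ζ => ∑ i ∈ range n, f i ζ).sum = ∑ i ∈ range n, (S.map (f i)).sum := by
  induction S using Multiset.induction_on with
  | empty => simp
  | cons a S ih => simp [ih, sum_add_distrib]

theorem one {N S : Multiset ℂ} (hS : S ≤ N) (K : ℝ) (e : ℂ → ℝ) {μ B : ℝ} (hμ : 0 ≤ μ)
    (hB : (N.map (h K)).sum ≤ B) : (S.map fun ζ => e ζ * h K ζ).sum ≤
      μ * B + (S.map fun ζ => (e ζ - μ) * h K ζ).sum := by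
  have h1 : (S.map fun ζ => e ζ * h K ζ).sum =
      μ * (S.map (h K)).sum + (S.map fun ζ => (e ζ - μ) * h K ζ).sum := by
    rw [← Multiset.sum_map_mul_left, ← Multiset.sum_map_add]
    exact congrArg _ (Multiset.map_congr rfl fun ζ _ => by ring)
  have h2 := mul_le_mul_of_nonneg_left ((mono hS (h0 K)).trans hB) hμ
  linarith

theorem term {x y η c : ℝ} (hy : 0 ≤ y) (hη : y ≤ η) (hc : 0 ≤ c) (h : x * η ≤ c) : x * y ≤ c := by
  rcases le_total 0 x with hx | hx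
  · exact (mul_le_mul_of_nonneg_left hη hx).trans h
  · exact (mul_nonpos_of_nonpos_of_nonneg hx hy).trans hc

theorem term' (x : ℝ) {y η : ℝ} (hy : 0 ≤ y) (hη : y ≤ η) : x * y ≤ max 0 x * η :=
  (mul_le_mul_of_nonneg_right (le_max_right 0 x) hy).trans
    (mul_le_mul_of_nonneg_left hη (le_max_left 0 x))

variable {c : Cert} {K E : ℝ} {Ds : Set DZ} {Es : Set (ℝ × ℝ × ℝ)} {nm per : ℕ} {l₁ lo W : ℝ}

theorem w_le {w a l : ℝ} (hw : w ≤ lo ∨ w + c0 ≤ min a 10) (h1 : lo ≤ l) (h2 : a ≤ l) : w ≤ l := by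
  rcases hw with hw | hw
  · linarith
  · have := min_le_left a 10
    have : 0 < c0 := by norm_num [c0]
    linarith

theorem ord (H : HkS) (hK : 0 < K) (G : c.Good K E Ds Es nm per l₁ lo W) {N Z : Multiset ℂ}
    {z : ℂ} (hz : z ∈ Z) (hZ : Z ≤ N) (hm : ∀ ζ ∈ Z, z.re ≤ ζ.re) (h1 : 0 < z.re) (h2 : lo ≤ z.re)
    (hB : (N.map (h K)).sum ≤ BK K ((c.κ z.re : ℝ) / 20) + e0) :
    (Z.map fun ζ => Real.exp (-E * ζ.re) * h K ζ).sum ≤
      c.first z.re + (Z.map fun ζ => c.cost lo z.re ζ.re).sum := by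
  refine (one hZ K _ (G.cls _ h1 h2).2.2 hB).trans ?_
  obtain ⟨Z', rfl⟩ := Multiset.exists_cons_of_mem hz
  rw [Multiset.map_cons, Multiset.sum_cons, Multiset.map_cons, Multiset.sum_cons]
  have a1 := G.g1 _ h1 h2
  have a2 := term' (Real.exp (-E * z.re) - c.μ z.re) (h0 K z) (h_le H hK h1)
  have a3 : (Z'.map fun ζ => (Real.exp (-E * ζ.re) - c.μ z.re) * h K ζ).sum ≤
      (Z'.map fun ζ => c.cost lo z.re ζ.re).sum := by
    refine Multiset.sum_map_le_sum_map _ _ fun ζ hζ => ?_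
    have b := hm ζ (Multiset.mem_cons_of_mem hζ)
    refine term (h0 K ζ) (h_le H hK (h1.trans_le b)) (sum_nonneg fun i hi => ?_) (G.g2 _ _ h1 h2 b)
    split_ifs with hw
    · exact mul_nonneg (G.mem i (mem_range.1 hi)).2.1
        (G.ad i (mem_range.1 hi) _ (h2.trans b) (w_le hw (h2.trans b) b)).1
    · exact le_rfl
  linarith

theorem exc (H : HkS) (hK : 0 < K) (G : c.Good K E Ds Es nm per l₁ lo W) (hn : nm ≠ 0)
    {N X Z : Multiset ℂ} (hZ : X + Z ≤ N) (hX : X.card = per) (hre : ∀ ζ ∈ X, ζ.re = l₁)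
    (h1 : 0 < l₁) (h2 : ∀ ζ ∈ Z, 0 < ζ.re ∧ lo ≤ ζ.re)
    (hB : (N.map (h K)).sum ≤ BK K ((c.κE : ℝ) / 20) + e0) :
    ((X + Z).map fun ζ => Real.exp (-E * ζ.re) * h K ζ).sum ≤
      c.μE * (BK K ((c.κE : ℝ) / 20) + e0) +
        per * (max 0 (Real.exp (-E * l₁) - c.μE) * eta K l₁) +
        (Z.map fun ζ => ∑ i ∈ range c.n,
          if (c.D i).P.w ≤ lo then c.y i * c.rX i ζ.re else 0).sum := by
  refine (one hZ K _ (G.clsE hn).2.2 hB).trans ?_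
  rw [Multiset.map_add, Multiset.sum_add]
  have a2 : (X.map fun ζ => (Real.exp (-E * ζ.re) - c.μE) * h K ζ).sum ≤
      per * (max 0 (Real.exp (-E * l₁) - c.μE) * eta K l₁) := by
    have := Multiset.sum_le_card_nsmul (X.map fun ζ => (Real.exp (-E * ζ.re) - c.μE) * h K ζ)
      (max 0 (Real.exp (-E * l₁) - c.μE) * eta K l₁) fun x hx => by
        obtain ⟨ζ, hζ, rfl⟩ := Multiset.mem_map.1 hx
        have b := hre ζ hζ
        rw [← b] at h1 ⊢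
        exact term' _ (h0 K ζ) (h_le H hK h1)
    rwa [Multiset.card_map, hX, nsmul_eq_mul] at this
  have a3 : (Z.map fun ζ => (Real.exp (-E * ζ.re) - c.μE) * h K ζ).sum ≤
      (Z.map fun ζ => ∑ i ∈ range c.n,
        if (c.D i).P.w ≤ lo then c.y i * c.rX i ζ.re else 0).sum := by
    refine Multiset.sum_map_le_sum_map _ _ fun ζ hζ => ?_
    obtain ⟨b1, b2⟩ := h2 ζ hζ
    refine term (h0 K ζ) (h_le H hK b1) (sum_nonneg fun i hi => ?_) (G.g3 hn _ b1 b2)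
    split_ifs with hw
    · exact mul_nonneg (G.mem i (mem_range.1 hi)).2.1
        ((G.adE hn i (mem_range.1 hi) hw).2.2 _ b2).1
    · exact le_rfl
  linarith

open Classical in
/-- the windows `Z` and the first zeros `z` -/
structure Data {q : ℕ} (N X Z : Ch q → Multiset ℂ) (z : Ch q → ℂ) (Lm T lo : ℝ) : Prop where
  le : ∀ χ, X χ + Z χ ≤ N χ
  cov : ∀ χ, (N χ).filter (fun ζ => ζ.re < Lm ∧ |ζ.im| ≤ T) ≤ X χ + Z χ
  mem : ∀ χ, ∀ ζ ∈ Z χ, lo ≤ ζ.re ∧ ζ.re < Lm ∧ |ζ.im| ≤ T + 10000 * Real.log q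
  zX : ∀ χ, X χ ≠ 0 → z χ ∈ X χ
  zZ : ∀ χ, X χ = 0 → Z χ ≠ 0 → z χ ∈ Z χ ∧ (∀ ζ ∈ N χ, |ζ.im| ≤ T → (z χ).re ≤ ζ.re) ∧
    ∀ ζ ∈ Z χ, (z χ).re ≤ ζ.re ∧
      ∀ ζ' ∈ N χ, |ζ'.im - ζ.im| ≤ Real.log q → min (z χ).re 10 - c0 ≤ ζ'.re

open Classical in
theorem data (Hw : WincS) {q : ℕ} {N X : Ch q → Multiset ℂ} {Lm T : ℝ} (hl : 0 ≤ Real.log q)
    (hp : ∀ χ, ∀ ζ ∈ N χ, 0 < ζ.re) (hX : ∀ χ, X χ ≤ N χ)
    (hf : ∀ χ, ∀ ζ ∈ N χ - X χ, |ζ.im| ≤ T + 10000 * Real.log q → lo ≤ ζ.re) :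
    ∃ Z z, Data N X Z z Lm T lo := by
  choose T' t1 t2 t3 using fun χ => Hw (N χ) T _ hl (hp χ)
  obtain ⟨Z, hZ⟩ : ∃ Z : Ch q → Multiset ℂ,
      ∀ χ, Z χ = (N χ - X χ).filter fun ζ => ζ.re < Lm ∧ |ζ.im| ≤ T' χ := ⟨_, fun _ => rfl⟩
  have hm : ∀ χ ζ, ζ ∈ Z χ ↔ ζ ∈ N χ - X χ ∧ ζ.re < Lm ∧ |ζ.im| ≤ T' χ := fun χ ζ => by
    rw [hZ, Multiset.mem_filter]
  have hz : ∀ χ, ∃ z : ℂ, (X χ ≠ 0 → z ∈ X χ) ∧
      (X χ = 0 → Z χ ≠ 0 → z ∈ Z χ ∧ ∀ ζ ∈ Z χ, z.re ≤ ζ.re) := fun χ => by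
    by_cases h1 : X χ = 0
    · by_cases h2 : Z χ = 0
      · exact ⟨0, fun h => absurd h1 h, fun _ h => absurd h2 h⟩
      · obtain ⟨z, hz, hm⟩ := Multiset.exists_min_image Complex.re h2
        exact ⟨z, fun h => absurd h1 h, fun _ _ => ⟨hz, hm⟩⟩
    · obtain ⟨z, hz⟩ := Multiset.exists_mem_of_ne_zero h1
      exact ⟨z, fun _ => hz, fun h => absurd h h1⟩
  choose z z1 z2 using hz
  have sp : ∀ χ, X χ + (N χ - X χ) = N χ := fun χ => add_tsub_cancel_of_le (hX χ)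
  refine ⟨Z, z, fun χ => ?_, fun χ => ?_, fun χ ζ hζ => ?_, z1, fun χ h1 h2 => ?_⟩
  · rw [hZ]
    exact (add_le_add le_rfl (Multiset.filter_le _ _)).trans (sp χ).le
  · rw [hZ]
    conv_lhs => rw [← sp χ, Multiset.filter_add]
    exact add_le_add (Multiset.filter_le _ _)
      (Multiset.monotone_filter_right _ fun ζ hζ => ⟨hζ.1, hζ.2.trans (t1 χ)⟩)
  · obtain ⟨a, b, d⟩ := (hm χ ζ).1 hζ
    exact ⟨hf χ ζ a (d.trans (t2 χ)), b, d.trans (t2 χ)⟩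
  · obtain ⟨a, b⟩ := z2 χ h1 h2
    have key : ∀ ζ ∈ N χ, |ζ.im| ≤ T' χ → (z χ).re ≤ ζ.re := fun ζ hζ him => by
      rcases lt_or_ge ζ.re Lm with h | h
      · exact b ζ ((hm χ ζ).2 ⟨by rwa [h1, Multiset.sub_zero], h, him⟩)
      · exact ((hm χ _).1 a).2.1.le.trans h
    refine ⟨a, fun ζ hζ him => key ζ hζ (him.trans (t1 χ)), fun ζ hζ => ⟨b ζ hζ,
      fun ζ' hζ' him => t3 χ _ key ζ' hζ' ?_⟩⟩
    have d1 := ((hm χ ζ).1 hζ).2.2
    have d2 := abs_sub_abs_le_abs_sub ζ'.im ζ.im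
    linarith

open Classical in
/-- the density inequality number `i` -/
theorem dens (G : c.Good K E Ds Es nm per l₁ lo W) {q : ℕ} [NeZero q]
    {N X Z : Ch q → Multiset ℂ} {z : Ch q → ℂ} {Lm Th T : ℝ} (D : Data N X Z z Lm T lo)
    (hl : 0 ≤ Real.log q) (hT : 100000 * Real.log q ≤ T) (hTh : 20 * T ≤ Th) (X1 : X 1 = 0)
    (hre : ∀ χ, ∀ ζ ∈ X χ, ζ.re = l₁ ∧ |ζ.im| ≤ T) (hn : ∀ χ, X χ ≠ 0 → nm ≠ 0 ∧ l₁ ≤ Lm)
    (hs : ∑ χ, (X χ).card = nm * per) (hper : ∀ χ, X χ ≠ 0 → (X χ).card = per)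
    (hf : ∀ χ, ∀ ζ ∈ N χ - X χ, |ζ.im| ≤ 10 * T → lo ≤ ζ.re) {i : ℕ} (hi : i < c.n)
    (hd : DZp q N (c.D i) e0 Lm Th) :
    ∑ χ, ((if χ ≠ 1 ∧ ((c.D i).P.w ≤ lo ∨ (X χ = 0 ∧ (c.D i).P.w + c0 ≤ min (z χ).re 10))
        then Z χ else 0).map fun ζ => if X χ = 0 then c.r i ζ.re else c.rX i ζ.re).sum +
      ∑ χ, ((if (c.D i).P.w ≤ lo then X χ else 0).map fun _ => c.rE i).sum ≤
      (c.D i).Rt + e0 := by
  obtain ⟨-, -, m1, m2, m3⟩ := G.mem i hi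
  have ne0 : ∀ χ, ∀ ζ ∈ X χ, X χ ≠ 0 := fun χ ζ hζ e => by simp [e] at hζ
  have near : ∀ χ (ζ : ℂ), (c.D i).P.w ≤ lo → |ζ.im| ≤ T + 10000 * Real.log q →
      ∀ ζ' ∈ N χ - X χ, |ζ'.im - ζ.im| ≤ Real.log q → (c.D i).P.w ≤ ζ'.re :=
    fun χ ζ hw him ζ' hζ' h' => hw.trans (hf χ ζ' hζ' (by
      have d2 := abs_sub_abs_le_abs_sub ζ'.im ζ.im
      linarith))
  have cost : ∀ χ, (c.D i).P.w ≤ lo → ∀ ζ ∈ X χ,
      Cost (c.D i).P.x ((c.D i).P.w - ζ.re) (c.D i).cE := fun χ hw ζ hζ => by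
    rw [(hre χ ζ hζ).1]
    exact (G.adE (hn χ (ne0 χ ζ hζ)).1 i hi hw).1
  refine hd X _ _ (T + 10000 * Real.log q) _ _ ⟨X1, hs ▸ m1,
    fun χ => (Multiset.le_add_right _ _).trans (D.le χ), by linarith,
    fun χ ζ hζ him => m2.trans (hf χ ζ hζ (by linarith)), fun χ ζ hζ => ?_⟩
    (fun χ => ⟨?_, ?_⟩) (fun χ ζ hζ => ?_) fun χ ζ hζ => ?_
  · rw [(hre χ ζ hζ).1]
    exact m3 (hn χ (ne0 χ ζ hζ)).1
  · split_ifs
    · exact le_rfl
    · exact Multiset.zero_le _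
  · split_ifs
    · exact D.le χ
    · exact (add_le_add le_rfl (Multiset.zero_le _)).trans (D.le χ)
  · by_cases ha : χ ≠ 1 ∧ ((c.D i).P.w ≤ lo ∨ (X χ = 0 ∧ (c.D i).P.w + c0 ≤ min (z χ).re 10))
    swap
    · rw [if_neg ha] at hζ; simp at hζ
    rw [if_pos ha] at hζ
    obtain ⟨b1, b2, b3⟩ := D.mem χ ζ hζ
    by_cases hx : X χ = 0
    · obtain ⟨b4, b5⟩ := (D.zZ χ hx fun e => by simp [e] at hζ).2.2 ζ hζ
      refine ⟨⟨ha.1, b3, b2.le, fun ζ' hζ' h' => ?_, fun ζ' hζ' => absurd hx (ne0 χ ζ' hζ')⟩, ?_⟩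
      · rcases ha.2 with hw | hw
        · exact near χ ζ hw b3 ζ' hζ' h'
        · have := b5 ζ' (by rwa [hx, Multiset.sub_zero] at hζ') h'
          linarith [hw.2]
      · rw [if_pos hx, hx, Multiset.card_zero]
        exact (G.ad i hi _ b1 (w_le (ha.2.imp_right And.right) b1 b4)).2
    · have hw := ha.2.resolve_right fun h => hx h.1
      refine ⟨⟨ha.1, b3, b2.le, near χ ζ hw b3, cost χ hw⟩, ?_⟩
      rw [if_neg hx, hper χ hx]
      exact ((G.adE (hn χ hx).1 i hi hw).2.2 _ b1).2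
  · by_cases hw : (c.D i).P.w ≤ lo
    swap
    · rw [if_neg hw] at hζ; simp at hζ
    rw [if_pos hw] at hζ
    have hx := ne0 χ ζ hζ
    obtain ⟨b1, b2⟩ := hre χ ζ hζ
    have b3 : |ζ.im| ≤ T + 10000 * Real.log q := by linarith
    refine ⟨⟨fun e => hx (e ▸ X1), b3, b1 ▸ (hn χ hx).2, near χ ζ hw b3, cost χ hw⟩, ?_⟩
    rw [hper χ hx, b1]
    exact (G.adE (hn χ hx).1 i hi hw).2.1

end Sum5L

open Sum5L Classical in
theorem sum5Of : Sum5Of := by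
  intro H Hw q _ N X K E Ds Es Lm Th C M T l₁ l₂ W nm per env hK hK4 hE hX X1 hre hnm hper hfar
    hn0 hT hTh ⟨c, G⟩
  have hl : 0 ≤ Real.log q := Real.log_natCast_nonneg q
  have hp : ∀ χ, ∀ ζ ∈ N χ, 0 < ζ.re := fun χ ζ hζ => (env.old.pos χ ζ hζ).1
  have hf : ∀ χ, ∀ ζ ∈ N χ - X χ, |ζ.im| ≤ 10 * T → l₂ - c0 ≤ ζ.re := fun χ ζ hζ him => by
    simpa using hfar χ ζ hζ 1 (by simpa using him)
  obtain ⟨Z, z, D⟩ := data (Lm := Lm) (T := T) Hw hl hp hX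
    fun χ ζ hζ him => hf χ ζ hζ (by linarith)
  have hn : ∀ χ, X χ ≠ 0 → nm ≠ 0 := fun χ hχ => by
    rw [← hnm]
    exact card_ne_zero_of_mem (mem_filter.2 ⟨mem_univ χ, hχ⟩)
  have hs : ∑ χ, (X χ).card = nm * per := by
    rw [← hnm, ← smul_eq_mul, ← sum_const, sum_filter]
    refine sum_congr rfl fun χ _ => ?_
    split_ifs with h
    · exact hper χ h
    · rw [not_not.1 h, Multiset.card_zero]
  have hZN : ∀ χ, Z χ ≤ N χ := fun χ => (Multiset.le_add_left _ _).trans (D.le χ)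
  set lo := l₂ - c0 with hlo
  obtain ⟨V, hV⟩ : ∃ V, V = c.μE * (BK K ((c.κE : ℝ) / 20) + e0) +
      per * (max 0 (Real.exp (-E * l₁) - c.μE) * eta K l₁) - c.first l₁ -
      per * ∑ i ∈ range c.n, if (c.D i).P.w ≤ lo then c.y i * c.rE i else 0 := ⟨_, rfl⟩
  obtain ⟨τ, hτ⟩ : ∃ τ, τ = (1 / K + 2) * Real.exp (-E * max M l₂) := ⟨_, rfl⟩
  obtain ⟨A, hA⟩ : ∃ A : ℕ → Ch q → ℝ, ∀ i χ, A i χ =
      ((if χ ≠ 1 ∧ ((c.D i).P.w ≤ lo ∨ (X χ = 0 ∧ (c.D i).P.w + c0 ≤ min (z χ).re 10))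
        then Z χ else 0).map fun ζ => if X χ = 0 then c.r i ζ.re else c.rX i ζ.re).sum :=
    ⟨_, fun _ _ => rfl⟩
  obtain ⟨B, hB⟩ : ∃ B : ℕ → Ch q → ℝ, ∀ i χ, B i χ =
      ((if (c.D i).P.w ≤ lo then X χ else 0).map fun _ => c.rE i).sum := ⟨_, fun _ _ => rfl⟩
  have hAB : ∀ i ∈ range c.n, c.y i * ∑ χ, (A i χ + B i χ) ≤ c.y i * ((c.D i).Rt + e0) := by
    intro i hi
    have hi' := mem_range.1 hi
    refine mul_le_mul_of_nonneg_left ?_ (G.mem i hi').2.1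
    rw [sum_add_distrib]
    simp only [hA, hB]
    exact dens G D hl hT hTh X1 hre (fun χ h => ⟨hn χ h, (hn0 (hn χ h)).2⟩) hs hper hf hi'
      (env.dz _ (G.mem i hi').1)
  set J : Finset (Ch q) := univ.filter fun χ => χ ≠ 1 ∧ (X χ ≠ 0 ∨ Z χ ≠ 0) with hJ
  have hF : ∑ χ ∈ J, c.first (z χ).re ≤
      ∑ k ∈ range c.m, c.yd k * (S1 f0 (c.d k).1 (c.d k).2.1 (c.d k).2.2 + e0) := by
    unfold Cert.first
    rw [sum_comm]
    refine sum_le_sum fun k hk => ?_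
    obtain ⟨d1, d2⟩ := G.memd k (mem_range.1 hk)
    rw [← mul_sum]
    refine mul_le_mul_of_nonneg_left (env.d1 _ d1 J z fun χ hχ => ?_) d2
    obtain ⟨a1, a2⟩ := (mem_filter.1 hχ).2
    by_cases hx : X χ = 0
    · have a3 := (D.zZ χ hx (a2.resolve_left (not_not.2 hx))).1
      obtain ⟨-, b2, b3⟩ := D.mem χ _ a3
      exact ⟨a1, Multiset.mem_of_le (hZN χ) a3, b2.le, by linarith⟩
    · obtain ⟨b1, b2⟩ := hre χ _ (D.zX χ hx)
      exact ⟨a1, Multiset.mem_of_le (hX χ) (D.zX χ hx), b1 ▸ (hn0 (hn χ hx)).2, by linarith⟩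
  have key : ∀ χ, (((N χ).filter fun ζ => ζ.re < Lm ∧ |ζ.im| ≤ T).map
      fun ζ => Real.exp (-E * ζ.re) * h K ζ).sum ≤
      (if χ = 1 then τ else 0) + (if X χ ≠ 0 then V else 0) +
        (if χ ≠ 1 ∧ (X χ ≠ 0 ∨ Z χ ≠ 0) then c.first (z χ).re else 0) +
        ∑ i ∈ range c.n, c.y i * (A i χ + B i χ) := by
    intro χ
    have hcov := mono (D.cov χ) (f := fun ζ => Real.exp (-E * ζ.re) * h K ζ)
      fun ζ => mul_nonneg (Real.exp_pos _).le (h0 K ζ)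
    by_cases h1 : χ = 1
    · subst h1
      have e1 : ∑ i ∈ range c.n, c.y i * (A i 1 + B i 1) = 0 :=
        sum_eq_zero fun i _ => by simp [hA, hB, X1]
      rw [e1, if_pos rfl, if_neg (not_not.2 X1), if_neg (by simp), add_zero, add_zero, add_zero]
      have a1 : (((N 1).filter fun ζ => ζ.re < Lm ∧ |ζ.im| ≤ T).map
          fun ζ => Real.exp (-E * ζ.re) * h K ζ).sum ≤
          (((N 1).filter fun ζ => ζ.re < Lm ∧ |ζ.im| ≤ T).map
          fun ζ => Real.exp (-E * max M l₂) * h K ζ).sum := by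
        refine Multiset.sum_map_le_sum_map _ _ fun ζ hζ => ?_
        obtain ⟨b1, -, b2⟩ := Multiset.mem_filter.1 hζ
        refine mul_le_mul_of_nonneg_right (Real.exp_le_exp.2 ?_) (h0 K ζ)
        have b3 : max M l₂ ≤ ζ.re := max_le (env.old.zeta ζ b1 (by linarith)) (by
          simpa using hfar 1 ζ (by rwa [X1, Multiset.sub_zero]) 0 (by simpa using b2))
        have := mul_le_mul_of_nonneg_left b3 hE
        linarith
      rw [Multiset.sum_map_mul_left] at a1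
      have a2 := sum_h hK (env.pc 1 0 (by norm_num) fun ζ hζ _ => by simpa using (hp 1 ζ hζ).le)
      have a3 : BK K (((0 : ℕ) : ℝ) / 20) + e0 ≤ 1 / K + 2 := by
        have b1 : 1 / (4 * K) ≤ 1 / K := one_div_le_one_div_of_le hK (by linarith)
        simp only [Nat.cast_zero, zero_div, BK, if_true, e0]
        linarith
      have a4 := (mono (Multiset.filter_le (fun ζ => ζ.re < Lm ∧ |ζ.im| ≤ T) (N 1)) (h0 K)).trans
        (a2.trans a3)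
      rw [hτ, mul_comm]
      exact a1.trans (mul_le_mul_of_nonneg_left a4 (Real.exp_pos _).le)
    rw [if_neg h1, zero_add]
    refine hcov.trans ?_
    by_cases hx : X χ = 0
    · rw [if_neg (not_not.2 hx), zero_add, hx, zero_add]
      by_cases hz : Z χ = 0
      · have e1 : ∑ i ∈ range c.n, c.y i * (A i χ + B i χ) = 0 :=
          sum_eq_zero fun i _ => by simp [hA, hB, hx, hz]
        rw [e1, if_neg (by simp [hz]), hz]
        simp
      · obtain ⟨b1, b2, b3⟩ := D.zZ χ hx hz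
        have b4 := hp χ _ (Multiset.mem_of_le (hZN χ) b1)
        have b5 := (D.mem χ _ b1).1
        obtain ⟨b6, b7, -⟩ := G.cls _ b4 b5
        rw [if_pos ⟨h1, Or.inr hz⟩]
        refine (ord H hK G b1 (hZN χ) (fun ζ hζ => (b3 ζ hζ).1) b4 b5 (sum_h hK (env.pc χ _ b6
          fun ζ hζ him => b7.trans (b2 ζ hζ (by linarith))))).trans (le_of_eq ?_)
        unfold Cert.cost
        rw [swap]
        congr 1
        refine sum_congr rfl fun i _ => ?_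
        by_cases hw : (c.D i).P.w ≤ lo ∨ (c.D i).P.w + c0 ≤ min (z χ).re 10
        · simp only [hA, hB, hx, h1, hw, if_true, true_and, ne_eq, not_false_eq_true, ite_self,
            Multiset.map_zero, Multiset.sum_zero, add_zero, Multiset.sum_map_mul_left]
        · simp [hA, hB, hx, -le_inf_iff, hw]
    · have b1 := (hre χ _ (D.zX χ hx)).1
      have b2 := hp χ _ (Multiset.mem_of_le (hX χ) (D.zX χ hx))
      obtain ⟨b6, b7, -⟩ := G.clsE (hn χ hx)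
      rw [if_pos hx, if_pos ⟨h1, Or.inl hx⟩, b1]
      refine (exc H hK G (hn χ hx) (D.le χ) (hper χ hx) (fun ζ hζ => (hre χ ζ hζ).1) (b1 ▸ b2)
        (fun ζ hζ => ⟨hp χ ζ (Multiset.mem_of_le (hZN χ) hζ), (D.mem χ ζ hζ).1⟩)
        (sum_h hK (env.pc χ _ b6 fun ζ hζ him => b7.trans ?_))).trans (le_of_eq ?_)
      · simpa using (hn0 (hn χ hx)).1 χ ζ (by simpa using hζ) 0 (by simp; linarith)
      · have e1 : ∑ i ∈ range c.n, c.y i * (A i χ + B i χ) =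
            ∑ i ∈ range c.n, ((Z χ).map fun ζ =>
              if (c.D i).P.w ≤ lo then c.y i * c.rX i ζ.re else 0).sum +
            per * ∑ i ∈ range c.n, if (c.D i).P.w ≤ lo then c.y i * c.rE i else 0 := by
          rw [mul_sum, ← sum_add_distrib]
          refine sum_congr rfl fun i _ => ?_
          by_cases hw : (c.D i).P.w ≤ lo
          · simp only [hA, hB, hx, h1, hw, if_true, if_false, true_or, ne_eq, not_false_eq_true,
              and_self, Multiset.sum_map_mul_left, Multiset.map_const', Multiset.sum_replicate,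
              hper χ hx, nsmul_eq_mul]
            ring
          · simp [hA, hB, hx, hw]
        rw [swap, e1, hV]
        ring
  have tot := G.tot
  rw [← hV] at tot
  have e1 : WK N K E (fun ζ => ζ.re < Lm ∧ |ζ.im| ≤ T) = K ^ 2 * ∑ χ,
      (((N χ).filter fun ζ => ζ.re < Lm ∧ |ζ.im| ≤ T).map
        fun ζ => Real.exp (-E * ζ.re) * h K ζ).sum := by
    rw [WK, mul_sum]
    refine sum_congr rfl fun χ _ => ?_
    simp only [norm_HE hK]
    rw [Multiset.sum_map_mul_left]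
    congr
  rw [e1, ← hτ]
  refine mul_le_mul_of_nonneg_left ((sum_le_sum fun χ _ => key χ).trans ?_) (by positivity)
  rw [sum_add_distrib, sum_add_distrib, sum_add_distrib, sum_ite_eq', if_pos (mem_univ _),
    ← sum_filter, ← sum_filter, sum_const, hnm, nsmul_eq_mul, sum_comm]
  have e2 := sum_le_sum hAB
  simp only [← mul_sum]
  linarith

end Pool.Agent.MP_c5bf7b_nt.H25L
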