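import Pool.Agent.MP_c5bf7b_nt.H25L.SpecB

/-! The large sieve for primes on one cell. -/

set_option autoImplicit false

namespace Pool.Agent.MP_c5bf7b_nt.H25L

open Finset Complex ArithmeticFunction Pool.Agent.MP_c5bf7b_nt.H38 Filter

namespace Sv1L

variable {ι : Type} {q : ℕ}

theorem norm_Zs (J : Finset ι) (ch : ι → Ch q) (t c : ι → ℝ) (n : ℕ) :
    ‖Zs J ch t c n‖ ≤ ∑ j ∈ J, |c j| := by
  refine norm_sum_le_of_le _ fun j _ => ?_
  rw [norm_mul, norm_mul, norm_exp_ofReal_mul_I, mul_one, norm_real, Real.norm_eq_abs]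
  exact mul_le_of_le_one_right (abs_nonneg _) ((ch j).norm_le_one _)

theorem sq_Zs [NeZero q] (J : Finset ι) (ch : ι → Ch q) (t c : ι → ℝ) (n : ℕ) :
    ‖Zs J ch t c n‖ ^ 2 = ∑ j ∈ J, ∑ k ∈ J, c j * c k *
      ((ch j * (ch k)⁻¹) n * exp (((t j - t k) * un q n : ℝ) * I)).re := by
  rw [Complex.sq_norm, ← ofReal_re (normSq _), ← mul_conj, Zs, map_sum, sum_mul_sum, re_sum]
  refine sum_congr rfl fun j _ => ?_
  rw [re_sum]
  refine sum_congr rfl fun k _ => ?_
  rw [← re_ofReal_mul, map_mul, map_mul, conj_ofReal, ← exp_conj, map_mul, conj_ofReal, conj_I,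
    MulChar.mul_apply, ← MulChar.star_apply', sub_mul, ofReal_sub, sub_mul, sub_eq_add_neg, exp_add]
  congr 1
  push_cast
  simp only [RCLike.star_def, mul_neg]
  ring

open Classical in
theorem gram [NeZero q] (A : Finset ℕ) (B : ℕ → ℝ) (κ ε Th a b : ℝ)
    (h : ∀ (ψ : Ch q) (ν : ℝ), |ν| ≤ 2 * Th →
      ‖∑ n ∈ A, (B n : ℂ) * (ψ n * exp ((ν * un q n : ℝ) * I)) -
        if ψ = 1 then κ * ∫ u in a..b, exp ((ν * u : ℝ) * I) else 0‖ ≤ ε)
    (J : Finset ι) (ch : ι → Ch q) (t c : ι → ℝ) (ht : ∀ j ∈ J, |t j| ≤ Th) :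
    ∑ n ∈ A, B n * ‖Zs J ch t c n‖ ^ 2 ≤
      κ * (∫ u in a..b, Same J ch c fun j k => Real.cos ((t j - t k) * u)) +
        ε * (∑ j ∈ J, |c j|) ^ 2 := by
  have i1 : ∀ j k, IntervalIntegrable (fun u => if ch j = ch k then
      c j * c k * Real.cos ((t j - t k) * u) else 0) MeasureTheory.volume a b := fun j k => by
    split_ifs
    · exact Continuous.intervalIntegrable (by fun_prop) _ _
    · exact intervalIntegrable_const
  simp only [sq_Zs, mul_sum, Same]
  rw [intervalIntegral.integral_finsetSum fun j _ => by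
    have := IntervalIntegrable.sum J fun k _ => i1 j k
    rwa [Finset.sum_fn] at this,
    sum_comm, sq, sum_mul_sum, mul_sum, mul_sum, ← sum_add_distrib]
  refine sum_le_sum fun j hj => ?_
  rw [intervalIntegral.integral_finsetSum fun k _ => i1 j k, sum_comm, mul_sum, mul_sum,
    ← sum_add_distrib]
  refine sum_le_sum fun k hk => ?_
  have h1 := (abs_re_le_norm _).trans (h (ch j * (ch k)⁻¹) (t j - t k)
    ((abs_sub _ _).trans (by linarith [ht j hj, ht k hk])))
  have h2 : κ * (∫ u in a..b, if ch j = ch k then c j * c k * Real.cos ((t j - t k) * u) else 0) =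
      c j * c k * (if ch j * (ch k)⁻¹ = 1 then
        (κ : ℂ) * ∫ u in a..b, exp (((t j - t k) * u : ℝ) * I) else 0).re := by
    simp only [mul_inv_eq_one]
    split_ifs
    · have := reCLM.intervalIntegral_comp_comm (μ := MeasureTheory.volume) (a := a) (b := b)
        (f := fun u : ℝ => exp (((t j - t k) * u : ℝ) * I))
        (Continuous.intervalIntegrable (by fun_prop) _ _)
      simp only [reCLM_apply, exp_ofReal_mul_I_re] at this
      rw [re_ofReal_mul, ← this, intervalIntegral.integral_const_mul]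
      ring
    · simp
  rw [sub_re, re_sum] at h1
  simp only [re_ofReal_mul] at h1
  simp only [mul_left_comm (B _)]
  rw [h2, ← mul_sum, ← sub_le_iff_le_add', ← mul_sub, ← abs_mul, mul_comm ε]
  exact (le_abs_self _).trans ((abs_mul _ _).le.trans
    (mul_le_mul_of_nonneg_left h1 (abs_nonneg _)))

theorem nonprime : ∃ C : ℝ, ∀ A : Finset ℕ,
    ∑ n ∈ A, (if n.Prime then 0 else vonMangoldt n) / (n : ℝ) ≤ C := by
  have h := vonMangoldt.summable_residueClass_non_primes_div (0 : ZMod 1)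
  have e : ∀ n, vonMangoldt.residueClass (0 : ZMod 1) n = vonMangoldt n := fun n => by
    unfold vonMangoldt.residueClass
    exact Set.indicator_of_mem
      (show n ∈ {n : ℕ | (n : ZMod 1) = 0} from Subsingleton.elim (α := ZMod 1) _ _) _
  simp only [e] at h
  exact ⟨_, fun A => h.sum_le_tsum A fun n _ => by positivity [vonMangoldt_nonneg (n := n)]⟩

theorem cpow_eq {n : ℕ} (hn : n ≠ 0) (ν : ℝ) :
    (n : ℂ) ^ (-(1 - (ν / Real.log q : ℝ) * I)) = exp ((ν * un q n : ℝ) * I) / n := by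
  have h : (n : ℂ) ≠ 0 := Nat.cast_ne_zero.2 hn
  rw [neg_sub, cpow_sub _ _ h, cpow_one, cpow_def_of_ne_zero h, ← natCast_log, un]
  congr 2
  push_cast
  ring

end Sv1L

open Sv1L in
theorem sv1Of : Sv1Of := by
  classical
  intro hS hG hZ hD a b ε ha hab hε
  have f0p : (1 / 4 : ℝ) < f0 := by norm_num [f0]
  rcases hab.eq_or_lt with rfl | hlt
  · exact ⟨1, one_pos, 0, fun q _ _ ι J ch t c y _ => by simp; positivity⟩
  have hb : 0 < b := by linarith
  have hc : 0 < (a - f0) / 2 := by linarith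
  have he : 0 < ε / (b + 1) := by positivity
  obtain ⟨δG, g0, qG, hG⟩ := hG f0 _ a b 1 f0p hc (by linarith) hlt one_pos
  obtain ⟨δD, d0, qD, hD⟩ := hD _ a b _ hc (by linarith) hab he
  obtain ⟨C, hC⟩ := nonprime
  have δ0 : 0 < min δG δD / 2 := by positivity
  have T : ∀ x : ℝ, 0 < x → Tendsto (fun q : ℕ => (q : ℝ) ^ x) atTop atTop := fun x hx =>
    (tendsto_rpow_atTop hx).comp tendsto_natCast_atTop_atTop
  obtain ⟨q₀, hq⟩ := eventually_atTop.1 ((eventually_ge_atTop qG).and ((eventually_ge_atTop qD).and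
    ((eventually_ge_atTop 2).and (((T _ hc).eventually_ge_atTop 2).and
    (((T _ δ0).eventually_ge_atTop 2).and (((T _ g0).eventually_ge_atTop (ε / (b + 1))⁻¹).and
    ((Real.tendsto_log_atTop.comp tendsto_natCast_atTop_atTop).eventually_ge_atTop
      (C / (ε / (b + 1))))))))))
  refine ⟨_, δ0, q₀, fun q _ h ι J ch t c y hJ => ?_⟩
  obtain ⟨q1, q2, q3, q4, q5, q6, q7⟩ := hq q h
  have q8 : (1 : ℝ) < q := by exact_mod_cast q3
  have l0 : 0 < Real.log q := Real.log_pos q8
  obtain ⟨θ, hθ⟩ := hS q _ (by omega) q4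
  obtain ⟨κ, k1, k2⟩ := hD q q2 θ hθ
  have p2 : ∀ x, min δG δD ≤ x → 2 * (q : ℝ) ^ (min δG δD / 2) ≤ (q : ℝ) ^ x := fun x hx => by
    refine (mul_le_mul_of_nonneg_right q5 (by positivity)).trans ?_
    rw [← Real.rpow_add (by linarith), add_halves]
    exact Real.rpow_le_rpow_of_exponent_le q8.le hx
  have key := gram ((Ioc ⌊(q : ℝ) ^ a⌋₊ ⌊(q : ℝ) ^ b⌋₊).filter fun n => n.Coprime q)
    (fun n => (∑ d ∈ n.divisors, θ d) ^ 2 / n) κ (ε / (b + 1))
    ((q : ℝ) ^ (min δG δD / 2) * Real.log q) a b (q := q) (fun ψ ν hν => by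
      rw [← mul_assoc] at hν
      split_ifs with h1
      · rw [sum_congr rfl fun n hn => by
          rw [h1, MulChar.one_apply ((ZMod.isUnit_iff_coprime n q).2 (mem_filter.1 hn).2), one_mul]]
        exact k2 ν (hν.trans (mul_le_mul_of_nonneg_right (p2 _ (min_le_right _ _)) l0.le))
      · have r1 : (1 - (ν / Real.log q : ℝ) * I).re = 1 := by
          rw [sub_re, one_re, re_ofReal_mul, I_re, mul_zero, sub_zero]
        have := (hG q q1 θ hθ).2 ψ (1 - (ν / Real.log q : ℝ) * I) h1 (by linarith) (by linarith) (by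
          simp only [sub_im, one_im, mul_im, ofReal_re, I_im, mul_one, ofReal_im, I_re, mul_zero,
            add_zero, zero_sub, abs_neg, abs_div, abs_of_pos l0]
          exact (div_le_iff₀ l0).2
            (hν.trans (mul_le_mul_of_nonneg_right (p2 _ (min_le_left _ _)) l0.le)))
        rw [sub_zero, sum_filter_of_ne fun n _ hn => (ZMod.isUnit_iff_coprime n q).1 (by
          by_contra h2
          simp [ψ.map_nonunit h2] at hn)]
        refine le_trans (le_of_eq (congrArg _ (sum_congr rfl fun n hn => ?_))) (this.trans ?_)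
        · rw [cpow_eq (by have := (mem_Ioc.1 hn).1; omega)]
          push_cast
          ring
        · rw [Real.rpow_neg (by linarith)]
          exact inv_le_of_inv_le₀ he q6)
    (insertNone J) (fun o => o.elim 1 ch) (fun o => o.elim 0 t) (fun o => o.elim (-y) c) (by
      rintro (_ | j) hj
      · simp only [Option.elim_none, abs_zero]
        positivity
      · exact (hJ j (some_mem_insertNone.1 hj)).2.1)
  have e1 : ∑ o ∈ insertNone J, |o.elim (-y) c| = |y| + ∑ j ∈ J, c j := by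
    rw [sum_insertNone, Option.elim_none, abs_neg]
    exact congrArg _ (sum_congr rfl fun j hj => abs_of_nonneg (hJ j hj).2.2)
  have e2 : ∀ u : ℝ, (Same (insertNone J) (fun o => o.elim 1 ch) (fun o => o.elim (-y) c)
      fun j k => Real.cos ((j.elim 0 t - k.elim 0 t) * u)) =
      y ^ 2 + Same J ch c fun j k => Real.cos ((t j - t k) * u) := fun u => by
    rw [Same, sum_insertNone, sum_insertNone, Same, if_pos rfl]
    congr 1
    · rw [sum_eq_zero, add_zero]
      · simp [sq]
      · exact fun j hj => if_neg (hJ j hj).1.symm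
    · refine sum_congr rfl fun j hj => ?_
      rw [sum_insertNone, if_neg (by exact (hJ j hj).1), zero_add]
      rfl
  have e3 : ∀ n : ℕ, n.Coprime q → Zs (insertNone J) (fun o => o.elim 1 ch) (fun o => o.elim 0 t)
      (fun o => o.elim (-y) c) n = Zs J ch t c n - y := fun n hn => by
    simp [Zs, sum_insertNone, MulChar.one_apply ((ZMod.isUnit_iff_coprime n q).2 hn),
      sub_eq_neg_add]
  simp only [e1, e2] at key
  rw [sum_congr rfl fun n hn => by rw [e3 n (mem_filter.1 hn).2]] at key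
  have br : 0 ≤ ∫ u in a..b, (y ^ 2 + Same J ch c fun j k => Real.cos ((t j - t k) * u)) :=
    intervalIntegral.integral_nonneg hab fun u _ =>
      add_nonneg (sq_nonneg _) ((hZ q ι J ch t c 0 0 0).2.2.2 u).1
  have e4 : ∀ n ∈ (Ioc ⌊(q : ℝ) ^ a⌋₊ ⌊(q : ℝ) ^ b⌋₊).filter fun n => n.Coprime q,
      lw q n * ‖Zs J ch t c n - y‖ ^ 2 ≤
        b * ((∑ d ∈ n.divisors, θ d) ^ 2 / n * ‖Zs J ch t c n - y‖ ^ 2) +
        (if n.Prime then 0 else vonMangoldt n) / (n : ℝ) *
          ((|y| + ∑ j ∈ J, c j) ^ 2 / Real.log q) := by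
    intro n hn
    obtain ⟨n1, n2⟩ := mem_filter.1 hn
    obtain ⟨n3, n4⟩ := mem_Ioc.1 n1
    have n5 : (0 : ℝ) < n := by exact_mod_cast (by omega : 0 < n)
    split_ifs with hp
    · have t0 : θ n = 0 := by
        by_contra h0
        exact ((hθ.supp n h0).1.trans (Real.rpow_le_rpow_of_exponent_le q8.le
          (by linarith : (a - f0) / 2 ≤ a))).not_gt (Nat.lt_of_floor_lt n3)
      have l1 : Real.log n ≤ b * Real.log q := by
        rw [← Real.log_rpow (by linarith)]
        exact Real.log_le_log n5 ((Nat.le_floor_iff (by positivity)).1 n4)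
      rw [hp.sum_divisors, t0, hθ.one, zero_div, zero_mul, add_zero, ← mul_assoc, lw,
        vonMangoldt_apply_prime hp]
      refine mul_le_mul_of_nonneg_right ?_ (sq_nonneg _)
      rw [div_le_iff₀ (by positivity)]
      field_simp
      linarith
    · refine le_add_of_nonneg_of_le (by positivity) ?_
      have : ‖Zs J ch t c n - y‖ ≤ |y| + ∑ j ∈ J, c j := by
        rw [← e3 n n2, ← e1]
        exact norm_Zs _ _ _ _ _
      rw [lw, ← div_div, div_mul_eq_mul_div, mul_div_assoc]
      have := vonMangoldt_nonneg (n := n)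
      gcongr
  refine (sum_le_sum e4).trans ?_
  rw [sum_add_distrib, ← mul_sum, ← sum_mul]
  have m0 : 0 ≤ (|y| + ∑ j ∈ J, c j) ^ 2 := sq_nonneg _
  have s1 := mul_le_mul_of_nonneg_left (key.trans (add_le_add_left
    (mul_le_mul_of_nonneg_right k1 br) _)) hb.le
  have s2 := mul_le_mul_of_nonneg_right (hC ((Ioc ⌊(q : ℝ) ^ a⌋₊ ⌊(q : ℝ) ^ b⌋₊).filter
    fun n => n.Coprime q)) (div_nonneg m0 l0.le)
  have s3 : C / Real.log q ≤ ε / (b + 1) := by
    rw [div_le_iff₀ l0, mul_comm]
    exact (div_le_iff₀ he).1 q7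
  have s4 := mul_le_mul_of_nonneg_right s3 m0
  have s5 : b * (ε / (b + 1)) + ε / (b + 1) = ε := by field_simp
  have s6 : 2 * b / (a - f0) = b * (1 / ((a - f0) / 2)) := by field_simp
  have s7 : C * ((|y| + ∑ j ∈ J, c j) ^ 2 / Real.log q) =
      C / Real.log q * (|y| + ∑ j ∈ J, c j) ^ 2 := by ring
  rw [s6]
  generalize ε / (b + 1) = η at *
  subst s5
  nlinarith

end Pool.Agent.MP_c5bf7b_nt.H25L
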