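import Pool.Agent.MP_c5bf7b_nt.H25L.SpecB

/-! The large sieve for primes with continuous weights. -/

set_option autoImplicit false

namespace Pool.Agent.MP_c5bf7b_nt.H25L

open Finset Complex ArithmeticFunction Pool.Agent.MP_c5bf7b_nt.H38

namespace SvwL

/-- the inequality on the cell `[s, s']` with the error `η` -/
def Cell (G y : ℝ → ℝ) (s s' η : ℝ) : Prop :=
  ∃ δ : ℝ, 0 < δ ∧ ∃ q₀ : ℕ,
    ∀ (q : ℕ) [NeZero q], q₀ ≤ q → ∀ (ι : Type) (J : Finset ι) (ch : ι → Ch q) (t c : ι → ℝ),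
    (∀ j ∈ J, ch j ≠ 1 ∧ |t j| ≤ (q : ℝ) ^ δ * Real.log q ∧ 0 ≤ c j) →
    ∑ n ∈ (Ioc ⌊(q : ℝ) ^ s⌋₊ ⌊(q : ℝ) ^ s'⌋₊).filter (fun n => n.Coprime q),
        lw q n * G (un q n) * ‖Zs J ch t c n - y (un q n)‖ ^ 2 ≤
      (∫ u in s..s', 2 * u / (u - f0) * G u *
        (y u ^ 2 + Same J ch c fun j k => Real.cos ((t j - t k) * u))) +
        η * (1 + ∑ j ∈ J, c j) ^ 2

variable {G y : ℝ → ℝ} {a b : ℝ}

theorem f0_pos : 0 < f0 := by norm_num [f0]

theorem cont_same {ι : Type} {q : ℕ} (J : Finset ι) (ch : ι → Ch q) (t c : ι → ℝ) :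
    Continuous fun u : ℝ => Same J ch c fun j k => Real.cos ((t j - t k) * u) := by
  unfold Same
  refine continuous_finsetSum _ fun j _ => continuous_finsetSum _ fun k _ => ?_
  split_ifs <;> fun_prop

theorem intble {ι : Type} {q : ℕ} (J : Finset ι) (ch : ι → Ch q) (t c : ι → ℝ) (ha : f0 < a)
    (hG : ContinuousOn G (Set.Icc a b)) (hy : ContinuousOn y (Set.Icc a b)) {s s' : ℝ} (h1 : a ≤ s)
    (h2 : s ≤ s') (h3 : s' ≤ b) : IntervalIntegrable (fun u => 2 * u / (u - f0) * G u *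
      (y u ^ 2 + Same J ch c fun j k => Real.cos ((t j - t k) * u))) MeasureTheory.volume s s' := by
  refine ContinuousOn.intervalIntegrable_of_Icc h2 (ContinuousOn.mono ?_ (Set.Icc_subset_Icc h1 h3))
  exact (((by fun_prop : ContinuousOn (fun u : ℝ => 2 * u) _).div (by fun_prop) fun u hu =>
    (sub_pos.2 (ha.trans_le hu.1)).ne').mul hG).mul ((hy.pow 2).add (cont_same J ch t c).continuousOn)

theorem Cell.refl (G y : ℝ → ℝ) (s : ℝ) : Cell G y s s 0 :=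
  ⟨1, one_pos, 0, fun q _ _ ι J ch t c _ => by simp⟩

theorem Cell.mono {s s' η η' : ℝ} (h : Cell G y s s' η) (he : η ≤ η') : Cell G y s s' η' := by
  obtain ⟨δ, h0, q₀, h⟩ := h
  exact ⟨δ, h0, q₀, fun q _ hq ι J ch t c hc => (h q hq ι J ch t c hc).trans
    (add_le_add_right (mul_le_mul_of_nonneg_right he (sq_nonneg _)) _)⟩

theorem one_le (q : ℕ) [NeZero q] : (1 : ℝ) ≤ q := by exact_mod_cast NeZero.one_le

theorem Cell.trans (ha : f0 < a) (hG : ContinuousOn G (Set.Icc a b))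
    (hy : ContinuousOn y (Set.Icc a b)) {s s' s'' η η' : ℝ} (h1 : a ≤ s) (h2 : s ≤ s')
    (h3 : s' ≤ s'') (h4 : s'' ≤ b) (h : Cell G y s s' η) (h' : Cell G y s' s'' η') :
    Cell G y s s'' (η + η') := by
  obtain ⟨δ, h0, q₀, h⟩ := h
  obtain ⟨δ', h0', q₁, h'⟩ := h'
  refine ⟨min δ δ', lt_min h0 h0', max q₀ q₁, fun q _ hq ι J ch t c hc => ?_⟩
  have q1 := one_le q
  have m : ∀ d, min δ δ' ≤ d →
      ∀ j ∈ J, ch j ≠ 1 ∧ |t j| ≤ (q : ℝ) ^ d * Real.log q ∧ 0 ≤ c j := fun d hd j hj =>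
    ⟨(hc j hj).1, (hc j hj).2.1.trans (mul_le_mul_of_nonneg_right
      (Real.rpow_le_rpow_of_exponent_le q1 hd) (Real.log_nonneg q1)), (hc j hj).2.2⟩
  have e1 := h q (le_of_max_le_left hq) ι J ch t c (m _ (min_le_left _ _))
  have e2 := h' q (le_of_max_le_right hq) ι J ch t c (m _ (min_le_right _ _))
  rw [sum_filter] at e1 e2 ⊢
  rw [← sum_Ioc_consecutive _ (Nat.floor_le_floor (Real.rpow_le_rpow_of_exponent_le q1 h2))
    (Nat.floor_le_floor (Real.rpow_le_rpow_of_exponent_le q1 h3)),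
    ← intervalIntegral.integral_add_adjacent_intervals
      (intble J ch t c ha hG hy h1 h2 (h3.trans h4)) (intble J ch t c ha hG hy (h1.trans h2) h3 h4)]
  linarith

theorem un_mem {q n : ℕ} (hq : 2 ≤ q) {s s' : ℝ} (h : n ∈ Ioc ⌊(q : ℝ) ^ s⌋₊ ⌊(q : ℝ) ^ s'⌋₊) :
    un q n ∈ Set.Icc s s' := by
  have q1 : (1 : ℝ) < q := by exact_mod_cast hq
  have q0 : (0 : ℝ) < q := by linarith
  have l := Real.log_pos q1
  have h1 := Nat.lt_of_floor_lt (mem_Ioc.1 h).1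
  have h2 := (Nat.le_floor_iff (Real.rpow_pos_of_pos q0 s').le).1 (mem_Ioc.1 h).2
  have n0 : (0 : ℝ) < n := (Real.rpow_pos_of_pos q0 s).trans h1
  exact ⟨(le_div_iff₀ l).2 ((Real.rpow_le_iff_le_log q0 n0).1 h1.le),
    (div_le_iff₀ l).2 ((Real.le_rpow_iff_log_le n0 q0).1 h2)⟩

theorem lw_nonneg (q n : ℕ) : 0 ≤ lw q n :=
  div_nonneg vonMangoldt_nonneg (mul_nonneg n.cast_nonneg (Real.log_natCast_nonneg q))

theorem norm_Zs {ι : Type} {q : ℕ} (J : Finset ι) (ch : ι → Ch q) (t c : ι → ℝ) (n : ℕ)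
    (hc : ∀ j ∈ J, 0 ≤ c j) : ‖Zs J ch t c n‖ ≤ ∑ j ∈ J, c j := by
  refine (norm_sum_le _ _).trans (sum_le_sum fun j hj => ?_)
  rw [norm_mul, norm_mul, norm_exp_ofReal_mul_I, mul_one, norm_real, Real.norm_of_nonneg (hc j hj)]
  exact mul_le_of_le_one_right (hc j hj) ((ch j).norm_le_one _)

theorem sq_le {Z : ℂ} {S B w y₀ y₁ : ℝ} (hZ : ‖Z‖ ≤ S) (h0 : |y₀| ≤ B) (h1 : |y₁| ≤ B)
    (hw : |y₁ - y₀| ≤ w) : ‖Z - y₁‖ ^ 2 ≤ ‖Z - y₀‖ ^ 2 + w * (2 * (S + B)) := by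
  have e : ‖Z - y₁‖ ^ 2 = ‖Z - y₀‖ ^ 2 + (y₁ - y₀) * (y₁ + y₀ - 2 * Z.re) := by
    simp only [Complex.sq_norm, normSq_apply, sub_re, sub_im, ofReal_re, ofReal_im]
    ring
  have h2 := abs_le.1 ((abs_re_le_norm Z).trans hZ)
  have h3 : |y₁ + y₀ - 2 * Z.re| ≤ 2 * (S + B) :=
    abs_le.2 ⟨by linarith [abs_le.1 h0, abs_le.1 h1], by linarith [abs_le.1 h0, abs_le.1 h1]⟩
  rw [e]
  refine add_le_add_right ((le_abs_self _).trans ?_) _
  rw [abs_mul]
  exact mul_le_mul hw h3 (abs_nonneg _) ((abs_nonneg _).trans hw)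

/-- one short cell -/
theorem cell (hz : GzS) (hs : Sv1S) (ha : f0 < a) (hG : ContinuousOn G (Set.Icc a b))
    (hy : ContinuousOn y (Set.Icc a b)) {s s' B w ε : ℝ} (h1 : a ≤ s) (h2 : s ≤ s') (h3 : s' ≤ b)
    (B1 : 1 ≤ B) (w0 : 0 ≤ w) (w1 : w ≤ 1) (ε0 : 0 < ε) (hC : 2 * s' / (s - f0) ≤ B)
    (G0 : 0 ≤ G s) (G1 : G s ≤ B) (hB : ∀ u ∈ Set.Icc s s', |y u| ≤ B)
    (hu : ∀ u ∈ Set.Icc s s', G u ≤ G s + w ∧ |y u - y s| ≤ w ∧
      2 * s' / (s - f0) * G s ≤ 2 * u / (u - f0) * G u + w ∧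
      2 * s' / (s - f0) * G s * y s ^ 2 ≤ 2 * u / (u - f0) * G u * y u ^ 2 + w) :
    Cell G y s s' (B ^ 3 * (7 * w * (s' - s) + 6 * ε)) := by
  obtain ⟨δ, δ0, q₀, h⟩ := hs s s' ε (ha.trans_le h1) h2 ε0
  refine ⟨δ, δ0, max q₀ 2, fun q _ hq ι J ch t c hc => ?_⟩
  have e1 := h q (le_of_max_le_left hq) ι J ch t c (y s) hc
  have e2 := h q (le_of_max_le_left hq) ι ∅ ch t c 1 (by simp)
  have S0 : 0 ≤ ∑ j ∈ J, c j := sum_nonneg fun j hj => (hc j hj).2.2
  have hZ := fun n => norm_Zs J ch t c n fun j hj => (hc j hj).2.2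
  have hS := (hz q ι J ch t c (fun _ => 0) 0 0).2.2.2
  have C0 : 0 ≤ 2 * s' / (s - f0) :=
    div_nonneg (by linarith [f0_pos]) (by linarith)
  have y0 := hB s ⟨le_rfl, h2⟩
  have i1 := intble J ch t c ha hG hy h1 h2 h3
  simp only [Zs, Same, sum_empty, ofReal_one, zero_sub, norm_neg, norm_one, one_pow, mul_one,
    add_zero, intervalIntegral.integral_const, smul_eq_mul, abs_one] at e2
  generalize ∑ j ∈ J, c j = S at *
  generalize 2 * s' / (s - f0) = C at *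
  have l0 : 0 ≤ s' - s := sub_nonneg.2 h2
  have B0 : 0 ≤ B := by linarith
  have T1 : 1 ≤ (1 + S) ^ 2 := by nlinarith
  have T2 : S ^ 2 ≤ (1 + S) ^ 2 := by nlinarith
  have T3 : S + B ≤ B * (1 + S) := by nlinarith
  have T4 : S + B ≤ B * (1 + S) ^ 2 := T3.trans (mul_le_mul_of_nonneg_left (by nlinarith) B0)
  have B2 : 1 ≤ B ^ 3 := one_le_pow₀ B1
  have B3 : B ≤ B ^ 3 := le_self_pow₀ B1 (by norm_num)
  have B4 : B ^ 2 ≤ B ^ 3 := pow_le_pow_right₀ B1 (by norm_num)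
  have g0 : 0 ≤ G s + w := by linarith
  have g1 : G s + w ≤ 2 * B := by linarith
  have k1 : (G s + w) * (C * ∫ u in s..s', (y s ^ 2 +
      Same J ch c fun j k => Real.cos ((t j - t k) * u))) ≤ (∫ u in s..s', 2 * u / (u - f0) * G u *
        (y u ^ 2 + Same J ch c fun j k => Real.cos ((t j - t k) * u))) +
        (s' - s) * (3 * w * (B ^ 3 * (1 + S) ^ 2)) := by
    rw [← mul_assoc, ← intervalIntegral.integral_const_mul, ← smul_eq_mul (s' - s),
      ← intervalIntegral.integral_const,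
      ← intervalIntegral.integral_add i1 intervalIntegrable_const]
    refine intervalIntegral.integral_mono_on h2 (((continuous_const.add
      (cont_same J ch t c)).intervalIntegrable _ _).const_mul _) (i1.add intervalIntegrable_const)
      fun u hu' => ?_
    obtain ⟨-, -, u3, u4⟩ := hu u hu'
    have m0 := (hS u).1
    have m1 := (hS u).2 fun j hj => (hc j hj).2.2
    generalize (Same J ch c fun j k => Real.cos ((t j - t k) * u)) = m at *
    have y2 : y s ^ 2 ≤ B ^ 2 := sq_le_sq' (abs_le.1 y0).1 (abs_le.1 y0).2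
    have p1 := mul_le_mul_of_nonneg_right u3 m0
    have p2 : C * (y s ^ 2 + m) ≤ B * (B ^ 2 + S ^ 2) :=
      mul_le_mul hC (add_le_add y2 m1) (by positivity) B0
    have p3 : 1 + m + C * (y s ^ 2 + m) ≤ 3 * (B ^ 3 * (1 + S) ^ 2) := by
      have r1 : 1 + m ≤ B ^ 3 * (1 + S) ^ 2 :=
        le_trans (by nlinarith) (le_mul_of_one_le_left (sq_nonneg _) B2)
      have r2 : B ^ 3 ≤ B ^ 3 * (1 + S) ^ 2 := le_mul_of_one_le_right (by positivity) T1
      have r3 : B * S ^ 2 ≤ B ^ 3 * (1 + S) ^ 2 := mul_le_mul B3 T2 (sq_nonneg _) (by positivity)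
      linarith
    have p4 := mul_le_mul_of_nonneg_left p3 w0
    linarith
  have k2 : (G s + w) * (ε * (|y s| + S) ^ 2) ≤ 2 * ε * (B ^ 3 * (1 + S) ^ 2) := by
    have r1 : (|y s| + S) ^ 2 ≤ (B * (1 + S)) ^ 2 :=
      pow_le_pow_left₀ (by positivity) (by linarith) 2
    calc (G s + w) * (ε * (|y s| + S) ^ 2) ≤ 2 * B * (ε * (B * (1 + S)) ^ 2) := by gcongr
      _ = _ := by ring
  have k3 : (G s + w) * (w * (2 * (S + B)) * (C * (s' - s) + ε)) ≤
      4 * (w * (s' - s) + ε) * (B ^ 3 * (1 + S) ^ 2) := by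
    have r1 : w * (C * (s' - s) + ε) ≤ B * (w * (s' - s) + ε) := by
      have := mul_le_mul_of_nonneg_right hC (mul_nonneg w0 l0)
      have := mul_le_mul_of_nonneg_right (w1.trans B1) ε0.le
      linarith
    calc (G s + w) * (w * (2 * (S + B)) * (C * (s' - s) + ε))
        = (G s + w) * (2 * (S + B) * (w * (C * (s' - s) + ε))) := by ring
      _ ≤ 2 * B * (2 * (B * (1 + S) ^ 2) * (B * (w * (s' - s) + ε))) := by gcongr
      _ = _ := by ring
  calc _ ≤ ∑ n ∈ (Ioc ⌊(q : ℝ) ^ s⌋₊ ⌊(q : ℝ) ^ s'⌋₊).filter (fun n => n.Coprime q),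
        (G s + w) * (lw q n * ‖Zs J ch t c n - y s‖ ^ 2 + w * (2 * (S + B)) * lw q n) := by
        refine sum_le_sum fun n hn => ?_
        have m := un_mem (le_of_max_le_right hq) (mem_filter.1 hn).1
        have := mul_le_mul_of_nonneg_left (mul_le_mul (hu _ m).1
          (sq_le (hZ n) y0 (hB _ m) (hu _ m).2.1) (sq_nonneg _) g0) (lw_nonneg q n)
        linarith
    _ ≤ (G s + w) * ((C * (∫ u in s..s', (y s ^ 2 +
          Same J ch c fun j k => Real.cos ((t j - t k) * u))) + ε * (|y s| + S) ^ 2) +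
          w * (2 * (S + B)) * (C * (s' - s) + ε)) := by
        rw [← mul_sum, sum_add_distrib, ← mul_sum]
        gcongr
    _ ≤ _ := by linarith

end SvwL

open SvwL

theorem svwOf : SvwOf := by
  intro hz hs a b ε G y ha hab ε0 hG hy G0
  obtain ⟨B₁, h₁⟩ := isCompact_Icc.exists_bound_of_continuousOn hG
  obtain ⟨B₂, h₂⟩ := isCompact_Icc.exists_bound_of_continuousOn hy
  obtain ⟨B, B1, hC, hB₁, hB₂⟩ : ∃ B : ℝ, 1 ≤ B ∧ 2 * b / (a - f0) ≤ B ∧ B₁ ≤ B ∧ B₂ ≤ B :=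
    ⟨max (max 1 (2 * b / (a - f0))) (max B₁ B₂), by simp, by simp, by simp, by simp⟩
  have B3 : 0 < B ^ 3 := by positivity
  have l0 : 0 ≤ b - a := sub_nonneg.2 hab
  obtain ⟨w, w0, w1, w2⟩ : ∃ w : ℝ, 0 < w ∧ w ≤ 1 ∧ B ^ 3 * (7 * w * (b - a)) ≤ ε / 2 := by
    refine ⟨min 1 (ε / (14 * B ^ 3 * (b - a + 1))), by positivity, min_le_left _ _, ?_⟩
    have := (le_div_iff₀ (by positivity)).1 (min_le_right 1 (ε / (14 * B ^ 3 * (b - a + 1))))
    have : 0 < min 1 (ε / (14 * B ^ 3 * (b - a + 1))) * B ^ 3 := by positivity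
    linarith
  have c1 : ContinuousOn (fun p : ℝ × ℝ => G p.1) (Set.Icc a b ×ˢ Set.Icc a b) :=
    hG.comp continuousOn_fst fun _ hp => hp.1
  have c2 : ContinuousOn (fun p : ℝ × ℝ => y p.1) (Set.Icc a b ×ˢ Set.Icc a b) :=
    hy.comp continuousOn_fst fun _ hp => hp.1
  have c3 : ContinuousOn (fun p : ℝ × ℝ => 2 * p.2 / (p.1 - f0) * G p.1)
      (Set.Icc a b ×ˢ Set.Icc a b) :=
    ((by fun_prop : ContinuousOn (fun p : ℝ × ℝ => 2 * p.2) _).div (by fun_prop) fun p hp =>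
      (sub_pos.2 (ha.trans_le hp.1.1)).ne').mul c1
  obtain ⟨h, h0, hh⟩ := Metric.uniformContinuousOn_iff_le.1
    ((isCompact_Icc.prod isCompact_Icc).uniformContinuousOn_of_continuous
      ((c1.prodMk c2).prodMk (c3.prodMk (c3.mul (c2.pow 2))))) w w0
  obtain ⟨m, hm⟩ := exists_nat_gt ((b - a) / h)
  have m0 : (0 : ℝ) < m := (div_nonneg l0 h0.le).trans_lt hm
  have hl : (b - a) / m ≤ h := by
    rw [div_le_iff₀ m0, mul_comm]
    exact ((div_lt_iff₀ h0).1 hm).le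
  have el : m * ((b - a) / m) = b - a := by field_simp
  have l1 : 0 ≤ (b - a) / m := by positivity
  generalize (b - a) / m = l at *
  have key : ∀ i : ℕ, i ≤ m → Cell G y a (a + i * l)
      (i * (B ^ 3 * (7 * w * l + 6 * (ε / (12 * B ^ 3 * m))))) := fun i => by
    induction i with
    | zero => intro _; simpa using Cell.refl G y a
    | succ i ih =>
      intro hi
      have i1 : (i : ℝ) + 1 ≤ m := by exact_mod_cast hi
      have p1 : a ≤ a + i * l := le_add_of_nonneg_right (by positivity)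
      have p2 : a + i * l ≤ a + (i + 1) * l := by linarith
      have p3 : a + (i + 1) * l ≤ b := by nlinarith
      have sub : ∀ u ∈ Set.Icc (a + i * l) (a + (i + 1) * l), u ∈ Set.Icc a b := fun u hu =>
        ⟨p1.trans hu.1, hu.2.trans p3⟩
      have ms := sub _ ⟨le_rfl, p2⟩
      have := Cell.trans ha hG hy le_rfl p1 p2 p3 (ih (by omega)) (cell hz hs ha hG hy p1 p2 p3 B1
        w0.le w1 (by positivity : 0 < ε / (12 * B ^ 3 * m))
        (le_trans (div_le_div₀ (by linarith [f0_pos]) (by linarith) (by linarith) (by linarith)) hC)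
        (G0 _ ms) (((le_abs_self _).trans (h₁ _ ms)).trans hB₁)
        (fun u hu => (h₂ u (sub u hu)).trans hB₂) fun u hu => by
          have d := hh (u, u) ⟨sub u hu, sub u hu⟩ (a + i * l, a + (i + 1) * l)
            ⟨ms, sub _ ⟨p2, le_rfl⟩⟩ (by
              rw [Prod.dist_eq, max_le_iff, Real.dist_eq, Real.dist_eq, abs_le, abs_le]
              refine ⟨⟨?_, ?_⟩, ?_, ?_⟩ <;> linarith [hu.1, hu.2])
          simp only [Prod.dist_eq, max_le_iff, Real.dist_eq, Pi.mul_apply, Pi.pow_apply] at d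
          exact ⟨by linarith [abs_le.1 d.1.1], d.1.2, by linarith [abs_le.1 d.2.1],
            by linarith [abs_le.1 d.2.2]⟩)
      push_cast
      convert this using 1
      ring
  have := key m le_rfl
  rw [el, add_sub_cancel] at this
  refine this.mono ?_
  have e : m * (B ^ 3 * (7 * w * l + 6 * (ε / (12 * B ^ 3 * m)))) =
      B ^ 3 * (7 * w * (m * l)) + ε / 2 := by
    field_simp
    ring
  rw [e, el]
  linarith

end Pool.Agent.MP_c5bf7b_nt.H25L
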