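import Pool.Agent.MP_c5bf7b_nt.H25L.SpecC

/-! A window for one character. -/

set_option autoImplicit false

namespace Pool.Agent.MP_c5bf7b_nt.H25L

open Pool.Agent.MP_c5bf7b_nt.H38

theorem winc : WincS := by
  intro Y T l hl hY
  by_contra hcon
  push Not at hcon
  have key : ∀ k : ℕ, k ≤ 9999 →
      ∃ ζ ∈ Y, |ζ.im| ≤ T + ((k : ℝ) + 1) * l ∧ ζ.re < 10 - ((k : ℝ) + 1) * c0 := by
    intro k
    induction k with
    | zero =>
      intro _
      obtain ⟨a, _, ζ, hζ, h1, h2⟩ := hcon T le_rfl (by linarith)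
      refine ⟨ζ, hζ, by simpa using h1, ?_⟩
      have := min_le_right a 10
      simp only [Nat.cast_zero, zero_add, one_mul]
      linarith
    | succ k ih =>
      intro hk
      obtain ⟨ζ, hζ, h1, h2⟩ := ih (by omega)
      have hk' : (k : ℝ) + 1 ≤ 10000 := by
        have : k + 1 ≤ 10000 := by omega
        exact_mod_cast this
      have hk0 : (0 : ℝ) ≤ (k : ℝ) + 1 := by positivity
      obtain ⟨a, ha, ξ, hξ, h3, h4⟩ := hcon (T + ((k : ℝ) + 1) * l)
        (by nlinarith [mul_nonneg hk0 hl]) (by nlinarith [mul_le_mul_of_nonneg_right hk' hl])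
      refine ⟨ξ, hξ, ?_, ?_⟩
      · push_cast
        linarith
      · have h5 := ha ζ hζ h1
        have h6 := min_le_left a 10
        push_cast
        linarith
  obtain ⟨ζ, hζ, _, h2⟩ := key 9999 le_rfl
  have := hY ζ hζ
  unfold c0 at h2
  norm_num at h2
  linarith

end Pool.Agent.MP_c5bf7b_nt.H25L
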