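import Pool.Agent.MP_c5bf7b_nt.H38.BurgAll
import Pool.Agent.MP_c5bf7b_nt.H38.Base
import Pool.Agent.MP_c5bf7b_nt.H38.Tail
import Pool.Agent.MP_c5bf7b_nt.H38.PhiR
import Pool.Agent.MP_c5bf7b_nt.H38.Cnt
import Pool.Agent.MP_c5bf7b_nt.H38.Gf
import Pool.Agent.MP_c5bf7b_nt.H38.Jd
import Pool.Agent.MP_c5bf7b_nt.H38.Grow
import Pool.Agent.MP_c5bf7b_nt.H38.Lap2
import Pool.Agent.MP_c5bf7b_nt.H38.Ef
import Pool.Agent.MP_c5bf7b_nt.H38.LpR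
import Pool.Agent.MP_c5bf7b_nt.H38.AdmR
import Pool.Agent.MP_c5bf7b_nt.H38.Kf
import Pool.Agent.MP_c5bf7b_nt.H38.Zeta
import Pool.Agent.MP_c5bf7b_nt.H38.Pc
import Pool.Agent.MP_c5bf7b_nt.H38.Sieg
import Pool.Agent.MP_c5bf7b_nt.H38.MuR
import Pool.Agent.MP_c5bf7b_nt.H38.Bv1
import Pool.Agent.MP_c5bf7b_nt.H38.Bv
import Pool.Agent.MP_c5bf7b_nt.H38.SelR
import Pool.Agent.MP_c5bf7b_nt.H38.Gram
import Pool.Agent.MP_c5bf7b_nt.H38.D1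
import Pool.Agent.MP_c5bf7b_nt.H38.Pos
import Pool.Agent.MP_c5bf7b_nt.H38.WinR
import Pool.Agent.MP_c5bf7b_nt.H38.Ls
import Pool.Agent.MP_c5bf7b_nt.H38.EnvR
import Pool.Agent.MP_c5bf7b_nt.H25L.Cnt5
import Pool.Agent.MP_c5bf7b_nt.H25L.Conj
import Pool.Agent.MP_c5bf7b_nt.H25L.Den5
import Pool.Agent.MP_c5bf7b_nt.H25L.Det
import Pool.Agent.MP_c5bf7b_nt.H25L.Diag
import Pool.Agent.MP_c5bf7b_nt.H25L.Dz
import Pool.Agent.MP_c5bf7b_nt.H25L.Dz2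
import Pool.Agent.MP_c5bf7b_nt.H25L.Dz3
import Pool.Agent.MP_c5bf7b_nt.H25L.Ef5
import Pool.Agent.MP_c5bf7b_nt.H25L.Env5
import Pool.Agent.MP_c5bf7b_nt.H25L.Expo
import Pool.Agent.MP_c5bf7b_nt.H25L.Far
import Pool.Agent.MP_c5bf7b_nt.H25L.Gf5
import Pool.Agent.MP_c5bf7b_nt.H25L.Gz
import Pool.Agent.MP_c5bf7b_nt.H25L.Hf5
import Pool.Agent.MP_c5bf7b_nt.H25L.Hk
import Pool.Agent.MP_c5bf7b_nt.H25L.Kfa
import Pool.Agent.MP_c5bf7b_nt.H25L.Lat1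
import Pool.Agent.MP_c5bf7b_nt.H25L.Lat2
import Pool.Agent.MP_c5bf7b_nt.H25L.Lc
import Pool.Agent.MP_c5bf7b_nt.H25L.Lin5
import Pool.Agent.MP_c5bf7b_nt.H25L.Lv1
import Pool.Agent.MP_c5bf7b_nt.H25L.Lv2
import Pool.Agent.MP_c5bf7b_nt.H25L.Mer
import Pool.Agent.MP_c5bf7b_nt.H25L.Mid5
import Pool.Agent.MP_c5bf7b_nt.H25L.Near5
import Pool.Agent.MP_c5bf7b_nt.H25L.NumD5
import Pool.Agent.MP_c5bf7b_nt.H25L.Ord
import Pool.Agent.MP_c5bf7b_nt.H25L.Out5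
import Pool.Agent.MP_c5bf7b_nt.H25L.Pair
import Pool.Agent.MP_c5bf7b_nt.H25L.Pck
import Pool.Agent.MP_c5bf7b_nt.H25L.Pol
import Pool.Agent.MP_c5bf7b_nt.H25L.Pow
import Pool.Agent.MP_c5bf7b_nt.H25L.Ps
import Pool.Agent.MP_c5bf7b_nt.H25L.Pv
import Pool.Agent.MP_c5bf7b_nt.H25L.Sum5
import Pool.Agent.MP_c5bf7b_nt.H25L.Sv1
import Pool.Agent.MP_c5bf7b_nt.H25L.Svw
import Pool.Agent.MP_c5bf7b_nt.H25L.Winc

/-! The analytic rows together: the numerical part implies the bound for the least prime. -/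

set_option autoImplicit false

namespace Pool.Agent.MP_c5bf7b_nt.H25L

open Pool.Agent.MP_c5bf7b_nt.H38

theorem tail : TailS := tailOf burg base
theorem phi : PhiS := phiOf base
theorem cnt : CntS := cntOf phi ex gf
theorem gram : GramS := gramOf tail
theorem d1 : D1S := d1Of cnt tail (bvOf mu bv1) sel gram
theorem kf : KfS := kfOf phi cnt jd (growOf tail) lp (efOf phi gf lap2)
theorem env : EnvS := envOf cnt adm kf zeta (pcOf cnt lp adm kf zeta) d1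
theorem cnt5 : Cnt5S := cnt5Of phi gf5
theorem far : FarS :=
  farOf cnt5 (hf5Of (ef5Of phi gf5 lap2))
    (mid5Of cnt5 hk (den5Of pv (detOf base) lv1 lv2 pow expo))
theorem pair : PairS := pairOf adm pol
theorem ps : PsS := psOf adm gz mer (svwOf gz (sv1Of sel gram gz diag))
theorem dz : DzS := dzOf cnt adm (kfaOf cnt lp kf) ps (dz3Of (dz2Of lp adm pair))
theorem env5 : Env5S := env5Of env (conjOf phi) (pckOf cnt lp hk kf zeta) d1 dz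

theorem lin_of_nums (K E g : ℝ) (Ds : Set DZ) (Es : Set (ℝ × ℝ × ℝ)) (hP : Pars K Ds Es)
    (hE : 11 / 4 < E) (hE5 : E ≤ 5) (hN : Nums K E Ds Es g) : LinS (E + 2 * K) :=
  lin5Of cnt env5 far sieg K E Ds Es hP hE hE5
    (near5Of win (lsOf lp adm pos kw) ord (lat1Of lp adm gz) (lat2Of lp adm gz) (lcOf lp adm pos)
      (sum5Of hk winc) (out5Of hk) (numD5Of lp adm) K E g Ds Es hP.K0 hP.K1 hE.le hE5 hN)

end Pool.Agent.MP_c5bf7b_nt.H25L
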