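import Pool.Agent.MP_c5bf7b_nt.H25L.SpecN

/-! Joining the strips. -/

set_option autoImplicit false

namespace Pool.Agent.MP_c5bf7b_nt.H25L.Nm

open Pool.Agent.MP_c5bf7b_nt.H38

theorem Ev.and {P Q : Set DZ → Set (ℝ × ℝ × ℝ) → Prop} (h1 : Ev P) (h2 : Ev Q) :
    Ev fun Ds Es => P Ds Es ∧ Q Ds Es := by
  obtain ⟨D1, E1, p1, q1⟩ := h1
  obtain ⟨D2, E2, p2, q2⟩ := h2
  refine ⟨D1 ∪ D2, E1 ∪ E2, ⟨p1.K0, p1.K1, p1.fD.union p2.fD, p1.fE.union p2.fE, ?_, ?_⟩,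
    fun Ds Es a b => ⟨q1 Ds Es (Set.subset_union_left.trans a) (Set.subset_union_left.trans b),
      q2 Ds Es (Set.subset_union_right.trans a) (Set.subset_union_right.trans b)⟩⟩
  · rintro D (h | h)
    exacts [p1.oD D h, p2.oD D h]
  · rintro d (h | h)
    exacts [p1.oE d h, p2.oE d h]

theorem Ev.mono {P Q : Set DZ → Set (ℝ × ℝ × ℝ) → Prop} (h : Ev P)
    (hpq : ∀ Ds Es, P Ds Es → Q Ds Es) : Ev Q := by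
  obtain ⟨D1, E1, p1, q1⟩ := h
  exact ⟨D1, E1, p1, fun Ds Es a b => hpq _ _ (q1 Ds Es a b)⟩

theorem Ev.of {Q : Set DZ → Set (ℝ × ℝ × ℝ) → Prop} (h : ∀ Ds Es, Q Ds Es) : Ev Q :=
  ⟨∅, ∅, ⟨by norm_num, by norm_num, Set.finite_empty, Set.finite_empty, by simp, by simp⟩,
    fun Ds Es _ _ => h Ds Es⟩

theorem crt_mono {K E : ℝ} {Ds : Set DZ} {Es : Set (ℝ × ℝ × ℝ)} {nm per : ℕ} {l lo W W' : ℝ}
    (h : Crt K E Ds Es nm per l lo W) (hW : W ≤ W') : Crt K E Ds Es nm per l lo W' := by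
  obtain ⟨c, hc⟩ := h
  exact ⟨c, { hc with tot := hc.tot.trans hW }⟩

theorem lo_le {jl T : ℕ} {l : ℝ} (h : 5 * jl + 1 ≤ T) (hl : ml T ≤ l) :
    (jl : ℝ) / 200 ≤ l - c0 := by
  have h' : ((5 * jl + 1 : ℕ) : ℝ) ≤ T := by exact_mod_cast h
  push_cast at h'
  unfold ml at hl
  unfold c0
  linarith

def StAB (E o0 o1 a b : ℕ) (Ds : Set DZ) (Es : Set (ℝ × ℝ × ℝ)) : Prop :=
  ∀ (o j₀ : ℕ) (l₁ l₂ : ℝ), o0 ≤ o → o ≤ o1 → j₀ < o → ml a < l₁ → l₁ ≤ ml b → l₁ ≤ l₂ →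
    Lat1 o l₁ (max (l₂ - c0) 0) → (10 ≤ l₂ ∨ Lat2 o j₀ l₁ (l₂ - c0) l₂) →
    Crt (1 / 20) (ml E) Ds Es (if o = 2 then 1 else 2) (if o = 2 then 2 else 1) l₁ (l₂ - c0)
      (1 - 1 / 200)

def StC (E a b : ℕ) (Ds : Set DZ) (Es : Set (ℝ × ℝ × ℝ)) : Prop :=
  ∀ l₁ l₂ : ℝ, ml a < l₁ → l₁ ≤ ml b → l₁ ≤ l₂ →
    (LCI l₁ l₂ ∨ (100 ≤ l₂ ∧ Real.exp (-l₂) ≤ l₁)) → (10 ≤ l₂ ∨ Lc l₁ (l₂ - c0) l₂) →
    Crt (1 / 20) (ml E) Ds Es 1 1 l₁ (l₂ - c0) (1 - l₁ / 200)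

theorem stZ {E o0 o1 a b : ℕ} (h : NoAB o0 o1 a b) : Ev (StAB E o0 o1 a b) :=
  Ev.of fun _ _ o j l₁ l₂ h1 h2 h3 h4 h5 h6 h7 h8 => (h o j l₁ l₂ h1 h2 h3 h4 h5 h6 h7 h8).elim

theorem stA {E a b c jl : ℕ} (h0 : Ev (StAB E 3 7 a b)) (h : ExAB 3 7 b c (5 * jl + 1))
    (hc : Ev (CerOk E 2 1 b c jl)) : Ev (StAB E 3 7 a c) :=
  (h0.and hc).mono fun Ds Es ⟨p, q⟩ o j l₁ l₂ h1 h2 h3 h4 h5 h6 h7 h8 => by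
    rcases le_or_gt l₁ (ml b) with hb | hb
    · exact p o j l₁ l₂ h1 h2 h3 h4 hb h6 h7 h8
    · rw [if_neg (by omega), if_neg (by omega)]
      exact q l₁ _ (fun _ => ⟨hb.le, h5⟩) (lo_le le_rfl (h o j l₁ l₂ h1 h2 h3 hb h5 h6 h8))

theorem stB {E a b c jl : ℕ} (h0 : Ev (StAB E 2 2 a b)) (h : ExAB 2 2 b c (5 * jl + 1))
    (hc : Ev (CerOk E 1 2 b c jl)) : Ev (StAB E 2 2 a c) :=
  (h0.and hc).mono fun Ds Es ⟨p, q⟩ o j l₁ l₂ h1 h2 h3 h4 h5 h6 h7 h8 => by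
    rcases le_or_gt l₁ (ml b) with hb | hb
    · exact p o j l₁ l₂ h1 h2 h3 h4 hb h6 h7 h8
    · rw [if_pos (by omega), if_pos (by omega)]
      exact q l₁ _ (fun _ => ⟨hb.le, h5⟩) (lo_le le_rfl (h o j l₁ l₂ h1 h2 h3 hb h5 h6 h8))

theorem ml_le_one {b : ℕ} (h : b ≤ 1000) : ml b ≤ 1 :=
  (ml_mono h).trans (by norm_num [ml])

theorem stT {E b ls : ℕ} (hb : b ≤ 1000) (h : ExC 0 b ls) (hc : Ev (TcOk E ls)) :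
    Ev (StC E 0 b) :=
  hc.mono fun _ _ q l₁ l₂ h1 h2 h3 h4 h5 =>
    q l₁ l₂ ((ml_nonneg 0).trans_lt h1) (h2.trans (ml_le_one hb)) (h l₁ l₂ h1 h2 h3 h4 h5) h4

theorem stC {E a b c jl : ℕ} (h0 : Ev (StC E a b)) (hb : c ≤ 1000) (h : ExC b c (5 * jl + 1))
    (hc : Ev (CerOk E 1 1 b c jl)) : Ev (StC E a c) :=
  (h0.and hc).mono fun Ds Es ⟨p, q⟩ l₁ l₂ h1 h2 h3 h4 h5 => by
    rcases le_or_gt l₁ (ml b) with hb' | hb'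
    · exact p l₁ l₂ h1 hb' h3 h4 h5
    · refine crt_mono
        (q l₁ _ (fun _ => ⟨hb'.le, h2⟩) (lo_le le_rfl (h l₁ l₂ hb' h2 h3 h4 h5))) ?_
      have := h2.trans (ml_le_one hb)
      linarith

theorem nums_of {E jl : ℕ} (hg : 5 * jl + 1 ≤ 1000) (hG : Ev (CerOk E 0 0 0 0 jl))
    (hA : Ev (StAB E 3 7 0 (5 * jl + 1))) (hB : Ev (StAB E 2 2 0 (5 * jl + 1)))
    (hC : Ev (StC E 0 (5 * jl + 1))) :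
    ∃ Ds Es, Pars (1 / 20) Ds Es ∧ Nums (1 / 20) (ml E) Ds Es (ml (5 * jl + 1)) := by
  obtain ⟨Ds, Es, hP, h⟩ := ((hG.and hA).and hB).and hC
  obtain ⟨⟨⟨g, a⟩, b⟩, c⟩ := h Ds Es le_rfl le_rfl
  have z : ml 0 = 0 := by simp [ml]
  refine ⟨Ds, Es, hP, ml_le_one hg, fun l hl => g l _ (fun h => (h rfl).elim) (lo_le le_rfl hl),
    fun o j l₁ l₂ h1 h2 h3 h4 h5 h6 h7 h8 => ?_, fun l₁ l₂ h1 h2 h3 h4 h5 => ?_⟩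
  · rcases h1.eq_or_lt with h | h
    · exact b o j l₁ l₂ h1 h.ge h3 (z ▸ h4) h5 h6 h7 h8
    · exact a o j l₁ l₂ h h2 h3 (z ▸ h4) h5 h6 h7 h8
  · exact c l₁ l₂ (z ▸ h1) h2 h3 h4 h5

end Pool.Agent.MP_c5bf7b_nt.H25L.Nm
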