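import Pool.Agent.MP_c5bf7b_nt.H25L.SpecN

/-! Soundness of the certificates. -/

set_option autoImplicit false

namespace Pool.Agent.MP_c5bf7b_nt.H25L.Nm

open Finset Pool.Agent.MP_c5bf7b_nt.H38

namespace CerL

/-- an inequality of a higher level -/
noncomputable def hi (nE j : ℕ) (c : Con) : It := ⟨toDZ nE c, v c.y, rr c 0 j, fun _ => 0, 0⟩

/-- an inequality of the lowest level -/
noncomputable def lw (C : Cer) (c : Con) : It :=
  ⟨toDZ (C.nm * C.per) c, v c.y, rr c 0 C.jl, rr c C.per C.jl, v (rE c (C.per - 1) C.b1)⟩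

noncomputable def LL (C : Cer) : List It := C.l0.map (lw C) ++ its (C.nm * C.per) C.gs C.jl

theorem its_cons (nE : ℕ) (g : Grp) (gs : List Grp) (j : ℕ) :
    its nE (g :: gs) j = g.cs.map (hi nE j) ++ its nE gs g.j1 := rfl

theorem flat_cons (g : Grp) (gs : List Grp) : flat (g :: gs) = g.cs ++ flat gs := by
  simp [flat]

theorem walk_cons {E : ℕ} {ds : List Dn} {g : Grp} {gs : List Grp} {j T : ℕ}
    (h : walk E ds (g :: gs) j T = true) :
    (∀ c ∈ g.cs, c.w ≤ 5 * j) ∧ ∃ T', walk E ds gs g.j1 T' = true := by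
  change ((g.cs.all fun c => c.w.succ.ble (j.mul 5)) &&
    fc (addL 0 j T g.cs) fun T' => grp E ds j g.j1 g.jt T' &&
      walk E ds gs g.j1 (T'.shiftRight (Nat.mul 64 (g.j1.sub j)))) = true at h
  rw [fc_eq, Bool.and_eq_true, Bool.and_eq_true, List.all_eq_true] at h
  refine ⟨fun c hc => ?_, _, h.2.2⟩
  have := h.1 c hc
  simp only [Nat.ble_eq, Nat.mul_eq, Nat.succ_eq_add_one] at this
  omega

theorem mem_its (E nE : ℕ) (ds : List Dn) (gs : List Grp) (j T : ℕ)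
    (h : walk E ds gs j T = true) (t : It) (ht : t ∈ its nE gs j) :
    ∃ c ∈ flat gs, ∃ j', t = hi nE j' c ∧ c.w ≤ 5 * j' := by
  induction gs generalizing j T with
  | nil => simp [its] at ht
  | cons g gs ih =>
    obtain ⟨h1, T', h2⟩ := walk_cons h
    rw [its_cons, List.mem_append, List.mem_map] at ht
    rw [flat_cons]
    rcases ht with ⟨c, hc, rfl⟩ | ht
    · exact ⟨c, List.mem_append_left _ hc, j, rfl, h1 c hc⟩
    · obtain ⟨c, hc, r⟩ := ih _ _ h2 ht
      exact ⟨c, List.mem_append_right _ hc, r⟩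

theorem sum_its (nE : ℕ) (gs : List Grp) (j : ℕ) (f : It → ℝ) (g : Con → ℝ)
    (h : ∀ j' c, f (hi nE j' c) = g c) :
    ((its nE gs j).map f).sum = ((flat gs).map g).sum := by
  induction gs generalizing j with
  | nil => simp [its, flat]
  | cons G gs ih =>
    rw [its_cons, flat_cons, List.map_append, List.map_append, List.sum_append, List.sum_append,
      ih, List.map_map]
    congr 2
    exact List.map_congr_left fun c _ => h j c

theorem sum_le {α : Type} (l : List α) (f g : α → ℝ) (h : ∀ a ∈ l, f a ≤ g a) :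
    (l.map f).sum ≤ (l.map g).sum := List.sum_le_sum h

theorem rr_nonneg (c : Con) (k j : ℕ) (l : ℝ) : 0 ≤ rr c k j l := by
  unfold rr rk
  split_ifs
  · exact v_nonneg _
  · exact le_rfl

theorem ml_le {a j : ℕ} {lo : ℝ} (h : a ≤ j * 5) (hj : (j : ℝ) / 200 ≤ lo) : ml a ≤ lo := by
  refine (ml_mono h).trans (le_trans (le_of_eq ?_) hj)
  unfold ml; push_cast; ring

theorem okC_x {nE : ℕ} {c : Con} (h : okC nE c = true) : 1 ≤ c.x ∧ c.x ≤ 5000 ∧ c.w ≤ 10000 := by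
  have h1 : okP c = true := by
    simp only [okC, Bool.and_eq_true] at h
    exact h.1.1.1.1.1.1.1.1.1.1.1
  simp only [okP, Bool.and_eq_true, Nat.ble_eq] at h1
  exact ⟨h1.1.1.1.1.1.1.1, h1.1.1.1.1.1.1.2, h1.1.1.1.1.1.2⟩

theorem v_e0 : v 10000000000000 = e0 := by norm_num [v, e0]

structure A (C : Cer) : Prop where
  ok : ∀ c ∈ C.l0 ++ flat C.gs, okC (C.nm * C.per) c = true
  u : ∀ c ∈ C.l0 ++ flat C.gs, c.u ≤ C.jl * 5
  cF : C.nm ≠ 0 → ∀ c ∈ C.l0 ++ flat C.gs, costOk c.x c.u C.a1 c.mF c.cF = true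
  w : ∀ c ∈ C.l0, c.w ≤ C.jl * 5
  cE : C.nm ≠ 0 → ∀ c ∈ C.l0, costOk c.x c.w C.a1 c.mE c.cE = true
  big : ∀ c ∈ flat C.gs, 100000000000000000000000000000000000000000 ≤ c.cE
  ds : C.ds.all okD = true

theorem a_of {C : Cer} (h : okA C = true) : A C := by
  unfold okA at h
  rw [Bool.and_eq_true, Bool.and_eq_true, Bool.and_eq_true] at h
  obtain ⟨⟨⟨h1, h2⟩, h3⟩, h4⟩ := h
  simp only [List.all_eq_true, Bool.and_eq_true, Bool.or_eq_true, Nat.ble_eq, Nat.beq_eq,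
    Nat.mul_eq] at h1 h2 h3
  exact ⟨fun c hc => (h1 c hc).1.1, fun c hc => (h1 c hc).1.2,
    fun hn c hc => (h1 c hc).2.resolve_left hn, fun c hc => (h2 c hc).1,
    fun hn c hc => (h2 c hc).2.resolve_left hn, h3, h4⟩

open Classical in
/-- sums over the whole list of terms that vanish on the higher levels -/
theorem sum_low {C : Cer} (hA : A C) {lo : ℝ} (hlo : (C.jl : ℝ) / 200 ≤ lo) (φ : It → ℝ)
    (hφ : ∀ j c, φ (hi (C.nm * C.per) j c) = 0) :
    ((LL C).map fun t => if t.D.P.w ≤ lo then t.y * φ t else 0).sum =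
      (C.l0.map fun c => v c.y * φ (lw C c)).sum := by
  unfold LL
  rw [List.map_append, List.sum_append, List.map_map,
    sum_its _ _ _ _ (fun _ => 0) (fun j c => by rw [hφ]; simp)]
  simp only [List.map_const', List.sum_replicate, smul_zero, add_zero]
  congr 1
  refine List.map_congr_left fun c hc => ?_
  exact if_pos (ml_le (hA.w c hc) hlo)

theorem cst_LL {C : Cer} (hA : A C) {lo : ℝ} (hlo : (C.jl : ℝ) / 200 ≤ lo) (a l : ℝ) :
    cst (LL C) lo a l = (C.l0.map fun c => v c.y * rr c 0 C.jl l).sum +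
      cst (its (C.nm * C.per) C.gs C.jl) lo a l := by
  unfold LL cst
  rw [List.map_append, List.sum_append, List.map_map]
  congr 2
  refine List.map_congr_left fun c hc => ?_
  exact if_pos (Or.inl (ml_le (hA.w c hc) hlo))

theorem spent_ge (hS : SmS) {C : Cer} (hA : A C) :
    (C.ds.map fun d => v d.y * (S1 f0 (toD d).1 (toD d).2.1 (toD d).2.2 + e0)).sum +
      ((LL C).map fun t => t.y * (t.D.Rt + e0)).sum ≤ v (spent C) := by
  unfold spent
  rw [Nat.add_eq, v_add, v_sumL, v_sumL]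
  refine add_le_add (sum_le _ _ _ fun d hd => ?_) ?_
  · refine le_trans ?_ (le_mU _ _)
    rw [Nat.add_eq, v_add, v_e0]
    have := (hS.2.2.2.2.1 d (List.all_eq_true.1 hA.ds d hd)).1
    exact mul_le_mul_of_nonneg_left (by linarith) (v_nonneg _)
  · unfold LL
    rw [List.map_append, List.sum_append, List.map_map,
      sum_its _ _ _ _ (fun c => v c.y * (v c.Rt + e0)) (fun j c => rfl), List.map_append,
      List.sum_append]
    refine add_le_add (sum_le _ _ _ fun c _ => ?_) (sum_le _ _ _ fun c _ => ?_)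
    · refine le_trans (le_of_eq ?_) (le_mU _ _)
      rw [Nat.add_eq, v_add, v_e0]
      rfl
    · refine le_trans (le_of_eq ?_) (le_mU _ _)
      rw [Nat.add_eq, v_add, v_e0]

theorem own_ge (hX : XpS) (hS : SmS) (E : ℕ) (C : Cer) (m : ℕ) {l : ℝ} (ha : C.a1 ≤ 10000)
    (hl : ml C.a1 ≤ l) :
    v m * (BK (1 / 20) (((C.a1 / 50 : ℕ) : ℝ) / 20) + e0) +
      C.per * (max 0 (Real.exp (-ml E * l) - v m) * eta (1 / 20) l) ≤ v (own E C m) := by
  unfold own
  rw [Nat.add_eq, v_add, Nat.mul_eq, v_mul, div_eq]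
  have h0 : 0 ≤ l := (ml_nonneg _).trans hl
  refine add_le_add (le_trans ?_ (le_mU _ _)) (mul_le_mul_of_nonneg_left ?_ (Nat.cast_nonneg _))
  · exact mul_le_mul_of_nonneg_left (hS.1 _).1 (v_nonneg _)
  · refine le_trans ?_ (hS.2.2.1 _ _ l ha hl)
    refine mul_le_mul_of_nonneg_right ?_ (hS.2.1 l h0).1
    rw [Nat.sub_eq, v_sub_max]
    refine max_le_max le_rfl (sub_le_sub_right ?_ _)
    refine le_trans ?_ ((hX.1 _).2.2.2.trans (le_sU _))
    refine Real.exp_le_exp.2 ?_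
    have e : (((E.mul C.a1).mul 1000 : ℕ) : ℝ) / 10 ^ 9 = ml E * ml C.a1 := by
      rw [Nat.mul_eq, Nat.mul_eq]; unfold ml; push_cast; ring
    rw [e, neg_mul, neg_le_neg_iff]
    exact mul_le_mul_of_nonneg_left hl (ml_nonneg _)

theorem gain_le (hS : SmS) {C : Cer} (hA : A C) {l : ℝ} (h0 : 0 ≤ l) (hl : l ≤ ml C.b1) :
    v (gain C) ≤ fst C.ds l + C.per * (C.l0.map fun c => v c.y * (lw C c).rE).sum := by
  unfold gain
  rw [Nat.add_eq, v_add, Nat.mul_eq, v_mul, v_sumL]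
  refine add_le_add (hS.2.2.2.2.2 _ _ l hA.ds h0 hl)
    (mul_le_mul_of_nonneg_left (sum_le _ _ _ fun c _ => mD_le _ _) (Nat.cast_nonneg _))

theorem v_W : v 995000000000000000 = 1 - 1 / 200 := by norm_num [v]

theorem mem_LL {E : ℕ} {C : Cer} (hB : okB E C = true) {t : It} (ht : t ∈ LL C) :
    (∃ c ∈ C.l0, t = lw C c) ∨
      ∃ c ∈ flat C.gs, ∃ j, t = hi (C.nm * C.per) j c ∧ c.w ≤ 5 * j := by
  unfold LL at ht
  rw [List.mem_append, List.mem_map] at ht
  rcases ht with ⟨c, hc, rfl⟩ | ht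
  · exact Or.inl ⟨c, hc, rfl⟩
  · exact Or.inr (mem_its E _ _ _ _ _ hB t ht)

theorem mem_LL' {E : ℕ} {C : Cer} (hB : okB E C = true) {t : It} (ht : t ∈ LL C) :
    ∃ c ∈ C.l0 ++ flat C.gs, t.D = toDZ (C.nm * C.per) c ∧ t.y = v c.y := by
  rcases mem_LL hB ht with ⟨c, hc, rfl⟩ | ⟨c, hc, j, rfl, -⟩
  · exact ⟨c, List.mem_append_left _ hc, rfl, rfl⟩
  · exact ⟨c, List.mem_append_right _ hc, rfl, rfl⟩

theorem okT_ne {E : ℕ} {C : Cer} (hT : okT E C = true) (hn : C.nm ≠ 0) :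
    C.jl ≤ C.jX ∧ C.jX ≤ 2000 ∧ C.a1 ≤ 10000 ∧
      C.nm * own E C (muT E C.jl (addL C.per C.jl 0 C.l0) 0 C.jX) + spent C ≤
        C.nm * gain C + 995000000000000000 := by
  unfold okT at hT
  have e : C.nm.beq 0 = false := by
    rw [← Bool.not_eq_true, Nat.beq_eq]; exact hn
  rw [e] at hT
  simp only [cond_false, Bool.and_eq_true, Nat.ble_eq, Nat.add_eq, Nat.mul_eq] at hT
  exact ⟨hT.1.1.1, hT.1.1.2, hT.1.2, hT.2⟩

theorem okT_eq {E : ℕ} {C : Cer} (hT : okT E C = true) (hn : C.nm = 0) :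
    spent C ≤ 995000000000000000 := by
  unfold okT at hT
  have e : C.nm.beq 0 = true := by
    rw [Nat.beq_eq]; exact hn
  rw [e] at hT
  simpa only [cond_true, Nat.ble_eq] using hT

end CerL

open CerL in
theorem cerOf : CerOf := by
  intro hX hR hO hAd hS hC hW E C hA hB hT
  have hA := a_of hA
  refine ⟨{D | D ∈ (LL C).map It.D}, {e | e ∈ C.ds.map toD},
    ⟨by norm_num, by norm_num, List.finite_toSet _, List.finite_toSet _, ?_, ?_⟩, ?_⟩
  · intro D hD
    obtain ⟨t, ht, rfl⟩ := List.mem_map.1 hD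
    obtain ⟨c, hc, e, -⟩ := mem_LL' hB ht
    rw [e]
    exact hO _ _ (hA.ok c hc)
  · intro e he
    obtain ⟨d, hd, rfl⟩ := List.mem_map.1 he
    have h := List.all_eq_true.1 hA.ds d hd
    simp only [okD, Bool.and_eq_true, Nat.ble_eq] at h
    obtain ⟨⟨h1, h2⟩, h3⟩ := h
    exact ⟨by unfold toD; positivity, by unfold toD; positivity, ml_pos h3⟩
  intro Ds Es hDs hEs l₁ lo hl hlo
  refine hC _ _ _ _ _ _ _ _ _ (LL C) C.ds (C.a1 / 50)
    (v (muT E C.jl (addL C.per C.jl 0 C.l0) 0 C.jX)) ⟨?_, ?_, ?_, ?_, ?_, ?_, ?_, ?_⟩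
  · intro t ht
    obtain ⟨c, hc, e, e'⟩ := mem_LL' hB ht
    refine ⟨hDs (List.mem_map_of_mem ht), e' ▸ v_nonneg _, ?_, ?_, fun hn => ?_⟩
    · rw [e]; exact le_rfl
    · rw [e]; exact ml_le (hA.u c hc) hlo
    · rw [e]; exact hR.2.1 _ _ _ _ _ l₁ (okC_x (hA.ok c hc)).1 (hA.cF hn c hc) (hl hn).1
  · intro t ht l
    rcases mem_LL hB ht with ⟨c, hc, rfl⟩ | ⟨c, hc, j, rfl, hj⟩
    · exact ⟨rr_nonneg _ _ _ _, hAd.1 _ 0 _ c l (hA.ok c (List.mem_append_left _ hc))
        (by have := hA.w c hc; omega)⟩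
    · exact ⟨rr_nonneg _ _ _ _, hAd.1 _ 0 _ c l (hA.ok c (List.mem_append_right _ hc)) hj⟩
  · intro hn t ht
    rcases mem_LL hB ht with ⟨c, hc, rfl⟩ | ⟨c, hc, j, rfl, hj⟩
    · have hk := hA.ok c (List.mem_append_left _ hc)
      exact ⟨hR.2.1 _ _ _ _ _ l₁ (okC_x hk).1 (hA.cE hn c hc) (hl hn).1,
        hAd.2.1 _ _ _ c l₁ hk (hl hn).2,
        fun l => ⟨rr_nonneg _ _ _ _, hAd.1 _ _ _ c l hk (by have := hA.w c hc; omega)⟩⟩
    · obtain ⟨h1, h2, h3⟩ := okC_x (hA.ok c (List.mem_append_right _ hc))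
      refine ⟨hR.2.2 (ml c.x) (ml c.w - l₁) (v c.cE) (ml_pos h1) ?_ ?_ ?_, Or.inl le_rfl,
        fun l => ⟨le_rfl, Or.inl le_rfl⟩⟩
      · exact (ml_mono h2).trans (by norm_num [ml])
      · have a1 : ml c.w ≤ 10 := (ml_mono h3).trans (by norm_num [ml])
        have a2 := (ml_nonneg _).trans (hl hn).1
        linarith
      · exact le_trans (by norm_num [v]) (v_mono (hA.big c hc))
  · exact fun d hd => hEs (List.mem_map_of_mem hd)
  · intro a _ ha
    have h := hW.2 E (C.nm * C.per) C.ds C.gs C.jl _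
      (fun l => (C.l0.map fun c => v c.y * rr c 0 C.jl l).sum) lo a hA.ds hB
      (fun l _ => by
        have := hAd.2.2 0 C.jl 0 (⌊200 * l⌋₊ - C.jl) C.l0
        rwa [gt_zero, v_zero, zero_add] at this) (hlo.trans ha)
    have e : cst (LL C) lo a = fun l => (C.l0.map fun c => v c.y * rr c 0 C.jl l).sum +
        cst (its (C.nm * C.per) C.gs C.jl) lo a l := funext fun l => cst_LL hA hlo a l
    rw [e]
    exact h
  · intro hn
    obtain ⟨-, -, h3, -⟩ := okT_ne hT hn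
    refine ⟨by omega, le_trans ?_ (hl hn).1, v_nonneg _⟩
    have := cast_div_le C.a1 50
    unfold ml
    push_cast at this
    linarith
  · intro hn l _ hl'
    obtain ⟨h1, h2, -, -⟩ := okT_ne hT hn
    rw [sum_low hA hlo (fun t => t.rX l) (fun _ _ => rfl)]
    refine (hW.1 E C.jl _ 0 C.jX _ l h1 h2 le_rfl (hlo.trans hl')).trans ?_
    have := hAd.2.2 C.per C.jl 0 (⌊200 * l⌋₊ - C.jl) C.l0
    rwa [gt_zero, v_zero, zero_add] at this
  · have h1 := spent_ge hS hA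
    rcases eq_or_ne C.nm 0 with hn | hn
    · have h2 := v_mono (okT_eq hT hn)
      rw [v_W] at h2
      rw [hn, Nat.cast_zero, zero_mul, zero_add]
      exact h1.trans h2
    · obtain ⟨-, -, h3, h4⟩ := okT_ne hT hn
      have h2 := v_mono h4
      rw [v_add, v_add, v_mul, v_mul, v_W] at h2
      rw [sum_low hA hlo (fun t => t.rE) (fun _ _ => rfl)]
      have h5 := own_ge hX hS E C (muT E C.jl (addL C.per C.jl 0 C.l0) 0 C.jX) h3 (hl hn).1
      have h6 := gain_le hS hA ((ml_nonneg _).trans (hl hn).1) (hl hn).2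
      have h7 := mul_le_mul_of_nonneg_left (sub_le_sub h5 h6) (Nat.cast_nonneg (α := ℝ) C.nm)
      nlinarith

end Pool.Agent.MP_c5bf7b_nt.H25L.Nm
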