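import Pool.Agent.MP_c5bf7b_nt.H25L.SpecN

/-! Row CH: integrals of the parabola function against chords. -/

set_option autoImplicit false

namespace Pool.Agent.MP_c5bf7b_nt.H25L.Nm

open Finset Pool.Agent.MP_c5bf7b_nt.H38

namespace ChL

section
variable {K : Type} [Field K]

/-- first antiderivative -/
def G1 (s : K) : K := s - 5 * s ^ 3 / 3 + 5 * s ^ 4 / 4 - s ^ 6 / 6
/-- second antiderivative -/
def G2 (s : K) : K := s ^ 2 / 2 - 5 * s ^ 4 / 4 + s ^ 5 - s ^ 7 / 7
/-- weight of the left end -/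
def al (i : K) : K :=
  (i + 1) * (G1 ((i + 1) / 50) - G1 (i / 50)) - 50 * (G2 ((i + 1) / 50) - G2 (i / 50))
/-- weight of the right end -/
def be (i : K) : K :=
  50 * (G2 ((i + 1) / 50) - G2 (i / 50)) - i * (G1 ((i + 1) / 50) - G1 (i / 50))

end

theorem tabQ : ∀ i : ℕ, i < 50 → al (i : ℚ) ≤ (gt tA i : ℚ) / 10 ^ 18 ∧
    be (i : ℚ) ≤ (gt tB i : ℚ) / 10 ^ 18 := by decide +kernel

theorem tabR (i : ℕ) (h : i < 50) : al (i : ℝ) ≤ v (gt tA i) ∧ be (i : ℝ) ≤ v (gt tB i) := by
  obtain ⟨h1, h2⟩ := tabQ i h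
  have h1' := (Rat.cast_le (K := ℝ)).2 h1
  have h2' := (Rat.cast_le (K := ℝ)).2 h2
  simp only [al, be, G1, G2, v] at h1' h2' ⊢
  push_cast at h1' h2'
  exact ⟨h1', h2'⟩

theorem int_poly (c : Fin 7 → ℝ) (a b : ℝ) : ∫ u in a..b, ∑ k, c k * u ^ (k : ℕ) =
    ∑ k, c k * ((b ^ ((k : ℕ) + 1) - a ^ ((k : ℕ) + 1)) / ((k : ℕ) + 1)) := by
  rw [intervalIntegral.integral_finsetSum fun k _ => Continuous.intervalIntegrable (by fun_prop) _ _]
  simp only [intervalIntegral.integral_const_mul, integral_pow]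

theorem int_par (x A B a b : ℝ) (hx : x ≠ 0) : ∫ u in x * a..x * b, par x u * (A + B * u) =
    x * (A * (G1 b - G1 a) + B * x * (G2 b - G2 a)) := by
  have := int_poly ![A, B, -5 * A / x ^ 2, 5 * A / x ^ 3 - 5 * B / x ^ 2, 5 * B / x ^ 3,
    -A / x ^ 5, -B / x ^ 5] (x * a) (x * b)
  simp only [Fin.sum_univ_succ, Fin.sum_univ_zero, Matrix.cons_val_zero, Matrix.cons_val_succ,
    Fin.val_zero, Fin.val_succ] at this
  refine Eq.trans (intervalIntegral.integral_congr fun u _ => ?_) (this.trans ?_)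
  · simp only [par]
    field_simp
    ring
  · simp only [G1, G2]
    push_cast
    field_simp
    ring

theorem par_nonneg {x u : ℝ} (hx : 0 < x) (h0 : 0 ≤ u) (h1 : u ≤ x) : 0 ≤ par x u :=
  mul_nonneg (pow_nonneg (sub_nonneg.2 ((div_le_one hx).2 h1)) _) (by positivity)

theorem cont_par (x : ℝ) : Continuous (par x) := by unfold par; fun_prop

theorem cellB (x i gl gr : ℕ) (g : ℝ → ℝ) (hx : 1 ≤ x) (hi : i < 50)
    (hg : ContinuousOn g (Set.Icc (ml x * i / 50) (ml x * (i + 1) / 50))) (hc : Chd x g i gl gr) :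
    ∫ u in (ml x * i / 50)..(ml x * (i + 1) / 50), par (ml x) u * g u ≤
      ml x * (cell i gl gr / 10 ^ 36) := by
  have h0 := ml_pos hx
  have hi' : (i : ℝ) + 1 ≤ 50 := by exact_mod_cast hi
  have hab : ml x * i / 50 ≤ ml x * (i + 1) / 50 := by gcongr; linarith
  have h1 := int_par (ml x) ((1 + i) * v gl - i * v gr) (50 * (v gr - v gl) / ml x) (i / 50)
    ((i + 1) / 50) h0.ne'
  rw [← mul_div_assoc, ← mul_div_assoc] at h1
  refine le_trans (intervalIntegral.integral_mono_on hab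
    (((cont_par _).continuousOn.mul hg).intervalIntegrable_of_Icc hab)
    (Continuous.intervalIntegrable ((cont_par _).mul (by fun_prop)) _ _) fun u hu => ?_)
    (h1.le.trans ?_)
  · have hu0 : 0 ≤ u := le_trans (by positivity) hu.1
    have hu1 : u ≤ ml x := hu.2.trans (by nlinarith)
    refine mul_le_mul_of_nonneg_left ?_ (par_nonneg h0 hu0 hu1)
    have := hc (50 * u / ml x - i) (by rw [sub_nonneg, le_div_iff₀ h0]; linarith [hu.1])
      (by rw [sub_le_iff_le_add, div_le_iff₀ h0]; linarith [hu.2])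
    rw [show ml x * (i + (50 * u / ml x - i)) / 50 = u by field_simp; ring] at this
    exact this.trans (le_of_eq (by ring))
  · refine mul_le_mul_of_nonneg_left ?_ h0.le
    obtain ⟨k1, k2⟩ := tabR i hi
    have k3 := add_le_add (mul_le_mul_of_nonneg_right k1 (v_nonneg gl))
      (mul_le_mul_of_nonneg_right k2 (v_nonneg gr))
    refine le_trans (le_of_eq ?_) (k3.trans (le_of_eq ?_))
    · rw [div_mul_cancel₀ _ h0.ne', al, be]
      ring
    · simp only [cell, v, Nat.add_eq, Nat.mul_eq]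
      push_cast
      ring

end ChL

open ChL in
theorem ch : ChS := by
  refine ⟨fun x A B hx => ?_, cellB, fun x gl gr g hx hg hc => ?_⟩
  · have := int_par x A B 0 1 hx.ne'
    rw [mul_zero, mul_one] at this
    rw [this, G1, G1, G2, G2]
    ring
  · have := intervalIntegral.sum_integral_adjacent_intervals (μ := MeasureTheory.volume)
      (f := fun u => par (ml x) u * g u) (a := fun k => ml x * k / 50) (n := 50)
      fun k _ => ((cont_par _).mul hg).intervalIntegrable _ _
    simp only [Nat.cast_zero, mul_zero, zero_div, Nat.cast_ofNat, Nat.cast_add, Nat.cast_one,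
      mul_div_cancel_right₀ _ (by norm_num : (50 : ℝ) ≠ 0)] at this
    rw [← this]
    refine (sum_le_sum fun i hi => cellB x i (gl i) (gr i) g hx (mem_range.1 hi) hg.continuousOn
      (hc i (mem_range.1 hi))).trans (le_trans (le_of_eq ?_) (le_v_div _ _ (by norm_num)))
    rw [← mul_sum, ← sum_div, sumN_eq, Nat.mul_eq, v, ml]
    push_cast
    ring

end Pool.Agent.MP_c5bf7b_nt.H25L.Nm
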