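import Pool.Agent.MP_c5bf7b_nt.H25L.SpecN

/-! From a certificate given by lists to a certificate given by indexed families. -/

set_option autoImplicit false

namespace Pool.Agent.MP_c5bf7b_nt.H25L.Nm

open Finset Pool.Agent.MP_c5bf7b_nt.H38

namespace CrlL

theorem getD_mem {α : Type} (d : α) (l : List α) (i : ℕ) (hi : i < l.length) :
    l.getD i d ∈ l := by
  induction l generalizing i with
  | nil => simp at hi
  | cons a t ih =>
    cases i with
    | zero => simp
    | succ j =>
      have hj : j < t.length := by simpa using hi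
      have := ih j hj
      simp only [List.getD_cons_succ]
      exact List.mem_cons_of_mem a this

theorem sum_getD {α : Type} (d : α) (l : List α) (g : α → ℝ) :
    ∑ i ∈ range l.length, g (l.getD i d) = (l.map g).sum := by
  induction l with
  | nil => simp
  | cons a t ih =>
    rw [List.length_cons, sum_range_succ', List.map_cons, List.sum_cons]
    simp only [List.getD_cons_succ, List.getD_cons_zero]
    rw [ih, add_comm]

theorem enum {α : Type} (d : α) (l : List α) :
    ∃ f : ℕ → α, (∀ i < l.length, f i ∈ l) ∧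
      ∀ g : α → ℝ, ∑ i ∈ range l.length, g (f i) = (l.map g).sum :=
  ⟨fun i => l.getD i d, fun i hi => getD_mem d l i hi, fun g => sum_getD d l g⟩

noncomputable def it0 : It :=
  ⟨⟨⟨0, 0, 0, 0, 0, fun _ => 0, fun _ => 0⟩, 0, 0, 0, 0, 0, 0, 0, 0, 0, 0, 0, 0, 0, 0⟩, 0,
    fun _ => 0, fun _ => 0, 0⟩

end CrlL

open CrlL

open Classical in
theorem crl : CrlS := by
  intro K E Ds Es nm per l₁ lo W L ds κE μE h
  obtain ⟨f, hf, sf⟩ := enum it0 L
  obtain ⟨e, he, se⟩ := enum (⟨0, 0, 0, 0⟩ : Dn) ds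
  have h12 := h.g12
  unfold Mul at h12
  choose! κ μ hκ using h12
  let c : Cert := ⟨L.length, fun i => (f i).D, fun i => (f i).y, fun i => (f i).r,
    fun i => (f i).rX, fun i => (f i).rE, ds.length, fun k => toD (e k), fun k => v (e k).y,
    κ, μ, κE, μE⟩
  have hc : ∀ a l, c.cost lo a l = cst L lo a l := fun a l =>
    sf fun t => if t.D.P.w ≤ lo ∨ t.D.P.w + c0 ≤ min a 10 then t.y * t.r l else 0
  have hfst : ∀ a, c.first a = fst ds a := fun a => se fun d => v d.y * cc d a
  refine ⟨c, ?_, ?_, ?_, ?_, ?_, ?_, ?_, h.clsE, ?_, ?_⟩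
  · intro i hi
    exact h.mem _ (hf i hi)
  · intro i hi l _ _
    exact h.ad _ (hf i hi) l
  · intro hn i hi _
    obtain ⟨h1, h2, h3⟩ := h.adE hn _ (hf i hi)
    exact ⟨h1, h2, fun l _ => h3 l⟩
  · intro k hk
    exact ⟨h.memd _ (he k hk), v_nonneg _⟩
  · intro a ha hlo
    obtain ⟨h1, h2, h3, -, -⟩ := hκ a ha hlo
    exact ⟨h1, h2, h3⟩
  · intro a ha hlo
    rw [hc, hfst]
    exact (hκ a ha hlo).2.2.2.1
  · intro a l ha hlo hl
    rw [hc]
    exact (hκ a ha hlo).2.2.2.2 l hl
  · intro hn l hl hlo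
    have e1 := sf fun t => if t.D.P.w ≤ lo then t.y * t.rX l else 0
    exact (h.g3 hn l hl hlo).trans e1.ge
  · have e1 := sf fun t => if t.D.P.w ≤ lo then t.y * t.rE else 0
    have e2 := se fun d => v d.y * (S1 f0 (toD d).1 (toD d).2.1 (toD d).2.2 + e0)
    have e3 := sf fun t => t.y * (t.D.Rt + e0)
    have ht := h.tot
    rw [← e1, ← e2, ← e3, ← hfst] at ht
    exact ht

end Pool.Agent.MP_c5bf7b_nt.H25L.Nm
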