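import Pool.Agent.MP_c5bf7b_nt.H25L.SpecN

/-! Soundness of the exclusions for a real zero of a real character. -/

set_option autoImplicit false

namespace Pool.Agent.MP_c5bf7b_nt.H25L.Nm

open Finset Pool.Agent.MP_c5bf7b_nt.H38

namespace CsL

theorem ml_zero : ml 0 = 0 := by simp [ml]

theorem ml_one : ml 1 = c0 := by simp [ml, c0]

theorem v_two (a : ℕ) : v (a.mul 2) = 2 * v a := by
  rw [Nat.mul_eq, mul_comm, v_mul, Nat.cast_ofNat]

theorem ml_hun (i : ℕ) : ml (i.mul 100) = i / 10 := by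
  rw [Nat.mul_eq, ml]; push_cast; ring

theorem ff_eq (i : ℕ) : FF (i.mul 100) = Fp i := by
  funext z
  rw [FF, Fp, ml_hun]

theorem ok_iff {i : ℕ} (h : okI i = true) : 8 ≤ i ∧ i ≤ 35 := by
  simpa only [okI, Bool.and_eq_true, Nat.ble_eq] using h

/-- what is used about the transform with index `i` -/
structure Fa (i : ℕ) : Prop where
  mem : i ∈ Icc 8 35
  lo : ∀ a b : ℕ, v (FD (i.mul 100) a b) ≤ Fp i (ml a - ml b)
  up : ∀ b : ℕ, Fp i (-ml b) ≤ v (FU (i.mul 100) 0 b)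
  one : v (FD (i.mul 100) 1 0) ≤ Fp i c0
  anti : Antitone (Fp i)
  two : ∀ a a' b b' : ℝ, a ≤ a' → 0 ≤ b → b ≤ b' →
    Fp i (-a) - Fp i (b - a) ≤ Fp i (-a') - Fp i (b' - a')

theorem fa (hL : LpS) (hA : AdmS) (hF : FfS) {i : ℕ} (h : okI i = true) : Fa i := by
  obtain ⟨h8, h35⟩ := ok_iff h
  have h8' : (8 : ℝ) ≤ i := by exact_mod_cast h8
  have h35' : (i : ℝ) ≤ 35 := by exact_mod_cast h35
  obtain ⟨-, -, a, -, -, b⟩ := hL _ _ (hA.1 (i / 10) (by linarith) (by linarith))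
  have k := fun a b => hF.2 (i.mul 100) a b (by rw [Nat.mul_eq]; omega)
  rw [ff_eq] at k
  refine ⟨mem_Icc.2 ⟨h8, h35⟩, fun a b => (k a b).1, fun b => ?_, ?_, a, b⟩
  · simpa only [ml_zero, zero_sub] using (k 0 b).2
  · simpa only [ml_zero, ml_one, sub_zero] using (k 1 0).1

theorem lci_ok (hL : LpS) (hA : AdmS) (hF : FfS) {b T i i' : ℕ} (h : lci b T i i' = true)
    {l₁ l₂ : ℝ} (h0 : 0 ≤ l₁) (h1 : l₁ ≤ ml b)
    (H : LCI l₁ l₂ ∨ (100 ≤ l₂ ∧ Real.exp (-l₂) ≤ l₁)) : ml T ≤ l₂ := by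
  simp only [lci, Bool.and_eq_true, Nat.ble_eq, Nat.add_eq] at h
  obtain ⟨⟨⟨⟨o, o'⟩, hT⟩, c1⟩, c2⟩ := h
  by_contra hn
  have hn' := (not_le.1 hn).le
  rcases H with (H | H) | H
  · have F := fa hL hA hF o
    have a := H i F.mem
    have c := v_mono c1
    rw [v_add, v_add] at c
    have e : v 375200000000000001 = 3 / 8 + 20 * e0 + 1 / 10 ^ 18 := by norm_num [v, e0]
    linarith [F.two _ _ _ _ hn' h0 h1, F.lo b T, F.up T, F.one]
  · have F := fa hL hA hF o'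
    have a := H i' F.mem
    have c := v_mono c2
    rw [v_add, v_add, v_two, v_two] at c
    have e : v 250200000000000001 = 2 / 8 + 20 * e0 + 1 / 10 ^ 18 := by norm_num [v, e0]
    linarith [F.two _ _ _ _ hn' h0 h1, F.lo b T, F.up T, F.one]
  · have e : ml 100000 = 100 := by norm_num [ml]
    linarith [ml_mono hT, H.1]

theorem oth_ok (hL : LpS) (hA : AdmS) (hF : FfS) {b T i : ℕ} (h : oth b T i = true)
    {l₁ l₂ : ℝ} (h0 : c0 ≤ l₁) (h1 : l₁ ≤ ml b) (h2 : l₁ ≤ l₂) (h3 : l₂ ≤ 10)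
    (H : ∀ i ∈ Icc 8 35, ∀ w : ℝ, 0 ≤ w → w ≤ l₂ - c0 → w ≤ 10 →
      0 ≤ Fp i (-w) - Fp i (l₁ - w) - Fp i (l₂ - w) + 3 / 8 + 4 * e0) : ml T ≤ l₂ := by
  simp only [oth, Bool.and_eq_true, Nat.ble_eq, Nat.add_eq, Nat.sub_eq] at h
  obtain ⟨o, c1⟩ := h
  by_contra hn
  have F := fa hL hA hF o
  have p : 0 < c0 := by norm_num [c0]
  have a := H i F.mem (l₂ - c0) (by linarith) le_rfl (by linarith)
  rw [sub_sub_cancel] at a
  have t : ml T ≤ ml (T - 1) + c0 := by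
    rw [← ml_one, ← ml_add]; exact ml_mono (by omega)
  have c := v_mono c1
  rw [v_add, v_add] at c
  have e : v 375040000000000001 = 3 / 8 + 4 * e0 + 1 / 10 ^ 18 := by norm_num [v, e0]
  linarith [F.two (l₂ - c0) (ml (T - 1)) l₁ (ml b) (by linarith [not_le.1 hn]) (by linarith) h1,
    F.lo b (T - 1), F.up (T - 1), F.one]

theorem cho_ok (hL : LpS) (hA : AdmS) (hF : FfS) (hD : DevS) {a b Tf : ℕ} {l₁ l₂ : ℝ}
    (h0 : ml a ≤ l₁) (h1 : l₁ ≤ ml b)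
    (H : ∀ i ∈ Icc 8 35, ∀ w D : ℝ, 0 ≤ w → w ≤ l₂ - c0 → w ≤ 10 → Dev i 1 w 1 l₁ 1 l₂ D →
      0 ≤ Fp i (-w) - Fp i (l₁ - w) - Fp i (l₂ - w) + 2 / 8 + D + 4 * e0)
    (Ls : List Lo) (T : ℕ) (h : cho a b Tf Ls T = true) (hT : ml T ≤ l₂) : ml Tf ≤ l₂ := by
  induction Ls generalizing T with
  | nil => exact (ml_mono (Nat.le_of_ble_eq_true h)).trans hT
  | cons L Ls ih =>
    change (lko a b T L && cho a b Tf Ls L.b2) = true at h
    rw [Bool.and_eq_true] at h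
    refine ih L.b2 h.2 (le_of_not_ge fun h2 => ?_)
    obtain ⟨h, -⟩ := h
    simp only [lko, Bool.and_eq_true, Nat.ble_eq, Nat.add_eq, Nat.succ_eq_add_one] at h
    obtain ⟨⟨⟨⟨o, w1⟩, w2⟩, d⟩, c1⟩ := h
    have F := fa hL hA hF o
    have p : 0 < c0 := by norm_num [c0]
    have w3 := ml_mono w1
    rw [ml_add, ml_one] at w3
    have e' : ml 10000 = 10 := by norm_num [ml]
    have dv := hD L.i 1 1 1 L.w a b L.b2 L.D l₁ l₂ (ok_iff o).1 (ok_iff o).2 d h0 h1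
      (Or.inr ⟨by linarith, h2⟩)
    rw [Nat.cast_one] at dv
    have k := H L.i F.mem _ _ (ml_nonneg _) (by linarith) (by linarith [ml_mono w2]) dv
    have c := v_mono c1
    rw [v_add, v_add, v_add] at c
    have e : v 250040000000000001 = 2 / 8 + 4 * e0 + 1 / 10 ^ 18 := by norm_num [v, e0]
    linarith [F.anti (sub_le_sub_right h1 (ml L.w)), F.anti (sub_le_sub_right h2 (ml L.w)),
      F.lo b L.w, F.lo L.b2 L.w, F.up L.w]

theorem rc_ok (hL : LpS) (hA : AdmS) (hF : FfS) (hD : DevS) {a Tf : ℕ} {s : Sc}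
    (h : rc a Tf s = true) : ExC a s.b Tf := by
  intro l₁ l₂ h0 h1 h2 H H'
  simp only [rc, Bool.and_eq_true, Bool.or_eq_true, Nat.ble_eq] at h
  obtain ⟨p, q⟩ := h
  have hT : ml s.T ≤ l₂ := p.elim (fun p => by linarith [ml_mono p]) fun p =>
    lci_ok hL hA hF p ((ml_nonneg a).trans h0.le) h1 H
  rcases q with q | ⟨⟨⟨q1, q2⟩, q3⟩, q4⟩
  · exact (ml_mono q).trans hT
  have e : ml 10000 = 10 := by norm_num [ml]
  rcases le_total 10 l₂ with h3 | h3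
  · linarith [ml_mono q2]
  rcases H' with H' | H' | H'
  · linarith [ml_mono q2]
  · exact oth_ok hL hA hF q3 (by linarith [ml_mono q1, ml_one]) h1 h2 h3 H'
  · exact cho_ok hL hA hF hD h0.le h1 H' _ _ q4 hT

end CsL

open CsL in
theorem csOf : CsOf := by
  intro hL hA hF hD Tf bf Ss
  induction Ss with
  | nil =>
    intro a h l₁ l₂ h0 h1
    linarith [ml_mono (Nat.le_of_ble_eq_true h)]
  | cons s Ss ih =>
    intro a h l₁ l₂ h0 h1
    change (rc a Tf s && csub Tf bf Ss s.b) = true at h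
    rw [Bool.and_eq_true] at h
    rcases le_or_gt l₁ (ml s.b) with h2 | h2
    · exact rc_ok hL hA hF hD h.1 l₁ l₂ h0 h2
    · exact ih s.b h.2 l₁ l₂ h2 h1

end Pool.Agent.MP_c5bf7b_nt.H25L.Nm
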