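import Pool.Agent.MP_c5bf7b_nt.H25L.SpecN

/-! Soundness of the check of a pole against two zeros at the same height. -/

set_option autoImplicit false

namespace Pool.Agent.MP_c5bf7b_nt.H25L.Nm

open Finset Pool.Agent.MP_c5bf7b_nt.H38 intervalIntegral

namespace DevL

theorem re_Lp {g : ℝ → ℝ} (hg : Continuous g) (X a ν : ℝ) :
    (Lp g X (a + ν * Complex.I)).re =
      ∫ t in (0 : ℝ)..X, g t * (Real.exp (-a * t) * Real.cos (ν * t)) := by
  unfold Lp
  rw [← Complex.reCLM_apply, ← ContinuousLinearMap.intervalIntegral_comp_comm _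
    (Continuous.intervalIntegrable (by fun_prop) _ _)]
  refine integral_congr fun t _ => ?_
  simp only [Complex.reCLM_apply, Complex.re_ofReal_mul, Complex.exp_re]
  simp

theorem cpar (X : ℝ) : Continuous (par X) := by unfold par; fun_prop

theorem abs_re {X : ℝ} (h : Adm (par X) X) (a ν : ℝ) :
    |(Lp (par X) X (a + ν * Complex.I)).re| ≤ Lr (par X) X a := by
  have hc := cpar X
  rw [re_Lp hc]
  refine (abs_integral_le_integral_abs h.pos.le).trans (integral_mono_on h.pos.le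
    (Continuous.intervalIntegrable (by fun_prop) _ _)
    (Continuous.intervalIntegrable (by fun_prop) _ _) fun t ht => ?_)
  rw [abs_mul, abs_mul, abs_of_nonneg (h.nonneg t ht.1 ht.2), abs_of_pos (Real.exp_pos _)]
  exact mul_le_mul_of_nonneg_left (mul_le_of_le_one_right (Real.exp_pos _).le
    (Real.abs_cos_le_one _)) (h.nonneg t ht.1 ht.2)

/-- the function whose positive part is integrated -/
noncomputable def ps (X c b W l Ap Am B u : ℝ) : ℝ :=
  c * Real.exp (W * u) - b * Real.exp ((W - l) * u) + Ap - Am + B * (X - u)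

theorem main (hP : PairS) (hC : ChS) {X : ℝ} (h : Adm (par X) X) (c b W l Ap Am B b' d ν : ℝ)
    (hAp : 0 ≤ Ap) (hB : 0 ≤ B) (hb' : 0 ≤ b') (hd : 0 ≤ d)
    (hAm : ∀ u, 0 ≤ u → u ≤ X → Am ≤ b' * Real.exp (-d * u)) :
    c * (Lp (par X) X ((-W : ℝ) + ν * Complex.I)).re -
      b * (Lp (par X) X ((l - W : ℝ) + ν * Complex.I)).re -
      b' * (Lp (par X) X (d + ν * Complex.I)).re ≤
    2 * (∫ u in (0 : ℝ)..X, par X u * max 0 (ps X c b W l Ap Am B u)) -
      (c * Lr (par X) X (-W) - b * Lr (par X) X (l - W) + (Ap - Am) * (5 / 12 * X) +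
        13 / 42 * B * X ^ 2) := by
  have hc := cpar X
  have hI : ∀ g : ℝ → ℝ, Continuous g → IntervalIntegrable g MeasureTheory.volume 0 X :=
    fun g hg => hg.intervalIntegrable _ _
  have h1 := hP X (Am - Ap - B * X) B b' d 0 0 ν h.pos h.le hB hb' hd le_rfl le_rfl
  have h2 : ∫ u in (0 : ℝ)..X, par X u * max 0 (Am - Ap - B * X + B * u -
      b' * Real.exp (-d * u) - 0 * Real.exp (-0 * u)) = 0 := by
    refine (integral_congr (g := fun _ => 0) fun u hu => ?_).trans integral_zero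
    rw [Set.uIcc_of_le h.pos.le] at hu
    have := hAm u hu.1 hu.2
    have h3 := mul_nonneg hB (sub_nonneg.2 hu.2)
    simp only
    rw [max_eq_left (by linarith), mul_zero]
  have h3 := re_Lp (g := fun u => par X u * (Am - Ap - B * X + B * u)) (by fun_prop) X 0 ν
  rw [Complex.ofReal_zero, zero_add] at h3
  rw [h2, zero_mul, sub_zero, h3] at h1
  have h4 : c * (Lp (par X) X ((-W : ℝ) + ν * Complex.I)).re -
      b * (Lp (par X) X ((l - W : ℝ) + ν * Complex.I)).re -
      ∫ t in (0 : ℝ)..X, par X t * (Am - Ap - B * X + B * t) *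
        (Real.exp (-0 * t) * Real.cos (ν * t)) =
      ∫ t in (0 : ℝ)..X, par X t * ps X c b W l Ap Am B t * Real.cos (ν * t) := by
    rw [re_Lp hc, re_Lp hc, ← integral_const_mul, ← integral_const_mul,
      ← integral_sub (hI _ (by fun_prop)) (hI _ (by fun_prop)),
      ← integral_sub (hI _ (by fun_prop)) (hI _ (by fun_prop))]
    refine integral_congr fun t _ => ?_
    simp only [ps, neg_neg, neg_sub, neg_zero, zero_mul, Real.exp_zero]
    ring
  have h5 : ∫ t in (0 : ℝ)..X, par X t * ps X c b W l Ap Am B t =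
      c * Lr (par X) X (-W) - b * Lr (par X) X (l - W) + (Ap - Am) * (5 / 12 * X) +
        13 / 42 * B * X ^ 2 := by
    have h6 := hC.1 X (Ap - Am + B * X) (-B) h.pos
    have h7 : ∫ t in (0 : ℝ)..X, par X t * ps X c b W l Ap Am B t =
        c * Lr (par X) X (-W) - b * Lr (par X) X (l - W) +
          ∫ u in (0 : ℝ)..X, par X u * (Ap - Am + B * X + -B * u) := by
      unfold Lr
      rw [← integral_const_mul, ← integral_const_mul,
        ← integral_sub (hI _ (by fun_prop)) (hI _ (by fun_prop)),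
        ← integral_add (hI _ (by fun_prop)) (hI _ (by fun_prop))]
      refine integral_congr fun t _ => ?_
      simp only [ps, neg_neg, neg_sub]
      ring
    rw [h7, h6]
    ring
  have hps : Continuous (ps X c b W l Ap Am B) := by unfold ps; fun_prop
  have h8 : ∫ t in (0 : ℝ)..X, par X t * ps X c b W l Ap Am B t * Real.cos (ν * t) ≤
      2 * (∫ u in (0 : ℝ)..X, par X u * max 0 (ps X c b W l Ap Am B u)) -
        ∫ t in (0 : ℝ)..X, par X t * ps X c b W l Ap Am B t := by
    rw [← integral_const_mul, ← integral_sub (hI _ (by fun_prop)) (hI _ (by fun_prop))]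
    refine integral_mono_on h.pos.le (hI _ (by fun_prop)) (hI _ (by fun_prop)) fun t ht => ?_
    have h9 := h.nonneg t ht.1 ht.2
    have h10 : ps X c b W l Ap Am B t * Real.cos (ν * t) ≤
        2 * max 0 (ps X c b W l Ap Am B t) - ps X c b W l Ap Am B t := by
      have h11 := Real.cos_le_one (ν * t)
      have h12 := Real.neg_one_le_cos (ν * t)
      rcases le_total 0 (ps X c b W l Ap Am B t) with h13 | h13
      · rw [max_eq_right h13]; nlinarith
      · rw [max_eq_left h13]; nlinarith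
    nlinarith [mul_le_mul_of_nonneg_left h10 h9]
  linarith

theorem chord {X c b W l b₁ Ap Am B t p q : ℝ} (k : ℕ) (hX : 0 ≤ X) (hc : 0 ≤ c) (hb : 0 ≤ b)
    (hl : l ≤ b₁) (h0 : 0 ≤ t) (h1 : t ≤ 1) (hp : p ≤ Real.exp ((W - b₁) * (X * k / 50)))
    (hq : q ≤ Real.exp ((W - b₁) * (X * k / 50)) * (1 + (W - b₁) * X / 50)) :
    ps X c b W l Ap Am B (X * (k + t) / 50) ≤
      (1 - t) * (c * Real.exp (W * (X * k / 50)) + Ap + B * X * (50 - k) / 50 - (b * p + Am)) +
      t * (c * Real.exp (W * (X * (k + 1 : ℕ) / 50)) + Ap + B * X * (50 - (k + 1 : ℕ)) / 50 -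
        (b * q + Am)) := by
  have e1 : Real.exp (W * (X * (k + t) / 50)) ≤ (1 - t) * Real.exp (W * (X * k / 50)) +
      t * Real.exp (W * (X * (k + 1 : ℕ) / 50)) := by
    have := convexOn_exp.2 (Set.mem_univ (W * (X * k / 50)))
      (Set.mem_univ (W * (X * (k + 1 : ℕ) / 50))) (sub_nonneg.2 h1) h0 (by ring)
    simp only [smul_eq_mul] at this
    refine le_trans (le_of_eq (congrArg _ ?_)) this
    push_cast
    ring
  have e2 : (1 - t) * p + t * q ≤ Real.exp ((W - l) * (X * (k + t) / 50)) := by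
    have h2 : Real.exp ((W - b₁) * (X * (k + t) / 50)) ≤
        Real.exp ((W - l) * (X * (k + t) / 50)) :=
      Real.exp_le_exp.2 (mul_le_mul_of_nonneg_right (by linarith) (by positivity))
    have h3 := mul_le_mul_of_nonneg_left (Real.add_one_le_exp ((W - b₁) * (X * t / 50)))
      (Real.exp_pos ((W - b₁) * (X * k / 50))).le
    rw [← Real.exp_add, show (W - b₁) * (X * k / 50) + (W - b₁) * (X * t / 50) =
      (W - b₁) * (X * (k + t) / 50) by ring] at h3
    have h4 := mul_le_mul_of_nonneg_left hp (sub_nonneg.2 h1)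
    have h5 := mul_le_mul_of_nonneg_left hq h0
    nlinarith
  have e3 := mul_le_mul_of_nonneg_left e1 hc
  have e4 := mul_le_mul_of_nonneg_left e2 hb
  unfold ps
  push_cast at e3 ⊢
  nlinarith

theorem dB_le (hX : XpS) (x w b1 : ℕ) :
    vP (dB x w b1) ≤ Real.exp ((ml w - ml b1) * (ml x / 50)) := by
  rw [dB]
  cases h : b1.ble w
  · have h1 : w ≤ b1 := (Nat.not_le.1 (by rwa [← Nat.ble_eq, Bool.not_eq_true])).le
    have h2 := (hX.1 (((b1.sub w).mul x).mul 20)).2.2.1
    rw [cond_false]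
    refine h2.trans_eq ?_
    simp only [Nat.mul_eq, Nat.sub_eq, ml]
    push_cast [Nat.cast_sub h1]
    congr 1
    ring
  · have h1 : b1 ≤ w := Nat.ble_eq ▸ h
    have h2 := (hX.1 (((w.sub b1).mul x).mul 20)).1
    rw [cond_true]
    refine h2.trans_eq ?_
    simp only [Nat.mul_eq, Nat.sub_eq, ml]
    push_cast [Nat.cast_sub h1]
    congr 1
    ring

theorem dF_eq {x w b1 : ℕ} (hx : x ≤ 3500) (hb : b1 ≤ 1000) :
    v (dF x w b1) = 1 + (ml w - ml b1) * ml x / 50 := by
  have e : ∀ a : ℕ, v (a * x * 20000000000) = ml a * ml x / 50 := fun a => by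
    rw [v, ml, ml, Nat.cast_mul, Nat.cast_mul, Nat.cast_ofNat]
    ring
  rw [dF]
  cases h : b1.ble w
  · have h1 : w ≤ b1 := (Nat.not_le.1 (by rwa [← Nat.ble_eq, Bool.not_eq_true])).le
    have h2 : (b1 - w) * x * 20000000000 ≤ 1000000000000000000 :=
      (Nat.mul_le_mul_right _ (Nat.mul_le_mul ((Nat.sub_le b1 w).trans hb) hx)).trans
        (by norm_num)
    rw [cond_false, Nat.sub_eq, Nat.mul_eq, Nat.mul_eq, Nat.sub_eq, v_sub h2, v_one, e, ml_sub h1]
    ring
  · have h1 : b1 ≤ w := Nat.ble_eq ▸ h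
    rw [cond_true, Nat.add_eq, Nat.mul_eq, Nat.mul_eq, Nat.sub_eq, v_add, v_one, e, ml_sub h1]

theorem le_dP (hX : XpS) (x c w : ℕ) (D : Dv) {k : ℕ} (hk : k ≤ 50) :
    c * Real.exp (ml w * (ml x * k / 50)) + v D.ap + v D.b * ml x * (50 - k) / 50 ≤
      v (dP x c w D k) := by
  have h1 := mul_le_mul_of_nonneg_left (hX.2.1 x w k) (Nat.cast_nonneg (α := ℝ) c)
  have h2 := le_v_div (D.b * x * (50 - k)) 50000 (by norm_num)
  have h3 : v (D.b * x * (50 - k)) / (50000 : ℕ) = v D.b * ml x * (50 - k) / 50 := by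
    simp only [v, ml]
    push_cast [Nat.cast_sub hk]
    ring
  simp only [dP, Nat.add_eq, Nat.mul_eq, Nat.sub_eq, div_eq, Nat.succ_eq_add_one]
  rw [v_add, v_add, v_mul]
  linarith

theorem chd (hX : XpS) {x b1 : ℕ} (hx : x ≤ 3500) (hb : b1 ≤ 1000) (c b w : ℕ) (D : Dv) {l : ℝ}
    (hl : l ≤ ml b1) {k : ℕ} (hk : k < 50) :
    Chd x (fun u => max 0 (ps (ml x) c b (ml w) l (v D.ap) (v D.am) (v D.b) u)) k
      ((dP x c w D k).sub ((b.mul (pwD 1000000000000000000 (dB x w b1) k)).add D.am))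
      ((dP x c w D k.succ).sub
        ((b.mul (mD (pwD 1000000000000000000 (dB x w b1) k) (dF x w b1))).add D.am)) := by
  intro t h0 h1
  have hp : v (pwD 1000000000000000000 (dB x w b1) k) ≤
      Real.exp ((ml w - ml b1) * (ml x * k / 50)) := by
    refine (v_pwD _ _ _).trans ?_
    rw [v_one, one_mul, show (ml w - ml b1) * (ml x * k / 50) =
      k * ((ml w - ml b1) * (ml x / 50)) by ring, Real.exp_nat_mul]
    exact pow_le_pow_left₀ (vP_nonneg _) (dB_le hX x w b1) k
  have hq := (mD_le _ _).trans (mul_le_mul_of_nonneg_right hp (v_nonneg (dF x w b1)))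
  rw [dF_eq hx hb] at hq
  refine max_le (add_nonneg (mul_nonneg (sub_nonneg.2 h1) (v_nonneg _))
    (mul_nonneg h0 (v_nonneg _))) ?_
  refine (chord k (ml_nonneg x) (Nat.cast_nonneg c) (Nat.cast_nonneg b) hl h0 h1 hp hq).trans
    (add_le_add (mul_le_mul_of_nonneg_left ?_ (sub_nonneg.2 h1))
      (mul_le_mul_of_nonneg_left ?_ h0))
  · refine le_trans ?_ (le_v_sub _ _)
    rw [Nat.add_eq, Nat.mul_eq, v_add, v_mul]
    exact sub_le_sub_right (le_dP hX x c w D hk.le) _
  · refine le_trans ?_ (le_v_sub _ _)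
    rw [Nat.add_eq, Nat.mul_eq, v_add, v_mul]
    exact sub_le_sub_right (le_dP hX x c w D hk) _

end DevL

open DevL in
theorem devOf : DevOf := by
  intro hL hA hP hX hF hC i c b b' w a1 b1 b2 D l₁ l₂ h8 h35 hok ha hb h2 ν
  obtain ⟨x, hx⟩ : ∃ x, x = i.mul 100 := ⟨_, rfl⟩
  have hx1 : 1 ≤ x := by rw [hx, Nat.mul_eq]; omega
  have hx2 : x ≤ 3500 := by rw [hx, Nat.mul_eq]; omega
  have e : (i : ℝ) / 10 = ml x := by rw [hx, Nat.mul_eq, ml]; push_cast; ring
  rw [← hx] at hok
  rw [e]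
  have hd : Adm (par (ml x)) (ml x) := hA.1 _ (ml_pos hx1) ((ml_mono hx2).trans (by norm_num [ml]))
  have hc0 : (0 : ℝ) ≤ c := Nat.cast_nonneg c
  have hb0 : (0 : ℝ) ≤ b := Nat.cast_nonneg b
  have hb' : (0 : ℝ) ≤ b' := Nat.cast_nonneg b'
  have f1 := hF.2 x 0 w hx1
  rw [show ml 0 - ml w = -ml w by simp [ml], FF] at f1
  have f2 : Lr (par (ml x)) (ml x) (l₁ - ml w) ≤ v (FU x a1 w) :=
    ((hL _ _ hd).2.2.1 (sub_le_sub_right ha _)).trans (hF.2 x a1 w hx1).2
  unfold devOk at hok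
  cases h : ((c.mul (FU x 0 w)).add (b.mul (FU x a1 w))).ble D.d
  · rw [h, cond_false] at hok
    simp only [Bool.and_eq_true, Nat.ble_eq, Nat.add_eq, Nat.mul_eq, Nat.sub_eq, div_eq,
      Nat.succ_eq_add_one] at hok
    obtain ⟨⟨k1, k2⟩, k3⟩ := hok
    have k4 := v_mono k2
    have k5 := v_mono k3
    rw [v_mul] at k4
    obtain ⟨d, d0, d1, d2⟩ : ∃ d : ℝ, 0 ≤ d ∧
        (∀ u, 0 ≤ u → u ≤ ml x → v D.am ≤ b' * Real.exp (-d * u)) ∧
        b' * (Lp (par (ml x)) (ml x) ((l₂ - ml w : ℝ) + ν * Complex.I)).re =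
          b' * (Lp (par (ml x)) (ml x) (d + ν * Complex.I)).re := by
      rcases h2 with rfl | ⟨h2, h3⟩
      · exact ⟨0, le_rfl, fun u _ _ => by simpa using k4, by simp⟩
      refine ⟨l₂ - ml w, sub_nonneg.2 h2, fun u u0 u1 => k4.trans (mul_le_mul_of_nonneg_left
        ((sD_le _).trans ((hX.1 _).2.2.1.trans (Real.exp_le_exp.2 ?_))) hb'), rfl⟩
      have h4 : w ≤ b2 := by
        have := h2.trans h3
        unfold ml at this
        exact_mod_cast (div_le_div_iff_of_pos_right (by norm_num)).1 this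
      have h5 : (((b2 - w) * x * 1000 : ℕ) : ℝ) / 10 ^ 9 = (ml b2 - ml w) * ml x := by
        simp only [ml]
        push_cast [Nat.cast_sub h4]
        ring
      rw [h5, neg_mul, neg_le_neg_iff]
      exact mul_le_mul (by linarith) u1 u0 (by linarith)
    have m1 := main hP hC hd c b (ml w) l₁ (v D.ap) (v D.am) (v D.b) b' d ν (v_nonneg _)
      (v_nonneg _) hb' d0 d1
    have m2 : _ ≤ v (intU x (dC x c b w b1 D)) := hC.2.2 x _ _ _ hx1
      (by unfold DevL.ps; fun_prop) fun k hk => chd hX hx2 k1 c b w D hb hk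
    have m3 := le_v_div (D.am * x) 2400 (by norm_num)
    have m4 := v_div_le (D.ap * x) 2400
    have m5 := v_div_le (D.b * x * x * 13) 42000000
    have m6 : ∀ a : ℕ, v (a * x) / (2400 : ℕ) = v a * (5 / 12 * ml x) := fun a => by
      simp only [v, ml]
      push_cast
      ring
    have m7 : v (D.b * x * x * 13) / (42000000 : ℕ) = 13 / 42 * v D.b * ml x ^ 2 := by
      simp only [v, ml]
      push_cast
      ring
    rw [v_add, v_add, v_add (D.d + _ + _), v_add (D.d + _), v_add D.d, mul_comm _ 2, v_mul, v_mul,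
      v_mul] at k5
    have m8 := mul_le_mul_of_nonneg_left f1.1 hc0
    have m9 := mul_le_mul_of_nonneg_left f2 hb0
    rw [m6] at m3 m4
    rw [m7] at m5
    rw [d2]
    push_cast at k5
    linarith
  · have k1 := v_mono (Nat.ble_eq ▸ h)
    rw [Nat.add_eq, Nat.mul_eq, Nat.mul_eq, v_add, v_mul, v_mul] at k1
    have m1 := mul_le_mul_of_nonneg_left ((le_abs_self _).trans
      ((abs_re hd (-ml w) ν).trans f1.2)) hc0
    have m2 := mul_le_mul_of_nonneg_left ((neg_le_abs _).trans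
      ((abs_re hd (l₁ - ml w) ν).trans f2)) hb0
    have m3 : 0 ≤ b' * (Lp (par (ml x)) (ml x) ((l₂ - ml w : ℝ) + ν * Complex.I)).re := by
      rcases h2 with rfl | ⟨h2, -⟩
      · simp
      · exact mul_nonneg hb' (hd.re _ (by simpa using h2))
    linarith

end Pool.Agent.MP_c5bf7b_nt.H25L.Nm
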