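import Pool.Agent.MP_c5bf7b_nt.H25L.SpecN

/-! The closed form of the transform of the parabola function and its rounded values. -/

set_option autoImplicit false

namespace Pool.Agent.MP_c5bf7b_nt.H25L.Nm

open Pool.Agent.MP_c5bf7b_nt.H38

namespace FfL

theorem poly (a5 a4 a3 a2 a1 a0 s : ℝ) :
    HasDerivAt (fun s : ℝ => a5 * s ^ 5 + a4 * s ^ 4 + a3 * s ^ 3 + a2 * s ^ 2 + a1 * s + a0)
      (5 * a5 * s ^ 4 + 4 * a4 * s ^ 3 + 3 * a3 * s ^ 2 + 2 * a2 * s + a1) s := by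
  have h := fun n : ℕ => hasDerivAt_pow n s
  refine (((((((h 5).const_mul a5).fun_add ((h 4).const_mul a4)).fun_add
    ((h 3).const_mul a3)).fun_add ((h 2).const_mul a2)).fun_add
    ((hasDerivAt_id' s).const_mul a1)).add_const a0).congr_deriv ?_
  norm_num
  ring

theorem lr_sub (x d : ℝ) (hx : x ≠ 0) : Lr (par x) x d =
    x * ∫ s in (0 : ℝ)..1, (1 - s) ^ 3 * (1 + 3 * s + s ^ 2) * Real.exp (-(x * d) * s) := by
  have h := intervalIntegral.integral_comp_div (a := 0) (b := x)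
    (fun s : ℝ => (1 - s) ^ 3 * (1 + 3 * s + s ^ 2) * Real.exp (-(x * d) * s)) hx
  rw [zero_div, div_self hx, smul_eq_mul] at h
  rw [← h, Lr]
  refine intervalIntegral.integral_congr fun t _ => ?_
  have e : -(x * d) * (t / x) = -d * t := by field_simp
  simp only [par, e]

theorem int_ne (y : ℝ) (hy : y ≠ 0) :
    ∫ s in (0 : ℝ)..1, (1 - s) ^ 3 * (1 + 3 * s + s ^ 2) * Real.exp (-y * s) =
      (y ^ 5 - 10 * y ^ 3 + 30 * y ^ 2 - 120 +
        Real.exp (-y) * (30 * y ^ 2 + 120 * y + 120)) / y ^ 6 := by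
  have key : ∀ s ∈ Set.uIcc (0 : ℝ) 1, HasDerivAt (fun s : ℝ => Real.exp (-y * s) *
      (y ^ 5 * s ^ 5 + 5 * y ^ 4 * s ^ 4 + (20 * y ^ 3 - 5 * y ^ 5) * s ^ 3 +
        (5 * y ^ 5 - 15 * y ^ 4 + 60 * y ^ 2) * s ^ 2 + (10 * y ^ 4 - 30 * y ^ 3 + 120 * y) * s +
        (120 - y ^ 5 + 10 * y ^ 3 - 30 * y ^ 2)) / y ^ 6)
      ((1 - s) ^ 3 * (1 + 3 * s + s ^ 2) * Real.exp (-y * s)) s := fun s _ => by
    refine ((((hasDerivAt_id' s).const_mul (-y)).exp.fun_mul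
      (poly _ _ _ _ _ _ s)).div_const (y ^ 6)).congr_deriv ?_
    field_simp
    ring
  rw [intervalIntegral.integral_eq_sub_of_hasDerivAt key
    (Continuous.intervalIntegrable (by fun_prop) _ _)]
  simp only [mul_one, mul_zero, Real.exp_zero]
  field_simp
  ring

theorem int_zero : ∫ s in (0 : ℝ)..1, (1 - s) ^ 3 * (1 + 3 * s + s ^ 2) = 5 / 12 := by
  have key : ∀ s ∈ Set.uIcc (0 : ℝ) 1, HasDerivAt (fun s : ℝ => s *
      (-1 / 6 * s ^ 5 + 0 * s ^ 4 + 5 / 4 * s ^ 3 + -5 / 3 * s ^ 2 + 0 * s + 1))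
      ((1 - s) ^ 3 * (1 + 3 * s + s ^ 2)) s := fun s _ => by
    refine ((hasDerivAt_id' s).fun_mul (poly _ _ _ _ _ _ s)).congr_deriv ?_
    ring
  rw [intervalIntegral.integral_eq_sub_of_hasDerivAt key
    (Continuous.intervalIntegrable (by fun_prop) _ _)]
  norm_num

theorem ff_nonneg (x : ℕ) (d : ℝ) (hx : 1 ≤ x) : 0 ≤ FF x d := by
  rw [FF, lr_sub _ _ (ml_pos hx).ne']
  refine mul_nonneg (ml_nonneg x) (intervalIntegral.integral_nonneg zero_le_one fun s hs => ?_)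
  have h0 := hs.1
  have h1 := sub_nonneg.2 hs.2
  positivity

theorem ff_zero (x : ℕ) (hx : 1 ≤ x) : FF x 0 = v (x * 1000000000000000000) / (2400 : ℕ) := by
  rw [FF, lr_sub _ _ (ml_pos hx).ne']
  simp only [mul_zero, neg_zero, zero_mul, Real.exp_zero, mul_one]
  rw [int_zero, ml, v]
  push_cast
  ring

noncomputable def nF (x A E : ℝ) : ℝ :=
  x * 1000 * (A ^ 5 - 10 ^ 13 * A ^ 3 + 3 * 10 ^ 19 * A ^ 2 - 12 * 10 ^ 31 +
    E * (3 * 10 ^ 19 * (A + 2 * 10 ^ 6) ^ 2)) / A ^ 6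

theorem nF_mono (x : ℕ) (A : ℝ) {E E' : ℝ} (h : E ≤ E') : nF x A E ≤ nF x A E' := by
  unfold nF
  have : 0 ≤ A ^ 6 := by positivity
  gcongr

theorem ff_eq (x : ℕ) (A d : ℝ) (hx : 1 ≤ x) (hA : A ≠ 0) (h : ml x * d = A / 10 ^ 6) :
    FF x d = nF x A (Real.exp (-(A / 10 ^ 6))) := by
  rw [FF, lr_sub _ _ (ml_pos hx).ne', h, int_ne _ (by positivity), nF, ml]
  field_simp
  ring

theorem lo (a b c D : ℕ) (F : ℝ) (hF : 0 ≤ F) (h : ((a : ℝ) - b) * c / D / 10 ^ 18 ≤ F) :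
    v ((a - b) * c / D) ≤ F := by
  rcases le_total b a with e | e
  · refine (v_div_le _ _).trans (le_trans (le_of_eq ?_) h)
    rw [v, Nat.cast_mul, Nat.cast_sub e]
    ring
  · rw [Nat.sub_eq_zero_of_le e, zero_mul, Nat.zero_div, v_zero]
    exact hF

theorem up (a b c D : ℕ) (hD : 0 < D) :
    ((a : ℝ) - b) * c / D / 10 ^ 18 ≤ v ((a - b) * c / D + 1) := by
  refine le_trans ?_ (le_v_div _ _ hD)
  have e : (a : ℝ) - b ≤ (a - b : ℕ) := by
    rcases le_total b a with e | e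
    · rw [Nat.cast_sub e]
    · exact (sub_nonpos.2 (Nat.cast_le.2 e)).trans (Nat.cast_nonneg _)
  rw [v, Nat.cast_mul, div_right_comm]
  gcongr

theorem fN_eq (x A e : ℕ) : ∃ a b c D : ℕ, fN x A e = (a - b) * c / D ∧ (0 < A → 0 < D) ∧
    ((a : ℝ) - b) * c / D / 10 ^ 18 = nF x A (vP e) := by
  refine ⟨_, _, _, _, rfl, fun h => ?_, ?_⟩
  · simp only [Nat.mul_eq, shl_eq]
    positivity
  · simp only [Nat.add_eq, Nat.mul_eq, shl_eq]
    push_cast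
    rw [nF, vP]
    rcases eq_or_ne (A : ℝ) 0 with h | h
    · simp [h]
    · field_simp
      ring

theorem gN_eq (x A e : ℕ) : ∃ a b c D : ℕ, gN x A e = (a - b) * c / D ∧ (0 < A → 0 < D) ∧
    ((a : ℝ) - b) * c / D / 10 ^ 18 = nF x (-A) (vP e) := by
  refine ⟨_, _, _, _, rfl, fun h => ?_, ?_⟩
  · simp only [Nat.pow_eq, shl_eq]
    positivity
  · have k : 4000000 * A ≤ A * A + 4000000000000 := by
      have : (4000000 * A : ℤ) ≤ A * A + 4000000000000 := by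
        nlinarith [sq_nonneg ((A : ℤ) - 2000000)]
      exact_mod_cast this
    simp only [Nat.add_eq, Nat.mul_eq, Nat.sub_eq, Nat.pow_eq, shl_eq]
    push_cast [Nat.cast_sub k]
    rw [nF, vP]
    rcases eq_or_ne (A : ℝ) 0 with h | h
    · simp [h]
    · field_simp
      ring

theorem gen (x n : ℕ) (A d E : ℝ) (hx : 1 ≤ x) (hA : A ≠ 0) (h : ml x * d = A / 10 ^ 6)
    (hn : ∃ a b c D : ℕ, n = (a - b) * c / D ∧ 0 < D ∧
      ((a : ℝ) - b) * c / D / 10 ^ 18 = nF x A E) :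
    (E ≤ Real.exp (-(A / 10 ^ 6)) → v n ≤ FF x d) ∧
      (Real.exp (-(A / 10 ^ 6)) ≤ E → FF x d ≤ v n.succ) := by
  obtain ⟨a, b, c, D, rfl, hD, e⟩ := hn
  refine ⟨fun k => lo a b c D _ (ff_nonneg x d hx) ?_, fun k => le_trans ?_ (up a b c D hD)⟩
  · rw [e, ff_eq x A d hx hA h]
    exact nF_mono x A k
  · rw [e, ff_eq x A d hx hA h]
    exact nF_mono x A k

theorem genF (x A e : ℕ) (d : ℝ) (hx : 1 ≤ x) (hA : 0 < A) (h : ml x * d = A / 10 ^ 6) :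
    (vP e ≤ Real.exp (-(A / 10 ^ 6)) → v (fN x A e) ≤ FF x d) ∧
      (Real.exp (-(A / 10 ^ 6)) ≤ vP e → FF x d ≤ v (fN x A e).succ) :=
  let ⟨a, b, c, D, e1, e2, e3⟩ := fN_eq x A e
  gen x _ A d _ hx (by positivity) h ⟨a, b, c, D, e1, e2 hA, e3⟩

theorem genG (x A e : ℕ) (d : ℝ) (hx : 1 ≤ x) (hA : 0 < A) (h : ml x * d = -A / 10 ^ 6) :
    (vP e ≤ Real.exp (A / 10 ^ 6) → v (gN x A e) ≤ FF x d) ∧
      (Real.exp (A / 10 ^ 6) ≤ vP e → FF x d ≤ v (gN x A e).succ) := by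
  obtain ⟨a, b, c, D, e1, e2, e3⟩ := gN_eq x A e
  have := gen x _ (-A) d _ hx (neg_ne_zero.2 (by positivity)) h ⟨a, b, c, D, e1, e2 hA, e3⟩
  rwa [neg_div, neg_neg] at this

theorem sc (A : ℕ) : ((A.mul 1000 : ℕ) : ℝ) / 10 ^ 9 = A / 10 ^ 6 := by
  rw [Nat.mul_eq]
  push_cast
  ring

end FfL

open FfL

theorem ffOf : FfOf := by
  rintro ⟨hX, -⟩
  refine ⟨fun x A e d hx h he => ?_, fun x a b hx => ?_⟩
  · rcases A.eq_zero_or_pos with rfl | hA
    · obtain ⟨a, b, c, D, e1, -, e3⟩ := fN_eq x 0 e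
      rw [e1]
      refine lo a b c D _ (ff_nonneg x d hx) (e3.trans_le ?_)
      simpa [nF] using ff_nonneg x d hx
    · exact (genF x A e d hx hA h).1 he
  unfold FD FU
  rcases lt_trichotomy a b with h | rfl | h
  · have c1 : a.beq b = false := Bool.eq_false_iff.2 fun k => h.ne (Nat.eq_of_beq_eq_true k)
    have c2 : b.ble a = false := Bool.eq_false_iff.2 fun k => h.not_ge (Nat.le_of_ble_eq_true k)
    have k := hX ((x.mul (b.sub a)).mul 1000)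
    have hA : 0 < x.mul (b.sub a) := Nat.mul_pos hx (Nat.sub_pos_of_lt h)
    have e : ml x * (ml a - ml b) = -((x.mul (b.sub a) : ℕ) : ℝ) / 10 ^ 6 := by
      rw [Nat.mul_eq, Nat.sub_eq, Nat.cast_mul, Nat.cast_sub h.le, ml, ml, ml]
      ring
    rw [sc] at k
    rw [c1, c2, cond_false, cond_false, cond_false, cond_false]
    exact ⟨(genG x _ _ _ hx hA e).1 k.1, (genG x _ _ _ hx hA e).2 k.2.1⟩
  · rw [Nat.beq_refl, sub_self, ff_zero x hx, cond_true, cond_true]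
    exact ⟨v_div_le _ _, le_v_div _ _ (by norm_num)⟩
  · have c1 : a.beq b = false := Bool.eq_false_iff.2 fun k => h.ne' (Nat.eq_of_beq_eq_true k)
    have c2 : b.ble a = true := Nat.ble_eq_true_of_le h.le
    have k := hX ((x.mul (a.sub b)).mul 1000)
    have hA : 0 < x.mul (a.sub b) := Nat.mul_pos hx (Nat.sub_pos_of_lt h)
    have e : ml x * (ml a - ml b) = ((x.mul (a.sub b) : ℕ) : ℝ) / 10 ^ 6 := by
      rw [Nat.mul_eq, Nat.sub_eq, Nat.cast_mul, Nat.cast_sub h.le, ml, ml, ml]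
      ring
    rw [sc] at k
    rw [c1, c2, cond_false, cond_true, cond_false, cond_true]
    exact ⟨(genF x _ _ _ hx hA e).1 k.2.2.1, (genF x _ _ _ hx hA e).2 k.2.2.2⟩

end Pool.Agent.MP_c5bf7b_nt.H25L.Nm
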