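import Pool.Agent.MP_c5bf7b_nt.H25L.SpecN

/-! Row IR: the integrals `I` and `R` of one inequality between prime sums. -/

set_option autoImplicit false

namespace Pool.Agent.MP_c5bf7b_nt.H25L.Nm

open Finset Pool.Agent.MP_c5bf7b_nt.H38

namespace IrL

theorem lc {ea eb pa pb qa qb t : ℝ} (hpa : 0 < pa) (hpb : 0 < pb) (hqa : 0 < qa) (hqb : 0 < qb)
    (h0 : 0 ≤ t) (h1 : t ≤ 1) :
    Real.exp ((1 - t) * ea + t * eb) / (((1 - t) * pa + t * pb) * ((1 - t) * qa + t * qb)) ≤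
      (1 - t) * (Real.exp ea / (pa * qa)) + t * (Real.exp eb / (pb * qb)) := by
  have h1' : 0 ≤ 1 - t := by linarith
  have hpos : ∀ a b : ℝ, 0 < a → 0 < b → 0 < (1 - t) * a + t * b := by
    intro a b ha hb
    rcases eq_or_lt_of_le h0 with h | h
    · rw [← h]; linarith
    · have := mul_pos h hb
      have := mul_nonneg h1' ha.le
      linarith
  have hlog : ∀ a b : ℝ, 0 < a → 0 < b →
      (1 - t) * Real.log a + t * Real.log b ≤ Real.log ((1 - t) * a + t * b) := by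
    intro a b ha hb
    have := strictConcaveOn_log_Ioi.concaveOn.2 (Set.mem_Ioi.2 ha) (Set.mem_Ioi.2 hb) h1' h0
      (by ring)
    simpa only [smul_eq_mul] using this
  have he : ∀ e p q : ℝ, 0 < p → 0 < q →
      Real.exp e / (p * q) = Real.exp (e - Real.log p - Real.log q) := by
    intro e p q hp hq
    rw [Real.exp_sub, Real.exp_sub, Real.exp_log hp, Real.exp_log hq, div_div]
  have hc := convexOn_exp.2 (Set.mem_univ (ea - Real.log pa - Real.log qa))
    (Set.mem_univ (eb - Real.log pb - Real.log qb)) h1' h0 (by ring)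
  simp only [smul_eq_mul] at hc
  rw [he _ _ _ (hpos _ _ hpa hpb) (hpos _ _ hqa hqb), he _ _ _ hpa hqa, he _ _ _ hpb hqb]
  refine le_trans (Real.exp_le_exp.2 ?_) hc
  have := hlog _ _ hpa hpb
  have := hlog _ _ hqa hqb
  linarith

noncomputable def gR (k X γ u : ℝ) : ℝ := Real.exp (k * u) * ((u + f0) / ((u - f0) * Psi X γ u))

theorem f0_pos : 0 < f0 := by norm_num [f0]

theorem psi_pos {X γ u : ℝ} (hX : 0 < X) (g0 : 0 ≤ γ) (g1 : γ < 1) (hu : 0 ≤ u) :
    0 < Psi X γ u := by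
  have : 0 ≤ γ * (u / X) := by positivity
  unfold Psi
  linarith

theorem gR_eq {k X γ u : ℝ} (hu : f0 < u) (hp : 0 < Psi X γ u) :
    gR k X γ u = Real.exp (k * u) / (1 * Psi X γ u) +
      2 * f0 * (Real.exp (k * u) / ((u - f0) * Psi X γ u)) := by
  have h : u - f0 ≠ 0 := (sub_pos.2 hu).ne'
  unfold gR
  field_simp
  ring

theorem gR_chord {k X γ a b t : ℝ} (hX : 0 < X) (g0 : 0 ≤ γ) (g1 : γ < 1) (ha : f0 < a)
    (hb : f0 < b) (h0 : 0 ≤ t) (h1 : t ≤ 1) :
    gR k X γ ((1 - t) * a + t * b) ≤ (1 - t) * gR k X γ a + t * gR k X γ b := by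
  have f := f0_pos
  have pa := psi_pos hX g0 g1 (f.trans ha).le
  have pb := psi_pos hX g0 g1 (f.trans hb).le
  have hu : f0 < (1 - t) * a + t * b := by
    rcases le_total a b with h | h
    · nlinarith [mul_nonneg h0 (sub_nonneg.2 h)]
    · nlinarith [mul_nonneg (sub_nonneg.2 h1) (sub_nonneg.2 h)]
  have pu := psi_pos hX g0 g1 (f.trans hu).le
  have e1 : Psi X γ ((1 - t) * a + t * b) = (1 - t) * Psi X γ a + t * Psi X γ b := by
    unfold Psi; ring
  have A := lc (ea := k * a) (eb := k * b) one_pos one_pos pa pb h0 h1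
  have B := lc (ea := k * a) (eb := k * b) (sub_pos.2 ha) (sub_pos.2 hb) pa pb h0 h1
  rw [show (1 - t) * (k * a) + t * (k * b) = k * ((1 - t) * a + t * b) by ring, ← e1] at A B
  rw [show (1 - t) * 1 + t * 1 = (1 : ℝ) by ring] at A
  rw [show (1 - t) * (a - f0) + t * (b - f0) = (1 - t) * a + t * b - f0 by ring] at B
  rw [gR_eq hu pu, gR_eq ha pa, gR_eq hb pb]
  have B' := mul_le_mul_of_nonneg_left B (by positivity : (0 : ℝ) ≤ 2 * f0)
  linarith

theorem gR_cont {k X γ a b : ℝ} (hX : 0 < X) (g0 : 0 ≤ γ) (g1 : γ < 1) (ha : f0 < a) :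
    ContinuousOn (gR k X γ) (Set.Icc a b) := by
  unfold gR
  refine ContinuousOn.mul (by fun_prop) (ContinuousOn.div (by fun_prop) ?_ ?_)
  · unfold Psi; fun_prop
  · intro u hu
    have h : f0 < u := ha.trans_le hu.1
    exact (mul_pos (sub_pos.2 h) (psi_pos hX g0 g1 (f0_pos.trans h).le)).ne'

theorem node (x k : ℕ) (h : 12506 ≤ x * k) : f0 < ml x * k / 50 := by
  have h' : (12506 : ℝ) ≤ x * k := by exact_mod_cast h
  unfold f0 ml
  linarith

theorem ml_two (w : ℕ) : ml (w * 2) = 2 * ml w := by unfold ml; push_cast; ring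

theorem gR_node (hX : XpS) (c : Con) (k : ℕ) (hx : 1 ≤ c.x)
    (hg : c.ga + 1 ≤ 1000000000000000000) (h : 12506 ≤ c.x * k) :
    gR (2 * ml c.w) (ml c.x) (v c.ga) (ml c.x * k / 50) ≤ v (hN c k) := by
  have hE := hX.2.1 c.x (c.w * 2) k
  rw [ml_two] at hE
  have h1 : 12505 ≤ c.x * k := by omega
  have h2 : c.ga ≤ 1000000000000000000 := by omega
  have d1 : 0 < c.x * k - 12505 := by omega
  have d2 : 0 < 50 * (1000000000000000000 - c.ga) + c.ga * k := by omega
  have hv := le_v_div (eN c.x (c.w * 2) k * (c.x * k + 12505) * 50000000000000000000)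
    ((c.x * k - 12505) * (50 * (1000000000000000000 - c.ga) + c.ga * k)) (Nat.mul_pos d1 d2)
  refine le_trans ?_ hv
  have d1' : (0 : ℝ) < (c.x : ℝ) * k - 12505 := by
    have : (12506 : ℝ) ≤ c.x * k := by exact_mod_cast h
    linarith
  have d2' : (0 : ℝ) < 50 * (1000000000000000000 - (c.ga : ℝ)) + c.ga * k := by
    have : (c.ga : ℝ) + 1 ≤ 1000000000000000000 := by exact_mod_cast hg
    have : (0 : ℝ) ≤ (c.ga : ℝ) * k := mul_nonneg (Nat.cast_nonneg _) (Nat.cast_nonneg _)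
    linarith
  have hx' : (c.x : ℝ) ≠ 0 := Nat.cast_ne_zero.2 (by omega)
  have e1 : ml c.x * k / 50 + f0 = ((c.x : ℝ) * k + 12505) / 50000 := by unfold ml f0; ring
  have e2 : ml c.x * k / 50 - f0 = ((c.x : ℝ) * k - 12505) / 50000 := by unfold ml f0; ring
  have e3 : Psi (ml c.x) (v c.ga) (ml c.x * k / 50) =
      (50 * (1000000000000000000 - (c.ga : ℝ)) + c.ga * k) / 50000000000000000000 := by
    unfold Psi ml v
    field_simp
    ring
  have e4 : v (eN c.x (c.w * 2) k * (c.x * k + 12505) * 50000000000000000000) /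
      (((c.x * k - 12505) * (50 * (1000000000000000000 - c.ga) + c.ga * k) : ℕ) : ℝ) =
      v (eN c.x (c.w * 2) k) * ((((c.x : ℝ) * k + 12505) / 50000) /
        ((((c.x : ℝ) * k - 12505) / 50000) *
          ((50 * (1000000000000000000 - (c.ga : ℝ)) + c.ga * k) / 50000000000000000000))) := by
    generalize eN c.x (c.w * 2) k = e
    unfold v
    push_cast [Nat.cast_sub h1, Nat.cast_sub h2]
    field_simp
  rw [e4, gR, e1, e2, e3]
  have n1 : (0 : ℝ) ≤ (c.x : ℝ) * k + 12505 := by linarith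
  exact mul_le_mul_of_nonneg_right hE (div_nonneg (div_nonneg n1 (by norm_num))
    (mul_nonneg (div_nonneg d1'.le (by norm_num)) (div_nonneg d2'.le (by norm_num))))

theorem mid (x i : ℕ) (t : ℝ) :
    ml x * (i + t) / 50 = (1 - t) * (ml x * i / 50) + t * (ml x * ((i + 1 : ℕ) : ℝ) / 50) := by
  push_cast; ring

theorem cellI (hX : XpS) (hC : ChS) (x θ i : ℕ) (hx : 1 ≤ x) (hi : i < 50) :
    ∫ u in (ml x * i / 50)..(ml x * ((i + 1 : ℕ) : ℝ) / 50), par (ml x) u * Real.exp (ml θ * u) ≤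
      ml x * (cell i (eN x θ i) (eN x θ (i + 1)) / 10 ^ 36) := by
  rw [Nat.cast_succ]
  refine hC.2.1 x i _ _ (fun u => Real.exp (ml θ * u)) hx hi (by fun_prop) fun t h0 h1 => ?_
  have h1' : 0 ≤ 1 - t := by linarith
  have hc := convexOn_exp.2 (Set.mem_univ (ml θ * (ml x * i / 50)))
    (Set.mem_univ (ml θ * (ml x * ((i + 1 : ℕ) : ℝ) / 50))) h1' h0 (by ring)
  simp only [smul_eq_mul] at hc
  have a := mul_le_mul_of_nonneg_left (hX.2.1 x θ i) h1'
  have b := mul_le_mul_of_nonneg_left (hX.2.1 x θ (i + 1)) h0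
  have e : ml θ * (ml x * (i + t) / 50) = (1 - t) * (ml θ * (ml x * i / 50)) +
      t * (ml θ * (ml x * ((i + 1 : ℕ) : ℝ) / 50)) := by rw [mid]; ring
  change Real.exp _ ≤ _
  rw [e]
  linarith

theorem cellR (hX : XpS) (hC : ChS) (c : Con) (i : ℕ) (hx : 1 ≤ c.x)
    (hg : c.ga + 1 ≤ 1000000000000000000) (h : 12506 ≤ c.x * i) (hi : i < 50) :
    ∫ u in (ml c.x * i / 50)..(ml c.x * ((i + 1 : ℕ) : ℝ) / 50),
      par (ml c.x) u * gR (2 * ml c.w) (ml c.x) (v c.ga) u ≤ ml c.x * (cR c i / 10 ^ 36) := by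
  have h' : 12506 ≤ c.x * (i + 1) := h.trans (Nat.mul_le_mul_left _ (Nat.le_succ i))
  have g1 : v c.ga < 1 := by
    have : (c.ga : ℝ) + 1 ≤ 1000000000000000000 := by exact_mod_cast hg
    unfold v
    rw [div_lt_one (by positivity)]
    linarith
  rw [Nat.cast_succ]
  refine hC.2.1 c.x i _ _ _ hx hi (gR_cont (ml_pos hx) (v_nonneg _) g1 (node _ _ h))
    fun t h0 h1 => ?_
  have h1' : 0 ≤ 1 - t := by linarith
  have a := mul_le_mul_of_nonneg_left (gR_node hX c i hx hg h) h1'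
  have b := mul_le_mul_of_nonneg_left (gR_node hX c (i + 1) hx hg h') h0
  rw [mid]
  exact (gR_chord (ml_pos hx) (v_nonneg _) g1 (node _ _ h) (node _ _ h') h0 h1).trans
    (add_le_add a b)

theorem total (x i0 : ℕ) (hi : i0 ≤ 50) (F : ℕ → ℕ) (A B : ℕ → ℝ)
    (hA : ∀ i < i0, A i ≤ ml x * (F i / 10 ^ 72))
    (hB : ∀ j < 50 - i0, B j ≤ ml x * (F (i0 + j) / 10 ^ 72)) :
    ∑ i ∈ range i0, A i + ∑ j ∈ range (50 - i0), B j ≤
      v (((sumN 50 F).mul x).div
        1000000000000000000000000000000000000000000000000000000000).succ := by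
  have hv := le_v_div (sumN 50 F * x) 1000000000000000000000000000000000000000000000000000000000
    (by norm_num)
  refine le_trans ?_ hv
  have e : v (sumN 50 F * x) /
      ((1000000000000000000000000000000000000000000000000000000000 : ℕ) : ℝ) =
      ∑ i ∈ range (i0 + (50 - i0)), ml x * (F i / 10 ^ 72) := by
    rw [Nat.add_sub_cancel' hi, ← mul_sum, ← sum_div, ← Nat.cast_sum, ← sumN_eq]
    generalize sumN 50 F = s
    unfold v ml
    push_cast
    ring
  rw [e, sum_range_add]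
  exact add_le_add (sum_le_sum fun i h => hA i (mem_range.1 h))
    (sum_le_sum fun j h => hB j (mem_range.1 h))

theorem div_aux (a b S : ℕ) : (a.mul S).div (a.add b) ≤ S :=
  Nat.div_le_of_le_mul (Nat.mul_le_mul_right S (Nat.le_add_right a b))

theorem tau_le (c : Con) (i : ℕ) : tau c i ≤ 1000000000000000000 := div_aux _ _ _

theorem ble_t {a b : ℕ} (h : a ≤ b) : a.ble b = true := Nat.ble_eq_true_of_le h

theorem ble_f {a b : ℕ} (h : b < a) : a.ble b = false := by
  cases e : a.ble b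
  · rfl
  · exact absurd (Nat.le_of_ble_eq_true e) (by omega)

end IrL

open IrL

theorem irOf : IrOf := by
  intro hX hC c h
  simp only [okP, Bool.and_eq_true, Nat.ble_eq, Nat.mul_eq, Nat.succ_eq_add_one] at h
  obtain ⟨⟨⟨⟨⟨⟨⟨hx, hx5⟩, hw⟩, hu⟩, hu2⟩, hg⟩, h0⟩, hi⟩ := h
  have g1 : v c.ga < 1 := by
    have : (c.ga : ℝ) + 1 ≤ 1000000000000000000 := by exact_mod_cast hg
    unfold v
    rw [div_lt_one (by positivity)]
    linarith
  have xp := ml_pos hx
  refine ⟨⟨xp, (ml_mono hx5).trans (by norm_num [ml]), ml_nonneg _,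
    (ml_mono hw).trans (by norm_num [ml]), ml_nonneg _, (ml_mono hu).trans (by norm_num [ml]),
    v_nonneg _, g1, node c.x c.i0 h0, fun i _ => ?_, ?_,
    fun i _ => ⟨v_nonneg _, (v_mono (tau_le c _)).trans v_one.le⟩⟩, ?_, ?_⟩
  · change ml c.x * ((c.i0 + i : ℕ) : ℝ) / 50 ≤ ml c.x * ((c.i0 + (i + 1) : ℕ) : ℝ) / 50
    gcongr
    omega
  · change ml c.x * ((c.i0 + (50 - c.i0) : ℕ) : ℝ) / 50 = ml c.x
    rw [Nat.add_sub_cancel' hi]
    push_cast
    ring
  · have eθ : 2 * ml c.w - ml c.u = ml (c.w * 2 - c.u) := by rw [ml_sub hu2, ml_two]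
    have hs := intervalIntegral.sum_integral_adjacent_intervals (μ := MeasureTheory.volume)
      (f := fun u => par (ml c.x) u * Real.exp (ml (c.w * 2 - c.u) * u))
      (a := fun k : ℕ => ml c.x * k / 50) (n := c.i0)
      fun k _ => Continuous.intervalIntegrable (by unfold par; fun_prop) _ _
    simp only [Nat.cast_zero, mul_zero, zero_div] at hs
    change (∫ u in (0 : ℝ)..ml c.x * (c.i0 : ℝ) / 50,
        par (ml c.x) u * Real.exp ((2 * ml c.w - ml c.u) * u)) +
      ∑ j ∈ range (50 - c.i0), v (tau c (c.i0 + j)) ^ 2 *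
        ∫ u in (ml c.x * ((c.i0 + j : ℕ) : ℝ) / 50)..(ml c.x * ((c.i0 + j + 1 : ℕ) : ℝ) / 50),
          par (ml c.x) u * Real.exp ((2 * ml c.w - ml c.u) * u) ≤ _
    rw [eθ, ← hs]
    refine total c.x c.i0 hi _ _ _ (fun i hi' => ?_) fun j hj => ?_
    · refine (cellI hX hC c.x _ i hx (by omega)).trans (le_of_eq ?_)
      rw [ble_f hi', cond_false]
      change ml c.x * ((cI c i : ℝ) / _) = _
      rw [Nat.mul_eq]
      push_cast
      ring
    · refine (mul_le_mul_of_nonneg_left (cellI hX hC c.x _ (c.i0 + j) hx (by omega))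
        (sq_nonneg _)).trans (le_of_eq ?_)
      rw [ble_t (Nat.le_add_right _ _), cond_true]
      change _ * (ml c.x * ((cI c (c.i0 + j) : ℝ) / _)) = _
      rw [Nat.mul_eq, Nat.mul_eq, v]
      push_cast
      ring
  · change ∑ j ∈ range (50 - c.i0), (1 - v (tau c (c.i0 + j))) ^ 2 *
        ∫ u in (ml c.x * ((c.i0 + j : ℕ) : ℝ) / 50)..(ml c.x * ((c.i0 + j + 1 : ℕ) : ℝ) / 50),
          par (ml c.x) u * gR (2 * ml c.w) (ml c.x) (v c.ga) u ≤ _
    refine (le_add_of_nonneg_left (sum_const_zero (s := range c.i0)).ge).trans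
      (total c.x c.i0 hi _ (fun _ => 0) _ (fun i _ => ?_) fun j hj => ?_)
    · exact mul_nonneg xp.le (div_nonneg (Nat.cast_nonneg _) (by norm_num))
    · refine (mul_le_mul_of_nonneg_left (cellR hX hC c (c.i0 + j) hx hg
        (h0.trans (Nat.mul_le_mul_left _ (Nat.le_add_right _ _))) (by omega))
        (sq_nonneg _)).trans (le_of_eq ?_)
      rw [ble_t (Nat.le_add_right _ _), cond_true, Nat.mul_eq, Nat.mul_eq, Nat.sub_eq, v]
      push_cast [Nat.cast_sub (tau_le c (c.i0 + j))]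
      ring

end Pool.Agent.MP_c5bf7b_nt.H25L.Nm
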