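import Pool.Agent.MP_c5bf7b_nt.H25L.SpecN

/-! Soundness of the check of one density inequality. -/

set_option autoImplicit false

namespace Pool.Agent.MP_c5bf7b_nt.H25L.Nm

open Finset Pool.Agent.MP_c5bf7b_nt.H38

namespace OkL

theorem v_mul' (a b : ℕ) : v (a * b) = v a * b := by rw [mul_comm, v_mul, mul_comm]

theorem v_eighth : v 125000000000000000 = 1 / 8 := by norm_num [v]

/-- the integrand of the pair condition -/
noncomputable def gp (c : Con) (u : ℝ) : ℝ :=
  max 0 (Psi (ml c.x) (v c.ga) u + v c.si / v c.Sm * (v c.be + v c.al * u) -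
    2 * Real.exp (-ml c.ds * u) / v c.cap)

theorem gp_cont (c : Con) : Continuous (gp c) := by
  unfold gp Psi
  fun_prop

theorem gp_mono (c : Con) {a b : ℝ} (h : a ≤ b) : gp c a ≤ gp c b := by
  have h1 := ml_nonneg c.x
  have h2 := v_nonneg c.ga
  have h3 := v_nonneg c.si
  have h4 := v_nonneg c.Sm
  have h5 := v_nonneg c.al
  have h6 := v_nonneg c.cap
  have h7 : -ml c.ds * b ≤ -ml c.ds * a := by nlinarith [ml_nonneg c.ds]
  unfold gp Psi
  gcongr

theorem gp_le (xp : XpS) (c : Con) (hx : 1 ≤ c.x) (hg : c.ga ≤ 1000000000000000000)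
    (hS : 1 ≤ c.Sm) (k : ℕ) : gp c (ml c.x * k / 50) ≤ v (pN c k) := by
  have hx0 := ml_pos hx
  have a1 : Psi (ml c.x) (v c.ga) (ml c.x * k / 50) ≤
      v (1000000000000000000 - c.ga + (c.ga * k / 50 + 1)) := by
    have := le_v_div (c.ga * k) 50 (by norm_num)
    rw [v_mul'] at this
    rw [v_add, v_sub hg, v_one, Psi]
    have e : ml c.x * k / 50 / ml c.x = k / 50 := by field_simp
    rw [e]
    push_cast at this ⊢
    linarith
  have a2 : v c.si / v c.Sm * (v c.be + v c.al * (ml c.x * k / 50)) ≤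
      v (mU (dU c.si c.Sm) (c.be + (c.al * c.x * k / 50000 + 1))) := by
    refine le_trans ?_ (le_mU _ _)
    have := le_v_div (c.al * c.x * k) 50000 (by norm_num)
    rw [v_mul', v_mul'] at this
    refine mul_le_mul (le_dU _ _ hS) ?_ ?_ (v_nonneg _)
    · rw [v_add]
      refine add_le_add le_rfl (le_trans (le_of_eq ?_) this)
      unfold ml
      push_cast
      ring
    · have := v_nonneg c.be
      have := v_nonneg c.al
      positivity
  have a3 : v (dD (pwD 1000000000000000000 (yL (c.ds * c.x * 20)) k * 2) c.cap) ≤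
      2 * Real.exp (-ml c.ds * (ml c.x * k / 50)) / v c.cap := by
    refine (dD_le _ _).trans (div_le_div_of_nonneg_right ?_ (v_nonneg _))
    have h1 := v_pwD 1000000000000000000 (yL (c.ds * c.x * 20)) k
    have h2 := pow_le_pow_left₀ (vP_nonneg _) (xp.1 (c.ds * c.x * 20)).2.2.1 k
    rw [v_one, one_mul] at h1
    rw [← Real.exp_nat_mul] at h2
    have e : (k : ℝ) * -(((c.ds * c.x * 20 : ℕ) : ℝ) / 10 ^ 9) = -ml c.ds * (ml c.x * k / 50) := by
      unfold ml
      push_cast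
      ring
    rw [e] at h2
    rw [v_mul']
    push_cast
    linarith
  have e : pN c k = 1000000000000000000 - c.ga + (c.ga * k / 50 + 1) +
      mU (dU c.si c.Sm) (c.be + (c.al * c.x * k / 50000 + 1)) -
      dD (pwD 1000000000000000000 (yL (c.ds * c.x * 20)) k * 2) c.cap := rfl
  rw [e, v_sub_max, v_add, gp]
  exact max_le_max le_rfl (by linarith)

theorem pu (xp : XpS) (ch : ChS) (c : Con) (hx : 1 ≤ c.x) (hg : c.ga ≤ 1000000000000000000)
    (hS : 1 ≤ c.Sm) : ∫ u in (0 : ℝ)..ml c.x, par (ml c.x) u * gp c u ≤ v (PU c) := by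
  refine ch.2.2 c.x (fun i => pN c i.succ) (fun i => pN c i.succ) (gp c) hx (gp_cont c)
    fun i _ t _ ht => ?_
  have h1 := gp_le xp c hx hg hS i.succ
  have h2 : gp c (ml c.x * (i + t) / 50) ≤ gp c (ml c.x * (i.succ : ℕ) / 50) := by
    refine gp_mono c ?_
    have := ml_nonneg c.x
    push_cast
    gcongr
  linarith

end OkL

open OkL in
theorem okOf : OkOf := by
  intro xp ff ch rm ir nE c h
  simp only [okC, Bool.and_eq_true, Nat.ble_eq, Nat.add_eq, Nat.mul_eq, Nat.sub_eq,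
    Nat.succ_eq_add_one, div_eq] at h
  obtain ⟨⟨⟨⟨⟨⟨⟨⟨⟨⟨⟨hP, h1⟩, h2⟩, h3⟩, h4⟩, h5⟩, h6⟩, h7⟩, h8⟩, h9⟩, h10⟩, h11⟩ := h
  obtain ⟨p1, p2, p3⟩ := ir c hP
  simp only [okP, Bool.and_eq_true, Nat.ble_eq, Nat.succ_eq_add_one] at hP
  have hx : 1 ≤ c.x := hP.1.1.1.1.1.1.1
  have hg : c.ga ≤ 1000000000000000000 := by have := hP.1.1.2; omega
  have s0 := v_pos h1
  have c0 := v_pos h2
  have m0 := v_pos h3
  refine ⟨p1, s0, c0, ml_nonneg _, ?_, v_nonneg _, m0, ?_, v_pos h4, ?_, v_nonneg _, v_nonneg _, h5,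
    ?_, ?_, v_nonneg _, v_nonneg _, ?_⟩
  · change v c.cap * Real.exp (ml c.ds * ml c.x) ≤ 2
    have a1 := ((xp.1 (c.ds * c.x * 1000)).2.1).trans (le_sU _)
    have e : (((c.ds * c.x * 1000 : ℕ) : ℝ) / 10 ^ 9) = ml c.ds * ml c.x := by
      unfold ml
      push_cast
      ring
    rw [e] at a1
    refine (mul_le_mul_of_nonneg_left a1 c0.le).trans ((le_mU _ _).trans ((v_mono h6).trans ?_))
    norm_num [v]
  · change (v c.si / 8 + (toP c).I / v c.si) / 2 ≤ v c.s
    have a1 := v_mono h7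
    have a2 := le_v_div c.si 8 (by norm_num)
    have a3 := (div_le_div_of_nonneg_right p2 s0.le).trans (le_dU _ _ h1)
    rw [v_add, v_mul'] at a1
    push_cast at a1 a2
    linarith
  · change ∫ u in (0 : ℝ)..ml c.x, par (ml c.x) u * Psi (ml c.x) (v c.ga) u ≤ v c.M
    have x0 := ml_pos hx
    have e : ∀ u, Psi (ml c.x) (v c.ga) u = (1 - v c.ga) + v c.ga / ml c.x * u := fun u => by
      unfold Psi
      ring
    simp only [e]
    rw [ch.1 _ _ _ x0]
    have a1 := v_mono h8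
    rw [v_mul, v_add, v_mul', v_mul', v_mul', v_sub hg, v_one] at a1
    have e2 : 3 / 28 * (v c.ga / ml c.x) * ml c.x = 3 / 28 * v c.ga := by field_simp
    rw [e2, ml]
    push_cast at a1
    linarith
  · change (toP c).R + v c.si * v c.cap *
      max 0 (Lr (par (ml c.x)) (ml c.x) (-ml c.u) - 1 / 8 + nE * v c.cF) ≤ v c.Rt
    have a1 := v_mono h9
    have a2 := (ff.2 c.x 0 c.u hx).2
    have e : ml 0 - ml c.u = -ml c.u := by simp [ml]
    rw [e, FF] at a2
    have a3 : max 0 (Lr (par (ml c.x)) (ml c.x) (-ml c.u) - 1 / 8 + nE * v c.cF) ≤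
        v (FU c.x 0 c.u + nE * c.cF - 125000000000000000) := by
      rw [v_sub_max, v_add, v_mul, v_eighth]
      exact max_le_max le_rfl (by linarith)
    have a4 := (mul_le_mul (le_mU c.si c.cap) a3 (le_max_left _ _) (v_nonneg _)).trans (le_mU _ _)
    rw [v_add] at a1
    linarith
  · change (∫ u in (0 : ℝ)..ml c.x, par (ml c.x) u * gp c u) + v c.si / v c.Sm *
      (∫ u in (0 : ℝ)..ml c.x, par (ml c.x) u * |Real.exp (ml c.u * u) - (v c.be + v c.al * u)|) ≤
      v c.si / v c.Sm * (1 / 8 - nE * v c.cF)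
    have a1 := pu xp ch c hx hg h3
    have a2 := mul_le_mul_of_nonneg_left (rm.1 c.x c.u c.be c.al hx) (div_nonneg s0.le m0.le)
    have a3 : v (PU c) * v c.Sm + v c.si * (v (rem c.x c.u c.be c.al) + nE * v c.cF) ≤
        v c.si * (1 / 8) := by
      have : ((PU c * c.Sm + c.si * (rem c.x c.u c.be c.al + nE * c.cF) : ℕ) : ℝ) ≤
          ((c.si * 125000000000000000 : ℕ) : ℝ) := Nat.cast_le.2 h10
      push_cast at this
      unfold v
      linarith
    have a4 : v (PU c) + v c.si / v c.Sm * v (rem c.x c.u c.be c.al) ≤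
        v c.si / v c.Sm * (1 / 8 - nE * v c.cF) := by
      rw [div_mul_eq_mul_div, div_mul_eq_mul_div, le_div_iff₀ m0, add_mul, div_mul_cancel₀ _ m0.ne']
      linarith
    linarith
  · change v c.ro * v c.Sm + nE * v c.ex ≤ v c.Rt
    have a1 := v_mono h11
    rw [v_add, v_mul] at a1
    linarith [le_mU c.ro c.Sm]

end Pool.Agent.MP_c5bf7b_nt.H25L.Nm
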