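import Pool.Agent.MP_c5bf7b_nt.H25L.SpecN

/-! Soundness of the test for the powers of one character. -/

set_option autoImplicit false

namespace Pool.Agent.MP_c5bf7b_nt.H25L.Nm

open Finset Pool.Agent.MP_c5bf7b_nt.H38

namespace Rc1L

theorem ac_eq (R : Rc) (j : ℕ) : ac (fun k => (R.p.getD k 0 : ℕ)) j = R.a j := by
  simp only [ac, Rc.a, acN, sumN_eq, Int.natAbs_natCast, Nat.cast_sum, Bool.cond_eq_ite,
    Nat.add_eq, Nat.mul_eq, Nat.ble_eq, Nat.lt_succ_iff, Nat.cast_ite, Nat.cast_mul, Nat.cast_zero]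

theorem ml_x (R : Rc) : ml R.x = R.i / 10 := by
  rw [Rc.x, Nat.mul_eq, ml]; push_cast; ring

end Rc1L

open Rc1L in
theorem rc1Of : Rc1Of := by
  intro lp adm ff dev o a1 b1 R l₁ lo _ h ha hb hw H
  simp only [ck1, Rc.ok, Nat.add_eq, Nat.mul_eq, Nat.succ_eq_add_one, mod_eq, Nat.ble_eq,
    Nat.beq_eq, Bool.and_eq_true, sumN_eq, allN_iff, Bool.cond_eq_ite, ← Nat.dvd_iff_mod_eq_zero,
    Nat.add_one_le_iff] at h
  obtain ⟨⟨⟨⟨i8, i35⟩, w1⟩, h1⟩, h2⟩ := h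
  have x1 : 1 ≤ R.x := by rw [Rc.x, Nat.mul_eq]; omega
  have i1 : (8 : ℝ) ≤ R.i := by exact_mod_cast i8
  have i2 : (R.i : ℝ) ≤ 35 := by exact_mod_cast i35
  have := H R.i (mem_Icc.2 ⟨i8, i35⟩) (fun k => (R.p.getD k 0 : ℕ)) (ml R.w)
    (fun j => v (R.D j.toNat).d) (fun _ => Nat.cast_nonneg _) (ml_nonneg _) hw
    ((ml_mono w1).trans (by norm_num [ml])) fun j hj hd => by
      obtain ⟨t, rfl⟩ : ∃ t : ℕ, j = (t + 1 : ℕ) := ⟨(j - 1).toNat, by have := mem_Icc.1 hj; omega⟩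
      have h3 := h1 t (by have := mem_Icc.1 hj; omega)
      rw [if_pos (Int.natCast_dvd_natCast.1 hd)] at h3
      rw [show ((t + 1 : ℕ) : ℤ) + 1 = (t + 1 + 1 : ℕ) by omega,
        show ((t + 1 : ℕ) : ℤ) - 1 = t by omega, ac_eq, ac_eq, ac_eq, ← Nat.cast_add]
      simpa using dev _ _ _ 0 _ _ _ _ _ l₁ 0 i8 i35 h3 ha hb (Or.inl rfl)
  rw [show Icc (1 : ℤ) 6 = (range 6).image fun t : ℕ => ((t + 1 : ℕ) : ℤ) by decide,
    sum_image fun _ _ _ _ e => by omega, show ac _ 0 = _ from ac_eq R 0,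
    show ac _ 1 = _ from ac_eq R 1] at this
  have h3 : v _ < v _ := div_lt_div_of_pos_right (Nat.cast_lt.2 h2) (by positivity)
  have e : ∀ t ∈ range 6, v (if o ∣ t + 1 then (R.D (t + 1)).d else R.a (t + 1) * 125000000000000000)
      = if (o : ℤ) ∣ (t + 1 : ℕ) then v (R.D ((t + 1 : ℕ) : ℤ).toNat).d
        else ac (fun k => (R.p.getD k 0 : ℕ)) (t + 1 : ℕ) / 8 := fun t _ => by
    simp only [Int.natCast_dvd_natCast, Int.toNat_natCast, ac_eq]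
    split_ifs
    · rfl
    · rw [v_mul, v]; ring
  rw [v_add, v_add, v_mul, mul_comm _ 2, v_mul, v_mul, v_mul, v_sum, sum_congr rfl e] at h3
  have f1 := (ff.2 R.x 0 R.w x1).2
  have f2 := (ff.2 R.x b1 R.w x1).1.trans ((lp _ _ (adm.1 _ (ml_pos x1) (by
    rw [ml_x]; linarith))).2.2.1 (sub_le_sub_right hb _))
  rw [FF, show ml 0 - ml R.w = -ml R.w by simp [ml]] at f1
  rw [ml_x] at f1 f2
  have g1 := mul_le_mul_of_nonneg_left f1 (Nat.cast_nonneg (α := ℝ) (R.a 0))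
  have g2 := mul_le_mul_of_nonneg_left f2 (Nat.cast_nonneg (α := ℝ) (R.a 1))
  rw [show v 110000000000000 = 11 * e0 by norm_num [v, e0]] at h3
  push_cast at h3 this
  unfold Fp at this
  linarith

end Pool.Agent.MP_c5bf7b_nt.H25L.Nm
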