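import Pool.Agent.MP_c5bf7b_nt.H25L.SpecN

/-! Soundness of the test that uses two characters. -/

set_option autoImplicit false

namespace Pool.Agent.MP_c5bf7b_nt.H25L.Nm

open Finset Pool.Agent.MP_c5bf7b_nt.H38

namespace Rc2L

theorem ac_eq (R : Rc) (j : ℤ) : ac (fun k => (R.p.getD k 0 : ℕ)) j = R.a j.natAbs := by
  unfold ac Rc.a acN
  rw [sumN_eq, Nat.cast_sum]
  refine sum_congr rfl fun i _ => ?_
  rw [Bool.cond_eq_ite]
  simp only [Nat.add_eq, Nat.mul_eq, Nat.ble_eq, Nat.lt_succ_iff]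
  split_ifs <;> simp

theorem nb_eq (R : Rc) (j : ℤ) :
    (R.a (j + 1).natAbs : ℝ) + R.a (j - 1).natAbs = nb R j.natAbs := by
  unfold nb
  simp only [Nat.add_eq, Nat.sub_eq, Nat.succ_eq_add_one, Nat.cast_add]
  rcases le_total 0 j with h | h
  · rw [show (j + 1).natAbs = j.natAbs + 1 by omega,
      show (j - 1).natAbs = j.natAbs - 1 + (1 - j.natAbs) by omega]
  · rw [show (j - 1).natAbs = j.natAbs + 1 by omega,
      show (j + 1).natAbs = j.natAbs - 1 + (1 - j.natAbs) by omega, add_comm]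

theorem sum3 (f : ℤ → ℝ) : ∑ j ∈ Icc (1 : ℤ) 3, f j = ∑ t ∈ range 3, f (t + 1 : ℕ) := by
  rw [show Icc (1 : ℤ) 3 = {1, 2, 3} by decide]
  simp [sum_range_succ, add_assoc]

theorem sum7 (f : ℤ → ℝ) : ∑ j ∈ Icc (-3 : ℤ) 3, f j = ∑ t ∈ range 7, f ((t : ℕ) - 3) := by
  rw [show Icc (-3 : ℤ) 3 = {-3, -2, -1, 0, 1, 2, 3} by decide]
  simp [sum_range_succ, add_assoc]

theorem in1 (o j₀ t : ℕ) : In1 o j₀ ((t : ℤ) - 3) ↔ 1 ≤ j₀ ∧ t % o = (j₀ + 3) % o := by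
  refine and_congr Nat.one_le_iff_ne_zero.symm ?_
  rw [show (t : ℤ) - 3 - j₀ = t - (j₀ + 3 : ℕ) by push_cast; ring, ← Nat.modEq_iff_dvd]
  exact eq_comm

theorem v8 (a : ℕ) : v (a * 125000000000000000) = a / 8 := by
  unfold v
  push_cast
  ring

theorem v2 (a : ℕ) : v (a * 2) = 2 * v a := by
  unfold v
  push_cast
  ring

end Rc2L

open Rc2L in
theorem rc2Of : Rc2Of := by
  intro hL hA hF hD o j₀ a1 b1 b2 R l₁ lo l₂ _ h1 h2 c1 c2 c3 c4 c5 hT
  simp only [ok2, Rc.ok, Bool.and_eq_true, Nat.ble_eq, allN_iff, Nat.add_eq, Nat.mul_eq] at h1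
  obtain ⟨⟨⟨⟨i1, i2⟩, i3⟩, i4⟩, i5⟩ := h1
  have dev := fun c b b' D h => hD R.i c b b' R.w a1 b1 b2 D l₁ l₂ i1 i2 h c1 c2
    (Or.inr ⟨c3.trans c4, c5⟩)
  have key := hT R.i (mem_Icc.2 ⟨i1, i2⟩) (fun k => (R.p.getD k 0 : ℕ)) (ml R.w)
    (fun j => v (R.D j.natAbs).d)
    (fun j => v (R.D (if o ∣ 2 * j₀ then j.natAbs else j.natAbs + 4)).d / 2)
    (fun _ => Nat.cast_nonneg _)
    (fun k hk => by rw [List.getD_eq_default _ _ (i4.trans hk), Nat.cast_zero]) (ml_nonneg _) c3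
    ((ml_mono i3).trans (by norm_num [ml]))
    (fun j hj _ => by
      rw [ac_eq, ac_eq, ac_eq, nb_eq]
      exact dev _ _ _ _ (i5 j.natAbs (by have := mem_Icc.1 hj; omega)).1)
    (fun j hj _ ν => by
      have k := i5 j.natAbs (by have := mem_Icc.1 hj; omega)
      have k1 := dev _ _ _ _ k.1 ν
      have k2 := dev _ _ _ _ k.2 ν
      rw [Nat.cast_mul, Nat.cast_ofNat] at k2
      rw [ac_eq, ac_eq, ac_eq, nb_eq]
      split_ifs <;> linarith)
  have x1 : 1 ≤ R.x := by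
    rw [Rc.x, Nat.mul_eq]
    omega
  have eF : Fp R.i = FF R.x := by
    have : ml R.x = R.i / 10 := by
      rw [Rc.x, Nat.mul_eq, ml]
      push_cast
      ring
    funext z
    rw [Fp, FF, this]
  have anti : Antitone (Fp R.i) := by
    have a1 : (8 : ℝ) ≤ R.i := by exact_mod_cast i1
    have a2 : (R.i : ℝ) ≤ 35 := by exact_mod_cast i2
    exact (hL _ _ (hA.1 _ (by linarith) (by linarith))).2.2.1
  have f0 := (hF.2 R.x 0 R.w x1).2
  rw [show ml 0 - ml R.w = -ml R.w by simp [ml], ← eF] at f0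
  have f1 := (hF.2 R.x b1 R.w x1).1.trans (eF ▸ anti (sub_le_sub_right c2 _))
  have f2 := (hF.2 R.x b2 R.w x1).1.trans (eF ▸ anti (sub_le_sub_right c5 _))
  rw [← eF] at f1 f2
  rw [pat, Nat.ble_eq, sumN_eq, sumN_eq] at h2
  have h3 := v_mono h2
  simp only [Nat.add_eq, Nat.mul_eq, Nat.succ_eq_add_one, v_add] at h3
  rw [v2, v_sum, v_sum, v_mul, v_mul, v_mul, v_mul] at h3
  have s1 : ∑ j ∈ Icc (1 : ℤ) 3, (if (o : ℤ) ∣ j then v (R.D j.natAbs).d else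
      ac (fun k => (R.p.getD k 0 : ℕ)) j / 8) = ∑ t ∈ range 3, v (bif ((t + 1).mod o).beq 0 then
        (R.D (t + 1)).d else R.a (t + 1) * 125000000000000000) := by
    rw [sum3]
    refine sum_congr rfl fun t _ => ?_
    rw [Bool.cond_eq_ite, ac_eq, Int.natAbs_natCast, apply_ite v, v8]
    exact if_congr (by rw [Int.natCast_dvd_natCast, Nat.beq_eq, mod_eq,
      Nat.dvd_iff_mod_eq_zero]) rfl rfl
  have s2 := fun (inst : DecidablePred (In1 o j₀)) => show 2 * ∑ j ∈ Icc (-3 : ℤ) 3,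
      (if In1 o j₀ j then v (R.D (if o ∣ 2 * j₀ then j.natAbs else j.natAbs + 4)).d / 2 else
      ac (fun k => (R.p.getD k 0 : ℕ)) j / 16) = ∑ t ∈ range 7,
        v (bif Nat.ble 1 j₀ && (t.mod o).beq ((j₀ + 3).mod o) then
          (R.D (bif ((j₀ * 2).mod o).beq 0 then ab3 t else ab3 t + 4)).d
          else R.a (ab3 t) * 125000000000000000) by
    rw [sum7, mul_sum]
    refine sum_congr rfl fun t _ => ?_
    have e : ((t : ℤ) - 3).natAbs = ab3 t := by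
      simp only [ab3, Nat.add_eq, Nat.sub_eq]
      omega
    rw [Bool.cond_eq_ite, Bool.cond_eq_ite, ac_eq, e, apply_ite v, v8, mul_ite]
    refine if_congr (by rw [in1, Bool.and_eq_true, Nat.ble_eq, Nat.beq_eq, mod_eq, mod_eq]) ?_
      (by ring)
    rw [mul_div_cancel₀ _ two_ne_zero]
    exact congrArg (fun n => v (R.D n).d) (if_congr (by
      rw [Nat.beq_eq, mod_eq, mul_comm, Nat.dvd_iff_mod_eq_zero]) rfl rfl)
  rw [s1, s2, ac_eq, ac_eq] at key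
  have e1 : v 100000000000000 = 10 * e0 := by norm_num [v, e0]
  have p1 := v_pos le_rfl
  have a0 : (0 : ℝ) ≤ R.a 0 := Nat.cast_nonneg _
  have a1 : (0 : ℝ) ≤ R.a 1 := Nat.cast_nonneg _
  have m0 := mul_le_mul_of_nonneg_left f0 a0
  have m1 := mul_le_mul_of_nonneg_left f1 a1
  have m2 := mul_le_mul_of_nonneg_left f2 a0
  rw [e1] at h3
  simp only [Int.natAbs_zero, Int.natAbs_one] at key
  push_cast at h3
  linarith

end Pool.Agent.MP_c5bf7b_nt.H25L.Nm
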