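import Pool.Agent.MP_c5bf7b_nt.H25L.SpecN

/-! The remainder integral and the costs. -/

set_option autoImplicit false

namespace Pool.Agent.MP_c5bf7b_nt.H25L.Nm

open Finset Pool.Agent.MP_c5bf7b_nt.H38 Real

namespace RemL

theorem par_cont (x : ℝ) : Continuous (par x) := by
  unfold par
  fun_prop

theorem par_mem {x u : ℝ} (hx : 0 < x) (h : u ∈ Set.Icc 0 x) : 0 ≤ par x u ∧ par x u ≤ 1 := by
  have h0 : 0 ≤ u / x := div_nonneg h.1 hx.le
  have h1 : 0 ≤ 1 - u / x := sub_nonneg.2 ((div_le_one hx).2 h.2)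
  unfold par
  generalize u / x = s at h0 h1
  refine ⟨by positivity, ?_⟩
  have : 0 ≤ 5 * s ^ 2 * (1 - s) + s ^ 5 := by positivity
  nlinarith

theorem node (hX : XpS) (x θ be al k : ℕ) :
    exp (ml θ * (ml x * k / 50)) - (v be + v al * (ml x * k / 50)) ≤ v (rp x θ be al k) := by
  have h1 := hX.2.1 x θ k
  have h2 := v_div_le (al * x * k) 50000
  have h3 : v (al * x * k) / (50000 : ℕ) = v al * (ml x * k / 50) := by
    unfold v ml; push_cast; ring
  have h4 := le_v_sub (eN x θ k) (be + al * x * k / 50000)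
  rw [v_add] at h4
  change _ ≤ v (eN x θ k - (be + al * x * k / 50000))
  linarith

theorem chord (hX : XpS) (x θ be al i : ℕ) :
    Chd x (fun u => max 0 (exp (ml θ * u) - (v be + v al * u))) i (rp x θ be al i)
      (rp x θ be al i.succ) := by
  intro t h0 h1
  have h2 : 0 ≤ 1 - t := sub_nonneg.2 h1
  refine max_le (add_nonneg (mul_nonneg h2 (v_nonneg _)) (mul_nonneg h0 (v_nonneg _))) ?_
  have a := mul_le_mul_of_nonneg_left (node hX x θ be al i) h2
  have b := mul_le_mul_of_nonneg_left (node hX x θ be al i.succ) h0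
  have c := convexOn_exp.2 (Set.mem_univ (ml θ * (ml x * i / 50)))
    (Set.mem_univ (ml θ * (ml x * (i.succ : ℕ) / 50))) h2 h0 (by ring)
  simp only [smul_eq_mul] at c
  have e : (1 - t) * (ml θ * (ml x * i / 50)) + t * (ml θ * (ml x * (i.succ : ℕ) / 50)) =
      ml θ * (ml x * (i + t) / 50) := by push_cast; ring
  rw [e] at c
  have e' : ml x * (i + t) / 50 = (1 - t) * (ml x * i / 50) + t * (ml x * (i.succ : ℕ) / 50) := by
    push_cast; ring
  rw [e'] at c ⊢
  nlinarith

theorem one (hX : XpS) (hF : FfS) (hC : ChS) (x θ be al : ℕ) (hx : 1 ≤ x) :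
    ∫ u in (0 : ℝ)..ml x, par (ml x) u * |exp (ml θ * u) - (v be + v al * u)| ≤
      v (rem x θ be al) := by
  have pc := par_cont (ml x)
  have h1 := hC.2.2 x (fun i => rp x θ be al i) (fun i => rp x θ be al i.succ)
    (fun u => max 0 (exp (ml θ * u) - (v be + v al * u))) hx (by fun_prop)
    fun i _ => chord hX x θ be al i
  have h2 := hC.1 (ml x) (v be) (v al) (ml_pos hx)
  have h3 := (hF.2 x 0 θ hx).1
  have h4 : FF x (ml 0 - ml θ) = ∫ u in (0 : ℝ)..ml x, par (ml x) u * exp (ml θ * u) := by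
    simp [FF, Lr, ml]
  have h5 : ∫ u in (0 : ℝ)..ml x, par (ml x) u * |exp (ml θ * u) - (v be + v al * u)| =
      2 * (∫ u in (0 : ℝ)..ml x, par (ml x) u * max 0 (exp (ml θ * u) - (v be + v al * u))) +
        (∫ u in (0 : ℝ)..ml x, par (ml x) u * (v be + v al * u)) -
        ∫ u in (0 : ℝ)..ml x, par (ml x) u * exp (ml θ * u) := by
    rw [← intervalIntegral.integral_const_mul, ← intervalIntegral.integral_add,
      ← intervalIntegral.integral_sub]
    · refine intervalIntegral.integral_congr fun u _ => ?_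
      rcases le_total 0 (exp (ml θ * u) - (v be + v al * u)) with h | h
      · simp only [abs_of_nonneg h, max_eq_right h]; ring
      · simp only [abs_of_nonpos h, max_eq_left h]; ring
    all_goals exact Continuous.intervalIntegrable (by fun_prop) _ _
  have h6 := le_v_div (x * (be * 35000 + al * 9 * x)) 84000000 (by norm_num)
  have h7 : v (x * (be * 35000 + al * 9 * x)) / (84000000 : ℕ) =
      ml x * (5 / 12 * v be + 3 / 28 * v al * ml x) := by
    unfold v ml; push_cast; ring
  have h8 := le_v_sub ((intU x fun i => cell i (rp x θ be al i) (rp x θ be al i.succ)) * 2 +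
    (x * (be * 35000 + al * 9 * x) / 84000000 + 1)) (FD x 0 θ)
  rw [v_add, mul_comm _ 2, v_mul] at h8
  change _ ≤ v ((intU x fun i => cell i (rp x θ be al i) (rp x θ be al i.succ)) * 2 +
    (x * (be * 35000 + al * 9 * x) / 84000000 + 1) - FD x 0 θ)
  rw [mul_comm _ 2]
  push_cast at h8
  linarith

theorem mono {δ d s t : ℝ} (h0 : 0 ≤ δ) (h : δ ≤ d) (hs : 0 ≤ s) (hst : s ≤ t) :
    0 ≤ exp (δ * t) - exp (δ * s) ∧ exp (δ * t) - exp (δ * s) ≤ exp (d * t) - exp (d * s) := by
  have e : ∀ r, exp (d * r) = exp (δ * r) * exp ((d - δ) * r) := fun r => by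
    rw [← exp_add]; congr 1; ring
  have a : exp (δ * s) ≤ exp (δ * t) := exp_le_exp.2 (mul_le_mul_of_nonneg_left hst h0)
  have b : exp ((d - δ) * s) ≤ exp ((d - δ) * t) :=
    exp_le_exp.2 (mul_le_mul_of_nonneg_left hst (sub_nonneg.2 h))
  have c : 1 ≤ exp ((d - δ) * s) := one_le_exp (mul_nonneg (sub_nonneg.2 h) hs)
  have p := exp_pos (δ * s)
  refine ⟨sub_nonneg.2 a, ?_⟩
  rw [e t, e s]
  have := mul_le_mul a (sub_le_sub_right b 1) (sub_nonneg.2 c) (exp_pos _).le
  nlinarith

theorem abs_mono {δ d s t : ℝ} (h0 : 0 ≤ δ) (h : δ ≤ d) (hs : 0 ≤ s) (ht : 0 ≤ t) :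
    |exp (δ * t) - exp (δ * s)| ≤ |exp (d * t) - exp (d * s)| := by
  rcases le_total s t with hst | hst
  · obtain ⟨a, b⟩ := mono h0 h hs hst
    rw [abs_of_nonneg a]
    exact b.trans (le_abs_self _)
  · obtain ⟨a, b⟩ := mono h0 h ht hst
    rw [abs_sub_comm, abs_of_nonneg a, abs_sub_comm]
    exact b.trans (le_abs_self _)

end RemL

open RemL in
theorem remOf : RemOf := by
  intro hX hF hC
  refine ⟨one hX hF hC, fun x w a m c l hx h hl => ⟨v_nonneg _, ?_⟩,
    fun x δ c hx h5 h10 hc => ⟨le_trans (by positivity) hc, ?_⟩⟩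
  · rcases le_or_gt (ml w - l) 0 with h0 | h0
    · exact .inl h0
    have haw : a < w := by
      by_contra h1
      linarith [ml_mono (not_lt.1 h1)]
    have e : w.ble a = false := by
      rw [← Bool.not_eq_true, Nat.ble_eq]
      omega
    rw [costOk, e, cond_false, Bool.and_eq_true, Nat.ble_eq, Nat.ble_eq] at h
    have m1 : 1 ≤ v m := v_one ▸ v_mono h.1
    have d0 : 0 < ml (w - a) := ml_pos (by omega)
    have d1 : ml w - l ≤ ml (w - a) := by rw [ml_sub haw.le]; linarith
    have u0 : 0 ≤ log (v m) / ml (w - a) := div_nonneg (log_nonneg m1) d0.le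
    have e1 : exp (ml (w - a) * (log (v m) / ml (w - a))) = v m := by
      rw [mul_div_cancel₀ _ d0.ne', exp_log (by linarith)]
    refine .inr ⟨exp ((ml w - l) * (log (v m) / ml (w - a))), one_le_exp (by positivity), ?_⟩
    refine le_trans ?_ ((one hX hF hC x (w - a) m 0 hx).trans (v_mono h.2))
    have pc := par_cont (ml x)
    refine intervalIntegral.integral_mono_on (ml_nonneg x)
      (Continuous.intervalIntegrable (by fun_prop) _ _)
      (Continuous.intervalIntegrable (by fun_prop) _ _) fun u hu => ?_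
    refine mul_le_mul_of_nonneg_left ?_ (par_mem (ml_pos hx) hu).1
    rw [v_zero, zero_mul, add_zero]
    exact (abs_mono h0.le d1 u0 hu.1).trans (by rw [e1])
  · rcases le_or_gt δ 0 with h0 | h0
    · exact .inl h0
    refine .inr ⟨1, le_rfl, ?_⟩
    have pc := par_cont x
    have h1 : ∫ u in (0 : ℝ)..x, par x u * |exp (δ * u) - 1| ≤ ∫ _ in (0 : ℝ)..x, exp 50 := by
      refine intervalIntegral.integral_mono_on hx.le
        (Continuous.intervalIntegrable (by fun_prop) _ _)
        (Continuous.intervalIntegrable (by fun_prop) _ _) fun u hu => ?_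
      have a : 1 ≤ exp (δ * u) := one_le_exp (mul_nonneg h0.le hu.1)
      have b : exp (δ * u) ≤ exp 50 := exp_le_exp.2 (by nlinarith [hu.1, hu.2])
      rw [abs_of_nonneg (sub_nonneg.2 a)]
      have := mul_le_of_le_one_left (sub_nonneg.2 a) (par_mem hx hu).2
      linarith
    have h2 : exp 50 ≤ 2 * 10 ^ 22 := by
      calc exp 50 = exp 1 ^ 50 := by rw [← exp_nat_mul]; norm_num
        _ ≤ 2.7182818286 ^ 50 := pow_le_pow_left₀ (exp_pos _).le exp_one_lt_d9.le _
        _ ≤ _ := by norm_num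
    rw [intervalIntegral.integral_const, smul_eq_mul, sub_zero] at h1
    have := mul_le_mul h5 h2 (exp_pos _).le (by norm_num)
    linarith

end Pool.Agent.MP_c5bf7b_nt.H25L.Nm
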