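import Pool.Agent.MP_c5bf7b_nt.H25L.SpecN

/-! Soundness of the small functions of the checker. -/

set_option autoImplicit false

namespace Pool.Agent.MP_c5bf7b_nt.H25L.Nm

open Finset Pool.Agent.MP_c5bf7b_nt.H38

namespace SmL

theorem step {f f' : ℝ → ℝ} (hf : ∀ x, HasDerivAt f (f' x) x) (h0 : f 0 = 0)
    (h : ∀ x, 0 ≤ x → 0 ≤ f' x) {x : ℝ} (hx : 0 ≤ x) : 0 ≤ f x := by
  have := monotoneOn_of_deriv_nonneg (convex_Ici (0 : ℝ)) (f := f)
    (fun x _ => (hf x).continuousAt.continuousWithinAt)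
    (fun x _ => (hf x).differentiableAt.differentiableWithinAt)
    (fun x hx => (hf x).deriv ▸ h x (interior_subset hx))
  exact h0 ▸ this Set.self_mem_Ici hx hx

theorem dexp (x : ℝ) : HasDerivAt (fun x => Real.exp (-x)) (-Real.exp (-x)) x := by
  simpa using (hasDerivAt_neg x).exp

theorem e2 {z : ℝ} (hz : 0 ≤ z) : 0 ≤ 1 - z + z ^ 2 / 2 - Real.exp (-z) :=
  step (f := fun z => 1 - z + z ^ 2 / 2 - Real.exp (-z)) (f' := fun z => -1 + z + Real.exp (-z))
    (fun x => ((((hasDerivAt_id' x).const_sub 1).fun_add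
        ((hasDerivAt_pow 2 x).div_const 2)).fun_sub (dexp x)).congr_deriv (by simp))
    (by simp) (fun x _ => by linarith [Real.add_one_le_exp (-x)]) hz

theorem e3 {z : ℝ} (hz : 0 ≤ z) : 0 ≤ Real.exp (-z) - (1 - z + z ^ 2 / 2 - z ^ 3 / 6) :=
  step (f := fun z => Real.exp (-z) - (1 - z + z ^ 2 / 2 - z ^ 3 / 6))
    (f' := fun z => 1 - z + z ^ 2 / 2 - Real.exp (-z))
    (fun x => ((dexp x).fun_sub ((((hasDerivAt_id' x).const_sub 1).fun_add
        ((hasDerivAt_pow 2 x).div_const 2)).fun_sub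
        ((hasDerivAt_pow 3 x).div_const 6))).congr_deriv (by simp; ring))
    (by simp) (fun x hx => e2 hx) hz

theorem e4 {z : ℝ} (hz : 0 ≤ z) :
    0 ≤ 1 - z + z ^ 2 / 2 - z ^ 3 / 6 + z ^ 4 / 24 - Real.exp (-z) :=
  step (f := fun z => 1 - z + z ^ 2 / 2 - z ^ 3 / 6 + z ^ 4 / 24 - Real.exp (-z))
    (f' := fun z => Real.exp (-z) - (1 - z + z ^ 2 / 2 - z ^ 3 / 6))
    (fun x => ((((((hasDerivAt_id' x).const_sub 1).fun_add
        ((hasDerivAt_pow 2 x).div_const 2)).fun_sub ((hasDerivAt_pow 3 x).div_const 6)).fun_add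
        ((hasDerivAt_pow 4 x).div_const 24)).fun_sub (dexp x)).congr_deriv (by simp; ring))
    (by simp) (fun x hx => e3 hx) hz

theorem bk (k : ℕ) : BK (1 / 20) (k / 20) ≤ (11 * k ^ 2 + 2880000 - 6800 * k) / 480000 ∧
    0 ≤ BK (1 / 20) (k / 20) := by
  rcases Nat.eq_zero_or_pos k with rfl | hk
  · norm_num [BK]
  have k0 : (0 : ℝ) < k := by exact_mod_cast hk
  obtain ⟨z, hz⟩ : ∃ z : ℝ, (k : ℝ) = 200 * z := ⟨k / 200, by ring⟩
  have z0 : 0 < z := by linarith
  have e : BK (1 / 20) (k / 20) =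
      (5 * z * (1 - Real.exp (-z)) + 2 * (z - 1 + Real.exp (-z))) / z ^ 2 := by
    rw [BK, if_neg (by positivity), hz, show -2 * (200 * z / 20) * (1 / 20) = -z by ring]
    field_simp
    ring
  rw [e, hz]
  refine ⟨?_, div_nonneg (add_nonneg (mul_nonneg (by positivity) ?_) ?_) (by positivity)⟩
  · rw [div_le_iff₀ (by positivity)]
    nlinarith [mul_nonneg z0.le (e3 z0.le), e4 z0.le]
  · exact sub_nonneg.2 (Real.exp_le_one_iff.2 (by linarith))
  · linarith [Real.add_one_le_exp (-z)]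

theorem bu (k : ℕ) : BK (1 / 20) (k / 20) + e0 ≤ v (BU k) := by
  have h := le_v_div ((k * k * 11 + 2880000 - k * 6800) * 1000000000000000000) 480000 (by norm_num)
  have h2 : ((k * k * 11 + 2880000 : ℕ) : ℝ) ≤ ((k * k * 11 + 2880000 - k * 6800 : ℕ) : ℝ)
      + ((k * 6800 : ℕ) : ℝ) := by exact_mod_cast le_tsub_add
  have e : BU k = (k * k * 11 + 2880000 - k * 6800) * 1000000000000000000 / 480000 + 1
      + 10000000000000 := by
    rw [BU, Nat.add_eq, Nat.add_eq, Nat.sub_eq, div_eq, add_assoc]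
    simp only [Nat.mul_eq, Nat.reduceAdd]
  rw [e, v_add]
  rw [v_mul, v_one] at h
  refine add_le_add ((bk k).1.trans (le_trans ?_ h)) (by norm_num [e0, v])
  generalize ((k * k * 11 + 2880000 - k * 6800 : ℕ) : ℝ) = N at h2
  push_cast at h2 ⊢
  linarith

theorem rat0 {s : ℝ} (hs : 0 ≤ s) : 0 ≤ (1 - Real.exp (-s)) / s :=
  div_nonneg (sub_nonneg.2 (Real.exp_le_one_iff.2 (by linarith))) hs

theorem rat {s s₀ : ℝ} (h0 : 0 ≤ s₀) (h1 : s₀ ≤ 1 / 2) (h : s₀ ≤ s) :
    (1 - Real.exp (-s)) / s ≤ 1 - s₀ / 2 + s₀ ^ 2 / 6 := by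
  rcases (h0.trans h).eq_or_lt with e | s0
  · rw [← e, div_zero]; nlinarith
  rw [div_le_iff₀ s0]
  rcases le_total s (5 / 2) with a | a
  · have b : 0 ≤ (s - s₀) * (3 - s - s₀) := mul_nonneg (by linarith) (by linarith)
    nlinarith [e3 s0.le, mul_nonneg s0.le b]
  · nlinarith [Real.exp_pos (-s), mul_nonneg s0.le (sq_nonneg s₀),
      mul_nonneg s0.le (sub_nonneg.2 h1)]

theorem eta_eq (l : ℝ) : eta (1 / 20) l = ((1 - Real.exp (-(l / 20))) / (l / 20)) ^ 2 := by
  rw [eta, show -(1 / 20) * l = -(l / 20) by ring, show 1 / 20 * l = l / 20 by ring]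

theorem qe_pos {a : ℕ} (ha : a ≤ 10000) : 1 ≤ qe a := by
  change 1 ≤ a * a + 2400000000 - a * 60000
  omega

theorem eta_le {a : ℕ} {l : ℝ} (ha : a ≤ 10000) (h : ml a ≤ l) :
    eta (1 / 20) l ≤ (qe a * qe a : ℕ) / 5760000000000000000 := by
  have a0 : (0 : ℝ) ≤ a := Nat.cast_nonneg a
  have a1 : (a : ℝ) ≤ 10000 := by exact_mod_cast ha
  have e : (qe a : ℝ) = a * a + 2400000000 - a * 60000 := by
    change ((a * a + 2400000000 - a * 60000 : ℕ) : ℝ) = _
    rw [Nat.cast_sub (by omega)]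
    push_cast
    ring
  unfold ml at h
  rw [eta_eq]
  refine (pow_le_pow_left₀ (rat0 (by linarith)) (rat (s₀ := a / 20000) (by positivity)
    (by linarith) (by linarith)) 2).trans (le_of_eq ?_)
  rw [Nat.cast_mul, e]
  ring

theorem ii_eq (u x : ℝ) {α : ℝ} (h : α ≠ 0) : II u x α = ∫ t in u..x, Real.exp (α * t) := by
  rw [II, intervalIntegral.integral_eq_sub_of_hasDerivAt (f := fun t => Real.exp (α * t) / α)
    (fun t _ => ?_) (Continuous.intervalIntegrable (by fun_prop) _ _), sub_div]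
  exact ((((hasDerivAt_id' t).const_mul α).exp).div_const α).congr_deriv (by simp [h])

theorem ii_pos {u x α : ℝ} (h : u < x) (h0 : 0 < α) : 0 < II u x α :=
  div_pos (sub_pos.2 (Real.exp_lt_exp.2 (mul_lt_mul_of_pos_left h h0))) h0

theorem ii_mono {u x α α' : ℝ} (hu : 0 ≤ u) (h : u ≤ x) (h0 : 0 < α) (h1 : α ≤ α') :
    II u x α ≤ II u x α' ∧ II u x α' ≤ Real.exp (x * (α' - α)) * II u x α := by
  rw [ii_eq u x h0.ne', ii_eq u x (h0.trans_le h1).ne', ← intervalIntegral.integral_const_mul]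
  constructor <;> refine intervalIntegral.integral_mono_on h
    (Continuous.intervalIntegrable (by fun_prop) _ _)
    (Continuous.intervalIntegrable (by fun_prop) _ _) fun t ht => ?_
  · exact Real.exp_le_exp.2 (mul_le_mul_of_nonneg_right h1 (hu.trans ht.1))
  · rw [← Real.exp_add]
    exact Real.exp_le_exp.2 (by nlinarith [mul_nonneg (sub_nonneg.2 h1) (sub_nonneg.2 ht.2)])

theorem cc_eq (d : Dn) (l : ℝ) :
    cc d l = 1 / II (uD d / 10000) (xD d / 10000) (2 * l + ml d.th) := by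
  simp only [cc, c1, toD, uD, xD, f0, Nat.add_eq, Nat.mul_eq]
  congr 2 <;> push_cast <;> ring

theorem ux (d : Dn) : (0 : ℝ) ≤ uD d / 10000 ∧ (uD d : ℝ) / 10000 < xD d / 10000 := by
  refine ⟨by positivity, div_lt_div_of_pos_right ?_ (by norm_num)⟩
  have : uD d < xD d := by
    change d.a * 2 + 2501 < d.a * 3 + d.b + 5002
    omega
  exact_mod_cast this

theorem su (hX : XpS) {d : Dn} (ha : 1 ≤ d.a) (hb : 1 ≤ d.b) (ht : 1 ≤ d.th) :
    S1 f0 (toD d).1 (toD d).2.1 (toD d).2.2 ≤ v (SU d) := by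
  have h1 := (hX.1 (d.th * (uD d * 100))).2.2.2.trans (le_sU _)
  have h2 := (sD_le _).trans (hX.1 (d.th * (d.b * 100))).2.2.1
  have h3 := le_v_sub 1000000000000000000 (sD (yL (d.th * (d.b * 100))))
  have a0 : (0 : ℝ) < d.a := by exact_mod_cast ha
  have b0 : (0 : ℝ) < d.b := by exact_mod_cast hb
  have t0 : (0 : ℝ) < d.th := by exact_mod_cast ht
  rw [v_one] at h3
  refine le_trans ?_ (le_v_div (sU (yU (d.th * (uD d * 100))) *
    (1000000000000000000 - sD (yL (d.th * (d.b * 100))))) (d.th * d.b * (d.th * d.b) * d.a)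
    (by positivity))
  generalize sU (yU (d.th * (uD d * 100))) = A at h1 ⊢
  generalize 1000000000000000000 - sD (yL (d.th * (d.b * 100))) = B at h3 ⊢
  have e1 : -ml d.th * (f0 + 2 * (d.a / 10000)) = -((d.th * (uD d * 100) : ℕ) / 10 ^ 9) := by
    simp only [uD, f0, ml, Nat.add_eq, Nat.mul_eq]
    push_cast
    ring
  have e2 : -ml d.th * (d.b / 10000) = -((d.th * (d.b * 100) : ℕ) / 10 ^ 9) := by
    simp only [ml]
    push_cast
    ring
  simp only [S1, toD]
  rw [e1, e2]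
  calc _ ≤ v A * v B / ((ml d.th * (d.b / 10000)) ^ 2 * (d.a / 10000)) := by
        refine div_le_div_of_nonneg_right (mul_le_mul h1 (by linarith) (sub_nonneg.2
          (Real.exp_le_one_iff.2 (neg_nonpos.2 (by positivity)))) (v_nonneg _)) (by positivity)
    _ = _ := by
        unfold v ml
        push_cast
        field_simp
        ring

theorem c2_le (hX : XpS) (d : Dn) {al : ℕ} (h : 1 ≤ al) :
    v (c2 d al) ≤ 1 / II (uD d / 10000) (xD d / 10000) (ml al) := by
  have h1 := (hX.1 (al * (xD d * 100))).2.1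
  have h2 := (hX.1 (al * (uD d * 100))).1
  have p := ml_pos h
  have e : ∀ n : ℕ, ((al * (n * 100) : ℕ) : ℝ) / 10 ^ 9 = ml al * (n / 10000) := fun n => by
    unfold ml
    push_cast
    ring
  rw [e] at h1 h2
  have h3 : (xU (al * (xD d * 100)) : ℝ) ≤
      ((xU (al * (xD d * 100)) - xL (al * (uD d * 100)) : ℕ) : ℝ) + xL (al * (uD d * 100)) := by
    exact_mod_cast le_tsub_add
  have e2 : c2 d al = al * 1000000000000000 * 2 ^ 96 /
      (xU (al * (xD d * 100)) - xL (al * (uD d * 100))) := by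
    rw [c2, shl_eq]
    rfl
  rw [e2]
  refine (v_div_le _ _).trans ?_
  unfold vP at h1 h2
  generalize ((xU (al * (xD d * 100)) - xL (al * (uD d * 100)) : ℕ) : ℝ) = D at h3 ⊢
  generalize (xU (al * (xD d * 100)) : ℝ) = A at h1 h3
  generalize (xL (al * (uD d * 100)) : ℝ) = B at h2 h3
  have g := sub_pos.2 (Real.exp_lt_exp.2 (mul_lt_mul_of_pos_left (ux d).2 p))
  have g2 : Real.exp (ml al * (xD d / 10000)) - Real.exp (ml al * (uD d / 10000)) ≤ D / 2 ^ 96 := by
    refine (sub_le_sub h1 h2).trans ?_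
    rw [← sub_div]
    exact div_le_div_of_nonneg_right (by linarith) (by positivity)
  rw [II, one_div_div]
  refine le_trans (le_of_eq ?_) (div_le_div_of_nonneg_left p.le g g2)
  rw [div_div_eq_mul_div]
  congr 1
  unfold v ml
  push_cast
  ring

theorem cd (hX : XpS) {d : Dn} (ht : 1 ≤ d.th) (a : ℕ) (l : ℝ) (h0 : 0 ≤ l) (h : l ≤ ml a) :
    v (cD d a) ≤ cc d l := by
  have p : 0 < 2 * l + ml d.th := by linarith [ml_pos ht]
  refine (c2_le hX d (al := a * 2 + d.th) (by omega)).trans ?_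
  rw [cc_eq]
  refine one_div_le_one_div_of_le (ii_pos (ux d).2 p) (ii_mono (ux d).1 (ux d).2.le p ?_).1
  unfold ml at h ⊢
  push_cast
  linarith

theorem ok {d : Dn} (h : okD d = true) : 1 ≤ d.a ∧ 1 ≤ d.b ∧ 1 ≤ d.th := by
  simpa only [okD, Bool.and_eq_true, Nat.ble_eq, and_assoc] using h

end SmL

open SmL

theorem smOf : SmOf := by
  intro hX
  have e0' : ∀ l : ℝ, 0 ≤ eta (1 / 20) l := fun l => sq_nonneg _
  refine ⟨fun k => ⟨bu k, (bk k).2⟩, fun l hl => ⟨e0' l, ?_⟩, fun t a l ha h => ?_,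
    fun E j0 T k m l h1 h2 h3 => ?_, fun d hd => ⟨su hX (ok hd).1 (ok hd).2.1 (ok hd).2.2,
      cd hX (ok hd).2.2, fun l l' h0 h => ?_⟩, fun ds a l hd h0 h => ?_⟩
  · rw [eta_eq]
    refine pow_le_one₀ (rat0 (by linarith)) ?_
    simpa using rat (s := l / 20) le_rfl (by norm_num) (by linarith)
  · refine (mul_le_mul_of_nonneg_left (eta_le ha h) (v_nonneg t)).trans (le_trans (le_of_eq ?_)
      (le_v_div (t * (qe a * qe a)) 5760000000000000000 (by norm_num)))
    unfold v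
    push_cast
    ring
  · have a1 : (j0 + k) * 5 ≤ 10000 := by omega
    have a2 : ml ((j0 + k) * 5) ≤ l := by
      refine le_trans (le_of_eq ?_) h2
      unfold ml
      push_cast
      ring
    have q0 : (0 : ℝ) < qe ((j0 + k) * 5) := by exact_mod_cast qe_pos a1
    have b1 : Real.exp (-ml E * l) ≤ v (eE E j0 k) :=
      (Real.exp_le_exp.2 (by nlinarith [mul_le_mul_of_nonneg_left h2 (ml_nonneg E)])).trans
        (hX.2.2 E j0 k)
    have b2 : eE E j0 k ≤ m + gt T k * 5760000000000000000 /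
        (qe ((j0 + k) * 5) * qe ((j0 + k) * 5)) := tsub_le_iff_right.1 h3
    have b3 := v_mono b2
    rw [v_add] at b3
    have b4 := v_div_le (gt T k * 5760000000000000000) (qe ((j0 + k) * 5) * qe ((j0 + k) * 5))
    refine (mul_le_mul (b := v (gt T k * 5760000000000000000) /
      (qe ((j0 + k) * 5) * qe ((j0 + k) * 5) : ℕ)) (by linarith) (eta_le a1 a2) (e0' l)
      (div_nonneg (v_nonneg _) (Nat.cast_nonneg _))).trans (le_of_eq ?_)
    unfold v
    push_cast
    field_simp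
  · have p : 0 < 2 * l + ml d.th := by linarith [ml_pos (ok hd).2.2]
    have p' : 2 * l + ml d.th ≤ 2 * l' + ml d.th := by linarith
    have i1 := ii_pos (ux d).2 p
    have i2 := (ii_mono (ux d).1 (ux d).2.le p p').2
    rw [cc_eq, cc_eq]
    refine ⟨one_div_pos.2 i1, le_trans (le_of_eq ?_)
      (one_div_le_one_div_of_le (ii_pos (ux d).2 (p.trans_le p')) i2)⟩
    rw [show -(2 * ((xD d : ℝ) / 10000)) * (l' - l) =
      -(xD d / 10000 * (2 * l' + ml d.th - (2 * l + ml d.th))) by ring, Real.exp_neg]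
    field_simp
  · rw [first, v_sumL, fst]
    exact List.sum_le_sum fun d h' => (mD_le _ _).trans (mul_le_mul_of_nonneg_left
      (cd hX (ok (List.all_eq_true.1 hd d h')).2.2 a l h0 h) (v_nonneg _))

end Pool.Agent.MP_c5bf7b_nt.H25L.Nm
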