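import Pool.Agent.MP_c5bf7b_nt.H25L.SpecN

/-! Soundness of the chains of exclusions. -/

set_option autoImplicit false

namespace Pool.Agent.MP_c5bf7b_nt.H25L.Nm

open Finset Pool.Agent.MP_c5bf7b_nt.H38

namespace SubL

theorem ml_succ (w : ℕ) : ml (w + 1) = ml w + c0 := by
  unfold ml c0; push_cast; ring

theorem ml_ten : ml 10000 = 10 := by norm_num [ml]

theorem c0_nonneg : 0 ≤ c0 := by norm_num [c0]

theorem lnk_ok (h2 : Rc2S) (o0 o1 a1 b1 T : ℕ) (L : Lk) (ho : 2 ≤ o0)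
    (h : lnk o0 o1 a1 b1 T L = true) (o j₀ : ℕ) (l₁ l₂ : ℝ) (h0 : o0 ≤ o) (h1 : o ≤ o1)
    (hj : j₀ < o) (ha : ml a1 ≤ l₁) (hb : l₁ ≤ ml b1)
    (hl : 10 ≤ l₂ ∨ Lat2 o j₀ l₁ (l₂ - c0) l₂) (hT : ml T ≤ l₂) : ml L.b2 ≤ l₂ := by
  unfold lnk at h
  simp only [Bool.and_eq_true, Nat.ble_eq, List.all_eq_true, allN_iff, List.any_eq_true,
    Nat.add_eq, Nat.sub_eq, Nat.succ_eq_add_one] at h
  obtain ⟨⟨hb2, hrs⟩, hp⟩ := h
  rcases hl with hl | hl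
  · exact ((ml_mono hb2).trans ml_ten.le).trans hl
  by_contra hc
  have e : o0 + (o - o0) = o := by omega
  obtain ⟨R, hR, hpat⟩ := hp (o - o0) (by omega) j₀ (by omega)
  rw [e] at hpat
  obtain ⟨hw, hok⟩ := hrs R hR
  have hw' : ml R.w ≤ l₂ - c0 := by
    have := ml_mono hw
    rw [ml_succ] at this
    linarith
  exact h2 o j₀ a1 b1 L.b2 R l₁ (l₂ - c0) l₂ (by omega) hok hpat ha hb hw'
    (by linarith [c0_nonneg]) (not_le.1 hc).le hl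

theorem chain_ok (h2 : Rc2S) (o0 o1 a1 b1 Tf : ℕ) (ho : 2 ≤ o0) (o j₀ : ℕ) (l₁ l₂ : ℝ)
    (h0 : o0 ≤ o) (h1 : o ≤ o1) (hj : j₀ < o) (ha : ml a1 ≤ l₁) (hb : l₁ ≤ ml b1)
    (hl : 10 ≤ l₂ ∨ Lat2 o j₀ l₁ (l₂ - c0) l₂) (Ls : List Lk) :
    ∀ T : ℕ, chain o0 o1 a1 b1 Tf Ls T = true → ml T ≤ l₂ → ml Tf ≤ l₂ := by
  induction Ls with
  | nil =>
    intro T h hT
    change Tf.ble T = true at h
    exact (ml_mono (Nat.ble_eq ▸ h)).trans hT
  | cons L Ls ih =>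
    intro T h hT
    change (lnk o0 o1 a1 b1 T L && chain o0 o1 a1 b1 Tf Ls L.b2) = true at h
    rw [Bool.and_eq_true] at h
    exact ih _ h.2 (lnk_ok h2 o0 o1 a1 b1 T L ho h.1 o j₀ l₁ l₂ h0 h1 hj ha hb hl hT)

theorem subs_ok (h2 : Rc2S) (o0 o1 Tf bf : ℕ) (ho : 2 ≤ o0) (Ss : List Sp) :
    ∀ a : ℕ, subs o0 o1 Tf bf Ss a = true → ExAB o0 o1 a bf Tf := by
  induction Ss with
  | nil =>
    intro a h o j₀ l₁ l₂ _ _ _ ha hb _ _
    change bf.ble a = true at h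
    have := ml_mono (Nat.ble_eq ▸ h : bf ≤ a)
    linarith
  | cons s Ss ih =>
    intro a h o j₀ l₁ l₂ h0 h1 hj ha hb h12 hl
    change (chain o0 o1 a s.b Tf s.ls a && subs o0 o1 Tf bf Ss s.b) = true at h
    rw [Bool.and_eq_true] at h
    by_cases hs : l₁ ≤ ml s.b
    · exact chain_ok h2 o0 o1 a s.b Tf ho o j₀ l₁ l₂ h0 h1 hj ha.le hs hl s.ls a h.1
        (ha.le.trans h12)
    · exact ih _ h.2 o j₀ l₁ l₂ h0 h1 hj (not_le.1 hs) hb h12 hl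

theorem zsub_ok (h1' : Rc1S) (h2 : Rc2S) (o0 o1 bf : ℕ) (ho : 2 ≤ o0) (Ss : List Sp) :
    ∀ a : ℕ, zsub o0 o1 bf Ss a = true → NoAB o0 o1 a bf := by
  induction Ss with
  | nil =>
    intro a h o j₀ l₁ l₂ _ _ _ ha hb _ _ _
    change bf.ble a = true at h
    have := ml_mono (Nat.ble_eq ▸ h : bf ≤ a)
    linarith
  | cons s Ss ih =>
    intro a h o j₀ l₁ l₂ h0 h1 hj ha hb h12 hz hl
    change (chain o0 o1 a s.b s.T s.ls a &&
      (allN (o1.succ.sub o0) fun t => s.zs.any fun R =>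
        (R.w.beq 0 || R.w.succ.ble s.T) && ck1 (o0.add t) a s.b R) &&
      zsub o0 o1 bf Ss s.b) = true at h
    rw [Bool.and_eq_true, Bool.and_eq_true] at h
    obtain ⟨⟨hc, hn⟩, hr⟩ := h
    by_cases hs : l₁ ≤ ml s.b
    · have hT := chain_ok h2 o0 o1 a s.b s.T ho o j₀ l₁ l₂ h0 h1 hj ha.le hs hl s.ls a hc
        (ha.le.trans h12)
      simp only [Bool.and_eq_true, Bool.or_eq_true, Nat.ble_eq, Nat.beq_eq, allN_iff,
        List.any_eq_true, Nat.add_eq, Nat.sub_eq, Nat.succ_eq_add_one] at hn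
      have e : o0 + (o - o0) = o := by omega
      obtain ⟨R, -, hw, hck⟩ := hn (o - o0) (by omega)
      rw [e] at hck
      refine h1' o a s.b R l₁ _ (by omega) hck ha.le hs ?_ hz
      rcases hw with hw | hw
      · rw [hw]
        exact le_trans (by simp [ml]) (le_max_right _ _)
      · have := ml_mono hw
        rw [ml_succ] at this
        exact le_trans (by linarith) (le_max_left _ _)
    · exact ih _ hr o j₀ l₁ l₂ h0 h1 hj (not_le.1 hs) hb h12 hz hl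

end SubL

theorem subOf : SubOf := fun h1 h2 =>
  ⟨fun o0 o1 Tf bf Ss a ho h => SubL.subs_ok h2 o0 o1 Tf bf ho Ss a h,
    fun o0 o1 bf Ss a ho h => SubL.zsub_ok h1 h2 o0 o1 bf ho Ss a h⟩

end Pool.Agent.MP_c5bf7b_nt.H25L.Nm
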