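import Pool.Agent.MP_c5bf7b_nt.H25L.SpecN

/-! Row TC: the certificate for a real zero very close to `1`. -/

set_option autoImplicit false

namespace Pool.Agent.MP_c5bf7b_nt.H25L.Nm

open Finset Pool.Agent.MP_c5bf7b_nt.H38

namespace TcL

theorem cont (x z : ℝ) : Continuous fun u => par x u * Real.exp (-z * u) := by
  unfold par; fun_prop

theorem par_pos {x u : ℝ} (h0 : 0 < u) (h1 : u < x) : 0 < par x u := by
  have hx : 0 < x := h0.trans h1
  have : 0 < 1 - u / x := sub_pos.2 ((div_lt_one hx).2 h1)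
  unfold par; positivity

theorem par_nonneg {x u : ℝ} (hx : 0 < x) (h0 : 0 ≤ u) (h1 : u ≤ x) : 0 ≤ par x u := by
  have : 0 ≤ 1 - u / x := sub_nonneg.2 ((div_le_one hx).2 h1)
  unfold par; positivity

theorem lr_sub (x a b : ℝ) : Lr (par x) x a - Lr (par x) x b =
    ∫ u in (0 : ℝ)..x, par x u * (Real.exp (-a * u) - Real.exp (-b * u)) := by
  unfold Lr
  rw [← intervalIntegral.integral_sub ((cont x a).intervalIntegrable _ _)
    ((cont x b).intervalIntegrable _ _)]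
  simp only [mul_sub]

theorem cont2 (x a b : ℝ) :
    Continuous fun u => par x u * (Real.exp (-a * u) - Real.exp (-b * u)) := by
  unfold par; fun_prop

theorem del_pos {x a b : ℝ} (hx : 0 < x) (h : a < b) : 0 < Lr (par x) x a - Lr (par x) x b := by
  rw [lr_sub]
  refine intervalIntegral.intervalIntegral_pos_of_pos_on ((cont2 x a b).intervalIntegrable _ _)
    (fun u hu => mul_pos (par_pos hu.1 hu.2) (sub_pos.2 (Real.exp_lt_exp.2 ?_))) hx
  nlinarith [hu.1]

theorem gap {x s t l : ℝ} (hx : 0 < x) (ht : 0 ≤ t) (hl : 0 ≤ l) :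
    Lr (par x) x (-(s + t)) - Lr (par x) x (l - (s + t)) ≤
      100 * l * Real.exp (x * t) * (Lr (par x) x (-(s + 1 / 100)) - Lr (par x) x (-s)) := by
  rw [lr_sub, lr_sub, ← intervalIntegral.integral_const_mul]
  refine intervalIntegral.integral_mono_on hx.le ((cont2 x _ _).intervalIntegrable _ _)
    (((cont2 x _ _).const_mul _).intervalIntegrable _ _) fun u hu => ?_
  rw [mul_left_comm]
  refine mul_le_mul_of_nonneg_left ?_ (par_nonneg hx hu.1 hu.2)
  have e1 : Real.exp (- -(s + t) * u) = Real.exp (s * u) * Real.exp (t * u) := by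
    rw [← Real.exp_add]; congr 1; ring
  have e2 : Real.exp (-(l - (s + t)) * u) =
      Real.exp (s * u) * Real.exp (t * u) * Real.exp (-(l * u)) := by
    rw [← Real.exp_add, ← Real.exp_add]; congr 1; ring
  have e3 : Real.exp (- -(s + 1 / 100) * u) = Real.exp (s * u) * Real.exp (u / 100) := by
    rw [← Real.exp_add]; congr 1; ring
  rw [e1, e2, e3, neg_neg]
  have a1 := Real.add_one_le_exp (-(l * u))
  have a2 := Real.add_one_le_exp (u / 100)
  have a3 : Real.exp (t * u) ≤ Real.exp (x * t) := Real.exp_le_exp.2 (by nlinarith [hu.2])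
  have a4 := Real.exp_pos (s * u)
  have a5 := Real.exp_pos (t * u)
  have a6 : Real.exp (t * u) * (1 - Real.exp (-(l * u))) ≤
      Real.exp (x * t) * (l * (100 * (Real.exp (u / 100) - 1))) :=
    (mul_le_mul_of_nonneg_left (by nlinarith) a5.le).trans
      (mul_le_mul_of_nonneg_right a3 (mul_nonneg hl (by linarith [hu.1])))
  nlinarith [mul_le_mul_of_nonneg_left a6 a4.le]

theorem fin {E l r : ℝ} (hE : 276 / 100 ≤ E) (h0 : 0 < l) (h1 : l ≤ 1) (r1 : r ≤ 23 / 100)
    (r2 : r ≤ 23 / 10 * l) : Real.exp (-E * l) + r ≤ 1 - l / 200 := by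
  have a1 : Real.exp (-E * l) ≤ Real.exp (-(276 / 100 * l)) := Real.exp_le_exp.2 (by nlinarith)
  have a2 := Real.quadratic_le_exp_of_nonneg (x := 276 / 100 * l) (by positivity)
  have a3 : Real.exp (-(276 / 100 * l)) * Real.exp (276 / 100 * l) = 1 := by
    rw [← Real.exp_add]; simp
  have a4 := Real.exp_pos (-(276 / 100 * l))
  have a5 := mul_le_mul_of_nonneg_left a2 a4.le
  rw [a3] at a5
  generalize Real.exp (-(276 / 100 * l)) = y at a1 a4 a5
  rcases le_total l (1 / 10) with h | h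
  · have : y ≤ 1 - 231 / 100 * l := by
      by_contra hc
      have := mul_le_mul_of_nonneg_right (not_le.1 hc).le
        (by positivity : 0 ≤ 1 + 276 / 100 * l + (276 / 100 * l) ^ 2 / 2)
      nlinarith [mul_pos h0 h0, mul_le_mul_of_nonneg_left h (mul_pos h0 h0).le]
    linarith
  · have : y ≤ 765 / 1000 := by
      by_contra hc
      have := mul_le_mul_of_nonneg_right (not_le.1 hc).le
        (by positivity : 0 ≤ 1 + 276 / 100 * l + (276 / 100 * l) ^ 2 / 2)
      nlinarith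
    linarith

/-- a dummy inequality -/
def dz0 : DZ := ⟨⟨0, 0, 0, 0, 0, fun _ => 0, fun _ => 0⟩, 0, 0, 0, 0, 0, 0, 0, 0, 0, 0, 0, 0, 0, 0⟩

/-- the certificate -/
theorem cert {E X x l₁ lo lo₀ Y B e S W : ℝ} {κ : ℕ} {d : Dn} {Ds : Set DZ}
    {Es : Set (ℝ × ℝ × ℝ)} (hd : toD d ∈ Es) (hX : 0 ≤ X) (hx : 0 ≤ x) (hk : x + 2 * X ≤ E)
    (h1 : 0 < l₁) (hlo : lo₀ ≤ lo) (hκ : κ ≤ 200) (hκ' : (κ : ℝ) / 20 ≤ lo₀) (hY : 0 ≤ Y)
    (hB : BK (1 / 20) (κ / 20) + e0 ≤ B) (hB0 : 0 ≤ B) (he : Real.exp (-E * lo₀) ≤ e)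
    (hc : e * B ≤ Y * cc d lo₀)
    (hcc : ∀ a, lo₀ ≤ a → cc d lo₀ * Real.exp (-(2 * X) * (a - lo₀)) ≤ cc d a)
    (hc1 : 0 ≤ cc d l₁) (hη : eta (1 / 20) l₁ ≤ 1)
    (hS : S1 f0 (toD d).1 (toD d).2.1 (toD d).2.2 + e0 ≤ S) (hS0 : 0 ≤ S)
    (hW : Real.exp (-E * l₁) + (7 * e + Y * S) * Real.exp (-(x * (lo - lo₀))) ≤ W) :
    Crt (1 / 20) E Ds Es 1 1 l₁ lo W := by
  have hE : 0 ≤ E := by linarith
  have η0 : ∀ l, 0 ≤ eta (1 / 20) l := fun l => sq_nonneg _
  have dec : ∀ a l, a ≤ l → (Real.exp (-E * l) - Real.exp (-E * a)) * eta (1 / 20) l ≤ 0 :=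
    fun a l h => mul_nonpos_of_nonpos_of_nonneg
      (sub_nonpos.2 (Real.exp_le_exp.2 (by nlinarith))) (η0 l)
  have hy : 0 ≤ Y * Real.exp (-((E - 2 * X) * (lo - lo₀))) := by positivity
  refine ⟨⟨0, fun _ => dz0, fun _ => 0, fun _ _ => 0, fun _ _ => 0, fun _ => 0, 1, fun _ => toD d,
    fun _ => Y * Real.exp (-((E - 2 * X) * (lo - lo₀))), fun _ => κ, fun a => Real.exp (-E * a), 0,
    Real.exp (-E * lo)⟩, fun i hi => absurd hi (Nat.not_lt_zero i),
    fun i hi => absurd hi (Nat.not_lt_zero i), fun _ i hi => absurd hi (Nat.not_lt_zero i),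
    fun _ _ => ⟨hd, hy⟩, fun a _ ha => ⟨hκ, by linarith, (Real.exp_pos _).le⟩, fun a _ ha => ?_,
    fun a l _ _ h => ?_, fun _ => ⟨Nat.zero_le _, by simpa using h1.le, (Real.exp_pos _).le⟩,
    fun _ l _ h => ?_, ?_⟩
  · simp only [Cert.first, Cert.cost, sum_range_one, sum_range_zero, sub_self, max_self, zero_mul,
      add_zero]
    have a1 := mul_le_mul_of_nonneg_left (hcc a (hlo.trans ha)) hy
    refine le_trans ?_ a1
    have a2 : Real.exp (-E * a) ≤ Real.exp (-E * lo₀) * (Real.exp (-((E - 2 * X) * (lo - lo₀))) *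
        Real.exp (-(2 * X) * (a - lo₀))) := by
      rw [← Real.exp_add, ← Real.exp_add]
      exact Real.exp_le_exp.2 (by nlinarith)
    have a3 : 0 < Real.exp (-((E - 2 * X) * (lo - lo₀))) * Real.exp (-(2 * X) * (a - lo₀)) := by
      positivity
    calc _ ≤ Real.exp (-E * a) * B := mul_le_mul_of_nonneg_left hB (Real.exp_pos _).le
      _ ≤ e * (Real.exp (-((E - 2 * X) * (lo - lo₀))) * Real.exp (-(2 * X) * (a - lo₀))) * B :=
        mul_le_mul_of_nonneg_right (a2.trans (mul_le_mul_of_nonneg_right he a3.le)) hB0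
      _ ≤ _ := by nlinarith [mul_le_mul_of_nonneg_right hc a3.le]
  · simpa only [Cert.cost, sum_range_zero] using dec a l h
  · simpa only [sum_range_zero] using dec lo l h
  · simp only [Cert.first, sum_range_one, sum_range_zero, Nat.cast_one, one_mul, Nat.cast_zero,
      zero_div, add_zero, sub_zero]
    have b1 : BK (1 / 20) 0 + e0 ≤ 7 := by norm_num [BK, e0]
    have b2 : max 0 (Real.exp (-E * l₁) - Real.exp (-E * lo)) * eta (1 / 20) l₁ ≤
        Real.exp (-E * l₁) := by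
      refine (mul_le_of_le_one_right (le_max_left _ _) hη).trans (max_le (Real.exp_pos _).le ?_)
      linarith [Real.exp_pos (-E * lo)]
    have b3 : Real.exp (-E * lo) ≤ e * Real.exp (-(x * (lo - lo₀))) := by
      refine le_trans ?_ (mul_le_mul_of_nonneg_right he (Real.exp_pos _).le)
      rw [← Real.exp_add]
      exact Real.exp_le_exp.2 (by nlinarith)
    have b4 : Real.exp (-((E - 2 * X) * (lo - lo₀))) ≤ Real.exp (-(x * (lo - lo₀))) :=
      Real.exp_le_exp.2 (by nlinarith)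
    have b5 := mul_nonneg hy hc1
    have b6 := mul_le_mul_of_nonneg_left hS hy
    have b7 := mul_le_mul_of_nonneg_left b4 (mul_nonneg hY hS0)
    have b8 := mul_le_mul_of_nonneg_left b1 (Real.exp_pos (-E * lo)).le
    unfold cc at b5
    nlinarith

theorem vv (a b c : ℕ) (h : a * b * 1000 ≤ c * 23 * 1000000000000000000) :
    v a * (100 * v b) ≤ 23 / 10 * v c := by
  have : (a : ℝ) * b * 1000 ≤ c * 23 * 1000000000000000000 := by exact_mod_cast h
  unfold v
  nlinarith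

/-- the repulsion of the second zero -/
theorem rep (hL : LpS) (hA : AdmS) (hF : FfS) {i ls R : ℕ} (h1 : 11 ≤ i) (h2 : i ≤ 15)
    (h : R * (FU (i * 100) 0 (ls + 10) - FD (i * 100) 0 ls) * 1000 ≤
      min (FD (i * 100) 1 0 - 375200000000000000) ((FD (i * 100) 1 0 - 250200000000000000) / 2) *
        23 * 1000000000000000000) {l₁ l₂ : ℝ} (h0 : 0 < l₁) (hs : ml ls ≤ l₂) (hc : LCI l₁ l₂) :
    v R * Real.exp (-(i / 10 * (l₂ - ml ls))) ≤ 23 / 10 * l₁ := by
  have hi : (11 : ℝ) ≤ i := by exact_mod_cast h1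
  have hi' : (i : ℝ) ≤ 15 := by exact_mod_cast h2
  have hx : (0 : ℝ) < i / 10 := by positivity
  have ex : ml (i * 100) = i / 10 := by unfold ml; push_cast; ring
  have eF : ∀ z, FF (i * 100) z = Lr (par (i / 10)) (i / 10) z := fun z => by rw [FF, ex]
  have a1 := (hF.2 (i * 100) 1 0 (by omega)).1
  have a2 := (hF.2 (i * 100) 0 (ls + 10) (by omega)).2
  have a3 := (hF.2 (i * 100) 0 ls (by omega)).1
  rw [eF, show ml 1 - ml 0 = c0 by norm_num [ml, c0]] at a1
  rw [eF, show ml 0 - ml (ls + 10) = -(ml ls + 1 / 100) by rw [ml_add]; norm_num [ml]] at a2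
  rw [eF, show ml 0 - ml ls = -ml ls by norm_num [ml]] at a3
  have a4 := le_v_sub (FU (i * 100) 0 (ls + 10)) (FD (i * 100) 0 ls)
  have a5 := del_pos hx (show -(ml ls + 1 / 100) < -ml ls by linarith)
  have a6 := gap (s := ml ls) hx (sub_nonneg.2 hs) h0.le
  rw [add_sub_cancel] at a6
  have a7 : Lr (par (i / 10)) (i / 10) (l₁ - l₂) ≤ Lr (par (i / 10)) (i / 10) (-l₂) :=
    (hL _ _ (hA.1 _ hx (by linarith))).2.2.1 (by linarith)
  have a8 := vv _ _ _ h
  have hm : i ∈ Icc 8 35 := mem_Icc.2 ⟨by omega, by omega⟩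
  have a9 : v (min (FD (i * 100) 1 0 - 375200000000000000)
      ((FD (i * 100) 1 0 - 250200000000000000) / 2)) ≤
      Lr (par (i / 10)) (i / 10) (-l₂) - Lr (par (i / 10)) (i / 10) (l₁ - l₂) := by
    rcases hc with hc | hc
    · have := hc i hm
      refine (v_mono (min_le_left _ _)).trans ?_
      rw [v_sub_max, show v 375200000000000000 = 3 / 8 + 20 * e0 by norm_num [v, e0]]
      unfold Fp at this
      exact max_le (by linarith) (by linarith)
    · have := hc i hm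
      refine (v_mono (min_le_right _ _)).trans ((v_div_le _ _).trans ?_)
      rw [v_sub_max, show v 250200000000000000 = 2 / 8 + 20 * e0 by norm_num [v, e0],
        div_le_iff₀ (by norm_num), Nat.cast_ofNat]
      unfold Fp at this
      exact max_le (by linarith) (by linarith)
  clear h
  generalize v (FU (i * 100) 0 (ls + 10) - FD (i * 100) 0 ls) = D at a4 a8
  generalize v (min _ _) = m at a8 a9
  have hD : 0 < D := by linarith
  have b1 : 0 ≤ 100 * l₁ * Real.exp (i / 10 * (l₂ - ml ls)) := by positivity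
  have b2 := mul_le_mul_of_nonneg_left (show Lr (par (i / 10)) (i / 10) (-(ml ls + 1 / 100)) -
    Lr (par (i / 10)) (i / 10) (-ml ls) ≤ D by linarith) b1
  have b3 : v R ≤ 23 / 10 * l₁ * Real.exp (i / 10 * (l₂ - ml ls)) :=
    le_of_mul_le_mul_right (by linarith) hD
  rw [Real.exp_neg, ← div_eq_mul_inv, div_le_iff₀ (Real.exp_pos _)]
  exact b3

end TcL

open TcL in
theorem tcOf : TcOf := by
  intro hL hA hX hF hS E i ls d h
  simp only [tcOk, Bool.and_eq_true, Nat.ble_eq, Nat.add_eq, Nat.mul_eq, Nat.sub_eq, div_eq,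
    mn_eq] at h
  obtain ⟨⟨⟨⟨⟨⟨⟨⟨⟨⟨e1, e2⟩, i1⟩, i2⟩, s1⟩, s2⟩, hd⟩, c1⟩, k1⟩, r1⟩, r2⟩ := h
  obtain ⟨d1, d2, d3⟩ := hS.2.2.2.2.1 d hd
  have hd' := hd
  simp only [okD, Bool.and_eq_true, Nat.ble_eq] at hd'
  obtain ⟨⟨o1, o2⟩, o3⟩ := hd'
  refine ⟨∅, {toD d}, ⟨by norm_num, by norm_num, Set.finite_empty, Set.finite_singleton _,
    fun _ h => h.elim, ?_⟩, fun Ds Es _ hE l₁ l₂ h0 h1 hs hc => ?_⟩
  · rintro _ rfl
    exact ⟨div_pos (Nat.cast_pos.2 o1) (by norm_num), div_pos (Nat.cast_pos.2 o2) (by norm_num),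
      ml_pos o3⟩
  have hi : (11 : ℝ) ≤ i := by exact_mod_cast i1
  have hi' : (i : ℝ) ≤ 15 := by exact_mod_cast i2
  have el : ml (ls - 1) = ml ls - c0 := by rw [ml_sub s1]; norm_num [ml, c0]
  have hB := hS.1 ((ls - 1) / 50)
  have he : Real.exp (-ml E * ml (ls - 1)) ≤ v (sU (yU (E * (ls - 1) * 1000))) := by
    refine le_trans (le_of_eq ?_) ((hX.1 _).2.2.2.trans (le_sU _))
    congr 1
    unfold ml
    rw [Nat.cast_mul, Nat.cast_mul, Nat.cast_ofNat]
    ring
  have hR : 7 * v (sU (yU (E * (ls - 1) * 1000))) +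
      v (dU (mU (sU (yU (E * (ls - 1) * 1000))) (BU ((ls - 1) / 50))) (cD d (ls - 1))) *
        v (SU d + 10000000000000) ≤ v (tR E ls d) := by
    simp only [tR, Nat.add_eq, Nat.mul_eq, Nat.sub_eq, div_eq]
    rw [v_add (_ * 7), mul_comm _ 7, v_mul, Nat.cast_ofNat]
    exact add_le_add le_rfl (le_mU _ _)
  have hR1 : v (tR E ls d) ≤ 23 / 100 := (v_mono r1).trans (by norm_num [v])
  have ht : 0 ≤ l₂ - ml ls := sub_nonneg.2 hs
  have hR2 : v (tR E ls d) * Real.exp (-(i / 10 * (l₂ - ml ls))) ≤ 23 / 10 * l₁ := by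
    rcases hc with hc | ⟨hc, hc'⟩
    · exact rep hL hA hF i1 i2 r2 h0 hs hc
    · have a1 : ml ls ≤ 6 := (ml_mono s2).trans (by norm_num [ml])
      have a2 : Real.exp (-(i / 10 * (l₂ - ml ls))) ≤ Real.exp (-l₂) :=
        Real.exp_le_exp.2 (by nlinarith)
      have a3 := mul_le_mul hR1 (a2.trans hc') (Real.exp_pos _).le (by norm_num)
      linarith
  refine cert (X := xD d / 10000) (x := i / 10) (lo₀ := ml (ls - 1)) (κ := (ls - 1) / 50)
    (Y := v (dU (mU (sU (yU (E * (ls - 1) * 1000))) (BU ((ls - 1) / 50))) (cD d (ls - 1))))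
    (S := v (SU d + 10000000000000)) (hE rfl)
    (div_nonneg (Nat.cast_nonneg _) (by norm_num)) (by linarith) ?_ h0
    (by linarith) (by omega) ?_ (v_nonneg _) hB.1 (v_nonneg _) he ?_
    (fun a ha => (d3 _ a (ml_nonneg _) ha).2) (d3 l₁ l₁ h0.le le_rfl).1.le (hS.2.1 l₁ h0.le).2 ?_
    (v_nonneg _) ?_
  · have : (i : ℝ) * 1000 + xD d * 2 ≤ E * 10 := by exact_mod_cast k1
    unfold ml
    linarith
  · have := cast_div_le (ls - 1) 50
    unfold ml
    rw [Nat.cast_ofNat] at this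
    linarith
  · have a1 := le_dU (mU (sU (yU (E * (ls - 1) * 1000))) (BU ((ls - 1) / 50))) _ c1
    rw [div_le_iff₀ (v_pos c1)] at a1
    exact (le_mU _ _).trans (a1.trans
      (mul_le_mul_of_nonneg_left (d2 _ _ (ml_nonneg _) le_rfl) (v_nonneg _)))
  · rw [v_add, show v 10000000000000 = e0 by norm_num [v, e0]]
    linarith
  · rw [show l₂ - c0 - ml (ls - 1) = l₂ - ml ls by rw [el]; ring]
    have a1 := mul_le_mul_of_nonneg_right hR (Real.exp_pos (-(i / 10 * (l₂ - ml ls)))).le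
    have a2 : Real.exp (-(i / 10 * (l₂ - ml ls))) ≤ 1 :=
      Real.exp_le_one_iff.2 (neg_nonpos.2 (mul_nonneg (by linarith) ht))
    have a3 := mul_le_of_le_one_right (v_nonneg (tR E ls d)) a2
    have a4 := fin (E := ml E) ((ml_mono e1).trans' (by norm_num [ml])) h0 h1 (a3.trans hR1) hR2
    linarith

end Pool.Agent.MP_c5bf7b_nt.H25L.Nm
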