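import Pool.Agent.MP_c5bf7b_nt.H25L.SpecN

/-! Row XP: bounds for the exponential function. -/

set_option autoImplicit false

namespace Pool.Agent.MP_c5bf7b_nt.H25L.Nm

open Finset

namespace XpL

theorem t5_eq (p : ℕ) : (t5 p : ℝ) = 131941395333120000000000000000000000000000000000000000000000 *
    ∑ m ∈ range 6, ((p : ℝ) / 256000000000) ^ m / m.factorial := by
  simp only [t5, Nat.add_eq, Nat.mul_eq, sum_range_succ, range_zero, sum_empty, Nat.factorial]
  push_cast
  ring

theorem two_pow : (2 : ℝ) ^ 28576 * 2 ^ 96 = (2 ^ 112) ^ 256 := by rw [← pow_add, ← pow_mul]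

theorem exp_pow (p : ℕ) : Real.exp (p / 10 ^ 9) = Real.exp (p / 256000000000) ^ 256 := by
  rw [← Real.exp_nat_mul]
  congr 1
  push_cast
  ring

theorem lo (q : ℕ) (y : ℝ) (h : (q : ℝ) / 2 ^ 112 ≤ y) :
    vP ((q.pow 256).shiftRight 28576) ≤ y ^ 256 := by
  refine le_trans ?_ (pow_le_pow_left₀ (by positivity) h 256)
  rw [vP, div_pow, ← two_pow, ← div_div]
  refine div_le_div_of_nonneg_right ((shr_le _ _).trans (le_of_eq ?_)) (by positivity)
  rw [Nat.pow_eq, Nat.cast_pow]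

theorem hi (q : ℕ) (y : ℝ) (h0 : 0 ≤ y) (h : y ≤ (q : ℝ) / 2 ^ 112) :
    y ^ 256 ≤ vP ((q.pow 256).shiftRight 28576).succ := by
  refine le_trans (pow_le_pow_left₀ h0 h 256) ?_
  rw [vP, div_pow, ← two_pow, ← div_div]
  refine div_le_div_of_nonneg_right (le_trans (le_of_eq ?_) (le_shr _ _)) (by positivity)
  rw [Nat.pow_eq, Nat.cast_pow]

theorem xL_le (p : ℕ) : vP (xL p) ≤ Real.exp (p / 10 ^ 9) := by
  rw [exp_pow]
  refine lo _ _ ?_
  refine le_trans ?_ (Real.sum_le_exp_of_nonneg (by positivity) 6)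
  rw [div_le_iff₀ (by positivity), div_eq, shl_eq]
  refine (cast_div_le _ _).trans (le_of_eq ?_)
  rw [Nat.cast_mul, t5_eq]
  push_cast
  ring

theorem le_xU (p : ℕ) : Real.exp (p / 10 ^ 9) ≤ vP (xU p) := by
  unfold xU
  cases h : p.ble 256000000000
  · rw [cond_false, vP, shl_eq, Nat.pow_eq, div_eq, Nat.cast_mul, Nat.cast_pow, Nat.cast_pow,
      Nat.cast_ofNat, Nat.cast_ofNat, mul_div_assoc, div_self (by positivity), mul_one]
    have h1 := le_cast_div p 1000000000 (by norm_num)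
    refine le_trans (Real.exp_le_exp.2 (le_of_eq_of_le (by norm_num) h1)) ?_
    rw [← mul_one ((p / 1000000000 + 1 : ℕ) : ℝ), Real.exp_nat_mul]
    exact pow_le_pow_left₀ (Real.exp_pos _).le Real.exp_one_lt_three.le _
  · have h1 : (p : ℝ) ≤ 256000000000 := by exact_mod_cast Nat.le_of_ble_eq_true h
    rw [cond_true, exp_pow]
    refine hi _ _ (Real.exp_pos _).le ?_
    refine le_trans (Real.exp_bound' (by positivity) ((div_le_one (by norm_num)).2 h1)
      (by norm_num : 0 < 6)) ?_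
    rw [le_div_iff₀ (by positivity), div_eq, shl_eq]
    refine le_trans ?_ (le_cast_div _ _ (by norm_num))
    rw [Nat.add_eq, Nat.mul_eq, Nat.pow_eq, Nat.cast_mul, Nat.cast_add, Nat.cast_mul, t5_eq]
    generalize ∑ m ∈ range 6, ((p : ℝ) / 256000000000) ^ m / m.factorial = S
    have : (0 : ℝ) ≤ (p : ℝ) ^ 6 := by positivity
    simp only [Nat.factorial, div_pow]
    push_cast
    linarith

theorem pos_aux (q s k n : ℕ) (h : 2 ^ s ≤ q) (hn : n ≤ s * k) : 0 < (q.pow k).shiftRight n := by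
  rw [shr_eq, Nat.pow_eq]
  refine Nat.div_pos ((Nat.pow_le_pow_right (by norm_num) hn).trans ?_) (by positivity)
  rw [pow_mul]
  exact Nat.pow_le_pow_left h k

theorem xL_pos (p : ℕ) : 0 < xL p := by
  refine pos_aux _ 112 _ _ ?_ (by norm_num)
  rw [div_eq, shl_eq, Nat.le_div_iff_mul_le (by norm_num), mul_comm]
  exact Nat.mul_le_mul_right _ (Nat.le_add_left _ _)

theorem inv_vP (a : ℕ) :
    ((6277101735386680763835789423207666416102355444464034512896 : ℕ) : ℝ) / a / 2 ^ 96 =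
      (vP a)⁻¹ := by
  rw [vP, inv_div, div_right_comm]
  congr 1
  norm_num

theorem yL_le (p : ℕ) : vP (yL p) ≤ Real.exp (-(p / 10 ^ 9)) := by
  rw [Real.exp_neg]
  refine le_trans ?_ (inv_anti₀ (Real.exp_pos _) (le_xU p))
  rw [← inv_vP]
  exact div_le_div_of_nonneg_right (cast_div_le _ _) (by positivity)

theorem le_yU (p : ℕ) : Real.exp (-(p / 10 ^ 9)) ≤ vP (yU p) := by
  rw [Real.exp_neg]
  have h : 0 < vP (xL p) := div_pos (by exact_mod_cast xL_pos p) (by positivity)
  refine le_trans (inv_anti₀ h (xL_le p)) ?_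
  rw [← inv_vP]
  exact div_le_div_of_nonneg_right (le_cast_div _ _ (xL_pos p)) (by positivity)

end XpL

open XpL in
theorem xp : XpS := by
  refine ⟨fun p => ⟨xL_le p, le_xU p, yL_le p, le_yU p⟩, fun x θ k => ?_, fun E j0 k => ?_⟩
  · refine le_trans ?_ (v_pwU _ _ _)
    rw [v_one, one_mul]
    refine le_trans (le_of_eq ?_) (pow_le_pow_left₀ (Real.exp_pos _).le (le_xU _) k)
    rw [← Real.exp_nat_mul]
    congr 1
    simp only [ml, Nat.mul_eq]
    push_cast
    ring
  · refine le_trans ?_ (v_pwU _ _ _)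
    refine le_trans (le_of_eq ?_) (mul_le_mul ((le_yU _).trans (le_sU _))
      (pow_le_pow_left₀ (Real.exp_pos _).le (le_yU _) k) (by positivity) (v_nonneg _))
    rw [← Real.exp_nat_mul, ← Real.exp_add]
    congr 1
    simp only [ml, Nat.mul_eq]
    push_cast
    ring

end Pool.Agent.MP_c5bf7b_nt.H25L.Nm
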