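import Pool.Agent.MP_c5bf7b_nt.H25L.All
import Pool.Agent.MP_c5bf7b_nt.H25L.Xp
import Pool.Agent.MP_c5bf7b_nt.H25L.Ff
import Pool.Agent.MP_c5bf7b_nt.H25L.Ch
import Pool.Agent.MP_c5bf7b_nt.H25L.Rem
import Pool.Agent.MP_c5bf7b_nt.H25L.Ir
import Pool.Agent.MP_c5bf7b_nt.H25L.Ok
import Pool.Agent.MP_c5bf7b_nt.H25L.Ad
import Pool.Agent.MP_c5bf7b_nt.H25L.Sm
import Pool.Agent.MP_c5bf7b_nt.H25L.Crl
import Pool.Agent.MP_c5bf7b_nt.H25L.Walk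
import Pool.Agent.MP_c5bf7b_nt.H25L.Cer
import Pool.Agent.MP_c5bf7b_nt.H25L.Dev
import Pool.Agent.MP_c5bf7b_nt.H25L.Rc1
import Pool.Agent.MP_c5bf7b_nt.H25L.Rc2
import Pool.Agent.MP_c5bf7b_nt.H25L.Sub
import Pool.Agent.MP_c5bf7b_nt.H25L.Cs
import Pool.Agent.MP_c5bf7b_nt.H25L.Tc
import Pool.Agent.MP_c5bf7b_nt.H25L.Asm
import Pool.Agent.MP_c5bf7b_nt.H25L.Ca0
import Pool.Agent.MP_c5bf7b_nt.H25L.Ca1
import Pool.Agent.MP_c5bf7b_nt.H25L.Ca2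
import Pool.Agent.MP_c5bf7b_nt.H25L.Ca3

/-! The numerical part holds, hence the bound for the least prime in a progression. -/

set_option autoImplicit false

namespace Pool.Agent.MP_c5bf7b_nt.H25L.Nm.Ca

open Pool.Agent.MP_c5bf7b_nt.H38

theorem ff : FfS := ffOf xp
theorem rm : RemS := remOf xp ff ch
theorem ad : AdS := adOf lp adm xp ff
theorem sm : SmS := smOf xp
theorem cer : CerS :=
  cerOf xp rm (okOf xp ff ch rm (irOf xp ch)) ad sm crl (walkOf xp ad sm)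
theorem dv : DevS := devOf lp adm pair xp ff ch
theorem sb : SubS := subOf (rc1Of lp adm ff dv) (rc2Of lp adm ff dv)
theorem cs : CsS := csOf lp adm ff dv
theorem tc : TcS := tcOf lp adm xp ff sm

theorem sA0 : Ev (StAB 2775 3 7 0 470) := stZ (sb.2 _ _ _ _ _ (by norm_num) zA_ok)
theorem sA1 : Ev (StAB 2775 3 7 0 517) :=
  stA (jl := 354) sA0 (sb.1 _ _ _ _ _ _ (by norm_num) eA0_ok) (cer _ _ cA0_a cA0_b cA0_t)
theorem sA2 : Ev (StAB 2775 3 7 0 580) :=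
  stA (jl := 325) sA1 (sb.1 _ _ _ _ _ _ (by norm_num) eA1_ok) (cer _ _ cA1_a cA1_b cA1_t)
theorem sA3 : Ev (StAB 2775 3 7 0 643) :=
  stA (jl := 290) sA2 (sb.1 _ _ _ _ _ _ (by norm_num) eA2_ok) (cer _ _ cA2_a cA2_b cA2_t)
theorem sA4 : Ev (StAB 2775 3 7 0 744) :=
  stA (jl := 246) sA3 (sb.1 _ _ _ _ _ _ (by norm_num) eA3_ok) (cer _ _ cA3_a cA3_b cA3_t)
theorem sA5 : Ev (StAB 2775 3 7 0 806) :=
  stA (jl := 222) sA4 (sb.1 _ _ _ _ _ _ (by norm_num) eA4_ok) (cer _ _ cA4_a cA4_b cA4_t)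
theorem sB0 : Ev (StAB 2775 2 2 0 500) := stZ (sb.2 _ _ _ _ _ (by norm_num) zB_ok)
theorem sB1 : Ev (StAB 2775 2 2 0 729) :=
  stB (jl := 346) sB0 (sb.1 _ _ _ _ _ _ (by norm_num) eB0_ok) (cer _ _ cB0_a cB0_b cB0_t)
theorem sB2 : Ev (StAB 2775 2 2 0 806) :=
  stB (jl := 307) sB1 (sb.1 _ _ _ _ _ _ (by norm_num) eB1_ok) (cer _ _ cB1_a cB1_b cB1_t)
theorem sC0 : Ev (StC 2775 0 40) := stT (by norm_num) (cs _ _ _ _ eT_ok) (tc _ _ _ _ tc_ok)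
theorem sC1 : Ev (StC 2775 0 87) :=
  stC (jl := 796) sC0 (by norm_num) (cs _ _ _ _ eC0_ok) (cer _ _ cC0_a cC0_b cC0_t)
theorem sC2 : Ev (StC 2775 0 198) :=
  stC (jl := 547) sC1 (by norm_num) (cs _ _ _ _ eC1_ok) (cer _ _ cC1_a cC1_b cC1_t)
theorem sC3 : Ev (StC 2775 0 350) :=
  stC (jl := 381) sC2 (by norm_num) (cs _ _ _ _ eC2_ok) (cer _ _ cC2_a cC2_b cC2_t)
theorem sC4 : Ev (StC 2775 0 478) :=
  stC (jl := 294) sC3 (by norm_num) (cs _ _ _ _ eC3_ok) (cer _ _ cC3_a cC3_b cC3_t)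
theorem sC5 : Ev (StC 2775 0 601) :=
  stC (jl := 234) sC4 (by norm_num) (cs _ _ _ _ eC4_ok) (cer _ _ cC4_a cC4_b cC4_t)
theorem sC6 : Ev (StC 2775 0 703) :=
  stC (jl := 194) sC5 (by norm_num) (cs _ _ _ _ eC5_ok) (cer _ _ cC5_a cC5_b cC5_t)
theorem sC7 : Ev (StC 2775 0 760) :=
  stC (jl := 175) sC6 (by norm_num) (cs _ _ _ _ eC6_ok) (cer _ _ cC6_a cC6_b cC6_t)
theorem sC8 : Ev (StC 2775 0 788) :=
  stC (jl := 167) sC7 (by norm_num) (cs _ _ _ _ eC7_ok) (cer _ _ cC7_a cC7_b cC7_t)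
theorem sC9 : Ev (StC 2775 0 797) :=
  stC (jl := 165) sC8 (by norm_num) (cs _ _ _ _ eC8_ok) (cer _ _ cC8_a cC8_b cC8_t)
theorem sC10 : Ev (StC 2775 0 803) :=
  stC (jl := 163) sC9 (by norm_num) (cs _ _ _ _ eC9_ok) (cer _ _ cC9_a cC9_b cC9_t)
theorem sC11 : Ev (StC 2775 0 806) :=
  stC (jl := 162) sC10 (by norm_num) (cs _ _ _ _ eC10_ok) (cer _ _ cC10_a cC10_b cC10_t)

theorem lin : LinS (ml 2775 + 2 * (1 / 20)) := by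
  obtain ⟨Ds, Es, hP, hN⟩ := nums_of (jl := 161) (by norm_num) (cer _ _ cG_a cG_b cG_t)
    sA5 sB2 sC11
  exact lin_of_nums _ _ _ Ds Es hP (by norm_num [ml]) (by norm_num [ml]) hN

end Pool.Agent.MP_c5bf7b_nt.H25L.Nm.Ca
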