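import Pool.Agent.MP_c5bf7b_nt.H25L.Dz2a

/-! Row DZ2: own terms, Gram terms and the assembly. -/

set_option autoImplicit false

namespace Pool.Agent.MP_c5bf7b_nt.H25L

open Finset Complex ArithmeticFunction Pool.Agent.MP_c5bf7b_nt.H38 Classical

namespace Dz2L

theorem par_zero (x : ℝ) : par x 0 = 1 := by simp [par]

theorem hp_of {l : ℝ} {W ζ : ℂ} (hl : 0 ≤ l) (h0 : 0 < ζ.re) (h1 : W.re ≤ 10)
    (h2 : |ζ.im - W.im| ≤ l → W.re ≤ ζ.re) : Hp l W ζ := by
  refine ⟨h2, ?_⟩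
  have : 0 ≤ Real.log (1 + |ζ.im - W.im| / l) :=
    Real.log_nonneg (le_add_of_nonneg_right (div_nonneg (abs_nonneg _) hl))
  linarith

theorem low {Y : Multiset ℂ} {g : ℂ → ℝ} {c : ℝ} (h : ∀ ζ ∈ Y, -c ≤ g ζ) :
    -(Y.card * c) ≤ (Y.map g).sum := by
  have := Multiset.card_nsmul_le_sum (s := Y.map g) (a := -c) fun y hy => by
    obtain ⟨ζ, a, rfl⟩ := Multiset.mem_map.1 hy
    exact h ζ a
  simpa using this

variable {q : ℕ} [NeZero q] {N E : Ch q → Multiset ℂ} {D : DZ} {ε Lm Th T : ℝ} {ι : Type}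
  {J : Finset ι} {ch : ι → Ch q} {z : ι → ℂ} {e : ι → Prop} {c : ι → ℝ}

theorem card_le (hD : D.Ok) (h : Exc N E D Th T) (χ : Ch q) : (E χ).card ≤ 4 :=
  ((single_le_sum (f := fun χ => (E χ).card) (fun _ _ => Nat.zero_le _) (mem_univ χ)).trans
    h.card).trans (hD.nE2.trans (by norm_num))

/-- The data of the test points. -/
theorem dat (hD : D.Ok) (h : Adm (par D.P.x) D.P.x) (hF : Fam N E D Lm Th T J ch z e)
    (hc : ∀ j ∈ J, D.Co (z j).re (c j)) : ∀ k, ∃ m d : ℝ, k ∈ J → Dat D (c k) m d ∧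
      ∀ ν, m * F D.P.x d ν - (if e k then D.cE else 0) ≤ F D.P.x ((z k).re - D.P.w) ν := by
  intro k
  by_cases hk : k ∈ J
  swap
  · exact ⟨0, 0, fun a => absurd a hk⟩
  by_cases he : e k
  · have m1 : z k ∈ E (ch k) := Multiset.mem_of_le (hF.sub (ch k))
      (Multiset.mem_map_of_mem z (mem_filter.2 ⟨hk, rfl, he⟩))
    obtain ⟨m, d, a, b, r, s⟩ := cost h ((hF.tst k hk).cost _ m1)
    rw [neg_sub] at r s
    refine ⟨m, d, fun _ => ⟨?_, by simpa only [if_pos he] using s⟩⟩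
    rcases r with ⟨rfl, rfl⟩ | rfl
    · exact dat_one (hc k hk) b
    · exact dat_zero hD (hc k hk) a
  · have m1 : z k ∈ N (ch k) - E (ch k) := Multiset.mem_of_le
      (le_tsub_of_add_le_left (hF.sub' (ch k)))
      (Multiset.mem_map_of_mem z (mem_filter.2 ⟨hk, rfl, he⟩))
    have a := (hF.tst k hk).near _ m1 (by simpa using Real.log_natCast_nonneg q)
    exact ⟨1, _, fun _ => ⟨dat_one (hc k hk) (by linarith), fun ν => by simp [he]⟩⟩

theorem own (hD : D.Ok) (h : Adm (par D.P.x) D.P.x) (h0 : ∀ χ, ∀ ζ ∈ N χ, 0 < ζ.re)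
    (hL : 10 ≤ Lm) (hK : KFa q N (par D.P.x) D.P.x ε Lm Th) (hF : Fam N E D Lm Th T J ch z e)
    {m d : ι → ℝ} (hm : ∀ k ∈ J, ∀ ν, m k * F D.P.x (d k) ν - (if e k then D.cE else 0) ≤
      F D.P.x ((z k).re - D.P.w) ν) {j : ι} (hj : j ∈ J) :
    Lr (par D.P.x) D.P.x ((z j).re - D.P.w) - 1 / 8 -
      (((E (ch j)).card - if e j then 1 else 0 : ℕ) : ℝ) * D.cE - ε +
      ∑ k ∈ J, (if ch j = ch k ∧ j ≠ k then m k * F D.P.x (d k) ((z k).im - (z j).im) else 0) ≤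
      -(Kn q (par D.P.x) D.P.x (ch j) (D.P.w + (z j).im * I)).re := by
  have t := hF.tst j hj
  have k1 := hK (ch j) (D.P.w + (z j).im * I) _ _ (hF.sub' (ch j)) (card_le hD hF.exc _)
    (fun ζ a => by
      obtain ⟨k, b, rfl⟩ := Multiset.mem_map.1 a
      exact (hF.tst k (mem_filter.1 b).1).re)
    (by simpa using hD.p.w0) (by simpa using hD.p.w1.trans hL)
    (by simpa using t.im.trans (by linarith [hF.exc.th, (abs_nonneg _).trans t.im]))
    (fun ζ a => hp_of (Real.log_natCast_nonneg q)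
      (h0 _ _ (Multiset.mem_of_le (Multiset.sub_le_self _ _) a)) (by simpa using hD.p.w1)
      (by simpa using t.near ζ a))
  obtain ⟨R, hR⟩ := Multiset.le_iff_exists_add.1 (hF.sub (ch j))
  have k2 : -(R.card * D.cE) ≤
      (R.map fun ζ => F D.P.x (ζ.re - D.P.w) (ζ.im - (z j).im)).sum := low fun ζ a => by
    simpa using cost' h (t.cost ζ (hR ▸ Multiset.mem_add.2 (.inr a))) (ζ.im - (z j).im)
  have k3 : ((E (ch j)).card : ℝ) = (∑ k ∈ J, if ch k = ch j ∧ e k then 1 else 0) + R.card := by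
    rw [hR, Multiset.card_add, Multiset.card_map, sum_boole, Nat.cast_add]
    rfl
  have k4 : ((E (ch j)).card : ℝ) - (if e j then 1 else 0) ≤
      (((E (ch j)).card - if e j then 1 else 0 : ℕ) : ℝ) := by
    have : (E (ch j)).card ≤ ((E (ch j)).card - if e j then 1 else 0) + if e j then 1 else 0 :=
      le_tsub_add
    have := (Nat.cast_le (α := ℝ)).2 this
    push_cast at this
    linarith
  have k5 : ∑ k ∈ J, ((if ch j = ch k ∧ j ≠ k then m k * F D.P.x (d k) ((z k).im - (z j).im)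
      else 0) + (if j = k then Lr (par D.P.x) D.P.x ((z j).re - D.P.w) +
        (if e j then 1 else 0) * D.cE else 0) - (if ch k = ch j ∧ e k then 1 else 0) * D.cE) ≤
      ∑ k ∈ J, ((if ch k = ch j ∧ e k then F D.P.x ((z k).re - D.P.w) ((z k).im - (z j).im)
        else 0) + if ch k = ch j ∧ ¬ e k then F D.P.x ((z k).re - D.P.w) ((z k).im - (z j).im)
        else 0) := by
    refine sum_le_sum fun k hk => ?_
    have := hm k hk ((z k).im - (z j).im)
    by_cases a : j = k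
    · subst a
      by_cases b : e j <;> simp [b, F_zero]
    · by_cases a' : ch j = ch k
      · by_cases b : e k <;> simpa [a, a', b] using this
      · simp [a, a', Ne.symm a']
  rw [sum_sub_distrib, sum_add_distrib, sum_add_distrib, sum_ite_eq, if_pos hj, ← sum_mul] at k5
  rw [Rhs, if_neg t.ne, par_zero] at k1
  simp only [F_at] at k1
  rw [Multiset.map_add, Multiset.sum_add, hR, Multiset.map_add, Multiset.sum_add, Multiset.map_map,
    Multiset.map_map] at k1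
  change _ ≤ 1 / 8 - (∑ k ∈ _, F D.P.x ((z k).re - D.P.w) ((z k).im - (z j).im) + _ +
    ∑ k ∈ _, F D.P.x ((z k).re - D.P.w) ((z k).im - (z j).im)) + ε at k1
  have k6 := mul_le_mul_of_nonneg_right k4 hD.cE0
  rw [k3] at k6
  rw [sum_filter, sum_filter] at k1
  linarith

theorem gram (hD : D.Ok) (h : Adm (par D.P.x) D.P.x) (h0 : ∀ χ, ∀ ζ ∈ N χ, 0 < ζ.re)
    (hL : 10 ≤ Lm) (hK : KFa q N (par D.P.x) D.P.x ε Lm Th) (hF : Fam N E D Lm Th T J ch z e)
    {j k : ι} (hj : j ∈ J) (hk : k ∈ J) :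
    (Kn q (par D.P.x) D.P.x (ch j * (ch k)⁻¹) (D.P.v + ((z j).im - (z k).im : ℝ) * I)).re ≤
      1 / 8 + ε + (E (ch j * (ch k)⁻¹)).card * D.cF +
        if ch j = ch k then F D.P.x (-D.P.v) ((z j).im - (z k).im) - 1 / 8 else 0 := by
  have a : |(z j).im - (z k).im| ≤ 2 * T :=
    (abs_sub _ _).trans (by linarith [(hF.tst j hj).im, (hF.tst k hk).im])
  generalize (z j).im - (z k).im = ν at a ⊢
  have k1 := hK (ch j * (ch k)⁻¹) (D.P.v + ν * I) _ 0 (by simpa using hF.exc.le _)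
    (card_le hD hF.exc _) (by simp) (by simpa using hD.p.v0) (by simpa using hD.p.v1.trans hL)
    (by simpa using a.trans hF.exc.th)
    (fun ζ b => hp_of (Real.log_natCast_nonneg q)
      (h0 _ _ (Multiset.mem_of_le (Multiset.sub_le_self _ _) b)) (by simpa using hD.p.v1)
      (fun r => by
        have r' : |ζ.im - ν| ≤ Real.log q := by simpa using r
        have := abs_add_le (ζ.im - ν) ν
        rw [sub_add_cancel] at this
        simpa using hF.exc.far _ ζ b (by linarith)))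
  have k2 : -((E (ch j * (ch k)⁻¹)).card * D.cF) ≤
      ((E (ch j * (ch k)⁻¹)).map fun ζ => F D.P.x (ζ.re - D.P.v) (ζ.im - ν)).sum :=
    low fun ζ b => by simpa using cost' h (hF.exc.cost _ ζ b) (ζ.im - ν)
  rw [Rhs, par_zero, add_zero] at k1
  simp only [F_at, mul_inv_eq_one] at k1
  have k3 : (Lp (par D.P.x) D.P.x (-(D.P.v + ν * I))).re = F D.P.x (-D.P.v) ν := by
    have := F_at D.P.x D.P.v ν 0
    rw [zero_sub] at this
    simpa [F_neg] using this
  rw [k3] at k1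
  split_ifs at k1 ⊢ <;> linarith

theorem group (J : Finset ι) (ch : ι → Ch q) (c : ι → ℝ) (g : Ch q → Ch q → ℝ) :
    ∑ j ∈ J, ∑ k ∈ J, c j * c k * g (ch j) (ch k) = ∑ χ, ∑ ψ,
      (∑ j ∈ J with ch j = χ, c j) * (∑ j ∈ J with ch j = ψ, c j) * g χ ψ := by
  rw [← sum_fiberwise J ch]
  refine sum_congr rfl fun χ _ => ?_
  simp only [sum_mul]
  rw [sum_comm (s := univ)]
  refine sum_congr rfl fun j hj => ?_
  rw [← sum_fiberwise J ch]
  refine sum_congr rfl fun ψ _ => ?_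
  rw [mul_sum, sum_mul]
  exact sum_congr rfl fun k hk => by rw [(mem_filter.1 hj).2, (mem_filter.1 hk).2]

theorem count (J : Finset ι) (ch : ι → Ch q) (c : ι → ℝ) {n : Ch q → ℝ} {B : ℝ}
    (h0 : ∀ χ, 0 ≤ n χ) (h : ∑ χ, n χ ≤ B) :
    ∑ j ∈ J, ∑ k ∈ J, c j * c k * n (ch j * (ch k)⁻¹) ≤
      B * ∑ j ∈ J, ∑ k ∈ J, c j * c k * if ch j = ch k then 1 else 0 := by
  rw [group J ch c fun χ ψ => n (χ * ψ⁻¹), group J ch c fun χ ψ => if χ = ψ then 1 else 0]
  obtain ⟨C, hC⟩ : ∃ C : Ch q → ℝ, ∀ χ, ∑ j ∈ J with ch j = χ, c j = C χ := ⟨_, fun _ => rfl⟩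
  simp only [hC, mul_ite, mul_one, mul_zero, sum_ite_eq, mem_univ, if_true]
  have a : ∀ χ, ∑ ψ, n (χ * ψ⁻¹) ≤ B := fun χ =>
    (Equiv.sum_comp ((Equiv.inv _).trans (Equiv.mulLeft χ)) n).trans_le h
  have b : ∀ ψ, ∑ χ, n (χ * ψ⁻¹) ≤ B := fun ψ =>
    (Equiv.sum_comp (Equiv.mulRight ψ⁻¹) n).trans_le h
  have a' : ∑ χ, ∑ ψ, C χ * C χ * n (χ * ψ⁻¹) ≤ B * ∑ χ, C χ * C χ := by
    rw [mul_sum]
    refine sum_le_sum fun χ _ => ?_
    rw [← mul_sum, mul_comm]
    exact mul_le_mul_of_nonneg_right (a χ) (mul_self_nonneg _)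
  have b' : ∑ χ, ∑ ψ, C ψ * C ψ * n (χ * ψ⁻¹) ≤ B * ∑ χ, C χ * C χ := by
    rw [mul_sum, sum_comm]
    refine sum_le_sum fun ψ _ => ?_
    rw [← mul_sum, mul_comm]
    exact mul_le_mul_of_nonneg_right (b ψ) (mul_self_nonneg _)
  have r : 2 * ∑ χ, ∑ ψ, C χ * C ψ * n (χ * ψ⁻¹) ≤
      ∑ χ, ∑ ψ, C χ * C χ * n (χ * ψ⁻¹) + ∑ χ, ∑ ψ, C ψ * C ψ * n (χ * ψ⁻¹) := by
    simp only [mul_sum, ← sum_add_distrib]
    refine sum_le_sum fun χ _ => sum_le_sum fun ψ _ => ?_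
    nlinarith [mul_nonneg (h0 (χ * ψ⁻¹)) (mul_self_nonneg (C χ - C ψ))]
  linarith

end Dz2L

open Dz2L in
theorem dz2Of : Dz2Of := by
  intro _ hA hP q _ N E D ε Lm Th T σ ι J ch z e c hD _ h0 hL hε hK hS hF hc s0 s1
  have h := hA.1 _ hD.p.x0 hD.p.x5
  choose m d hm using dat hD h hF hc
  have c0 : ∀ j ∈ J, 0 ≤ c j := fun j hj => (hc j hj).1
  have p1 := hS ι J ch (fun j => (z j).im) c σ s0 fun j hj => ⟨(hF.tst j hj).ne,
    (hF.tst j hj).im.trans (by linarith [hF.exc.th, (abs_nonneg _).trans (hF.tst j hj).im]),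
    c0 j hj⟩
  have p2 := sum_le_sum fun j hj => mul_le_mul_of_nonneg_left
    (own hD h h0 hL hK hF (fun k hk => (hm k hk).2) hj) (c0 j hj)
  have p3 := sum_le_sum fun j hj => sum_le_sum fun k hk => mul_le_mul_of_nonneg_left
    (gram hD h h0 hL hK hF hj hk) (mul_nonneg (c0 j hj) (c0 k hk))
  have p4 := count J ch c (n := fun χ => (E χ).card) (B := D.nE) (fun _ => Nat.cast_nonneg _)
    (by exact_mod_cast hF.exc.card)
  set mx := max 0 (Lr (par D.P.x) D.P.x (-D.P.v) - 1 / 8 + D.nE * D.cF) with hmx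
  let B : ι → ι → ℝ := fun j k =>
    if ch j = ch k ∧ j ≠ k then m k * F D.P.x (d k) ((z k).im - (z j).im) else 0
  have p5 : ∑ j ∈ J, ∑ k ∈ J, ((if ch j = ch k then c j * c k *
      (Lp (fun u => par D.P.x u * Psi D.P.x D.P.γ u) D.P.x (((z j).im - (z k).im : ℝ) * I)).re
      else 0) + σ * (c j * c k * if ch j = ch k then
        F D.P.x (-D.P.v) ((z j).im - (z k).im) - 1 / 8 else 0) +
      σ * (D.nE * D.cF) * (c j * c k * if ch j = ch k then 1 else 0)) ≤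
      ∑ j ∈ J, ∑ k ∈ J, (c j * B j k + c k * B k j +
        if j = k then D.M * (c j * c j) + σ * mx * c j ^ 2 else 0) := by
    refine sum_le_sum fun j hj => sum_le_sum fun k hk => ?_
    by_cases a : j = k
    · subst a
      have b := hD.hM
      have b' : Lr (par D.P.x) D.P.x (-D.P.v) - 1 / 8 + D.nE * D.cF ≤ mx := le_max_right _ _
      rw [re_eq0 (g := fun u => par D.P.x u * Psi D.P.x D.P.γ u)
        ((par_cont _).mul (psi_cont _ _))]
      simp only [B, sub_self, zero_mul, Real.cos_zero, mul_one, F_zero, if_true, ne_eq,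
        not_true, and_false, if_false, mul_zero]
      nlinarith [mul_le_mul_of_nonneg_left b (mul_self_nonneg (c j)),
        mul_le_mul_of_nonneg_left b' (mul_nonneg s0.le (mul_self_nonneg (c j)))]
    · by_cases a' : ch j = ch k
      · have b := pair hP hD h s0 s1 (hm j hj).1 (hm k hk).1 ((z j).im - (z k).im)
        rw [F_sub _ (d k)] at b
        simp only [B, a, a', Ne.symm a, if_true, ne_eq, not_false_eq_true, and_self, if_false]
        linarith
      · simp [B, a, a', Ne.symm a']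
  have p6 : ∑ j ∈ J, ∑ k ∈ J, (if j = k then D.M * (c j * c j) + σ * mx * c j ^ 2 else 0) =
      D.M * ∑ j ∈ J, c j * c j + σ * mx * ∑ j ∈ J, c j ^ 2 := by
    rw [mul_sum, mul_sum, ← sum_add_distrib]
    exact sum_congr rfl fun j hj => by rw [sum_ite_eq, if_pos hj]
  have p7 : ∑ j ∈ J, ∑ k ∈ J, c k * B k j = ∑ j ∈ J, ∑ k ∈ J, c j * B j k := sum_comm
  have p8 : ∑ j ∈ J, ∑ k ∈ J, c j * c k = (∑ j ∈ J, c j) ^ 2 := by rw [sq, sum_mul_sum]
  simp only [sum_add_distrib] at p5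
  rw [p6, p7] at p5
  simp only [← mul_sum] at p5
  simp only [mul_add, sum_add_distrib, ← mul_assoc, ← sum_mul, p8] at p3
  simp only [mul_add, mul_sub, mul_neg, sum_add_distrib, sum_sub_distrib, sum_neg_distrib,
    ← sum_mul] at p2
  have S0 : 0 ≤ ∑ j ∈ J, c j := sum_nonneg c0
  have p9 := mul_le_mul_of_nonneg_left p3 s0.le
  have p10 := mul_le_mul_of_nonneg_left p4 (mul_nonneg s0.le hD.cF0)
  have e1 : ∑ j ∈ J, c j * (2 * (Lr (par D.P.x) D.P.x ((z j).re - D.P.w) - 1 / 8 -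
      (((E (ch j)).card - if e j then 1 else 0 : ℕ) : ℝ) * D.cE) - D.M * c j) =
      2 * (∑ j ∈ J, c j * Lr (par D.P.x) D.P.x ((z j).re - D.P.w) - (∑ j ∈ J, c j) * (1 / 8) -
      ∑ j ∈ J, c j * ((((E (ch j)).card - if e j then 1 else 0 : ℕ) : ℝ) * D.cE)) -
      D.M * ∑ j ∈ J, c j * c j := by
    rw [sum_mul, ← sum_sub_distrib, ← sum_sub_distrib, mul_sum, mul_sum, ← sum_sub_distrib]
    exact sum_congr rfl fun j _ => by ring
  have e2 : 2 * ((∑ j ∈ J, c j) * ε) + σ * ((∑ j ∈ J, c j) ^ 2 * ε) +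
      ε * (1 + 1 / σ) * (1 + ∑ j ∈ J, c j) ^ 2 ≤
      3 * ε * (1 + σ + 1 / σ) * (1 + ∑ j ∈ J, c j) ^ 2 := by
    generalize ∑ j ∈ J, c j = S at S0
    have : 0 < 1 / σ := by positivity
    generalize 1 / σ = τ at this
    have : 0 ≤ ε * (2 + 2 * S + 2 * S ^ 2 + σ * (3 + 6 * S + 2 * S ^ 2) + 2 * τ * (1 + S) ^ 2) := by
      positivity
    nlinarith
  rw [e1]
  simp only [Same] at p1
  simp only [B] at p5
  linarith

end Pool.Agent.MP_c5bf7b_nt.H25L
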