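import Pool.Agent.MP_c5bf7b_nt.H25L.SpecB

/-! Row DZ2, first part: the cost of a zero and the inequality for a pair of zeros. -/

set_option autoImplicit false

namespace Pool.Agent.MP_c5bf7b_nt.H25L

open Finset Complex ArithmeticFunction Pool.Agent.MP_c5bf7b_nt.H38

namespace Dz2L

theorem re_eq {g : ℝ → ℝ} (hg : Continuous g) (x a ν : ℝ) :
    (Lp g x (a + ν * I)).re = ∫ u in (0 : ℝ)..x, g u * Real.exp (-a * u) * Real.cos (ν * u) := by
  have h : IntervalIntegrable (fun t : ℝ => (g t : ℂ) * exp (-(a + ν * I) * t))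
      MeasureTheory.volume 0 x := Continuous.intervalIntegrable (by fun_prop) _ _
  refine (Complex.reCLM.intervalIntegral_comp_comm h).symm.trans ?_
  refine intervalIntegral.integral_congr fun u _ => ?_
  simp [Complex.exp_re, mul_assoc]

theorem re_eq0 {g : ℝ → ℝ} (hg : Continuous g) (x ν : ℝ) :
    (Lp g x (ν * I)).re = ∫ u in (0 : ℝ)..x, g u * Real.cos (ν * u) := by
  simpa using re_eq hg x 0 ν

theorem par_cont (x : ℝ) : Continuous (par x) := by
  unfold par
  fun_prop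

theorem psi_cont (x γ : ℝ) : Continuous (Psi x γ) := by
  unfold Psi
  fun_prop

/-- The real part of the transform of the parabola function. -/
noncomputable def F (x a ν : ℝ) : ℝ := (Lp (par x) x (a + ν * I)).re

theorem F_eq (x a ν : ℝ) :
    F x a ν = ∫ u in (0 : ℝ)..x, par x u * Real.exp (-a * u) * Real.cos (ν * u) :=
  re_eq (par_cont x) x a ν

theorem F_zero (x a : ℝ) : F x a 0 = Lr (par x) x a := by simp [F_eq, Lr]

theorem F_neg (x a ν : ℝ) : F x a (-ν) = F x a ν := by simp [F_eq]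

theorem F_sub (x a s t : ℝ) : F x a (s - t) = F x a (t - s) := by rw [← F_neg, neg_sub]

theorem F_pos {x a : ℝ} (h : Adm (par x) x) (ha : 0 ≤ a) (ν : ℝ) : 0 ≤ F x a ν :=
  h.re _ (by simpa using ha)

theorem F_at (x a t : ℝ) (ζ : ℂ) :
    (Lp (par x) x (ζ - (a + t * I))).re = F x (ζ.re - a) (ζ.im - t) := by
  unfold F
  congr 2
  apply Complex.ext <;> simp

theorem osc_le {x : ℝ} (h : Adm (par x) x) {g₁ g₂ : ℝ → ℝ} (h1 : Continuous g₁)
    (h2 : Continuous g₂) (ν : ℝ) :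
    ∫ u in (0 : ℝ)..x, par x u * g₁ u * Real.cos (ν * u) ≤
      (∫ u in (0 : ℝ)..x, par x u * g₂ u * Real.cos (ν * u)) +
        ∫ u in (0 : ℝ)..x, par x u * |g₁ u - g₂ u| := by
  have c := par_cont x
  rw [← intervalIntegral.integral_add (Continuous.intervalIntegrable (by fun_prop) _ _)
    (Continuous.intervalIntegrable (by fun_prop) _ _)]
  refine intervalIntegral.integral_mono_on h.pos.le (Continuous.intervalIntegrable (by fun_prop) _ _)
    (Continuous.intervalIntegrable (by fun_prop) _ _) fun u hu => ?_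
  have a := h.nonneg u hu.1 hu.2
  have b : (g₁ u - g₂ u) * Real.cos (ν * u) ≤ |g₁ u - g₂ u| := by
    refine (le_abs_self _).trans ?_
    rw [abs_mul]
    exact mul_le_of_le_one_right (abs_nonneg _) (Real.abs_cos_le_one _)
  nlinarith [mul_le_mul_of_nonneg_left b a]

theorem cost {x δ c : ℝ} (h : Adm (par x) x) (hc : Cost x δ c) :
    ∃ m d : ℝ, 1 ≤ m ∧ 0 ≤ d ∧ (m = 1 ∧ d = -δ ∨ d = 0) ∧ ∀ ν, m * F x d ν - c ≤ F x (-δ) ν := by
  rcases hc.2 with a | ⟨m, a, b⟩
  · exact ⟨1, -δ, le_rfl, by linarith, .inl ⟨rfl, rfl⟩, fun ν => by linarith [hc.1]⟩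
  · refine ⟨m, 0, a, le_rfl, .inr rfl, fun ν => ?_⟩
    have e := osc_le h (g₁ := fun _ => m) (g₂ := fun u => Real.exp (δ * u)) continuous_const
      (by fun_prop) ν
    simp only [abs_sub_comm m] at e
    rw [F_eq, F_eq, ← intervalIntegral.integral_const_mul]
    simp only [neg_zero, zero_mul, Real.exp_zero, mul_one, neg_neg]
    have e' : ∀ u, m * (par x u * Real.cos (ν * u)) = par x u * m * Real.cos (ν * u) :=
      fun u => by ring
    simp only [e']
    linarith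

theorem cost' {x δ c : ℝ} (h : Adm (par x) x) (hc : Cost x δ c) (ν : ℝ) : -c ≤ F x (-δ) ν := by
  obtain ⟨m, d, a, b, -, e⟩ := cost h hc
  linarith [e ν, mul_nonneg (zero_le_one.trans a) (F_pos h b ν)]

/-- The data attached to a test point with the coefficient `c`. -/
def Dat (D : DZ) (c m d : ℝ) : Prop :=
  0 ≤ c ∧ 0 ≤ m ∧ 0 ≤ d ∧
    ∀ u, 0 ≤ u → u ≤ D.P.x → c * Real.exp (-D.ds * u) ≤ m * Real.exp (-d * u) * D.cap

theorem dat_one {D : DZ} {l c : ℝ} (h : D.Co l c) (hl : 0 ≤ l - D.P.w) :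
    Dat D c 1 (l - D.P.w) := by
  refine ⟨h.1, zero_le_one, hl, fun u h0 h1 => ?_⟩
  have key : c * Real.exp ((l - D.P.w - D.ds) * u) ≤ D.cap := by
    rcases le_total (l - D.P.w - D.ds) 0 with a | a
    · exact (mul_le_of_le_one_right h.1 (Real.exp_le_one_iff.2
        (mul_nonpos_of_nonpos_of_nonneg a h0))).trans h.2.1
    · refine (mul_le_mul_of_nonneg_left (Real.exp_le_exp.2 (mul_le_mul_of_nonneg_left h1 a))
        h.1).trans ?_
      rw [sub_mul, Real.exp_sub, ← mul_div_assoc, div_le_iff₀ (Real.exp_pos _)]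
      exact h.2.2
  rw [show -D.ds * u = (l - D.P.w - D.ds) * u + -(l - D.P.w) * u by ring, Real.exp_add, one_mul,
    ← mul_assoc, mul_comm _ D.cap]
  exact mul_le_mul_of_nonneg_right key (Real.exp_pos _).le

theorem dat_zero {D : DZ} (hD : D.Ok) {l c m : ℝ} (h : D.Co l c) (hm : 1 ≤ m) : Dat D c m 0 := by
  refine ⟨h.1, zero_le_one.trans hm, le_rfl, fun u h0 _ => ?_⟩
  have a : Real.exp (-D.ds * u) ≤ 1 := Real.exp_le_one_iff.2 (by nlinarith [hD.ds0])
  simp only [neg_zero, zero_mul, Real.exp_zero, mul_one]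
  nlinarith [h.1, h.2.1, hD.cap0, mul_le_mul_of_nonneg_left a h.1]

theorem pair (hP : PairS) {D : DZ} (hD : D.Ok) (h : Adm (par D.P.x) D.P.x) {σ c m d c' m' d' : ℝ}
    (s0 : 0 < σ) (s1 : σ ≤ D.σ / D.Sm) (a : Dat D c m d) (a' : Dat D c' m' d') (ν : ℝ) :
    c * c' * ((Lp (fun u => par D.P.x u * Psi D.P.x D.P.γ u) D.P.x (ν * I)).re +
      σ * (F D.P.x (-D.P.v) ν - 1 / 8 + D.nE * D.cF)) ≤
      c * (m' * F D.P.x d' ν) + c' * (m * F D.P.x d ν) := by
  have p := mul_nonneg a.2.1 (F_pos h a.2.2.1 ν)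
  have p' := mul_nonneg a'.2.1 (F_pos h a'.2.2.1 ν)
  rcases a.1.eq_or_lt with rfl | c0
  · simpa using mul_nonneg a'.1 p
  rcases a'.1.eq_or_lt with rfl | c0'
  · simpa using mul_nonneg a.1 p'
  have x0 := hD.p.x0
  have k0 := hD.cap0
  have pc := par_cont D.P.x
  have qc := psi_cont D.P.x D.P.γ
  have hp := hD.pair
  generalize D.σ / D.Sm = σ₀ at s1 hp
  have z0 : 0 < σ₀ := s0.trans_le s1
  have t1 : σ / σ₀ ≤ 1 := (div_le_one z0).2 s1
  have t0 : 0 < σ / σ₀ := div_pos s0 z0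
  have t2 : σ / σ₀ * σ₀ = σ := div_mul_cancel₀ _ z0.ne'
  have h1 := hP D.P.x (1 - D.P.γ + σ * D.be) (D.P.γ / D.P.x + σ * D.al) (m / c) d (m' / c') d' ν
    x0 hD.p.x5 (add_nonneg (div_nonneg hD.p.g0 x0.le) (mul_nonneg s0.le hD.al0))
    (div_nonneg a.2.1 a.1) a.2.2.1 (div_nonneg a'.2.1 a'.1) a'.2.2.1
  have e : ∀ u, 1 - D.P.γ + σ * D.be + (D.P.γ / D.P.x + σ * D.al) * u =
      Psi D.P.x D.P.γ u + σ * (D.be + D.al * u) := fun u => by
    unfold Psi
    ring
  simp only [e] at h1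
  have h2 : (Lp (fun u => par D.P.x u * (Psi D.P.x D.P.γ u + σ * (D.be + D.al * u))) D.P.x
      (ν * I)).re = (Lp (fun u => par D.P.x u * Psi D.P.x D.P.γ u) D.P.x (ν * I)).re +
      σ * ∫ u in (0 : ℝ)..D.P.x, par D.P.x u * (D.be + D.al * u) * Real.cos (ν * u) := by
    rw [re_eq0 (by fun_prop), re_eq0 (by fun_prop), ← intervalIntegral.integral_const_mul,
      ← intervalIntegral.integral_add (Continuous.intervalIntegrable (by fun_prop) _ _)
        (Continuous.intervalIntegrable (by fun_prop) _ _)]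
    exact intervalIntegral.integral_congr fun u _ => by ring
  have h3 := osc_le h (g₁ := fun u => Real.exp (D.P.v * u)) (g₂ := fun u => D.be + D.al * u)
    (by fun_prop) (by fun_prop) ν
  have h4 : F D.P.x (-D.P.v) ν =
      ∫ u in (0 : ℝ)..D.P.x, par D.P.x u * Real.exp (D.P.v * u) * Real.cos (ν * u) := by
    simp only [F_eq, neg_neg]
  have h5 : ∫ u in (0 : ℝ)..D.P.x, par D.P.x u * max 0 (Psi D.P.x D.P.γ u + σ * (D.be + D.al * u) -
      m / c * Real.exp (-d * u) - m' / c' * Real.exp (-d' * u)) ≤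
      σ / σ₀ * ∫ u in (0 : ℝ)..D.P.x, par D.P.x u * max 0 (Psi D.P.x D.P.γ u +
        σ₀ * (D.be + D.al * u) - 2 * Real.exp (-D.ds * u) / D.cap) := by
    rw [← intervalIntegral.integral_const_mul]
    refine intervalIntegral.integral_mono_on x0.le
      (Continuous.intervalIntegrable (by fun_prop) _ _)
      (Continuous.intervalIntegrable (by fun_prop) _ _) fun u hu => ?_
    rw [mul_left_comm]
    refine mul_le_mul_of_nonneg_left ?_ (h.nonneg u hu.1 hu.2)
    have b : ∀ {c m d : ℝ}, 0 < c → Dat D c m d →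
        Real.exp (-D.ds * u) / D.cap ≤ m / c * Real.exp (-d * u) := fun {c m d} c0 a => by
      rw [div_mul_eq_mul_div, div_le_div_iff₀ k0 c0, mul_comm]
      exact a.2.2.2 u hu.1 hu.2
    have b1 : Psi D.P.x D.P.γ u ≤ 1 := by
      have := (div_le_one x0).2 hu.2
      unfold Psi
      nlinarith [hD.p.g0]
    have b2 : 1 ≤ 2 * Real.exp (-D.ds * u) / D.cap := by
      rw [le_div_iff₀ k0, one_mul, neg_mul, Real.exp_neg, ← div_eq_mul_inv,
        le_div_iff₀ (Real.exp_pos _)]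
      exact (mul_le_mul_of_nonneg_left (Real.exp_le_exp.2
        (mul_le_mul_of_nonneg_left hu.2 hD.ds0)) k0.le).trans hD.cap2
    have b3 := b c0 a
    have b4 := b c0' a'
    rw [mul_div_assoc] at b2 ⊢
    refine max_le (mul_nonneg t0.le (le_max_left _ _))
      (le_trans ?_ (mul_le_mul_of_nonneg_left (le_max_right _ _) t0.le))
    have b5 : σ / σ₀ * (σ₀ * (D.be + D.al * u)) = σ * (D.be + D.al * u) := by rw [← mul_assoc, t2]
    nlinarith [mul_nonneg (sub_nonneg.2 t1) (sub_nonneg.2 (b1.trans b2))]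
  have h6 := mul_le_mul_of_nonneg_left hp t0.le
  rw [mul_add, ← mul_assoc, ← mul_assoc, t2] at h6
  have h7 := mul_le_mul_of_nonneg_left h3 s0.le
  rw [h2] at h1
  change _ - m / c * F D.P.x d ν - m' / c' * F D.P.x d' ν ≤ _ at h1
  have h8 : c * (m' * F D.P.x d' ν) + c' * (m * F D.P.x d ν) =
      c * c' * (m / c * F D.P.x d ν + m' / c' * F D.P.x d' ν) := by
    field_simp
    ring
  rw [h8, h4]
  exact mul_le_mul_of_nonneg_left (by linarith) (mul_nonneg a.1 a'.1)

end Dz2L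

end Pool.Agent.MP_c5bf7b_nt.H25L
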