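import Pool.Agent.MP_c5bf7b_nt.H25L.NumDef

/-! Basic facts on the arithmetic of the checker. -/

set_option autoImplicit false

namespace Pool.Agent.MP_c5bf7b_nt.H25L.Nm

open Finset

theorem fc_eq {α : Type} (a : ℕ) (k : ℕ → α) : fc a k = k a := by cases a <;> rfl

theorem div_eq (a b : ℕ) : Nat.div a b = a / b := rfl
theorem mod_eq (a b : ℕ) : Nat.mod a b = a % b := rfl
theorem shl_eq (a b : ℕ) : Nat.shiftLeft a b = a * 2 ^ b := Nat.shiftLeft_eq a b
theorem shr_eq (a b : ℕ) : Nat.shiftRight a b = a / 2 ^ b := Nat.shiftRight_eq_div_pow a b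

theorem v_nonneg (a : ℕ) : 0 ≤ v a := by unfold v; positivity
theorem ml_nonneg (a : ℕ) : 0 ≤ ml a := by unfold ml; positivity
theorem vP_nonneg (a : ℕ) : 0 ≤ vP a := by unfold vP; positivity
theorem v_mono {a b : ℕ} (h : a ≤ b) : v a ≤ v b := by unfold v; gcongr
theorem ml_mono {a b : ℕ} (h : a ≤ b) : ml a ≤ ml b := by unfold ml; gcongr
theorem v_pos {a : ℕ} (h : 1 ≤ a) : 0 < v a := by unfold v; positivity
theorem ml_pos {a : ℕ} (h : 1 ≤ a) : 0 < ml a := by unfold ml; positivity
theorem v_zero : v 0 = 0 := by simp [v]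
theorem v_one : v 1000000000000000000 = 1 := by norm_num [v]
theorem v_add (a b : ℕ) : v (a + b) = v a + v b := by unfold v; push_cast; ring
theorem v_mul (a b : ℕ) : v (a * b) = a * v b := by unfold v; push_cast; ring
theorem v_sub {a b : ℕ} (h : b ≤ a) : v (a - b) = v a - v b := by
  unfold v; rw [Nat.cast_sub h]; ring
theorem le_v_sub (a b : ℕ) : v a - v b ≤ v (a - b) := by
  rcases le_total b a with h | h
  · exact (v_sub h).ge
  · exact (sub_nonpos.2 (v_mono h)).trans (v_nonneg _)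
theorem v_sub_max (a b : ℕ) : v (a - b) = max 0 (v a - v b) := by
  rcases le_total b a with h | h
  · rw [v_sub h, max_eq_right (sub_nonneg.2 (v_mono h))]
  · rw [Nat.sub_eq_zero_of_le h, v_zero, max_eq_left (sub_nonpos.2 (v_mono h))]
theorem ml_add (a b : ℕ) : ml (a + b) = ml a + ml b := by unfold ml; push_cast; ring
theorem ml_sub {a b : ℕ} (h : b ≤ a) : ml (a - b) = ml a - ml b := by
  unfold ml; rw [Nat.cast_sub h]; ring

theorem cast_div_le (m n : ℕ) : ((m / n : ℕ) : ℝ) ≤ m / n := Nat.cast_div_le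

theorem le_cast_div (m n : ℕ) (hn : 0 < n) : (m : ℝ) / n ≤ ((m / n + 1 : ℕ) : ℝ) := by
  have h : m < n * (m / n + 1) := Nat.lt_mul_div_succ m hn
  have h' : (m : ℝ) < n * ((m / n + 1 : ℕ) : ℝ) := by exact_mod_cast h
  rw [div_le_iff₀ (by exact_mod_cast hn)]
  linarith

theorem v_div_le (m n : ℕ) : v (m / n) ≤ v m / n := by
  unfold v
  rw [div_right_comm]
  exact div_le_div_of_nonneg_right (cast_div_le m n) (by positivity)

theorem le_v_div (m n : ℕ) (hn : 0 < n) : v m / n ≤ v (m / n + 1) := by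
  unfold v
  rw [div_right_comm]
  exact div_le_div_of_nonneg_right (le_cast_div m n hn) (by positivity)

theorem mD_le (a b : ℕ) : v (mD a b) ≤ v a * v b := by
  refine (v_div_le (a * b) 1000000000000000000).trans (le_of_eq ?_)
  unfold v; push_cast; ring

theorem le_mU (a b : ℕ) : v a * v b ≤ v (mU a b) := by
  refine le_trans (le_of_eq ?_) (le_v_div (a * b) 1000000000000000000 (by norm_num))
  unfold v; push_cast; ring

theorem dD_le (a b : ℕ) : v (dD a b) ≤ v a / v b := by
  refine (v_div_le (a * 1000000000000000000) b).trans (le_of_eq ?_)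
  unfold v; push_cast
  rcases eq_or_ne (b : ℝ) 0 with h | h
  · simp [h]
  · field_simp; norm_num

theorem le_dU (a b : ℕ) (hb : 1 ≤ b) : v a / v b ≤ v (dU a b) := by
  refine le_trans (le_of_eq ?_) (le_v_div (a * 1000000000000000000) b hb)
  have h : (b : ℝ) ≠ 0 := by positivity
  unfold v; push_cast; field_simp; norm_num

theorem mn_eq (a b : ℕ) : mn a b = min a b := by
  change a - (a - b) = _
  omega

theorem mx_eq (a b : ℕ) : mx a b = max a b := by
  change a + (b - a) = _
  omega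

theorem sumN_eq (n : ℕ) (f : ℕ → ℕ) : sumN n f = ∑ i ∈ range n, f i := by
  have h : ∀ a, Nat.rec (motive := fun _ => ℕ → ℕ) (fun a => a)
      (fun i ih a => fc (a.add (f i)) ih) n a = a + ∑ i ∈ range n, f i := by
    induction n with
    | zero => intro a; simp
    | succ n ih =>
      intro a
      rw [sum_range_succ]
      change fc (a.add (f n)) _ = _
      rw [fc_eq, ih, Nat.add_eq]
      ring
  unfold sumN
  rw [h, zero_add]

theorem allN_iff (n : ℕ) (f : ℕ → Bool) : allN n f = true ↔ ∀ i < n, f i = true := by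
  induction n with
  | zero => simp [allN]
  | succ n ih =>
    change (bif f n then allN n f else false) = true ↔ _
    rw [Nat.forall_lt_succ_right, ← ih]
    cases f n <;> simp

theorem sumL_eq {α : Type} (l : List α) (f : α → ℕ) : sumL l f = (l.map f).sum := by
  induction l with
  | nil => rfl
  | cons a l ih =>
    rw [List.map_cons, List.sum_cons, ← ih]
    rfl

theorem v_sum (s : Finset ℕ) (f : ℕ → ℕ) : v (∑ i ∈ s, f i) = ∑ i ∈ s, v (f i) := by
  unfold v; push_cast; rw [sum_div]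

theorem v_sumL {α : Type} (l : List α) (f : α → ℕ) :
    v (sumL l f) = (l.map fun a => v (f a)).sum := by
  induction l with
  | nil => exact v_zero
  | cons a l ih =>
    rw [List.map_cons, List.sum_cons, ← ih, ← v_add]
    rfl

theorem gt_eq (T j : ℕ) : gt T j = T / 2 ^ (64 * j) % 2 ^ 64 := by
  unfold gt
  rw [mod_eq, shr_eq, Nat.mul_eq]
  norm_num

theorem gt_zero (j : ℕ) : gt 0 j = 0 := by simp [gt_eq]

theorem gt_shr (T s j : ℕ) : gt (T.shiftRight (Nat.mul 64 s)) j = gt T (j + s) := by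
  rw [gt_eq, gt_eq, shr_eq, Nat.mul_eq, Nat.div_div_eq_div_mul, ← pow_add]
  congr 3
  ring

theorem gt_push (T r j : ℕ) :
    gt ((T.shiftLeft 64).add (r.mod 18446744073709551616)) j =
      if j = 0 then r % 2 ^ 64 else gt T (j - 1) := by
  have e : (18446744073709551616 : ℕ) = 2 ^ 64 := by norm_num
  have hr : r % 2 ^ 64 < 2 ^ 64 := Nat.mod_lt _ (by norm_num)
  rw [gt_eq, Nat.add_eq, shl_eq, mod_eq, e]
  rcases j with _ | j
  · simp only [mul_zero, pow_zero, Nat.div_one, if_true]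
    rw [Nat.mul_add_mod_of_lt hr]
  · rw [if_neg (Nat.succ_ne_zero j), Nat.add_sub_cancel, gt_eq, mul_add, mul_one, pow_add,
      mul_comm (2 ^ (64 * j)), ← Nat.div_div_eq_div_mul, add_comm,
      Nat.add_mul_div_right _ _ (by norm_num), Nat.div_eq_of_lt hr, zero_add]

theorem gt_bld (n : ℕ) (f : ℕ → ℕ) (T j : ℕ) :
    gt (bld n f T) j = if j < n then f j % 2 ^ 64 else gt T (j - n) := by
  induction n generalizing T with
  | zero => simp [bld]
  | succ n ih =>
    change gt (fc _ (bld n f)) j = _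
    rw [fc_eq, ih, gt_push]
    by_cases h : j < n
    · rw [if_pos h, if_pos (by omega)]
    · rw [if_neg h]
      by_cases h' : j = n
      · subst h'
        simp
      · rw [if_neg (by omega), if_neg (by omega)]
        rfl

theorem gt_bld_le (n : ℕ) (f : ℕ → ℕ) (T j : ℕ) (h : j < n) : gt (bld n f T) j ≤ f j := by
  rw [gt_bld, if_pos h]
  exact Nat.mod_le _ _

theorem mxN_spec (n : ℕ) (f : ℕ → ℕ) (m : ℕ) :
    m ≤ mxN n f m ∧ ∀ k < n, f k ≤ mxN n f m := by
  induction n generalizing m with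
  | zero => simp [mxN]
  | succ n ih =>
    have e : mxN (n + 1) f m = mxN n f (max m (f n)) := by
      change fc _ (mxN n f) = _
      rw [fc_eq, mx_eq]
    rw [e]
    obtain ⟨h1, h2⟩ := ih (max m (f n))
    refine ⟨(le_max_left _ _).trans h1, fun k hk => ?_⟩
    rcases Nat.lt_succ_iff_lt_or_eq.1 hk with h | rfl
    · exact h2 k h
    · exact (le_max_right _ _).trans h1

theorem dsc_spec (n : ℕ) (f : ℕ → ℕ) (g : ℕ → ℕ → Bool) (m₀ : ℕ) (h : dsc n f g m₀ = true)
    (k : ℕ) (hk : k < n) :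
    ∃ m, m₀ ≤ m ∧ (∀ k', k ≤ k' → k' < n → f k' ≤ m) ∧ g k m = true := by
  induction n generalizing m₀ with
  | zero => omega
  | succ n ih =>
    change fc _ (fun m' => bif g n m' then dsc n f g m' else false) = true at h
    rw [fc_eq, mx_eq] at h
    have h1 : g n (max m₀ (f n)) = true := by
      revert h
      cases g n (max m₀ (f n)) <;> simp
    rw [h1] at h
    rcases Nat.lt_succ_iff_lt_or_eq.1 hk with hk' | rfl
    · obtain ⟨m, a1, a2, a3⟩ := ih _ h hk'
      refine ⟨m, (le_max_left _ _).trans a1, fun k' b1 b2 => ?_, a3⟩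
      rcases Nat.lt_succ_iff_lt_or_eq.1 b2 with b | rfl
      · exact a2 k' b1 b
      · exact (le_max_right _ _).trans a1
    · refine ⟨_, le_max_left _ _, fun k' b1 b2 => ?_, h1⟩
      obtain rfl : k' = k := by omega
      exact le_max_right _ _

theorem shr_le (a s : ℕ) : ((a.shiftRight s : ℕ) : ℝ) ≤ a / 2 ^ s := by
  rw [shr_eq]
  exact (cast_div_le _ _).trans (by push_cast; rfl)

theorem le_shr (a s : ℕ) : (a : ℝ) / 2 ^ s ≤ (((a.shiftRight s).succ : ℕ) : ℝ) := by
  rw [shr_eq]
  exact le_trans (by push_cast; rfl) (le_cast_div a (2 ^ s) (by positivity))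

theorem pw_aux (e b k : ℕ) :
    ((e.mul (b.pow k) : ℕ) : ℝ) / 2 ^ (Nat.mul 96 k) = e * vP b ^ k := by
  rw [Nat.mul_eq, Nat.mul_eq, Nat.pow_eq, vP, div_pow, ← pow_mul]
  push_cast
  ring

theorem pwD_le (e b k : ℕ) : (pwD e b k : ℝ) ≤ e * vP b ^ k := (shr_le _ _).trans (pw_aux e b k).le

theorem le_pwU (e b k : ℕ) : e * vP b ^ k ≤ (pwU e b k : ℝ) := (pw_aux e b k).ge.trans (le_shr _ _)

theorem v_pwD (e b k : ℕ) : v (pwD e b k) ≤ v e * vP b ^ k := by
  unfold v
  rw [div_mul_eq_mul_div]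
  exact div_le_div_of_nonneg_right (pwD_le e b k) (by positivity)

theorem v_pwU (e b k : ℕ) : v e * vP b ^ k ≤ v (pwU e b k) := by
  unfold v
  rw [div_mul_eq_mul_div]
  exact div_le_div_of_nonneg_right (le_pwU e b k) (by positivity)

theorem vP_pwD (e b k : ℕ) : vP (pwD e b k) ≤ vP e * vP b ^ k := by
  rw [vP, vP.eq_1 e, div_mul_eq_mul_div]
  exact div_le_div_of_nonneg_right (pwD_le e b k) (by positivity)

theorem sD_le (e : ℕ) : v (sD e) ≤ vP e := by
  unfold v vP
  rw [div_le_iff₀ (by positivity)]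
  refine (shr_le _ _).trans (le_of_eq ?_)
  rw [Nat.mul_eq]; push_cast; ring

theorem le_sU (e : ℕ) : vP e ≤ v (sU e) := by
  unfold v vP
  rw [le_div_iff₀ (by positivity)]
  refine le_trans (le_of_eq ?_) (le_shr _ _)
  rw [Nat.mul_eq]; push_cast; ring

end Pool.Agent.MP_c5bf7b_nt.H25L.Nm
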