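import Pool.Agent.MP_c5bf7b_nt.H25L.SpecC

/-! The inequality from the powers of one character. -/

set_option autoImplicit false

namespace Pool.Agent.MP_c5bf7b_nt.H25L

open Finset Complex ArithmeticFunction Pool.Agent.MP_c5bf7b_nt.H38

namespace Lat1L

theorem ac_nonneg {p : ℕ → ℝ} (hp : ∀ k, 0 ≤ p k) (j : ℤ) : 0 ≤ ac p j :=
  sum_nonneg fun i _ => by
    split_ifs
    exacts [mul_nonneg (hp _) (hp _), le_rfl]

theorem ac_big (p : ℕ → ℝ) {j : ℤ} (h : 6 ≤ j) : ac p j = 0 :=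
  sum_eq_zero fun i _ => if_neg (by omega)

theorem ac_neg (p : ℕ → ℝ) (j : ℤ) : ac p (-j) = ac p j := by
  simp only [ac, Int.natAbs_neg]

theorem expand (p : ℕ → ℝ) (K : ℤ → ℝ) :
    ∑ a ∈ range 6, ∑ b ∈ range 6, p a * p b * K ((a : ℤ) - b) =
      ac p 0 * K 0 + ac p 1 * (K 1 + K (-1)) + ac p 2 * (K 2 + K (-2)) + ac p 3 * (K 3 + K (-3)) +
        ac p 4 * (K 4 + K (-4)) + ac p 5 * (K 5 + K (-5)) := by
  simp only [ac, sum_range_succ, sum_range_zero]
  norm_num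
  ring

theorem ac_sum (p : ℕ → ℝ) :
    ac p 1 + ac p 2 + ac p 3 + ac p 4 + ac p 5 ≤ 5 * ac p 0 := by
  simp only [ac, sum_range_succ, sum_range_zero]
  norm_num
  nlinarith [sq_nonneg (p 0 - p 1), sq_nonneg (p 0 - p 2), sq_nonneg (p 0 - p 3),
    sq_nonneg (p 0 - p 4), sq_nonneg (p 0 - p 5), sq_nonneg (p 1 - p 2), sq_nonneg (p 1 - p 3),
    sq_nonneg (p 1 - p 4), sq_nonneg (p 1 - p 5), sq_nonneg (p 2 - p 3), sq_nonneg (p 2 - p 4),
    sq_nonneg (p 2 - p 5), sq_nonneg (p 3 - p 4), sq_nonneg (p 3 - p 5), sq_nonneg (p 4 - p 5),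
    sq_nonneg (p 0), sq_nonneg (p 1), sq_nonneg (p 2), sq_nonneg (p 3), sq_nonneg (p 4),
    sq_nonneg (p 5)]

theorem sum16 (G : ℤ → ℝ) : ∑ j ∈ Icc (1 : ℤ) 6, G j = G 1 + G 2 + G 3 + G 4 + G 5 + G 6 := by
  rw [show Icc (1 : ℤ) 6 = {1, 2, 3, 4, 5, 6} by decide]
  simp only [mem_insert, mem_singleton, not_false_eq_true, sum_insert, sum_singleton,
    Int.reduceEq, or_self]
  ring

/-- The collection of the terms. -/
theorem collect {p : ℕ → ℝ} (hp : ∀ k, 0 ≤ p k) (K u r G : ℤ → ℝ) {e : ℝ} (he : 0 ≤ e)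
    (h0 : 0 ≤ ∑ a ∈ range 6, ∑ b ∈ range 6, p a * p b * K ((a : ℤ) - b))
    (hK : ∀ j : ℤ, |j| ≤ 5 → K j ≤ u j - r (j - 1) - r (j + 1) + e)
    (hG : ∀ j ∈ Icc (1 : ℤ) 6, ac p j * u j - (ac p (j + 1) + ac p (j - 1)) * r j ≤ G j ∧
      ac p j * u (-j) - (ac p (j + 1) + ac p (j - 1)) * r (-j) ≤ G j) :
    0 ≤ ac p 0 * u 0 - 2 * ac p 1 * r 0 + 2 * ∑ j ∈ Icc (1 : ℤ) 6, G j + 11 * e * ac p 0 := by
  rw [expand] at h0
  rw [sum16]
  have m : ∀ k j : ℤ, |j| ≤ 5 → ac p k * K j ≤ ac p k * (u j - r (j - 1) - r (j + 1) + e) :=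
    fun k j hj => mul_le_mul_of_nonneg_left (hK j hj) (ac_nonneg hp k)
  have k0 := m 0 0 (by decide)
  have k1 := m 1 1 (by decide)
  have k2 := m 2 2 (by decide)
  have k3 := m 3 3 (by decide)
  have k4 := m 4 4 (by decide)
  have k5 := m 5 5 (by decide)
  have n1 := m 1 (-1) (by decide)
  have n2 := m 2 (-2) (by decide)
  have n3 := m 3 (-3) (by decide)
  have n4 := m 4 (-4) (by decide)
  have n5 := m 5 (-5) (by decide)
  have g1 := hG 1 (by decide)
  have g2 := hG 2 (by decide)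
  have g3 := hG 3 (by decide)
  have g4 := hG 4 (by decide)
  have g5 := hG 5 (by decide)
  have g6 := hG 6 (by decide)
  have s := mul_le_mul_of_nonneg_left (ac_sum p) he
  have z6 := ac_big p (j := 6) le_rfl
  have z7 := ac_big p (j := 7) (by decide)
  simp only [Int.reduceAdd, Int.reduceSub, Int.reduceNeg, z6, z7] at *
  linarith [g1.1, g1.2, g2.1, g2.2, g3.1, g3.2, g4.1, g4.2, g5.1, g5.2, g6.1, g6.2]

end Lat1L

open Lat1L in
theorem lat1Of : Lat1Of := by
  classical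
  intro hL hA hG q _ N Lm Th C M T l₁ l₂ χ₁ ζ₁ o env win hT hTh _ hne ho i hi p w D hp w0 w1 w2 hD
  have hi' := mem_Icc.1 hi
  have i1 : (8 : ℝ) ≤ i := by exact_mod_cast hi'.1
  have i2 : (i : ℝ) ≤ 35 := by exact_mod_cast hi'.2
  have adm := hA.1 ((i : ℝ) / 10) (by linarith) (by linarith)
  have lr := (hL _ _ adm).2.1
  have lq : 0 < Real.log q := Real.log_pos (by exact_mod_cast env.two)
  have T0 : 0 < T := lq.trans_le hT
  set F : ℂ → ℂ := Lp (par ((i : ℝ) / 10)) ((i : ℝ) / 10) with hF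
  let g := ζ₁.im
  let K : ℤ → ℝ := fun j =>
    (Kn q (par ((i : ℝ) / 10)) ((i : ℝ) / 10) (χ₁ ^ j) (w + ((j : ℝ) * g : ℝ) * I)).re
  let P : ℤ → ℝ := fun v => (F ((-w : ℝ) + (-((v : ℝ) * g) : ℝ) * I)).re
  let Q : ℤ → ℝ := fun v => (F ((l₁ - w : ℝ) + (-((v : ℝ) * g) : ℝ) * I)).re
  have key := collect hp K (fun v => if (o : ℤ) ∣ v then P v else 1 / 8)
    (fun v => if (o : ℤ) ∣ v then Q v else 0)
    (fun j => if (o : ℤ) ∣ j then D j else ac p j / 8) (e := e0) (by norm_num [e0]) ?_ ?_ ?_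
  · have p0 : P 0 = Fp i (-w) := by
      simp only [P, Int.cast_zero, zero_mul, neg_zero, ofReal_zero, add_zero]
      rw [lr, ofReal_re, Fp]
    have q0 : Q 0 = Fp i (l₁ - w) := by
      simp only [Q, Int.cast_zero, zero_mul, neg_zero, ofReal_zero, add_zero]
      rw [lr, ofReal_re, Fp]
    simpa only [dvd_zero, if_true, p0, q0] using key
  · have := (hG q ℕ (range 6) (fun a => χ₁ ^ (a : ℤ)) (fun a => a * g) p _ ((i : ℝ) / 10) w).2.2.1
      env.two adm.nonneg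
    refine this.trans_eq (sum_congr rfl fun a _ => sum_congr rfl fun b _ => ?_)
    simp only [K]
    rw [zpow_sub, Int.cast_sub, Int.cast_natCast, Int.cast_natCast, sub_mul]
  · intro j hj
    have hj' := abs_le.1 hj
    have jg : |(j : ℝ) * g| ≤ 5 * T := by
      rw [abs_mul]
      exact mul_le_mul (by exact_mod_cast hj) win.im (abs_nonneg _) (by norm_num)
    have re : ((w : ℂ) + ((j : ℝ) * g : ℝ) * I).re = w := by simp
    have im : ((w : ℂ) + ((j : ℝ) * g : ℝ) * I).im = j * g := by simp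
    have kf := env.kf i hi (χ₁ ^ j) (w + ((j : ℝ) * g : ℝ) * I) (EE χ₁ ζ₁ (χ₁ ^ j)) (win.le _)
      (by unfold EE; split_ifs <;> simp) (by rwa [re]) (by rw [re]; linarith [env.lm])
      (by rw [im]; linarith) (fun ζ hζ => by
        rw [Hp, re, im]
        refine ⟨fun a => ?_, ?_⟩
        · have := win.far _ ζ hζ 1 (by
            have := abs_add_le (ζ.im - j * g) (j * g)
            rw [sub_add_cancel] at this
            norm_num
            linarith)
          norm_num at this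
          have a' := (env.pos _ ζ (Multiset.mem_of_le (Multiset.sub_le_self _ _) hζ)).1
          exact w1.trans (max_le (by linarith) a'.le)
        · have a := (env.pos _ ζ (Multiset.mem_of_le (Multiset.sub_le_self _ _) hζ)).1
          have b : 0 ≤ Real.log (1 + |ζ.im - j * g| / Real.log q) :=
            Real.log_nonneg (le_add_of_nonneg_right (by positivity))
          linarith)
    refine kf.trans_eq ?_
    have e0 := ho j (abs_le.2 ⟨by omega, by omega⟩)
    have e1 : χ₁ ^ j = χ₁ ↔ (o : ℤ) ∣ j - 1 := by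
      rw [← ho (j - 1) (abs_le.2 ⟨by omega, by omega⟩), zpow_sub_one, mul_inv_eq_one]
    have e2 : χ₁ ^ j = χ₁⁻¹ ↔ (o : ℤ) ∣ j + 1 := by
      rw [← ho (j + 1) (abs_le.2 ⟨by omega, by omega⟩), zpow_add_one, mul_eq_one_iff_eq_inv]
    have a0 : -((w : ℂ) + ((j : ℝ) * g : ℝ) * I) = (-w : ℝ) + (-((j : ℝ) * g) : ℝ) * I := by
      push_cast
      ring
    have a1 : ζ₁ - ((w : ℂ) + ((j : ℝ) * g : ℝ) * I) =
        (l₁ - w : ℝ) + (-(((j - 1 : ℤ) : ℝ) * g) : ℝ) * I := by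
      apply Complex.ext <;> simp [win.re, g]
      ring
    have a2 : (starRingEnd ℂ) ζ₁ - ((w : ℂ) + ((j : ℝ) * g : ℝ) * I) =
        (l₁ - w : ℝ) + (-(((j + 1 : ℤ) : ℝ) * g) : ℝ) * I := by
      apply Complex.ext <;> simp [win.re, g]
      ring
    have f0 : par ((i : ℝ) / 10) 0 = 1 := by simp [par]
    simp only [Rhs, EE, hne, not_false_eq_true, and_true, e0, e1, e2, Multiset.map_add,
      Multiset.sum_add, f0, a0]
    split_ifs <;> simp only [Multiset.map_singleton, Multiset.sum_singleton, Multiset.map_zero,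
      Multiset.sum_zero, a1, a2, P, Q, hF] <;> ring
  · intro j hj
    simp only [dvd_neg]
    split_ifs with h
    · have a := hD j hj h (-((j : ℝ) * g))
      have b := hD j hj h (-(((-j : ℤ) : ℝ) * g))
      rw [zero_mul, sub_zero] at a b
      exact ⟨a, b⟩
    · constructor <;> linarith

end Pool.Agent.MP_c5bf7b_nt.H25L
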