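import Pool.Agent.MP_c5bf7b_nt.H25L.SpecC

/-! The checker for the numerical part: fixed point arithmetic on natural numbers.
`v` has the unit `10 ^ (-18)`, `ml` the unit `1 / 1000`, `vP` the unit `2 ^ (-96)`.
Paper proof: /team-store/MP_c5bf7b_H25_linnik3.md, part N. -/

set_option autoImplicit false

namespace Pool.Agent.MP_c5bf7b_nt.H25L.Nm

open Pool.Agent.MP_c5bf7b_nt.H38

noncomputable section

def v (a : ℕ) : ℝ := a / 10 ^ 18
def ml (a : ℕ) : ℝ := a / 1000
def vP (a : ℕ) : ℝ := a / 2 ^ 96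

/-! ### arithmetic and loops -/

/-- evaluate `a` first -/
def fc {α : Type} (a : ℕ) (k : ℕ → α) : α := Nat.rec (k 0) (fun n _ => k n.succ) a
def mD (a b : ℕ) : ℕ := (a.mul b).div 1000000000000000000
def mU (a b : ℕ) : ℕ := ((a.mul b).div 1000000000000000000).succ
def dD (a b : ℕ) : ℕ := (a.mul 1000000000000000000).div b
def dU (a b : ℕ) : ℕ := ((a.mul 1000000000000000000).div b).succ
def mn (a b : ℕ) : ℕ := a.sub (a.sub b)
def mx (a b : ℕ) : ℕ := a.add (b.sub a)
def sumN (n : ℕ) (f : ℕ → ℕ) : ℕ :=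
  Nat.rec (motive := fun _ => ℕ → ℕ) (fun a => a) (fun i ih a => fc (a.add (f i)) ih) n 0
def allN (n : ℕ) (f : ℕ → Bool) : Bool := Nat.rec true (fun i ih => bif f i then ih else false) n
def sumL {α : Type} (l : List α) (f : α → ℕ) : ℕ := List.rec 0 (fun a _ ih => (f a).add ih) l
/-- entry `j` of a table -/
def gt (T j : ℕ) : ℕ := (T.shiftRight (Nat.mul 64 j)).mod 18446744073709551616
/-- the table with entries `f 0, …, f (n - 1)` followed by `T₀` -/
def bld (n : ℕ) (f : ℕ → ℕ) (T₀ : ℕ) : ℕ :=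
  Nat.rec (motive := fun _ => ℕ → ℕ) (fun T => T)
    (fun j ih T => fc ((T.shiftLeft 64).add ((f j).mod 18446744073709551616)) ih) n T₀
def mxN (n : ℕ) (f : ℕ → ℕ) (m₀ : ℕ) : ℕ :=
  Nat.rec (motive := fun _ => ℕ → ℕ) (fun m => m) (fun k ih m => fc (mx m (f k)) ih) n m₀
/-- a descending loop with the running maximum -/
def dsc (n : ℕ) (f : ℕ → ℕ) (g : ℕ → ℕ → Bool) (m₀ : ℕ) : Bool :=
  Nat.rec (motive := fun _ => ℕ → Bool) (fun _ => true)
    (fun k ih m => fc (mx m (f k)) fun m' => bif g k m' then ih m' else false) n m₀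

/-! ### the exponential function at `p / 10 ^ 9` -/

def t5 (p : ℕ) : ℕ :=
  (((((((((p.add 1280000000000).mul p).add 1310720000000000000000000).mul p).add
    1006632960000000000000000000000000000).mul p).add
    515396075520000000000000000000000000000000000000).mul p).add
    131941395333120000000000000000000000000000000000000000000000)
def xL (p : ℕ) : ℕ :=
  ((((t5 p).shiftLeft 112).div
    131941395333120000000000000000000000000000000000000000000000).pow 256).shiftRight 28576
def xU (p : ℕ) : ℕ :=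
  bif p.ble 256000000000 then
    ((((((t5 p).mul 768000000000).add (p.pow 6)).shiftLeft 112).div
      101330991615836160000000000000000000000000000000000000000000000000000000).succ.pow 256).shiftRight
      28576 |>.succ
  else (Nat.pow 3 (p.div 1000000000).succ).shiftLeft 96
def yL (p : ℕ) : ℕ := Nat.div 6277101735386680763835789423207666416102355444464034512896 (xU p)
def yU (p : ℕ) : ℕ := (Nat.div 6277101735386680763835789423207666416102355444464034512896 (xL p)).succ
def pwD (e b k : ℕ) : ℕ := (e.mul (b.pow k)).shiftRight (Nat.mul 96 k)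
def pwU (e b k : ℕ) : ℕ := ((e.mul (b.pow k)).shiftRight (Nat.mul 96 k)).succ
def sD (e : ℕ) : ℕ := (e.mul 1000000000000000000).shiftRight 96
def sU (e : ℕ) : ℕ := ((e.mul 1000000000000000000).shiftRight 96).succ

/-! ### the transform of the parabola function -/

/-- positive argument `A / 10 ^ 6`, `e` approximates `exp (-A / 10 ^ 6)` -/
def fN (x A e : ℕ) : ℕ :=
  (((((((A.mul A).mul (((A.mul A).mul A).add 30000000000000000000)).shiftLeft 96).add
    (e.mul ((((Nat.mul 30000000000000000000 A).add 120000000000000000000000000).mul A).add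
      120000000000000000000000000000000))).sub
    (((Nat.mul 10000000000000 ((A.mul A).mul A)).add
      120000000000000000000000000000000).shiftLeft 96)).mul (x.mul 1000000000000000000000))).div
    ((((A.mul A).mul A).mul ((A.mul A).mul A)).shiftLeft 96)
/-- negative argument `-A / 10 ^ 6`, `e` approximates `exp (A / 10 ^ 6)` -/
def gN (x A e : ℕ) : ℕ :=
  ((((((((Nat.mul 10000000000000 A).add 30000000000000000000).mul (A.mul A)).shiftLeft 96).add
    (e.mul (Nat.mul 30000000000000000000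
      (((A.mul A).add 4000000000000).sub (Nat.mul 4000000 A))))).sub
    (((A.pow 5).add 120000000000000000000000000000000).shiftLeft 96)).mul
      (x.mul 1000000000000000000000))).div ((A.pow 6).shiftLeft 96)
def FD (x a b : ℕ) : ℕ :=
  bif a.beq b then (x.mul 1000000000000000000).div 2400 else
  bif b.ble a then fN x (x.mul (a.sub b)) (yL ((x.mul (a.sub b)).mul 1000))
  else gN x (x.mul (b.sub a)) (xL ((x.mul (b.sub a)).mul 1000))
def FU (x a b : ℕ) : ℕ :=
  bif a.beq b then ((x.mul 1000000000000000000).div 2400).succ else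
  bif b.ble a then (fN x (x.mul (a.sub b)) (yU ((x.mul (a.sub b)).mul 1000))).succ
  else (gN x (x.mul (b.sub a)) (xU ((x.mul (b.sub a)).mul 1000))).succ

/-! ### integrals over fifty cells -/

def tA : ℕ := 16862128045916819777099746772275048245383316898175850054128449929362909815709574695864376732354509643345798251183520839385681560783497830748235804127088849837295218532312480901337128285803580826942276373151980055886753055525398178355134631032646762150240596172011525297190156993874103457956419632142377470195509764852237236017502043666711026291577297725756351049956563818295527029762449193174666323553922164404278592240473162260550865334408197922946005949355224718755114445539102142853194745563969085054625423086689133094580845850439896634375869244925462546617946484571429446573650787527710109652538730235969555379670309202670818666118876189684230611945583713808188355922183217352558032436918081707048274916573226581680118903876124298452242364257724032441430983527281295233389272509711449931119189747041218637935757705468038785975554290515177680559226050150219306827561227316307170720440288295876900103612350682957039195236080652674452121035467838637414986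
def tB : ℕ := 4229739468164519078309892949257496702272713500523760785521684056735878671590624711886676460238418056255154804943950423533052707747458726387837191242310853131309229773780411016405020321606534938185447164105982736926450491912495797943010005303506907050664977642623793345151083905208149630657282600881228740820948813695156483702680444161618059008886040261381606589003651953436160650667001300168805890311555259645578363398513250127030746565335665544132160721208365002125782654094090425807188111133656002368964017274243094664728496915829802459381565583782073141717488698896245843957449737181626926181812404443868131450916067037011817572720251660207681121093089318581047352530438277123895294384160602699001644041560018987134044111632876837435533454532745425199535070098645231465963794391702465657204700194986482613218603515059016755905279648155084845398787861861775025696959244026461086409207485634116917440361606542396137748852907098921942416266110694980656567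
def cell (i gl gr : ℕ) : ℕ := ((gt tA i).mul gl).add ((gt tB i).mul gr)
def intU (x : ℕ) (f : ℕ → ℕ) : ℕ := (((sumN 50 f).mul x).div 1000000000000000000000).succ
/-- `exp (θ u)` at the node `k`, from above -/
def eN (x θ k : ℕ) : ℕ := pwU 1000000000000000000 (xU ((θ.mul x).mul 20)) k
def rp (x θ be al k : ℕ) : ℕ := (eN x θ k).sub (be.add (((al.mul x).mul k).div 50000))
/-- bound for the integral of `par * |exp (θ u) - (be + al u)|` -/
def rem (x θ be al : ℕ) : ℕ :=
  (((intU x fun i => cell i (rp x θ be al i) (rp x θ be al i.succ)).mul 2).add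
    ((x.mul ((be.mul 35000).add ((al.mul 9).mul x))).div 84000000).succ).sub (FD x 0 θ)
def costOk (x w a m c : ℕ) : Bool :=
  bif w.ble a then true else Nat.ble 1000000000000000000 m && (rem x (w.sub a) m 0).ble c

/-! ### one density inequality -/

structure Con where
  x : ℕ
  w : ℕ
  u : ℕ
  ds : ℕ
  i0 : ℕ
  n : ℕ
  ga : ℕ
  sg : ℕ
  si : ℕ
  cap : ℕ
  al : ℕ
  be : ℕ
  Sm : ℕ
  s : ℕ
  M : ℕ
  Rt : ℕ
  ro : ℕ
  ex : ℕ
  cE : ℕ
  cF : ℕ
  mE : ℕ
  mF : ℕ
  y : ℕ

def hN (c : Con) (k : ℕ) : ℕ :=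
  ((((eN c.x (c.w.mul 2) k).mul ((c.x.mul k).add 12505)).mul 50000000000000000000).div
    (((c.x.mul k).sub 12505).mul
      ((Nat.mul 50 (Nat.sub 1000000000000000000 c.ga)).add (c.ga.mul k)))).succ
def cI (c : Con) (i : ℕ) : ℕ :=
  cell i (eN c.x ((c.w.mul 2).sub c.u) i) (eN c.x ((c.w.mul 2).sub c.u) i.succ)
def cR (c : Con) (i : ℕ) : ℕ := cell i (hN c i) (hN c i.succ)
def tau (c : Con) (i : ℕ) : ℕ :=
  ((c.sg.mul (cR c i)).mul 1000000000000000000).div
    ((c.sg.mul (cR c i)).add ((cI c i).mul 1000000000000000000))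
def IU (c : Con) : ℕ :=
  (((sumN 50 fun i => bif c.i0.ble i then ((tau c i).mul (tau c i)).mul (cI c i)
    else (cI c i).mul 1000000000000000000000000000000000000).mul c.x).div
    1000000000000000000000000000000000000000000000000000000000).succ
def RU (c : Con) : ℕ :=
  (((sumN 50 fun i => bif c.i0.ble i then
      ((Nat.sub 1000000000000000000 (tau c i)).mul
        (Nat.sub 1000000000000000000 (tau c i))).mul (cR c i) else 0).mul c.x).div
    1000000000000000000000000000000000000000000000000000000000).succ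
def pN (c : Con) (k : ℕ) : ℕ :=
  ((((Nat.sub 1000000000000000000 c.ga).add ((c.ga.mul k).div 50).succ)).add
    (mU (dU c.si c.Sm) (c.be.add (((c.al.mul c.x).mul k).div 50000).succ))).sub
    (dD ((pwD 1000000000000000000 (yL ((c.ds.mul c.x).mul 20)) k).mul 2) c.cap)
def PU (c : Con) : ℕ := intU c.x fun i => cell i (pN c i.succ) (pN c i.succ)

def toP (c : Con) : Par :=
  ⟨ml c.x, ml c.w, ml c.u, v c.ga, 50 - c.i0, fun i => ml c.x * ((c.i0 + i : ℕ) : ℝ) / 50,
    fun i => v (tau c (c.i0 + i))⟩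
def toDZ (nE : ℕ) (c : Con) : DZ :=
  ⟨toP c, v c.si, v c.cap, ml c.ds, v c.al, v c.be, v c.Sm, v c.s, v c.M, v c.Rt, v c.ro, v c.ex,
    v c.cE, v c.cF, nE⟩

/-- the conditions on the shape -/
def okP (c : Con) : Bool :=
  Nat.ble 1 c.x && c.x.ble 5000 && c.w.ble 10000 && c.u.ble 10000 && c.u.ble (c.w.mul 2) &&
    c.ga.succ.ble 1000000000000000000 && Nat.ble 12506 (c.x.mul c.i0) && c.i0.ble 50
def okC (nE : ℕ) (c : Con) : Bool :=
  okP c && Nat.ble 1 c.si && Nat.ble 1 c.cap && Nat.ble 1 c.Sm && Nat.ble 1 c.M && nE.ble 2 &&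
    (mU c.cap (sU (xU ((c.ds.mul c.x).mul 1000)))).ble 2000000000000000000 &&
    ((c.si.div 8).succ.add (dU (IU c) c.si)).ble (c.s.mul 2) &&
    (c.x.mul (((Nat.sub 1000000000000000000 c.ga).mul 35).add (c.ga.mul 9))).ble (c.M.mul 84000) &&
    ((RU c).add (mU (mU c.si c.cap)
      (((FU c.x 0 c.u).add (nE.mul c.cF)).sub 125000000000000000))).ble c.Rt &&
    (((PU c).mul c.Sm).add (c.si.mul ((rem c.x c.u c.be c.al).add (nE.mul c.cF)))).ble
      (c.si.mul 125000000000000000) &&
    ((mU c.ro c.Sm).add (nE.mul c.ex)).ble c.Rt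

/-! ### costs of zeros -/

def K0 (c : Con) (k : ℕ) : ℕ := (c.s.add 125000000000000000).add (k.mul c.cE)
def Ac (c : Con) : ℕ := mD c.cap (sD (xL ((c.ds.mul c.x).mul 1000)))
def r1 (c : Con) (ex De cc : ℕ) : ℕ :=
  mn (mD cc ((De.add De).sub (mU c.M cc))) ((mD c.ro cc).add ex)
def r2 (c : Con) (ex De e : ℕ) : ℕ :=
  r1 c ex De (mn (mn c.cap (dD De c.M)) (((Ac c).mul e).shiftRight 96))
def rC (c : Con) (K ex F e : ℕ) : ℕ :=
  bif (K.add 1000000000000000).ble F then r2 c ex (F.sub K) e else 0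
def r3 (c : Con) (K A e : ℕ) : ℕ := rC c K 0 (fN c.x A e) e
def a0 (c : Con) (j0 : ℕ) : ℕ := c.x.mul (((j0.mul 5).add 5).sub c.w)
/-- the cost on the cell `[(j0 + k) / 200, (j0 + k + 1) / 200]` -/
def rL (c : Con) (K j0 k : ℕ) : ℕ :=
  r3 c K ((a0 c j0).add ((c.x.mul 5).mul k))
    (pwD (yL ((a0 c j0).mul 1000)) (yL (c.x.mul 5000)) k)
/-- the cost of an exceptional zero at or below `b / 1000` -/
def rE (c : Con) (k b : ℕ) : ℕ :=
  rC c (K0 c k) c.ex (FD c.x b c.w)
    (bif b.ble c.w then 79228162514264337593543950336 else yL ((c.x.mul (b.sub c.w)).mul 1000))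
def addC (kE j0 T : ℕ) (c : Con) : ℕ :=
  bld c.n (fun k => (gt T k).add (mD c.y (rL c (K0 c kE) j0 k))) (T.shiftRight (Nat.mul 64 c.n))
def addL (kE j0 T : ℕ) (cs : List Con) : ℕ :=
  List.rec (motive := fun _ => ℕ → ℕ) (fun T => T) (fun c _ ih T => fc (addC kE j0 T c) ih) cs T

/-! ### weights -/

structure Dn where
  a : ℕ
  b : ℕ
  th : ℕ
  y : ℕ

def toD (d : Dn) : ℝ × ℝ × ℝ := ((d.a : ℝ) / 10000, (d.b : ℝ) / 10000, ml d.th)
def okD (d : Dn) : Bool := Nat.ble 1 d.a && Nat.ble 1 d.b && Nat.ble 1 d.th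
def uD (d : Dn) : ℕ := (d.a.mul 2).add 2501
def xD (d : Dn) : ℕ := ((d.a.mul 3).add d.b).add 5002
def c2 (d : Dn) (al : ℕ) : ℕ :=
  ((al.mul 1000000000000000).shiftLeft 96).div
    ((xU (al.mul ((xD d).mul 100))).sub (xL (al.mul ((uD d).mul 100))))
def cD (d : Dn) (a : ℕ) : ℕ := c2 d ((a.mul 2).add d.th)
def SU (d : Dn) : ℕ :=
  (((sU (yU (d.th.mul ((uD d).mul 100)))).mul
    (Nat.sub 1000000000000000000 (sD (yL (d.th.mul (d.b.mul 100)))))).div
    (((d.th.mul d.b).mul (d.th.mul d.b)).mul d.a)).succ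
def first (ds : List Dn) (a : ℕ) : ℕ := sumL ds fun d => mD d.y (cD d a)
/-- `BK + e0` from above -/
def BU (k : ℕ) : ℕ :=
  ((((((k.mul k).mul 11).add 2880000).sub (k.mul 6800)).mul 1000000000000000000).div
    480000).add 10000000000001
def qe (a : ℕ) : ℕ := ((a.mul a).add 2400000000).sub (a.mul 60000)
/-- `t * eta` from above -/
def etU (t a : ℕ) : ℕ := ((t.mul ((qe a).mul (qe a))).div 5760000000000000000).succ
/-- `exp (-E (j0 + k) / 200)` from above -/
def eE (E j0 k : ℕ) : ℕ := pwU (sU (yU ((E.mul j0).mul 5000))) (yU (E.mul 5000)) k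
def need (E j0 T k : ℕ) : ℕ :=
  (eE E j0 k).sub (((gt T k).mul 5760000000000000000).div
    ((qe ((j0.add k).mul 5)).mul (qe ((j0.add k).mul 5))))
def gk (E : ℕ) (ds : List Dn) (j0 T k m : ℕ) : Bool :=
  ((mU m (BU ((j0.add k).div 10))).add (etU ((eE E j0 k).sub m) ((j0.add k).mul 5))).ble
    ((gt T k).add (first ds (((j0.add k).mul 5).add 5)))
/-- the least admissible multiplier for the cells from `j0 + s` on -/
def muT (E j0 T s jt : ℕ) : ℕ :=
  mxN ((jt.sub j0).sub s) (fun k => need E j0 T (k.add s)) (eE E j0 (jt.sub j0))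
def grp (E : ℕ) (ds : List Dn) (j0 j1 jt T : ℕ) : Bool :=
  j0.ble j1 && j1.ble jt && jt.ble 2000 &&
    dsc (j1.sub j0) (need E j0 T) (gk E ds j0 T) (muT E j0 T (j1.sub j0) jt)
def tail (E : ℕ) (ds : List Dn) (j : ℕ) : Bool :=
  j.ble 2000 && (ds.all fun d => ((xD d).mul 2).ble (E.mul 10)) &&
    (mU (eE E j 0) (BU (j.div 10))).ble (first ds (j.mul 5))

structure Grp where
  j1 : ℕ
  jt : ℕ
  cs : List Con

def walk (E : ℕ) (ds : List Dn) (gs : List Grp) (j0 T : ℕ) : Bool :=
  List.rec (motive := fun _ => ℕ → ℕ → Bool) (fun j0 _ => tail E ds j0)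
    (fun g _ ih j0 T => (g.cs.all fun c => c.w.succ.ble (j0.mul 5)) &&
      fc (addL 0 j0 T g.cs) fun T' => grp E ds j0 g.j1 g.jt T' &&
        ih g.j1 (T'.shiftRight (Nat.mul 64 (g.j1.sub j0)))) gs j0 T

/-! ### certificates -/

structure Cer where
  nm : ℕ
  per : ℕ
  a1 : ℕ
  b1 : ℕ
  jl : ℕ
  jX : ℕ
  l0 : List Con
  gs : List Grp
  ds : List Dn

def flat (gs : List Grp) : List Con := gs.flatMap Grp.cs
def okA (C : Cer) : Bool :=
  ((C.l0 ++ flat C.gs).all fun c => okC (C.nm.mul C.per) c && c.u.ble (C.jl.mul 5) &&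
    (C.nm.beq 0 || costOk c.x c.u C.a1 c.mF c.cF)) &&
  (C.l0.all fun c => c.w.ble (C.jl.mul 5) && (C.nm.beq 0 || costOk c.x c.w C.a1 c.mE c.cE)) &&
  ((flat C.gs).all fun c => Nat.ble 100000000000000000000000000000000000000000 c.cE) &&
  C.ds.all okD
def okB (E : ℕ) (C : Cer) : Bool := walk E C.ds C.gs C.jl (addL 0 C.jl 0 C.l0)
def own (E : ℕ) (C : Cer) (m : ℕ) : ℕ :=
  (mU m (BU (C.a1.div 50))).add
    (C.per.mul (etU ((sU (yU ((E.mul C.a1).mul 1000))).sub m) C.a1))
def gain (C : Cer) : ℕ :=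
  (first C.ds C.b1).add (C.per.mul (sumL C.l0 fun c => mD c.y (rE c (C.per.sub 1) C.b1)))
def spent (C : Cer) : ℕ :=
  (sumL C.ds fun d => mU d.y ((SU d).add 10000000000000)).add
    (sumL (C.l0 ++ flat C.gs) fun c => mU c.y (c.Rt.add 10000000000000))
def okT (E : ℕ) (C : Cer) : Bool :=
  bif C.nm.beq 0 then (spent C).ble 995000000000000000 else
    C.jl.ble C.jX && C.jX.ble 2000 && C.a1.ble 10000 &&
    ((C.nm.mul (own E C (muT E C.jl (addL C.per C.jl 0 C.l0) 0 C.jX))).add (spent C)).ble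
      ((C.nm.mul (gain C)).add 995000000000000000)

/-! ### exclusion of positions of the first two zeros -/

structure Dv where
  ap : ℕ
  am : ℕ
  b : ℕ
  d : ℕ

def Dv.no : Dv := ⟨0, 0, 0, 10000000000000000000000000000000000000000⟩
def dB (x w b1 : ℕ) : ℕ :=
  bif b1.ble w then xL (((w.sub b1).mul x).mul 20) else yL (((b1.sub w).mul x).mul 20)
def dF (x w b1 : ℕ) : ℕ :=
  bif b1.ble w then Nat.add 1000000000000000000 (((w.sub b1).mul x).mul 20000000000)
  else Nat.sub 1000000000000000000 (((b1.sub w).mul x).mul 20000000000)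
def dP (x c w : ℕ) (D : Dv) (k : ℕ) : ℕ :=
  ((c.mul (eN x w k)).add D.ap).add (((D.b.mul x).mul (Nat.sub 50 k)).div 50000).succ
def dC (x c b w b1 : ℕ) (D : Dv) (i : ℕ) : ℕ :=
  cell i ((dP x c w D i).sub ((b.mul (pwD 1000000000000000000 (dB x w b1) i)).add D.am))
    ((dP x c w D i.succ).sub
      ((b.mul (mD (pwD 1000000000000000000 (dB x w b1) i) (dF x w b1))).add D.am))
def devOk (x c b b' w a1 b1 b2 : ℕ) (D : Dv) : Bool :=
  bif ((c.mul (FU x 0 w)).add (b.mul (FU x a1 w))).ble D.d then true else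
    b1.ble 1000 && D.am.ble (b'.mul (sD (yL (((b2.sub w).mul x).mul 1000)))) &&
    ((((intU x (dC x c b w b1 D)).mul 2).add (b.mul (FU x a1 w))).add
        ((D.am.mul x).div 2400).succ).ble
      (((D.d.add (c.mul (FD x 0 w))).add ((D.ap.mul x).div 2400)).add
        ((((D.b.mul x).mul x).mul 13).div 42000000))

def acN (p : List ℕ) (j : ℕ) : ℕ :=
  sumN 6 fun i => bif (i.add j).ble 5 then (p.getD i 0).mul (p.getD (i.add j) 0) else 0

/-- a test: length `i / 10`, polynomial `p`, line `w`, bounds `dv` -/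
structure Rc where
  i : ℕ
  p : List ℕ
  w : ℕ
  dv : List Dv

def Rc.x (R : Rc) : ℕ := R.i.mul 100
def Rc.D (R : Rc) (j : ℕ) : Dv := R.dv.getD j Dv.no
def Rc.a (R : Rc) (j : ℕ) : ℕ := acN R.p j
def Rc.ok (R : Rc) : Bool := Nat.ble 8 R.i && R.i.ble 35 && R.w.ble 10000
def ck1 (o a1 b1 : ℕ) (R : Rc) : Bool :=
  R.ok && (allN 6 fun t => bif (t.succ.mod o).beq 0 then
      devOk R.x (R.a t.succ) ((R.a t.succ.succ).add (R.a t)) 0 R.w a1 b1 0 (R.D t.succ)
    else true) &&
  ((((R.a 0).mul (FU R.x 0 R.w)).add ((sumN 6 fun t => bif (t.succ.mod o).beq 0 then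
      (R.D t.succ).d else (R.a t.succ).mul 125000000000000000).mul 2)).add
      ((R.a 0).mul 110000000000000)).succ.ble (((R.a 1).mul 2).mul (FD R.x b1 R.w))
def nb (R : Rc) (t : ℕ) : ℕ := (R.a t.succ).add (R.a ((t.sub 1).add (Nat.sub 1 t)))
def ok2 (a1 b1 b2 : ℕ) (R : Rc) : Bool :=
  R.ok && R.p.length.ble 3 && allN 4 fun t =>
    devOk R.x (R.a t) (nb R t) (R.a t) R.w a1 b1 b2 (R.D t) &&
    devOk R.x (R.a t) (nb R t) ((R.a t).mul 2) R.w a1 b1 b2 (R.D (t.add 4))
def ab3 (t : ℕ) : ℕ := (t.sub 3).add (Nat.sub 3 t)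
def pat (o j0 b1 b2 : ℕ) (R : Rc) : Bool :=
  (((((R.a 0).mul (FU R.x 0 R.w)).add ((sumN 3 fun t => bif (t.succ.mod o).beq 0 then
      (R.D t.succ).d else (R.a t.succ).mul 125000000000000000).mul 2)).add
      (sumN 7 fun t => bif Nat.ble 1 j0 && (t.mod o).beq ((j0.add 3).mod o) then
        (R.D (bif ((j0.mul 2).mod o).beq 0 then ab3 t else (ab3 t).add 4)).d
        else (R.a (ab3 t)).mul 125000000000000000)).add
      ((R.a 0).mul 100000000000000)).succ.ble
    ((((R.a 1).mul 2).mul (FD R.x b1 R.w)).add ((R.a 0).mul (FD R.x b2 R.w)))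

/-- a link: the second zero is not in `[T, b2]` -/
structure Lk where
  b2 : ℕ
  rs : List Rc

def lnk (o0 o1 a1 b1 T : ℕ) (L : Lk) : Bool :=
  L.b2.ble 10000 && (L.rs.all fun R => R.w.succ.ble T && ok2 a1 b1 L.b2 R) &&
    allN (o1.succ.sub o0) fun s => allN (o0.add s) fun j0 => L.rs.any (pat (o0.add s) j0 b1 L.b2)
def chain (o0 o1 a1 b1 Tf : ℕ) (Ls : List Lk) (T : ℕ) : Bool :=
  List.rec (motive := fun _ => ℕ → Bool) (fun T => Tf.ble T)
    (fun L _ ih T => lnk o0 o1 a1 b1 T L && ih L.b2) Ls T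

/-- a strip for the first zero that ends at `b` -/
structure Sp where
  b : ℕ
  T : ℕ
  ls : List Lk
  zs : List Rc

def subs (o0 o1 Tf bf : ℕ) (Ss : List Sp) (a : ℕ) : Bool :=
  List.rec (motive := fun _ => ℕ → Bool) (fun a => bf.ble a)
    (fun s _ ih a => chain o0 o1 a s.b Tf s.ls a && ih s.b) Ss a
def zsub (o0 o1 bf : ℕ) (Ss : List Sp) (a : ℕ) : Bool :=
  List.rec (motive := fun _ => ℕ → Bool) (fun a => bf.ble a)
    (fun s _ ih a => chain o0 o1 a s.b s.T s.ls a &&
      (allN (o1.succ.sub o0) fun t => s.zs.any fun R =>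
        (R.w.beq 0 || R.w.succ.ble s.T) && ck1 (o0.add t) a s.b R) && ih s.b) Ss a

def okI (i : ℕ) : Bool := Nat.ble 8 i && i.ble 35
def lci (b T i i' : ℕ) : Bool :=
  okI i && okI i' && T.ble 100000 &&
  ((FU (i.mul 100) 0 T).add 375200000000000001).ble
    ((FD (i.mul 100) b T).add (FD (i.mul 100) 1 0)) &&
  (((FU (i'.mul 100) 0 T).mul 2).add 250200000000000001).ble
    (((FD (i'.mul 100) b T).mul 2).add (FD (i'.mul 100) 1 0))
def oth (b T i : ℕ) : Bool :=
  okI i && ((FU (i.mul 100) 0 (T.sub 1)).add 375040000000000001).ble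
    ((FD (i.mul 100) b (T.sub 1)).add (FD (i.mul 100) 1 0))

structure Lo where
  b2 : ℕ
  i : ℕ
  w : ℕ
  D : Dv

def lko (a b T : ℕ) (L : Lo) : Bool :=
  okI L.i && L.w.succ.ble T && L.w.ble 10000 && devOk (L.i.mul 100) 1 1 1 L.w a b L.b2 L.D &&
  (((FU (L.i.mul 100) 0 L.w).add L.D.d).add 250040000000000001).ble
    ((FD (L.i.mul 100) b L.w).add (FD (L.i.mul 100) L.b2 L.w))
def cho (a b Tf : ℕ) (Ls : List Lo) (T : ℕ) : Bool :=
  List.rec (motive := fun _ => ℕ → Bool) (fun T => Tf.ble T)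
    (fun L _ ih T => lko a b T L && ih L.b2) Ls T

structure Sc where
  b : ℕ
  T : ℕ
  i : ℕ
  i' : ℕ
  io : ℕ
  ls : List Lo

def rc (a Tf : ℕ) (s : Sc) : Bool :=
  (s.T.ble a || lci s.b s.T s.i s.i') &&
    (Tf.ble s.T || Nat.ble 1 a && Tf.ble 10000 && oth s.b Tf s.io && cho a s.b Tf s.ls s.T)
def csub (Tf bf : ℕ) (Ss : List Sc) (a : ℕ) : Bool :=
  List.rec (motive := fun _ => ℕ → Bool) (fun a => bf.ble a)
    (fun s _ ih a => rc a Tf s && ih s.b) Ss a

/-! ### a real zero very close to `1` -/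

def tR (E ls : ℕ) (d : Dn) : ℕ :=
  ((sU (yU ((E.mul (ls.sub 1)).mul 1000))).mul 7).add
    (mU (dU (mU (sU (yU ((E.mul (ls.sub 1)).mul 1000))) (BU ((ls.sub 1).div 50))) (cD d (ls.sub 1)))
      ((SU d).add 10000000000000))
def tcOk (E i ls : ℕ) (d : Dn) : Bool :=
  Nat.ble 2760 E && E.ble 2900 && Nat.ble 11 i && i.ble 15 && Nat.ble 1 ls && ls.ble 6000 &&
    okD d && Nat.ble 1 (cD d (ls.sub 1)) && ((i.mul 1000).add ((xD d).mul 2)).ble (E.mul 10) &&
    (tR E ls d).ble 230000000000000000 &&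
    (((tR E ls d).mul ((FU (i.mul 100) 0 (ls.add 10)).sub (FD (i.mul 100) 0 ls))).mul 1000).ble
      (((mn ((FD (i.mul 100) 1 0).sub 375200000000000000)
        (((FD (i.mul 100) 1 0).sub 250200000000000000).div 2)).mul 23).mul 1000000000000000000)

end

end Pool.Agent.MP_c5bf7b_nt.H25L.Nm
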