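import Pool.Agent.MP_c5bf7b_nt.H38.SpecC

/-! Statements of the rows on the zeros far from the point `1`, for a Linnik exponent below `3`.
Paper proof: /team-store/MP_c5bf7b_H25_linnik3.md -/

set_option autoImplicit false

namespace Pool.Agent.MP_c5bf7b_nt.H25L

open Finset Complex ArithmeticFunction Pool.Agent.MP_c5bf7b_nt.H38

/-! ### zeros in a wider rectangle -/

def Rect5 (T : ℝ) : Set ℂ := {s | 5 / 8 ≤ s.re ∧ s.re ≤ 1 ∧ |s.im| ≤ T}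

/-- `Z` is the multiset of the zeros of `f` in the wider rectangle -/
def IsZ5 (f : ℂ → ℂ) (T : ℝ) (Z : Multiset ℂ) (G : ℂ → ℂ) : Prop :=
  Differentiable ℂ G ∧ (∀ s, f s = PZ Z s * G s) ∧ (∀ ρ ∈ Z, ρ ∈ Rect5 T) ∧
    ∀ s ∈ Rect5 T, G s ≠ 0

def NZ5 {q : ℕ} [NeZero q] (χ : Ch q) (Y : Multiset ℂ) : Prop :=
  ∃ Z G, IsZ5 (Phi χ) ((q : ℝ) ^ 3) Z G ∧ Y = Z.map (nz q)

noncomputable def HK (K : ℝ) (z : ℂ) : ℂ := ((1 - exp (-K * z)) / z) ^ 2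

noncomputable def HE (K E : ℝ) (z : ℂ) : ℂ := exp (-E * z) * HK K z

open Classical in
/-- the sum over all zeros with the property `P` -/
noncomputable def WK {q : ℕ} [NeZero q] (N : Ch q → Multiset ℂ) (K E : ℝ) (P : ℂ → Prop) : ℝ :=
  ∑ χ, (((N χ).filter P).map fun ζ => ‖HE K E ζ‖).sum

/-- twice the autocorrelation of `exp (-κ u)` on `[0, K]` -/
noncomputable def fK (K κ t : ℝ) : ℝ :=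
  if κ = 0 then 2 * (K - t) else Real.exp (-κ * t) * (1 - Real.exp (-2 * κ * (K - t))) / κ

/-- the function `B` of Heath-Brown for `φ = 1 / 4` -/
noncomputable def BK (K κ : ℝ) : ℝ :=
  if κ = 0 then 1 / (4 * K) + 1 else
    ((1 - Real.exp (-2 * κ * K)) / (8 * κ) +
      (2 * κ * K - 1 + Real.exp (-2 * κ * K)) / (2 * κ ^ 2)) / K ^ 2

open Classical in
def Gf5S : Prop :=
  ∃ C : ℝ, 1 ≤ C ∧ ∀ (f G : ℂ → ℂ) (Z : Multiset ℂ) (B T : ℝ), 2 ≤ B → 2 ≤ T → IsZ5 f T Z G →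
    (∀ s : ℂ, 1 < s.re → f s ≠ 0) →
    (∀ s : ℂ, 1 / 20 ≤ s.re → s.re ≤ 4 → |s.im| ≤ T + 2 → ‖f s‖ ≤ B) →
    (∀ τ : ℝ, |τ| ≤ T → 1 / 3 ≤ ‖f (2 + τ * I)‖) →
    (∀ τ : ℝ, ((Z.filter fun ρ => |ρ.im - τ| ≤ 1).card : ℝ) ≤ C * Real.log B) ∧
    ∀ w : ℂ, 63 / 100 ≤ w.re → w.re ≤ 2 → |w.im| ≤ T - 1 →
      ‖deriv G w / G w‖ ≤ C * Real.log B * (1 + Real.log T) ∧
      ∀ w' : ℂ, 63 / 100 ≤ w'.re → w'.re ≤ 2 → |w'.im| ≤ T - 1 →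
        ‖deriv G w / G w - deriv G w' / G w'‖ ≤ C * Real.log B * √‖w - w'‖

def Cnt5S : Prop :=
  ∃ C : ℝ, 1 ≤ C ∧ ∀ (q : ℕ) [NeZero q] (χ : Ch q), 2 ≤ q →
    (∀ Y, NZ χ Y → ∃ Y', NZ5 χ (Y + Y') ∧ ∀ ζ ∈ Y', Real.log q / 3 < ζ.re) ∧
    ∀ Y, NZ5 χ Y → Cnt (Real.log q) C Y ∧ ∀ ζ ∈ Y, 0 < ζ.re ∧ ζ.re ≤ 3 / 8 * Real.log q ∧
      |ζ.im| ≤ (q : ℝ) ^ 3 * Real.log q ∧ Phi χ (1 - ζ / Real.log q) = 0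

open Classical in
/-- the explicit formula with the wider rectangle -/
def Ef5S : Prop :=
  ∃ C : ℝ, 1 ≤ C ∧ ∃ q₀ : ℕ, ∀ (q : ℕ) [NeZero q], q₀ ≤ q → ∀ (χ : Ch q) (Y : Multiset ℂ)
    (k : ℝ → ℂ) (D l τ : ℝ), NZ5 χ Y → Continuous k → (∀ u, u ≤ 0 → k u = 0) →
    (∀ u, 0 ≤ u → ‖k u‖ ≤ D * Real.exp (-u)) → 0 ≤ l → l ≤ 37 / 100 * Real.log q →
    (∀ z : ℂ, -1 / 2 ≤ z.re → z.re ≤ l → ‖Lh k z‖ ≤ D / (1 + z.im ^ 2)) →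
    |τ| ≤ q * Real.log q →
    ‖(∑' n : ℕ, ((vonMangoldt n / (n * Real.log q) : ℝ) : ℂ) * χ n *
          exp (τ * I * (Real.log n / Real.log q : ℝ)) * k (Real.log n / Real.log q)) +
        (Y.map fun ζ => Lh k (ζ - τ * I)).sum - (if χ = 1 then Lh k (-(τ * I)) else 0)‖ ≤
      C * (∫ y : ℝ, ‖Lh k (l + y * I)‖ * √|y|) / √(Real.log q) +
        C * D * Real.log q ^ 3 / (q : ℝ) ^ 2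

def Hf5S : Prop :=
  ∀ K E : ℝ, 0 < K → K ≤ 1 / 4 → 11 / 4 ≤ E → E ≤ 5 → ∃ q₀ : ℕ, ∀ (q : ℕ) [NeZero q], q₀ ≤ q →
    ∀ N : Ch q → Multiset ℂ, (∀ χ, NZ5 χ (N χ)) → ∀ a : ℕ, a.Coprime q →
    (∀ p : ℕ, p.Prime → p ≡ a [MOD q] → (q : ℝ) ^ (E + 2 * K) < p) →
    K ^ 2 ≤ WK N K E (fun _ => True) + (q : ℝ) ^ (-1 / 100 : ℝ)

/-- facts on the kernels -/
def HkS : Prop :=
  (∀ K κ : ℝ, 0 < K → K ≤ 1 → 0 ≤ κ → Adm (fK K κ) K ∧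
    fK K κ 0 / 8 + Lr (fK K κ) K (-κ) = K ^ 2 * BK K κ ∧
    ∀ ζ : ℂ, ζ ≠ 0 → κ ≤ ζ.re → ‖HK K ζ‖ ≤ (Lp (fK K κ) K (ζ - κ)).re) ∧
  ∀ (K : ℝ) (ζ : ℂ), 0 < K → 0 < ζ.re → ‖HK K ζ‖ ≤ 4 / ‖ζ‖ ^ 2 ∧
    ‖HK K ζ‖ ≤ ((1 - Real.exp (-K * ζ.re)) / ζ.re) ^ 2 ∧ ‖HK K ζ‖ ≤ K ^ 2

/-- the contribution of one character -/
def PckS : Prop :=
  ∀ K κ ε : ℝ, 0 < K → K ≤ 1 → 0 ≤ κ → κ ≤ 10 → 0 < ε → ∃ q₀ : ℕ, ∀ (q : ℕ) [NeZero q], q₀ ≤ q →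
    ∀ N : Ch q → Multiset ℂ, (∀ χ, NZ χ (N χ)) → ∀ χ : Ch q,
    (∀ ζ ∈ N χ, |ζ.im| ≤ Real.log q → κ ≤ ζ.re) →
    ((N χ).map fun ζ => ‖HK K ζ‖).sum ≤ K ^ 2 * (BK K κ + ε)

open Classical in
/-- the basic inequality; at most four exceptional zeros `Y`, and any further kept zeros `Y'` -/
def KFa (q : ℕ) (N : Ch q → Multiset ℂ) (f : ℝ → ℝ) (x ε Lm Th : ℝ) : Prop :=
  ∀ (χ : Ch q) (w : ℂ) (Y Y' : Multiset ℂ), Y + Y' ≤ N χ → Y.card ≤ 4 → (∀ ζ ∈ Y', ζ.re ≤ Lm) →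
    0 ≤ w.re → w.re ≤ Lm → |w.im| ≤ Th → (∀ ζ ∈ N χ - Y, Hp (Real.log q) w ζ) →
    (Kn q f x χ w).re ≤ Rhs f x ε χ w (Y + Y')

def KfaS : Prop :=
  ∀ (f : ℝ → ℝ) (x ε : ℝ), Adm f x → 0 < ε → ∃ δ : ℝ, 0 < δ ∧ ∃ q₀ : ℕ,
    ∀ (q : ℕ) [NeZero q], q₀ ≤ q → ∀ N : Ch q → Multiset ℂ, (∀ χ, NZ χ (N χ)) →
    KFa q N f x ε (δ * Real.log q) ((q : ℝ) ^ δ * Real.log q)

/-! ### the density estimate with exponent `11 / 4` -/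

/-- the inequality of Polya and Vinogradov -/
def PvS : Prop :=
  ∀ ε : ℝ, 0 < ε → ∃ C : ℝ, 1 ≤ C ∧ ∀ (q : ℕ) [NeZero q] (χ : Ch q), χ ≠ 1 → ∀ a b : ℕ,
    ‖∑ k ∈ Ioc a b, χ k‖ ≤ C * (q : ℝ) ^ (1 / 2 + ε)

/-- detection of zeros -/
def DetS : Prop :=
  ∀ V : ℕ, 1 ≤ V → ∃ a : ℕ → ℂ, (∀ n, 1 ≤ n → ‖a n‖ ≤ n.divisors.card) ∧
    ∀ (q : ℕ) [NeZero q] (χ : Ch q) (ρ : ℂ) (σ T P : ℝ) (X : ℕ), χ ≠ 1 →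
    DirichletCharacter.LFunction χ ρ = 0 → 5 / 8 ≤ σ → σ ≤ ρ.re → ‖ρ‖ ≤ T →
    (∀ a b : ℕ, ‖∑ k ∈ Ioc a b, χ k‖ ≤ P) → V ≤ X → 2 ≤ X →
    V * (3 * P * T * ((X : ℝ) / 2) ^ (-σ)) ≤ 1 / 2 →
    1 / 2 ≤ ‖∑ n ∈ Ioc V X, a n * χ n * (n : ℂ) ^ (-ρ)‖

/-- a Dirichlet polynomial that is large at one point for each character of `J` -/
def Big {q : ℕ} (J : Finset (Ch q)) (ρ : Ch q → ℂ) (σ t : ℝ) (b : ℕ → ℂ) (M M' : ℕ)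
    (D W : ℝ) : Prop :=
  5 / 8 ≤ σ ∧ σ ≤ 1 ∧ 1 ≤ M ∧ M ≤ M' ∧ 0 < W ∧ (∀ n ∈ Ioc M M', ‖b n‖ ≤ D) ∧
    ∀ χ ∈ J, σ ≤ (ρ χ).re ∧ (ρ χ).re ≤ 1 ∧ |(ρ χ).im - t| ≤ 1 ∧
      W ≤ ‖∑ n ∈ Ioc M M', b n * χ n * (n : ℂ) ^ (-ρ χ)‖

/-- large values by the mean square -/
def Lv1S : Prop :=
  ∀ (q : ℕ) [NeZero q] (J : Finset (Ch q)) (ρ : Ch q → ℂ) (σ t : ℝ) (b : ℕ → ℂ) (M M' : ℕ)
    (D W : ℝ), Big J ρ σ t b M M' D W →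
    J.card * W ^ 2 ≤ 10 * (1 + Real.log M') ^ 2 * D ^ 2 *
      ((M' : ℝ) ^ (2 - 2 * σ) + q * (M : ℝ) ^ (1 - 2 * σ))

/-- large values by the method of Halasz -/
def Lv2S : Prop :=
  ∀ (q : ℕ) [NeZero q] (J : Finset (Ch q)) (ρ : Ch q → ℂ) (σ t : ℝ) (b : ℕ → ℂ) (M M' : ℕ)
    (D W P : ℝ), Big J ρ σ t b M M' D W → 0 ≤ P →
    (∀ ψ : Ch q, ψ ≠ 1 → ∀ a b : ℕ, ‖∑ k ∈ Ioc a b, ψ k‖ ≤ P) →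
    J.card * W ^ 2 ≤ 4 * D ^ 2 * (M : ℝ) ^ (1 - 2 * σ) *
      (M' + 4 * J.card * P * (1 + Real.log M'))

/-- powers of a Dirichlet polynomial -/
def PowS : Prop :=
  ∀ (a : ℕ → ℂ) (N N' k : ℕ) (D D' : ℝ), 1 ≤ k → N ≤ N' → 0 ≤ D → 1 ≤ D' →
    (∀ n ∈ Ioc N N', ‖a n‖ ≤ D) → (∀ n, n ≤ N' ^ k → (n.divisors.card : ℝ) ≤ D') →
    ∃ b : ℕ → ℂ, (∀ n, ‖b n‖ ≤ (D * D') ^ k) ∧ ∀ g : ℕ → ℂ, (∀ m n, g (m * n) = g m * g n) →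
      (∑ n ∈ Ioc N N', a n * g n) ^ k = ∑ n ∈ Ioc (N ^ k) (N' ^ k), b n * g n

/-- the choice of the power -/
def ExpS : Prop :=
  ∀ σ τ n : ℝ, 5 / 8 ≤ σ → σ ≤ 1 → 0 ≤ τ → 11 / 4 * (1 - σ) + 19 / 20 * τ ≤ 1 → 0 < n →
    n * σ ≤ 1 / 2 + τ + 1 / 100 →
    ∃ k : ℕ, 1 ≤ k ∧ k * n ≤ 3 ∧ k * n * (2 - 2 * σ) ≤ 11 / 4 * (1 - σ) + 19 / 20 * τ ∧
      (1 - k * n * (2 * σ - 1) ≤ 11 / 4 * (1 - σ) + 19 / 20 * τ ∨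
        1 / 2 + 1 / 100 ≤ k * n * (2 * σ - 1))

def Den5S : Prop :=
  ∀ ε : ℝ, 0 < ε → ∃ C : ℝ, 1 ≤ C ∧ ∀ (q : ℕ) [NeZero q] (σ t : ℝ) (J : Finset (Ch q))
    (ρ : Ch q → ℂ), 5 / 8 ≤ σ → σ ≤ 1 →
    (∀ χ ∈ J, χ ≠ 1 ∧ DirichletCharacter.LFunction χ (ρ χ) = 0 ∧ σ ≤ (ρ χ).re ∧
      (ρ χ).re ≤ 1 ∧ |(ρ χ).im - t| ≤ 1) →
    (J.card : ℝ) ≤ C * (q : ℝ) ^ (ε + 11 / 4 * (1 - σ)) * (|t| + 2) ^ (19 / 20 : ℝ)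

def Mid5S : Prop :=
  ∀ K E δ η : ℝ, 0 < K → K ≤ 1 / 4 → 11 / 4 < E → 0 < δ → 0 < η → ∃ δ' : ℝ, 0 < δ' ∧
    ∃ q₀ : ℕ, ∀ (q : ℕ) [NeZero q], q₀ ≤ q → ∀ N : Ch q → Multiset ℂ, (∀ χ, NZ5 χ (N χ)) →
    WK N K E (fun ζ => δ * Real.log q ≤ ζ.re ∨ (q : ℝ) ^ η * Real.log q < |ζ.im|) ≤
      (q : ℝ) ^ (-δ')

/-- the conclusion of this part: a class without small primes forces zeros close to `1` -/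
def FarS : Prop :=
  ∀ K E δ η : ℝ, 0 < K → K ≤ 1 / 4 → 11 / 4 < E → E ≤ 5 → 0 < δ → δ ≤ 1 / 3 → 0 < η →
    ∃ δ' : ℝ, 0 < δ' ∧ ∃ q₀ : ℕ, ∀ (q : ℕ) [NeZero q], q₀ ≤ q →
    ∀ N : Ch q → Multiset ℂ, (∀ χ, NZ χ (N χ)) → ∀ a : ℕ, a.Coprime q →
    (∀ p : ℕ, p.Prime → p ≡ a [MOD q] → (q : ℝ) ^ (E + 2 * K) < p) →
    K ^ 2 ≤ WK N K E (fun ζ => ζ.re < δ * Real.log q ∧ |ζ.im| ≤ (q : ℝ) ^ η * Real.log q) +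
      (q : ℝ) ^ (-δ')

def Cnt5Of : Prop := PhiS → Gf5S → Cnt5S
def Ef5Of : Prop := PhiS → Gf5S → LapS → Ef5S
def Hf5Of : Prop := Ef5S → Hf5S
def PckOf : Prop := CntS → LpS → HkS → KfS → ZetaS → PckS
def KfaOf : Prop := CntS → LpS → KfS → KfaS
def DetOf : Prop := BaseS → DetS
def Den5Of : Prop := PvS → DetS → Lv1S → Lv2S → PowS → ExpS → Den5S
def Mid5Of : Prop := Cnt5S → HkS → Den5S → Mid5S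
def FarOf : Prop := Cnt5S → Hf5S → Mid5S → FarS

end Pool.Agent.MP_c5bf7b_nt.H25L
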