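import Pool.Agent.MP_c5bf7b_nt.H25L.SpecA

/-! Statements of the rows on the zeros close to the point `1`, for a Linnik exponent below `3`.
Paper proof: /team-store/MP_c5bf7b_H25_linnik3.md -/

set_option autoImplicit false

namespace Pool.Agent.MP_c5bf7b_nt.H25L

open Finset Complex ArithmeticFunction Pool.Agent.MP_c5bf7b_nt.H38

/-! ### positivity of transforms -/

/-- the parabola function times a triangle has a transform with non-negative real part -/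
def PolS : Prop :=
  ∀ x v ν : ℝ, 0 < x → x ≤ 5 → 0 ≤ v → v ≤ x →
    0 ≤ (Lp (fun u => par x u * (v - u)) v (ν * I)).re

/-- linear minus convex decreasing: only the positive part costs -/
def PairS : Prop :=
  ∀ x A B p d p' d' ν : ℝ, 0 < x → x ≤ 5 → 0 ≤ B → 0 ≤ p → 0 ≤ d → 0 ≤ p' → 0 ≤ d' →
    (Lp (fun u => par x u * (A + B * u)) x (ν * I)).re - p * (Lp (par x) x (d + ν * I)).re -
        p' * (Lp (par x) x (d' + ν * I)).re ≤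
      ∫ u in (0 : ℝ)..x,
        par x u * max 0 (A + B * u - p * Real.exp (-d * u) - p' * Real.exp (-d' * u))

/-! ### the prime side -/

noncomputable def un (q n : ℕ) : ℝ := Real.log n / Real.log q

/-- the weight of `n` -/
noncomputable def lw (q n : ℕ) : ℝ := vonMangoldt n / (n * Real.log q)

/-- the linear form of a family of characters and heights -/
noncomputable def Zs {ι : Type} {q : ℕ} (J : Finset ι) (ch : ι → Ch q) (t c : ι → ℝ) (n : ℕ) : ℂ :=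
  ∑ j ∈ J, (c j : ℂ) * ch j n * exp ((t j * un q n : ℝ) * I)

open Classical in
/-- sum over the pairs with the same character -/
noncomputable def Same {ι : Type} {q : ℕ} (J : Finset ι) (ch : ι → Ch q) (c : ι → ℝ)
    (g : ι → ι → ℝ) : ℝ :=
  ∑ j ∈ J, ∑ k ∈ J, if ch j = ch k then c j * c k * g j k else 0

def GzS : Prop :=
  ∀ (q : ℕ) [NeZero q] (ι : Type) (J : Finset ι) (ch : ι → Ch q) (t c : ι → ℝ) (f : ℝ → ℝ)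
    (x w : ℝ),
    ∑ j ∈ J, c j * (Kn q f x (ch j) (w + t j * I)).re =
      ∑ n ∈ Icc 1 ⌊(q : ℝ) ^ x⌋₊,
        lw q n * f (un q n) * Real.exp (w * un q n) * (Zs J ch t c n).re ∧
    ∑ j ∈ J, ∑ k ∈ J, c j * c k * (Kn q f x (ch j * (ch k)⁻¹) (w + (t j - t k : ℝ) * I)).re =
      ∑ n ∈ Icc 1 ⌊(q : ℝ) ^ x⌋₊,
        lw q n * f (un q n) * Real.exp (w * un q n) * ‖Zs J ch t c n‖ ^ 2 ∧
    (2 ≤ q → (∀ u, 0 ≤ u → u ≤ x → 0 ≤ f u) → 0 ≤ ∑ j ∈ J, ∑ k ∈ J,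
      c j * c k * (Kn q f x (ch j * (ch k)⁻¹) (w + (t j - t k : ℝ) * I)).re) ∧
    ∀ u : ℝ, 0 ≤ Same J ch c (fun j k => Real.cos ((t j - t k) * u)) ∧
      ((∀ j ∈ J, 0 ≤ c j) →
        Same J ch c (fun j k => Real.cos ((t j - t k) * u)) ≤ (∑ j ∈ J, c j) ^ 2)

/-- the estimate of Mertens with a weight -/
def MerS : Prop :=
  ∀ (a b ε : ℝ) (β : ℝ → ℝ), 0 ≤ a → a ≤ b → 0 < ε → ContinuousOn β (Set.Icc a b) →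
    (∀ u ∈ Set.Icc a b, 0 ≤ β u) → ∃ q₀ : ℕ, ∀ q : ℕ, q₀ ≤ q →
    ∑ n ∈ Ioc ⌊(q : ℝ) ^ a⌋₊ ⌊(q : ℝ) ^ b⌋₊, lw q n * β (un q n) ≤ (∫ u in a..b, β u) + ε

/-- the diagonal term of the sieve, with oscillation -/
def DiagS : Prop :=
  ∀ c a b ε : ℝ, 0 < c → 2 * c < a → a ≤ b → 0 < ε → ∃ δ : ℝ, 0 < δ ∧ ∃ q₀ : ℕ,
    ∀ q : ℕ, q₀ ≤ q → ∀ θ : ℕ → ℝ, Sel q ((q : ℝ) ^ c) θ → ∃ κ : ℝ, κ ≤ 1 / c ∧
    ∀ ν : ℝ, |ν| ≤ (q : ℝ) ^ δ * Real.log q →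
      ‖∑ n ∈ (Ioc ⌊(q : ℝ) ^ a⌋₊ ⌊(q : ℝ) ^ b⌋₊).filter (fun n => n.Coprime q),
          (((∑ d ∈ n.divisors, θ d) ^ 2 / n : ℝ) : ℂ) * exp ((ν * un q n : ℝ) * I) -
        κ * ∫ u in a..b, exp ((ν * u : ℝ) * I)‖ ≤ ε

/-- the large sieve for primes on one cell -/
def Sv1S : Prop :=
  ∀ a b ε : ℝ, f0 < a → a ≤ b → 0 < ε → ∃ δ : ℝ, 0 < δ ∧ ∃ q₀ : ℕ,
    ∀ (q : ℕ) [NeZero q], q₀ ≤ q → ∀ (ι : Type) (J : Finset ι) (ch : ι → Ch q) (t c : ι → ℝ)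
      (y : ℝ), (∀ j ∈ J, ch j ≠ 1 ∧ |t j| ≤ (q : ℝ) ^ δ * Real.log q ∧ 0 ≤ c j) →
    ∑ n ∈ (Ioc ⌊(q : ℝ) ^ a⌋₊ ⌊(q : ℝ) ^ b⌋₊).filter (fun n => n.Coprime q),
        lw q n * ‖Zs J ch t c n - y‖ ^ 2 ≤
      2 * b / (a - f0) *
        (∫ u in a..b, (y ^ 2 + Same J ch c fun j k => Real.cos ((t j - t k) * u))) +
        ε * (|y| + ∑ j ∈ J, c j) ^ 2

/-- the large sieve for primes with continuous weights -/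
def SvwS : Prop :=
  ∀ (a b ε : ℝ) (G y : ℝ → ℝ), f0 < a → a ≤ b → 0 < ε → ContinuousOn G (Set.Icc a b) →
    ContinuousOn y (Set.Icc a b) → (∀ u ∈ Set.Icc a b, 0 ≤ G u) → ∃ δ : ℝ, 0 < δ ∧ ∃ q₀ : ℕ,
    ∀ (q : ℕ) [NeZero q], q₀ ≤ q → ∀ (ι : Type) (J : Finset ι) (ch : ι → Ch q) (t c : ι → ℝ),
    (∀ j ∈ J, ch j ≠ 1 ∧ |t j| ≤ (q : ℝ) ^ δ * Real.log q ∧ 0 ≤ c j) →
    ∑ n ∈ (Ioc ⌊(q : ℝ) ^ a⌋₊ ⌊(q : ℝ) ^ b⌋₊).filter (fun n => n.Coprime q),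
        lw q n * G (un q n) * ‖Zs J ch t c n - y (un q n)‖ ^ 2 ≤
      (∫ u in a..b, 2 * u / (u - f0) * G u *
        (y u ^ 2 + Same J ch c fun j k => Real.cos ((t j - t k) * u))) +
        ε * (1 + ∑ j ∈ J, c j) ^ 2

noncomputable def Psi (x γ u : ℝ) : ℝ := 1 - γ * (1 - u / x)

/-- the data of one inequality between prime sums: length `x`, levels `w` and `v`, cells
`[a i, a (i + 1)]` with the share `τ i` -/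
structure Par where
  x : ℝ
  w : ℝ
  v : ℝ
  γ : ℝ
  n : ℕ
  a : ℕ → ℝ
  τ : ℕ → ℝ

structure Par.Ok (P : Par) : Prop where
  x0 : 0 < P.x
  x5 : P.x ≤ 5
  w0 : 0 ≤ P.w
  w1 : P.w ≤ 10
  v0 : 0 ≤ P.v
  v1 : P.v ≤ 10
  g0 : 0 ≤ P.γ
  g1 : P.γ < 1
  a0 : f0 < P.a 0
  mono : ∀ i < P.n, P.a i ≤ P.a (i + 1)
  an : P.a P.n = P.x
  t : ∀ i < P.n, 0 ≤ P.τ i ∧ P.τ i ≤ 1

noncomputable def Par.I (P : Par) : ℝ :=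
  (∫ u in (0 : ℝ)..P.a 0, par P.x u * Real.exp ((2 * P.w - P.v) * u)) +
    ∑ i ∈ range P.n, P.τ i ^ 2 *
      ∫ u in P.a i..P.a (i + 1), par P.x u * Real.exp ((2 * P.w - P.v) * u)

noncomputable def Par.R (P : Par) : ℝ :=
  ∑ i ∈ range P.n, (1 - P.τ i) ^ 2 * ∫ u in P.a i..P.a (i + 1),
    par P.x u * (Real.exp (2 * P.w * u) * ((u + f0) / ((u - f0) * Psi P.x P.γ u)))

/-- the inequality between prime sums -/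
def PSp (q : ℕ) (P : Par) (ε Th : ℝ) : Prop :=
  ∀ (ι : Type) (J : Finset ι) (ch : ι → Ch q) (t c : ι → ℝ) (σ : ℝ), 0 < σ →
    (∀ j ∈ J, ch j ≠ 1 ∧ |t j| ≤ Th ∧ 0 ≤ c j) →
    -2 * ∑ j ∈ J, c j * (Kn q (par P.x) P.x (ch j) (P.w + t j * I)).re ≤
      σ * ∑ j ∈ J, ∑ k ∈ J, c j * c k *
        (Kn q (par P.x) P.x (ch j * (ch k)⁻¹) (P.v + (t j - t k : ℝ) * I)).re +
      P.I / σ + P.R +
      Same J ch c (fun j k =>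
        (Lp (fun u => par P.x u * Psi P.x P.γ u) P.x ((t j - t k : ℝ) * I)).re) +
      ε * (1 + 1 / σ) * (1 + ∑ j ∈ J, c j) ^ 2

def PsS : Prop :=
  ∀ (P : Par) (ε : ℝ), P.Ok → 0 < ε → ∃ δ : ℝ, 0 < δ ∧ ∃ q₀ : ℕ, ∀ (q : ℕ) [NeZero q], q₀ ≤ q →
    PSp q P ε ((q : ℝ) ^ δ * Real.log q)

/-! ### the density inequality for all zeros -/

/-- `c` bounds the cost of a zero at distance `δ` to the right of the test point -/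
def Cost (x δ c : ℝ) : Prop :=
  0 ≤ c ∧ (δ ≤ 0 ∨ ∃ m : ℝ, 1 ≤ m ∧ ∫ u in (0 : ℝ)..x, par x u * |Real.exp (δ * u) - m| ≤ c)

structure DZ where
  P : Par
  σ : ℝ
  cap : ℝ
  ds : ℝ
  al : ℝ
  be : ℝ
  Sm : ℝ
  s : ℝ
  M : ℝ
  Rt : ℝ
  ρ : ℝ
  ex : ℝ
  cE : ℝ
  cF : ℝ
  nE : ℕ

structure DZ.Ok (D : DZ) : Prop where
  p : D.P.Ok
  σ0 : 0 < D.σ
  cap0 : 0 < D.cap
  ds0 : 0 ≤ D.ds
  cap2 : D.cap * Real.exp (D.ds * D.P.x) ≤ 2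
  al0 : 0 ≤ D.al
  Sm0 : 0 < D.Sm
  hs : (D.σ / 8 + D.P.I / D.σ) / 2 ≤ D.s
  M0 : 0 < D.M
  hM : ∫ u in (0 : ℝ)..D.P.x, par D.P.x u * Psi D.P.x D.P.γ u ≤ D.M
  cE0 : 0 ≤ D.cE
  cF0 : 0 ≤ D.cF
  nE2 : D.nE ≤ 2
  hR : D.P.R + D.σ * D.cap * max 0 (Lr (par D.P.x) D.P.x (-D.P.v) - 1 / 8 + D.nE * D.cF) ≤ D.Rt
  pair : (∫ u in (0 : ℝ)..D.P.x, par D.P.x u * max 0 (Psi D.P.x D.P.γ u +
      D.σ / D.Sm * (D.be + D.al * u) - 2 * Real.exp (-D.ds * u) / D.cap)) +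
    D.σ / D.Sm * (∫ u in (0 : ℝ)..D.P.x, par D.P.x u * |Real.exp (D.P.v * u) - (D.be + D.al * u)|) ≤
    D.σ / D.Sm * (1 / 8 - D.nE * D.cF)
  ρ0 : 0 ≤ D.ρ
  ex0 : 0 ≤ D.ex
  triv : D.ρ * D.Sm + D.nE * D.ex ≤ D.Rt

/-- `c` is an admissible coefficient for a zero at `l` -/
def DZ.Co (D : DZ) (l c : ℝ) : Prop :=
  0 ≤ c ∧ c ≤ D.cap ∧ c * Real.exp ((l - D.P.w) * D.P.x) ≤ D.cap * Real.exp (D.ds * D.P.x)

/-- `r` is an admissible cost for a zero at `l` whose character has `n` other exceptional zeros -/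
def DZ.Ad (D : DZ) (l : ℝ) (n : ℕ) (e r : ℝ) : Prop :=
  r ≤ 0 ∨ ∃ c Δ : ℝ, D.Co l c ∧
    Δ ≤ Lr (par D.P.x) D.P.x (l - D.P.w) - 1 / 8 - D.s - n * D.cE ∧ 1 / 1000 ≤ Δ ∧ D.M * c ≤ Δ ∧
    r ≤ c * (2 * Δ - D.M * c) ∧ r ≤ D.ρ * c + e

open Classical in
/-- what is needed of the exceptional zeros `E` -/
structure Exc {q : ℕ} [NeZero q] (N E : Ch q → Multiset ℂ) (D : DZ) (Th T : ℝ) : Prop where
  one : E 1 = 0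
  card : ∑ χ, (E χ).card ≤ D.nE
  le : ∀ χ, E χ ≤ N χ
  th : 2 * T ≤ Th
  far : ∀ χ, ∀ ζ ∈ N χ - E χ, |ζ.im| ≤ 2 * T + Real.log q → D.P.v ≤ ζ.re
  cost : ∀ χ, ∀ ζ ∈ E χ, Cost D.P.x (D.P.v - ζ.re) D.cF

open Classical in
/-- what is needed of a test point `z` for the character `χ` -/
structure Tst {q : ℕ} (N E : Ch q → Multiset ℂ) (D : DZ) (Lm T : ℝ) (χ : Ch q) (z : ℂ) : Prop where
  ne : χ ≠ 1
  im : |z.im| ≤ T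
  re : z.re ≤ Lm
  near : ∀ ζ ∈ N χ - E χ, |ζ.im - z.im| ≤ Real.log q → D.P.w ≤ ζ.re
  cost : ∀ ζ ∈ E χ, Cost D.P.x (D.P.w - ζ.re) D.cE

open Classical in
/-- a family of test points; `e j` says that the point is one of the exceptional zeros -/
structure Fam {q : ℕ} [NeZero q] (N E : Ch q → Multiset ℂ) (D : DZ) (Lm Th T : ℝ) {ι : Type}
    (J : Finset ι) (ch : ι → Ch q) (z : ι → ℂ) (e : ι → Prop) : Prop where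
  exc : Exc N E D Th T
  tst : ∀ j ∈ J, Tst N E D Lm T (ch j) (z j)
  sub : ∀ χ, (J.filter fun j => ch j = χ ∧ e j).val.map z ≤ E χ
  sub' : ∀ χ, E χ + (J.filter fun j => ch j = χ ∧ ¬ e j).val.map z ≤ N χ

open Classical in
def Dz2S : Prop :=
  ∀ (q : ℕ) [NeZero q] (N E : Ch q → Multiset ℂ) (D : DZ) (ε Lm Th T σ : ℝ) (ι : Type)
    (J : Finset ι) (ch : ι → Ch q) (z : ι → ℂ) (e : ι → Prop) (c : ι → ℝ), D.Ok → 2 ≤ q →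
    (∀ χ, ∀ ζ ∈ N χ, 0 < ζ.re) → 10 ≤ Lm → 0 ≤ ε → KFa q N (par D.P.x) D.P.x ε Lm Th →
    PSp q D.P ε Th → Fam N E D Lm Th T J ch z e → (∀ j ∈ J, D.Co (z j).re (c j)) → 0 < σ →
    σ ≤ D.σ / D.Sm →
    ∑ j ∈ J, c j * (2 * (Lr (par D.P.x) D.P.x ((z j).re - D.P.w) - 1 / 8 -
        (((E (ch j)).card - if e j then 1 else 0 : ℕ) : ℝ) * D.cE) - D.M * c j) ≤
      σ * (∑ j ∈ J, c j) ^ 2 / 8 + D.P.I / σ + D.P.R +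
        σ * max 0 (Lr (par D.P.x) D.P.x (-D.P.v) - 1 / 8 + D.nE * D.cF) * ∑ j ∈ J, c j ^ 2 +
        3 * ε * (1 + σ + 1 / σ) * (1 + ∑ j ∈ J, c j) ^ 2

open Classical in
/-- the density inequality for an indexed family -/
def DZi (q : ℕ) [NeZero q] (N : Ch q → Multiset ℂ) (D : DZ) (ε Lm Th : ℝ) : Prop :=
  ∀ (E : Ch q → Multiset ℂ) (T : ℝ) (ι : Type) (J : Finset ι) (ch : ι → Ch q) (z : ι → ℂ)
    (e : ι → Prop) (r : ι → ℝ), Fam N E D Lm Th T J ch z e →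
    (∀ j ∈ J, D.Ad (z j).re ((E (ch j)).card - if e j then 1 else 0) (if e j then D.ex else 0)
      (r j)) →
    ∑ j ∈ J, r j ≤ D.Rt + ε

def Dz3S : Prop :=
  ∀ (D : DZ) (ε : ℝ), D.Ok → 0 < ε → ∃ ε' : ℝ, 0 < ε' ∧ ∀ (q : ℕ) [NeZero q]
    (N : Ch q → Multiset ℂ) (Lm Th : ℝ), 2 ≤ q → (∀ χ, ∀ ζ ∈ N χ, 0 < ζ.re) → 10 ≤ Lm →
    KFa q N (par D.P.x) D.P.x ε' Lm Th → PSp q D.P ε' Th → DZi q N D ε Lm Th

/-- the density inequality: `Z` are ordinary test zeros, `Y` exceptional ones -/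
def DZp (q : ℕ) [NeZero q] (N : Ch q → Multiset ℂ) (D : DZ) (ε Lm Th : ℝ) : Prop :=
  ∀ (E Z Y : Ch q → Multiset ℂ) (T : ℝ) (r r' : Ch q → ℂ → ℝ), Exc N E D Th T →
    (∀ χ, Y χ ≤ E χ ∧ E χ + Z χ ≤ N χ) →
    (∀ χ, ∀ ζ ∈ Z χ, Tst N E D Lm T χ ζ ∧ D.Ad ζ.re (E χ).card 0 (r χ ζ)) →
    (∀ χ, ∀ ζ ∈ Y χ, Tst N E D Lm T χ ζ ∧ D.Ad ζ.re ((E χ).card - 1) D.ex (r' χ ζ)) →
    ∑ χ, ((Z χ).map (r χ)).sum + ∑ χ, ((Y χ).map (r' χ)).sum ≤ D.Rt + ε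

def DzS : Prop :=
  ∀ (D : DZ) (ε : ℝ), D.Ok → 0 < ε → ∃ δ : ℝ, 0 < δ ∧ ∃ q₀ : ℕ, ∀ (q : ℕ) [NeZero q], q₀ ≤ q →
    ∀ N : Ch q → Multiset ℂ, (∀ χ, NZ χ (N χ)) →
    DZp q N D ε (δ * Real.log q) ((q : ℝ) ^ δ * Real.log q)

def PairOf : Prop := AdmS → PolS → PairS
def Sv1Of : Prop := SelS → GramS → GzS → DiagS → Sv1S
def SvwOf : Prop := GzS → Sv1S → SvwS
def PsOf : Prop := AdmS → GzS → MerS → SvwS → PsS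
def Dz2Of : Prop := LpS → AdmS → PairS → Dz2S
def Dz3Of : Prop := Dz2S → Dz3S
def DzOf : Prop := CntS → AdmS → KfaS → PsS → Dz3S → DzS

end Pool.Agent.MP_c5bf7b_nt.H25L
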