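import Pool.Agent.MP_c5bf7b_nt.H25L.SpecB

/-! Statements of the rows on the whole family of characters, for a Linnik exponent below `3`.
Paper proof: /team-store/MP_c5bf7b_H25_linnik3.md -/

set_option autoImplicit false

namespace Pool.Agent.MP_c5bf7b_nt.H25L

open Finset Complex ArithmeticFunction Pool.Agent.MP_c5bf7b_nt.H38

/-- the zeros of the inverse character, with multiplicities -/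
def ConjS : Prop :=
  ∀ (q : ℕ) [NeZero q] (χ : Ch q) (Y Y' : Multiset ℂ), 2 ≤ q → NZ χ Y → NZ χ⁻¹ Y' →
    Y' = Y.map (starRingEnd ℂ)

/-- a window for one character -/
def WincS : Prop :=
  ∀ (Y : Multiset ℂ) (T l : ℝ), 0 ≤ l → (∀ ζ ∈ Y, 0 < ζ.re) → ∃ T' : ℝ, T ≤ T' ∧
    T' ≤ T + 10000 * l ∧ ∀ a : ℝ, (∀ ζ ∈ Y, |ζ.im| ≤ T' → a ≤ ζ.re) →
      ∀ ζ ∈ Y, |ζ.im| ≤ T' + l → min a 10 - c0 ≤ ζ.re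

/-- what is known for one modulus -/
structure Env5 (q : ℕ) [NeZero q] (N : Ch q → Multiset ℂ) (K : ℝ) (Ds : Set DZ)
    (Es : Set (ℝ × ℝ × ℝ)) (Lm Th C M : ℝ) : Prop where
  old : Env q N Lm Th C M
  conj : ∀ χ, N χ⁻¹ = (N χ).map (starRingEnd ℂ)
  pc : ∀ χ, ∀ i ≤ 200, (∀ ζ ∈ N χ, |ζ.im| ≤ Real.log q → (i : ℕ) / 20 ≤ ζ.re) →
    ((N χ).map fun ζ => ‖HK K ζ‖).sum ≤ K ^ 2 * (BK K ((i : ℕ) / 20) + e0)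
  d1 : ∀ d ∈ Es, D1p q N f0 d.1 d.2.1 d.2.2 e0 Lm Th
  dz : ∀ D ∈ Ds, DZp q N D e0 Lm Th

/-- the parameters are admissible -/
structure Pars (K : ℝ) (Ds : Set DZ) (Es : Set (ℝ × ℝ × ℝ)) : Prop where
  K0 : 0 < K
  K1 : K ≤ 1 / 4
  fD : Ds.Finite
  fE : Es.Finite
  oD : ∀ D ∈ Ds, D.Ok
  oE : ∀ d ∈ Es, 0 < d.1 ∧ 0 < d.2.1 ∧ 0 < d.2.2

def Env5S : Prop :=
  ∀ (K : ℝ) (Ds : Set DZ) (Es : Set (ℝ × ℝ × ℝ)), Pars K Ds Es →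
    ∃ C : ℝ, 1 ≤ C ∧ ∀ M : ℝ, 10 ≤ M → ∃ η : ℝ, 0 < η ∧ η ≤ 1 ∧ ∀ δ : ℝ, 0 < δ → δ ≤ η →
    ∃ q₀ : ℕ, ∀ (q : ℕ) [NeZero q], q₀ ≤ q → ∀ N : Ch q → Multiset ℂ, (∀ χ, NZ χ (N χ)) →
    Env5 q N K Ds Es (δ * Real.log q) ((q : ℝ) ^ η * Real.log q) C M

/-! ### repulsion of the first zeros -/

/-- the autocorrelation of `p 0, …, p 5` -/
noncomputable def ac (p : ℕ → ℝ) (j : ℤ) : ℝ :=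
  ∑ i ∈ range 6, if i + j.natAbs < 6 then p i * p (i + j.natAbs) else 0

/-- `D` bounds a pole against two zeros at the same height -/
def Dev (i : ℕ) (c w b l₁ b' l₂ D : ℝ) : Prop :=
  ∀ ν : ℝ, c * (Lp (par (i / 10)) (i / 10) ((-w : ℝ) + ν * I)).re -
    b * (Lp (par (i / 10)) (i / 10) ((l₁ - w : ℝ) + ν * I)).re -
    b' * (Lp (par (i / 10)) (i / 10) ((l₂ - w : ℝ) + ν * I)).re ≤ D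

/-- the inequality from the powers of one character of order `o` -/
def Lat1 (o : ℕ) (l₁ lo : ℝ) : Prop :=
  ∀ i ∈ Icc 8 35, ∀ (p : ℕ → ℝ) (w : ℝ) (D : ℤ → ℝ), (∀ k, 0 ≤ p k) → 0 ≤ w → w ≤ lo → w ≤ 10 →
    (∀ j ∈ Icc (1 : ℤ) 6, (o : ℤ) ∣ j → Dev i (ac p j) w (ac p (j + 1) + ac p (j - 1)) l₁ 0 0 (D j)) →
    0 ≤ ac p 0 * Fp i (-w) - 2 * ac p 1 * Fp i (l₁ - w) +
      2 * ∑ j ∈ Icc (1 : ℤ) 6, (if (o : ℤ) ∣ j then D j else ac p j / 8) + 11 * e0 * ac p 0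

/-- `χ₁ ^ j * χ₂` is trivial -/
def In1 (o j₀ : ℕ) (j : ℤ) : Prop := j₀ ≠ 0 ∧ (o : ℤ) ∣ j - j₀

open Classical in
/-- the inequality from two characters -/
def Lat2 (o j₀ : ℕ) (l₁ lo l₂ : ℝ) : Prop :=
  ∀ i ∈ Icc 8 35, ∀ (p : ℕ → ℝ) (w : ℝ) (D D' : ℤ → ℝ), (∀ k, 0 ≤ p k) → (∀ k, 3 ≤ k → p k = 0) →
    0 ≤ w → w ≤ lo → w ≤ 10 →
    (∀ j ∈ Icc (1 : ℤ) 3, (o : ℤ) ∣ j →
      Dev i (ac p j) w (ac p (j + 1) + ac p (j - 1)) l₁ (ac p j) l₂ (D j)) →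
    (∀ j ∈ Icc (-3 : ℤ) 3, In1 o j₀ j →
      Dev i (ac p j / 2) w ((ac p (j + 1) + ac p (j - 1)) / 2) l₁
        (if o ∣ 2 * j₀ then ac p j / 2 else ac p j) l₂ (D' j)) →
    0 ≤ ac p 0 * Fp i (-w) - 2 * ac p 1 * Fp i (l₁ - w) - ac p 0 * Fp i (l₂ - w) +
      2 * ∑ j ∈ Icc (1 : ℤ) 3, (if (o : ℤ) ∣ j then D j else ac p j / 8) +
      2 * ∑ j ∈ Icc (-3 : ℤ) 3, (if In1 o j₀ j then D' j else ac p j / 16) + 10 * e0 * ac p 0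

/-- the inequality for a real zero of a real character -/
def Lc (l₁ lo l₂ : ℝ) : Prop :=
  (∀ i ∈ Icc 8 35, ∀ w : ℝ, 0 ≤ w → w ≤ lo → w ≤ 10 →
    0 ≤ Fp i (-w) - Fp i (l₁ - w) - Fp i (l₂ - w) + 3 / 8 + 4 * e0) ∨
  ∀ i ∈ Icc 8 35, ∀ w D : ℝ, 0 ≤ w → w ≤ lo → w ≤ 10 → Dev i 1 w 1 l₁ 1 l₂ D →
    0 ≤ Fp i (-w) - Fp i (l₁ - w) - Fp i (l₂ - w) + 2 / 8 + D + 4 * e0

/-- `o` describes the small powers of `χ₁` -/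
def Ord1 {q : ℕ} (χ₁ : Ch q) (o : ℕ) : Prop :=
  ∀ j : ℤ, |j| ≤ 6 → (χ₁ ^ j = 1 ↔ (o : ℤ) ∣ j)

/-- `j₀` describes the position of `χ₂` -/
def Ord2 {q : ℕ} (χ₁ χ₂ : Ch q) (o j₀ : ℕ) : Prop :=
  (∀ j : ℤ, |j| ≤ 3 → (χ₁ ^ j * χ₂ = 1 ↔ In1 o j₀ j)) ∧ (χ₂ = χ₂⁻¹ → o ∣ 2 * j₀)

def OrdS : Prop :=
  ∀ (q : ℕ) [NeZero q] (χ₁ : Ch q), χ₁ ≠ 1 → ∃ o : ℕ, 2 ≤ o ∧ o ≤ 7 ∧ (o = 2 ↔ χ₁ = χ₁⁻¹) ∧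
    Ord1 χ₁ o ∧ ∀ χ₂ : Ch q, χ₂ ≠ 1 → ∃ j₀ : ℕ, j₀ < o ∧ Ord2 χ₁ χ₂ o j₀

def Lat1S : Prop :=
  ∀ (q : ℕ) [NeZero q] (N : Ch q → Multiset ℂ) (Lm Th C M T l₁ l₂ : ℝ) (χ₁ : Ch q) (ζ₁ : ℂ)
    (o : ℕ), Env q N Lm Th C M → Win N Lm T l₁ l₂ χ₁ ζ₁ → Real.log q ≤ T → 10 * T ≤ Th →
    χ₁ ≠ 1 → ¬ (χ₁ = χ₁⁻¹ ∧ ζ₁.im = 0) → Ord1 χ₁ o → Lat1 o l₁ (max (l₂ - c0) 0)

open Classical in
def Lat2S : Prop :=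
  ∀ (q : ℕ) [NeZero q] (N : Ch q → Multiset ℂ) (Lm Th C M T l₁ l₂ : ℝ) (χ₁ χ₂ : Ch q)
    (ζ₁ ζ₂ : ℂ) (o j₀ : ℕ), Env q N Lm Th C M → (∀ χ, N χ⁻¹ = (N χ).map (starRingEnd ℂ)) →
    Win N Lm T l₁ l₂ χ₁ ζ₁ → Real.log q ≤ T → 10 * T ≤ Th → χ₁ ≠ 1 →
    ¬ (χ₁ = χ₁⁻¹ ∧ ζ₁.im = 0) → χ₂ ≠ 1 → ζ₂ ∈ N χ₂ - EE χ₁ ζ₁ χ₂ → |ζ₂.im| ≤ T → ζ₂.re = l₂ →
    Ord1 χ₁ o → Ord2 χ₁ χ₂ o j₀ → Lat2 o j₀ l₁ (l₂ - c0) l₂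

def LcS : Prop :=
  ∀ (q : ℕ) [NeZero q] (N : Ch q → Multiset ℂ) (Lm Th C M T l₁ l₂ : ℝ) (χ₁ : Ch q) (ζ₁ : ℂ),
    Env q N Lm Th C M → Win N Lm T l₁ l₂ χ₁ ζ₁ → Real.log q ≤ T → 10 * T ≤ Th → χ₁ ≠ 1 →
    χ₁ = χ₁⁻¹ → ζ₁.im = 0 → 10 ≤ l₂ ∨ Lc l₁ (l₂ - c0) l₂

/-! ### certificates -/

/-- the largest normalised weight of a zero at `l` -/
noncomputable def eta (K l : ℝ) : ℝ := ((1 - Real.exp (-K * l)) / (K * l)) ^ 2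

/-- a dual solution: density inequalities `D i` with multipliers `y i` and costs `r`, first-zero
inequalities `d k` with multipliers `yd k`, and the multipliers `μ` of the bound per character -/
structure Cert where
  n : ℕ
  D : ℕ → DZ
  y : ℕ → ℝ
  r : ℕ → ℝ → ℝ
  rX : ℕ → ℝ → ℝ
  rE : ℕ → ℝ
  m : ℕ
  d : ℕ → ℝ × ℝ × ℝ
  yd : ℕ → ℝ
  κ : ℝ → ℕ
  μ : ℝ → ℝ
  κE : ℕ
  μE : ℝ

open Classical in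
/-- the cost of a zero at `l` of a character with first zero at `a` -/
noncomputable def Cert.cost (c : Cert) (lo a l : ℝ) : ℝ :=
  ∑ i ∈ range c.n,
    if (c.D i).P.w ≤ lo ∨ (c.D i).P.w + c0 ≤ min a 10 then c.y i * c.r i l else 0

/-- the cost of a first zero at `a` -/
noncomputable def Cert.first (c : Cert) (a : ℝ) : ℝ :=
  ∑ k ∈ range c.m, c.yd k * c1 f0 (c.d k).1 (c.d k).2.1 (c.d k).2.2 a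

open Classical in
/-- `nm` characters have `per` zeros each at `l₁`, all other zeros are beyond `lo`; the total
weight is at most `W` -/
structure Cert.Good (c : Cert) (K E : ℝ) (Ds : Set DZ) (Es : Set (ℝ × ℝ × ℝ)) (nm per : ℕ)
    (l₁ lo W : ℝ) : Prop where
  mem : ∀ i < c.n, c.D i ∈ Ds ∧ 0 ≤ c.y i ∧ nm * per ≤ (c.D i).nE ∧ (c.D i).P.v ≤ lo ∧
    (nm ≠ 0 → Cost (c.D i).P.x ((c.D i).P.v - l₁) (c.D i).cF)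
  ad : ∀ i < c.n, ∀ l, lo ≤ l → (c.D i).P.w ≤ l → 0 ≤ c.r i l ∧ (c.D i).Ad l 0 0 (c.r i l)
  adE : nm ≠ 0 → ∀ i < c.n, (c.D i).P.w ≤ lo →
    Cost (c.D i).P.x ((c.D i).P.w - l₁) (c.D i).cE ∧
    (c.D i).Ad l₁ (per - 1) (c.D i).ex (c.rE i) ∧
    ∀ l, lo ≤ l → 0 ≤ c.rX i l ∧ (c.D i).Ad l per 0 (c.rX i l)
  memd : ∀ k < c.m, c.d k ∈ Es ∧ 0 ≤ c.yd k
  cls : ∀ a, 0 < a → lo ≤ a → c.κ a ≤ 200 ∧ (c.κ a : ℝ) / 20 ≤ a ∧ 0 ≤ c.μ a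
  g1 : ∀ a, 0 < a → lo ≤ a → c.μ a * (BK K ((c.κ a : ℝ) / 20) + e0) +
    max 0 (Real.exp (-E * a) - c.μ a) * eta K a ≤ c.first a + c.cost lo a a
  g2 : ∀ a l, 0 < a → lo ≤ a → a ≤ l → (Real.exp (-E * l) - c.μ a) * eta K l ≤ c.cost lo a l
  clsE : nm ≠ 0 → c.κE ≤ 200 ∧ (c.κE : ℝ) / 20 ≤ l₁ ∧ 0 ≤ c.μE
  g3 : nm ≠ 0 → ∀ l, 0 < l → lo ≤ l → (Real.exp (-E * l) - c.μE) * eta K l ≤
    ∑ i ∈ range c.n, if (c.D i).P.w ≤ lo then c.y i * c.rX i l else 0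
  tot : nm * (c.μE * (BK K ((c.κE : ℝ) / 20) + e0) +
        per * (max 0 (Real.exp (-E * l₁) - c.μE) * eta K l₁) - c.first l₁ -
        per * ∑ i ∈ range c.n, if (c.D i).P.w ≤ lo then c.y i * c.rE i else 0) +
      ∑ k ∈ range c.m, c.yd k * (S1 f0 (c.d k).1 (c.d k).2.1 (c.d k).2.2 + e0) +
      ∑ i ∈ range c.n, c.y i * ((c.D i).Rt + e0) ≤ W

def Crt (K E : ℝ) (Ds : Set DZ) (Es : Set (ℝ × ℝ × ℝ)) (nm per : ℕ) (l₁ lo W : ℝ) : Prop :=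
  ∃ c : Cert, c.Good K E Ds Es nm per l₁ lo W

open Classical in
def Sum5S : Prop :=
  ∀ (q : ℕ) [NeZero q] (N X : Ch q → Multiset ℂ) (K E : ℝ) (Ds : Set DZ) (Es : Set (ℝ × ℝ × ℝ))
    (Lm Th C M T l₁ l₂ W : ℝ) (nm per : ℕ), Env5 q N K Ds Es Lm Th C M → 0 < K → K ≤ 1 / 4 →
    0 ≤ E → (∀ χ, X χ ≤ N χ) → X 1 = 0 → (∀ χ, ∀ ζ ∈ X χ, ζ.re = l₁ ∧ |ζ.im| ≤ T) →
    (univ.filter fun χ => X χ ≠ 0).card = nm → (∀ χ, X χ ≠ 0 → (X χ).card = per) →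
    Far N X T l₂ → (nm ≠ 0 → Far N 0 T l₁ ∧ l₁ ≤ Lm) → 100000 * Real.log q ≤ T →
    20 * T ≤ Th → Crt K E Ds Es nm per l₁ (l₂ - c0) W →
    WK N K E (fun ζ => ζ.re < Lm ∧ |ζ.im| ≤ T) ≤
      K ^ 2 * (W + (1 / K + 2) * Real.exp (-E * max M l₂))

def Out5S : Prop :=
  ∀ C : ℝ, 1 ≤ C → ∃ C' : ℝ, 1 ≤ C' ∧ ∀ (q : ℕ) [NeZero q] (N X : Ch q → Multiset ℂ)
    (K Lm Th M T l₂ E : ℝ), Env q N Lm Th C M → (∀ χ, ∀ ζ ∈ X χ, |ζ.im| ≤ T) → Far N X T l₂ →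
    Real.log q ≤ T → 0 < K → 11 / 4 ≤ E → E ≤ 5 →
    WK N K E (fun ζ => ζ.re < Lm ∧ T < |ζ.im| ∧ |ζ.im| ≤ Th) ≤ C' * Real.exp (-l₂) / Real.log q

def NumD5 : Prop := ∃ C : ℝ, 1 ≤ C ∧ ∀ l₁ l₂, 0 < l₁ → l₁ ≤ l₂ → LCI l₁ l₂ →
  Real.exp (-l₂) ≤ C * l₁

/-- the numerical part; `g` is the point from which the first zero is not exceptional -/
structure Nums (K E : ℝ) (Ds : Set DZ) (Es : Set (ℝ × ℝ × ℝ)) (g : ℝ) : Prop where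
  g1 : g ≤ 1
  G : ∀ l, g ≤ l → Crt K E Ds Es 0 0 l (l - c0) (1 - 1 / 200)
  AB : ∀ (o j₀ : ℕ) (l₁ l₂ : ℝ), 2 ≤ o → o ≤ 7 → j₀ < o → 0 < l₁ → l₁ ≤ g → l₁ ≤ l₂ →
    Lat1 o l₁ (max (l₂ - c0) 0) → (10 ≤ l₂ ∨ Lat2 o j₀ l₁ (l₂ - c0) l₂) →
    Crt K E Ds Es (if o = 2 then 1 else 2) (if o = 2 then 2 else 1) l₁ (l₂ - c0) (1 - 1 / 200)
  C : ∀ l₁ l₂ : ℝ, 0 < l₁ → l₁ ≤ g → l₁ ≤ l₂ →
    (LCI l₁ l₂ ∨ (100 ≤ l₂ ∧ Real.exp (-l₂) ≤ l₁)) → (10 ≤ l₂ ∨ Lc l₁ (l₂ - c0) l₂) →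
    Crt K E Ds Es 1 1 l₁ (l₂ - c0) (1 - l₁ / 200)

/-- the sum over the zeros close to the line `re s = 1`; `s` is a lower bound for real zeros of
real characters -/
def Near5S (K E : ℝ) (Ds : Set DZ) (Es : Set (ℝ × ℝ × ℝ)) : Prop :=
  ∀ C : ℝ, 1 ≤ C → ∃ M l₀ : ℝ, 10 ≤ M ∧ ∀ (q : ℕ) [NeZero q] (N : Ch q → Multiset ℂ)
    (Lm Th s : ℝ), Env5 q N K Ds Es Lm Th C M → l₀ ≤ Real.log q → l₀ ≤ Lm →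
    20 * (10 ^ (2000 * Lm) * (100000 * Real.log q)) ≤ Th → 0 < s → s ≤ 1 →
    (∀ χ : Ch q, χ = χ⁻¹ → χ ≠ 1 → ∀ ζ ∈ N χ, ζ.im = 0 → s ≤ ζ.re) → Real.exp (-Lm) ≤ s →
    WK N K E (fun ζ => ζ.re < Lm ∧ |ζ.im| ≤ Th) ≤ K ^ 2 * (1 - s / 400)

def ConjOf : Prop := PhiS → ConjS
def Env5Of : Prop := EnvS → ConjS → PckS → D1S → DzS → Env5S
def Lat1Of : Prop := LpS → AdmS → GzS → Lat1S
def Lat2Of : Prop := LpS → AdmS → GzS → Lat2S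
def LcOf : Prop := LpS → AdmS → PosS → LcS
def Sum5Of : Prop := HkS → WincS → Sum5S
def Out5Of : Prop := HkS → Out5S
def NumD5Of : Prop := LpS → AdmS → NumD5
def Near5Of : Prop :=
  WinS → LsS → OrdS → Lat1S → Lat2S → LcS → Sum5S → Out5S → NumD5 →
    ∀ (K E g : ℝ) (Ds : Set DZ) (Es : Set (ℝ × ℝ × ℝ)), 0 < K → K ≤ 1 / 4 → 11 / 4 ≤ E → E ≤ 5 →
    Nums K E Ds Es g → Near5S K E Ds Es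
def Lin5Of : Prop :=
  CntS → Env5S → FarS → SiegS → ∀ (K E : ℝ) (Ds : Set DZ) (Es : Set (ℝ × ℝ × ℝ)), Pars K Ds Es →
    11 / 4 < E → E ≤ 5 → Near5S K E Ds Es → LinS (E + 2 * K)

end Pool.Agent.MP_c5bf7b_nt.H25L
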