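import Pool.Agent.MP_c5bf7b_nt.H25L.Kit

/-! Statements of the rows on the soundness of the checker.
Paper proof: /team-store/MP_c5bf7b_H25_linnik3.md, part N. -/

set_option autoImplicit false

namespace Pool.Agent.MP_c5bf7b_nt.H25L.Nm

open Finset Pool.Agent.MP_c5bf7b_nt.H38

def XpS : Prop :=
  (∀ p : ℕ, vP (xL p) ≤ Real.exp (p / 10 ^ 9) ∧ Real.exp (p / 10 ^ 9) ≤ vP (xU p) ∧
    vP (yL p) ≤ Real.exp (-(p / 10 ^ 9)) ∧ Real.exp (-(p / 10 ^ 9)) ≤ vP (yU p)) ∧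
  (∀ x θ k : ℕ, Real.exp (ml θ * (ml x * k / 50)) ≤ v (eN x θ k)) ∧
  ∀ E j0 k : ℕ, Real.exp (-ml E * ((j0 + k : ℕ) / 200)) ≤ v (eE E j0 k)

noncomputable def FF (x : ℕ) (z : ℝ) : ℝ := Lr (par (ml x)) (ml x) z

def FfS : Prop :=
  (∀ (x A e : ℕ) (d : ℝ), 1 ≤ x → ml x * d = A / 10 ^ 6 → vP e ≤ Real.exp (-(A / 10 ^ 6)) →
    v (fN x A e) ≤ FF x d) ∧
  ∀ x a b : ℕ, 1 ≤ x → v (FD x a b) ≤ FF x (ml a - ml b) ∧ FF x (ml a - ml b) ≤ v (FU x a b)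

/-- `g` is below a chord on the cell `i` -/
def Chd (x : ℕ) (g : ℝ → ℝ) (i gl gr : ℕ) : Prop :=
  ∀ t : ℝ, 0 ≤ t → t ≤ 1 → g (ml x * (i + t) / 50) ≤ (1 - t) * v gl + t * v gr

def ChS : Prop :=
  (∀ x A B : ℝ, 0 < x →
    ∫ u in (0 : ℝ)..x, par x u * (A + B * u) = x * (5 / 12 * A + 3 / 28 * B * x)) ∧
  (∀ (x i gl gr : ℕ) (g : ℝ → ℝ), 1 ≤ x → i < 50 →
    ContinuousOn g (Set.Icc (ml x * i / 50) (ml x * (i + 1) / 50)) → Chd x g i gl gr →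
    ∫ u in (ml x * i / 50)..(ml x * (i + 1) / 50), par (ml x) u * g u ≤
      ml x * (cell i gl gr / 10 ^ 36)) ∧
  ∀ (x : ℕ) (gl gr : ℕ → ℕ) (g : ℝ → ℝ), 1 ≤ x → Continuous g →
    (∀ i < 50, Chd x g i (gl i) (gr i)) →
    ∫ u in (0 : ℝ)..ml x, par (ml x) u * g u ≤ v (intU x fun i => cell i (gl i) (gr i))

def RemS : Prop :=
  (∀ x θ be al : ℕ, 1 ≤ x →
    ∫ u in (0 : ℝ)..ml x, par (ml x) u * |Real.exp (ml θ * u) - (v be + v al * u)| ≤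
      v (rem x θ be al)) ∧
  (∀ (x w a m c : ℕ) (l : ℝ), 1 ≤ x → costOk x w a m c = true → ml a ≤ l →
    Cost (ml x) (ml w - l) (v c)) ∧
  ∀ x δ c : ℝ, 0 < x → x ≤ 5 → δ ≤ 10 → 10 ^ 23 ≤ c → Cost x δ c

def IrS : Prop :=
  ∀ c : Con, okP c = true → (toP c).Ok ∧ (toP c).I ≤ v (IU c) ∧ (toP c).R ≤ v (RU c)

def OkS : Prop := ∀ (nE : ℕ) (c : Con), okC nE c = true → (toDZ nE c).Ok

/-- the cost on cell `k` of the table that starts at `j0 / 200` -/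
noncomputable def rk (c : Con) (kE j0 k : ℕ) : ℝ :=
  if k < c.n then v (rL c (K0 c kE) j0 k) else 0

/-- the cost of a zero at `l` -/
noncomputable def rr (c : Con) (kE j0 : ℕ) (l : ℝ) : ℝ := rk c kE j0 (⌊200 * l⌋₊ - j0)

def AdS : Prop :=
  (∀ (nE kE j0 : ℕ) (c : Con) (l : ℝ), okC nE c = true → c.w ≤ 5 * j0 →
    (toDZ nE c).Ad l kE 0 (rr c kE j0 l)) ∧
  (∀ (nE k b : ℕ) (c : Con) (l : ℝ), okC nE c = true → l ≤ ml b →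
    (toDZ nE c).Ad l k (v c.ex) (v (rE c k b))) ∧
  ∀ (kE j0 T k : ℕ) (cs : List Con),
    v (gt (addL kE j0 T cs) k) ≤ v (gt T k) + (cs.map fun c => v c.y * rk c kE j0 k).sum

noncomputable def cc (d : Dn) (l : ℝ) : ℝ := c1 f0 (toD d).1 (toD d).2.1 (toD d).2.2 l

noncomputable def fst (ds : List Dn) (l : ℝ) : ℝ := (ds.map fun d => v d.y * cc d l).sum

def SmS : Prop :=
  (∀ k : ℕ, BK (1 / 20) (k / 20) + e0 ≤ v (BU k) ∧ 0 ≤ BK (1 / 20) (k / 20)) ∧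
  (∀ l : ℝ, 0 ≤ l → 0 ≤ eta (1 / 20) l ∧ eta (1 / 20) l ≤ 1) ∧
  (∀ (t a : ℕ) (l : ℝ), a ≤ 10000 → ml a ≤ l → v t * eta (1 / 20) l ≤ v (etU t a)) ∧
  (∀ (E j0 T k m : ℕ) (l : ℝ), j0 + k ≤ 2000 → ((j0 + k : ℕ) : ℝ) / 200 ≤ l →
    need E j0 T k ≤ m → (Real.exp (-ml E * l) - v m) * eta (1 / 20) l ≤ v (gt T k)) ∧
  (∀ d : Dn, okD d = true → S1 f0 (toD d).1 (toD d).2.1 (toD d).2.2 ≤ v (SU d) ∧
    (∀ (a : ℕ) (l : ℝ), 0 ≤ l → l ≤ ml a → v (cD d a) ≤ cc d l) ∧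
    ∀ l l' : ℝ, 0 ≤ l → l ≤ l' →
      0 < cc d l ∧ cc d l * Real.exp (-(2 * (xD d / 10000)) * (l' - l)) ≤ cc d l') ∧
  ∀ (ds : List Dn) (a : ℕ) (l : ℝ), ds.all okD = true → 0 ≤ l → l ≤ ml a →
    v (first ds a) ≤ fst ds l

/-! ### certificates as lists -/

structure It where
  D : DZ
  y : ℝ
  r : ℝ → ℝ
  rX : ℝ → ℝ
  rE : ℝ

open Classical in
noncomputable def cst (L : List It) (lo a l : ℝ) : ℝ :=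
  (L.map fun t => if t.D.P.w ≤ lo ∨ t.D.P.w + c0 ≤ min a 10 then t.y * t.r l else 0).sum

/-- a multiplier for the characters whose first zero is at `a`; `f` is the total cost of the first
zero, `g l` the cost of a further zero -/
def Mul (K E a f : ℝ) (g : ℝ → ℝ) : Prop :=
  ∃ (κ : ℕ) (μ : ℝ), κ ≤ 200 ∧ (κ : ℝ) / 20 ≤ a ∧ 0 ≤ μ ∧
    μ * (BK K ((κ : ℝ) / 20) + e0) + max 0 (Real.exp (-E * a) - μ) * eta K a ≤ f ∧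
    ∀ l, a ≤ l → (Real.exp (-E * l) - μ) * eta K l ≤ g l

open Classical in
structure GoodL (K E : ℝ) (Ds : Set DZ) (Es : Set (ℝ × ℝ × ℝ)) (nm per : ℕ) (l₁ lo W : ℝ)
    (L : List It) (ds : List Dn) (κE : ℕ) (μE : ℝ) : Prop where
  mem : ∀ t ∈ L, t.D ∈ Ds ∧ 0 ≤ t.y ∧ nm * per ≤ t.D.nE ∧ t.D.P.v ≤ lo ∧
    (nm ≠ 0 → Cost t.D.P.x (t.D.P.v - l₁) t.D.cF)
  ad : ∀ t ∈ L, ∀ l, 0 ≤ t.r l ∧ t.D.Ad l 0 0 (t.r l)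
  adE : nm ≠ 0 → ∀ t ∈ L, Cost t.D.P.x (t.D.P.w - l₁) t.D.cE ∧
    t.D.Ad l₁ (per - 1) t.D.ex t.rE ∧ ∀ l, 0 ≤ t.rX l ∧ t.D.Ad l per 0 (t.rX l)
  memd : ∀ d ∈ ds, toD d ∈ Es
  g12 : ∀ a, 0 < a → lo ≤ a → Mul K E a (fst ds a + cst L lo a a) (cst L lo a)
  clsE : nm ≠ 0 → κE ≤ 200 ∧ (κE : ℝ) / 20 ≤ l₁ ∧ 0 ≤ μE
  g3 : nm ≠ 0 → ∀ l, 0 < l → lo ≤ l → (Real.exp (-E * l) - μE) * eta K l ≤
    (L.map fun t => if t.D.P.w ≤ lo then t.y * t.rX l else 0).sum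
  tot : nm * (μE * (BK K ((κE : ℝ) / 20) + e0) +
        per * (max 0 (Real.exp (-E * l₁) - μE) * eta K l₁) - fst ds l₁ -
        per * (L.map fun t => if t.D.P.w ≤ lo then t.y * t.rE else 0).sum) +
      (ds.map fun d => v d.y * (S1 f0 (toD d).1 (toD d).2.1 (toD d).2.2 + e0)).sum +
      (L.map fun t => t.y * (t.D.Rt + e0)).sum ≤ W

def CrlS : Prop :=
  ∀ (K E : ℝ) (Ds : Set DZ) (Es : Set (ℝ × ℝ × ℝ)) (nm per : ℕ) (l₁ lo W : ℝ) (L : List It)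
    (ds : List Dn) (κE : ℕ) (μE : ℝ), GoodL K E Ds Es nm per l₁ lo W L ds κE μE →
    Crt K E Ds Es nm per l₁ lo W

/-- the inequalities of the higher levels -/
noncomputable def its (nE : ℕ) : List Grp → ℕ → List It
  | [], _ => []
  | g :: gs, j0 =>
    (g.cs.map fun c => ⟨toDZ nE c, v c.y, rr c 0 j0, fun _ => 0, 0⟩) ++ its nE gs g.j1

def WalkS : Prop :=
  (∀ (E j0 T s jt m : ℕ) (l : ℝ), j0 + s ≤ jt → jt ≤ 2000 → muT E j0 T s jt ≤ m →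
    ((j0 + s : ℕ) : ℝ) / 200 ≤ l →
    (Real.exp (-ml E * l) - v m) * eta (1 / 20) l ≤ v (gt T (⌊200 * l⌋₊ - j0))) ∧
  ∀ (E nE : ℕ) (ds : List Dn) (gs : List Grp) (j0 T : ℕ) (base : ℝ → ℝ) (lo a : ℝ),
    ds.all okD = true → walk E ds gs j0 T = true →
    (∀ l, (j0 : ℝ) / 200 ≤ l → v (gt T (⌊200 * l⌋₊ - j0)) ≤ base l) → (j0 : ℝ) / 200 ≤ a →
    Mul (1 / 20) (ml E) a (fst ds a + (base a + cst (its nE gs j0) lo a a))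
      fun l => base l + cst (its nE gs j0) lo a l

/-- `Q` holds for all families that contain some admissible finite families -/
def Ev (Q : Set DZ → Set (ℝ × ℝ × ℝ) → Prop) : Prop :=
  ∃ Ds Es, Pars (1 / 20) Ds Es ∧ ∀ Ds' Es', Ds ⊆ Ds' → Es ⊆ Es' → Q Ds' Es'

def CerOk (E nm per a1 b1 jl : ℕ) (Ds : Set DZ) (Es : Set (ℝ × ℝ × ℝ)) : Prop :=
  ∀ l₁ lo : ℝ, (nm ≠ 0 → ml a1 ≤ l₁ ∧ l₁ ≤ ml b1) → (jl : ℝ) / 200 ≤ lo →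
    Crt (1 / 20) (ml E) Ds Es nm per l₁ lo (1 - 1 / 200)

def CerS : Prop :=
  ∀ (E : ℕ) (C : Cer), okA C = true → okB E C = true → okT E C = true →
    Ev (CerOk E C.nm C.per C.a1 C.b1 C.jl)

/-! ### exclusions -/

def DevS : Prop :=
  ∀ (i c b b' w a1 b1 b2 : ℕ) (D : Dv) (l₁ l₂ : ℝ), 8 ≤ i → i ≤ 35 →
    devOk (i.mul 100) c b b' w a1 b1 b2 D = true → ml a1 ≤ l₁ → l₁ ≤ ml b1 →
    (b' = 0 ∨ ml w ≤ l₂ ∧ l₂ ≤ ml b2) → Dev i c (ml w) b l₁ b' l₂ (v D.d)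

def Rc1S : Prop :=
  ∀ (o a1 b1 : ℕ) (R : Rc) (l₁ lo : ℝ), 2 ≤ o → ck1 o a1 b1 R = true → ml a1 ≤ l₁ → l₁ ≤ ml b1 →
    ml R.w ≤ lo → ¬ Lat1 o l₁ lo

def Rc2S : Prop :=
  ∀ (o j₀ a1 b1 b2 : ℕ) (R : Rc) (l₁ lo l₂ : ℝ), 2 ≤ o → ok2 a1 b1 b2 R = true →
    pat o j₀ b1 b2 R = true → ml a1 ≤ l₁ → l₁ ≤ ml b1 → ml R.w ≤ lo → lo ≤ l₂ → l₂ ≤ ml b2 →
    ¬ Lat2 o j₀ l₁ lo l₂

def ExAB (o0 o1 a b T : ℕ) : Prop :=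
  ∀ (o j₀ : ℕ) (l₁ l₂ : ℝ), o0 ≤ o → o ≤ o1 → j₀ < o → ml a < l₁ → l₁ ≤ ml b → l₁ ≤ l₂ →
    (10 ≤ l₂ ∨ Lat2 o j₀ l₁ (l₂ - c0) l₂) → ml T ≤ l₂

def NoAB (o0 o1 a b : ℕ) : Prop :=
  ∀ (o j₀ : ℕ) (l₁ l₂ : ℝ), o0 ≤ o → o ≤ o1 → j₀ < o → ml a < l₁ → l₁ ≤ ml b → l₁ ≤ l₂ →
    Lat1 o l₁ (max (l₂ - c0) 0) → (10 ≤ l₂ ∨ Lat2 o j₀ l₁ (l₂ - c0) l₂) → False

def ExC (a b T : ℕ) : Prop :=
  ∀ l₁ l₂ : ℝ, ml a < l₁ → l₁ ≤ ml b → l₁ ≤ l₂ →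
    (LCI l₁ l₂ ∨ (100 ≤ l₂ ∧ Real.exp (-l₂) ≤ l₁)) → (10 ≤ l₂ ∨ Lc l₁ (l₂ - c0) l₂) → ml T ≤ l₂

def SubS : Prop :=
  (∀ (o0 o1 Tf bf : ℕ) (Ss : List Sp) (a : ℕ), 2 ≤ o0 → subs o0 o1 Tf bf Ss a = true →
    ExAB o0 o1 a bf Tf) ∧
  ∀ (o0 o1 bf : ℕ) (Ss : List Sp) (a : ℕ), 2 ≤ o0 → zsub o0 o1 bf Ss a = true → NoAB o0 o1 a bf

def CsS : Prop := ∀ (Tf bf : ℕ) (Ss : List Sc) (a : ℕ), csub Tf bf Ss a = true → ExC a bf Tf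

def TcOk (E ls : ℕ) (Ds : Set DZ) (Es : Set (ℝ × ℝ × ℝ)) : Prop :=
  ∀ l₁ l₂ : ℝ, 0 < l₁ → l₁ ≤ 1 → ml ls ≤ l₂ →
    (LCI l₁ l₂ ∨ (100 ≤ l₂ ∧ Real.exp (-l₂) ≤ l₁)) →
    Crt (1 / 20) (ml E) Ds Es 1 1 l₁ (l₂ - c0) (1 - l₁ / 200)

def TcS : Prop := ∀ (E i ls : ℕ) (d : Dn), tcOk E i ls d = true → Ev (TcOk E ls)

def FfOf : Prop := XpS → FfS
def RemOf : Prop := XpS → FfS → ChS → RemS
def IrOf : Prop := XpS → ChS → IrS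
def OkOf : Prop := XpS → FfS → ChS → RemS → IrS → OkS
def AdOf : Prop := LpS → AdmS → XpS → FfS → AdS
def SmOf : Prop := XpS → SmS
def WalkOf : Prop := XpS → AdS → SmS → WalkS
def CerOf : Prop := XpS → RemS → OkS → AdS → SmS → CrlS → WalkS → CerS
def DevOf : Prop := LpS → AdmS → PairS → XpS → FfS → ChS → DevS
def Rc1Of : Prop := LpS → AdmS → FfS → DevS → Rc1S
def Rc2Of : Prop := LpS → AdmS → FfS → DevS → Rc2S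
def SubOf : Prop := Rc1S → Rc2S → SubS
def CsOf : Prop := LpS → AdmS → FfS → DevS → CsS
def TcOf : Prop := LpS → AdmS → XpS → FfS → SmS → TcS

end Pool.Agent.MP_c5bf7b_nt.H25L.Nm
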