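import Pool.Agent.MP_c5bf7b_nt.H25L.SpecN

/-! Row WALK: soundness of the walk over the cells. -/

set_option autoImplicit false

namespace Pool.Agent.MP_c5bf7b_nt.H25L.Nm

open Finset Pool.Agent.MP_c5bf7b_nt.H38

namespace WalkL

theorem exp_anti (E : ℕ) {a l : ℝ} (h : a ≤ l) : Real.exp (-ml E * l) ≤ Real.exp (-ml E * a) :=
  Real.exp_le_exp.2 (by nlinarith [ml_nonneg E])

theorem le_fl {j : ℕ} {l : ℝ} (h : (j : ℝ) / 200 ≤ l) : j ≤ ⌊200 * l⌋₊ :=
  Nat.le_floor (by linarith)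

theorem fl_le {l : ℝ} (h : 0 ≤ l) : ((⌊200 * l⌋₊ : ℕ) : ℝ) / 200 ≤ l := by
  have := Nat.floor_le (by linarith : 0 ≤ 200 * l)
  linarith

theorem part1 (hX : XpS) (hS : SmS) (E j0 T s jt m : ℕ) (l : ℝ) (h1 : j0 + s ≤ jt)
    (h2 : jt ≤ 2000) (h3 : muT E j0 T s jt ≤ m) (h4 : ((j0 + s : ℕ) : ℝ) / 200 ≤ l) :
    (Real.exp (-ml E * l) - v m) * eta (1 / 20) l ≤ v (gt T (⌊200 * l⌋₊ - j0)) := by
  have hl : 0 ≤ l := le_trans (by positivity) h4
  have h5 := le_fl h4
  obtain ⟨m1, m2⟩ := mxN_spec ((jt.sub j0).sub s) (fun k => need E j0 T (k.add s))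
    (eE E j0 (jt.sub j0))
  by_cases h : ⌊200 * l⌋₊ < jt
  · have e : j0 + (⌊200 * l⌋₊ - j0) = ⌊200 * l⌋₊ := by omega
    refine hS.2.2.2.1 E j0 T _ m l (by omega) (by rw [e]; exact fl_le hl) (le_trans ?_ h3)
    have := m2 (⌊200 * l⌋₊ - j0 - s) (by simp only [Nat.sub_eq]; omega)
    rwa [Nat.add_eq, Nat.sub_add_cancel (by omega)] at this
  · refine le_trans (mul_nonpos_of_nonpos_of_nonneg (sub_nonpos.2 ?_) (hS.2.1 l hl).1) (v_nonneg _)
    refine le_trans (exp_anti E ?_) ((hX.2.2 E j0 (jt.sub j0)).trans (v_mono (m1.trans h3)))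
    refine le_trans ?_ (fl_le hl)
    have : j0 + jt.sub j0 ≤ ⌊200 * l⌋₊ := by simp only [Nat.sub_eq]; omega
    gcongr

theorem rr_nonneg (c : Con) (k j : ℕ) (l : ℝ) : 0 ≤ rr c k j l := by
  unfold rr rk
  split_ifs
  exacts [v_nonneg _, le_rfl]

theorem cst_append (L L' : List It) (lo a l : ℝ) :
    cst (L ++ L') lo a l = cst L lo a l + cst L' lo a l := by simp [cst]

theorem cst_nonneg (nE : ℕ) (gs : List Grp) (j : ℕ) (lo a l : ℝ) :
    0 ≤ cst (its nE gs j) lo a l := by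
  induction gs generalizing j with
  | nil => simp [cst, its]
  | cons g gs ih =>
    rw [its, cst_append]
    refine add_nonneg (List.sum_nonneg fun x hx => ?_) (ih _)
    simp only [List.map_map, List.mem_map, Function.comp] at hx
    obtain ⟨c, -, rfl⟩ := hx
    split_ifs
    exacts [mul_nonneg (v_nonneg _) (rr_nonneg _ _ _ _), le_rfl]

theorem fst_decay (hS : SmS) (E : ℕ) (ds : List Dn) (h1 : ds.all okD = true)
    (h2 : (ds.all fun d => ((xD d).mul 2).ble (E.mul 10)) = true) {a0 a : ℝ} (h0 : 0 ≤ a0)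
    (ha : a0 ≤ a) : fst ds a0 * Real.exp (-ml E * (a - a0)) ≤ fst ds a := by
  unfold fst
  rw [← List.sum_map_mul_right]
  refine List.sum_le_sum fun d hd => ?_
  obtain ⟨k1, k2⟩ := (hS.2.2.2.2.1 d (List.all_eq_true.1 h1 d hd)).2.2 a0 a h0 ha
  have k3 : xD d * 2 ≤ E * 10 := Nat.le_of_ble_eq_true (List.all_eq_true.1 h2 d hd)
  have k4 : (xD d : ℝ) * 2 ≤ E * 10 := by exact_mod_cast k3
  rw [mul_assoc]
  refine mul_le_mul_of_nonneg_left (le_trans (mul_le_mul_of_nonneg_left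
    (Real.exp_le_exp.2 ?_) k1.le) k2) (v_nonneg _)
  refine mul_le_mul_of_nonneg_right ?_ (sub_nonneg.2 ha)
  unfold ml
  linarith

theorem kap {j : ℕ} {a : ℝ} (h : (j : ℝ) / 200 ≤ a) : ((j / 10 : ℕ) : ℝ) / 20 ≤ a := by
  have := cast_div_le j 10
  push_cast at this
  linarith

theorem ml5 (j : ℕ) : ml (j * 5) = (j : ℝ) / 200 := by unfold ml; push_cast; ring

theorem part2 (hX : XpS) (hA : AdS) (hS : SmS) (E nE : ℕ) (ds : List Dn) (gs : List Grp)
    (j0 T : ℕ) (base : ℝ → ℝ) (lo a : ℝ) (hd : ds.all okD = true)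
    (hw : walk E ds gs j0 T = true)
    (hb : ∀ l, (j0 : ℝ) / 200 ≤ l → v (gt T (⌊200 * l⌋₊ - j0)) ≤ base l)
    (ha : (j0 : ℝ) / 200 ≤ a) :
    Mul (1 / 20) (ml E) a (fst ds a + (base a + cst (its nE gs j0) lo a a))
      fun l => base l + cst (its nE gs j0) lo a l := by
  have he0 : (0 : ℝ) ≤ e0 := by unfold e0; positivity
  induction gs generalizing j0 T base with
  | nil =>
    have hw' : tail E ds j0 = true := hw
    simp only [tail, Bool.and_eq_true, Nat.ble_eq, div_eq, Nat.mul_eq] at hw'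
    obtain ⟨⟨t1, t2⟩, t3⟩ := hw'
    have h0 : (0 : ℝ) ≤ j0 / 200 := by positivity
    refine ⟨j0 / 10, Real.exp (-ml E * a), by omega, kap ha, (Real.exp_pos _).le, ?_, ?_⟩
    · have k1 := fst_decay hS E ds hd t2 h0 ha
      have k2 := hS.2.2.2.2.2 ds (j0 * 5) _ hd h0 (ml5 j0).ge
      obtain ⟨k3, k4⟩ := hS.1 (j0 / 10)
      have k5 := hX.2.2 E j0 0
      rw [add_zero] at k5
      have k6 : Real.exp (-ml E * (j0 / 200)) * (BK (1 / 20) (((j0 / 10 : ℕ) : ℝ) / 20) + e0) ≤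
          fst ds (j0 / 200) :=
        (((mul_le_mul k5 k3 (add_nonneg k4 he0) (v_nonneg _)).trans (le_mU _ _)).trans
          (v_mono t3)).trans k2
      have k7 := mul_le_mul_of_nonneg_right k6 (Real.exp_pos (-ml E * (a - j0 / 200))).le
      rw [mul_right_comm, ← Real.exp_add,
        show -ml E * (j0 / 200) + -ml E * (a - j0 / 200) = -ml E * a by ring] at k7
      have k8 := (v_nonneg _).trans (hb a ha)
      have k9 := cst_nonneg nE [] j0 lo a a
      rw [sub_self, max_self, zero_mul]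
      linarith
    · intro l hl
      have k8 := (v_nonneg _).trans (hb l (ha.trans hl))
      have k9 := cst_nonneg nE [] j0 lo a l
      have := mul_nonpos_of_nonpos_of_nonneg (sub_nonpos.2 (exp_anti E hl))
        (hS.2.1 l (h0.trans (ha.trans hl))).1
      show _ ≤ base l + _
      linarith
  | cons g gs ih =>
    have hw' : ((g.cs.all fun c => c.w.succ.ble (j0.mul 5)) &&
        fc (addL 0 j0 T g.cs) fun T' => grp E ds j0 g.j1 g.jt T' &&
          walk E ds gs g.j1 (T'.shiftRight (Nat.mul 64 (g.j1.sub j0)))) = true := hw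
    rw [fc_eq] at hw'
    generalize hT : addL 0 j0 T g.cs = T' at hw'
    simp only [grp, Bool.and_eq_true, Nat.ble_eq, Nat.sub_eq] at hw'
    obtain ⟨w1, ⟨⟨⟨w2, w3⟩, w4⟩, w5⟩, w6⟩ := hw'
    have h0 : (0 : ℝ) ≤ a := le_trans (by positivity) ha
    obtain ⟨b', hb'⟩ : ∃ b' : ℝ → ℝ,
      ∀ l, b' l = base l + (g.cs.map fun c => v c.y * rr c 0 j0 l).sum := ⟨_, fun _ => rfl⟩
    have k1 : ∀ l, (j0 : ℝ) / 200 ≤ l → v (gt T' (⌊200 * l⌋₊ - j0)) ≤ b' l := fun l hl => by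
      rw [hb', ← hT]
      exact (hA.2.2 0 j0 T _ g.cs).trans (add_le_add_left (hb l hl) _)
    have k2 : ∀ l, base l + cst (its nE (g :: gs) j0) lo a l =
        b' l + cst (its nE gs g.j1) lo a l := fun l => by
      rw [hb', its, cst_append, add_assoc]
      congr 2
      rw [cst, List.map_map]
      refine congrArg List.sum (List.map_congr_left fun c hc => if_pos (Or.inr ?_))
      have c1 : c.w + 1 ≤ j0 * 5 := Nat.le_of_ble_eq_true (List.all_eq_true.1 w1 c hc)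
      have c2 : (c.w : ℝ) + 1 ≤ j0 * 5 := by exact_mod_cast c1
      have c3 : (j0 : ℝ) ≤ 2000 := by exact_mod_cast (by omega : j0 ≤ 2000)
      show ml c.w + c0 ≤ _
      unfold ml c0
      refine le_min ?_ ?_ <;> linarith
    simp only [k2]
    by_cases hc : (g.j1 : ℝ) / 200 ≤ a
    · refine ih g.j1 _ b' w6 (fun l hl => ?_) hc
      have := le_fl hl
      rw [gt_shr, show ⌊200 * l⌋₊ - g.j1 + (g.j1 - j0) = ⌊200 * l⌋₊ - j0 by omega]
      refine k1 l (le_trans ?_ hl)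
      gcongr
    have f1 := le_fl ha
    have f2 : ⌊200 * a⌋₊ < g.j1 := (Nat.floor_lt (by linarith)).2 (by linarith)
    obtain ⟨m, m1, m2, m3⟩ := dsc_spec _ _ _ _ w5 (⌊200 * a⌋₊ - j0) (by omega)
    have e : j0 + (⌊200 * a⌋₊ - j0) = ⌊200 * a⌋₊ := by omega
    simp only [gk, Nat.ble_eq, Nat.add_eq, Nat.mul_eq, Nat.sub_eq, div_eq, e] at m3
    refine ⟨⌊200 * a⌋₊ / 10, v m, by omega, kap (fl_le h0), v_nonneg _, ?_, fun l hl => ?_⟩
    · have n1 := (mul_le_mul_of_nonneg_left (hS.1 (⌊200 * a⌋₊ / 10)).1 (v_nonneg m)).trans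
        (le_mU _ _)
      have n2 := hX.2.2 E j0 (⌊200 * a⌋₊ - j0)
      rw [e] at n2
      have n3 : max 0 (Real.exp (-ml E * a) - v m) ≤ v (eE E j0 (⌊200 * a⌋₊ - j0) - m) := by
        rw [v_sub_max]
        exact max_le_max le_rfl (sub_le_sub_right ((exp_anti E (fl_le h0)).trans n2) _)
      have n4 := (mul_le_mul_of_nonneg_right n3 (hS.2.1 a h0).1).trans
        (hS.2.2.1 _ (⌊200 * a⌋₊ * 5) a (by omega) ((ml5 _).trans_le (fl_le h0)))
      have n5 := hS.2.2.2.2.2 ds (⌊200 * a⌋₊ * 5 + 5) a hd h0 (by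
        have := Nat.lt_floor_add_one (200 * a)
        unfold ml
        push_cast
        linarith)
      have n6 := v_mono m3
      rw [v_add, v_add] at n6
      have n7 := k1 a ha
      have n8 := cst_nonneg nE gs g.j1 lo a a
      linarith
    · have n7 := k1 l (ha.trans hl)
      have n8 := cst_nonneg nE gs g.j1 lo a l
      refine le_trans ?_ (le_add_of_le_of_nonneg n7 n8)
      have f3 : ⌊200 * a⌋₊ ≤ ⌊200 * l⌋₊ := Nat.floor_mono (by linarith)
      by_cases h : ⌊200 * l⌋₊ < g.j1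
      · have e' : j0 + (⌊200 * l⌋₊ - j0) = ⌊200 * l⌋₊ := by omega
        exact hS.2.2.2.1 E j0 T' _ m l (by omega) (by rw [e']; exact fl_le (h0.trans hl))
          (m2 _ (by omega) (by omega))
      · refine part1 hX hS E j0 T' (g.j1 - j0) g.jt m l (by omega) w4 m1
          (le_trans ?_ (fl_le (h0.trans hl)))
        have : j0 + (g.j1 - j0) ≤ ⌊200 * l⌋₊ := by omega
        gcongr

end WalkL

theorem walkOf : WalkOf := fun hX hA hS =>
  ⟨WalkL.part1 hX hS, fun E nE ds gs j0 T base lo a => WalkL.part2 hX hA hS E nE ds gs j0 T base lo a⟩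

end Pool.Agent.MP_c5bf7b_nt.H25L.Nm
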